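import Pool.Agent.Zk15.Ff12

/-!
# Resolution of quotients of tori over curves
-/

set_option autoImplicit false
set_option linter.unusedSectionVars false
set_option linter.overlappingInstances false

namespace Pool.Agent.Zk15.F

open AlgebraicGeometry CategoryTheory
open Pool.Agent.Y223.G Pool.Agent.Zk15

theorem curveResK {p : ℕ} (hp : p.Prime) {k O G B K : Type} [Field k] [PerfectField k]
    (hpk : (p : k) = 0) [CommRing O] [IsDomain O] [IsDedekindDomain O] [Algebra k O]
    [Algebra.FiniteType k O] [Group G] [Finite G] (T : G →* (O ≃ₐ[k] O))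
    (hT : Function.Injective T)
    (hin : ∀ 𝔓 : Ideal O, 𝔓.IsMaximal → 𝔓 ≠ ⊥ → ¬ p ^ 2 ∣ Nat.card (inG T 𝔓))
    [CommRing B] [IsDomain B] [Algebra k B] [Algebra.FiniteType k B] [Algebra O B]
    [IsScalarTower k O B] (θ : G →* (B ≃ₐ[k] B))
    (hθO : ∀ g o, θ g (algebraMap O B o) = algebraMap O B (T g o))
    {Λ : Type} [AddCommGroup Λ] {n : ℕ} (e0 : Module.Basis (Fin n) ℤ Λ) (φ : G →* (Λ ≃ₗ[ℤ] Λ))
    (x : Λ → B) (x0 : x 0 = 1) (xa : ∀ a b, x (a + b) = x a * x b) (li : LinearIndependent O x)
    (hsp : Algebra.adjoin O (Set.range x) = ⊤) (hθx : ∀ g m, θ g (x m) = x (φ g m))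
    [Field K] [Algebra B K] [IsFractionRing B K] [Algebra O K] [IsScalarTower O B K]
    [Algebra k K] [IsScalarTower k B K] [IsScalarTower k O K] :
    Pool.Agent.H920R2.HasResolution (X := Spec (CommRingCat.of (invS θ)))
      (Spec.map (CommRingCat.ofHom (algebraMap k (invS θ)))) := by
  classical
  have hBK : Function.Injective (algebraMap B K) := IsFractionRing.injective B K
  have hOB : Function.Injective (algebraMap O B) := by
    rw [injective_iff_map_eq_zero]
    intro r hr
    refine linearIndependent_iff'.1 li {0} (fun _ => r) ?_ 0 (Finset.mem_singleton_self _)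
    rw [Finset.sum_singleton, x0, Algebra.smul_def, hr, zero_mul]
  have hOK : Function.Injective (algebraMap O K) := by
    rw [IsScalarTower.algebraMap_eq O B K]
    exact hBK.comp hOB
  let ρ₀ : G →* (K ≃ₐ[k] K) := (IsFractionRing.fieldEquivOfAlgEquivHom (A := k) (B := B) k K).comp θ
  have hρ₀ : ∀ g b, ρ₀ g (algebraMap B K b) = algebraMap B K (θ g b) := fun g b =>
    IsFractionRing.fieldEquivOfAlgEquiv_algebraMap k K K (θ g) b
  have hρ₀O : ∀ g o, ρ₀ g (algebraMap O K o) = algebraMap O K (T g o) := fun g o => by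
    rw [IsScalarTower.algebraMap_apply O B K, hρ₀, hθO, ← IsScalarTower.algebraMap_apply]
  have hAK : ∀ a : invS T, algebraMap (invS T) K a = algebraMap O K (a : O) := fun a => rfl
  let ρ : G →* (K ≃ₐ[invS T] K) :=
    { toFun := fun g => AlgEquiv.ofRingEquiv (f := (ρ₀ g : K ≃ₐ[k] K).toRingEquiv) (by
        intro a
        change ρ₀ g (algebraMap O K (a : O)) = algebraMap O K (a : O)
        rw [hρ₀O, a.2 g])
      map_one' := by
        ext y
        change ρ₀ 1 y = y
        rw [map_one]
        rfl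
      map_mul' := fun g h => by
        ext y
        change ρ₀ (g * h) y = ρ₀ g (ρ₀ h y)
        rw [map_mul]
        rfl }
  have hρ : ∀ g y, ρ g y = ρ₀ g y := fun g y => rfl
  have hGF : GF (invS T) O K G ρ (TA T) := gf_of hT hp hpk hin hOK ρ hρ₀O
  -- the fixed field
  let Y : IntermediateField k K :=
    { carrier := {y | ∀ g, ρ₀ g y = y}
      mul_mem' := fun {a b} ha hb g => by rw [map_mul, ha g, hb g]
      add_mem' := fun {a b} ha hb g => by rw [map_add, ha g, hb g]
      algebraMap_mem' := fun c g => AlgEquiv.commutes _ _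
      inv_mem' := fun a ha g => by rw [map_inv₀, ha g] }
  have hY : ∀ y : K, y ∈ Y ↔ ∀ g, ρ₀ g y = y := fun y => Iff.rfl
  let algAY : Algebra (invS T) Y := ((algebraMap (invS T) K).codRestrict Y.toSubfield.toSubring
    (fun a g => by
      change ρ₀ g (algebraMap O K (a : O)) = algebraMap O K (a : O)
      rw [hρ₀O, a.2 g])).toAlgebra
  let ι : Y →ₐ[invS T] K := { (Y.val : Y →+* K) with commutes' := fun a => rfl }
  have hι : ∀ y, ι y = (y : K) := fun y => rfl
  have hfixK : ∀ y : K, (∀ g, ρ g y = y) ↔ ∃ y', ι y' = y := by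
    intro y
    constructor
    · exact fun h => ⟨⟨y, h⟩, rfl⟩
    · rintro ⟨y', rfl⟩ g
      exact y'.2 g
  -- the ring of invariants
  let algDY : Algebra (invS θ) Y := (((algebraMap B K).comp (invS θ).subtype).codRestrict
    Y.toSubfield.toSubring (fun b g => by
      change ρ₀ g (algebraMap B K (b : B)) = algebraMap B K (b : B)
      rw [hρ₀, b.2 g])).toAlgebra
  have hDY : ∀ b : invS θ, ((algebraMap (invS θ) Y b : Y) : K) = algebraMap B K (b : B) :=
    fun b => rfl
  let algAD : Algebra (invS T) (invS θ) := (((algebraMap O B).comp (invS T).subtype).codRestrict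
    (invS θ) (fun a g => by
      change θ g (algebraMap O B (a : O)) = algebraMap O B (a : O)
      rw [hθO, a.2 g])).toAlgebra
  have htow : IsScalarTower (invS T) (invS θ) Y := IsScalarTower.of_algebraMap_eq fun a => by
    apply Subtype.ext
    change algebraMap O K (a : O) = algebraMap B K (algebraMap O B (a : O))
    rw [← IsScalarTower.algebraMap_apply]
  have htow2 : IsScalarTower k (invS θ) Y := IsScalarTower.of_algebraMap_eq fun a => by
    apply Subtype.ext
    change algebraMap k K a = algebraMap B K (algebraMap k B a)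
    rw [← IsScalarTower.algebraMap_apply]
  have hftA : Algebra.FiniteType k (invS T) := invS_ft T
  have hftD : Algebra.FiniteType k (invS θ) := invS_ft θ
  have hNA : IsNoetherianRing (invS T) := Algebra.FiniteType.isNoetherianRing k (invS T)
  have hND : IsNoetherianRing (invS θ) := Algebra.FiniteType.isNoetherianRing k (invS θ)
  have hDinj : Function.Injective (algebraMap (invS θ) Y) := by
    intro a b hab
    have h1 := congrArg (fun y : Y => (y : K)) hab
    exact Subtype.ext (hBK h1)
  -- the monomials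
  have hmem : ∀ y : K, y ∈ Algebra.adjoin O (Set.range fun m => algebraMap B K (x m)) ↔
      ∃ b : B, algebraMap B K b = y := by
    intro y
    have h1 : Set.range (fun m => algebraMap B K (x m)) =
        (IsScalarTower.toAlgHom O B K) '' (Set.range x) := by
      rw [← Set.range_comp]
      rfl
    rw [h1, ← AlgHom.map_adjoin, hsp]
    constructor
    · rintro ⟨b, -, rfl⟩
      exact ⟨b, rfl⟩
    · rintro ⟨b, rfl⟩
      exact ⟨b, trivial, rfl⟩
  obtain ⟨I, hI, w, J, hM⟩ := torusModel ι hGF hfixK e0 φ (X := fun m => algebraMap B K (x m))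
    (by rw [x0, map_one]) (fun a b => by rw [xa, map_mul])
    (li.map' (IsScalarTower.toAlgHom O B K).toLinearMap (LinearMap.ker_eq_bot.2 hBK))
    (fun g m => by
      rw [hρ, hρ₀, hθx])
    (fun y => by
      obtain ⟨a, b, hb, rfl⟩ := IsFractionRing.div_surjective (A := B) y
      exact ⟨_, _, (hmem _).2 ⟨a, rfl⟩, (hmem _).2 ⟨b, rfl⟩,
        fun h => nonZeroDivisors.ne_zero hb (hBK (by rw [h, map_zero])), rfl⟩)
    (invS θ) hDinj
    (fun y => by
      rw [hmem]
      constructor
      · rintro ⟨b, hb⟩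
        refine ⟨⟨b, fun g => hBK ?_⟩, Subtype.ext hb⟩
        rw [← hρ₀, hb]
        exact y.2 g
      · rintro ⟨a, rfl⟩
        exact ⟨a, rfl⟩)
  refine res_of_model hDinj ?_ hM
  -- fractions
  intro y
  have := Fintype.ofFinite G
  obtain ⟨a, b, hb, hab⟩ := IsFractionRing.div_surjective (A := B) (y : K)
  have hb0 : b ≠ 0 := nonZeroDivisors.ne_zero hb
  -- the norm of the denominator
  have hn : ∀ g, θ g (∏ h : G, θ h b) = ∏ h : G, θ h b := by
    intro g
    rw [map_prod]
    refine Fintype.prod_equiv (Equiv.mulLeft g) _ _ fun h => ?_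
    rw [Equiv.coe_mulLeft, map_mul, AlgEquiv.mul_apply]
  have hn0 : (∏ h : G, θ h b) ≠ 0 := Finset.prod_ne_zero_iff.2 fun h _ =>
    (map_ne_zero_iff _ (θ h).injective).2 hb0
  have hmul : (∏ h : G, θ h b) = b * ∏ h ∈ Finset.univ.erase 1, θ h b := by
    rw [← Finset.mul_prod_erase Finset.univ _ (Finset.mem_univ (1 : G)), map_one,
      AlgEquiv.one_apply]
  have hnum : (y : K) * algebraMap B K (∏ h : G, θ h b) =
      algebraMap B K (a * ∏ h ∈ Finset.univ.erase 1, θ h b) := by
    have hbK : algebraMap B K b ≠ 0 := (map_ne_zero_iff _ hBK).2 hb0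
    rw [hmul, ← hab, map_mul, map_mul]
    field_simp
  have hnumi : ∀ g, θ g (a * ∏ h ∈ Finset.univ.erase 1, θ h b) =
      a * ∏ h ∈ Finset.univ.erase 1, θ h b := by
    intro g
    apply hBK
    rw [← hρ₀, ← hnum, map_mul, hρ₀, hn]
    rw [y.2 g]
  refine ⟨⟨_, hnumi⟩, ⟨_, hn⟩, fun h => hn0 (congrArg Subtype.val h), Subtype.ext ?_⟩
  exact hnum

end Pool.Agent.Zk15.F
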