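import Pool.Agent.Zk15.Mink

/-!
# Minkowski's theorem; the invariants are not counted
-/

set_option autoImplicit false

namespace Pool.Agent.Zk15

/-- A finite group which acts faithfully on a lattice `Λ` such that the rank of `Λ` minus the rank
of the invariants is less than `2 (p - 1)` has order not divisible by `p ^ 2`. -/
theorem mink_inv {I : Type} [Group I] [Finite I] {Λ : Type} [AddCommGroup Λ] [Module.Finite ℤ Λ]
    [Module.Free ℤ Λ] {p : ℕ} (hp : p.Prime) (φ : I →* (Λ ≃ₗ[ℤ] Λ)) (W : Submodule ℤ Λ)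
    (hW : ∀ μ, μ ∈ W ↔ ∀ g, φ g μ = μ)
    (hn : Module.finrank ℤ Λ < Module.finrank ℤ W + 2 * (p - 1))
    (hf : ∀ g, (∀ μ, φ g μ = μ) → g = 1) : ¬ p ^ 2 ∣ Nat.card I := by
  classical
  have htf : Module.IsTorsionFree ℤ (Λ ⧸ W) := by
    refine Module.IsTorsionFree.of_smul_eq_zero fun r m h => ?_
    by_cases hr : r = 0
    · exact Or.inl hr
    right
    obtain ⟨μ, rfl⟩ := Submodule.Quotient.mk_surjective W m
    rw [← Submodule.Quotient.mk_smul, Submodule.Quotient.mk_eq_zero, hW] at h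
    rw [Submodule.Quotient.mk_eq_zero, hW]
    intro g
    have h1 := h g
    rw [map_smul] at h1
    exact smul_right_injective Λ hr h1
  have hfree : Module.Free ℤ (Λ ⧸ W) := Module.free_of_finite_type_torsion_free'
  have hmap : ∀ g, W.map (φ g : Λ →ₗ[ℤ] Λ) = W := by
    have h1 : ∀ g, ∀ μ ∈ W, φ g μ ∈ W := by
      intro g μ hμ
      rw [(hW μ).1 hμ g]
      exact hμ
    intro g
    apply le_antisymm
    · rintro _ ⟨μ, hμ, rfl⟩
      exact h1 g μ hμ
    · intro μ hμ
      refine ⟨μ, hμ, (hW μ).1 hμ g⟩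
  let ψ0 : I → ((Λ ⧸ W) ≃ₗ[ℤ] (Λ ⧸ W)) := fun g => Submodule.Quotient.equiv W W (φ g) (hmap g)
  have hψ0 : ∀ g μ, ψ0 g (Submodule.Quotient.mk μ) = Submodule.Quotient.mk (φ g μ) :=
    fun g μ => rfl
  let m := Module.finrank ℤ (Λ ⧸ W)
  let e0 : Module.Basis (Fin m) ℤ (Λ ⧸ W) := Module.finBasis ℤ _
  have hm : m < 2 * (p - 1) := by
    have h1 := Submodule.finrank_quotient_add_finrank W
    omega
  let ψ : I →* ((Fin m → ℤ) ≃ₗ[ℤ] (Fin m → ℤ)) :=
    { toFun := fun g => (e0.equivFun.symm.trans (ψ0 g)).trans e0.equivFun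
      map_one' := by
        refine LinearEquiv.ext fun v => ?_
        change e0.equivFun (ψ0 1 (e0.equivFun.symm v)) = v
        obtain ⟨μ, hμ⟩ := Submodule.Quotient.mk_surjective W (e0.equivFun.symm v)
        rw [← hμ, hψ0, map_one]
        change e0.equivFun (Submodule.Quotient.mk μ) = v
        rw [hμ, LinearEquiv.apply_symm_apply]
      map_mul' := fun g h => by
        refine LinearEquiv.ext fun v => ?_
        change e0.equivFun (ψ0 (g * h) (e0.equivFun.symm v)) =
          e0.equivFun (ψ0 g (e0.equivFun.symm (e0.equivFun (ψ0 h (e0.equivFun.symm v)))))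
        rw [LinearEquiv.symm_apply_apply]
        obtain ⟨μ, hμ⟩ := Submodule.Quotient.mk_surjective W (e0.equivFun.symm v)
        rw [← hμ, hψ0, hψ0, hψ0, map_mul]
        rfl }
  refine mink hp hm ψ ?_
  rw [injective_iff_map_eq_one]
  intro g hg
  apply hf
  intro μ
  -- `φ g μ - μ` is invariant
  have h1 : ∀ ν, φ g ν - ν ∈ W := by
    intro ν
    have h2 := congrArg (fun f : (Fin m → ℤ) ≃ₗ[ℤ] (Fin m → ℤ) =>
      f (e0.equivFun (Submodule.Quotient.mk ν))) hg
    have h3 : e0.equivFun (ψ0 g (e0.equivFun.symm (e0.equivFun (Submodule.Quotient.mk ν)))) =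
      e0.equivFun (Submodule.Quotient.mk ν) := h2
    rw [LinearEquiv.symm_apply_apply, hψ0] at h3
    have h4 := e0.equivFun.injective h3
    rwa [← sub_eq_zero, ← Submodule.Quotient.mk_sub, Submodule.Quotient.mk_eq_zero] at h4
  have h2 : ∀ k : ℕ, φ (g ^ k) μ = μ + k • (φ g μ - μ) := by
    intro k
    induction k with
    | zero => rw [pow_zero, map_one, zero_smul, add_zero]; rfl
    | succ k ih =>
      rw [pow_succ', map_mul]
      change φ g (φ (g ^ k) μ) = _
      rw [ih, map_add, map_nsmul, (hW _).1 (h1 μ) g, add_smul, one_smul]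
      abel
  have h3 := h2 (Nat.card I)
  rw [pow_card_eq_one', map_one] at h3
  have h4 : (Nat.card I) • (φ g μ - μ) = 0 := by
    have h5 : μ + (Nat.card I) • (φ g μ - μ) = μ + 0 := by
      rw [add_zero, ← h3]
      rfl
    exact add_left_cancel h5
  have h5 : ((Nat.card I : ℕ) : ℤ) • (φ g μ - μ) = 0 := by
    rw [natCast_zsmul]
    exact h4
  rcases smul_eq_zero.1 h5 with h6 | h6
  · exact absurd h6 (Nat.cast_ne_zero.2 Nat.card_pos.ne')
  · exact sub_eq_zero.1 h6

end Pool.Agent.Zk15
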