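import Pool.Agent.Zk15.Fp17
import Pool.Agent.Y246.G.HasM
import Pool.Agent.N864.GT.Sm

/-!
# Smooth projective models
-/

set_option autoImplicit false
set_option linter.unusedVariables false
set_option linter.unusedSectionVars false
set_option linter.overlappingInstances false

namespace Pool.Agent.Zk15

open Pool.Agent.Y223.G
open Pool.Agent.H918R2.Quad (chart)

/-- Smooth projective models. -/
def HasSm (k E : Type) [Field k] [Field E] [Algebra k E] : Prop :=
  ∃ (N : ℕ) (H : Fin (N + 1) → E), (∀ i, H i ≠ 0) ∧ ∀ i,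
    Algebra.Smooth k (Algebra.adjoin k (Set.range fun j => H j / H i)) ∧
    IsFractionRing (Algebra.adjoin k (Set.range fun j => H j / H i)) E

lemma chart_span {k Y ι : Type} [Field k] [Field Y] [Algebra k Y] {M : Submodule k Y} {H : ι → Y}
    (hH : Submodule.span k (Set.range H) = M) (f : Y) :
    chart k M f = Algebra.adjoin k (Set.range fun j => H j / f) := by
  apply le_antisymm
  · refine Algebra.adjoin_le ?_
    rintro _ ⟨m, hm, rfl⟩
    rw [← hH] at hm
    change m / f ∈ Algebra.adjoin k (Set.range fun j => H j / f)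
    induction hm using Submodule.span_induction with
    | mem x hx =>
      obtain ⟨j, rfl⟩ := hx
      exact Algebra.subset_adjoin ⟨j, rfl⟩
    | zero =>
      rw [zero_div]
      exact zero_mem _
    | add x y _ _ hx hy =>
      rw [add_div]
      exact add_mem hx hy
    | smul r x _ hx =>
      rw [smul_div_assoc]
      exact Subalgebra.smul_mem _ hx r
  · refine Algebra.adjoin_le ?_
    rintro _ ⟨j, rfl⟩
    refine Algebra.subset_adjoin ⟨H j, ?_, rfl⟩
    rw [← hH]
    exact Submodule.subset_span ⟨j, rfl⟩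

theorem hasSm_of_model {k Y : Type} [Field k] [PerfectField k] [Field Y] [Algebra k Y] {I : Type}
    [Finite I] {w : I → Y} {J : Set I}
    (h : ModelG (k := k) False ⊥ (⊤ : Subfield Y) w J) : HasSm k Y := by
  classical
  have htop : (algebraMap Y Y).fieldRange = ⊤ := by
    rw [eq_top_iff]
    rintro x -
    exact ⟨x, rfl⟩
  rw [← htop] at h
  obtain ⟨M', hfg, ⟨f₀, hf₀, hf₀0⟩, hfrac, hreg, -⟩ := Pool.Agent.Y246.G.t_HASM k Y Y
    (algebraMap k Y).injective False ⊥ I w J h
  have hfin : Module.Finite k M' := Module.Finite.iff_fg.2 hfg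
  have hnt : Nontrivial M' := ⟨⟨⟨f₀, hf₀⟩, 0, fun h => hf₀0 (congrArg Subtype.val h)⟩⟩
  have hpos : 0 < Module.finrank k M' := Module.finrank_pos
  obtain ⟨N, hN⟩ : ∃ N, Module.finrank k M' = N + 1 := ⟨Module.finrank k M' - 1, by omega⟩
  let b := Module.finBasisOfFinrankEq k M' hN
  let H : Fin (N + 1) → Y := fun j => (b j : Y)
  have hH0 : ∀ j, H j ≠ 0 := fun j h => b.ne_zero j (Subtype.ext h)
  have hHM : ∀ j, H j ∈ M' := fun j => (b j).2
  have hsp : Submodule.span k (Set.range H) = M' := by
    have h1 : Set.range H = M'.subtype '' Set.range b := by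
      rw [← Set.range_comp]
      rfl
    rw [h1, ← Submodule.map_span, b.span_eq, Submodule.map_top, Submodule.range_subtype]
  refine ⟨N, H, hH0, fun i => ?_⟩
  rw [← chart_span hsp (H i)]
  have hft : Algebra.FiniteType k (chart k M' (H i)) := by
    rw [chart_span hsp (H i)]
    exact (Subalgebra.fg_iff_finiteType _).1 (Subalgebra.fg_def.2
      ⟨Set.range fun j => H j / H i, Set.finite_range _, rfl⟩)
  have hnoe : IsNoetherianRing (chart k M' (H i)) := Algebra.FiniteType.isNoetherianRing k _
  have hrr : IsRegularRing (chart k M' (H i)) :=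
    { isRegularLocalRing_localization := fun q _ => hreg (H i) (hHM i) (hH0 i) q }
  refine ⟨Pool.Agent.N864.GT.smooth_of_regular, ?_⟩
  refine IsFractionRing.of_field _ _ fun y => ?_
  obtain ⟨b, hb, c, hc, hc0, rfl⟩ := hfrac (H i) (hHM i) (hH0 i) y
  exact ⟨⟨b, hb⟩, ⟨c, hc⟩, rfl⟩

end Pool.Agent.Zk15
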