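import Pool.Agent.Zk15.Fp18
import Pool.Agent.H920R2.Gl4
import Pool.Agent.H968R2.Quad.ExistsModel

/-!
# Proper models over the integers of function fields over finite fields
-/

set_option autoImplicit false
set_option linter.unusedVariables false
set_option linter.unusedSectionVars false

open AlgebraicGeometry CategoryTheory

namespace Pool.Agent.Zk15

section

open Pool.Agent.H920R2

/-- A smooth projective variety over a finite field is a regular model. -/
theorem regular_of_hasSm {k F : Type} [Field k] [Finite k] [Field F] [Algebra k F]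
    (h : HasSm k F) :
    ∃ (X' : Scheme.{0}) (_ : IsIntegral X') (g : X' ⟶ Spec (CommRingCat.of ℤ)),
      IsProper g ∧
      (∀ x : X',
        (((Module.finrank (IsLocalRing.ResidueField (X'.presheaf.stalk x))
            (IsLocalRing.CotangentSpace (X'.presheaf.stalk x)) : ℕ∞)) : WithBot ℕ∞)
          = ringKrullDim (X'.presheaf.stalk x)) ∧
      Nonempty (X'.functionField ≃+* F) := by
  classical
  obtain ⟨l, z, hz, hsm⟩ := h
  let W : Fin (l + 1) → Set F := fun i => (Algebra.adjoin k (Set.range fun j => z j / z i) : Set F)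
  have hM : ModelG k W (⊤ : IntermediateField k F).toSubfield z Set.univ :=
    { zK := fun i => trivial
      z0 := fun j _ => hz j
      cv := by
        intro V hV
        obtain ⟨i₀, hi₀⟩ := Finite.exists_max fun i => V.valuation (z i)
        refine ⟨i₀, trivial, fun i => ?_⟩
        rw [← V.valuation_le_one_iff, map_div₀]
        exact div_le_one_of_le₀ (hi₀ i) zero_le'
      sm := fun j _ => (hsm j).1
      aa := fun j _ => ⟨j, subset_rfl⟩ }
  have hW : ∀ a, ∀ x ∈ (⊤ : IntermediateField k F), ∃ y ∈ W a, ∃ y' ∈ W a, y' ≠ 0 ∧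
      x = y / y' := by
    intro a x _
    have := (hsm a).2
    obtain ⟨b, c, hc, h1⟩ := IsFractionRing.div_surjective
      (A := Algebra.adjoin k (Set.range fun j => z j / z a)) x
    refine ⟨b, b.2, c, c.2, fun h2 => nonZeroDivisors.ne_zero hc (Subtype.ext h2), h1.symm⟩
  obtain ⟨X', hX', g, h1, h2, ⟨h3⟩⟩ := exists_regular_model (⊤ : IntermediateField k F) hM hW
  exact ⟨X', hX', g, h1, h2, ⟨h3.trans IntermediateField.topEquiv.toRingEquiv⟩⟩

end

/-- Every finitely generated field over a finite field is the function field of an integral scheme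
which is proper over the integers. -/
theorem exists_proper_of_fg {k F : Type} [Field k] [Finite k] [Field F] [Algebra k F]
    [Algebra.EssFiniteType k F] :
    ∃ (X' : Scheme.{0}) (_ : IsIntegral X') (g : X' ⟶ Spec (CommRingCat.of ℤ)),
      IsProper g ∧ Nonempty (X'.functionField ≃+* F) := by
  classical
  have hZ : Module.Finite ℤ k := Module.Finite.of_finite
  let S : Finset F := insert 1 (Algebra.EssFiniteType.finset k F)
  let M : Submodule k F := Submodule.span k (S : Set F)
  have h1M : (1 : F) ∈ M := Submodule.subset_span (Finset.mem_coe.2 (Finset.mem_insert_self _ _))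
  have hgM : ∀ x ∈ Algebra.EssFiniteType.finset k F, x ∈ M := fun x hx =>
    Submodule.subset_span (Finset.mem_coe.2 (Finset.mem_insert_of_mem hx))
  have hgen : ∀ f ∈ M, f ≠ 0 → ∀ x : F, ∃ a ∈ Algebra.adjoin k {y : F | ∃ m ∈ M, y = m / f},
      ∃ b ∈ Algebra.adjoin k {y : F | ∃ m ∈ M, y = m / f}, b ≠ 0 ∧ x = a / b := by
    intro f hf hf0
    set A := Algebra.adjoin k {y : F | ∃ m ∈ M, y = m / f} with hA
    -- the quotients of elements of `A` form a field
    let L : Subfield F :=
      { carrier := {x | ∃ a ∈ A, ∃ b ∈ A, b ≠ 0 ∧ x = a / b}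
        mul_mem' := by
          rintro _ _ ⟨a, ha, b, hb, hb0, rfl⟩ ⟨a', ha', b', hb', hb0', rfl⟩
          exact ⟨a * a', mul_mem ha ha', b * b', mul_mem hb hb', mul_ne_zero hb0 hb0',
            by rw [div_mul_div_comm]⟩
        one_mem' := ⟨1, one_mem _, 1, one_mem _, one_ne_zero, by rw [div_one]⟩
        add_mem' := by
          rintro _ _ ⟨a, ha, b, hb, hb0, rfl⟩ ⟨a', ha', b', hb', hb0', rfl⟩
          exact ⟨a * b' + b * a', add_mem (mul_mem ha hb') (mul_mem hb ha'), b * b',
            mul_mem hb hb', mul_ne_zero hb0 hb0', by rw [div_add_div _ _ hb0 hb0']⟩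
        zero_mem' := ⟨0, zero_mem _, 1, one_mem _, one_ne_zero, by rw [div_one]⟩
        neg_mem' := by
          rintro _ ⟨a, ha, b, hb, hb0, rfl⟩
          exact ⟨-a, neg_mem ha, b, hb, hb0, by rw [neg_div]⟩
        inv_mem' := by
          rintro _ ⟨a, ha, b, hb, hb0, rfl⟩
          by_cases ha0 : a = 0
          · exact ⟨0, zero_mem _, 1, one_mem _, one_ne_zero, by rw [ha0]; simp⟩
          · exact ⟨b, hb, a, ha, ha0, by rw [inv_div]⟩ }
    have hAL : ∀ a ∈ A, a ∈ L := fun a ha => ⟨a, ha, 1, one_mem _, one_ne_zero, by rw [div_one]⟩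
    have hfi : f⁻¹ ∈ L := hAL _ (Algebra.subset_adjoin ⟨1, h1M, by rw [one_div]⟩)
    have hML : ∀ m ∈ M, m ∈ L := by
      intro m hm
      have h1 : m / f ∈ L := hAL _ (Algebra.subset_adjoin ⟨m, hm, rfl⟩)
      have h2 := div_mem h1 hfi
      have e : m / f / f⁻¹ = m := by field_simp
      rwa [e] at h2
    have hkL : ∀ c : k, algebraMap k F c ∈ L := fun c => hAL _ (A.algebraMap_mem c)
    have hSL : ∀ x ∈ Algebra.EssFiniteType.subalgebra k F, x ∈ L := by
      intro x hx
      refine Algebra.adjoin_induction (s := (Algebra.EssFiniteType.finset k F : Set F))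
        (p := fun x _ => x ∈ L) (fun x hx => hML x (hgM x hx)) hkL (fun x y _ _ => L.add_mem)
        (fun x y _ _ => L.mul_mem) hx
    intro x
    obtain ⟨⟨a, s⟩, h1⟩ := IsLocalization.surj (M := Algebra.EssFiniteType.submonoid k F) x
    have hs : algebraMap (Algebra.EssFiniteType.subalgebra k F) F s ≠ 0 :=
      (IsLocalization.map_units (M := Algebra.EssFiniteType.submonoid k F) F s).ne_zero
    have h2 : x = algebraMap (Algebra.EssFiniteType.subalgebra k F) F a /
        algebraMap (Algebra.EssFiniteType.subalgebra k F) F s := by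
      rw [eq_div_iff hs]
      exact h1
    have h3 : x ∈ L := by
      rw [h2]
      exact div_mem (hSL _ a.2) (hSL _ (s : Algebra.EssFiniteType.subalgebra k F).2)
    exact h3
  have hfg : M.FG := ⟨S, rfl⟩
  have hinj : Function.Injective (algebraMap k F) := (algebraMap k F).injective
  have hint : IsIntegral (Pool.Agent.H968R2.Quad.model M) :=
    Pool.Agent.H968R2.Quad.model_integral M 1 h1M one_ne_zero
  refine ⟨Pool.Agent.H968R2.Quad.model M, hint,
    Pool.Agent.H968R2.Quad.modelMap M ≫ Spec.map (CommRingCat.ofHom (algebraMap ℤ k)), ?_,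
    Pool.Agent.H968R2.Quad.functionField_equiv M 1 h1M one_ne_zero (hgen 1 h1M one_ne_zero)⟩
  have h1 : IsProper (Pool.Agent.H968R2.Quad.modelMap M) :=
    Pool.Agent.H968R2.Quad.modelMap_isProper M hinj hfg
  have h2 : IsFinite (Spec.map (CommRingCat.ofHom (algebraMap ℤ k))) := by
    rw [IsFinite.SpecMap_iff]
    exact RingHom.finite_algebraMap.2 hZ
  exact inferInstance

/-- The residue characteristics of an integral scheme whose function field has characteristic
`p`. -/
theorem ringChar_of_functionField {X' : Scheme.{0}} [IsIntegral X'] {F : Type} [Field F]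
    (i : X'.functionField ≃+* F) {p : ℕ} (hp : p.Prime) (hF : (p : F) = 0) (x : X') :
    ringChar (IsLocalRing.ResidueField (X'.presheaf.stalk x)) = p := by
  have h1 : ((p : ℕ) : X'.functionField) = 0 := by
    apply i.injective
    rw [map_natCast, map_zero, hF]
  have h2 : ((p : ℕ) : X'.presheaf.stalk x) = 0 := by
    apply IsFractionRing.injective (X'.presheaf.stalk x) X'.functionField
    rw [map_natCast, map_zero, h1]
  have h3 : ((p : ℕ) : IsLocalRing.ResidueField (X'.presheaf.stalk x)) = 0 := by
    rw [← map_natCast (IsLocalRing.residue (X'.presheaf.stalk x)), h2, map_zero]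
  rcases (Nat.dvd_prime hp).1 (ringChar.dvd h3) with h | h
  · exact absurd h (CharP.ringChar_ne_one)
  · exact h

end Pool.Agent.Zk15
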