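import Mathlib

/-!
# Finite groups of integral matrices: groups of order `p ^ 2`
-/

set_option autoImplicit false
set_option linter.unusedVariables false
set_option linter.unusedSectionVars false

namespace Pool.Agent.Zk15

/-- A prime number which generates the units modulo `p ^ 2`. -/
theorem exists_gen {p : ℕ} (hp : p.Prime) : ∃ l : ℕ, l.Prime ∧ l ≠ p ∧
    ∀ i : ℕ, p ^ 2 ∣ l ^ i - 1 → p * (p - 1) ∣ i := by
  have : Fact p.Prime := ⟨hp⟩
  have hne : NeZero (p ^ 2) := ⟨pow_ne_zero _ hp.ne_zero⟩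
  have hcyc : IsCyclic (ZMod (p ^ 2))ˣ := by
    rcases eq_or_ne p 2 with h | h
    · subst h
      exact ZMod.isCyclic_units_four
    · exact ZMod.isCyclic_units_of_prime_pow p hp h 2
  obtain ⟨g, hg⟩ := IsCyclic.exists_generator (α := (ZMod (p ^ 2))ˣ)
  have hord : orderOf g = p * (p - 1) := by
    rw [orderOf_eq_card_of_forall_mem_zpowers hg, Nat.card_eq_fintype_card,
      ZMod.card_units_eq_totient, Nat.totient_prime_pow hp (by norm_num)]
    norm_num
  obtain ⟨l, hl, hlp, hlg⟩ := Nat.forall_exists_prime_gt_and_eq_mod (q := p ^ 2) g.isUnit p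
  refine ⟨l, hlp, by omega, fun i hi => ?_⟩
  rw [← hord]
  apply orderOf_dvd_of_pow_eq_one
  apply Units.ext
  have h1 : ((l ^ i - 1 : ℕ) : ZMod (p ^ 2)) = 0 := (ZMod.natCast_eq_zero_iff _ _).2 hi
  rw [Nat.cast_sub (Nat.one_le_pow _ _ hlp.pos), Nat.cast_pow, hlg, Nat.cast_one,
    sub_eq_zero] at h1
  rw [Units.val_pow_eq_pow_val, Units.val_one]
  exact h1

/-- The order of the general linear group. -/
theorem exists_GL {p n : ℕ} (hp : p.Prime) (hn : n < 2 * (p - 1)) : ∃ l : ℕ, l.Prime ∧ l ≠ p ∧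
    ¬ p ^ 2 ∣ ∏ i : Fin n, (l ^ n - l ^ (i : ℕ)) := by
  obtain ⟨l, hl, hlp, hord⟩ := exists_gen hp
  refine ⟨l, hl, hlp, fun hd => ?_⟩
  have hp2 := hp.two_le
  -- the exponents
  have h1 : ∀ i : ℕ, p ∣ l ^ i - 1 → (p - 1) ∣ i := by
    intro i hi
    have h2 : (p : ℤ) ∣ (l : ℤ) ^ i - 1 := by
      have h3 : ((l ^ i - 1 : ℕ) : ℤ) = (l : ℤ) ^ i - 1 := by
        rw [Nat.cast_sub (Nat.one_le_pow _ _ hl.pos)]
        push_cast
        rfl
      rw [← h3]
      exact_mod_cast hi
    have h4 := dvd_sub_pow_of_dvd_sub h2 1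
    rw [one_pow, pow_one, ← pow_mul] at h4
    have h5 : p ^ 2 ∣ l ^ (i * p) - 1 := by
      have h3 : ((l ^ (i * p) - 1 : ℕ) : ℤ) = (l : ℤ) ^ (i * p) - 1 := by
        rw [Nat.cast_sub (Nat.one_le_pow _ _ hl.pos)]
        push_cast
        rfl
      have h6 : ((p ^ 2 : ℕ) : ℤ) ∣ ((l ^ (i * p) - 1 : ℕ) : ℤ) := by
        rw [h3]
        push_cast
        exact h4
      exact_mod_cast h6
    have h6 := hord _ h5
    rw [mul_comm i p] at h6
    exact Nat.dvd_of_mul_dvd_mul_left hp.pos h6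
  have hcop : ∀ j : ℕ, Nat.Coprime p (l ^ j) := fun j =>
    Nat.Coprime.pow_right _ ((Nat.coprime_primes hp hl).2 (Ne.symm hlp))
  have hfac : ∀ i : Fin n, l ^ n - l ^ (i : ℕ) = l ^ (i : ℕ) * (l ^ (n - i) - 1) := by
    intro i
    rw [Nat.mul_sub, ← pow_add, mul_one, Nat.add_sub_cancel' i.2.le]
  have hnd : ∀ i : Fin n, n - (i : ℕ) ≠ p - 1 → Nat.Coprime p (l ^ n - l ^ (i : ℕ)) := by
    intro i hi
    rw [hfac]
    refine Nat.Coprime.mul_right (hcop _) ((Nat.Prime.coprime_iff_not_dvd hp).2 fun h => hi ?_)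
    obtain ⟨c, hc⟩ := h1 _ h
    have h3 : 0 < n - (i : ℕ) := by omega
    have h4 : c ≠ 0 := by
      rintro rfl
      omega
    have h5 : c < 2 := by
      by_contra h6
      have h7 : (p - 1) * 2 ≤ (p - 1) * c := Nat.mul_le_mul_left _ (by omega)
      omega
    have h6 : c = 1 := by omega
    rw [hc, h6, mul_one]
  by_cases hex : ∃ i0 : Fin n, n - (i0 : ℕ) = p - 1
  · obtain ⟨i0, hi0⟩ := hex
    rw [← Finset.mul_prod_erase _ _ (Finset.mem_univ i0)] at hd
    have h2 : Nat.Coprime (p ^ 2) (∏ i ∈ Finset.univ.erase i0, (l ^ n - l ^ (i : ℕ))) := by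
      refine Nat.Coprime.pow_left _ (Nat.Coprime.prod_right fun i hi => hnd i fun h => ?_)
      apply (Finset.mem_erase.1 hi).1
      apply Fin.ext
      omega
    have h3 := h2.dvd_of_dvd_mul_right hd
    rw [hfac, hi0] at h3
    have h4 := (Nat.Coprime.pow_left 2 (hcop (i0 : ℕ))).dvd_of_dvd_mul_left h3
    have h5 := hord _ h4
    have h6 := Nat.le_of_dvd (by omega) h5
    have h7 : 2 * (p - 1) ≤ p * (p - 1) := Nat.mul_le_mul_right _ hp2
    omega
  · have h2 : Nat.Coprime p (∏ i : Fin n, (l ^ n - l ^ (i : ℕ))) :=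
      Nat.Coprime.prod_right fun i _ => hnd i fun h => hex ⟨i, h⟩
    have h3 : p ∣ ∏ i : Fin n, (l ^ n - l ^ (i : ℕ)) := (Dvd.intro_left (p ^ 1) (by ring)).trans hd
    exact (Nat.Prime.coprime_iff_not_dvd hp).1 h2 h3

lemma one_add_pow {R : Type} [Ring R] (X : R) (r : ℕ) :
    ∃ Y : R, (1 + X) ^ r = 1 + r • X + X * X * Y := by
  induction r with
  | zero => exact ⟨0, by simp⟩
  | succ r ih =>
    obtain ⟨Y, hY⟩ := ih
    refine ⟨Y + Y * X + (r : R), ?_⟩
    have hc : X * (r : R) = (r : R) * X := (Nat.cast_commute r X).symm.eq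
    rw [pow_succ, hY, nsmul_eq_mul, nsmul_eq_mul]
    push_cast
    have h1 : X * X * (r : R) = (r : R) * X * X := by
      rw [mul_assoc, hc, ← mul_assoc, hc, mul_assoc]
    simp only [mul_add, add_mul, mul_one, one_mul, h1]
    rw [← mul_assoc]
    abel

/-- An integral matrix which is the identity modulo `l` and has an order prime to `l` is the
identity. -/
theorem eq_one_of_pow {n l r : ℕ} (hl : 1 < l) (hr : Nat.Coprime l r)
    (A : Matrix (Fin n) (Fin n) ℤ) (hA : A ^ r = 1) (h : ∀ i j, (l : ℤ) ∣ (A - 1) i j) : A = 1 := by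
  have key : ∀ k : ℕ, 1 ≤ k → ∀ i j, (l : ℤ) ^ k ∣ (A - 1) i j := by
    intro k hk
    induction k, hk using Nat.le_induction with
    | base => simpa using h
    | succ k hk ih =>
      intro i j
      choose B hB using ih
      have hX : A - 1 = ((l : ℤ) ^ k) • (Matrix.of B) := by
        ext i j
        rw [hB i j]
        rfl
      obtain ⟨Y, hY⟩ := one_add_pow (A - 1) r
      rw [add_sub_cancel, hA] at hY
      have h1 : r • (A - 1) = -((A - 1) * (A - 1) * Y) := by
        have h2 : (1 : Matrix (Fin n) (Fin n) ℤ) + 0 = 1 + (r • (A - 1) + (A - 1) * (A - 1) * Y) := by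
          rw [add_zero, ← add_assoc]
          exact hY
        have h3 := add_left_cancel h2
        exact eq_neg_of_add_eq_zero_left h3.symm
      have h4 : r • (A - 1) = ((l : ℤ) ^ (k + k)) • (-(Matrix.of B * Matrix.of B * Y)) := by
        rw [h1]
        nth_rw 1 2 [hX]
        rw [Matrix.smul_mul, Matrix.mul_smul, smul_smul, Matrix.smul_mul, ← pow_add, smul_neg]
      have h5 : (l : ℤ) ^ (k + k) ∣ (r : ℤ) * (A - 1) i j := by
        have h6 := congrFun (congrFun h4 i) j
        refine ⟨(-(Matrix.of B * Matrix.of B * Y)) i j, ?_⟩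
        have h7 : (r • (A - 1)) i j = (r : ℤ) * (A - 1) i j := by
          rw [Matrix.smul_apply, nsmul_eq_mul]
        rw [← h7, h6, Matrix.smul_apply, smul_eq_mul]
      have h6 : IsCoprime ((l : ℤ) ^ (k + k)) (r : ℤ) := (Nat.isCoprime_iff_coprime.2 hr).pow_left
      have h7 := h6.dvd_of_dvd_mul_left h5
      exact (pow_dvd_pow _ (by omega)).trans h7
  ext i j
  have h0 : (A - 1) i j = 0 := by
    by_contra hne
    have h1 := key ((A - 1) i j).natAbs (Int.natAbs_pos.2 hne) i j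
    have h2 : l ^ ((A - 1) i j).natAbs ∣ ((A - 1) i j).natAbs := by
      have h3 := Int.natAbs_dvd_natAbs.2 h1
      rwa [Int.natAbs_pow, Int.natAbs_natCast] at h3
    have h3 := Nat.le_of_dvd (Int.natAbs_pos.2 hne) h2
    have h4 := Nat.lt_pow_self (n := ((A - 1) i j).natAbs) hl
    omega
  rw [Matrix.sub_apply, sub_eq_zero] at h0
  exact h0

/-- **Groups of integral matrices of small size.** -/
theorem mink {H : Type} [Group H] [Finite H] {n p : ℕ} (hp : p.Prime) (hn : n < 2 * (p - 1))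
    (φ : H →* ((Fin n → ℤ) ≃ₗ[ℤ] (Fin n → ℤ))) (hφ : Function.Injective φ) :
    ¬ p ^ 2 ∣ Nat.card H := by
  intro hd
  have : Fact p.Prime := ⟨hp⟩
  obtain ⟨K, hK⟩ := Sylow.exists_subgroup_card_pow_prime p hd
  obtain ⟨l, hl, hlp, hnd⟩ := exists_GL hp hn
  have : Fact l.Prime := ⟨hl⟩
  let e : ((Fin n → ℤ) ≃ₗ[ℤ] (Fin n → ℤ)) ≃* GL (Fin n) ℤ :=
    (LinearMap.GeneralLinearGroup.generalLinearEquiv ℤ (Fin n → ℤ)).symm.trans
      Matrix.GeneralLinearGroup.toLin.symm
  let ψ : K →* GL (Fin n) ℤ := (e.toMonoidHom.comp φ).comp K.subtype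
  have hψ : Function.Injective ψ := by
    intro x y hxy
    exact Subtype.ext (hφ (e.injective hxy))
  let f : K →* GL (Fin n) (ZMod l) := (Matrix.GeneralLinearGroup.map (Int.castRingHom (ZMod l))).comp ψ
  have hf : Function.Injective f := by
    rw [injective_iff_map_eq_one]
    intro g hg
    apply hψ
    rw [map_one]
    apply Units.ext
    refine eq_one_of_pow hl.one_lt (r := p ^ 2)
      (Nat.Coprime.pow_right _ ((Nat.coprime_primes hl hp).2 hlp)) _ ?_ ?_
    · have h1 : g ^ (p ^ 2) = 1 := by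
        rw [← hK]
        exact pow_card_eq_one'
      have h2 := congrArg ψ h1
      rw [map_pow, map_one] at h2
      have h3 := congrArg Units.val h2
      rwa [Units.val_pow_eq_pow_val] at h3
    · intro i j
      have h1 : (f g : Matrix (Fin n) (Fin n) (ZMod l)) i j =
          (1 : Matrix (Fin n) (Fin n) (ZMod l)) i j := by rw [hg]; rfl
      have h2 : (f g : Matrix (Fin n) (Fin n) (ZMod l)) i j =
          (((ψ g : Matrix (Fin n) (Fin n) ℤ) i j : ℤ) : ZMod l) := rfl
      rw [h2] at h1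
      rw [← ZMod.intCast_zmod_eq_zero_iff_dvd, Matrix.sub_apply, Int.cast_sub, h1]
      have h3 : (((1 : Matrix (Fin n) (Fin n) ℤ) i j : ℤ) : ZMod l) =
          (1 : Matrix (Fin n) (Fin n) (ZMod l)) i j := by
        rw [Matrix.one_apply, Matrix.one_apply]
        split_ifs <;> simp
      rw [h3]
      exact sub_self _
  have h1 := Subgroup.card_dvd_of_injective f hf
  rw [hK, Matrix.card_GL_field, ZMod.card] at h1
  exact hnd h1

end Pool.Agent.Zk15
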