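import Pool.Agent.Zk15.Ff11
import Pool.Agent.Zk15.Mink

/-!
# Quotients of tori over curves: the base
-/

set_option autoImplicit false
set_option linter.unusedSectionVars false
set_option linter.overlappingInstances false

namespace Pool.Agent.Zk15.F

open Pool.Agent.Y223.G Pool.Agent.Zk15
open Pool.Agent.Y71.H (Wil mem_Wil)

section inv

variable {k B G : Type} [Field k] [CommRing B] [Algebra k B] [Group G]

/-- The ring of invariants. -/
def invS (θ : G →* (B ≃ₐ[k] B)) : Subalgebra k B where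
  carrier := {b | ∀ g, θ g b = b}
  mul_mem' := fun {a b} ha hb g => by rw [map_mul, ha g, hb g]
  add_mem' := fun {a b} ha hb g => by rw [map_add, ha g, hb g]
  algebraMap_mem' := fun c g => AlgEquiv.commutes _ _

lemma mem_invS {θ : G →* (B ≃ₐ[k] B)} {b : B} : b ∈ invS θ ↔ ∀ g, θ g b = b := Iff.rfl

theorem invS_int [Finite G] (θ : G →* (B ≃ₐ[k] B)) : Algebra.IsIntegral (invS θ) B := by
  let _ : MulSemiringAction G B := MulSemiringAction.compHom B θ
  have _ : Algebra.IsInvariant (invS θ) B G := ⟨fun b hb => ⟨⟨b, hb⟩, rfl⟩⟩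
  exact Algebra.IsInvariant.isIntegral (invS θ) B G

theorem invS_fin [Finite G] [Algebra.FiniteType k B] (θ : G →* (B ≃ₐ[k] B)) :
    Module.Finite (invS θ) B := by
  have h1 := invS_int θ
  have h2 : Algebra.FiniteType (invS θ) B := by
    apply Algebra.FiniteType.of_restrictScalars_finiteType k
  exact Algebra.IsIntegral.finite

theorem invS_ft [Finite G] [Algebra.FiniteType k B] (θ : G →* (B ≃ₐ[k] B)) :
    Algebra.FiniteType k (invS θ) := by
  have h3 := invS_fin θ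
  refine ⟨?_⟩
  refine fg_of_fg_of_fg k (invS θ) B ?_ h3.1 ?_
  · exact (inferInstance : Algebra.FiniteType k B).1
  · exact Subtype.val_injective

end inv

section base

variable {k O G : Type} [Field k] [CommRing O] [Algebra k O] [Group G]

/-- The action, over the ring of invariants. -/
noncomputable def TA (T : G →* (O ≃ₐ[k] O)) : G →* (O ≃ₐ[invS T] O) where
  toFun g := AlgEquiv.ofRingEquiv (f := (T g : O ≃ₐ[k] O).toRingEquiv) (fun a => a.2 g)
  map_one' := by
    ext x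
    change T 1 x = x
    rw [map_one]
    rfl
  map_mul' g h := by
    ext x
    change T (g * h) x = T g (T h x)
    rw [map_mul]
    rfl

lemma TA_apply (T : G →* (O ≃ₐ[k] O)) (g : G) (x : O) : TA T g x = T g x := rfl

/-- The inertia group. -/
def inG (T : G →* (O ≃ₐ[k] O)) (𝔓 : Ideal O) : Subgroup G where
  carrier := {g | ∀ o, T g o - o ∈ 𝔓}
  mul_mem' := by
    intro a b ha hb o
    have h1 : T (a * b) o - o = (T a (T b o) - T b o) + (T b o - o) := by
      rw [map_mul, AlgEquiv.mul_apply]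
      ring
    rw [h1]
    exact 𝔓.add_mem (ha _) (hb _)
  one_mem' := by
    intro o
    rw [map_one, AlgEquiv.one_apply, sub_self]
    exact 𝔓.zero_mem
  inv_mem' := by
    intro a ha o
    have h2 : T a (T a⁻¹ o) = o := by
      rw [← AlgEquiv.mul_apply, ← map_mul, mul_inv_cancel, map_one, AlgEquiv.one_apply]
    have h1 : T a⁻¹ o - o = -(T a (T a⁻¹ o) - T a⁻¹ o) := by
      rw [h2]
      ring
    rw [h1]
    exact 𝔓.neg_mem (ha _)

lemma mem_inG {T : G →* (O ≃ₐ[k] O)} {𝔓 : Ideal O} {g : G} :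
    g ∈ inG T 𝔓 ↔ ∀ o, T g o - o ∈ 𝔓 := Iff.rfl

lemma TA_iter (T : G →* (O ≃ₐ[k] O)) (g : G) (n : ℕ) (x : O) :
    (T g : O ≃ₐ[k] O)^[n] x = T (g ^ n) x := by
  induction n with
  | zero => rw [pow_zero, map_one]; rfl
  | succ n ih => rw [Function.iterate_succ_apply', ih, pow_succ', map_mul]; rfl

/-- Tame inertia. -/
theorem tame {O : Type} [CommRing O] [IsDomain O] [IsNoetherianRing O] (𝔓 : Ideal O)
    (hmax : 𝔓.IsMaximal) (t : O ≃+* O) (n : ℕ) (ht : ∀ o, t^[n] o = o) (hn : (n : O) ∉ 𝔓)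
    (h0 : ∀ o, t o - o ∈ 𝔓) (h1 : ∀ o ∈ 𝔓, t o - o ∈ 𝔓 ^ 2) (o : O) : t o = o := by
  obtain ⟨m, i, hi, hmi⟩ := hmax.exists_inv hn
  have hall : ∀ r : ℕ, ∀ x, t x - x ∈ 𝔓 ^ r := by
    intro r
    induction r with
    | zero =>
      intro x
      rw [pow_zero, Ideal.one_eq_top]
      trivial
    | succ r ih =>
      intro x
      have h2 := Pool.Agent.Y929.G.iter_cong h0 h1 ih x n
      rw [ht] at h2
      have h3 : (n : O) * (t x - x) ∈ 𝔓 ^ (r + 1) := by
        have e : (n : O) * (t x - x) = -(x - (x + n * (t x - x))) := by ring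
        rw [e]
        exact (𝔓 ^ (r + 1)).neg_mem h2
      have hcop : IsCoprime (n : O) (i ^ (r + 1)) :=
        IsCoprime.pow_right ⟨m, 1, by rw [one_mul]; exact hmi⟩
      obtain ⟨a, b, hab⟩ := hcop
      have e : t x - x = a * ((n : O) * (t x - x)) + b * (t x - x) * i ^ (r + 1) := by
        linear_combination (-(t x - x)) * hab
      rw [e]
      exact Ideal.add_mem _ (Ideal.mul_mem_left _ _ h3)
        (Ideal.mul_mem_left _ _ (Ideal.pow_mem_pow hi (r + 1)))
  have h4 : t o - o ∈ ⨅ r : ℕ, 𝔓 ^ r := by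
    rw [Submodule.mem_iInf]
    exact fun r => hall r o
  rw [Ideal.iInf_pow_eq_bot_of_isDomain 𝔓 hmax.ne_top, Ideal.mem_bot] at h4
  exact sub_eq_zero.1 h4

/-- The order of the wild inertia group. -/
theorem wil_card [IsDomain O] [IsDedekindDomain O] [Finite G] {T : G →* (O ≃ₐ[k] O)}
    (hT : Function.Injective T) {p : ℕ} (hp : p.Prime) (hpk : (p : k) = 0) {𝔓 : Ideal O}
    (hmax : 𝔓.IsMaximal) (hin : ¬ p ^ 2 ∣ Nat.card (inG T 𝔓)) :
    Nat.card (Wil T 𝔓) = 1 ∨ Nat.card (Wil T 𝔓) = p := by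
  have hp𝔓 : (p : O) ∈ 𝔓 := by
    have h1 : (p : O) = algebraMap k O (p : k) := by rw [map_natCast]
    rw [h1, hpk, map_zero]
    exact 𝔓.zero_mem
  have h1 : ∀ r : ℕ, r.Prime → r ∣ Nat.card (Wil T 𝔓) → r = p := by
    intro r hr hrd
    by_contra hne
    have : Fact r.Prime := ⟨hr⟩
    obtain ⟨g, hg⟩ := exists_prime_orderOf_dvd_card' r hrd
    have hr𝔓 : (r : O) ∉ 𝔓 := by
      intro h
      have hcop : Nat.Coprime r p := (Nat.coprime_primes hr hp).2 hne
      have h2 : (1 : O) ∈ 𝔓 := by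
        have h3 : ((Nat.gcd r p : ℤ) : O) = (r : O) * ((Nat.gcdA r p : ℤ) : O) +
            (p : O) * ((Nat.gcdB r p : ℤ) : O) := by
          have := congrArg (Int.cast : ℤ → O) (Nat.gcd_eq_gcd_ab r p)
          push_cast at this ⊢
          exact this
        rw [hcop] at h3
        have h4 : (((1 : ℕ) : ℤ) : O) = 1 := by norm_num
        rw [h4] at h3
        rw [h3]
        exact 𝔓.add_mem (𝔓.mul_mem_right _ h) (𝔓.mul_mem_right _ hp𝔓)
      exact hmax.ne_top ((Ideal.eq_top_iff_one 𝔓).2 h2)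
    have h2 : (g : G) ^ r = 1 := by
      have h3 : g ^ r = 1 := by rw [← hg]; exact pow_orderOf_eq_one g
      exact congrArg Subtype.val h3
    have h3 : (g : G) = 1 := by
      apply hT
      rw [map_one]
      ext o
      refine tame 𝔓 hmax (T (g : G)).toRingEquiv r ?_ hr𝔓 g.2.1 g.2.2 o
      intro o
      change (T (g : G) : O ≃ₐ[k] O)^[r] o = o
      rw [TA_iter, h2, map_one]
      rfl
    have h4 : g = 1 := Subtype.ext h3
    rw [h4, orderOf_one] at hg
    exact hr.one_lt.ne hg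
  have hle : Wil T 𝔓 ≤ inG T 𝔓 := fun g hg => hg.1
  have h2 : ¬ p ^ 2 ∣ Nat.card (Wil T 𝔓) := fun h =>
    hin (h.trans (Subgroup.card_dvd_of_le hle))
  by_cases h3 : p ∣ Nat.card (Wil T 𝔓)
  · right
    obtain ⟨c, hc⟩ := h3
    by_cases hc1 : c = 1
    · rw [hc, hc1, mul_one]
    · exfalso
      obtain ⟨r, hr, hrc⟩ := Nat.exists_prime_and_dvd hc1
      have h4 := h1 r hr (hrc.trans ⟨p, by rw [hc, mul_comm]⟩)
      apply h2
      rw [hc, sq]
      rw [h4] at hrc
      exact Nat.mul_dvd_mul_left p hrc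
  · left
    by_contra hc1
    obtain ⟨r, hr, hrc⟩ := Nat.exists_prime_and_dvd hc1
    have h4 := h1 r hr hrc
    rw [h4] at hrc
    exact h3 hrc

/-- The residue fields are perfect. -/
theorem res_perf [PerfectField k] [Algebra.FiniteType k O] {p : ℕ} (hp : p.Prime)
    (hpk : (p : k) = 0) {𝔓 : Ideal O} (hmax : 𝔓.IsMaximal) {q : ℕ} (hq : q.Prime)
    (hq𝔓 : (q : O) ∈ 𝔓) (o : O) : ∃ o' : O, o' ^ q - o ∈ 𝔓 := by
  let _ : Field (O ⧸ 𝔓) := Ideal.Quotient.field 𝔓
  have hq0 : ((q : ℕ) : O ⧸ 𝔓) = 0 := by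
    rw [← map_natCast (Ideal.Quotient.mk 𝔓), Ideal.Quotient.eq_zero_iff_mem]
    exact hq𝔓
  have := Fact.mk hq
  have hchar : CharP (O ⧸ 𝔓) q := (CharP.charP_iff_prime_eq_zero hq).2 hq0
  have hft : Algebra.FiniteType k (O ⧸ 𝔓) :=
    Algebra.FiniteType.of_surjective (Ideal.Quotient.mkₐ k 𝔓) (Ideal.Quotient.mkₐ_surjective k 𝔓)
  have hfin : Module.Finite k (O ⧸ 𝔓) := finite_of_finite_type_of_isJacobsonRing k (O ⧸ 𝔓)
  have halg : Algebra.IsAlgebraic k (O ⧸ 𝔓) := inferInstance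
  have hperf : PerfectField (O ⧸ 𝔓) := Algebra.IsAlgebraic.perfectField k
  have hpr : PerfectRing (O ⧸ 𝔓) q := PerfectField.toPerfectRing q
  obtain ⟨y, hy⟩ := hpr.bijective_frobenius.2 (Ideal.Quotient.mk 𝔓 o)
  obtain ⟨o', rfl⟩ := Ideal.Quotient.mk_surjective y
  refine ⟨o', ?_⟩
  have hy' : Ideal.Quotient.mk 𝔓 o' ^ q = Ideal.Quotient.mk 𝔓 o := hy
  rw [← map_pow] at hy'
  exact Ideal.Quotient.eq.1 hy'

/-- **The hypotheses on the base.** -/
theorem gf_of [PerfectField k] [IsDomain O] [IsDedekindDomain O] [Algebra.FiniteType k O]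
    [Finite G] {T : G →* (O ≃ₐ[k] O)} (hT : Function.Injective T) {p : ℕ} (hp : p.Prime)
    (hpk : (p : k) = 0) (hin : ∀ 𝔓 : Ideal O, 𝔓.IsMaximal → 𝔓 ≠ ⊥ → ¬ p ^ 2 ∣ Nat.card (inG T 𝔓))
    {K : Type} [Field K] [Algebra O K] (hinj : Function.Injective (algebraMap O K))
    (ρ : G →* (K ≃ₐ[invS T] K))
    (hcom : ∀ g o, ρ g (algebraMap O K o) = algebraMap O K (T g o)) :
    GF (invS T) O K G ρ (TA T) where
  fin := invS_fin T
  inj := hinj
  injk := by
    intro a b hab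
    exact Subtype.ext (hinj hab)
  com := hcom
  fai := fun g hg => hT (by
    rw [map_one]
    ext o
    exact hg o)
  fix := fun o ho => ⟨⟨o, ho⟩, rfl⟩
  pf := fun 𝔓 hmax _ q hq hq𝔓 o => res_perf hp hpk hmax hq hq𝔓 o
  inr := by
    intro 𝔓 hmax h0
    rcases wil_card hT hp hpk hmax (hin 𝔓 hmax h0) with h1 | h1
    · refine ⟨p, 1, hp, one_pow _, ?_⟩
      intro g hg hg2
      have h2 : Wil T 𝔓 = ⊥ := Subgroup.card_eq_one.1 h1
      have h3 : g ∈ Wil T 𝔓 := ⟨hg, hg2⟩
      rw [h2, Subgroup.mem_bot] at h3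
      rw [h3]
      exact Subgroup.one_mem _
    · have hnt : Nontrivial (Wil T 𝔓) := by
        rw [← Finite.one_lt_card_iff_nontrivial, h1]
        exact hp.one_lt
      obtain ⟨τ, hτ⟩ := exists_ne (1 : Wil T 𝔓)
      refine ⟨p, τ, hp, ?_, ?_⟩
      · have h2 : τ ^ Nat.card (Wil T 𝔓) = 1 := pow_card_eq_one'
        rw [h1] at h2
        exact congrArg Subtype.val h2
      · intro g hg hg2
        have h2 : Nat.card (Subgroup.zpowers τ) = Nat.card (Wil T 𝔓) := by
          rcases (Nat.dvd_prime hp).1 (h1 ▸ Subgroup.card_subgroup_dvd_card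
            (Subgroup.zpowers τ)) with h2 | h2
          · exfalso
            apply hτ
            exact Subgroup.zpowers_eq_bot.1 (Subgroup.card_eq_one.1 h2)
          · rw [h2, h1]
        have h3 : Subgroup.zpowers τ = ⊤ := Subgroup.eq_top_of_card_eq _ h2
        have h4 : (⟨g, hg, hg2⟩ : Wil T 𝔓) ∈ Subgroup.zpowers τ := by
          rw [h3]
          trivial
        obtain ⟨n, hn⟩ := h4
        exact ⟨n, congrArg Subtype.val hn⟩

end base

end Pool.Agent.Zk15.F
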