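import Pool.Agent.Zk15.Gf2
import Pool.Agent.Zk15.Mink2

/-!
# The inertia groups of number fields
-/

set_option autoImplicit false
set_option linter.unusedVariables false
set_option linter.unusedSectionVars false
set_option linter.overlappingInstances false

open NumberField
open scoped Pointwise

namespace Pool.Agent.Zk15

/-- The valuation ring of a maximal ideal of a Dedekind domain. -/
def VPO {O : Type} (M : Type) [CommRing O] [IsDedekindDomain O] [Field M] [Algebra O M]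
    [IsFractionRing O M] (𝔓 : Ideal O) (hm : 𝔓.IsMaximal) (h0 : 𝔓 ≠ ⊥) : ValuationSubring M where
  carrier := {x | ∃ a b : O, b ∉ 𝔓 ∧ x * algebraMap O M b = algebraMap O M a}
  mul_mem' := by
    rintro x y ⟨a, b, hb, h⟩ ⟨c, d, hd, h'⟩
    refine ⟨a * c, b * d, fun hbd => (hm.isPrime.mem_or_mem hbd).elim hb hd, ?_⟩
    rw [map_mul, map_mul, ← h, ← h']
    ring
  one_mem' := ⟨1, 1, fun h => hm.ne_top ((Ideal.eq_top_iff_one _).2 h), by rw [map_one]; ring⟩
  add_mem' := by
    rintro x y ⟨a, b, hb, h⟩ ⟨c, d, hd, h'⟩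
    refine ⟨a * d + c * b, b * d, fun hbd => (hm.isPrime.mem_or_mem hbd).elim hb hd, ?_⟩
    rw [map_add, map_mul, map_mul, map_mul, ← h, ← h']
    ring
  zero_mem' := ⟨0, 1, fun h => hm.ne_top ((Ideal.eq_top_iff_one _).2 h), by
    rw [map_zero, zero_mul]⟩
  neg_mem' := by
    rintro x ⟨a, b, hb, h⟩
    exact ⟨-a, b, hb, by rw [map_neg, ← h]; ring⟩
  mem_or_inv_mem' := by
    intro x
    have := hm.isPrime
    have hinj := IsFractionRing.injective O M
    obtain ⟨a, b, hb, rfl⟩ := IsFractionRing.div_surjective (A := O) x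
    have hb0 : b ≠ 0 := nonZeroDivisors.ne_zero hb
    by_cases ha0 : a = 0
    · left
      refine ⟨0, 1, fun h => hm.ne_top ((Ideal.eq_top_iff_one _).2 h), ?_⟩
      rw [ha0, map_zero, zero_div, zero_mul]
    have := IsLocalization.AtPrime.isDiscreteValuationRing_of_dedekind_domain O h0
      (Localization.AtPrime 𝔓)
    have hkey : ∀ (a b : O), a ≠ 0 → algebraMap O (Localization.AtPrime 𝔓) a ∣
        algebraMap O (Localization.AtPrime 𝔓) b →
        ∃ c s : O, s ∉ 𝔓 ∧ algebraMap O M b / algebraMap O M a * algebraMap O M s =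
          algebraMap O M c := by
      intro a b ha ⟨c, hc⟩
      obtain ⟨c', s, rfl⟩ := IsLocalization.exists_mk'_eq 𝔓.primeCompl c
      refine ⟨c', s, s.2, ?_⟩
      have h1 : algebraMap O (Localization.AtPrime 𝔓) (b * s) =
          algebraMap O (Localization.AtPrime 𝔓) (a * c') := by
        rw [map_mul, map_mul, hc, mul_assoc, IsLocalization.mk'_spec]
      have h2 := IsLocalization.injective (Localization.AtPrime 𝔓)
        (Ideal.primeCompl_le_nonZeroDivisors 𝔓) h1
      have h3 := congrArg (algebraMap O M) h2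
      rw [map_mul, map_mul] at h3
      rw [div_mul_eq_mul_div, h3, mul_div_cancel_left₀ _ ((map_ne_zero_iff _ hinj).2 ha)]
    rcases ValuationRing.dvd_total (algebraMap O (Localization.AtPrime 𝔓) a)
      (algebraMap O (Localization.AtPrime 𝔓) b) with h | h
    · right
      obtain ⟨c, s, hs, h1⟩ := hkey _ _ ha0 h
      exact ⟨c, s, hs, by rw [inv_div]; exact h1⟩
    · left
      obtain ⟨c, s, hs, h1⟩ := hkey _ _ hb0 h
      exact ⟨c, s, hs, h1⟩

/-- The inertia groups of the maximal ideals of the ring of integers. -/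
theorem inert_hom {E M : Type} [Field E] [NumberField E] [Field M] [NumberField M] [Algebra E M]
    (𝔓 : Ideal (𝓞 M)) (hm : 𝔓.IsMaximal) {q : ℕ} (hq : q ≠ 0) (hq𝔓 : (q : 𝓞 M) ∈ 𝔓) :
    ∃ V : ValuationSubring M, (q : M) ∈ V.nonunits ∧
      ∃ f : Pool.Agent.Y223.G.inert E 𝔓 →* V.inertiaSubgroup E, Function.Injective f := by
  classical
  have hq0 : (q : 𝓞 M) ≠ 0 := Nat.cast_ne_zero.2 hq
  have h0 : 𝔓 ≠ ⊥ := by
    rintro rfl
    exact hq0 (Ideal.mem_bot.1 hq𝔓)
  let I := Pool.Agent.Y223.G.inert E 𝔓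
  let T := Pool.Agent.Y223.G.TT E M
  have hT : ∀ g (o : 𝓞 M), algebraMap (𝓞 M) M (T g o) = g (algebraMap (𝓞 M) M o) := fun g o => rfl
  have hIm : ∀ g, g ∈ I → ∀ o, T g o - o ∈ 𝔓 := fun g hg => hg
  let V := VPO M 𝔓 hm h0
  have hI : ∀ g ∈ I, ∀ b : 𝓞 M, b ∉ 𝔓 → T g b ∉ 𝔓 := by
    intro g hg b hb h
    apply hb
    have h1 := 𝔓.sub_mem h (hIm g hg b)
    rwa [sub_sub_cancel] at h1
  have hgV : ∀ g ∈ I, ∀ x ∈ V, g x ∈ V := by
    rintro g hg x ⟨a, b, hb, h⟩
    refine ⟨T g a, T g b, hI g hg b hb, ?_⟩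
    rw [hT, hT, ← map_mul, h]
  have hnon : ∀ (e s : 𝓞 M), e ∈ 𝔓 → s ∉ 𝔓 → ∀ y : M,
      y * algebraMap (𝓞 M) M s = algebraMap (𝓞 M) M e → y ≠ 0 → y⁻¹ ∉ V := by
    rintro e s he hs y hy hy0 ⟨a, b, hb, h⟩
    have h1 : b * s = a * e := by
      apply IsFractionRing.injective (𝓞 M) M
      rw [map_mul, map_mul, ← h, ← hy]
      field_simp
    have h2 : b * s ∈ 𝔓 := by
      rw [h1]
      exact 𝔓.mul_mem_left _ he
    exact (hm.isPrime.mem_or_mem h2).elim hb hs
  have hstab : ∀ g ∈ I, g ∈ V.decompositionSubgroup E := by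
    intro g hg
    rw [MulAction.mem_stabilizer_iff]
    ext x
    rw [ValuationSubring.mem_pointwise_smul_iff_inv_smul_mem]
    constructor
    · intro h
      have h1 := hgV g hg _ h
      have h2 : g (g⁻¹ • x) = x := by
        rw [AlgEquiv.smul_def, ← AlgEquiv.mul_apply, mul_inv_cancel, AlgEquiv.one_apply]
      rwa [h2] at h1
    · intro h
      exact hgV g⁻¹ (inv_mem hg) x h
  have hker : ∀ g (hg : g ∈ I),
      (⟨g, hstab g hg⟩ : V.decompositionSubgroup E) ∈ V.inertiaSubgroup E := by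
    intro g hg
    rw [ValuationSubring.inertiaSubgroup, MonoidHom.mem_ker]
    refine RingEquiv.ext fun r => ?_
    obtain ⟨x, rfl⟩ := IsLocalRing.residue_surjective r
    change (⟨g, hstab g hg⟩ : V.decompositionSubgroup E) • IsLocalRing.residue V x = _
    rw [← IsLocalRing.ResidueField.residue_smul]
    change _ = IsLocalRing.residue V x
    rw [← sub_eq_zero, ← map_sub, IsLocalRing.residue_eq_zero_iff, IsLocalRing.mem_maximalIdeal,
      mem_nonunits_iff]
    intro hu
    obtain ⟨x, a, b, hb, h⟩ := x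
    have e1 : (((⟨g, hstab g hg⟩ : V.decompositionSubgroup E) •
        (⟨x, a, b, hb, h⟩ : V) - ⟨x, a, b, hb, h⟩ : V) : M) = g x - x := rfl
    have h2 : (g x - x) * algebraMap (𝓞 M) M (T g b * b) =
        algebraMap (𝓞 M) M ((T g a - a) * b - a * (T g b - b)) := by
      simp only [map_mul, map_sub, hT]
      rw [← h, map_mul]
      ring
    have h3 : (T g a - a) * b - a * (T g b - b) ∈ 𝔓 :=
      𝔓.sub_mem (𝔓.mul_mem_right _ (hIm g hg a)) (𝔓.mul_mem_left _ (hIm g hg b))
    have h4 : T g b * b ∉ 𝔓 := fun h => (hm.isPrime.mem_or_mem h).elim (hI g hg b hb) hb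
    obtain ⟨w, hw⟩ := hu
    have h5 : g x - x ≠ 0 := by
      intro h6
      have h7 : (w : V) = 0 := by
        rw [hw]
        exact Subtype.ext h6
      exact w.ne_zero h7
    apply hnon _ _ h3 h4 (g x - x) h2 h5
    have h6 : ((w⁻¹ : Vˣ) : V) * (w : V) = 1 := w.inv_mul
    have h7 : (((w⁻¹ : Vˣ) : V) : M) * (g x - x) = 1 := by
      have h8 := congrArg Subtype.val h6
      rw [hw] at h8
      exact h8
    rw [← eq_inv_of_mul_eq_one_left h7]
    exact ((w⁻¹ : Vˣ) : V).2
  refine ⟨V, ?_, ?_⟩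
  · have hqM : (q : M) ≠ 0 := Nat.cast_ne_zero.2 hq
    have h1 := hnon q 1 hq𝔓 (fun h => hm.ne_top ((Ideal.eq_top_iff_one _).2 h)) q (by
      rw [map_one, mul_one, map_natCast]) hqM
    rw [← V.valuation_le_one_iff, not_le, map_inv₀] at h1
    rw [ValuationSubring.mem_nonunits_iff]
    have h4 : V.valuation (q : M) ≠ 0 := (Valuation.ne_zero_iff _).2 hqM
    exact (one_lt_inv₀ (zero_lt_iff.2 h4)).1 h1
  · refine ⟨
      { toFun := fun g => ⟨⟨g, hstab g g.2⟩, hker g g.2⟩
        map_one' := rfl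
        map_mul' := fun g h => rfl }, ?_⟩
    intro g h hgh
    apply Subtype.ext
    exact congrArg (fun q : V.inertiaSubgroup E =>
      ((q : V.decompositionSubgroup E) : M ≃ₐ[E] M)) hgh

end Pool.Agent.Zk15
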