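import Pool.Agent.Zk15.Fp11

/-!
# Two affine pieces of a projective curve with an action
-/

set_option autoImplicit false
set_option linter.unusedVariables false
set_option linter.unusedSectionVars false
set_option linter.overlappingInstances false

namespace Pool.Agent.Zk15

section

variable {k M G : Type} [Field k] [Field M] [Algebra k M] [Group G]

/-- The action on a stable subalgebra. -/
def TS (ρ : G →* (M ≃ₐ[k] M)) (S : Subalgebra k M) (hS : ∀ g, ∀ x ∈ S, ρ g x ∈ S) :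
    G →* (S ≃ₐ[k] S) where
  toFun g := AlgEquiv.ofAlgHom
    (((ρ g : M ≃ₐ[k] M).toAlgHom.comp S.val).codRestrict S fun x => hS g x x.2)
    (((ρ g⁻¹ : M ≃ₐ[k] M).toAlgHom.comp S.val).codRestrict S fun x => hS g⁻¹ x x.2)
    (by
      ext x
      change ρ g (ρ g⁻¹ x) = x
      rw [← AlgEquiv.mul_apply, ← map_mul, mul_inv_cancel, map_one, AlgEquiv.one_apply])
    (by
      ext x
      change ρ g⁻¹ (ρ g x) = x
      rw [← AlgEquiv.mul_apply, ← map_mul, inv_mul_cancel, map_one, AlgEquiv.one_apply])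
  map_one' := by
    ext x
    change ρ 1 (x : M) = x
    rw [map_one, AlgEquiv.one_apply]
  map_mul' g h := by
    ext x
    change ρ (g * h) (x : M) = ρ g (ρ h x)
    rw [map_mul, AlgEquiv.mul_apply]

lemma TS_coe (ρ : G →* (M ≃ₐ[k] M)) (S : Subalgebra k M) (hS : ∀ g, ∀ x ∈ S, ρ g x ∈ S) (g : G)
    (x : S) : (TS ρ S hS g x : M) = ρ g x := rfl

lemma TS_inj {ρ : G →* (M ≃ₐ[k] M)} (hρ : Function.Injective ρ) {S : Subalgebra k M}
    (hS : ∀ g, ∀ x ∈ S, ρ g x ∈ S)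
    (hfr : ∀ x : M, ∃ a b, a ∈ S ∧ b ∈ S ∧ b ≠ 0 ∧ x = a / b) : Function.Injective (TS ρ S hS) := by
  intro g h hgh
  apply hρ
  refine AlgEquiv.ext fun x => ?_
  obtain ⟨a, b, ha, hb, -, rfl⟩ := hfr x
  have h1 : ∀ y (hy : y ∈ S), ρ g y = ρ h y := fun y hy =>
    congrArg (fun f : S ≃ₐ[k] S => ((f ⟨y, hy⟩ : S) : M)) hgh
  rw [map_div₀, map_div₀, h1 a ha, h1 b hb]

lemma LS_stable {ρ : G →* (M ≃ₐ[k] M)} {S : Subalgebra k M} (hS : ∀ g, ∀ x ∈ S, ρ g x ∈ S)
    {u : M} (hu : u ∈ S) (huρ : ∀ g, ρ g u = u) : ∀ g, ∀ x ∈ LS S u hu, ρ g x ∈ LS S u hu := by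
  rintro g x ⟨n, hx⟩
  refine ⟨n, ?_⟩
  have h1 := hS g _ hx
  rwa [map_mul, map_pow, huρ] at h1

end

/-- There are only finitely many ramified maximal ideals. -/
theorem ram_fin {k O G : Type} [CommRing k] [CommRing O] [IsDomain O] [IsDedekindDomain O]
    [Algebra k O] [Group G] [Finite G] (T : G →* (O ≃ₐ[k] O)) (hT : Function.Injective T) :
    (F.Ram T).Finite := by
  classical
  have h1 : ∀ g : G, {P : Ideal O | P.IsMaximal ∧ P ≠ ⊥ ∧ g ≠ 1 ∧ ∀ o, T g o - o ∈ P}.Finite := by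
    intro g
    by_cases hg : g = 1
    · refine Set.finite_empty.subset ?_
      rintro P ⟨-, -, h1, -⟩
      exact (h1 hg).elim
    · have h2 : ∃ o, T g o ≠ o := by
        by_contra hcon
        push Not at hcon
        refine hg (hT (AlgEquiv.ext fun o => ?_))
        rw [map_one]
        exact hcon o
      obtain ⟨o, ho⟩ := h2
      have hne : Ideal.span {T g o - o} ≠ (0 : Ideal O) := by
        rw [Ideal.zero_eq_bot, Ne, Ideal.span_singleton_eq_bot, sub_eq_zero]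
        exact ho
      have h1 := Ideal.finite_factors hne
      refine (h1.image fun v => v.asIdeal).subset ?_
      rintro P ⟨hP, hP0, -, hPt⟩
      refine ⟨⟨P, hP.isPrime, hP0⟩, ?_, rfl⟩
      change P ∣ _
      rw [Ideal.dvd_span_singleton]
      exact hPt o
  refine (Set.finite_iUnion h1).subset ?_
  rintro P ⟨hP, hP0, g, hg, hgo⟩
  exact Set.mem_iUnion.2 ⟨g, hP, hP0, hg, hgo⟩

/-- An element which vanishes at finitely many given primes and is `1` modulo `s`. -/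
theorem exists_van {O : Type} [CommRing O] [IsDomain O] [IsDedekindDomain O] (s : O)
    (S : Set (Ideal O)) (hS : S.Finite) (hm : ∀ P ∈ S, P.IsMaximal) (h0 : ∀ P ∈ S, P ≠ ⊥) :
    ∃ a b : O, a ≠ 0 ∧ a + b * s = 1 ∧ ∀ P ∈ S, s ∉ P → a ∈ P := by
  classical
  let S' : Finset (Ideal O) := (hS.subset (Set.sep_subset S fun P => s ∉ P)).toFinset
  have hS' : ∀ P, P ∈ S' ↔ P ∈ S ∧ s ∉ P := fun P => by
    rw [Set.Finite.mem_toFinset]
    exact Iff.rfl
  let J : Ideal O := ∏ P ∈ S', P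
  have hJ0 : J ≠ ⊥ := by
    rw [← Ideal.zero_eq_bot]
    refine Finset.prod_ne_zero_iff.2 fun P hP => ?_
    exact h0 P ((hS' P).1 hP).1
  have hco : IsCoprime J (Ideal.span {s}) := by
    refine IsCoprime.prod_left fun P hP => ?_
    have hPm := hm P ((hS' P).1 hP).1
    rw [Ideal.isCoprime_iff_sup_eq]
    refine hPm.1.2 _ (SetLike.lt_iff_le_and_exists.2 ⟨le_sup_left, s, ?_, ((hS' P).1 hP).2⟩)
    exact Ideal.mem_sup_right (Ideal.mem_span_singleton_self s)
  rw [Ideal.isCoprime_iff_exists] at hco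
  obtain ⟨a, ha, c, hc, hac⟩ := hco
  obtain ⟨b, rfl⟩ := Ideal.mem_span_singleton'.1 hc
  have hJP : ∀ x ∈ J, ∀ P ∈ S, s ∉ P → x ∈ P := fun x hx P hP hs =>
    Ideal.prod_le_inf.trans (Finset.inf_le ((hS' P).2 ⟨hP, hs⟩)) hx
  by_cases ha0 : a = 0
  · obtain ⟨j, hj, hj0⟩ := Submodule.exists_mem_ne_zero_of_ne_bot hJ0
    refine ⟨j, (1 - j) * b, hj0, ?_, hJP j hj⟩
    rw [ha0, zero_add] at hac
    rw [mul_assoc, hac]
    ring
  · exact ⟨a, b, ha0, hac, hJP a ha⟩

end Pool.Agent.Zk15
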