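import Pool.Agent.Zk15.Fp14

/-!
# Projective models of tori over function fields of one variable
-/

set_option autoImplicit false
set_option linter.unusedVariables false
set_option linter.unusedSectionVars false
set_option linter.overlappingInstances false

namespace Pool.Agent.Zk15

open Pool.Agent.Y223.G

lemma adj_sub {k M K Λ : Type} [Field k] [Field M] [Algebra k M] [Field K] [Algebra M K]
    (O : Subalgebra k M) (hfr : ∀ x : M, ∃ a b, a ∈ O ∧ b ∈ O ∧ b ≠ 0 ∧ x = a / b) {X : Λ → K}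
    {a : K} (ha : a ∈ Algebra.adjoin M (Set.range X)) :
    ∃ s ∈ O, s ≠ 0 ∧ algebraMap M K s * a ∈ Algebra.adjoin O (Set.range X) := by
  have hOK : ∀ s (hs : s ∈ O), algebraMap M K s = algebraMap O K ⟨s, hs⟩ := fun s hs => rfl
  have hmem : ∀ s, s ∈ O → algebraMap M K s ∈ Algebra.adjoin O (Set.range X) := fun s hs => by
    rw [hOK s hs]
    exact Subalgebra.algebraMap_mem _ _
  induction ha using Algebra.adjoin_induction with
  | mem x hx =>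
    refine ⟨1, one_mem _, one_ne_zero, ?_⟩
    rw [map_one, one_mul]
    exact Algebra.subset_adjoin hx
  | algebraMap r =>
    obtain ⟨a, b, ha, hb, hb0, rfl⟩ := hfr r
    refine ⟨b, hb, hb0, ?_⟩
    rw [← map_mul, mul_div_cancel₀ _ hb0]
    exact hmem a ha
  | add x y _ _ hx hy =>
    obtain ⟨s, hs, hs0, hsx⟩ := hx
    obtain ⟨s', hs', hs0', hsy⟩ := hy
    refine ⟨s * s', mul_mem hs hs', mul_ne_zero hs0 hs0', ?_⟩
    have e : algebraMap M K (s * s') * (x + y) = algebraMap M K s' * (algebraMap M K s * x) +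
        algebraMap M K s * (algebraMap M K s' * y) := by
      rw [map_mul]
      ring
    rw [e]
    exact add_mem (mul_mem (hmem s' hs') hsx) (mul_mem (hmem s hs) hsy)
  | mul x y _ _ hx hy =>
    obtain ⟨s, hs, hs0, hsx⟩ := hx
    obtain ⟨s', hs', hs0', hsy⟩ := hy
    refine ⟨s * s', mul_mem hs hs', mul_ne_zero hs0 hs0', ?_⟩
    have e : algebraMap M K (s * s') * (x * y) = (algebraMap M K s * x) *
        (algebraMap M K s' * y) := by
      rw [map_mul]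
      ring
    rw [e]
    exact mul_mem hsx hsy

lemma frac_sub {k M K Λ : Type} [Field k] [Field M] [Algebra k M] [Field K] [Algebra M K]
    (O : Subalgebra k M) (hfr : ∀ x : M, ∃ a b, a ∈ O ∧ b ∈ O ∧ b ≠ 0 ∧ x = a / b) {X : Λ → K}
    (hK : ∀ x : K, ∃ a b, a ∈ Algebra.adjoin M (Set.range X) ∧
      b ∈ Algebra.adjoin M (Set.range X) ∧ b ≠ 0 ∧ x = a / b) (x : K) :
    ∃ a b, a ∈ Algebra.adjoin O (Set.range X) ∧
      b ∈ Algebra.adjoin O (Set.range X) ∧ b ≠ 0 ∧ x = a / b := by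
  have hmem : ∀ s, s ∈ O → algebraMap M K s ∈ Algebra.adjoin O (Set.range X) := fun s hs =>
    Subalgebra.algebraMap_mem (Algebra.adjoin O (Set.range X)) (⟨s, hs⟩ : O)
  obtain ⟨a, b, ha, hb, hb0, rfl⟩ := hK x
  obtain ⟨s, hs, hs0, hsa⟩ := adj_sub O hfr ha
  obtain ⟨s', hs', hs0', hsb⟩ := adj_sub O hfr hb
  have h1 : algebraMap M K s ≠ 0 := (map_ne_zero _).2 hs0
  have h2 : algebraMap M K s' ≠ 0 := (map_ne_zero _).2 hs0'
  refine ⟨algebraMap M K s' * (algebraMap M K s * a), algebraMap M K s * (algebraMap M K s' * b),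
    mul_mem (hmem _ hs') hsa, mul_mem (hmem _ hs) hsb, mul_ne_zero h1 (mul_ne_zero h2 hb0), ?_⟩
  field_simp

lemma adj_inv {k M : Type} [Field k] [Field M] [Algebra k M] (t : M) :
    IntermediateField.adjoin k {t} = IntermediateField.adjoin k {t⁻¹} := by
  apply le_antisymm
  · rw [IntermediateField.adjoin_simple_le_iff]
    have h1 := (IntermediateField.adjoin k {t⁻¹}).inv_mem
      (IntermediateField.mem_adjoin_simple_self k t⁻¹)
    rwa [inv_inv] at h1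
  · rw [IntermediateField.adjoin_simple_le_iff]
    exact (IntermediateField.adjoin k {t}).inv_mem (IntermediateField.mem_adjoin_simple_self k t)

/-- The fractions of the localization. -/
lemma LS_frac {k M : Type} [Field k] [Field M] [Algebra k M] (O : Subalgebra k M)
    (hfr : ∀ x : M, ∃ a b, a ∈ O ∧ b ∈ O ∧ b ≠ 0 ∧ x = a / b) (u : M) (hu : u ∈ O) :
    ∀ x : M, ∃ a b, a ∈ LS O u hu ∧ b ∈ LS O u hu ∧ b ≠ 0 ∧ x = a / b := by
  intro x
  obtain ⟨a, b, ha, hb, h⟩ := hfr x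
  exact ⟨a, b, LS_le _ _ _ ha, LS_le _ _ _ hb, h⟩

/-- **Projective models.** -/
theorem projM {k M G K Y : Type} [Field k] [PerfectField k] {p : ℕ} (hp : p.Prime)
    (hpk : (p : k) = 0) [Field M] [Algebra k M] [Group G] [Finite G] (ρ : G →* (M ≃ₐ[k] M))
    (hρ : Function.Injective ρ) {t : M} (ht : Transcendental k t) (htρ : ∀ g, ρ g t = t)
    (F' : IntermediateField k M) (hF : F' = IntermediateField.adjoin k {t})
    [FiniteDimensional F' M] [Algebra.IsSeparable F' M]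
    (hin : ∀ (O : Subalgebra k M) (hO : ∀ g, ∀ x ∈ O, ρ g x ∈ O) (𝔓 : Ideal O),
      IsDedekindDomain O → (∀ x : M, ∃ a b, a ∈ O ∧ b ∈ O ∧ b ≠ 0 ∧ x = a / b) →
      𝔓.IsMaximal → 𝔓 ≠ ⊥ → ¬ p ^ 2 ∣ Nat.card (F.inG (TS ρ O hO) 𝔓))
    [Field K] [Algebra M K] [Algebra k K] [IsScalarTower k M K] [Field Y] [Algebra k Y]
    (ι : Y →ₐ[k] K) (ρK : G →* (K ≃ₐ[k] K))
    (hcom : ∀ g x, ρK g (algebraMap M K x) = algebraMap M K (ρ g x))
    (hfixK : ∀ x, (∀ g, ρK g x = x) ↔ ∃ y, ι y = x)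
    {Λ : Type} [AddCommGroup Λ] {n : ℕ} (e0 : Module.Basis (Fin n) ℤ Λ) (φ : G →* (Λ ≃ₗ[ℤ] Λ))
    {X : Λ → K} (X0 : X 0 = 1) (Xa : ∀ a b, X (a + b) = X a * X b)
    (li : LinearIndependent M X) (hρX : ∀ g m, ρK g (X m) = X (φ g m))
    (hK : ∀ x : K, ∃ a b, a ∈ Algebra.adjoin M (Set.range X) ∧
      b ∈ Algebra.adjoin M (Set.range X) ∧ b ≠ 0 ∧ x = a / b) :
    ∃ (I : Type) (_ : Finite I) (w : I → Y) (J : Set I),
      ModelG (k := k) False ⊥ (⊤ : Subfield Y) w J := by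
  classical
  have ht0 : t ≠ 0 := fun h => ht (by rw [h]; exact isAlgebraic_zero)
  have htr : Transcendental k t⁻¹ := fun h => ht (by
    have h1 := h.inv
    rwa [inv_inv] at h1)
  obtain ⟨hd1, hft1, hfr1⟩ := IC_ok ht F' hF
  obtain ⟨hd2, hft2, hfr2⟩ := IC_ok htr F' (hF.trans (adj_inv t))
  have hG₁ : ∀ g, ∀ x ∈ IC k t, ρ g x ∈ IC k t := fun g x hx => IC_map (ρ g) (htρ g) hx
  have hG₂ : ∀ g, ∀ x ∈ IC k t⁻¹, ρ g x ∈ IC k t⁻¹ := fun g x hx =>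
    IC_map (ρ g) (by rw [map_inv₀, htρ]) hx
  have h1 : ∀ x ∈ IC k t⁻¹, ∃ n : ℕ, t ^ n * x ∈ IC k t := fun x hx => IC_h1 ht0 hx
  have h2 : ∀ x ∈ IC k t, ∃ n : ℕ, t⁻¹ ^ n * x ∈ IC k t⁻¹ := fun x hx => IC_h2 ht0 hx
  obtain ⟨u, hu, huρ, hu0, huV, hA3, j, w, hw, hA4⟩ := twoAff ρ hρ (IC k t) (IC k t⁻¹) hG₁ hG₂
    hfr2 ht0 htρ (IC_t t) (IC_t t⁻¹) h1 h2
  have hd3 : IsDedekindDomain (LS (IC k t⁻¹) u hu) := LS_ded _ u hu hu0
  have hft3 : Algebra.FiniteType k (LS (IC k t⁻¹) u hu) := LS_ft _ u hu hu0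
  have hfr3 := LS_frac _ hfr2 u hu
  have hG₃ := LS_stable hG₂ hu huρ
  have liO : ∀ O : Subalgebra k M, LinearIndependent O X := fun O =>
    li.restrict_scalars (by
      intro a b hab
      apply Subtype.ext
      have h3 : (a : M) * 1 = b * 1 := hab
      rwa [mul_one, mul_one] at h3)
  have hinjO : ∀ O : Subalgebra k M, Function.Injective (algebraMap O K) := fun O =>
    (algebraMap M K).injective.comp Subtype.val_injective
  refine twoBase (O₁ := IC k t) (O₂ := LS (IC k t⁻¹) u hu) hp hpk (TS ρ (IC k t) hG₁)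
    (TS_inj hρ hG₁ hfr1) (TS ρ (LS (IC k t⁻¹) u hu) hG₃) (TS_inj hρ hG₃ hfr3)
    (fun 𝔓 h𝔓 h𝔓0 => hin _ hG₁ 𝔓 hd1 hfr1 h𝔓 h𝔓0)
    (fun 𝔓 h𝔓 h𝔓0 => hin _ hG₃ 𝔓 hd3 hfr3 h𝔓 h𝔓0) (hinjO _) (hinjO _) ι ρK
    (fun g o => hcom g o) (fun g o => hcom g o) hfixK e0 φ X0 Xa (liO _) (liO _) hρX
    (frac_sub _ hfr1 hK) (frac_sub _ hfr3 hK) ?_ ?_
  · intro β₁ β₂ _ _ o₁ o₂ ho₁ ho₂
    exact baseX (IC k t) (IC k t⁻¹) ρ hG₁ hG₂ ht0 htρ (IC_t t) (IC_t t⁻¹) h1 h2 hu huρ hu0 hA3 hw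
      hA4 ρK hcom β₁ β₂ o₁ o₂ ho₁ ho₂
  · intro V hV
    exact baseV hu hu0 huV V hV

end Pool.Agent.Zk15
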