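import Pool.Agent.Zk15.Aff3

/-!
# Weighted blowups in the charts of invariant coordinates
-/

set_option autoImplicit false
set_option linter.unusedSectionVars false
set_option linter.overlappingInstances false

namespace Pool.Agent.Zk15

open Pool.Agent.Y223.G Pool.Agent.Y858.H Pool.Agent.Y987.H
open Pool.Agent.Y38.H.Rwb (R_s R_e R_o R_m R_low R_gr R_epow R_c R_coeff R_ft)
open Pool.Agent.R383.TM

/-- Weighted blowups of the charts `z j ≠ 0`, `j ∈ J`: the graded algebras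
`WR k 𝔓 (e 𝔓) (W 𝔓) z j` are regular, they are permuted by the group, and the wild inertia groups
have the leading form without zeros outside the vertex. -/
structure WDJ (k O K G : Type) [CommRing k] [CommRing O] [Field K] [Group G]
    [Algebra k O] [Algebra O K] [Algebra k K] (ρ : G →* (K ≃ₐ[k] K))
    (T : G →* (O ≃ₐ[k] O)) {m : ℕ} (z : Fin (m + 1) → K) (J : Set (Fin (m + 1)))
    (e : Ideal O → ℕ) (W : Ideal O → Fin (m + 1) → ℕ) : Prop where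
  e0 : ∀ 𝔓 : Ideal O, 0 < e 𝔓
  rg : ∀ 𝔓 : Ideal O, 𝔓.IsMaximal → (∃ g, g ≠ 1 ∧ Wild T g 𝔓) → ∀ j ∈ J,
    IsRegularRing (WR k 𝔓 (e 𝔓) (W 𝔓) z j)
  eq : ∀ 𝔓 : Ideal O, 𝔓.IsMaximal → (∃ g, g ≠ 1 ∧ Wild T g 𝔓) → ∀ (g : G) (𝔓' : Ideal O),
    (∀ o, o ∈ 𝔓 ↔ T g o ∈ 𝔓') → ∀ j ∈ J,
    ∀ f ∈ WR k 𝔓 (e 𝔓) (W 𝔓) z j, tl (ρ g) f ∈ WR k 𝔓' (e 𝔓') (W 𝔓') z j
  dl : ∀ 𝔓 : Ideal O, 𝔓.IsMaximal → ∀ g, g ≠ 1 → Wild T g 𝔓 → ∀ j ∈ J, ∃ l D : ℕ, 0 < D ∧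
    D ≤ e 𝔓 * l ∧ (∀ o, T g o - o ∈ 𝔓 ^ (l + 1)) ∧
    (∀ f ∈ WR k 𝔓 (e 𝔓) (W 𝔓) z j, hm D 1 * (tl (ρ g) f - f) ∈ WR k 𝔓 (e 𝔓) (W 𝔓) z j) ∧
    ∀ Q : Ideal (WR k 𝔓 (e 𝔓) (W 𝔓) z j), Q.IsPrime →
      (∀ a ∈ 𝔓, ∃ h : hm 0 (algebraMap O K a) ∈ WR k 𝔓 (e 𝔓) (W 𝔓) z j,
        (⟨_, h⟩ : WR k 𝔓 (e 𝔓) (W 𝔓) z j) ∈ Q) →
      (∃ (n : ℕ) (η : K) (he : hm n η ∈ WR k 𝔓 (e 𝔓) (W 𝔓) z j), 0 < n ∧
        (⟨hm n η, he⟩ : WR k 𝔓 (e 𝔓) (W 𝔓) z j) ∉ Q) →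
      ∃ b ∈ WR k 𝔓 (e 𝔓) (W 𝔓) z j,
        ∃ h : hm D 1 * (tl (ρ g) b - b) ∈ WR k 𝔓 (e 𝔓) (W 𝔓) z j,
          (⟨_, h⟩ : WR k 𝔓 (e 𝔓) (W 𝔓) z j) ∉ Q

section af

variable {A K : Type} [CommRing A] [Field K] [Algebra A K] {m : ℕ} {z : Fin (m + 1) → K}

lemma AF_F (F : K) : AF A z 1 F = Algebra.adjoin A (Set.range fun i => z i / F) := by
  unfold AF
  rw [MN_one]
  congr 1
  ext y
  constructor
  · rintro ⟨x, ⟨i, rfl⟩, rfl⟩
    exact ⟨i, rfl⟩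
  · rintro ⟨i, rfl⟩
    exact ⟨z i, ⟨i, rfl⟩, rfl⟩

end af

section loc

variable {k O K : Type} [CommRing k] [CommRing O] [IsDomain O] [Field K] [Algebra k O]
  [Algebra O K] [Algebra k K] [IsScalarTower k O K] {s : k} {𝔔 : Ideal (OL O (K := K) s)}
  {𝔓 : Ideal O} {e m : ℕ} {W : Fin (m + 1) → ℕ} {z : Fin (m + 1) → K} {j : Fin (m + 1)}

lemma WRj_algk (s : k) : hm 0 (algebraMap k K s) ∈ WR k 𝔓 e W z j := by
  rw [IsScalarTower.algebraMap_apply k O K]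
  exact WR_o _

/-- Over the localization of the base the graded algebra is the localization. -/
theorem RW_eq_locj (hs : algebraMap k K s ≠ 0)
    (hP : ∀ a ∈ 𝔓, (⟨algebraMap O K a, mem_OLb s a⟩ : OL O (K := K) s) ∈ 𝔔)
    (hrep : ∀ b ∈ 𝔔, ∃ n : ℕ, ∃ a ∈ 𝔓, algebraMap k K s ^ n * (b : K) = algebraMap O K a) :
    RW k 𝔔 e (fun _ : Unit => W) (fun _ => z) 1 (fun _ => z j) =
      loc (WR k 𝔓 e W z j) (hm 0 (algebraMap k K s)) (WRj_algk s) := by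
  have hsp : ∀ (n : ℕ) (d : ℤ) (x : K), (hm 0 (algebraMap k K s) : LP K) ^ n * hm d x =
      hm d (algebraMap k K s ^ n * x) := by
    intro n d x
    rw [hm_pow, hm_mul, mul_zero, zero_add]
  apply le_antisymm
  · unfold RW
    rw [Algebra.adjoin_le_iff]
    rintro f (((hf | ⟨b, hb, rfl⟩) | ⟨o, rfl⟩) | ⟨ω, a, ha, rfl⟩)
    · rw [hf]
      exact le_loc _ _ _ WR_s
    · obtain ⟨n, a, ha, h⟩ := hrep b hb
      refine ⟨n, ?_⟩
      rw [hsp]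
      change hm e (algebraMap k K s ^ n * (b : K)) ∈ _
      rw [h]
      exact WR_e ha
    · obtain ⟨x, n, y, hy⟩ := o
      refine ⟨n, ?_⟩
      rw [hsp]
      change hm 0 (algebraMap k K s ^ n * x) ∈ _
      rw [hy]
      exact WR_o y
    · refine le_loc _ _ _ ?_
      have h2 := WR_mon (k := k) (𝔓 := 𝔓) (e := e) (W := W) (z := z) (j := j) a ha
      rwa [pow_one] at h2
  · rintro f ⟨n, hn⟩
    have hle : WR k 𝔓 e W z j ≤ RW k 𝔔 e (fun _ : Unit => W) (fun _ => z) 1 (fun _ => z j) := by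
      unfold WR
      rw [Algebra.adjoin_le_iff]
      rintro f (((hf | ⟨a, ha, rfl⟩) | ⟨o, rfl⟩) | ⟨i, rfl⟩)
      · rw [hf]
        exact Pool.Agent.Y38.H.Rwb.R_s
      · exact Pool.Agent.Y38.H.Rwb.R_e (hP a ha)
      · exact Pool.Agent.Y38.H.Rwb.R_o (⟨algebraMap O K o, mem_OLb s o⟩ : OL O (K := K) s)
      · have h2 := Pool.Agent.Y38.H.Rwb.R_m (k := k) (𝔓 := 𝔔) (e := e)
          (W := fun _ : Unit => W) (z := fun _ => z) (d := 1) (Φ := fun _ => z j) ()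
          (Pi.single i 1) (single_sum i)
        have e1 : ∑ j, W j * (Pi.single i 1 : Fin (m + 1) → ℕ) j = W i := by
          rw [Finset.sum_eq_single i]
          · rw [Pi.single_eq_same, mul_one]
          · intro j _ hj
            rw [Pi.single_eq_of_ne hj, mul_zero]
          · intro h
            exact absurd (Finset.mem_univ i) h
        have e2 : ∏ j, z j ^ (Pi.single i 1 : Fin (m + 1) → ℕ) j = z i := by
          rw [Finset.prod_eq_single i]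
          · rw [Pi.single_eq_same, pow_one]
          · intro j _ hj
            rw [Pi.single_eq_of_ne hj, pow_zero]
          · intro h
            exact absurd (Finset.mem_univ i) h
        have h3 : hm ((∑ j, W j * (Pi.single i 1 : Fin (m + 1) → ℕ) j : ℕ) : ℤ)
            ((∏ j, z j ^ (Pi.single i 1 : Fin (m + 1) → ℕ) j) / z j) ∈
            RW k 𝔔 e (fun _ : Unit => W) (fun _ => z) 1 (fun _ => z j) := h2
        rw [e1, e2] at h3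
        exact h3
    have h2 := hle hn
    have h3 : hm 0 (algebraMap k K s)⁻¹ ∈
        RW k 𝔔 e (fun _ : Unit => W) (fun _ => z) 1 (fun _ => z j) :=
      Pool.Agent.Y38.H.Rwb.R_o (⟨_, Pool.Agent.Y177.G.inv_mem_OL s hs⟩ : OL O (K := K) s)
    have h4 := Subalgebra.mul_mem _ (Subalgebra.pow_mem _ h3 n) h2
    have e3 : (hm 0 (algebraMap k K s)⁻¹ : LP K) ^ n * (hm 0 (algebraMap k K s) ^ n * f) = f := by
      rw [← mul_assoc, ← mul_pow, hm_mul, inv_mul_cancel₀ hs, add_zero, hm_one, one_pow, one_mul]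
    rwa [e3] at h4

end loc

section cg

variable {k O K G : Type} [CommRing k] [CommRing O] [IsDomain O] [Field K]
    [Group G] [Algebra k O] [Algebra O K] [Algebra k K] [IsScalarTower k O K]
    {ρ : G →* (K ≃ₐ[k] K)} {s : k}
    {Tb : G →* (OL O (K := K) s ≃ₐ[k] OL O (K := K) s)} {m : ℕ} {z : Fin (m + 1) → K}
    {j : Fin (m + 1)}

lemma CGj : CG (OL O (K := K) s) (fun _ : Unit => z) 1 (fun _ => z j) =
    CG (OL O (K := K) s) (fun _ : Unit => fun i => z i / z j) 1 (fun _ => 1) := by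
  rw [CG_unit, CG_one, AF_F]

lemma stj (hcomL : ∀ g (o : OL O (K := K) s), ρ g (o : K) = (Tb g o : OL O (K := K) s))
    (hlin : ∀ g i, ρ g (z i) ∈ Submodule.span O (Set.range z)) (hj : ∀ g, ρ g (z j) = z j)
    (g : G) : ∀ c ∈ CG (OL O (K := K) s) (fun _ : Unit => z) 1 (fun _ => z j),
      ρ g c ∈ CG (OL O (K := K) s) (fun _ : Unit => z) 1 (fun _ => z j) := by
  rw [CGj]
  refine st0 hcomL (fun g i => ?_) g
  rw [map_div₀, hj]
  have h1 := Submodule.mem_map_of_mem (f := LinearMap.mulRight O (z j)⁻¹) (hlin g i)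
  rw [Submodule.map_span, ← Set.range_comp] at h1
  have e1 : (LinearMap.mulRight O (z j)⁻¹) ∘ z = fun i => z i / z j :=
    funext fun i => (div_eq_mul_inv _ _).symm
  rw [e1] at h1
  rw [div_eq_mul_inv]
  exact h1

lemma ftj : Algebra.FiniteType (OL O (K := K) s)
    (CG (OL O (K := K) s) (fun _ : Unit => z) 1 (fun _ => z j)) := by
  rw [CGj]
  exact ft0

lemma regj (hs : algebraMap k K s ≠ 0)
    (hreg : IsRegularRing (Algebra.adjoin O (Set.range fun i => z i / z j))) :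
    IsRegularRing (CG (OL O (K := K) s) (fun _ : Unit => z) 1 (fun _ => z j)) := by
  rw [CGj]
  exact reg_Cs hs hreg

end cg

/-- **The graded algebras at the wild primes.** -/
theorem wctj {k O K G : Type} [CommRing k] [CommRing O] [IsDomain O]
    [IsDedekindDomain O] [Field K] [Group G] [Algebra k O] [Algebra O K] [Algebra k K]
    [IsScalarTower k O K] {ρ : G →* (K ≃ₐ[k] K)} {T : G →* (O ≃ₐ[k] O)} {s : k}
    [IsDedekindDomain (OL O (K := K) s)]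
    {Tb : G →* (OL O (K := K) s ≃ₐ[k] OL O (K := K) s)}
    (hs : algebraMap k K s ≠ 0) (hinj : Function.Injective (algebraMap O K))
    (hcom : ∀ g o, ρ g (algebraMap O K o) = algebraMap O K (T g o))
    {m : ℕ} {z : Fin (m + 1) → K} {e : Ideal O → ℕ} {W : Ideal O → Fin (m + 1) → ℕ}
    {J : Set (Fin (m + 1))} (hD : WDJ k O K G ρ T z J e W) {j₀ : Fin (m + 1)} (hj₀ : j₀ ∈ J) {N : Type} {𝔔 : N → Ideal (OL O (K := K) s)} {p l : N → ℕ}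
    {τ : N → G} {π : OL O (K := K) s} (hL : LocE k (OL O (K := K) s) K G ρ Tb 𝔔 p l τ π)
    (hWe : ∀ i, ∃ g, g ≠ 1 ∧ Wild T g (ctr s (𝔔 i)))
    (hτW : ∀ i, τ i ≠ 1 ∧ Wild T (τ i) (ctr s (𝔔 i)))
    {C : Subalgebra (OL O (K := K) s) K} {R : N → Subalgebra k (LP K)}
    (hst : ∀ g, ∀ c ∈ C, ρ g c ∈ C) (hftC : Algebra.FiniteType (OL O (K := K) s) C)
    (hrgC : IsRegularRing C) (hc0 : ∀ i, ∀ c ∈ C, hm 0 c ∈ R i)
    (hd0 : ∀ i (d : ℤ) x, hm d x ∈ R i → x ∈ C) (hgr : ∀ i, Gr (R i))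
    (hss : ∀ i, hm (-1) 1 ∈ R i) (hft : ∀ i, Algebra.FiniteType k (R i))
    (hup : ∀ i, ∀ a ∈ 𝔔 i, hm 1 (algebraMap (OL O (K := K) s) K a) ∈ R i)
    (hep : ∀ i (n : ℕ), ∀ a ∈ 𝔔 i ^ n,
      hm ((e (ctr s (𝔔 i)) * n : ℕ) : ℤ) (algebraMap (OL O (K := K) s) K a) ∈ R i)
    (hRl : ∀ i, R i = loc (WR k (ctr s (𝔔 i)) (e (ctr s (𝔔 i))) (W (ctr s (𝔔 i))) z j₀)
      (hm 0 (algebraMap k K s)) (WRj_algk s)) :
    WCt k (OL O (K := K) s) K G ρ Tb 𝔔 τ π C R := by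
  have hM : ∀ i, (ctr s (𝔔 i)).IsMaximal := fun i => ctr_maximal hinj (hL.mx i) (hL.ne i)
  refine ⟨hst, hftC, hrgC, hc0, hd0, hgr, hss, hft, ?_, hup, ?_, ?_⟩
  · intro i
    rw [hRl i]
    exact regular_loc (hD.rg _ (hM i) (hWe i) j₀ hj₀) (WRj_algk s) (isUnit_hm hs)
  · intro g i j hij
    have hij' : ∀ o, o ∈ ctr s (𝔔 i) ↔ T g o ∈ ctr s (𝔔 j) := by
      intro o
      rw [mem_ctr, mem_ctr, hij, tb_o hcom hL.com]
    rw [hRl i, hRl j]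
    exact loc_tl (WRj_algk s) (WRj_algk s) ((ρ g).commutes s) (hD.eq _ (hM i) (hWe i) g _ hij' j₀ hj₀)
  · intro i
    obtain ⟨hne, hwild⟩ := hτW i
    obtain ⟨l', D, hD0, hDl, hdv, hδ0, hnd0⟩ := hD.dl _ (hM i) (τ i) hne hwild j₀ hj₀
    have hdv' := dv_loc hs hcom hL.com hdv
    have h𝔄 : ∀ a ∈ (algebraMap O K) '' (ctr s (𝔔 i) : Set O),
        hm 0 a ∈ WR k (ctr s (𝔔 i)) (e (ctr s (𝔔 i))) (W (ctr s (𝔔 i))) z j₀ := by
      rintro _ ⟨a, -, rfl⟩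
      exact WR_o a
    have hAB : (algebraMap O K) '' (ctr s (𝔔 i) : Set O) ⊆
        (algebraMap (OL O (K := K) s) K) '' (𝔔 i : Set (OL O (K := K) s)) := by
      rintro _ ⟨a, ha, rfl⟩
      exact ⟨⟨algebraMap O K a, mem_OLb s a⟩, mem_ctr.1 ha, rfl⟩
    obtain ⟨hδ, hnd⟩ := wct_dl hs ((ρ (τ i)).commutes s) (WRj_algk s) (hRl i) hδ0 hAB h𝔄
      (fun Q hQ h1 h2 => hnd0 Q hQ (fun a ha => h1 _ ⟨a, ha, rfl⟩) h2)
    refine ⟨D, hD0, hδ, fun w hw => ?_, fun Q hQ h1 h2 => hnd Q hQ ?_ h2⟩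
    · refine low_mem (hss i) (hep i l' _ ?_) (by exact_mod_cast hDl)
      refine cancel_unif (hL.mx i) (hL.ne i) ?_ (hL.pq i).1 (hL.pq i).2
      have e1 : (w - 1) * π = Tb (τ i) π - π := by
        rw [hw]
        ring
      rw [e1]
      exact hdv' π
    · rintro _ ⟨a, ha, rfl⟩
      exact h1 a ha

/-- **The charts are regular outside the vertex.** -/
theorem f_CHJ (hCH : S_CHW) (hRWB : S_RWB)
    (k O Y Y₂ K K₂ G : Type) [CommRing k] [IsDomain k] [IsNoetherianRing k]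
    [CommRing O] [IsDomain O] [IsDedekindDomain O] [Field Y] [Field Y₂] [Field K]
    [Field K₂] [Group G] [Finite G] [Algebra k O] [Algebra O K]
    [Algebra k K] [IsScalarTower k O K] [Algebra k Y] [Algebra k Y₂] [Algebra k K₂]
    (ι : Y →ₐ[k] K) (ι₂ : Y₂ →ₐ[k] K₂) (εY : LP Y →ₐ[k] Y₂) (ε : LP K →ₐ[k] K₂)
    (ρ : G →* (K ≃ₐ[k] K)) (ρ₂ : G →* (K₂ ≃ₐ[k] K₂)) (hE : Ext2M ι ι₂ εY ε ρ ρ₂)
    (T : G →* (O ≃ₐ[k] O)) (m : ℕ) (z : Fin (m + 1) → K)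
    (hH : GF k O K G ρ T)
    (hlin0 : ∀ g j, ρ g (z j) ∈ Submodule.span O (Set.range z)) (J : Set (Fin (m + 1)))
    (hinv : ∀ j ∈ J, ∀ g, ρ g (z j) = z j)
    (hreg0 : ∀ j ∈ J, IsRegularRing (Algebra.adjoin O (Set.range fun i => z i / z j)))
    (e : Ideal O → ℕ)
    (W : Ideal O → Fin (m + 1) → ℕ) (hD : WDJ k O K G ρ T z J e W)
    (s : k) (_ : IsDedekindDomain (OL O (K := K) s))
    (Tb : G →* (OL O (K := K) s ≃ₐ[k] OL O (K := K) s)) (N : Type) [Finite N]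
    (𝔔 : N → Ideal (OL O (K := K) s)) (p l : N → ℕ) (τ : N → G) (π : OL O (K := K) s)
    (hs : s ≠ 0) (hL : LocE k (OL O (K := K) s) K G ρ Tb 𝔔 p l τ π)
    (hin : ∀ i, ∃ g, g ≠ 1 ∧ (∀ x, Tb g x - x ∈ 𝔔 i) ∧ ∀ x ∈ 𝔔 i, Tb g x - x ∈ 𝔔 i ^ 2) :
    ∃ (e : N → ℕ) (W : N → Unit → Fin (m + 1) → ℕ), (∀ i, 0 < e i) ∧ ∀ j ∈ J,
      Pool.Agent.Y223.G.Ch (res ι₂ (GRW O ε (fun _ => z) s 𝔔 e W (π : K) 1
        (fun _ : Unit => z j))) := by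
  have hsK : algebraMap k K s ≠ 0 := fun h => hs (hH.injk (by rw [h, map_zero]))
  have hNO : IsNoetherianRing (OL O (K := K) s) := inferInstance
  have hM : ∀ i, (ctr s (𝔔 i)).IsMaximal := fun i => ctr_maximal hH.inj (hL.mx i) (hL.ne i)
  have hTbs := tb_s (s := s) (Tb := Tb) hH.com hL.com
  -- the wild inertia group
  have hWg : ∀ i g, (∀ x, Tb g x - x ∈ 𝔔 i) → (∀ x ∈ 𝔔 i, Tb g x - x ∈ 𝔔 i ^ 2) →
      Wild T g (ctr s (𝔔 i)) := by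
    intro i g hg hg2
    refine ⟨fun o => ?_, fun o ho => ?_⟩
    · rw [mem_ctr, ← hTbs]
      exact hg _
    · refine ctr_sq hH.inj hsK (hL.mx i) (hL.ne i) ?_
      rw [← hTbs]
      exact hg2 _ (mem_ctr.1 ho)
  have hWe : ∀ i, ∃ g, g ≠ 1 ∧ Wild T g (ctr s (𝔔 i)) := by
    intro i
    obtain ⟨g, hg1, hg, hg2⟩ := hin i
    exact ⟨g, hg1, hWg i g hg hg2⟩
  have hτW : ∀ i, τ i ≠ 1 ∧ Wild T (τ i) (ctr s (𝔔 i)) := by
    intro i
    obtain ⟨g, hg1, hg, hg2⟩ := hin i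
    obtain ⟨hw, hτp, hz⟩ := hL.ty i
    have h1 : g ∈ Subgroup.zpowers (τ i) := by
      refine hz g hg fun w hw => ?_
      have h2 : (w - 1) * π ∈ 𝔔 i ^ (1 + 1) := by
        have e1 : (w - 1) * π = Tb g π - π := by
          rw [hw]
          ring
        rw [e1]
        exact hg2 _ (hL.pq i).1
      have h3 := cancel_unif (hL.mx i) (hL.ne i) h2 (hL.pq i).1 (hL.pq i).2
      rwa [pow_one] at h3
    refine ⟨fun h => hg1 ?_, ?_⟩
    · rw [h, Subgroup.zpowers_one_eq_bot, Subgroup.mem_bot] at h1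
      exact h1
    · have h2 : Subgroup.zpowers g ≤ wildSub T (ctr s (𝔔 i)) := by
        rw [Subgroup.zpowers_le]
        exact hWg i g hg hg2
      exact h2 (zpowers_prime hw.pp hτp h1 hg1)
  refine ⟨fun i => e (ctr s (𝔔 i)), fun i _ => W (ctr s (𝔔 i)), fun i => hD.e0 _, ?_⟩
  intro j₀ hj₀
  have hb := fun i => hRWB k (OL O (K := K) s) K Unit (𝔔 i) (e (ctr s (𝔔 i))) (hD.e0 _) m
    (fun _ => W (ctr s (𝔔 i))) (fun _ => z) 1 (fun _ => z j₀)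
  have hRW : ∀ i, RW k (𝔔 i) (e (ctr s (𝔔 i))) (fun _ : Unit => W (ctr s (𝔔 i))) (fun _ => z) 1
      (fun _ => z j₀) =
      loc (WR k (ctr s (𝔔 i)) (e (ctr s (𝔔 i))) (W (ctr s (𝔔 i))) z j₀) (hm 0 (algebraMap k K s))
        (WRj_algk s) := fun i =>
    RW_eq_locj hsK (fun a ha => mem_ctr.1 ha) (fun b hb => ctr_rep b hb)
  unfold GRW
  generalize hR : (fun i => RW k (𝔔 i) (e (ctr s (𝔔 i))) (fun _ : Unit => W (ctr s (𝔔 i)))
    (fun _ => z) 1 (fun _ => z j₀)) = R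
  have hRi : ∀ i, RW k (𝔔 i) (e (ctr s (𝔔 i))) (fun _ : Unit => W (ctr s (𝔔 i)))
    (fun _ => z) 1 (fun _ => z j₀) = R i := fun i => congrFun hR i
  have hft : ∀ i, Algebra.FiniteType k (R i) := fun i => by
    rw [← hRi i]
    exact (hb i).2.2.2.2.2.2 hL.ft hNO
  simp only [hRi] at hb hRW
  have hst := stj (z := z) (Tb := Tb) hL.com hlin0 (hinv j₀ hj₀)
  have hftC : Algebra.FiniteType (OL O (K := K) s)
    (CG (OL O (K := K) s) (fun _ : Unit => z) 1 (fun _ => z j₀)) := ftj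
  have hrgC : IsRegularRing (CG (OL O (K := K) s) (fun _ : Unit => z) 1 (fun _ => z j₀)) :=
    regj hsK (hreg0 j₀ hj₀)
  have hW : WCt k (OL O (K := K) s) K G ρ Tb 𝔔 τ π
      (CG (OL O (K := K) s) (fun _ : Unit => z) 1 (fun _ => z j₀)) R :=
    wctj hsK hH.inj hH.com hD hj₀ hL hWe hτW hst hftC hrgC (fun i => (hb i).1)
      (fun i => (hb i).2.1) (fun i => (hb i).2.2.1) (fun i => (hb i).2.2.2.1)
      hft (fun i => (hb i).2.2.2.2.1)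
      (fun i => (hb i).2.2.2.2.2.1) hRW
  exact hCH k (OL O (K := K) s) K K₂ G ε hE.eK ρ ρ₂ hE.act Tb N 𝔔 p l τ π hL _ _ hW Y₂ ι₂ hE.fix

end Pool.Agent.Zk15
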