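import Pool.Agent.Zk15.Aff10
import Pool.Agent.Zk15.Fp18

/-!
# Separating invariants and the inertia groups of places
-/

set_option autoImplicit false
set_option linter.unusedVariables false
set_option linter.unusedSectionVars false
set_option linter.overlappingInstances false

namespace Pool.Agent.Zk15

/-- **A separating invariant** in a function field of one variable. -/
theorem exists_sepG {k M G : Type} [Field k] [PerfectField k] [Field M] [Algebra k M]
    [Algebra.EssFiniteType k M] (hM : Algebra.trdeg k M = 1) [Group G] [Finite G]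
    (ρ : G →* (M ≃ₐ[k] M)) :
    ∃ t : M, Transcendental k t ∧ (∀ g, ρ g t = t) ∧
      FiniteDimensional (IntermediateField.adjoin k {t}) M ∧
      Algebra.IsSeparable (IntermediateField.adjoin k {t}) M := by
  classical
  let _ : MulSemiringAction G M := MulSemiringAction.compHom M ρ
  have hsm : ∀ (g : G) (x : M), g • x = ρ g x := fun g x => rfl
  let E := FixedPoints.subfield G M
  have hE : ∀ x : M, x ∈ E ↔ ∀ g, ρ g x = x := fun x => Iff.rfl
  let algE : Algebra k E := ((algebraMap k M).codRestrict E (fun c g => by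
    change ρ g (algebraMap k M c) = algebraMap k M c
    exact (ρ g).commutes c)).toAlgebra
  have htow : IsScalarTower k E M := IsScalarTower.of_algebraMap_eq fun c => rfl
  have hfd : FiniteDimensional E M := inferInstance
  have hsep : Algebra.IsSeparable E M := inferInstance
  have halg : Algebra.IsAlgebraic E M := inferInstance
  have htr : Algebra.trdeg k E = 1 := by
    have h1 := _root_.trdeg_add_eq k E (A := M)
    rw [_root_.trdeg_eq_zero (R := E) (A := M), add_zero, hM] at h1
    exact h1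
  -- a transcendental element
  have hT : Algebra.Transcendental k E := by
    rw [← _root_.trdeg_ne_zero_iff, htr]
    exact one_ne_zero
  obtain ⟨s, hs⟩ := hT.transcendental
  have hsM : Transcendental k (s : M) :=
    (transcendental_algebraMap_iff (algebraMap E M).injective).2 hs
  have hai : AlgebraicIndependent k (fun _ : Unit => (s : M)) :=
    (algebraicIndependent_unique_type_iff).2 hsM
  have htb : IsTranscendenceBasis k (fun _ : Unit => (s : M)) := by
    refine hai.isTranscendenceBasis_of_trdeg_le_of_finite ?_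
    rw [hM]
    simp
  have hFE : ∀ x ∈ IntermediateField.adjoin k {(s : M)}, x ∈ E := by
    intro x hx
    induction hx using IntermediateField.adjoin_induction with
    | mem x hx =>
      rw [Set.mem_singleton_iff.1 hx]
      exact s.2
    | algebraMap x =>
      rw [hE]
      intro g
      exact (ρ g).commutes x
    | add x y _ _ hx hy => exact add_mem hx hy
    | inv x _ hx => exact inv_mem hx
    | mul x y _ _ hx hy => exact mul_mem hx hy
  let F₀ := IntermediateField.adjoin k {(s : M)}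
  have hF0alg : Algebra.IsAlgebraic F₀ M := by
    have h1 := htb.isAlgebraic_field
    have h2 : Set.range (fun _ : Unit => (s : M)) = {(s : M)} := by
      ext x
      simp
    rw [h2] at h1
    exact h1
  have hF0ess : Algebra.EssFiniteType F₀ M := Algebra.EssFiniteType.of_comp k _ M
  have hF0fin : FiniteDimensional F₀ M := fin_of_alg _ M
  let f : F₀ →+* E := F₀.val.toRingHom.codRestrict E fun x => hFE x x.2
  let _ : Algebra F₀ E := f.toAlgebra
  have htow2 : IsScalarTower F₀ E M := IsScalarTower.of_algebraMap_eq fun x => rfl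
  have hF0E : FiniteDimensional F₀ E :=
    FiniteDimensional.of_injective (IsScalarTower.toAlgHom F₀ E M).toLinearMap
      (algebraMap E M).injective
  have htow3 : IsScalarTower k F₀ E := IsScalarTower.of_algebraMap_eq fun c => rfl
  have hkF0 : Algebra.EssFiniteType k F₀ :=
    (IntermediateField.essFiniteType_iff).2
      (IntermediateField.fg_adjoin_of_finite (Set.finite_singleton (s : M)))
  have hess : Algebra.EssFiniteType k E := Algebra.EssFiniteType.comp k F₀ E
  obtain ⟨t, ht, h1, h2⟩ := exists_sep k E M htr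
  exact ⟨_, ht, fun g => (hE _).1 t.2 g, h1, h2⟩

/-- The elements of the group which act trivially on the residue field of the valuation ring. -/
def inV {k M G : Type} [Field k] [Field M] [Algebra k M] [Group G] (ρ : G →* (M ≃ₐ[k] M))
    (V : ValuationSubring M) : Set G :=
  {g | ∀ x ∈ V, ρ g x - x ∈ V.nonunits}

/-- The inertia groups of the maximal ideals are those of the valuation rings. -/
theorem inertiaG {k M G : Type} [Field k] [Field M] [Algebra k M] [Group G]
    (ρ : G →* (M ≃ₐ[k] M)) (O : Subalgebra k M) (hO : ∀ g, ∀ x ∈ O, ρ g x ∈ O) (𝔓 : Ideal O)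
    (hd : IsDedekindDomain O) (hfr : ∀ x : M, ∃ a b, a ∈ O ∧ b ∈ O ∧ b ≠ 0 ∧ x = a / b)
    (hm : 𝔓.IsMaximal) (h0 : 𝔓 ≠ ⊥) :
    ∃ V : ValuationSubring M, (∀ c : k, algebraMap k M c ∈ V) ∧ V ≠ ⊤ ∧
      ∀ g, g ∈ F.inG (TS ρ O hO) 𝔓 ↔ g ∈ inV ρ V := by
  classical
  let V := VP O hfr 𝔓 hm h0
  have hOV : ∀ o : O, (o : M) ∈ V := fun o =>
    ⟨o, 1, fun h => hm.ne_top ((Ideal.eq_top_iff_one _).2 h), by push_cast; ring⟩
  have hI : ∀ g ∈ F.inG (TS ρ O hO) 𝔓, ∀ b : O, b ∉ 𝔓 → TS ρ O hO g b ∉ 𝔓 := by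
    intro g hg b hb h
    apply hb
    have h1 := 𝔓.sub_mem h (hg b)
    rwa [sub_sub_cancel] at h1
  have hnon : ∀ (e s : O), e ∈ 𝔓 → s ∉ 𝔓 → ∀ y : M, y * s = e → y ≠ 0 → y⁻¹ ∉ V := by
    rintro e s he hs y hy hy0 ⟨a, b, hb, h⟩
    have h1 : b * s = a * e := by
      apply Subtype.ext
      push_cast
      rw [← h, ← hy]
      field_simp
    have h2 : b * s ∈ 𝔓 := by
      rw [h1]
      exact 𝔓.mul_mem_left _ he
    exact (hm.isPrime.mem_or_mem h2).elim hb hs
  have hnu : ∀ (e s : O), e ∈ 𝔓 → s ∉ 𝔓 → ∀ y : M, y * s = e → y ∈ V.nonunits := by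
    intro e s he hs y hy
    by_cases hy0 : y = 0
    · rw [hy0, ValuationSubring.mem_nonunits_iff, map_zero]
      exact zero_lt_one
    · have h1 := hnon e s he hs y hy hy0
      rw [← V.valuation_le_one_iff, not_le, map_inv₀] at h1
      rw [ValuationSubring.mem_nonunits_iff]
      have h4 : V.valuation y ≠ 0 := (Valuation.ne_zero_iff _).2 hy0
      exact (one_lt_inv₀ (zero_lt_iff.2 h4)).1 h1
  have hun : ∀ o : O, (o : M) ∈ V.nonunits → o ∈ 𝔓 := by
    intro o ho
    by_contra hcon
    rw [ValuationSubring.mem_nonunits_iff] at ho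
    have ho0 : (o : M) ≠ 0 := fun h => hcon (by
      have h1 : o = 0 := Subtype.ext h
      rw [h1]
      exact 𝔓.zero_mem)
    have h1 : (o : M)⁻¹ ∈ V := ⟨1, o, hcon, by
      push_cast
      exact inv_mul_cancel₀ ho0⟩
    rw [← V.valuation_le_one_iff, map_inv₀] at h1
    have h4 : V.valuation (o : M) ≠ 0 := (Valuation.ne_zero_iff _).2 ho0
    exact absurd ((one_lt_inv₀ (zero_lt_iff.2 h4)).2 ho) (not_lt.2 h1)
  refine ⟨V, fun c => hOV (algebraMap k O c), ?_, fun g => ⟨fun hg => ?_, fun hg => ?_⟩⟩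
  · intro hV
    obtain ⟨e, he, he0⟩ := Submodule.exists_mem_ne_zero_of_ne_bot h0
    have he0' : (e : M) ≠ 0 := fun h => he0 (Subtype.ext h)
    refine hnon e 1 he (fun h => hm.ne_top ((Ideal.eq_top_iff_one _).2 h)) e
      (by push_cast; ring) he0' ?_
    rw [hV]
    trivial
  · rintro x ⟨a, b, hb, h⟩
    let T := TS ρ O hO g
    refine hnu ((T a - a) * b - a * (T b - b)) (T b * b)
      (𝔓.sub_mem (𝔓.mul_mem_right _ (hg a)) (𝔓.mul_mem_left _ (hg b)))
      (fun h => (hm.isPrime.mem_or_mem h).elim (hI g hg b hb) hb) (ρ g x - x) ?_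
    push_cast
    have e2 : ((T a : O) : M) = ρ g a := rfl
    have e3 : ((T b : O) : M) = ρ g b := rfl
    rw [e2, e3, ← h, map_mul]
    ring
  · intro o
    exact hun _ (hg o (hOV o))

/-- The condition on the inertia groups. -/
theorem hin_of {k M G : Type} [Field k] [Field M] [Algebra k M] [Group G]
    (ρ : G →* (M ≃ₐ[k] M)) {p : ℕ}
    (h : ∀ V : ValuationSubring M, (∀ c : k, algebraMap k M c ∈ V) → V ≠ ⊤ →
      ¬ p ^ 2 ∣ Nat.card (inV ρ V))
    (O : Subalgebra k M) (hO : ∀ g, ∀ x ∈ O, ρ g x ∈ O) (𝔓 : Ideal O)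
    (hd : IsDedekindDomain O) (hfr : ∀ x : M, ∃ a b, a ∈ O ∧ b ∈ O ∧ b ≠ 0 ∧ x = a / b)
    (hm : 𝔓.IsMaximal) (h0 : 𝔓 ≠ ⊥) : ¬ p ^ 2 ∣ Nat.card (F.inG (TS ρ O hO) 𝔓) := by
  obtain ⟨V, h1, h2, h3⟩ := inertiaG ρ O hO 𝔓 hd hfr hm h0
  have h4 : (F.inG (TS ρ O hO) 𝔓 : Set G) = inV ρ V := by
    ext g
    exact h3 g
  have h5 : Nat.card (F.inG (TS ρ O hO) 𝔓) = Nat.card (inV ρ V) :=
    congrArg (fun S : Set G => Nat.card S) h4
  rw [h5]
  exact h V h1 h2

end Pool.Agent.Zk15
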