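import Pool.Agent.Zk15.Aff13
import Pool.Agent.Zk52.As2

/-!
# The reduction of the order of the stabilisers, with domination
-/

set_option autoImplicit false

namespace Pool.Agent.Zk15

open Pool.Agent.Y223.G

/-- Reduction of the order of the stabilisers, with domination. -/
theorem t_ASTEP2D : S_ASTEP2D := by
  have hLOCJ : S_LOCJ := Pool.Agent.Y878.G.t_LOCJ
  have hI0 : S_I0REG := Pool.Agent.Y642.G.t_I0REG hLOCJ
  have hWQR : S_WQR := Pool.Agent.Y484.G.t_WQR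
  have hLRA : S_LRA := Pool.Agent.Y737.G.t_LRA hLOCJ hWQR
  have hLOWFT : S_LOWFT := Pool.Agent.Y86.G.t_LOWFT
  have hLOWREG : S_LOWREG := Pool.Agent.Y44.G.t_LOWREG hI0 hLRA hLOWFT
  intro k K K₂ _ _ _ _ _ _ _ hinj ε hε P M₀ 𝒱 h𝒱 n₀ hn₀ ρ hρ T _ C H h
  exact Pool.Agent.Zk52.astep2_dom Pool.Agent.Y232.G.t_GENS Pool.Agent.Y232.G.t_VAL hLOWFT
    hLOWREG k K K₂ hinj ε hε P M₀ 𝒱 h𝒱 n₀ hn₀ ρ hρ T C H h

end Pool.Agent.Zk15
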