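import Pool.Agent.Zk15.Ff13

/-!
# Affine weighted blowups: the data
-/

set_option autoImplicit false
set_option linter.unusedSectionVars false
set_option linter.overlappingInstances false

namespace Pool.Agent.Zk15

open Pool.Agent.Y223.G Pool.Agent.Y858.H Pool.Agent.Y987.H
open Pool.Agent.R383.TM

/-- Weighted blowups of an affine scheme, with the coordinates `z`, `z 0 = 1`: the graded algebras
`WR k 𝔓 (e 𝔓) (W 𝔓) z 0` are regular, they are permuted by the group, and the wild inertia groups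
have the leading form without zeros outside the vertex. -/
structure WD0 (k O K G : Type) [CommRing k] [CommRing O] [Field K] [Group G]
    [Algebra k O] [Algebra O K] [Algebra k K] (ρ : G →* (K ≃ₐ[k] K))
    (T : G →* (O ≃ₐ[k] O)) {m : ℕ} (z : Fin (m + 1) → K) (e : Ideal O → ℕ)
    (W : Ideal O → Fin (m + 1) → ℕ) : Prop where
  e0 : ∀ 𝔓 : Ideal O, 0 < e 𝔓
  rg : ∀ 𝔓 : Ideal O, 𝔓.IsMaximal → (∃ g, g ≠ 1 ∧ Wild T g 𝔓) →
    IsRegularRing (WR k 𝔓 (e 𝔓) (W 𝔓) z 0)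
  eq : ∀ 𝔓 : Ideal O, 𝔓.IsMaximal → (∃ g, g ≠ 1 ∧ Wild T g 𝔓) → ∀ (g : G) (𝔓' : Ideal O),
    (∀ o, o ∈ 𝔓 ↔ T g o ∈ 𝔓') →
    ∀ f ∈ WR k 𝔓 (e 𝔓) (W 𝔓) z 0, tl (ρ g) f ∈ WR k 𝔓' (e 𝔓') (W 𝔓') z 0
  dl : ∀ 𝔓 : Ideal O, 𝔓.IsMaximal → ∀ g, g ≠ 1 → Wild T g 𝔓 → ∃ l D : ℕ, 0 < D ∧
    D ≤ e 𝔓 * l ∧ (∀ o, T g o - o ∈ 𝔓 ^ (l + 1)) ∧
    (∀ f ∈ WR k 𝔓 (e 𝔓) (W 𝔓) z 0, hm D 1 * (tl (ρ g) f - f) ∈ WR k 𝔓 (e 𝔓) (W 𝔓) z 0) ∧
    ∀ Q : Ideal (WR k 𝔓 (e 𝔓) (W 𝔓) z 0), Q.IsPrime →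
      (∀ a ∈ 𝔓, ∃ h : hm 0 (algebraMap O K a) ∈ WR k 𝔓 (e 𝔓) (W 𝔓) z 0,
        (⟨_, h⟩ : WR k 𝔓 (e 𝔓) (W 𝔓) z 0) ∈ Q) →
      (∃ (n : ℕ) (η : K) (he : hm n η ∈ WR k 𝔓 (e 𝔓) (W 𝔓) z 0), 0 < n ∧
        (⟨hm n η, he⟩ : WR k 𝔓 (e 𝔓) (W 𝔓) z 0) ∉ Q) →
      ∃ b ∈ WR k 𝔓 (e 𝔓) (W 𝔓) z 0,
        ∃ h : hm D 1 * (tl (ρ g) b - b) ∈ WR k 𝔓 (e 𝔓) (W 𝔓) z 0,
          (⟨_, h⟩ : WR k 𝔓 (e 𝔓) (W 𝔓) z 0) ∉ Q

section loc

variable {k O K : Type} [CommRing k] [CommRing O] [IsDomain O] [Field K] [Algebra k O]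
  [Algebra O K] [Algebra k K] [IsScalarTower k O K] {s : k} {𝔔 : Ideal (OL O (K := K) s)}
  {𝔓 : Ideal O} {e m : ℕ} {W : Fin (m + 1) → ℕ} {z : Fin (m + 1) → K}

lemma WR_algk (s : k) : hm 0 (algebraMap k K s) ∈ WR k 𝔓 e W z 0 := by
  rw [IsScalarTower.algebraMap_apply k O K]
  exact WR_o _

lemma WR0_z (h1 : z 0 = 1) (i : Fin (m + 1)) : hm (W i) (z i) ∈ WR k 𝔓 e W z 0 := by
  have h2 := WR_z (k := k) (𝔓 := 𝔓) (e := e) (W := W) (z := z) (j := 0) i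
  rwa [h1, div_one] at h2

lemma single_sum (j : Fin (m + 1)) : ∑ i, (Pi.single j 1 : Fin (m + 1) → ℕ) i = 1 := by
  rw [Finset.sum_pi_single']
  simp

/-- Over the localization of the base the graded algebra is the localization. -/
theorem RW_eq_loc (hs : algebraMap k K s ≠ 0) (h1 : z 0 = 1)
    (hP : ∀ a ∈ 𝔓, (⟨algebraMap O K a, mem_OLb s a⟩ : OL O (K := K) s) ∈ 𝔔)
    (hrep : ∀ b ∈ 𝔔, ∃ n : ℕ, ∃ a ∈ 𝔓, algebraMap k K s ^ n * (b : K) = algebraMap O K a) :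
    RW k 𝔔 e (fun _ : Unit => W) (fun _ => z) 1 (fun _ => 1) =
      loc (WR k 𝔓 e W z 0) (hm 0 (algebraMap k K s)) (WR_algk s) := by
  have hsp : ∀ (n : ℕ) (d : ℤ) (x : K), (hm 0 (algebraMap k K s) : LP K) ^ n * hm d x =
      hm d (algebraMap k K s ^ n * x) := by
    intro n d x
    rw [hm_pow, hm_mul, mul_zero, zero_add]
  apply le_antisymm
  · unfold RW
    rw [Algebra.adjoin_le_iff]
    rintro f (((hf | ⟨b, hb, rfl⟩) | ⟨o, rfl⟩) | ⟨ω, a, ha, rfl⟩)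
    · rw [hf]
      exact le_loc _ _ _ WR_s
    · obtain ⟨n, a, ha, h⟩ := hrep b hb
      refine ⟨n, ?_⟩
      rw [hsp]
      change hm e (algebraMap k K s ^ n * (b : K)) ∈ _
      rw [h]
      exact WR_e ha
    · obtain ⟨x, n, y, hy⟩ := o
      refine ⟨n, ?_⟩
      rw [hsp]
      change hm 0 (algebraMap k K s ^ n * x) ∈ _
      rw [hy]
      exact WR_o y
    · refine le_loc _ _ _ ?_
      have h2 := WR_mon (k := k) (𝔓 := 𝔓) (e := e) (W := W) (z := z) (j := 0) a ha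
      rwa [h1, one_pow] at h2
  · rintro f ⟨n, hn⟩
    have hle : WR k 𝔓 e W z 0 ≤ RW k 𝔔 e (fun _ : Unit => W) (fun _ => z) 1 (fun _ => 1) := by
      unfold WR
      rw [Algebra.adjoin_le_iff]
      rintro f (((hf | ⟨a, ha, rfl⟩) | ⟨o, rfl⟩) | ⟨i, rfl⟩)
      · rw [hf]
        exact Pool.Agent.Y38.H.Rwb.R_s
      · exact Pool.Agent.Y38.H.Rwb.R_e (hP a ha)
      · exact Pool.Agent.Y38.H.Rwb.R_o (⟨algebraMap O K o, mem_OLb s o⟩ : OL O (K := K) s)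
      · have h2 := Pool.Agent.Y38.H.Rwb.R_m (k := k) (𝔓 := 𝔔) (e := e)
          (W := fun _ : Unit => W) (z := fun _ => z) (d := 1) (Φ := fun _ => 1) ()
          (Pi.single i 1) (single_sum i)
        have e1 : ∑ j, W j * (Pi.single i 1 : Fin (m + 1) → ℕ) j = W i := by
          rw [Finset.sum_eq_single i]
          · rw [Pi.single_eq_same, mul_one]
          · intro j _ hj
            rw [Pi.single_eq_of_ne hj, mul_zero]
          · intro h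
            exact absurd (Finset.mem_univ i) h
        have e2 : ∏ j, z j ^ (Pi.single i 1 : Fin (m + 1) → ℕ) j = z i := by
          rw [Finset.prod_eq_single i]
          · rw [Pi.single_eq_same, pow_one]
          · intro j _ hj
            rw [Pi.single_eq_of_ne hj, pow_zero]
          · intro h
            exact absurd (Finset.mem_univ i) h
        have h3 : hm ((∑ j, W j * (Pi.single i 1 : Fin (m + 1) → ℕ) j : ℕ) : ℤ)
            ((∏ j, z j ^ (Pi.single i 1 : Fin (m + 1) → ℕ) j) / 1) ∈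
            RW k 𝔔 e (fun _ : Unit => W) (fun _ => z) 1 (fun _ => 1) := h2
        rw [e1, e2] at h3
        rw [h1]
        exact h3
    have h2 := hle hn
    have h3 : hm 0 (algebraMap k K s)⁻¹ ∈
        RW k 𝔔 e (fun _ : Unit => W) (fun _ => z) 1 (fun _ => 1) :=
      Pool.Agent.Y38.H.Rwb.R_o (⟨_, Pool.Agent.Y177.G.inv_mem_OL s hs⟩ : OL O (K := K) s)
    have h4 := Subalgebra.mul_mem _ (Subalgebra.pow_mem _ h3 n) h2
    have e3 : (hm 0 (algebraMap k K s)⁻¹ : LP K) ^ n * (hm 0 (algebraMap k K s) ^ n * f) = f := by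
      rw [← mul_assoc, ← mul_pow, hm_mul, inv_mul_cancel₀ hs, add_zero, hm_one, one_pow, one_mul]
    rwa [e3] at h4

end loc

end Pool.Agent.Zk15
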