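import Pool.Agent.Zk15.PfW10
import Pool.Agent.Zk15.Aff11
import Pool.Agent.Zk15.Aff14

/-!
Models of the function field of the quotient of a product of curves.
-/

set_option autoImplicit false
set_option linter.unusedVariables false
set_option linter.unusedSectionVars false
set_option linter.overlappingInstances false

namespace Pool.Agent.Zk15.PG

open Pool.Agent.Zk10.PG

open Pool.Agent.Y223.G
open Pool.Agent.R383.TM (Wild WR)
open Pool.Agent.Zk15 (TS TS_inj IC IC_ok IC_map inV WDJ)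
open Pool.Agent.Zk15.F (inG invS TA)

lemma adj_up {k M K : Type} [Field k] [Field M] [Algebra k M] [Field K] [Algebra M K]
    (O : Subalgebra k M) {s : Set K} {x : K} (hx : x ∈ Algebra.adjoin O s) :
    x ∈ Algebra.adjoin M s := by
  induction hx using Algebra.adjoin_induction with
  | mem x hx => exact Algebra.subset_adjoin hx
  | algebraMap r => exact Subalgebra.algebraMap_mem (Algebra.adjoin M s) (r : M)
  | add x y _ _ hx hy => exact Subalgebra.add_mem _ hx hy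
  | mul x y _ _ hx hy => exact Subalgebra.mul_mem _ hx hy

/-- The model of the function field of the quotient. -/
theorem main_ff {k G : Type} [Field k] [PerfectField k] {p : ℕ} [Fact p.Prime] [CharP k p]
    [Group G] [Finite G] {n : ℕ} {F : Fin (n + 1) → Type} [∀ l, Field (F l)]
    [∀ l, Algebra k (F l)] [∀ l, Algebra.EssFiniteType k (F l)]
    (htr : ∀ l, Algebra.trdeg k (F l) = 1) (ρ : ∀ l, G →* (F l ≃ₐ[k] F l))
    (hρ : Function.Injective (ρ 0))
    (hin : ∀ V : ValuationSubring (F 0), (∀ c : k, algebraMap k (F 0) c ∈ V) → V ≠ ⊤ →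
      ¬ p ^ 2 ∣ Nat.card (inV (ρ 0) V))
    {TT : Type} [CommRing TT] [IsDomain TT] [Algebra k TT] {j : ∀ l, F l →ₐ[k] TT} (hj : IsTens j)
    {K : Type} [Field K] [Algebra TT K] [IsFractionRing TT K] [Algebra k K]
    [IsScalarTower k TT K] (ρK : G →* (K ≃ₐ[k] K))
    (hρK : ∀ g l x, ρK g (algebraMap TT K (j l x)) = algebraMap TT K (j l (ρ l g x)))
    {L : Type} [Field L] [Algebra k L] (ι : L →ₐ[k] K)
    (hfix : ∀ x, (∀ g, ρK g x = x) ↔ ∃ y, ι y = x) :
    ∃ (I : Type) (_ : Finite I) (w : I → L) (J : Set I),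
      ModelG (k := k) False ⊥ (⊤ : Subfield L) w J ∧
      ∀ i ∈ J, ∃ S : ∀ l, Subalgebra k (F l), (∀ l g, ∀ x ∈ S l, ρ l g x ∈ S l) ∧
        (∀ l, IsDedekindDomain (S l)) ∧
        (∀ l, ∀ x : F l, ∃ a b, a ∈ S l ∧ b ∈ S l ∧ b ≠ 0 ∧ x = a / b) ∧
        ∀ l, ∀ x ∈ S l, (∀ g, ρ l g x = x) → ∃ y : L, ι y = algebraMap TT K (j l x) ∧
          y ∈ Algebra.adjoin k (Set.range fun a => w a / w i) := by
  classical
  have hp : p.Prime := Fact.out
  have hpk : (p : k) = 0 := CharP.cast_eq_zero k p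
  -- the invariant functions
  choose t ht htρ hfd hsp using fun l => Pool.Agent.Zk15.exists_sepG (htr l) (ρ l)
  -- the breaks
  have hDex : ∀ l, ∃ D : ℕ, 0 < D ∧ BrD (ρ l) p D := fun l => by
    have := hfd l
    have := hsp l
    exact exists_D2 p (ρ l) (ht l) (htρ l) (IntermediateField.adjoin k {t l}) rfl
  choose D' hD' hB' using hDex
  obtain ⟨D, hDdef⟩ : ∃ D, D = ∏ l, D' l := ⟨_, rfl⟩
  have hD : 0 < D := by
    rw [hDdef]
    exact Finset.prod_pos fun l _ => hD' l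
  have hB : ∀ l, BrD (ρ l) p D := fun l O hO hd hft hfr g h1 h2 P hP => by
    rw [hDdef]
    exact (hB' l O hO hd hft hfr g h1 h2 P hP).trans (Finset.dvd_prod_of_mem D'
      (Finset.mem_univ l))
  -- the coordinates
  have htc : ∀ l : Fin n, ∃ (N : ℕ) (Z : Set (F l.succ)) (w : Set G → F l.succ → ℕ),
      Z.Finite ∧ 0 ∉ Z ∧ (∀ g, ∀ z ∈ Z, ρ l.succ g z ∈ Z) ∧
      GenD (ρ l.succ) p D Z w (IC k (t l.succ)) 1 ∧
      GenD (ρ l.succ) p D Z w (IC k (t l.succ)⁻¹) (t l.succ ^ N) := fun l => by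
    have := hfd l.succ
    have := hsp l.succ
    exact two_charts (ρ l.succ) hD (hB l.succ) (ht l.succ) (htρ l.succ)
      (IntermediateField.adjoin k {t l.succ}) rfl
  choose N Z w hZf hZ0 hst hg1 hg2 using htc
  let SB : ∀ l : Fin n, Bool → Subalgebra k (F l.succ) := fun l b =>
    bif b then IC k (t l.succ)⁻¹ else IC k (t l.succ)
  let sB : ∀ l : Fin n, Bool → F l.succ := fun l b => bif b then t l.succ ^ N l else 1
  have hg : ∀ l b, GenD (ρ l.succ) p D (Z l) (w l) (SB l b) (sB l b) := by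
    intro l b
    cases b
    · exact hg1 l
    · exact hg2 l
  have hfin : ∀ l, Finite (Z l) := fun l => hZf l
  have hne : Nonempty (∀ l, Z l) := ⟨fun l => ⟨1, (hg1 l).sZ⟩⟩
  obtain ⟨m, hm⟩ : ∃ m, Nat.card (∀ l, Z l) = m + 1 :=
    ⟨Nat.card (∀ l, Z l) - 1, by have := Nat.card_pos (α := ∀ l, Z l); omega⟩
  let E : (∀ l, Z l) ≃ Fin (m + 1) := Finite.equivFinOfCardEq hm
  obtain ⟨z, hz⟩ : ∃ z : Fin (m + 1) → K, ∀ i, z i =
      ∏ l : Fin n, algebraMap TT K (j l.succ (E.symm i l : F l.succ)) := ⟨_, fun i => rfl⟩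
  let jc : (Fin n → Bool) → Fin (m + 1) := fun c => E fun l => ⟨sB l (c l), (hg l (c l)).sZ⟩
  have hjc : ∀ c l, (E.symm (jc c) l : F l.succ) = sB l (c l) := by
    intro c l
    change (E.symm (E fun l => (⟨sB l (c l), (hg l (c l)).sZ⟩ : Z l)) l : F l.succ) = _
    rw [Equiv.symm_apply_apply]
  let eK : ∀ l, F l →+* K := fun l => (algebraMap TT K).comp (j l : F l →+* TT)
  have heK : ∀ l x, eK l x = algebraMap TT K (j l x) := fun l x => rfl
  have heKi : ∀ l, Function.Injective (eK l) := fun l => (eK l).injective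
  -- the algebra structure
  let _ : Algebra (F 0) K := (eK 0).toAlgebra
  have hFK : ∀ x, algebraMap (F 0) K x = algebraMap TT K (j 0 x) := fun x => rfl
  have htow : IsScalarTower k (F 0) K := IsScalarTower.of_algebraMap_eq fun c => by
    rw [hFK, AlgHom.commutes, ← IsScalarTower.algebraMap_apply]
  -- the charts
  let SO : Subalgebra k (F 0) → (Fin n → Bool) → ∀ l, Subalgebra k (F l) := fun O c =>
    Fin.cases (motive := fun l => Subalgebra k (F l)) O (fun l => SB l (c l))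
  have hSO0 : ∀ O c, SO O c 0 = O := fun O c => rfl
  have hSOs : ∀ O c (l : Fin n), SO O c l.succ = SB l (c l) := fun O c l => rfl
  have hSOst : ∀ (O : Subalgebra k (F 0)) (hO : ∀ g, ∀ x ∈ O, ρ 0 g x ∈ O) c l g,
      ∀ x ∈ SO O c l, ρ l g x ∈ SO O c l := fun O hO c l =>
    Fin.cases (motive := fun l => ∀ g, ∀ x ∈ SO O c l, ρ l g x ∈ SO O c l) hO
      (fun l => (hg l (c l)).st) l
  have hSOd : ∀ (O : Subalgebra k (F 0)) (hO : IsDedekindDomain O) c l,
      IsDedekindDomain (SO O c l) := fun O hO c l =>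
    Fin.cases (motive := fun l => IsDedekindDomain (SO O c l)) hO (fun l => (hg l (c l)).dd) l
  have hSOft : ∀ (O : Subalgebra k (F 0)) (hO : Algebra.FiniteType k O) c l,
      Algebra.FiniteType k (SO O c l) := fun O hO c l =>
    Fin.cases (motive := fun l => Algebra.FiniteType k (SO O c l)) hO
      (fun l => (hg l (c l)).ft) l
  have hSOfr : ∀ (O : Subalgebra k (F 0))
      (hO : ∀ x : F 0, ∃ a b, a ∈ O ∧ b ∈ O ∧ b ≠ 0 ∧ x = a / b) c l, ∀ x : F l, ∃ a b,
      a ∈ SO O c l ∧ b ∈ SO O c l ∧ b ≠ 0 ∧ x = a / b := fun O hO c l =>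
    Fin.cases (motive := fun l => ∀ x : F l, ∃ a b,
      a ∈ SO O c l ∧ b ∈ SO O c l ∧ b ≠ 0 ∧ x = a / b) hO (fun l => (hg l (c l)).fr) l
  have hch := fun (O : Subalgebra k (F 0)) (hO : ∀ g, ∀ x ∈ O, ρ 0 g x ∈ O)
      (hd : IsDedekindDomain O) (hft : Algebra.FiniteType k O)
      (hfr : ∀ x : F 0, ∃ a b, a ∈ O ∧ b ∈ O ∧ b ≠ 0 ∧ x = a / b) (c : Fin n → Bool) =>
    chart_all (ρ := ρ) hρ hD hB hj hρK E hz (SO O c) (hSOst O hO c) (hSOd O hd c)
      (hSOft O hft c) (hSOfr O hfr c) (s := fun l => sB l (c l)) (fun l => hg l (c l))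
      (fun 𝔓 h1 h2 => Pool.Agent.Zk15.hin_of (ρ 0) hin O hO 𝔓 hd hfr h1 h2) (fun o => rfl)
      (jc c) (hjc c)
  -- the regularity, the elements and the fractions of the charts
  have hcr := fun (O : Subalgebra k (F 0)) (hO : ∀ g, ∀ x ∈ O, ρ 0 g x ∈ O)
      (hd : IsDedekindDomain O) (hft : Algebra.FiniteType k O)
      (hfr : ∀ x : F 0, ∃ a b, a ∈ O ∧ b ∈ O ∧ b ≠ 0 ∧ x = a / b) (c : Fin n → Bool) =>
    (show IsRegularRing (Algebra.adjoin O (Set.range fun i => z i / z (jc c))) from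
      (hch O hO hd hft hfr c).1)
  have hce : ∀ (O : Subalgebra k (F 0)) (hO : ∀ g, ∀ x ∈ O, ρ 0 g x ∈ O)
      (hd : IsDedekindDomain O) (hft : Algebra.FiniteType k O)
      (hfr : ∀ x : F 0, ∃ a b, a ∈ O ∧ b ∈ O ∧ b ≠ 0 ∧ x = a / b) (c : Fin n → Bool),
      ∀ l, ∀ x ∈ SO O c l, algebraMap TT K (j l x) ∈
        Algebra.adjoin O (Set.range fun i => z i / z (jc c)) :=
    fun O hO hd hft hfr c l x hx => (hch O hO hd hft hfr c).2.1 l ⟨x, hx⟩
  have hcf : ∀ (O : Subalgebra k (F 0)) (hO : ∀ g, ∀ x ∈ O, ρ 0 g x ∈ O)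
      (hd : IsDedekindDomain O) (hft : Algebra.FiniteType k O)
      (hfr : ∀ x : F 0, ∃ a b, a ∈ O ∧ b ∈ O ∧ b ≠ 0 ∧ x = a / b) (c : Fin n → Bool)
      (x : K), ∃ a b, a ∈ Algebra.adjoin O (Set.range fun i => z i / z (jc c)) ∧
        b ∈ Algebra.adjoin O (Set.range fun i => z i / z (jc c)) ∧ b ≠ 0 ∧ x = a / b :=
    fun O hO hd hft hfr c x => (hch O hO hd hft hfr c).2.2.1 x
  -- the base over the first chart of `F 0`
  have hO1 : ∃ O : Subalgebra k (F 0), (∀ g, ∀ x ∈ O, ρ 0 g x ∈ O) ∧ IsDedekindDomain O ∧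
      Algebra.FiniteType k O ∧ ∀ x : F 0, ∃ a b, a ∈ O ∧ b ∈ O ∧ b ≠ 0 ∧ x = a / b := by
    have := hfd 0
    have := hsp 0
    obtain ⟨h1, h2, h3⟩ := IC_ok (ht 0) (IntermediateField.adjoin k {t 0}) rfl
    exact ⟨IC k (t 0), fun g x hx => IC_map (ρ 0 g) (htρ 0 g) hx, h1, h2, h3⟩
  have hzinv : ∀ g i, ρK g (z i) = z (E fun l =>
      ⟨ρ l.succ g (E.symm i l : F l.succ), hst l g _ (E.symm i l).2⟩) := by
    intro g i
    rw [hz, hz, map_prod]
    refine Finset.prod_congr rfl fun l _ => ?_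
    rw [hρK, Equiv.symm_apply_apply]
  have hzj0 : ∀ c, z (jc c) ≠ 0 := by
    intro c
    rw [hz]
    refine Finset.prod_ne_zero_iff.2 fun l _ => ?_
    rw [hjc]
    change eK l.succ (sB l (c l)) ≠ 0
    exact fun h => (hg l (c l)).s0 (heKi _ (by rw [h, map_zero]))
  have hzji : ∀ c g, ρK g (z (jc c)) = z (jc c) := by
    intro c g
    rw [hz, map_prod]
    refine Finset.prod_congr rfl fun l _ => ?_
    rw [hρK, hjc, (hg l (c l)).sρ]
  have hzdiv : ∀ c i, z i / z (jc c) =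
      ∏ l : Fin n, eK l.succ ((E.symm i l : F l.succ) / sB l (c l)) := by
    intro c i
    rw [hz, hz, ← Finset.prod_div_distrib]
    refine Finset.prod_congr rfl fun l _ => ?_
    rw [hjc, map_div₀]
    rfl
  have := hfd 0
  have := hsp 0
  obtain ⟨I, hI, wL, J', hM, hdom⟩ := Pool.Agent.Zk15.projJ_dom Pool.Agent.Zk15.t_ASTEP2D hp hpk
    (ρ 0) hρ (ht 0) (htρ 0) (IntermediateField.adjoin k {t 0}) rfl
    (fun O hO 𝔓 hd hfr h1 h2 => Pool.Agent.Zk15.hin_of (ρ 0) hin O hO 𝔓 hd hfr h1 h2)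
    ι ρK (fun g x => hρK g 0 x) hfix (z := z) (Set.range jc) ⟨_, fun _ => false, rfl⟩
    (by
      rintro _ ⟨c, rfl⟩ g
      exact hzji c g)
    (by
      rintro _ ⟨c, rfl⟩
      exact hzj0 c)
    (fun g i => by
      rw [hzinv]
      exact Submodule.subset_span ⟨_, rfl⟩)
    (by
      rintro _ ⟨c, rfl⟩ x
      obtain ⟨O, h1, h2, h3, h4⟩ := hO1
      obtain ⟨a, b, ha, hb, hb0, hx⟩ := hcf O h1 h2 h3 h4 c x
      exact ⟨a, b, adj_up O ha, adj_up O hb, hb0, hx⟩)
    (by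
      -- valuations
      intro V hV
      have hb : ∀ l : Fin n, ∃ b, ∀ x ∈ SB l b, eK l.succ x ∈ V := by
        intro l
        let Vl : ValuationSubring (F l.succ) := V.comap (eK l.succ)
        have hkl : ∀ c : k, algebraMap k (F l.succ) c ∈ Vl := by
          intro c
          change algebraMap TT K (j l.succ (algebraMap k (F l.succ) c)) ∈ V
          rw [AlgHom.commutes, ← IsScalarTower.algebraMap_apply]
          exact hV c
        have hint : ∀ s ∈ Vl, ∀ x ∈ IC k s, x ∈ Vl := by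
          intro s hs x hx
          refine Pool.Agent.Y515.G.int_mem (k := Algebra.adjoin k {s}) Vl ?_ hx
          rintro ⟨c, hc⟩
          change c ∈ Vl
          induction hc using Algebra.adjoin_induction with
          | mem x hx => rw [Set.mem_singleton_iff.1 hx]; exact hs
          | algebraMap r => exact hkl r
          | add x y _ _ hx hy => exact add_mem hx hy
          | mul x y _ _ hx hy => exact mul_mem hx hy
        rcases Vl.mem_or_inv_mem (t l.succ) with h1 | h1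
        · exact ⟨false, fun x hx => hint _ h1 x hx⟩
        · exact ⟨true, fun x hx => hint _ h1 x hx⟩
      choose c hc using hb
      refine ⟨jc c, ⟨c, rfl⟩, fun i => ?_⟩
      rw [hzdiv]
      exact prod_mem fun l _ => hc l _ ((hg l (c l)).zS _ (E.symm i l).2))
    (by
      intro O hO hd hft hfr
      refine ⟨?_, e0 (TS (ρ 0) O hO) D,
        fun 𝔓 i => ∑ l, w l {g | Wild (TS (ρ 0) O hO) g 𝔓} (E.symm i l), ?_⟩
      · rintro _ ⟨c, rfl⟩
        exact hcr O hO hd hft hfr c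
      · intro ρ' hρ'
        refine ⟨fun 𝔓 => lt_of_lt_of_le zero_lt_one (le_max_left _ _), ?_, ?_, ?_⟩
        · rintro 𝔓 hm hw _ ⟨c, rfl⟩
          exact ((hch O hO hd hft hfr c).2.2.2 ρ' hρ').1 𝔓 hm hw
        · rintro 𝔓 hm hw g 𝔓' hP _ ⟨c, rfl⟩
          exact ((hch O hO hd hft hfr c).2.2.2 ρ' hρ').2.1 𝔓 hm hw g 𝔓' hP
        · rintro 𝔓 hm g hg1 hg' _ ⟨c, rfl⟩
          exact ((hch O hO hd hft hfr c).2.2.2 ρ' hρ').2.2 𝔓 hm g hg1 hg')
  refine ⟨I, hI, wL, J', hM, fun i hi => ?_⟩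
  obtain ⟨_, ⟨c, rfl⟩, O, hO, hd, hft, hfr, -, hdo⟩ := hdom i hi
  refine ⟨SO O c, hSOst O hO c, hSOd O hd c, hSOfr O hfr c, fun l x hx hxi => ?_⟩
  obtain ⟨y, hy⟩ := (hfix (algebraMap TT K (j l x))).1 fun g => by rw [hρK, hxi]
  refine ⟨y, hy, hdo y ?_⟩
  rw [hy]
  exact hce O hO hd hft hfr c l x hx

end Pool.Agent.Zk15.PG
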