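import Pool.Agent.Zk52.Tens10

/-!
# Tensor products of algebras over a perfect field: injectivity and derivations at points

The proofs are those of `Pool.Agent.Zk52.Tens10` (algebraically closed fields).
-/

set_option autoImplicit false
set_option linter.all false

namespace Pool.Agent.Zk15.PG

open Pool.Agent.Zk10.PG

open scoped TensorProduct

section tensor

variable {k : Type} [Field k] {n : ℕ} {B : Fin n → Type} [∀ i, CommRing (B i)]
  [∀ i, Algebra k (B i)] {C : Type} [CommRing C] [Algebra k C] {j : ∀ i, B i →ₐ[k] C}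
  (hj : IsTens j)

include hj

theorem tens_inj [∀ i, Nontrivial (B i)] [∀ i, Algebra.FiniteType k (B i)]
    (i : Fin n) : Function.Injective (j i) := by
  classical
  have h1 : ∀ l, Nonempty (B l →ₐ[k] AlgebraicClosure k) := by
    intro l
    obtain ⟨P, hP⟩ := Ideal.exists_maximal (B l)
    let _ : Field (B l ⧸ P) := Ideal.Quotient.field P
    have : Algebra.FiniteType k (B l ⧸ P) :=
      Algebra.FiniteType.of_surjective (Ideal.Quotient.mkₐ k P)
        (Ideal.Quotient.mkₐ_surjective k P)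
    have hfin : Module.Finite k (B l ⧸ P) := finite_of_finite_type_of_isJacobsonRing k (B l ⧸ P)
    have hint : Algebra.IsAlgebraic k (B l ⧸ P) := inferInstance
    exact ⟨(IsAlgClosed.lift : (B l ⧸ P) →ₐ[k] AlgebraicClosure k).comp (Ideal.Quotient.mkₐ k P)⟩
  have h2 : ∃ f : ∀ l, B l →ₐ[k] (B i ⊗[k] AlgebraicClosure k),
      f i = Algebra.TensorProduct.includeLeft := by
    refine ⟨fun l => if h : l = i then h ▸ Algebra.TensorProduct.includeLeft else
      Algebra.TensorProduct.includeRight.comp (Classical.choice (h1 l)), ?_⟩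
    simp
  obtain ⟨f, hf⟩ := h2
  obtain ⟨g, hg, -⟩ := hj (B i ⊗[k] AlgebraicClosure k) f
  have hinj : Function.Injective
      (Algebra.TensorProduct.includeLeft : B i →ₐ[k] (B i ⊗[k] AlgebraicClosure k)) :=
    Algebra.TensorProduct.includeLeft_injective (algebraMap k (AlgebraicClosure k)).injective
  intro a b hab
  apply hinj
  rw [← hf, ← hg i, AlgHom.comp_apply, AlgHom.comp_apply, hab]

/-- A derivation at a point of the product. -/
theorem tens_der [PerfectField k] (i : Fin n) [IsDomain (B i)] [IsDedekindDomain (B i)]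
    [Algebra.FiniteType k (B i)] (P : Ideal (B i)) (hP : P.IsMaximal) (y : B i) (hy : y ∈ P)
    (hy2 : y ∉ P ^ 2) (q : Ideal C) (hq : q.IsPrime) (hPq : ∀ b ∈ P, j i b ∈ q) :
    ∃ d : C → C ⧸ q, (∀ a b, d (a + b) = d a + d b) ∧
      (∀ a b, d (a * b) = Ideal.Quotient.mk q a * d b + Ideal.Quotient.mk q b * d a) ∧
      (∀ l, l ≠ i → ∀ b, d (j l b) = 0) ∧ d (j i y) = 1 := by
  classical
  haveI := hP.isPrime
  have hP0 : P ≠ ⊥ := by
    rintro rfl
    rw [Ideal.mem_bot.1 hy] at hy2
    exact hy2 (Ideal.zero_mem _)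
  -- `P = (y) + P ^ 2`
  have hspan : Ideal.span {y} ⊔ P ^ 2 = P := by
    have hle : Ideal.span {y} ⊔ P ^ 2 ≤ P :=
      sup_le ((Ideal.span_singleton_le_iff_mem _).2 hy) (Ideal.pow_le_self two_ne_zero)
    have hdvd : Ideal.span {y} ⊔ P ^ 2 ∣ P ^ 2 := Ideal.dvd_iff_le.2 le_sup_right
    have hprime : Prime P := Ideal.prime_of_isPrime hP0 hP.isPrime
    obtain ⟨m, hm, hassoc⟩ := (dvd_prime_pow hprime 2).1 hdvd
    rw [associated_iff_eq] at hassoc
    interval_cases m
    · exfalso
      rw [pow_zero, Ideal.one_eq_top] at hassoc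
      rw [hassoc] at hle
      exact hP.ne_top (top_le_iff.1 hle)
    · rwa [pow_one] at hassoc
    · exfalso
      apply hy2
      rw [← hassoc]
      exact Ideal.mem_sup_left (Ideal.mem_span_singleton_self y)
  -- the residue field is in the quotient by `P ^ 2`
  let _ : Field (B i ⧸ P) := Ideal.Quotient.field P
  have : Algebra.FiniteType k (B i ⧸ P) :=
    Algebra.FiniteType.of_surjective (Ideal.Quotient.mkₐ k P) (Ideal.Quotient.mkₐ_surjective k P)
  have hfin : Module.Finite k (B i ⧸ P) := finite_of_finite_type_of_isJacobsonRing k (B i ⧸ P)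
  have hsep : Algebra.IsSeparable k (B i ⧸ P) := inferInstance
  have het : Algebra.FormallyEtale k (B i ⧸ P) := Algebra.FormallyEtale.of_isSeparable k (B i ⧸ P)
  have hfs : Algebra.FormallySmooth k (B i ⧸ P) := inferInstance
  have hle2 : P ^ 2 ≤ P := Ideal.pow_le_self two_ne_zero
  let π : (B i ⧸ P ^ 2) →ₐ[k] (B i ⧸ P) := Ideal.Quotient.factorₐ k hle2
  have hπ : ∀ b, π (Ideal.Quotient.mk (P ^ 2) b) = Ideal.Quotient.mk P b := fun b => rfl
  have hπs : Function.Surjective π := Ideal.Quotient.factor_surjective hle2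
  have hker : ∀ x, π x = 0 → ∃ u ∈ P, Ideal.Quotient.mk (P ^ 2) u = x := by
    intro x hx
    obtain ⟨u, rfl⟩ := Ideal.Quotient.mk_surjective x
    rw [hπ, Ideal.Quotient.eq_zero_iff_mem] at hx
    exact ⟨u, hx, rfl⟩
  have hnil : IsNilpotent (RingHom.ker (π : (B i ⧸ P ^ 2) →+* (B i ⧸ P))) := by
    refine ⟨2, ?_⟩
    have hkk : RingHom.ker (π : (B i ⧸ P ^ 2) →+* (B i ⧸ P)) *
        RingHom.ker (π : (B i ⧸ P ^ 2) →+* (B i ⧸ P)) ≤ ⊥ := by
      rw [Ideal.mul_le]
      intro a ha b hb
      obtain ⟨u, hu, rfl⟩ := hker a ha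
      obtain ⟨v, hv, rfl⟩ := hker b hb
      rw [← map_mul, Ideal.mem_bot, Ideal.Quotient.eq_zero_iff_mem, pow_two]
      exact Ideal.mul_mem_mul hu hv
    exact (pow_two _).trans (le_bot_iff.1 hkk)
  let σ : (B i ⧸ P) →ₐ[k] (B i ⧸ P ^ 2) :=
    Algebra.FormallySmooth.liftOfSurjective (AlgHom.id k (B i ⧸ P)) π hπs hnil
  have hσ : ∀ x, π (σ x) = x := fun x =>
    Algebra.FormallySmooth.liftOfSurjective_apply (AlgHom.id k (B i ⧸ P)) π hπs hnil x
  -- the coefficients
  have hex : ∀ b, ∃ t, Ideal.Quotient.mk (P ^ 2) b - σ (Ideal.Quotient.mk P b) =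
      Ideal.Quotient.mk (P ^ 2) (t * y) := by
    intro b
    obtain ⟨u, hu, hu'⟩ := hker (Ideal.Quotient.mk (P ^ 2) b - σ (Ideal.Quotient.mk P b)) (by
      rw [map_sub, hσ, hπ, sub_self])
    rw [← hspan] at hu
    obtain ⟨v, hv, w, hw, hvw⟩ := Submodule.mem_sup.1 hu
    obtain ⟨t, rfl⟩ := Ideal.mem_span_singleton'.1 hv
    refine ⟨t, ?_⟩
    rw [← hu', ← hvw, map_add, Ideal.Quotient.eq_zero_iff_mem.2 hw, add_zero]
  choose c hc using hex
  have huniq : ∀ b t, Ideal.Quotient.mk (P ^ 2) b - σ (Ideal.Quotient.mk P b) =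
      Ideal.Quotient.mk (P ^ 2) (t * y) → Ideal.Quotient.mk q (j i t) =
      Ideal.Quotient.mk q (j i (c b)) := by
    intro b t ht
    rw [hc, Ideal.Quotient.eq, ← sub_mul] at ht
    rw [Ideal.Quotient.eq, ← map_sub]
    rcases Ideal.IsPrime.mul_mem_pow P ht with h | h
    · apply hPq
      have h2 := P.neg_mem h
      rwa [neg_sub] at h2
    · exact absurd h hy2
  have hcadd : ∀ a b, Ideal.Quotient.mk q (j i (c a + c b)) =
      Ideal.Quotient.mk q (j i (c (a + b))) := by
    intro a b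
    refine huniq _ _ ?_
    have h1 : Ideal.Quotient.mk (P ^ 2) ((c a + c b) * y) =
        Ideal.Quotient.mk (P ^ 2) (c a * y) + Ideal.Quotient.mk (P ^ 2) (c b * y) := by
      rw [add_mul, map_add]
    rw [h1, ← hc a, ← hc b, map_add (Ideal.Quotient.mk (P ^ 2)) a b,
      map_add (Ideal.Quotient.mk P) a b, map_add σ]
    ring
  have hcmul : ∀ a b, Ideal.Quotient.mk q (j i (a * c b + b * c a)) =
      Ideal.Quotient.mk q (j i (c (a * b))) := by
    intro a b
    refine huniq _ _ ?_
    have h1 : Ideal.Quotient.mk (P ^ 2) (c a * y) * Ideal.Quotient.mk (P ^ 2) (c b * y) = 0 := by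
      rw [← map_mul, Ideal.Quotient.eq_zero_iff_mem, pow_two]
      exact Ideal.mul_mem_mul (P.mul_mem_left _ hy) (P.mul_mem_left _ hy)
    have h2 := hc a
    have h3 := hc b
    have h4 : σ (Ideal.Quotient.mk P b) = Ideal.Quotient.mk (P ^ 2) b -
        Ideal.Quotient.mk (P ^ 2) (c b * y) := by rw [← h3]; ring
    have h5 : σ (Ideal.Quotient.mk P a) = Ideal.Quotient.mk (P ^ 2) a -
        Ideal.Quotient.mk (P ^ 2) (c a * y) := by rw [← h2]; ring
    rw [map_mul (Ideal.Quotient.mk (P ^ 2)) a b, map_mul (Ideal.Quotient.mk P) a b, map_mul σ,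
      h4, h5]
    have h6 : (a * c b + b * c a) * y = a * (c b * y) + b * (c a * y) := by ring
    have h7 : Ideal.Quotient.mk (P ^ 2) ((a * c b + b * c a) * y) =
        Ideal.Quotient.mk (P ^ 2) a * Ideal.Quotient.mk (P ^ 2) (c b * y) +
        Ideal.Quotient.mk (P ^ 2) b * Ideal.Quotient.mk (P ^ 2) (c a * y) := by
      rw [h6, map_add, map_mul (Ideal.Quotient.mk (P ^ 2)) a (c b * y),
        map_mul (Ideal.Quotient.mk (P ^ 2)) b (c a * y)]
    rw [h7]
    generalize Ideal.Quotient.mk (P ^ 2) (c a * y) = u at *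
    generalize Ideal.Quotient.mk (P ^ 2) (c b * y) = v at *
    linear_combination -h1
  have hcalg : ∀ x : k, Ideal.Quotient.mk q (j i (c (algebraMap k (B i) x))) = 0 := by
    intro x
    have h1 := huniq (algebraMap k (B i) x) 0 (by
      have e1 : Ideal.Quotient.mk P (algebraMap k (B i) x) = algebraMap k (B i ⧸ P) x := rfl
      have e2 : Ideal.Quotient.mk (P ^ 2) (algebraMap k (B i) x) =
        algebraMap k (B i ⧸ P ^ 2) x := rfl
      rw [e1, AlgHom.commutes, e2, sub_self, zero_mul, map_zero])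
    rw [← h1, map_zero, map_zero]
  have hcy : Ideal.Quotient.mk q (j i (c y)) = 1 := by
    have h1 := huniq y 1 (by
      rw [Ideal.Quotient.eq_zero_iff_mem.2 hy, map_zero, sub_zero, one_mul])
    rw [← h1, map_one, map_one]
  let fi : B i →ₐ[k] TrivSqZeroExt (C ⧸ q) (C ⧸ q) :=
    { toFun := fun b => TrivSqZeroExt.inl (Ideal.Quotient.mk q (j i b)) +
        TrivSqZeroExt.inr (Ideal.Quotient.mk q (j i (c b)))
      map_one' := by
        have : Ideal.Quotient.mk q (j i (c 1)) = 0 := by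
          have := hcalg 1
          rwa [map_one] at this
        rw [this, map_one, map_one]
        simp
      map_zero' := by
        have : Ideal.Quotient.mk q (j i (c 0)) = 0 := by
          have := hcalg 0
          rwa [map_zero] at this
        rw [this, map_zero, map_zero]
        simp
      map_add' := fun a b => by
        rw [← hcadd]
        simp only [map_add, TrivSqZeroExt.inl_add, TrivSqZeroExt.inr_add]
        abel
      map_mul' := fun a b => by
        rw [← hcmul]
        refine TrivSqZeroExt.ext ?_ ?_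
        · simp only [TrivSqZeroExt.fst_add, TrivSqZeroExt.fst_inl, TrivSqZeroExt.fst_inr,
            TrivSqZeroExt.fst_mul, add_zero, map_mul]
        · simp only [TrivSqZeroExt.snd_add, TrivSqZeroExt.snd_inl, TrivSqZeroExt.snd_inr,
            TrivSqZeroExt.snd_mul, TrivSqZeroExt.fst_add, TrivSqZeroExt.fst_inl,
            TrivSqZeroExt.fst_inr, add_zero, zero_add, map_mul, map_add, smul_eq_mul,
            MulOpposite.smul_eq_mul_unop, MulOpposite.unop_op]
          ring
      commutes' := fun x => by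
        rw [hcalg, AlgHom.commutes, TrivSqZeroExt.inr_zero, add_zero]
        rfl }
  have hfi : ∀ b, fi b = TrivSqZeroExt.inl (Ideal.Quotient.mk q (j i b)) +
        TrivSqZeroExt.inr (Ideal.Quotient.mk q (j i (c b))) := fun b => rfl
  let fl : ∀ l, B l →ₐ[k] TrivSqZeroExt (C ⧸ q) (C ⧸ q) := fun l =>
    ((TrivSqZeroExt.inlAlgHom k (C ⧸ q) (C ⧸ q)).comp (Ideal.Quotient.mkₐ k q)).comp (j l)
  have h2 : ∃ f : ∀ l, B l →ₐ[k] TrivSqZeroExt (C ⧸ q) (C ⧸ q), f i = fi ∧ ∀ l, l ≠ i → f l = fl l := by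
    refine ⟨Function.update fl i fi, Function.update_self _ _ _, fun l hl =>
      Function.update_of_ne hl _ _⟩
  obtain ⟨f, hf1, hf2⟩ := h2
  obtain ⟨g, hg, -⟩ := hj (TrivSqZeroExt (C ⧸ q) (C ⧸ q)) f
  have hfst : (TrivSqZeroExt.fstHom k (C ⧸ q) (C ⧸ q)).comp g = Ideal.Quotient.mkₐ k q := by
    refine tens_ext hj _ _ fun l => ?_
    rw [AlgHom.comp_assoc, hg l]
    by_cases hl : l = i
    · subst hl
      rw [hf1]
      refine AlgHom.ext fun b => ?_
      rw [AlgHom.comp_apply, hfi, AlgHom.comp_apply]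
      change (TrivSqZeroExt.inl (Ideal.Quotient.mk q (j l b)) +
        TrivSqZeroExt.inr (Ideal.Quotient.mk q (j l (c b))) :
          TrivSqZeroExt (C ⧸ q) (C ⧸ q)).fst = Ideal.Quotient.mk q (j l b)
      simp
    · rw [hf2 l hl]
      rfl
  have hfst' : ∀ a, (g a).fst = Ideal.Quotient.mk q a := fun a => DFunLike.congr_fun hfst a
  refine ⟨fun a => (g a).snd, fun a b => ?_, fun a b => ?_, fun l hl b => ?_, ?_⟩
  · simp
  · simp only [map_mul, TrivSqZeroExt.snd_mul, hfst', smul_eq_mul,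
      MulOpposite.smul_eq_mul_unop, MulOpposite.unop_op]
    ring
  · have h3 := DFunLike.congr_fun (hg l) b
    rw [hf2 l hl, AlgHom.comp_apply] at h3
    simp only
    rw [h3]
    rfl
  · have h3 := DFunLike.congr_fun (hg i) y
    rw [hf1, AlgHom.comp_apply, hfi] at h3
    simp only
    rw [h3, hcy]
    simp

end tensor

end Pool.Agent.Zk15.PG
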