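import Pool.Agent.Zk10.W2
import Pool.Agent.Zk15.Pf2
import Pool.Agent.N864.GT.Sm
import Pool.Agent.H920R2.Sr1

/-!
# Tensor products of fields and of their subalgebras, over a perfect field

The proofs are those of `Pool.Agent.Zk86.TensF`; here the tensor product of the fields is assumed
to be a domain.
-/

set_option autoImplicit false
set_option linter.all false

namespace Pool.Agent.Zk15.PG

open Pool.Agent.Zk10.PG
open TensorProduct

section gen

variable {k : Type} [Field k]

/-- adding a factor to a tensor product -/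
theorem tens_succ {n : ℕ} {B : Fin (n + 1) → Type} [∀ i, CommRing (B i)] [∀ i, Algebra k (B i)]
    {C₀ : Type} [CommRing C₀] [Algebra k C₀] {j₀ : ∀ i : Fin n, B i.castSucc →ₐ[k] C₀}
    (h₀ : IsTens (B := fun i : Fin n => B i.castSucc) j₀)
    {J : ∀ i, B i →ₐ[k] (C₀ ⊗[k] B (Fin.last n))}
    (hJl : J (Fin.last n) = Algebra.TensorProduct.includeRight)
    (hJc : ∀ i : Fin n, J i.castSucc = Algebra.TensorProduct.includeLeft.comp (j₀ i)) :
    IsTens J := by
  intro T _ _ f
  obtain ⟨g, hg, hgu⟩ := h₀ T (fun i => f i.castSucc)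
  refine ⟨Algebra.TensorProduct.lift g (f (Fin.last n)) (fun _ _ => Commute.all _ _), ?_, ?_⟩
  · intro i
    refine Fin.lastCases ?_ (fun i => ?_) i
    · rw [hJl]
      ext b
      simp
    · rw [hJc]
      have h1 := hg i
      ext b
      rw [← h1]
      simp
  · intro G hG
    have h1 : G.comp Algebra.TensorProduct.includeLeft = g := by
      refine hgu _ fun i => ?_
      have h2 := hG i.castSucc
      rw [hJc] at h2
      rw [← h2]
      rfl
    have h3 : G.comp Algebra.TensorProduct.includeRight = f (Fin.last n) := by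
      have h2 := hG (Fin.last n)
      rwa [hJl] at h2
    refine Algebra.TensorProduct.ext' fun a b => ?_
    have h4 : a ⊗ₜ[k] b = (Algebra.TensorProduct.includeLeft : C₀ →ₐ[k] C₀ ⊗[k] B (Fin.last n)) a
        * (Algebra.TensorProduct.includeRight : B (Fin.last n) →ₐ[k] C₀ ⊗[k] B (Fin.last n)) b := by
      simp
    rw [Algebra.TensorProduct.lift_tmul, h4, map_mul, ← h1, ← h3]
    rfl

theorem exists_J {n : ℕ} {B : Fin (n + 1) → Type} [∀ i, CommRing (B i)] [∀ i, Algebra k (B i)]
    {C₀ : Type} [CommRing C₀] [Algebra k C₀] (j₀ : ∀ i : Fin n, B i.castSucc →ₐ[k] C₀) :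
    ∃ J : ∀ i, B i →ₐ[k] (C₀ ⊗[k] B (Fin.last n)),
      J (Fin.last n) = Algebra.TensorProduct.includeRight ∧
      ∀ i : Fin n, J i.castSucc = Algebra.TensorProduct.includeLeft.comp (j₀ i) :=
  ⟨Fin.lastCases Algebra.TensorProduct.includeRight
    (fun i => Algebra.TensorProduct.includeLeft.comp (j₀ i)),
    Fin.lastCases_last, fun i => Fin.lastCases_castSucc i⟩

/-- The tensor product exists. -/
theorem exists_tensG : ∀ (n : ℕ) (B : Fin n → Type) [∀ i, CommRing (B i)] [∀ i, Algebra k (B i)],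
    ∃ (C : Type) (_ : CommRing C) (_ : Algebra k C) (j : ∀ i, B i →ₐ[k] C), IsTens j := by
  intro n
  induction n with
  | zero =>
    intro B _ _
    refine ⟨k, inferInstance, inferInstance, fun i => i.elim0, ?_⟩
    intro T _ _ f
    refine ⟨Algebra.ofId k T, fun i => i.elim0, fun g _ => ?_⟩
    exact Subsingleton.elim _ _
  | succ n ih =>
    intro B _ _
    obtain ⟨C₀, _, _, j₀, h₀⟩ := ih (fun i => B i.castSucc)
    obtain ⟨J, hJl, hJc⟩ := exists_J j₀
    exact ⟨_, inferInstance, inferInstance, J, tens_succ h₀ hJl hJc⟩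

/-- The tensor product of injective homomorphisms over a field is injective. -/
theorem tens_injective : ∀ (n : ℕ) (A F : Fin n → Type) [∀ i, CommRing (A i)]
    [∀ i, Algebra k (A i)] [∀ i, CommRing (F i)] [∀ i, Algebra k (F i)] (a : ∀ i, A i →ₐ[k] F i)
    (_ : ∀ i, Function.Injective (a i)) (C S : Type) [CommRing C] [Algebra k C] [CommRing S]
    [Algebra k S] (jA : ∀ i, A i →ₐ[k] C) (jF : ∀ i, F i →ₐ[k] S) (_ : IsTens jA) (_ : IsTens jF)
    (u : C →ₐ[k] S) (_ : ∀ i, u.comp (jA i) = (jF i).comp (a i)), Function.Injective u := by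
  intro n
  induction n with
  | zero =>
    intro A F _ _ _ _ a ha C S _ _ _ _ jA jF hA hF u hu
    obtain ⟨g, -, -⟩ := hA k (fun i => i.elim0)
    obtain ⟨g', -, -⟩ := hF k (fun i => i.elim0)
    have h1 : g'.comp u = g := tens_ext hA _ _ fun i => i.elim0
    have h2 : (Algebra.ofId k C).comp g = AlgHom.id k C := tens_ext hA _ _ fun i => i.elim0
    intro x y hxy
    have h3 : g x = g y := by rw [← h1, AlgHom.comp_apply, AlgHom.comp_apply, hxy]
    have h4 := DFunLike.congr_fun h2 x
    have h5 := DFunLike.congr_fun h2 y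
    rw [AlgHom.comp_apply, AlgHom.id_apply] at h4 h5
    rw [← h4, ← h5, h3]
  | succ n ih =>
    intro A F _ _ _ _ a ha C S _ _ _ _ jA jF hA hF u hu
    obtain ⟨C₀, _, _, jC, hC⟩ := exists_tensG (k := k) n (fun i => A i.castSucc)
    obtain ⟨S₀, _, _, jS, hS⟩ := exists_tensG (k := k) n (fun i => F i.castSucc)
    obtain ⟨u₀, hu₀, -⟩ := hC S₀ (fun i => (jS i).comp (a i.castSucc))
    have hinj₀ : Function.Injective u₀ := ih (fun i => A i.castSucc) (fun i => F i.castSucc)
      (fun i => a i.castSucc) (fun i => ha _) C₀ S₀ jC jS hC hS u₀ hu₀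
    obtain ⟨JC, hJCl, hJCc⟩ := exists_J (B := A) jC
    obtain ⟨JS, hJSl, hJSc⟩ := exists_J (B := F) jS
    have hTC := tens_succ hC hJCl hJCc
    have hTS := tens_succ hS hJSl hJSc
    let v : (C₀ ⊗[k] A (Fin.last n)) →ₐ[k] (S₀ ⊗[k] F (Fin.last n)) :=
      Algebra.TensorProduct.map u₀ (a (Fin.last n))
    have hv : Function.Injective v := by
      have h1 : Function.Injective (TensorProduct.map u₀.toLinearMap (a (Fin.last n)).toLinearMap) :=
        TensorProduct.map_injective_of_flat_flat _ _ hinj₀ (ha _)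
      exact h1
    obtain ⟨φ, hφ, -⟩ := hA (C₀ ⊗[k] A (Fin.last n)) JC
    obtain ⟨φ', hφ', -⟩ := hTC C jA
    obtain ⟨ψ, hψ, -⟩ := hF (S₀ ⊗[k] F (Fin.last n)) JS
    have h1 : φ'.comp φ = AlgHom.id k C := by
      refine tens_ext hA _ _ fun i => ?_
      rw [AlgHom.comp_assoc, hφ i, hφ' i]
      rfl
    have hφi : Function.Injective φ := by
      intro x y hxy
      have hx := DFunLike.congr_fun h1 x
      have hy := DFunLike.congr_fun h1 y
      rw [AlgHom.comp_apply, AlgHom.id_apply] at hx hy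
      rw [← hx, ← hy, hxy]
    have h2 : ψ.comp u = v.comp φ := by
      refine tens_ext hA _ _ fun i => ?_
      rw [AlgHom.comp_assoc, hu i, ← AlgHom.comp_assoc, hψ i, AlgHom.comp_assoc, hφ i]
      refine Fin.lastCases ?_ (fun i => ?_) i
      · rw [hJSl, hJCl]
        ext x
        simp [v]
      · rw [hJSc, hJCc]
        have h3 := hu₀ i
        ext x
        have h4 := DFunLike.congr_fun h3 x
        simp only [AlgHom.comp_apply] at h4
        simp [v, h4]
    intro x y hxy
    apply hφi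
    apply hv
    have hx := DFunLike.congr_fun h2 x
    have hy := DFunLike.congr_fun h2 y
    rw [AlgHom.comp_apply, AlgHom.comp_apply] at hx hy
    rw [← hx, ← hy, hxy]

end gen

section sub

variable {k : Type} [Field k]  {n : ℕ} {F : Fin n → Type} [∀ i, Field (F i)]
  [∀ i, Algebra k (F i)] {S : Type} [CommRing S] [IsDomain S] [Algebra k S] {j : ∀ i, F i →ₐ[k] S}
  (hj : IsTens j)

include hj

/-- The subalgebras of finite type. -/
theorem tensF_sub (A : ∀ i, Subalgebra k (F i)) [∀ i, Algebra.FiniteType k (A i)] :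
    ∃ (C : Type) (_ : CommRing C) (_ : Algebra k C) (jC : ∀ i, A i →ₐ[k] C) (u : C →ₐ[k] S),
      IsTens jC ∧ IsDomain C ∧ Function.Injective u ∧ (∀ i, u.comp (jC i) = (j i).comp (A i).val) ∧
      ∀ i, (A i).map (j i) ≤ u.range := by
  obtain ⟨C, _, _, jC, hC⟩ := exists_tensG (k := k) n (fun i => A i)
  obtain ⟨u, hu, -⟩ := hC S (fun i => (j i).comp (A i).val)
  have hui : Function.Injective u := tens_injective (k := k) n (fun i => A i) F
    (fun i => (A i).val) (fun i => Subtype.val_injective) C S jC j hC hj u hu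
  refine ⟨C, inferInstance, inferInstance, jC, u, hC, hui.isDomain u.toRingHom, hui, hu,
    fun i => ?_⟩
  · rintro _ ⟨x, hx, rfl⟩
    exact ⟨jC i ⟨x, hx⟩, DFunLike.congr_fun (hu i) ⟨x, hx⟩⟩

/-- Each element comes from subalgebras of finite type. -/
theorem tensF_fg (s : S) : ∃ A : ∀ i, Subalgebra k (F i), (∀ i, (A i).FG) ∧
    s ∈ ⨆ i, (A i).map (j i) := by
  have h0 : s ∈ Algebra.adjoin k (⋃ i, Set.range (j i)) := by
    rw [tens_adjoin hj]
    exact Algebra.mem_top
  have hmono : ∀ A A' : ∀ i, Subalgebra k (F i), (∀ i, A i ≤ A' i) →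
      (⨆ i, (A i).map (j i)) ≤ ⨆ i, (A' i).map (j i) := fun A A' h =>
    iSup_mono fun i => Subalgebra.map_mono (h i)
  induction h0 using Algebra.adjoin_induction with
  | mem x hx =>
    obtain ⟨i, y, rfl⟩ := Set.mem_iUnion.1 hx
    have hex : ∃ A : ∀ l, Subalgebra k (F l), (∀ l, (A l).FG) ∧ y ∈ A i := by
      classical
      refine ⟨Function.update (fun _ => ⊥) i (Algebra.adjoin k {y}), fun l => ?_, ?_⟩
      · rcases eq_or_ne l i with rfl | h
        · rw [Function.update_self]
          exact ⟨{y}, by simp⟩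
        · rw [Function.update_of_ne h]
          exact Subalgebra.fg_bot
      · rw [Function.update_self]
        exact Algebra.subset_adjoin rfl
    obtain ⟨A, hA, hy⟩ := hex
    have h1 : (A i).map (j i) ≤ ⨆ l, (A l).map (j l) := le_iSup (fun l => (A l).map (j l)) i
    exact ⟨A, hA, h1 ⟨y, hy, rfl⟩⟩
  | algebraMap r => exact ⟨fun _ => ⊥, fun _ => Subalgebra.fg_bot, Subalgebra.algebraMap_mem _ r⟩
  | add x y _ _ hx hy =>
    obtain ⟨A, hA, hxA⟩ := hx
    obtain ⟨A', hA', hyA⟩ := hy
    exact ⟨fun i => A i ⊔ A' i, fun i => (hA i).sup (hA' i),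
      add_mem (hmono A _ (fun i => le_sup_left) hxA) (hmono A' _ (fun i => le_sup_right) hyA)⟩
  | mul x y _ _ hx hy =>
    obtain ⟨A, hA, hxA⟩ := hx
    obtain ⟨A', hA', hyA⟩ := hy
    exact ⟨fun i => A i ⊔ A' i, fun i => (hA i).sup (hA' i),
      mul_mem (hmono A _ (fun i => le_sup_left) hxA) (hmono A' _ (fun i => le_sup_right) hyA)⟩

/-- The subalgebra generated by subalgebras of the factors is their tensor product. -/
theorem tens_sub (A : ∀ i, Subalgebra k (F i)) [∀ i, Algebra.FiniteType k (A i)] {C : Type} [CommRing C] [Algebra k C]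
    (jC : ∀ i, A i →ₐ[k] C) (u : C →ₐ[k] S) (hu : Function.Injective u)
    (hju : ∀ i a, u (jC i a) = j i (a : F i))
    (hC : Algebra.adjoin k (⋃ i, Set.range (jC i)) = ⊤) : IsTens jC := by
  obtain ⟨C', _, _, jC', u', hC', -, hu', hju', -⟩ := tensF_sub hj A
  obtain ⟨φ, hφ, -⟩ := hC' C jC
  have h1 : u.comp φ = u' := by
    refine tens_ext hC' _ _ fun i => ?_
    rw [AlgHom.comp_assoc, hφ i, hju' i]
    ext a
    exact hju i a
  have hφi : Function.Injective φ := by
    intro x y hxy
    apply hu'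
    rw [← h1, AlgHom.comp_apply, AlgHom.comp_apply, hxy]
  have hφs : Function.Surjective φ := by
    have h2 : φ.range = ⊤ := by
      rw [eq_top_iff, ← hC, Algebra.adjoin_le_iff]
      refine Set.iUnion_subset fun i => ?_
      rintro _ ⟨a, rfl⟩
      exact ⟨jC' i a, DFunLike.congr_fun (hφ i) a⟩
    exact AlgHom.range_eq_top φ |>.1 h2
  let e : C' ≃ₐ[k] C := AlgEquiv.ofBijective φ ⟨hφi, hφs⟩
  have he : ∀ x, e x = φ x := fun x => rfl
  intro T _ _ f
  obtain ⟨g, hg, hgu⟩ := hC' T f
  refine ⟨g.comp (e.symm : C →ₐ[k] C'), fun i => ?_, fun g' hg' => ?_⟩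
  · rw [← hg i]
    ext a
    have h3 : jC i a = e (jC' i a) := (DFunLike.congr_fun (hφ i) a).symm
    simp [h3]
  · have h3 : g'.comp φ = g := by
      refine hgu _ fun i => ?_
      rw [AlgHom.comp_assoc, hφ i]
      exact hg' i
    ext c
    have h4 := DFunLike.congr_fun h3 (e.symm c)
    rw [AlgHom.comp_apply, ← he, AlgEquiv.apply_symm_apply] at h4
    rw [h4]
    rfl

/-- The fraction fields. -/
theorem tens_frac (A : ∀ i, Subalgebra k (F i))
    (hfr : ∀ i, ∀ x : F i, ∃ a b, a ∈ A i ∧ b ∈ A i ∧ b ≠ 0 ∧ x = a / b)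
    {C : Type} [CommRing C] [Algebra k C] (jC : ∀ i, A i →ₐ[k] C) (u : C →ₐ[k] S)
    (hu : Function.Injective u) (hju : ∀ i a, u (jC i a) = j i (a : F i))
    {K : Type} [Field K] [Algebra S K] [IsFractionRing S K] [Algebra C K]
    (hCK : ∀ c, algebraMap C K c = algebraMap S K (u c)) : IsFractionRing C K := by
  have hSdom : IsDomain S := inferInstance
  have hCdom : IsDomain C := hu.isDomain u.toRingHom
  have hSK : Function.Injective (algebraMap S K) := IsFractionRing.injective S K
  have hCKi : Function.Injective (algebraMap C K) := by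
    intro x y hxy
    rw [hCK, hCK] at hxy
    exact hu (hSK hxy)
  have hfaith : FaithfulSMul C K := (faithfulSMul_iff_algebraMap_injective C K).2 hCKi
  have key : ∀ s : S, ∃ c c' : C, c ≠ 0 ∧ s * u c = u c' := by
    intro s
    have h0 : s ∈ Algebra.adjoin k (⋃ i, Set.range (j i)) := by
      rw [tens_adjoin hj]
      exact Algebra.mem_top
    induction h0 using Algebra.adjoin_induction with
    | mem x hx =>
      obtain ⟨i, y, rfl⟩ := Set.mem_iUnion.1 hx
      obtain ⟨a, b, ha, hb, hb0, hy⟩ := hfr i y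
      refine ⟨jC i ⟨b, hb⟩, jC i ⟨a, ha⟩, ?_, ?_⟩
      · intro h
        have h1 := hju i ⟨b, hb⟩
        rw [h, map_zero] at h1
        have h2 : j i b * j i b⁻¹ = 1 := by
          rw [← map_mul, mul_inv_cancel₀ hb0, map_one]
        rw [← h1, zero_mul] at h2
        exact zero_ne_one h2
      · rw [hju, hju, ← map_mul, hy, div_mul_cancel₀ _ hb0]
    | algebraMap r =>
      exact ⟨1, algebraMap k C r, one_ne_zero, by rw [map_one, mul_one, AlgHom.commutes]⟩
    | add x y _ _ hx hy =>
      obtain ⟨c, c', hc, h1⟩ := hx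
      obtain ⟨d, d', hd, h2⟩ := hy
      refine ⟨c * d, c' * d + d' * c, mul_ne_zero hc hd, ?_⟩
      rw [map_mul, map_add, map_mul, map_mul, ← h1, ← h2]
      ring
    | mul x y _ _ hx hy =>
      obtain ⟨c, c', hc, h1⟩ := hx
      obtain ⟨d, d', hd, h2⟩ := hy
      refine ⟨c * d, c' * d', mul_ne_zero hc hd, ?_⟩
      rw [map_mul, map_mul, ← h1, ← h2]
      ring
  refine IsFractionRing.of_field C K fun z => ?_
  obtain ⟨s, t, ht, rfl⟩ := IsFractionRing.div_surjective (A := S) z
  have ht0 : t ≠ 0 := nonZeroDivisors.ne_zero ht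
  obtain ⟨c, c', hc, h1⟩ := key s
  obtain ⟨d, d', hd, h2⟩ := key t
  have hd' : d' ≠ 0 := by
    rintro rfl
    rw [map_zero] at h2
    rcases mul_eq_zero.1 h2 with h | h
    · exact ht0 h
    · exact hd ((map_eq_zero_iff u hu).1 h)
  have hne : ∀ x : C, x ≠ 0 → algebraMap S K (u x) ≠ 0 := by
    intro x hx h
    exact hx (hu (hSK (by rw [h, map_zero, map_zero])))
  refine ⟨c' * d, c * d', ?_⟩
  rw [hCK, hCK, map_mul, map_mul, map_mul, map_mul, ← h1, ← h2, map_mul, map_mul]
  have e1 := hne c hc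
  have e2 := hne d hd
  have e3 : algebraMap S K t ≠ 0 := fun h => ht0 (hSK (by rw [h, map_zero]))
  field_simp

end sub

section reg

variable {k : Type} [Field k] [PerfectField k] {n : ℕ} {B : Fin n → Type} [∀ i, CommRing (B i)]
  [∀ i, Algebra k (B i)] {C : Type} [CommRing C] [Algebra k C] {j : ∀ i, B i →ₐ[k] C}
  (hj : IsTens j)

include hj

/-- The product of smooth curves is regular. -/
theorem tens_regular [∀ i, IsDedekindDomain (B i)] [∀ i, Algebra.FiniteType k (B i)] :
    IsRegularRing C := by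
  have h1 : ∀ i, Algebra.Smooth k (B i) := fun i => Pool.Agent.N864.GT.smooth_of_regular
  have h2 : Algebra.Smooth k C := tens_smooth hj
  have h3 : Algebra.FiniteType k C := tens_ft hj
  have h4 : IsNoetherianRing C := Algebra.FiniteType.isNoetherianRing k C
  rw [isRegularRing_iff]
  intro q hq
  exact Pool.Agent.H920R2.regular_of_smooth (k := k) q

end reg

end Pool.Agent.Zk15.PG
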