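import Pool.Agent.Zk15.Fa6

/-!
# Smooth polytopes which are stable under a finite group
-/

set_option autoImplicit false
set_option linter.unusedSectionVars false

namespace Pool.Agent.Zk15

open Module

variable {n : ℕ} {G : Type} [Group G]

/-- The action on the dual lattice. -/
def du {Λ : Type} [AddCommGroup Λ] (φ : G →* (Λ ≃ₗ[ℤ] Λ)) :
    G →* ((Λ →ₗ[ℤ] ℤ) ≃ₗ[ℤ] (Λ →ₗ[ℤ] ℤ)) where
  toFun g := (φ g⁻¹).dualMap
  map_one' := by
    rw [inv_one, map_one]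
    rfl
  map_mul' g h := by
    rw [mul_inv_rev, map_mul]
    rfl

lemma du_apply {Λ : Type} [AddCommGroup Λ] (φ : G →* (Λ ≃ₗ[ℤ] Λ)) (g : G) (f : Λ →ₗ[ℤ] ℤ)
    (x : Λ) : du φ g f x = f (φ g⁻¹ x) := rfl

/-- **Equivariant toric resolution**: for every action of a finite group on a lattice there is a
stable smooth polytope. -/
theorem exists_SP {Λ : Type} [AddCommGroup Λ] (e0 : Basis (Fin n) ℤ Λ) [Finite G]
    (φ : G →* (Λ ≃ₗ[ℤ] Λ)) :
    ∃ (P : Set Λ) (V : Set (Λ × Basis (Fin n) ℤ Λ)),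
      P.Finite ∧ P.Nonempty ∧ V.Finite ∧ SP P V ∧ ∀ g, ∀ m ∈ P, φ g m ∈ P := by
  classical
  have hΛf : Module.Finite ℤ Λ := Module.Finite.of_basis e0
  have hΛ : Module.Free ℤ Λ := Module.Free.of_basis e0
  have := Fintype.ofFinite G
  obtain ⟨A, hA⟩ := exists_fan e0.dualBasis (du φ)
  obtain ⟨A', hA', hu⟩ := hA.exists_unimod
  obtain ⟨P, V, hP, hP0, hV, hSP, hst⟩ := hA'.poly hu
  set ev : Λ ≃ₗ[ℤ] ((Λ →ₗ[ℤ] ℤ) →ₗ[ℤ] ℤ) := Module.evalEquiv ℤ Λ with hev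
  have hevg : ∀ g m, gm (du φ) g (ev m) = ev (φ g m) := by
    intro g m
    apply LinearMap.ext
    intro x
    rw [gm_apply]
    change du φ g⁻¹ x m = x (φ g m)
    rw [du_apply, inv_inv]
  refine ⟨ev ⁻¹' P, (fun y => (ev.symm y.1, y.2.map ev.symm)) '' V, ?_, ?_, hV.image _,
    ⟨?_, ?_, ?_, ?_⟩, ?_⟩
  · exact hP.preimage ev.injective.injOn
  · obtain ⟨m, hm⟩ := hP0
    refine ⟨ev.symm m, ?_⟩
    rw [Set.mem_preimage, LinearEquiv.apply_symm_apply]
    exact hm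
  · rintro v b ⟨⟨w, c⟩, hwc, hvb⟩
    obtain ⟨rfl, rfl⟩ := Prod.mk.inj hvb
    rw [Set.mem_preimage, LinearEquiv.apply_symm_apply]
    exact hSP.vm w c hwc
  · rintro v b ⟨⟨w, c⟩, hwc, hvb⟩ i
    obtain ⟨rfl, rfl⟩ := Prod.mk.inj hvb
    rw [Set.mem_preimage, map_add, Basis.map_apply, LinearEquiv.apply_symm_apply,
      LinearEquiv.apply_symm_apply]
    exact hSP.vb w c hwc i
  · rintro v b ⟨⟨w, c⟩, hwc, hvb⟩ m hm i
    obtain ⟨rfl, rfl⟩ := Prod.mk.inj hvb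
    have h1 := hSP.cone w c hwc (ev m) hm i
    have h2 : ((c.map ev.symm).repr (m - ev.symm w)) = c.repr (ev m - w) := by
      rw [Basis.map_repr, LinearEquiv.trans_apply, LinearEquiv.symm_symm, map_sub ev,
        LinearEquiv.apply_symm_apply]
    dsimp only
    rw [h2]
    exact h1
  · intro m hm
    obtain ⟨s, hs0, hs, hsum⟩ := hSP.cvx (ev m) hm
    refine ⟨s.map ev.symm, ?_, ?_, ?_⟩
    · intro h
      exact hs0 (Multiset.map_eq_zero.1 h)
    · intro v hv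
      obtain ⟨w, hw, rfl⟩ := Multiset.mem_map.1 hv
      obtain ⟨c, hc⟩ := hs w hw
      exact ⟨c.map ev.symm, (w, c), hc, rfl⟩
    · have h1 := congrArg ev.symm hsum
      rw [map_nsmul, LinearEquiv.symm_apply_apply, map_multiset_sum] at h1
      rw [Multiset.card_map]
      exact h1
  · intro g m hm
    rw [Set.mem_preimage, ← hevg]
    exact hst g _ hm

end Pool.Agent.Zk15
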