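import Pool.Agent.Zk15.Ff8
import Pool.Agent.N864.GT.Sm
import Pool.Agent.H920R2.Trans

/-!
# A regular model gives a resolution
-/

set_option autoImplicit false
set_option linter.unusedSectionVars false

namespace Pool.Agent.Zk15

open AlgebraicGeometry CategoryTheory
open Pool.Agent.Y223.G

theorem res_of_model {k D Y : Type} [Field k] [PerfectField k] [CommRing D] [IsDomain D]
    [Algebra k D] [Algebra.FiniteType k D] [Field Y] [Algebra k Y] [Algebra D Y]
    [IsScalarTower k D Y] (hinj : Function.Injective (algebraMap D Y))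
    (hfrac : ∀ y : Y, ∃ a b : D, b ≠ 0 ∧ y * algebraMap D Y b = algebraMap D Y a)
    {I : Type} [Finite I] {w : I → Y} {J : Set I}
    (hM : ModelG (k := D) False ⊥ (⊤ : Subfield Y) w J) :
    Pool.Agent.H920R2.HasResolution (X := Spec (CommRingCat.of D))
      (Spec.map (CommRingCat.ofHom (algebraMap k D))) := by
  classical
  have := Fintype.ofFinite I
  choose a b hb hab using fun i => hfrac (w i)
  let c : D := ∏ i, b i
  let z : I → D := fun i => a i * ∏ j ∈ Finset.univ.erase i, b j
  have hc0 : algebraMap D Y c ≠ 0 :=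
    (map_ne_zero_iff _ hinj).2 (Finset.prod_ne_zero_iff.2 fun i _ => hb i)
  have hz : ∀ i, algebraMap D Y (z i) = w i * algebraMap D Y c := by
    intro i
    change algebraMap D Y (a i * ∏ j ∈ Finset.univ.erase i, b j) = _ * algebraMap D Y (∏ j, b j)
    rw [← Finset.mul_prod_erase Finset.univ b (Finset.mem_univ i), map_mul, map_mul, ← hab,
      mul_assoc]
  let g : D →ₐ[k] Y := IsScalarTower.toAlgHom k D Y
  have hg : ∀ d, g d = algebraMap D Y d := fun d => rfl
  have hq : ∀ i s, g (z i) / g (z s) = w i / w s := fun i s => by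
    rw [hg, hg, hz, hz, mul_div_mul_right _ _ hc0]
  have hz0 : ∀ j ∈ J, z j ≠ 0 := fun j hj h => by
    have h1 := hz j
    rw [h, map_zero] at h1
    exact mul_ne_zero (hM.z0 j hj) hc0 h1.symm
  refine Pool.Agent.H920R2.hasResolution_of_charts' g hinj z J ?_ ?_
  · intro V hV
    obtain ⟨j, hj, h⟩ := hM.cv V hV
    exact ⟨j, hj, hz0 j hj, fun i => by rw [hq]; exact h i⟩
  · intro s hs _
    have hrg : IsRegularRing (Algebra.adjoin D (Set.range fun i => w i / w s)) := hM.rg s hs
    have hft1 : Algebra.FiniteType D (Algebra.adjoin D (Set.range fun i => w i / w s)) :=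
      (Subalgebra.fg_iff_finiteType _).1 ⟨(Set.finite_range fun i => w i / w s).toFinset, by
        rw [Set.Finite.coe_toFinset]⟩
    have hft2 : Algebra.FiniteType k (Algebra.adjoin D (Set.range fun i => w i / w s)) :=
      Algebra.FiniteType.trans (inferInstance : Algebra.FiniteType k D) hft1
    refine ⟨(Algebra.adjoin D (Set.range fun i => w i / w s)).restrictScalars k, ?_, ?_, ?_, ?_⟩
    · have h1 : Algebra.Smooth k (Algebra.adjoin D (Set.range fun i => w i / w s)) :=
        Pool.Agent.N864.GT.smooth_of_regular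
      exact h1
    · intro d
      exact Subalgebra.algebraMap_mem (Algebra.adjoin D (Set.range fun i => w i / w s)) d
    · intro i
      rw [hq]
      exact Algebra.subset_adjoin (R := D) ⟨i, rfl⟩
    · intro x hx
      have hx' : x ∈ Algebra.adjoin D (Set.range fun i => w i / w s) := hx
      clear hx
      induction hx' using Algebra.adjoin_induction with
      | mem x hx =>
        obtain ⟨i, rfl⟩ := hx
        refine Algebra.subset_adjoin (Or.inr ⟨i, ?_⟩)
        exact hq i s
      | algebraMap r => exact Algebra.subset_adjoin (Or.inl ⟨r, rfl⟩)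
      | add x y _ _ hx hy => exact Subalgebra.add_mem _ hx hy
      | mul x y _ _ hx hy => exact Subalgebra.mul_mem _ hx hy

end Pool.Agent.Zk15
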