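import Pool.Agent.Zk15.Ff10
import Pool.Agent.Zk15.Ff9
import Pool.Agent.Zk15.Fa7

/-!
# Quotients of tori over curves
-/

set_option autoImplicit false
set_option linter.unusedSectionVars false
set_option linter.overlappingInstances false

namespace Pool.Agent.Zk15.F

open Pool.Agent.Y223.G Pool.Agent.Zk15
open Pool.Agent.Y25.G (MN_mul MN_one MN_z)
open Pool.Agent.Y515.G (ext_val int_mem)

section chart

variable {O K Λ : Type} [CommRing O] [Field K] [Algebra O K] [AddCommGroup Λ] {X : Λ → K} {n : ℕ}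

lemma X_sum' (X0 : X 0 = 1) (Xa : ∀ a b, X (a + b) = X a * X b) (s : Finset Λ) (f : Λ → Λ) :
    X (∑ μ ∈ s, f μ) = ∏ μ ∈ s, X (f μ) := by
  classical
  induction s using Finset.induction_on with
  | empty => rw [Finset.sum_empty, Finset.prod_empty, X0]
  | insert i s hi ih => rw [Finset.sum_insert hi, Finset.prod_insert hi, Xa, ih]

lemma MN_prod {m : ℕ} {z : Fin (m + 1) → K} (Q : Finset Λ) (h : ∀ μ ∈ Q, X μ ∈ Set.range z) :
    ∏ μ ∈ Q, X μ ∈ MN z Q.card := by
  classical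
  induction Q using Finset.induction_on with
  | empty => rw [Finset.prod_empty, Finset.card_empty]; exact MN_one z
  | insert i s hi ih =>
    rw [Finset.prod_insert hi, Finset.card_insert_of_notMem hi, add_comm]
    obtain ⟨j, hj⟩ := h i (Finset.mem_insert_self _ _)
    rw [← hj]
    exact MN_mul z (MN_z z j) (ih fun μ hμ => h μ (Finset.mem_insert_of_mem hμ))

/-- The chart of the product of all the monomials is the torus. -/
theorem AF_torus (X0 : X 0 = 1) (Xa : ∀ a b, X (a + b) = X a * X b) {Q : Set Λ}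
    {V : Set (Λ × Module.Basis (Fin n) ℤ Λ)} (hSP : SP Q V) (hV : V.Nonempty) (hQ : Q.Finite)
    {m : ℕ} {z : Fin (m + 1) → K} (hzD : ∀ i, z i ∈ AddSubgroup.closure (X '' Q))
    (hPz : ∀ μ ∈ Q, X μ ∈ Set.range z) (x : K) :
    x ∈ AF O z hQ.toFinset.card (∏ μ ∈ hQ.toFinset, X μ) ↔ x ∈ Algebra.adjoin O (Set.range X) := by
  classical
  set F : K := ∏ μ ∈ hQ.toFinset, X μ with hF
  set d : ℕ := hQ.toFinset.card with hd
  have hXne := X_ne X0 Xa
  have hF0 : F ≠ 0 := Finset.prod_ne_zero_iff.2 fun μ _ => hXne μ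
  have hXm : ∀ μ, X μ ∈ Algebra.adjoin O (Set.range X) := fun μ => Algebra.subset_adjoin ⟨μ, rfl⟩
  constructor
  · intro hx
    have hle : AF O z d F ≤ Algebra.adjoin O (Set.range X) := by
      unfold AF
      rw [Algebra.adjoin_le_iff]
      rintro _ ⟨_, ⟨a, -, rfl⟩, rfl⟩
      have h0 : ∀ x ∈ AddSubgroup.closure (X '' Q), x ∈ Algebra.adjoin O (Set.range X) := by
        intro x h2
        induction h2 using AddSubgroup.closure_induction with
        | mem x hx =>
          obtain ⟨μ, -, rfl⟩ := hx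
          exact hXm μ
        | zero => exact zero_mem _
        | add x y _ _ hx' hy' => exact add_mem hx' hy'
        | neg x _ hx' => exact neg_mem hx'
      have h1 : ∀ i, z i ∈ Algebra.adjoin O (Set.range X) := fun i => h0 _ (hzD i)
      have h2 : F⁻¹ ∈ Algebra.adjoin O (Set.range X) := by
        have h3 : F = X (∑ μ ∈ hQ.toFinset, μ) := (X_sum' X0 Xa _ fun μ => μ).symm
        have h4 : F⁻¹ = X (-∑ μ ∈ hQ.toFinset, μ) := by
          rw [h3]
          exact (eq_inv_of_mul_eq_one_right (X_neg X0 Xa _)).symm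
        rw [h4]
        exact hXm _
      change (∏ i, z i ^ a i) / F ∈ Algebra.adjoin O (Set.range X)
      rw [div_eq_mul_inv]
      exact mul_mem (prod_mem fun i _ => pow_mem (h1 i) _) h2
    exact hle hx
  · intro hx
    -- the differences
    have hdiff : ∀ μ ∈ Q, ∀ ν ∈ Q, X (μ - ν) ∈ AF O z d F := by
      intro μ hμ ν hν
      have hν' : ν ∈ hQ.toFinset := hQ.mem_toFinset.2 hν
      have h1 : X μ * ∏ l ∈ hQ.toFinset.erase ν, X l ∈ MN z d := by
        obtain ⟨j, hj⟩ := hPz μ hμ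
        have h2 := MN_prod (z := z) (X := X) (hQ.toFinset.erase ν) (fun l hl =>
          hPz l (hQ.mem_toFinset.1 (Finset.mem_of_mem_erase hl)))
        have h3 := MN_mul z (MN_z z j) h2
        rw [hj] at h3
        have h4 : 1 + (hQ.toFinset.erase ν).card = d := by
          rw [Finset.card_erase_of_mem hν', hd]
          have := Finset.card_pos.2 ⟨ν, hν'⟩
          omega
        rwa [h4] at h3
      have h5 : X (μ - ν) = (X μ * ∏ l ∈ hQ.toFinset.erase ν, X l) / F := by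
        rw [hF, ← Finset.mul_prod_erase hQ.toFinset X hν']
        have h6 : X μ = X (μ - ν) * X ν := by rw [← Xa, sub_add_cancel]
        rw [h6]
        have h7 : (∏ l ∈ hQ.toFinset.erase ν, X l) ≠ 0 :=
          Finset.prod_ne_zero_iff.2 fun l _ => hXne l
        have := hXne ν
        field_simp
      rw [h5]
      exact Algebra.subset_adjoin ⟨_, h1, rfl⟩
    obtain ⟨⟨v, b⟩, hvb⟩ := hV
    have hb : ∀ i, X (b i) ∈ AF O z d F := by
      intro i
      have h1 := hdiff _ (hSP.vb v b hvb i) _ (hSP.vm v b hvb)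
      rwa [add_sub_cancel_left] at h1
    have hb' : ∀ i, X (-b i) ∈ AF O z d F := by
      intro i
      have h1 := hdiff _ (hSP.vm v b hvb) _ (hSP.vb v b hvb i)
      rwa [sub_add_cancel_left] at h1
    have hall : ∀ μ, X μ ∈ AF O z d F := by
      intro μ
      have h1 : μ ∈ GS b (Set.univ : Set (Fin n)) := fun i hi => absurd (Set.mem_univ i) hi
      refine GS_ind (fun μ => X μ ∈ AF O z d F) ?_ ?_ hb (fun i _ => hb' i) h1
      · rw [X0]; exact one_mem _
      · intro a c ha hc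
        rw [Xa]
        exact mul_mem ha hc
    have hle : Algebra.adjoin O (Set.range X) ≤ AF O z d F := by
      rw [Algebra.adjoin_le_iff]
      rintro _ ⟨μ, rfl⟩
      exact hall μ
    exact hle hx

end chart

/-- A valuation ring which contains the invariants contains the ring. -/
theorem val_of_inv {K G : Type} [Field K] [Group G] [Finite G] (ρ : G → (K →+* K))
    (hρ1 : ∀ x, ρ 1 x = x) (hρm : ∀ g h x, ρ (g * h) x = ρ g (ρ h x)) (B : Subring K)
    (hst : ∀ g, ∀ x ∈ B, ρ g x ∈ B) (V : ValuationSubring K)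
    (hV : ∀ x ∈ B, (∀ g, ρ g x = x) → x ∈ V) : ∀ x ∈ B, x ∈ V := by
  classical
  have := Fintype.ofFinite G
  intro c hc
  let p : Polynomial K := ∏ g : G, (Polynomial.X - Polynomial.C (ρ g c))
  have hmon : p.Monic := Polynomial.monic_prod_of_monic _ _ fun g _ => Polynomial.monic_X_sub_C _
  have hB : p ∈ Polynomial.lifts B.subtype := by
    refine Subsemiring.prod_mem _ fun g _ => ?_
    rw [sub_eq_add_neg, ← map_neg]
    refine Subsemiring.add_mem _ (Polynomial.X_mem_lifts _) ?_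
    exact Polynomial.C_mem_lifts B.subtype ⟨-ρ g c, B.neg_mem (hst g c hc)⟩
  have hinv : ∀ h, p.map (ρ h) = p := by
    intro h
    rw [Polynomial.map_prod]
    refine Fintype.prod_equiv (Equiv.mulLeft h) _ _ fun g => ?_
    rw [Polynomial.map_sub, Polynomial.map_X, Polynomial.map_C, Equiv.coe_mulLeft, hρm]
  have hcoef : ∀ i, p.coeff i ∈ V := by
    intro i
    refine hV _ ?_ fun h => ?_
    · obtain ⟨⟨b, hb⟩, hb'⟩ := (Polynomial.lifts_iff_coeff_lifts p).1 hB i
      rw [← hb']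
      exact hb
    · have h1 := congrArg (fun q => Polynomial.coeff q i) (hinv h)
      simp only [Polynomial.coeff_map] at h1
      exact h1
  have hl : p ∈ Polynomial.lifts V.toSubring.subtype := by
    rw [Polynomial.lifts_iff_coeff_lifts]
    intro i
    exact ⟨⟨_, hcoef i⟩, rfl⟩
  obtain ⟨q, hq, -, hqm⟩ := Polynomial.lifts_and_natDegree_eq_and_monic hl hmon
  let _ : Algebra V.toSubring K := V.toSubring.subtype.toAlgebra
  refine int_mem (k := V.toSubring) V (fun c => c.2) ⟨q, hqm, ?_⟩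
  change Polynomial.eval₂ V.toSubring.subtype c q = 0
  rw [← Polynomial.eval_map, hq, Polynomial.eval_prod]
  refine Finset.prod_eq_zero (Finset.mem_univ 1) ?_
  rw [Polynomial.eval_sub, Polynomial.eval_X, Polynomial.eval_C, hρ1, sub_self]

/-- **The model of the quotient of the torus.** -/
theorem torusModel {A O Y K G : Type} [CommRing A] [IsDomain A] [IsNoetherianRing A]
    [CommRing O] [IsDomain O] [IsDedekindDomain O] [Field Y] [Field K] [Group G]
    [Finite G] [Algebra A O] [Algebra O K] [Algebra A K]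
    [IsScalarTower A O K] [Algebra A Y] (ι : Y →ₐ[A] K) {ρ : G →* (K ≃ₐ[A] K)}
    {T : G →* (O ≃ₐ[A] O)} (hF : GF A O K G ρ T)
    (hfixK : ∀ x, (∀ g, ρ g x = x) ↔ ∃ y, ι y = x) {Λ : Type} [AddCommGroup Λ] {n : ℕ}
    (e0 : Module.Basis (Fin n) ℤ Λ) (φ : G →* (Λ ≃ₗ[ℤ] Λ)) {X : Λ → K} (X0 : X 0 = 1)
    (Xa : ∀ a b, X (a + b) = X a * X b) (li : LinearIndependent O X)
    (hρX : ∀ g m, ρ g (X m) = X (φ g m))
    (hfr : ∀ x : K, ∃ a b, a ∈ Algebra.adjoin O (Set.range X) ∧
      b ∈ Algebra.adjoin O (Set.range X) ∧ b ≠ 0 ∧ x = a / b)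
    (D : Type) [CommRing D] [IsDomain D] [IsNoetherianRing D] [Algebra A D] [Algebra D Y]
    [IsScalarTower A D Y] (hDinj : Function.Injective (algebraMap D Y))
    (hD : ∀ y : Y, ι y ∈ Algebra.adjoin O (Set.range X) ↔ ∃ a : D, algebraMap D Y a = y) :
    ∃ (I : Type) (_ : Finite I) (w : I → Y) (J : Set I),
      ModelG (k := D) False ⊥ (⊤ : Subfield Y) w J := by
  classical
  obtain ⟨P, V, hPf, hPn, hVf, hSP, hφ⟩ := exists_SP e0 φ
  obtain ⟨N, m, z, W, hN, hSPN, hz0, hst, hzD, hPz, hch, hWD⟩ := F.wd_main (X := X) hF φ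
    X0 Xa li (fun g μ => hρX g μ) hSP hPf hPn hVf hφ
  have hQ : (MS N P).Finite := MS_finite hPf N
  have hXne := X_ne X0 Xa
  have hVN : (MV N V).Nonempty := by
    obtain ⟨μ0, hμ0⟩ := hPn
    obtain ⟨s, hs0, hs, -⟩ := hSP.cvx μ0 hμ0
    obtain ⟨v, hv⟩ := Multiset.exists_mem_of_ne_zero hs0
    obtain ⟨b, hvb⟩ := hs v hv
    exact ⟨((N • v : Λ), b), v, hvb, rfl⟩
  have hQne : (MS N P).Nonempty := by
    obtain ⟨⟨v, b⟩, hvb⟩ := hVN
    exact ⟨v, hSPN.vm v b hvb⟩
  obtain ⟨F, hFdef⟩ : ∃ F : K, F = ∏ μ ∈ hQ.toFinset, X μ := ⟨_, rfl⟩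
  obtain ⟨d, hd⟩ : ∃ d : ℕ, d = hQ.toFinset.card := ⟨_, rfl⟩
  have hd1 : 1 ≤ d := by
    rw [hd, Nat.succ_le_iff, Finset.card_pos]
    obtain ⟨μ, hμ⟩ := hQne
    exact ⟨μ, hQ.mem_toFinset.2 hμ⟩
  have hAF : ∀ x, x ∈ AF O z d F ↔ x ∈ Algebra.adjoin O (Set.range X) := by
    intro x
    rw [hd, hFdef]
    exact AF_torus X0 Xa hSPN hVN hQ hzD hPz x
  have hMNF : F ∈ MN z d := by
    rw [hd, hFdef]
    exact MN_prod _ fun μ hμ => hPz μ (hQ.mem_toFinset.1 hμ)
  have hφN : ∀ g, ∀ μ ∈ MS N P, φ g μ ∈ MS N P := fun g μ hμ => MS_map (ah (φ g)) (hφ g) hμ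
  have hinv : ∀ g, ρ g F = F := by
    intro g
    rw [hFdef, map_prod]
    refine Finset.prod_nbij' (fun μ => φ g μ) (fun μ => φ g⁻¹ μ) ?_ ?_ ?_ ?_ ?_
    · intro μ hμ
      exact hQ.mem_toFinset.2 (hφN g μ (hQ.mem_toFinset.1 hμ))
    · intro μ hμ
      exact hQ.mem_toFinset.2 (hφN g⁻¹ μ (hQ.mem_toFinset.1 hμ))
    · intro μ _
      rw [← LinearEquiv.mul_apply, ← map_mul, inv_mul_cancel, map_one]
      rfl
    · intro μ _
      rw [← LinearEquiv.mul_apply, ← map_mul, mul_inv_cancel, map_one]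
      rfl
    · intro μ _
      exact hρX g μ
  have hstB : ∀ g, ∀ x ∈ Algebra.adjoin O (Set.range X), ρ g x ∈ Algebra.adjoin O (Set.range X) := by
    intro g x hx
    induction hx using Algebra.adjoin_induction with
    | mem x hx =>
      obtain ⟨μ, rfl⟩ := hx
      rw [hρX]
      exact Algebra.subset_adjoin ⟨_, rfl⟩
    | algebraMap r =>
      rw [hF.com]
      exact Subalgebra.algebraMap_mem _ _
    | add x y _ _ hx hy => rw [map_add]; exact add_mem hx hy
    | mul x y _ _ hx hy => rw [map_mul]; exact mul_mem hx hy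
  refine assemF ι ρ T m z
    { toGF := hF
      z0 := hz0
      lin := fun g j => by
        obtain ⟨i, hi⟩ := hst g j
        rw [hi]
        exact Submodule.subset_span ⟨i, rfl⟩
      rg := hch } hfixK _ W hWD d hd1 {F} (Set.finite_singleton F) ⟨F, rfl⟩ ?_ ?_ D hDinj ?_ ?_
  · rintro F' rfl
    refine ⟨Submodule.subset_span hMNF, ?_, hinv⟩
    rw [hFdef]
    exact Finset.prod_ne_zero_iff.2 fun μ _ => hXne μ
  · rintro F' rfl x
    obtain ⟨a, b, ha, hb, hb0, h⟩ := hfr x
    exact ⟨a, b, (hAF a).2 ha, (hAF b).2 hb, hb0, h⟩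
  · rintro F' rfl a
    rw [hAF]
    exact (hD _).2 ⟨a, rfl⟩
  · intro V₀ hV₀
    obtain ⟨V', hV'⟩ := ext_val (ι : Y →+* K) V₀
    refine ⟨F, rfl, V', hV', ?_⟩
    have h1 := val_of_inv (fun g => ((ρ g : K ≃ₐ[A] K) : K →+* K)) (fun x => by rw [map_one]; rfl)
      (fun g h x => by rw [map_mul]; rfl) (Algebra.adjoin O (Set.range X)).toSubring hstB V' (by
        intro x hx hxg
        obtain ⟨y, rfl⟩ := (hfixK x).1 hxg
        obtain ⟨a, rfl⟩ := (hD y).1 hx
        exact (hV' _).2 (hV₀ a))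
    intro c hc
    exact h1 c ((hAF c).1 hc)

end Pool.Agent.Zk15.F
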