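import Mathlib

/-!
# Adapted bases modulo `p`
-/

set_option autoImplicit false

namespace Pool.Agent.Zk15

open Module

theorem adapted_aux {F V : Type} [Field F] [AddCommGroup V] [Module F V]
    (W : ℕ → Submodule F V) (hW : Antitone W) (m : ℕ) (hm : W m = ⊥) (d : ℕ) : ∀ i, i + d = m →
    ∃ (s : Set V) (ω : V → ℕ), LinearIndepOn F id s ∧
      (∀ x ∈ s, x ∈ W (ω x) ∧ i ≤ ω x ∧ ω x < m) ∧
      ∀ a, i ≤ a → W a ≤ Submodule.span F {x | x ∈ s ∧ a ≤ ω x} := by
  classical
  induction d with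
  | zero =>
    intro i hi
    refine ⟨∅, fun _ => 0, linearIndepOn_empty F id, fun x hx => absurd hx (Set.notMem_empty _),
      fun a ha => ?_⟩
    have h1 : W a ≤ W m := hW (by omega)
    rw [hm, le_bot_iff] at h1
    rw [h1]
    exact bot_le
  | succ d ih =>
    intro i hi
    obtain ⟨s, ω, hli, hs, hspan⟩ := ih (i + 1) (by omega)
    have hsW : s ⊆ (W i : Set V) := fun x hx => hW (by have := (hs x hx).2.1; omega) (hs x hx).1
    obtain ⟨s', hs'W, hss', hWs', hli'⟩ := exists_linearIndepOn_id_extension hli hsW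
    refine ⟨s', fun x => if x ∈ s then ω x else i, hli', fun x hx => ?_, fun a ha => ?_⟩
    · dsimp only
      split_ifs with h
      · exact ⟨(hs x h).1, by have := (hs x h).2.1; omega, (hs x h).2.2⟩
      · exact ⟨hs'W hx, le_rfl, by omega⟩
    · rcases Nat.eq_or_lt_of_le ha with h | h
      · subst h
        intro x hx
        refine Submodule.span_mono ?_ (hWs' hx)
        intro y hy
        refine ⟨hy, ?_⟩
        dsimp only
        split_ifs with h
        · have := (hs y h).2.1; omega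
        · exact le_rfl
      · refine (hspan a h).trans (Submodule.span_mono ?_)
        rintro y ⟨hy, hya⟩
        refine ⟨hss' hy, ?_⟩
        dsimp only
        rw [if_pos hy]
        exact hya

/-- Bases adapted to a decreasing filtration. -/
theorem adapted {F V : Type} [Field F] [AddCommGroup V] [Module F V]
    (W : ℕ → Submodule F V) (hW : Antitone W) (m : ℕ) (hm : W m = ⊥) :
    ∃ (s : Set V) (ω : V → ℕ), LinearIndepOn F id s ∧ (∀ x ∈ s, x ∈ W (ω x) ∧ ω x < m) ∧
      ∀ a, W a ≤ Submodule.span F {x | x ∈ s ∧ a ≤ ω x} := by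
  obtain ⟨s, ω, h1, h2, h3⟩ := adapted_aux W hW m hm m 0 (by omega)
  exact ⟨s, ω, h1, fun x hx => ⟨(h2 x hx).1, (h2 x hx).2.2⟩, fun a => h3 a (Nat.zero_le _)⟩

/-- The image of `δ ^ a` modulo `p`. -/
noncomputable def Wf {L : Type} [AddCommGroup L] (p : ℕ) (δ : L →+ L) (a : ℕ) :
    Submodule (ZMod p) (ModN L p) :=
  AddSubgroup.toZModSubmodule p
    { carrier := {v | ∃ e, v = ModN.mkQ p (δ^[a] e)}
      add_mem' := by
        rintro _ _ ⟨e, rfl⟩ ⟨e', rfl⟩
        exact ⟨e + e', by rw [iterate_map_add, map_add]⟩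
      zero_mem' := ⟨0, by rw [iterate_map_zero, map_zero]⟩
      neg_mem' := by
        rintro _ ⟨e, rfl⟩
        exact ⟨-e, by rw [iterate_map_neg, map_neg]⟩ }

lemma mem_Wf {L : Type} [AddCommGroup L] {p : ℕ} {δ : L →+ L} {a : ℕ} {v : ModN L p} :
    v ∈ Wf p δ a ↔ ∃ e, v = ModN.mkQ p (δ^[a] e) := Iff.rfl

lemma mkQ_surj {L : Type} [AddCommGroup L] {p : ℕ} (v : ModN L p) : ∃ e, v = ModN.mkQ p e := by
  obtain ⟨e, rfl⟩ := Submodule.mkQ_surjective _ v
  exact ⟨e, rfl⟩

lemma mkQ_eq_zero {L : Type} [AddCommGroup L] {p : ℕ} {e : L} :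
    ModN.mkQ p e = 0 ↔ ∃ e', e = p • e' := by
  have h1 : ModN.mkQ p e = (LinearMap.range (LinearMap.lsmul ℤ L p)).mkQ e := rfl
  rw [h1, Submodule.mkQ_apply, Submodule.Quotient.mk_eq_zero, LinearMap.mem_range]
  constructor
  · rintro ⟨e', he'⟩
    exact ⟨e', by rw [← he', LinearMap.lsmul_apply, natCast_zsmul]⟩
  · rintro ⟨e', he'⟩
    exact ⟨e', by rw [he', LinearMap.lsmul_apply, natCast_zsmul]⟩

/-- **Bases of a lattice modulo `p`, adapted to the filtration by the images of `δ ^ a`.** -/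
theorem adapted_lattice {L : Type} [AddCommGroup L] [Module.Free ℤ L] [Module.Finite ℤ L] (p : ℕ)
    [hp : Fact p.Prime] (δ : L →+ L) (hδ : ∀ e, ∃ e', δ^[p - 1] e = p • e') :
    ∃ (S : Type) (_ : Fintype S) (f : S → L) (ω : S → ℕ),
      (∀ s, 1 ≤ ω s ∧ ω s ≤ p - 1 ∧ ∃ e, f s = δ^[ω s - 1] e) ∧
      (∀ a e, ∃ (n : S → ℤ) (e' : L), δ^[a] e = ∑ s, n s • f s + p • e' ∧
        ∀ s, ω s ≤ a → n s = 0) ∧
      (∀ s', ∃ ψ : L →+ ZMod p, ∀ s, (s = s' → ψ (f s) = 1) ∧ (s ≠ s' → ψ (f s) = 0)) := by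
  classical
  have hp0 : p ≠ 0 := hp.1.ne_zero
  have hne : NeZero p := ⟨hp0⟩
  have hfin : Finite (ModN L p) := inferInstance
  have hanti : Antitone (Wf p δ) := by
    apply antitone_nat_of_succ_le
    intro a v hv
    obtain ⟨e, rfl⟩ := mem_Wf.1 hv
    exact mem_Wf.2 ⟨δ e, by rw [← Function.iterate_succ_apply]⟩
  have hbot : Wf p δ (p - 1) = ⊥ := by
    rw [Submodule.eq_bot_iff]
    intro v hv
    obtain ⟨e, rfl⟩ := mem_Wf.1 hv
    exact mkQ_eq_zero.2 (hδ e)
  obtain ⟨s, ω, hli, hs, hspan⟩ := adapted (Wf p δ) hanti (p - 1) hbot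
  have hsfin : s.Finite := Set.toFinite s
  let _ : Fintype s := hsfin.fintype
  have hx : ∀ x : s, ∃ e, (x : ModN L p) = ModN.mkQ p (δ^[ω x] e) := fun x =>
    mem_Wf.1 (hs x x.2).1
  choose g hg using hx
  refine ⟨s, inferInstance, fun x => δ^[ω x] (g x), fun x => ω x + 1, fun x => ?_, fun a e => ?_,
    fun x' => ?_⟩
  · have := (hs x x.2).2
    dsimp only
    exact ⟨by omega, by omega, g x, by rw [Nat.add_sub_cancel]⟩
  · have h1 : ModN.mkQ p (δ^[a] e) ∈ Submodule.span (ZMod p) {x | x ∈ s ∧ a ≤ ω x} :=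
      hspan a (mem_Wf.2 ⟨e, rfl⟩)
    have h2 : ∃ c : s → ZMod p, (∀ x : s, ω x < a → c x = 0) ∧
        ModN.mkQ p (δ^[a] e) = ∑ x : s, c x • (x : ModN L p) := by
      generalize ModN.mkQ p (δ^[a] e) = v at h1
      induction h1 using Submodule.span_induction with
      | mem y hy =>
        refine ⟨fun x => if (x : ModN L p) = y then 1 else 0, fun x hx => ?_, ?_⟩
        · refine if_neg ?_
          rintro rfl
          exact absurd hy.2 (by omega)
        · rw [Finset.sum_eq_single (⟨y, hy.1⟩ : s)]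
          · dsimp only
            rw [if_pos rfl, one_smul]
          · intro x _ hx
            dsimp only
            rw [if_neg (fun h => hx (Subtype.ext h)), zero_smul]
          · intro h
            exact absurd (Finset.mem_univ _) h
      | zero => exact ⟨0, fun _ _ => rfl, by simp⟩
      | add y z _ _ hy hz =>
        obtain ⟨c, hc, hc'⟩ := hy
        obtain ⟨d, hd, hd'⟩ := hz
        refine ⟨c + d, fun x hx => by rw [Pi.add_apply, hc x hx, hd x hx, add_zero], ?_⟩
        rw [hc', hd', ← Finset.sum_add_distrib]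
        exact Finset.sum_congr rfl fun x _ => by rw [Pi.add_apply, add_smul]
      | smul r y _ hy =>
        obtain ⟨c, hc, hc'⟩ := hy
        refine ⟨r • c, fun x hx => by rw [Pi.smul_apply, hc x hx, smul_zero], ?_⟩
        rw [hc', Finset.smul_sum]
        exact Finset.sum_congr rfl fun x _ => by rw [Pi.smul_apply, smul_eq_mul, mul_smul]
    obtain ⟨c, hc, hc'⟩ := h2
    have h3 : ∀ x : s, ∃ n : ℤ, (n : ZMod p) = c x ∧ (ω x < a → n = 0) := by
      intro x
      by_cases h : ω x < a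
      · exact ⟨0, by rw [hc x h, Int.cast_zero], fun _ => rfl⟩
      · obtain ⟨n, hn⟩ := ZMod.intCast_surjective (c x)
        exact ⟨n, hn, fun h' => absurd h' h⟩
    choose n hn hn' using h3
    have h4 : ModN.mkQ p (δ^[a] e - ∑ x : s, n x • δ^[ω x] (g x)) = 0 := by
      rw [map_sub, sub_eq_zero, hc', map_sum]
      refine Finset.sum_congr rfl fun x _ => ?_
      rw [map_zsmul, ← hg x, ← hn x]
      exact Int.cast_smul_eq_zsmul (ZMod p) (n x) _
    obtain ⟨e', he'⟩ := mkQ_eq_zero.1 h4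
    refine ⟨n, e', ?_, fun x hx => hn' x (by dsimp only at hx; omega)⟩
    rw [← he']
    abel
  · have hli' : LinearIndependent (ZMod p) (fun x : s => (x : ModN L p)) := hli
    have htop : ⊤ ≤ Submodule.span (ZMod p) (Set.range fun x : s => (x : ModN L p)) := by
      intro v _
      have h1 : v ∈ Wf p δ 0 := by
        obtain ⟨e, rfl⟩ := mkQ_surj v
        exact mem_Wf.2 ⟨e, rfl⟩
      refine Submodule.span_mono ?_ (hspan 0 h1)
      rintro y ⟨hy, -⟩
      exact ⟨⟨y, hy⟩, rfl⟩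
    let B := Basis.mk hli' htop
    refine ⟨(B.coord x').toAddMonoidHom.comp (ModN.mkQ p), fun x => ?_⟩
    have h1 : ((B.coord x').toAddMonoidHom.comp (ModN.mkQ p)) (δ^[ω x] (g x)) =
        B.coord x' (B x) := by
      change B.coord x' (ModN.mkQ p (δ^[ω x] (g x))) = _
      rw [← hg x, Basis.mk_apply]
    constructor
    · intro h
      rw [h1, Basis.coord_apply, Basis.repr_self, h, Finsupp.single_eq_same]
    · intro h
      rw [h1, Basis.coord_apply, Basis.repr_self, Finsupp.single_apply, if_neg h]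

end Pool.Agent.Zk15
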