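import Pool.Agent.Zk15.Aff0

/-!
# Affine weighted blowups with nondegenerate action of the wild inertia groups
-/

set_option autoImplicit false
set_option linter.unusedSectionVars false
set_option linter.overlappingInstances false

namespace Pool.Agent.Zk15

open Pool.Agent.Y223.G Pool.Agent.Y858.H Pool.Agent.Y987.H
open Pool.Agent.Y38.H.Rwb (R_s R_e R_o R_m R_low R_gr R_epow R_c R_coeff R_ft)
open Pool.Agent.R383.TM

section one

variable {A K : Type} [CommRing A] [Field K] [Algebra A K] {m : ℕ} {z : Fin (m + 1) → K}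

lemma MN_one : MN z 1 = Set.range z := by
  classical
  ext x
  constructor
  · rintro ⟨a, ha, rfl⟩
    obtain ⟨i, -, hi⟩ : ∃ i ∈ Finset.univ, a i ≠ 0 := by
      by_contra hcon
      push Not at hcon
      rw [Finset.sum_eq_zero fun i hi => hcon i hi] at ha
      exact absurd ha (by norm_num)
    have h1 : a i + ∑ j ∈ Finset.univ.erase i, a j = 1 := by
      rw [Finset.add_sum_erase _ _ (Finset.mem_univ i), ha]
    have h2 : ∑ j ∈ Finset.univ.erase i, a j = 0 := by omega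
    have h3 : a i = 1 := by omega
    refine ⟨i, ?_⟩
    rw [Finset.prod_eq_single i, h3, pow_one]
    · intro j _ hj
      rw [Finset.sum_eq_zero_iff.1 h2 j (Finset.mem_erase.2 ⟨hj, Finset.mem_univ j⟩), pow_zero]
    · intro h
      exact absurd (Finset.mem_univ i) h
  · rintro ⟨i, rfl⟩
    refine ⟨Pi.single i 1, single_sum i, ?_⟩
    rw [Finset.prod_eq_single i]
    · rw [Pi.single_eq_same, pow_one]
    · intro j _ hj
      rw [Pi.single_eq_of_ne hj, pow_zero]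
    · intro h
      exact absurd (Finset.mem_univ i) h

lemma AF_one : AF A z 1 1 = Algebra.adjoin A (Set.range z) := by
  unfold AF
  rw [MN_one]
  congr 1
  ext y
  constructor
  · rintro ⟨x, hx, rfl⟩
    rwa [div_one]
  · exact fun hy => ⟨y, hy, by rw [div_one]⟩

end one

section reg

variable {k O K : Type} [CommRing k] [CommRing O] [IsDomain O] [Field K] [Algebra k O]
  [Algebra O K] [Algebra k K] [IsScalarTower k O K] {m : ℕ} {z : Fin (m + 1) → K} {s : k}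

lemma CG_one : CG (OL O (K := K) s) (fun _ : Unit => z) 1 (fun _ => 1) =
    Algebra.adjoin (OL O (K := K) s) (Set.range z) := by
  rw [CG_unit, AF_one]

lemma adjoin_OL_rep {x : K} (hx : x ∈ Algebra.adjoin (OL O (K := K) s) (Set.range z)) :
    ∃ n : ℕ, algebraMap k K s ^ n * x ∈ Algebra.adjoin O (Set.range z) := by
  have hsA : ∀ n : ℕ, algebraMap k K s ^ n ∈ Algebra.adjoin O (Set.range z) := fun n => by
    rw [IsScalarTower.algebraMap_apply k O K, ← map_pow]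
    exact Subalgebra.algebraMap_mem _ _
  induction hx using Algebra.adjoin_induction with
  | mem x hx => exact ⟨0, by rw [pow_zero, one_mul]; exact Algebra.subset_adjoin hx⟩
  | algebraMap r =>
    obtain ⟨x, n, y, hy⟩ := r
    refine ⟨n, ?_⟩
    change algebraMap k K s ^ n * x ∈ _
    rw [hy]
    exact Subalgebra.algebraMap_mem _ _
  | add x y _ _ hx hy =>
    obtain ⟨n, hn⟩ := hx
    obtain ⟨n', hn'⟩ := hy
    refine ⟨n + n', ?_⟩
    have e : algebraMap k K s ^ (n + n') * (x + y) =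
        algebraMap k K s ^ n' * (algebraMap k K s ^ n * x) +
        algebraMap k K s ^ n * (algebraMap k K s ^ n' * y) := by ring
    rw [e]
    exact add_mem (mul_mem (hsA _) hn) (mul_mem (hsA _) hn')
  | mul x y _ _ hx hy =>
    obtain ⟨n, hn⟩ := hx
    obtain ⟨n', hn'⟩ := hy
    refine ⟨n + n', ?_⟩
    have e : algebraMap k K s ^ (n + n') * (x * y) =
        (algebraMap k K s ^ n * x) * (algebraMap k K s ^ n' * y) := by ring
    rw [e]
    exact mul_mem hn hn'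

lemma adjoin_le_OL {x : K} (hx : x ∈ Algebra.adjoin O (Set.range z)) :
    x ∈ Algebra.adjoin (OL O (K := K) s) (Set.range z) := by
  induction hx using Algebra.adjoin_induction with
  | mem x hx => exact Algebra.subset_adjoin hx
  | algebraMap r => exact Subalgebra.algebraMap_mem _ (⟨algebraMap O K r, mem_OLb s r⟩ :
      OL O (K := K) s)
  | add x y _ _ hx hy => exact add_mem hx hy
  | mul x y _ _ hx hy => exact mul_mem hx hy

/-- The localization of the chart is regular. -/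
theorem reg_Cs (hs : algebraMap k K s ≠ 0)
    (hreg : IsRegularRing (Algebra.adjoin O (Set.range z))) :
    IsRegularRing (CG (OL O (K := K) s) (fun _ : Unit => z) 1 (fun _ => 1)) := by
  rw [CG_one]
  let C := Algebra.adjoin O (Set.range z)
  let C' := Algebra.adjoin (OL O (K := K) s) (Set.range z)
  let f : C →+* C' :=
    { toFun := fun x => ⟨x, adjoin_le_OL x.2⟩
      map_one' := rfl
      map_mul' := fun _ _ => rfl
      map_zero' := rfl
      map_add' := fun _ _ => rfl }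
  let _ : Algebra C C' := f.toAlgebra
  have hmap : ∀ x : C, ((algebraMap C C' x : C') : K) = x := fun x => rfl
  have hsC : algebraMap k K s ∈ C := by
    rw [IsScalarTower.algebraMap_apply k O K]
    exact Subalgebra.algebraMap_mem _ _
  have hsi : (algebraMap k K s)⁻¹ ∈ C' := Subalgebra.algebraMap_mem _
    (⟨_, Pool.Agent.Y177.G.inv_mem_OL s hs⟩ : OL O (K := K) s)
  have hL : IsLocalization.Away (⟨_, hsC⟩ : C) C' := by
    refine IsLocalization.Away.mk (⟨_, hsC⟩ : C) ?_ ?_ ?_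
    · refine IsUnit.of_mul_eq_one ⟨_, hsi⟩ ?_
      apply Subtype.ext
      exact mul_inv_cancel₀ hs
    · rintro ⟨x, hx⟩
      obtain ⟨n, hn⟩ := adjoin_OL_rep hx
      refine ⟨n, ⟨_, hn⟩, ?_⟩
      apply Subtype.ext
      change x * (algebraMap k K s) ^ n = algebraMap k K s ^ n * x
      rw [mul_comm]
    · intro a b hab
      refine ⟨0, ?_⟩
      have h3 : ((algebraMap C C' a : C') : K) = ((algebraMap C C' b : C') : K) :=
        congrArg Subtype.val hab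
      rw [hmap, hmap] at h3
      rw [Subtype.ext h3]
  exact regular_of_isLocalization (Submonoid.powers (⟨_, hsC⟩ : C))

end reg

section nd

variable {k K : Type} [CommRing k] [Field K] [Algebra k K] {R₀ : Subalgebra k (LP K)} {t : K}
  {σ : K ≃ₐ[k] K} {D : ℕ}

lemma tl_pow_t (hσ : σ t = t) (n : ℕ) :
    tl σ ((hm 0 t : LP K) ^ n) = hm 0 t ^ n := by
  rw [map_pow, tl_hm, hσ]

lemma loc_tl {R₁ : Subalgebra k (LP K)} (hx : hm 0 t ∈ R₀) (hx' : hm 0 t ∈ R₁) (hσ : σ t = t)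
    (h : ∀ f ∈ R₀, tl σ f ∈ R₁) : ∀ f ∈ loc R₀ (hm 0 t) hx, tl σ f ∈ loc R₁ (hm 0 t) hx' := by
  rintro f ⟨n, hn⟩
  refine ⟨n, ?_⟩
  have h2 := h _ hn
  rwa [map_mul, tl_pow_t hσ] at h2

lemma loc_delta (hx : hm 0 t ∈ R₀) (hσ : σ t = t)
    (h : ∀ f ∈ R₀, hm D 1 * (tl σ f - f) ∈ R₀) :
    ∀ f ∈ loc R₀ (hm 0 t) hx, hm D 1 * (tl σ f - f) ∈ loc R₀ (hm 0 t) hx := by
  rintro f ⟨n, hn⟩
  refine ⟨n, ?_⟩
  have h2 := h _ hn
  rw [map_mul, tl_pow_t hσ, ← mul_sub] at h2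
  have e1 : (hm 0 t : LP K) ^ n * (hm D 1 * (tl σ f - f)) =
      hm D 1 * (hm 0 t ^ n * (tl σ f - f)) := by ring
  rw [e1]
  exact h2

lemma loc_nd (ht : t ≠ 0) (hx : hm 0 t ∈ R₀) {𝔄 : Set K} (h𝔄 : ∀ a ∈ 𝔄, hm 0 a ∈ R₀)
    (hnd : ∀ Q : Ideal R₀, Q.IsPrime → (∀ a ∈ 𝔄, ∃ h : hm 0 a ∈ R₀, (⟨_, h⟩ : R₀) ∈ Q) →
      (∃ (n : ℕ) (η : K) (he : hm n η ∈ R₀), 0 < n ∧ (⟨hm n η, he⟩ : R₀) ∉ Q) →
      ∃ b ∈ R₀, ∃ h : hm D 1 * (tl σ b - b) ∈ R₀, (⟨_, h⟩ : R₀) ∉ Q)
    (Q : Ideal (loc R₀ (hm 0 t) hx)) (hQ : Q.IsPrime)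
    (h1 : ∀ a ∈ 𝔄, ∃ h : hm 0 a ∈ loc R₀ (hm 0 t) hx, (⟨_, h⟩ : loc R₀ (hm 0 t) hx) ∈ Q)
    (h2 : ∃ (n : ℕ) (η : K) (he : hm n η ∈ loc R₀ (hm 0 t) hx), 0 < n ∧
      (⟨hm n η, he⟩ : loc R₀ (hm 0 t) hx) ∉ Q) :
    ∃ b ∈ loc R₀ (hm 0 t) hx, ∃ h : hm D 1 * (tl σ b - b) ∈ loc R₀ (hm 0 t) hx,
      (⟨_, h⟩ : loc R₀ (hm 0 t) hx) ∉ Q := by
  let ψ : R₀ →+* loc R₀ (hm 0 t) hx := (Subalgebra.inclusion (le_loc R₀ _ hx)).toRingHom
  obtain ⟨b, hb1, hb2, hb3⟩ := hnd (Q.comap ψ) (Ideal.comap_isPrime _ _) (by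
    intro a ha
    refine ⟨h𝔄 a ha, ?_⟩
    rw [Ideal.mem_comap]
    exact (h1 a ha).2) (by
    obtain ⟨n, η, he, hn, hη⟩ := h2
    obtain ⟨N', hN'⟩ := id he
    have e1 : (hm 0 t : LP K) ^ N' * hm n η = hm n (t ^ N' * η) := by
      rw [hm_pow, hm_mul, mul_zero, zero_add]
    rw [e1] at hN'
    refine ⟨n, _, hN', hn, ?_⟩
    rw [Ideal.mem_comap]
    intro hc
    have hti : hm 0 t⁻¹ ∈ loc R₀ (hm 0 t) hx := by
      refine inv_mem_loc R₀ (hm 0 t) (hm 0 t⁻¹) hx ?_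
      rw [hm_mul, mul_inv_cancel₀ ht, add_zero, hm_one]
    apply hη
    have e2 : (⟨hm n η, he⟩ : loc R₀ (hm 0 t) hx) = ⟨_, hti⟩ ^ N' * ψ ⟨_, hN'⟩ := by
      apply Subtype.ext
      change hm n η = hm 0 t⁻¹ ^ N' * hm n (t ^ N' * η)
      rw [hm_pow, hm_mul, mul_zero, zero_add, ← mul_assoc, ← mul_pow,
        inv_mul_cancel₀ ht, one_pow, one_mul]
    rw [e2]
    exact Q.mul_mem_left _ hc)
  refine ⟨b, le_loc R₀ _ hx hb1, le_loc R₀ _ hx hb2, ?_⟩
  intro hc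
  apply hb3
  rw [Ideal.mem_comap]
  exact hc

end nd


end Pool.Agent.Zk15
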