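import Pool.Agent.Zk15.Aff9
import Pool.Agent.Zk15.Fp15

/-!
# Projective models over function fields of one variable, in the charts of invariant coordinates
-/

set_option autoImplicit false
set_option linter.unusedVariables false
set_option linter.unusedSectionVars false
set_option linter.overlappingInstances false

namespace Pool.Agent.Zk15

open Pool.Agent.Y223.G

/-- **Projective models** over a function field `M` of one variable, with homogeneous coordinates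
`z`, the charts `z j ≠ 0`, `j ∈ J`, with `z j` invariant, and weights at the wildly ramified points
of all the affine models of `M`. -/
theorem projJ {k M G K Y : Type} [Field k] [PerfectField k] {p : ℕ} (hp : p.Prime)
    (hpk : (p : k) = 0) [Field M] [Algebra k M] [Group G] [Finite G] (ρ : G →* (M ≃ₐ[k] M))
    (hρ : Function.Injective ρ) {t : M} (ht : Transcendental k t) (htρ : ∀ g, ρ g t = t)
    (F' : IntermediateField k M) (hF : F' = IntermediateField.adjoin k {t})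
    [FiniteDimensional F' M] [Algebra.IsSeparable F' M]
    (hin : ∀ (O : Subalgebra k M) (hO : ∀ g, ∀ x ∈ O, ρ g x ∈ O) (𝔓 : Ideal O),
      IsDedekindDomain O → (∀ x : M, ∃ a b, a ∈ O ∧ b ∈ O ∧ b ≠ 0 ∧ x = a / b) →
      𝔓.IsMaximal → 𝔓 ≠ ⊥ → ¬ p ^ 2 ∣ Nat.card (F.inG (TS ρ O hO) 𝔓))
    [Field K] [Algebra M K] [Algebra k K] [IsScalarTower k M K] [Field Y] [Algebra k Y]
    (ι : Y →ₐ[k] K) (ρK : G →* (K ≃ₐ[k] K))
    (hcom : ∀ g x, ρK g (algebraMap M K x) = algebraMap M K (ρ g x))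
    (hfixK : ∀ x, (∀ g, ρK g x = x) ↔ ∃ y, ι y = x)
    {m : ℕ} {z : Fin (m + 1) → K} (J : Set (Fin (m + 1))) (hJ : J.Nonempty)
    (hinv : ∀ j ∈ J, ∀ g, ρK g (z j) = z j) (hJ0 : ∀ j ∈ J, z j ≠ 0)
    (hlin : ∀ g j, ρK g (z j) ∈ Submodule.span k (Set.range z))
    (hK : ∀ j ∈ J, ∀ x : K, ∃ a b, a ∈ Algebra.adjoin M (Set.range fun i => z i / z j) ∧
      b ∈ Algebra.adjoin M (Set.range fun i => z i / z j) ∧ b ≠ 0 ∧ x = a / b)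
    (hVJ : ∀ V : ValuationSubring K, (∀ c : k, algebraMap k K c ∈ V) →
      ∃ j ∈ J, ∀ i, z i / z j ∈ V)
    (hWD : ∀ (O : Subalgebra k M) (hO : ∀ g, ∀ x ∈ O, ρ g x ∈ O), IsDedekindDomain O →
      Algebra.FiniteType k O → (∀ x : M, ∃ a b, a ∈ O ∧ b ∈ O ∧ b ≠ 0 ∧ x = a / b) →
      (∀ j ∈ J, IsRegularRing (Algebra.adjoin O (Set.range fun i => z i / z j))) ∧
      ∃ (e : Ideal O → ℕ) (W : Ideal O → Fin (m + 1) → ℕ),
        ∀ ρ' : G →* (K ≃ₐ[F.invS (TS ρ O hO)] K), (∀ g x, ρ' g x = ρK g x) →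
        WDJ (F.invS (TS ρ O hO)) O K G ρ' (F.TA (TS ρ O hO)) z J e W) :
    ∃ (I : Type) (_ : Finite I) (w : I → Y) (J : Set I),
      ModelG (k := k) False ⊥ (⊤ : Subfield Y) w J := by
  classical
  have ht0 : t ≠ 0 := fun h => ht (by rw [h]; exact isAlgebraic_zero)
  have htr : Transcendental k t⁻¹ := fun h => ht (by
    have h1 := h.inv
    rwa [inv_inv] at h1)
  obtain ⟨hd1, hft1, hfr1⟩ := IC_ok ht F' hF
  obtain ⟨hd2, hft2, hfr2⟩ := IC_ok htr F' (hF.trans (adj_inv t))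
  have hG₁ : ∀ g, ∀ x ∈ IC k t, ρ g x ∈ IC k t := fun g x hx => IC_map (ρ g) (htρ g) hx
  have hG₂ : ∀ g, ∀ x ∈ IC k t⁻¹, ρ g x ∈ IC k t⁻¹ := fun g x hx =>
    IC_map (ρ g) (by rw [map_inv₀, htρ]) hx
  have h1 : ∀ x ∈ IC k t⁻¹, ∃ n : ℕ, t ^ n * x ∈ IC k t := fun x hx => IC_h1 ht0 hx
  have h2 : ∀ x ∈ IC k t, ∃ n : ℕ, t⁻¹ ^ n * x ∈ IC k t⁻¹ := fun x hx => IC_h2 ht0 hx
  obtain ⟨u, hu, huρ, hu0, huV, hA3, j, w, hw, hA4⟩ := twoAff ρ hρ (IC k t) (IC k t⁻¹) hG₁ hG₂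
    hfr2 ht0 htρ (IC_t t) (IC_t t⁻¹) h1 h2
  have hd3 : IsDedekindDomain (LS (IC k t⁻¹) u hu) := LS_ded _ u hu hu0
  have hft3 : Algebra.FiniteType k (LS (IC k t⁻¹) u hu) := LS_ft _ u hu hu0
  have hfr3 := LS_frac _ hfr2 u hu
  have hG₃ := LS_stable hG₂ hu huρ
  have hinjO : ∀ O : Subalgebra k M, Function.Injective (algebraMap O K) := fun O =>
    (algebraMap M K).injective.comp Subtype.val_injective
  have hlinO : ∀ O : Subalgebra k M, ∀ g j, ρK g (z j) ∈ Submodule.span O (Set.range z) :=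
    fun O g j => Submodule.span_subset_span k O _ (hlin g j)
  obtain ⟨hreg₁, e₁, W₁, hWD₁⟩ := hWD (IC k t) hG₁ hd1 hft1 hfr1
  obtain ⟨hreg₃, e₃, W₃, hWD₃⟩ := hWD (LS (IC k t⁻¹) u hu) hG₃ hd3 hft3 hfr3
  refine twoBaseJ (O₁ := IC k t) (O₂ := LS (IC k t⁻¹) u hu) hp hpk (TS ρ (IC k t) hG₁)
    (TS_inj hρ hG₁ hfr1) (TS ρ (LS (IC k t⁻¹) u hu) hG₃) (TS_inj hρ hG₃ hfr3)
    (fun 𝔓 h𝔓 h𝔓0 => hin _ hG₁ 𝔓 hd1 hfr1 h𝔓 h𝔓0)
    (fun 𝔓 h𝔓 h𝔓0 => hin _ hG₃ 𝔓 hd3 hfr3 h𝔓 h𝔓0) (hinjO _) (hinjO _) ι ρK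
    (fun g o => hcom g o) (fun g o => hcom g o) hfixK J hJ hinv hJ0 (hlinO _) (hlinO _)
    hreg₁ hreg₃ (fun j hj => frac_sub _ hfr1 (hK j hj)) (fun j hj => frac_sub _ hfr3 (hK j hj))
    e₁ W₁ hWD₁ e₃ W₃ hWD₃ hVJ ?_ ?_
  · intro β₁ β₂ _ _ o₁ o₂ ho₁ ho₂
    exact baseX (IC k t) (IC k t⁻¹) ρ hG₁ hG₂ ht0 htρ (IC_t t) (IC_t t⁻¹) h1 h2 hu huρ hu0 hA3 hw
      hA4 ρK hcom β₁ β₂ o₁ o₂ ho₁ ho₂
  · intro V hV
    exact baseV hu hu0 huV V hV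

end Pool.Agent.Zk15
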