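import Pool.Agent.Zk15.Fp2
import Pool.Agent.N864.GT.Dom

/-!
# Atlases with a second grading: the charts of the models dominate the charts of the atlas

The proofs are those of `Pool.Agent.Y484.H.t_ATLAS2` and `Pool.Agent.Y394.H.t_DOWN`, with an
additional conclusion.
-/

set_option autoImplicit false
set_option linter.unusedVariables false
set_option linter.unusedSectionVars false
set_option linter.overlappingInstances false

namespace Pool.Agent.Zk15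

open Pool.Agent.Y223.G

section atlas2

open Pool.Agent.Y363.G Pool.Agent.Y484.H

/-- **Compatible weighted blowups with a second grading give an atlas**, whose charts dominate
the given charts. -/
theorem atlas2_dom (k K K₂ : Type) [CommRing k] [IsDomain k] [IsNoetherianRing k] [Field K]
    [Field K₂] [Algebra k K] [Algebra k K₂] (_ : Function.Injective (algebraMap k K))
    (ε : LP K →ₐ[k] K₂) (hε : Ext2 ε) (P : Prop) (M₀ : Submodule k K)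
    (𝒱 : Set (ValuationSubring K₂)) (h𝒱 : ∀ V ∈ 𝒱, ∀ c : k, algebraMap k K₂ c ∈ V) (n₀ : ℕ)
    (hn₀ : 0 < n₀) (𝒜 : Type) [Finite 𝒜] (R : 𝒜 → Subalgebra k (LP K₂)) (hh : 𝒜 → K)
    (hCh : ∀ a, Ch (R a)) (hbg : ∀ a, BG ε (R a)) (hh0 : ∀ a, hh a ≠ 0)
    (hsi : ∀ a, hm 0 (ε (hm (-1) 1)) ∈ R a)
    (hsu : ∀ a, ∃ w : K, w ≠ 0 ∧ hm 0 (ε (hm n₀ w)) ∈ R a ∧ hm 0 (ε (hm (-n₀) w⁻¹)) ∈ R a)
    (hrt : ∀ a b, hm 0 (ε (hm 0 (hh b / hh a))) ∈ R a)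
    (hgl : ∀ a b, ∀ f ∈ R b, ∃ n : ℕ, hm 0 (ε (hm 0 (hh b / hh a))) ^ n * f ∈ R a)
    (hcv : ∀ V ∈ 𝒱, ∃ a, ∀ x, hm 0 x ∈ R a → x ∈ V)
    (hfr : ∀ a, ∀ x : K₂, ∃ y y' : K₂, hm 0 y ∈ R a ∧ hm 0 y' ∈ R a ∧ y' ≠ 0 ∧ x = y / y')
    (hve : P → ∀ a, ∃ s : k, s ≠ 0 ∧ hm 1 (algebraMap k K₂ s) ∈ R a)
    (hvs : P → ∀ a, ∃ s : k, s ≠ 0 ∧ hm 0 (ε (hm 1 (algebraMap k K s))) ∈ R a)
    (hmo : P → ∃ n : ℕ, 1 ≤ n ∧ ∀ a, hh a ∈ sat (M₀ ^ n) ∧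
      (∀ m ∈ M₀ ^ n, ∃ s : k, s ≠ 0 ∧ hm 0 (ε (hm 0 (s • (m / hh a)))) ∈ R a) ∧
      ∀ (f : K) (b : ℤ), hm 0 (ε (hm b f)) ∈ R a → ∃ N₀ : ℕ, ∀ N, N₀ ≤ N →
        hh a ^ N * f ∈ sat (M₀ ^ (n * N))) :
    ∃ (ρ : ℕ) (T : Type) (_ : Finite T) (C : T → Subalgebra k (LP K₂)) (H : T → K),
      AtlasS P ε M₀ 𝒱 n₀ ρ C H ∧ ∀ t, ∃ a, ∀ x, hm 0 x ∈ R a → hm 0 x ∈ C t := by
  classical
  choose w hw0 hw1 hw2 using hsu
  choose T hT e z hR he0 hz0 hcov using fun a => exists_fam2 ε hε.inj (hCh a) (hbg a) hn₀ (hw0 a)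
    (hw1 a) (hw2 a)
  have h𝒜f : Fintype 𝒜 := Fintype.ofFinite 𝒜
  have hTf : ∀ a, Fintype (T a) := fun a => Fintype.ofFinite (T a)
  let Q := Σ a, T a
  let e' : Q → ℕ := fun p => e p.1 p.2
  let z' : Q → K := fun p => z p.1 p.2
  have he' : ∀ p, 0 < e' p := fun p => he0 p.1 p.2
  have hz'0 : ∀ p, z' p ≠ 0 := fun p => hz0 p.1 p.2
  have hRp : ∀ p, hm (e' p) (ε (hm 0 (z' p))) ∈ R p.1 := fun p => hR p.1 p.2
  obtain ⟨E, hE⟩ : ∃ E : ℕ, E = ∏ p, e' p := ⟨_, rfl⟩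
  have hE0 : 0 < E := by
    rw [hE]
    exact Finset.prod_pos fun j _ => he' j
  let q : Q → ℕ := fun p => E / e' p
  have hq : ∀ p, q p * e' p = E := fun p =>
    Nat.div_mul_cancel (by rw [hE]; exact Finset.dvd_prod_of_mem e' (Finset.mem_univ p))
  let y : Q → K := fun p => z' p ^ q p
  have hy0 : ∀ p, y p ≠ 0 := fun p => pow_ne_zero _ (hz'0 p)
  have hκ : ∀ p, hm (e' p) (ε (hm 0 (z' p))) ^ q p = hm (E : ℤ) (ε (hm 0 (y p))) := by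
    intro p
    rw [ee_pow, mul_zero]
    congr 1
    exact_mod_cast hq p
  have hκR : ∀ p, hm (E : ℤ) (ε (hm 0 (y p))) ∈ R p.1 := by
    intro p
    rw [← hκ]
    exact (R p.1).pow_mem (hRp p) _
  have hyR : ∀ p, hm 0 (ε (hm 0 (y p))) ∈ R p.1 := fun p => (hCh p.1).cf _ _ (hκR p)
  choose n1 hn1 using fun (a : 𝒜) (p : Q) => hgl a p.1 _ (hκR p)
  obtain ⟨N1, hN1⟩ : ∃ N1 : ℕ, ∀ a p, n1 a p ≤ N1 :=
    ⟨Finset.univ.sup fun a => Finset.univ.sup (n1 a), fun a p =>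
      (Finset.le_sup (f := n1 a) (Finset.mem_univ p)).trans
        (Finset.le_sup (f := fun a => Finset.univ.sup (n1 a)) (Finset.mem_univ a))⟩
  obtain ⟨N2, hN2⟩ : ∃ N2 : ℕ, P → ∃ n : ℕ, 1 ≤ n ∧ (∀ a, hh a ∈ sat (M₀ ^ n) ∧
      (∀ m ∈ M₀ ^ n, ∃ s : k, s ≠ 0 ∧ hm 0 (ε (hm 0 (s • (m / hh a)))) ∈ R a) ∧
      ∀ (f : K) (b : ℤ), hm 0 (ε (hm b f)) ∈ R a → ∃ N₀ : ℕ, ∀ N, N₀ ≤ N →
        hh a ^ N * f ∈ sat (M₀ ^ (n * N))) ∧
      ∀ p, ∀ N, N2 ≤ N → hh p.1 ^ N * y p ∈ sat (M₀ ^ (n * N)) := by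
    by_cases hP : P
    · obtain ⟨n, hn, h1⟩ := hmo hP
      choose N0 hN0 using fun p : Q => (h1 p.1).2.2 _ _ (hyR p)
      refine ⟨Finset.univ.sup N0, fun _ => ⟨n, hn, h1, fun p N hN => hN0 p N ?_⟩⟩
      exact (Finset.le_sup (f := N0) (Finset.mem_univ p)).trans hN
    · exact ⟨0, fun h => absurd h hP⟩
  obtain ⟨N, hN⟩ : ∃ N : ℕ, N = N1 + N2 + 1 := ⟨_, rfl⟩
  have F1 : ∀ (a : 𝒜) (p : Q) (m c : ℕ), m * N1 ≤ c →
      hm 0 (ε (hm 0 (hh p.1 / hh a))) ^ c * hm (E : ℤ) (ε (hm 0 (y p))) ^ m ∈ R a := by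
    intro a p m c hc
    obtain ⟨b, rfl⟩ := Nat.exists_eq_add_of_le hc
    obtain ⟨d, hd⟩ := Nat.exists_eq_add_of_le (hN1 a p)
    have h3 : hm 0 (ε (hm 0 (hh p.1 / hh a))) ^ (m * N1 + b) *
        hm (E : ℤ) (ε (hm 0 (y p))) ^ m = hm 0 (ε (hm 0 (hh p.1 / hh a))) ^ (m * d + b) *
          (hm 0 (ε (hm 0 (hh p.1 / hh a))) ^ n1 a p * hm (E : ℤ) (ε (hm 0 (y p)))) ^ m := by
      rw [hd]; ring
    rw [h3]
    exact (R a).mul_mem ((R a).pow_mem (hrt a p.1) _) ((R a).pow_mem (hn1 a p) _)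
  let H : Q → K := fun p => hh p.1 ^ N * y p
  have hH0 : ∀ p, H p ≠ 0 := fun p => mul_ne_zero (pow_ne_zero _ (hh0 _)) (hy0 p)
  have htr : ∀ p p' : Q, hm (E : ℤ) (ε (hm 0 (y p))) * hm 0 (ε (hm 0 (H p' / H p))) =
        hm 0 (ε (hm 0 (hh p'.1 / hh p.1))) ^ N * hm (E : ℤ) (ε (hm 0 (y p'))) := by
    intro p p'
    rw [ee_pow, ee_mul, ee_mul]
    have e1 := hh0 p.1
    have e2 := hy0 p
    have e3 : y p * (H p' / H p) = (hh p'.1 / hh p.1) ^ N * y p' := by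
      change y p * (hh p'.1 ^ N * y p' / (hh p.1 ^ N * y p)) = _
      rw [div_pow]
      field_simp
    rw [e3]
    congr 1
    ring
  have hinvp : ∀ p, hm (-(E : ℤ)) (ε (hm 0 (y p)⁻¹)) ∈
      loc (R p.1) (hm (E : ℤ) (ε (hm 0 (y p)))) (hκR p) := by
    intro p
    refine inv_mem_loc _ _ _ _ ?_
    rw [ee_mul, add_neg_cancel, mul_inv_cancel₀ (hy0 p), add_zero, ee_one]
  refine ⟨E, Q, inferInstance,
    fun p => loc (R p.1) (hm (E : ℤ) (ε (hm 0 (y p)))) (hκR p), H, ?_,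
    fun p => ⟨p.1, fun x hx => le_loc _ _ _ hx⟩⟩
  refine
    { H0 := hH0
      ft := fun p => ft_loc (hCh p.1).ft (hκR p) (isUnit_hm (ee_ne ε hε.inj (hy0 p)))
      rg := fun p => (hCh p.1).rg E _ (hκR p) hE0 (ee_ne ε hε.inj (hy0 p))
      gr := fun p => gr_loc (hCh p.1).gr (ee_ne ε hε.inj (hy0 p)) (hκR p)
      bg := fun p => bg_loc ε (hbg p.1) (hy0 p) (hκR p)
      ss := fun p => le_loc _ _ _ (hCh p.1).ss
      si := fun p => le_loc _ _ _ (hsi p.1)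
      su := fun p => ⟨w p.1, hw0 p.1, le_loc _ _ _ (hw1 p.1), le_loc _ _ _ (hw2 p.1)⟩
      un := ?_
      fr := ?_
      rt := ?_
      gl := ?_
      cv := ?_
      ve := ?_
      vs := ?_
      mo := ?_ }
  · intro p
    refine ⟨E, hE0, le_rfl, 0, y p, hy0 p, le_loc _ _ _ (hκR p), ?_⟩
    rw [neg_zero]
    exact hinvp p
  · intro p x
    obtain ⟨y, y', hy, hy', h0, hxy⟩ := hfr p.1 x
    exact ⟨y, y', le_loc _ _ _ hy, le_loc _ _ _ hy', h0, hxy⟩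
  · intro p p'
    refine ⟨1, ?_⟩
    rw [pow_one, htr]
    have := F1 p.1 p' 1 N (by rw [one_mul, hN]; omega)
    rwa [pow_one] at this
  · rintro p p' f ⟨m, hm'⟩
    obtain ⟨n2, hn2⟩ := hgl p.1 p'.1 _ hm'
    refine ⟨m + n2, m + n2, ?_⟩
    have h3 : n2 * N1 + n2 ≤ N * (m + n2) := by
      have h6 : N * (m + n2) = N1 * m + N1 * n2 + N2 * (m + n2) + m + n2 := by
        rw [hN]; ring
      rw [h6]
      have : n2 * N1 = N1 * n2 := mul_comm _ _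
      omega
    obtain ⟨d', hd'⟩ := Nat.exists_eq_add_of_le h3
    have h1 : hm (E : ℤ) (ε (hm 0 (y p))) ^ (m + n2) *
          (hm 0 (ε (hm 0 (H p' / H p))) ^ (m + n2) * f) =
        hm 0 (ε (hm 0 (hh p'.1 / hh p.1))) ^ d' *
          ((hm 0 (ε (hm 0 (hh p'.1 / hh p.1))) ^ (n2 * N1) *
            hm (E : ℤ) (ε (hm 0 (y p'))) ^ n2) *
          (hm 0 (ε (hm 0 (hh p'.1 / hh p.1))) ^ n2 *
            (hm (E : ℤ) (ε (hm 0 (y p'))) ^ m * f))) := by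
      rw [← mul_assoc, ← mul_pow, htr, mul_pow, ← pow_mul, hd']
      ring
    rw [h1]
    exact (R p.1).mul_mem ((R p.1).pow_mem (hrt _ _) _)
      ((R p.1).mul_mem (F1 p.1 p' _ _ le_rfl) hn2)
  · intro V hV
    obtain ⟨a, ha⟩ := hcv V hV
    obtain ⟨t, ht⟩ := hcov a V (fun f hf d => ha _ ((hCh a).cf d _ ((hCh a).gr f hf d)))
    refine ⟨⟨a, t⟩, fun x hx => ht x ?_⟩
    refine loc_le (δ := 1) (δ' := 1) (hR a t) (hκR ⟨a, t⟩) (R a).one_mem (q ⟨a, t⟩) ?_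
      (mul_one _) hx
    rw [mul_one]
    exact (hκ ⟨a, t⟩).symm
  · intro hP p
    obtain ⟨s, hs, h1⟩ := hve hP p.1
    exact ⟨s, hs, le_loc _ _ _ h1⟩
  · intro hP p
    obtain ⟨s, hs, h1⟩ := hvs hP p.1
    exact ⟨s, hs, le_loc _ _ _ h1⟩
  · intro hP
    obtain ⟨n, hn, h1, h2⟩ := hN2 hP
    refine ⟨n * N, Nat.mul_pos hn (by omega), fun p => ⟨?_, ?_, ?_⟩⟩
    · exact h2 p N (by omega)
    · intro m hm'
      rw [pow_mul] at hm'
      obtain ⟨s, hs, h3⟩ := div_pow_mem (R := (R p.1).comap ((zer k K₂).comp ε))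
        (h1 p.1).2.1 N m hm'
      have h3' : hm 0 (ε (hm 0 (s • (m / hh p.1 ^ N)))) ∈ R p.1 := h3
      obtain ⟨s0, hs0, h4⟩ := hve hP p.1
      rw [ee_alg ε] at h4
      refine ⟨s * s0 ^ E, mul_ne_zero hs (pow_ne_zero _ hs0), ?_⟩
      have h5 := (loc (R p.1) (hm (E : ℤ) (ε (hm 0 (y p)))) (hκR p)).mul_mem
        (le_loc (R p.1) (hm (E : ℤ) (ε (hm 0 (y p)))) (hκR p) h3')
        ((loc (R p.1) (hm (E : ℤ) (ε (hm 0 (y p)))) (hκR p)).mul_mem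
          (le_loc (R p.1) (hm (E : ℤ) (ε (hm 0 (y p)))) (hκR p) ((R p.1).pow_mem h4 E))
          (hinvp p))
      rw [ee_pow, ee_mul, ee_mul] at h5
      have e5 : (0 : ℤ) + ((E : ℤ) * 1 + -(E : ℤ)) = 0 := by ring
      have e7 : (0 : ℤ) + ((E : ℤ) * 0 + 0) = 0 := by ring
      rw [e5, e7] at h5
      have e6 : s • (m / hh p.1 ^ N) * (algebraMap k K s0 ^ E * (y p)⁻¹) =
          (s * s0 ^ E) • (m / H p) := by
        change _ = (s * s0 ^ E) • (m / (hh p.1 ^ N * y p))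
        rw [Algebra.smul_def, Algebra.smul_def, map_mul, map_pow]
        have e1 := pow_ne_zero N (hh0 p.1)
        have e2 := hy0 p
        field_simp
      rw [e6] at h5
      exact h5
    · rintro f b ⟨j, hj⟩
      rw [ee_pow, ee_mul] at hj
      have h3 := (hCh p.1).cf _ _ hj
      obtain ⟨N3, hN3⟩ := (h1 p.1).2.2 _ _ h3
      refine ⟨N3 + j, fun N' hN' => ?_⟩
      obtain ⟨l, rfl⟩ := Nat.exists_eq_add_of_le (show j ≤ N' by omega)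
      have h6 := hN3 (l + N * j) (by
        have : 0 ≤ N * j := Nat.zero_le _
        omega)
      have h7 := sat_pow (h2 p (N1 + N2) (by omega)) l
      have h8 := sat_mul h7 h6
      rw [← pow_mul, ← pow_add] at h8
      have e8 : n * (N1 + N2) * l + n * (l + N * j) = n * N * (j + l) := by
        rw [hN]
        ring
      rw [e8] at h8
      have e9 : (hh p.1 ^ (N1 + N2) * y p) ^ l *
          (hh p.1 ^ (l + N * j) * (y p ^ j * f)) = H p ^ (j + l) * f := by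
        change _ = (hh p.1 ^ N * y p) ^ (j + l) * f
        rw [hN, mul_pow, mul_pow, ← pow_mul, ← pow_mul]
        ring
      rw [e9] at h8
      exact h8

end atlas2

section down

open Pool.Agent.Y394.H

/-- The parts of degree zero form an atlas for the second grading. -/
theorem down_dom (k K K₂ : Type) [CommRing k] [IsDomain k] [IsNoetherianRing k] [Field K]
    [Field K₂] [Algebra k K] [Algebra k K₂] (_ : Function.Injective (algebraMap k K))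
    (ε : LP K →ₐ[k] K₂) (hE : Ext2 ε) (P : Prop) (M₀ : Submodule k K)
    (𝒱 : Set (ValuationSubring K₂))
    (h𝒱 : ∀ V : ValuationSubring K, (∀ c : k, algebraMap k K c ∈ V) →
      ∃ V₂ ∈ 𝒱, ∀ x : K, ε (hm 0 x) ∈ V₂ → x ∈ V) (n₀ : ℕ) (hn₀ : 0 < n₀)
    (T : Type) [Finite T] (C : T → Subalgebra k (LP K₂)) (H : T → K)
    (hA : AtlasS P ε M₀ 𝒱 n₀ 1 C H) :
    ∃ D : T → Subalgebra k (LP K), AtlasG P M₀ (⊤ : Subfield K) n₀ D H ∧
      ∀ t x, hm 0 (ε (hm 0 x)) ∈ C t → hm 0 x ∈ D t := by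
  have hLOCJ : S_LOCJ := Pool.Agent.Y878.G.t_LOCJ
  have hI0 : S_I0REG := Pool.Agent.Y642.G.t_I0REG hLOCJ
  have hD0 : S_D0 := Pool.Agent.Y705.G.t_D0 hI0
  have key2 : ∀ t, Algebra.FiniteType k (Dn ε (C t)) ∧ IsRegularRing (Dn ε (C t)) := by
    intro t
    obtain ⟨r, hr0, hr1, c, u, hu0, hu, hu'⟩ := hA.un t
    obtain rfl : r = 1 := by omega
    have h0 : ε (hm c u) ≠ 0 := by
      intro h
      exact hm_ne_zero hu0 (hE.inj (h.trans (map_zero ε).symm))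
    have h1 : hm 1 (ε (hm c u)) ∈ C t := by simpa using hu
    have h2 : hm (-1) (ε (hm c u))⁻¹ ∈ C t := by
      rw [eps_inv ε c hu0]
      simpa using hu'
    obtain ⟨h3, h4⟩ := hD0 k K₂ (C t) (hA.ft t) (hA.rg t) (hA.gr t) _ h0 h1 h2
    let e : Dn ε (C t) ≃ₐ[k] d0 (C t) :=
      AlgEquiv.ofBijective (phi ε (C t)) (phi_bij ε hE.inj (C t) (hA.bg t))
    exact ⟨Algebra.FiniteType.equiv h3 e.symm, IsRegularRing.of_ringEquiv e.symm.toRingEquiv⟩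
  have hgr : ∀ t, Gr (Dn ε (C t)) := fun t => gr_Dn ε hE.inj (C t) (hA.bg t)
  refine ⟨fun t => Dn ε (C t), ?_, fun t x hx => hx⟩
  refine
    { H0 := hA.H0
      HK := fun t => Subfield.mem_top _
      ft := fun t => (key2 t).1
      rg := fun t => (key2 t).2
      gr := hgr
      ss := fun t => hA.si t
      un := ?_
      fr := ?_
      inF := fun t d x _ => Subfield.mem_top _
      rt := fun t t' => hA.rt t t'
      gl := ?_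
      cv := ?_
      ve := fun hP t => hA.vs hP t
      mo := ?_ }
  · intro t
    obtain ⟨w, hw, h1, h2⟩ := hA.su t
    exact ⟨n₀, hn₀, le_rfl, w, hw, h1, h2⟩
  · intro t x _
    obtain ⟨y, y', hy, hy', hy0, hxy⟩ := hA.fr t (ε (hm 0 x))
    obtain ⟨w, hw, rfl⟩ := key ε (C t) (hA.bg t) hy
    obtain ⟨w', hw', rfl⟩ := key ε (C t) (hA.bg t) hy'
    replace hw := span_le_Dn ε (C t) hw
    replace hw' := span_le_Dn ε (C t) hw'
    have hw0 : w' ≠ 0 := fun h => hy0 (by rw [h, map_zero])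
    have hww : w = hm 0 x * w' := by
      apply hE.inj
      rw [map_mul, hxy, div_mul_cancel₀ _ hy0]
    obtain ⟨b, hb⟩ : ∃ b, w'.coeff b ≠ 0 := by
      by_contra hcon
      push Not at hcon
      apply hw0
      rw [eq_sum_hm w']
      refine Finset.sum_eq_zero fun d _ => ?_
      rw [hcon d, hm_zero]
    have ha : hm b (x * w'.coeff b) ∈ Dn ε (C t) := by
      have := hgr t w hw b
      rwa [hww, coeff_hm_mul, sub_zero] at this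
    have ha' : hm b (w'.coeff b) ∈ Dn ε (C t) := hgr t w' hw' b
    obtain ⟨v, hv0, hv1, hv2⟩ := hA.su t
    have hz : hm ((b.natAbs : ℤ) * n₀) (v ^ (b.natAbs : ℤ)) ∈ Dn ε (C t) :=
      zpow_unit_mem (C := Dn ε (C t)) hv1 hv2 (b.natAbs : ℤ)
    have hs : hm (-(b + (b.natAbs : ℤ) * n₀)) (1 : K) ∈ Dn ε (C t) := by
      have h1 : 0 ≤ b + (b.natAbs : ℤ) * n₀ := by
        have h2 : (1 : ℤ) ≤ n₀ := by exact_mod_cast hn₀
        have h3 : (b.natAbs : ℤ) * 1 ≤ (b.natAbs : ℤ) * n₀ :=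
          mul_le_mul_of_nonneg_left h2 (Int.natCast_nonneg _)
        omega
      obtain ⟨m, hm'⟩ := Int.eq_ofNat_of_zero_le h1
      rw [hm']
      have h4 : hm (-1) (1 : K) ∈ Dn ε (C t) := hA.si t
      have h5 := (Dn ε (C t)).pow_mem h4 m
      rw [hm_pow, one_pow, mul_neg, mul_one] at h5
      exact h5
    have mk : ∀ a : K, hm b a ∈ Dn ε (C t) → hm 0 (a * v ^ (b.natAbs : ℤ)) ∈ Dn ε (C t) := by
      intro a h
      have h1 := (Dn ε (C t)).mul_mem ((Dn ε (C t)).mul_mem h hz) hs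
      rw [hm_mul, hm_mul, mul_one, add_neg_cancel] at h1
      exact h1
    have hvz : v ^ (b.natAbs : ℤ) ≠ 0 := zpow_ne_zero _ hv0
    refine ⟨_, _, mk _ ha, mk _ ha', mul_ne_zero hb hvz, ?_⟩
    field_simp
  · intro t t' f hf
    obtain ⟨n, hn⟩ := hA.gl t t' (hm 0 (ε f)) hf
    refine ⟨n, ?_⟩
    rw [mem_Dn, map_mul, map_pow, zer_mul, zer_pow]
    exact hn
  · intro V hV
    obtain ⟨V₂, hV₂, h1⟩ := h𝒱 V hV
    obtain ⟨t, ht⟩ := hA.cv V₂ hV₂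
    exact ⟨t, fun x hx => h1 x (ht _ hx)⟩
  · intro hP
    obtain ⟨n, hn, h1⟩ := hA.mo hP
    refine ⟨n, hn, fun t => ⟨(h1 t).1, (h1 t).2.1, fun f hf => (h1 t).2.2 f 0 hf⟩⟩

end down

/-- Reduction of the order of the stabilisers, with domination. -/
def S_ASTEP2D : Prop := ∀ (k K K₂ : Type) [CommRing k] [IsDomain k] [IsNoetherianRing k] [Field K]
  [Field K₂] [Algebra k K] [Algebra k K₂] (_ : Function.Injective (algebraMap k K))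
  (ε : LP K →ₐ[k] K₂), Ext2 ε → ∀ (P : Prop) (M₀ : Submodule k K)
  (𝒱 : Set (ValuationSubring K₂)), (∀ V ∈ 𝒱, ∀ c : k, algebraMap k K₂ c ∈ V) → ∀ (n₀ : ℕ),
  0 < n₀ → ∀ ρ : ℕ, 2 ≤ ρ → ∀ (T : Type) [Finite T] (C : T → Subalgebra k (LP K₂)) (H : T → K),
    AtlasS P ε M₀ 𝒱 n₀ ρ C H →
    ∃ (T' : Type) (_ : Finite T') (C' : T' → Subalgebra k (LP K₂)) (H' : T' → K),
      AtlasS P ε M₀ 𝒱 n₀ (ρ - 1) C' H' ∧ ∀ t', ∃ t, ∀ x, hm 0 x ∈ C t → hm 0 x ∈ C' t'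

/-- The iteration of the reduction of the order of the stabilisers. -/
theorem iter_dom (hSTEP : S_ASTEP2D) {k K K₂ : Type} [CommRing k] [IsDomain k]
    [IsNoetherianRing k] [Field K] [Field K₂] [Algebra k K] [Algebra k K₂]
    (hinj : Function.Injective (algebraMap k K))
    (ε : LP K →ₐ[k] K₂) (hε : Ext2 ε) (P : Prop) (M₀ : Submodule k K)
    (𝒱 : Set (ValuationSubring K₂)) (h𝒱 : ∀ V ∈ 𝒱, ∀ c : k, algebraMap k K₂ c ∈ V) (n₀ : ℕ)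
    (hn₀ : 0 < n₀) (r : ℕ) : ∀ (T : Type) (_ : Finite T) (C : T → Subalgebra k (LP K₂))
    (H : T → K), AtlasS P ε M₀ 𝒱 n₀ r C H →
    ∃ (T' : Type) (_ : Finite T') (C' : T' → Subalgebra k (LP K₂)) (H' : T' → K),
      AtlasS P ε M₀ 𝒱 n₀ 1 C' H' ∧ ∀ t', ∃ t, ∀ x, hm 0 x ∈ C t → hm 0 x ∈ C' t' := by
  induction r with
  | zero => exact fun T hT C H hA => ⟨T, hT, C, H, Pool.Agent.Y550.H.mono zero_le_one hA,
      fun t => ⟨t, fun x hx => hx⟩⟩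
  | succ r ih =>
    intro T hT C H hA
    cases r with
    | zero => exact ⟨T, hT, C, H, hA, fun t => ⟨t, fun x hx => hx⟩⟩
    | succ r =>
      obtain ⟨T', hT', C', H', hA', hd⟩ := hSTEP k K K₂ hinj ε hε P M₀ 𝒱 h𝒱 n₀ hn₀ (r + 1 + 1)
        (by omega) T C H hA
      obtain ⟨T1, hT1, C1, H1, hA1, hd1⟩ := ih T' hT' C' H' hA'
      refine ⟨T1, hT1, C1, H1, hA1, fun t1 => ?_⟩
      obtain ⟨t', h1⟩ := hd1 t1
      obtain ⟨t, h2⟩ := hd t'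
      exact ⟨t, fun x hx => h1 x (h2 x hx)⟩

/-- **A regular model from local charts**, whose charts dominate the given charts. -/
theorem tailF_dom (hSTEP : S_ASTEP2D) {D Y Y₂ K : Type} [CommRing D] [IsDomain D]
    [IsNoetherianRing D] [Field Y] [Field Y₂] [Field K] [Algebra D Y] [Algebra D Y₂]
    (hDinj : Function.Injective (algebraMap D Y))
    (ε : LP Y →ₐ[D] Y₂) (hε : Ext2 ε) (ι : Y → K) (n₀ : ℕ) (hn₀ : 0 < n₀) (𝒜 : Type) [Finite 𝒜]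
    (C I : 𝒜 → Set K) (π : 𝒜 → K) (R : 𝒜 → Subalgebra D (LP Y₂)) (h : 𝒜 → Y) (hh0 : ∀ a, h a ≠ 0)
    (hR : ∀ a, LCh ε ι (C a) (I a) (π a) n₀ (R a)) (hI : ∀ a, (I a).Nonempty)
    (hrt : ∀ a a', hm 0 (ε (hm 0 (h a' / h a))) ∈ R a)
    (hgl : ∀ a a', ∀ f ∈ R a', ∃ n : ℕ, hm 0 (ε (hm 0 (h a' / h a))) ^ n * f ∈ R a)
    (hcov : ∀ V : ValuationSubring Y, (∀ c : D, algebraMap D Y c ∈ V) →
      ∃ a, ∃ V' : ValuationSubring K, (∀ x, ι x ∈ V' ↔ x ∈ V) ∧ ∀ c ∈ C a, c ∈ V') :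
    ∃ (I : Type) (_ : Finite I) (w : I → Y) (J : Set I),
      ModelG (k := D) False ⊥ (⊤ : Subfield Y) w J ∧
      ∀ j ∈ J, ∃ a, ∀ y : Y, ι y ∈ C a → y ∈ Algebra.adjoin D (Set.range fun i => w i / w j) := by
  classical
  have hDε : ∀ c : D, algebraMap D Y₂ c = ε (hm 0 (algebraMap D Y c)) := by
    intro c
    rw [← algebraMap_LP, ε.commutes]
  obtain ⟨𝒱, h𝒱⟩ : ∃ 𝒱 : Set (ValuationSubring Y₂), 𝒱 = {V | (∀ c : D, algebraMap D Y₂ c ∈ V) ∧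
    ∃ a, ∀ x, hm 0 x ∈ R a → x ∈ V} := ⟨_, rfl⟩
  have h𝒱k : ∀ V ∈ 𝒱, ∀ c : D, algebraMap D Y₂ c ∈ V := by
    rw [h𝒱]
    exact fun V hV => hV.1
  obtain ⟨r, T', hT', C', H, hAt, hd0⟩ := atlas2_dom D Y Y₂ hDinj ε hε False ⊥ 𝒱 h𝒱k n₀ hn₀
    𝒜 R h (fun a => (hR a).ch) (fun a => (hR a).bg) hh0 (fun a => (hR a).s1) (fun a => (hR a).un)
    hrt hgl
    (by
      rw [h𝒱]
      exact fun V hV => hV.2)
    (fun a => (hR a).fr) (fun hP => hP.elim) (fun hP => hP.elim) (fun hP => hP.elim)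
  obtain ⟨T1, hT1, C1, H1, hA1, hd1⟩ := iter_dom hSTEP hDinj ε hε False ⊥ 𝒱 h𝒱k n₀ hn₀ r T'
    hT' C' H hAt
  obtain ⟨D', hD', hd2⟩ := down_dom D Y Y₂ hDinj ε hε False ⊥ 𝒱
    (by
      intro V hV
      obtain ⟨a, V', hV', hFV⟩ := hcov V hV
      obtain ⟨V₂, h2, h3⟩ := (hR a).va V V' hV' hFV
      refine ⟨V₂, ?_, fun x hx => (h3 x).1 hx⟩
      rw [h𝒱]
      refine ⟨fun c => ?_, a, h2⟩
      rw [hDε]
      exact (h3 _).2 (hV c))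
    n₀ hn₀ T1 C1 H1 hA1
  obtain ⟨I', hI', w, J, hM, hd3⟩ := Pool.Agent.N864.GT.model_dom D Y hDinj False ⊥
    Submodule.fg_bot ⊤ (fun hP => hP.elim) n₀ T1 D' H1 hD'
  refine ⟨I', hI', w, J, hM, fun j hj => ?_⟩
  obtain ⟨t1, h1⟩ := hd3 j hj
  obtain ⟨t', h2⟩ := hd1 t1
  obtain ⟨a, h3⟩ := hd0 t'
  refine ⟨a, fun y hy => h1 y (hd2 t1 y (h2 _ (h3 _ ?_)))⟩
  obtain ⟨ν, hν⟩ := hI a
  refine (hR a).q1 0 0 y ν (ι y) hν hy ?_
  rw [neg_zero, zpow_zero, mul_one, Int.natAbs_zero, pow_zero, one_mul]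

end Pool.Agent.Zk15
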