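import Pool.Agent.Zk15.Aff10
import Pool.Agent.Zk15.Aff12

/-!
# The projective models, with domination

The proofs are those of `assemX`, `twoBaseJ` and `projJ`, with an additional conclusion.
-/

set_option autoImplicit false
set_option linter.unusedVariables false
set_option linter.unusedSectionVars false
set_option linter.overlappingInstances false

namespace Pool.Agent.Zk15

open Pool.Agent.Y223.G
open Pool.Agent.Y515.G (ext_val int_mem)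

/-- **Assembly of a model from the local charts over several bases.** -/
theorem assemX_dom (hSTEP : S_ASTEP2D) {D Y Y₂ K : Type} [CommRing D] [IsDomain D]
    [IsNoetherianRing D] [Field Y]
    [Field Y₂] [Field K] [Algebra D Y] [Algebra D Y₂] (hDinj : Function.Injective (algebraMap D Y))
    (ε : LP Y →ₐ[D] Y₂) (hε : Ext2 ε) (ι : Y →+* K) (n₀ : ℕ) (hn₀ : 0 < n₀)
    {m : ℕ} (z : Fin (m + 1) → K) (d : ℕ) (S : Set K) (hSfin : S.Finite) (hS0 : ∀ F ∈ S, F ≠ 0)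
    (β : Type) [Finite β] (B : β → Subring K) (I : β → Set K) (π σ : β → K) (hσ : ∀ b, σ b ≠ 0)
    (hπ0 : ∀ b, π b ≠ 0) (hIB : ∀ b, ∀ x ∈ I b, x ∈ B b) (hπB : ∀ b, π b ∈ B b)
    (hIπ : ∀ b, ∀ x ∈ I b, x / π b ∈ B b) (hIne : ∀ b, (I b).Nonempty)
    (hSS : ∀ F ∈ S, ∀ F' ∈ S, ∀ b, F' / F ∈ CC (B b) z d F)
    (R : S → β → Subalgebra D (LP Y₂))
    (hR : ∀ (F : S) b, LCh ε ι (CC (B b) z d F) (I b) (π b) n₀ (R F b))
    (hsame : ∀ (F F' : S) b y, ι y = (F' : K) / (F : K) → hm 0 (ε (hm 0 y)) ∈ R F b ∧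
        ∀ f ∈ R F' b, ∃ n : ℕ, hm 0 (ε (hm 0 y)) ^ n * f ∈ R F b)
    (h : S → β → Y) (hh : ∀ F b, ι (h F b) = (F : K) * σ b)
    (h1 : ∀ b b', b' ≠ b → σ b' / σ b ∈ I b)
    (h2 : ∀ b b', b' ≠ b → ∀ y ∈ B b', ∃ n : ℕ, (σ b' / σ b) ^ n * y ∈ B b)
    (hcov : ∀ V : ValuationSubring Y, (∀ c : D, algebraMap D Y c ∈ V) →
      ∃ (F : S) (b : β) (V' : ValuationSubring K), (∀ x, ι x ∈ V' ↔ x ∈ V) ∧
        ∀ c ∈ CC (B b) z d F, c ∈ V') :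
    ∃ (I : Type) (_ : Finite I) (w : I → Y) (J : Set I),
      ModelG (k := D) False ⊥ (⊤ : Subfield Y) w J ∧
      ∀ j ∈ J, ∃ (F : S) (b : β), ∀ y : Y, ι y ∈ CC (B b) z d F →
        y ∈ Algebra.adjoin D (Set.range fun i => w i / w j) := by
  have hfinS : Finite S := hSfin
  have hh0 : ∀ F b, h F b ≠ 0 := by
    intro F b h0
    have h3 := hh F b
    rw [h0, map_zero] at h3
    exact mul_ne_zero (hS0 F F.2) (hσ b) h3.symm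
  have hquot : ∀ a a' : S × β, ι (h a'.1 a'.2 / h a.1 a.2) =
      ((a'.1 : K) / (a.1 : K)) * (σ a'.2 / σ a.2) := by
    intro a a'
    rw [map_div₀, hh, hh, mul_div_mul_comm]
  have hglue : ∀ a a' : S × β, hm 0 (ε (hm 0 (h a'.1 a'.2 / h a.1 a.2))) ∈ R a.1 a.2 ∧
      ∀ f ∈ R a'.1 a'.2, ∃ n : ℕ, hm 0 (ε (hm 0 (h a'.1 a'.2 / h a.1 a.2))) ^ n * f ∈
        R a.1 a.2 := by
    rintro ⟨F, b⟩ ⟨F', b'⟩
    by_cases hb : b' = b
    · subst hb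
      refine hsame F F' b' _ ?_
      rw [hquot (F, b') (F', b'), div_self (hσ b'), mul_one]
    · have hν0 : σ b' / σ b ≠ 0 := div_ne_zero (hσ b') (hσ b)
      have hνI := h1 b b' hb
      have hν'I := h1 b' b (Ne.symm hb)
      rw [← inv_div] at hν'I
      have hcmp := pi_cmp hν0 (hπB b) (hπB b') (hIπ b) (hIπ b') (hIB b _ hνI) hνI hν'I (h2 b b' hb)
      refine glX (C := (CC (B b) z d F : Set K)) (C' := (CC (B b') z d F' : Set K)) (hR F b)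
        (hR F' b') (one_mem (CC (B b) z d F)) (fun x hx y hy => mul_mem (S := Subring K) hx hy)
        (hπ0 b) (hπ0 b') (hquot (F, b) (F', b')) (hSS F F.2 F' F'.2 b) hνI (B_CC (hIB b _ hνI))
        (CC_loc (hS0 F F.2) (hS0 F' F'.2) (hSS F F.2 F' F'.2 b) (hIB b _ hνI) (h2 b b' hb))
        ?_ ?_
      · obtain ⟨n, hn⟩ := hcmp.1
        exact ⟨n, B_CC hn⟩
      · obtain ⟨n, hn⟩ := hcmp.2
        exact ⟨n, B_CC hn⟩
  obtain ⟨I', hI', w, J, hM, hd⟩ := tailF_dom hSTEP hDinj ε hε ι n₀ hn₀ (S × β)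
    (fun a => (CC (B a.2) z d (a.1 : K) : Set K))
    (fun a => I a.2) (fun a => π a.2) (fun a => R a.1 a.2) (fun a => h a.1 a.2)
    (fun a => hh0 a.1 a.2) (fun a => hR a.1 a.2) (fun a => hIne a.2)
    (fun a a' => (hglue a a').1) (fun a a' => (hglue a a').2) (fun V hV => by
      obtain ⟨F, b, V', h3, h4⟩ := hcov V hV
      exact ⟨(F, b), V', h3, h4⟩)
  refine ⟨I', hI', w, J, hM, fun j hj => ?_⟩
  obtain ⟨a, ha⟩ := hd j hj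
  exact ⟨a.1, a.2, ha⟩

/-- the chart of a coordinate over a base is in the chart over a localisation of the base -/
lemma adj_CC {O K : Type} [CommRing O] [IsDomain O] [Field K] [Algebra O K] {m : ℕ} {z : Fin (m + 1) → K}
    {s : O} {F x : K} (hx : x ∈ Algebra.adjoin O (Set.range fun i => z i / F)) :
    x ∈ CC (BB K s) z 1 F := by
  induction hx using Algebra.adjoin_induction with
  | mem x hx =>
    obtain ⟨i, rfl⟩ := hx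
    refine MN_CC ?_
    rw [MN_one]
    exact ⟨i, rfl⟩
  | algebraMap r => exact B_CC (alg_BB _ _)
  | add x y _ _ hx hy => exact add_mem hx hy
  | mul x y _ _ hx hy => exact mul_mem hx hy

/-- **The model over two bases.** -/
theorem twoBaseJ_dom (hSTEP : S_ASTEP2D) {k₀ O₁ O₂ Y K G : Type} [Field k₀] [PerfectField k₀]
    {p : ℕ} (hp : p.Prime)
    (hpk : (p : k₀) = 0) [CommRing O₁] [IsDomain O₁] [IsDedekindDomain O₁] [Algebra k₀ O₁]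
    [Algebra.FiniteType k₀ O₁] [CommRing O₂] [IsDomain O₂] [IsDedekindDomain O₂] [Algebra k₀ O₂]
    [Algebra.FiniteType k₀ O₂] [Field Y] [Field K]
    [Group G] [Finite G] [Algebra O₁ K] [Algebra O₂ K] [Algebra k₀ K]
    [IsScalarTower k₀ O₁ K] [IsScalarTower k₀ O₂ K] [Algebra k₀ Y]
    (T₁ : G →* (O₁ ≃ₐ[k₀] O₁)) (hT₁ : Function.Injective T₁)
    (T₂ : G →* (O₂ ≃ₐ[k₀] O₂)) (hT₂ : Function.Injective T₂)
    (hin₁ : ∀ 𝔓 : Ideal O₁, 𝔓.IsMaximal → 𝔓 ≠ ⊥ → ¬ p ^ 2 ∣ Nat.card (F.inG T₁ 𝔓))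
    (hin₂ : ∀ 𝔓 : Ideal O₂, 𝔓.IsMaximal → 𝔓 ≠ ⊥ → ¬ p ^ 2 ∣ Nat.card (F.inG T₂ 𝔓))
    (hinj₁ : Function.Injective (algebraMap O₁ K)) (hinj₂ : Function.Injective (algebraMap O₂ K))
    (ι : Y →ₐ[k₀] K) (ρ : G →* (K ≃ₐ[k₀] K))
    (hcom₁ : ∀ g o, ρ g (algebraMap O₁ K o) = algebraMap O₁ K (T₁ g o))
    (hcom₂ : ∀ g o, ρ g (algebraMap O₂ K o) = algebraMap O₂ K (T₂ g o))
    (hfixK : ∀ x, (∀ g, ρ g x = x) ↔ ∃ y, ι y = x)
    {m : ℕ} {z : Fin (m + 1) → K} (J : Set (Fin (m + 1))) (hJ : J.Nonempty)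
    (hinv : ∀ j ∈ J, ∀ g, ρ g (z j) = z j) (hJ0 : ∀ j ∈ J, z j ≠ 0)
    (hlin₁ : ∀ g j, ρ g (z j) ∈ Submodule.span O₁ (Set.range z))
    (hlin₂ : ∀ g j, ρ g (z j) ∈ Submodule.span O₂ (Set.range z))
    (hreg₁ : ∀ j ∈ J, IsRegularRing (Algebra.adjoin O₁ (Set.range fun i => z i / z j)))
    (hreg₂ : ∀ j ∈ J, IsRegularRing (Algebra.adjoin O₂ (Set.range fun i => z i / z j)))
    (hfr₁ : ∀ j ∈ J, ∀ x : K, ∃ a b, a ∈ Algebra.adjoin O₁ (Set.range fun i => z i / z j) ∧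
      b ∈ Algebra.adjoin O₁ (Set.range fun i => z i / z j) ∧ b ≠ 0 ∧ x = a / b)
    (hfr₂ : ∀ j ∈ J, ∀ x : K, ∃ a b, a ∈ Algebra.adjoin O₂ (Set.range fun i => z i / z j) ∧
      b ∈ Algebra.adjoin O₂ (Set.range fun i => z i / z j) ∧ b ≠ 0 ∧ x = a / b)
    (e₁ : Ideal O₁ → ℕ) (W₁ : Ideal O₁ → Fin (m + 1) → ℕ)
    (hWD₁ : ∀ ρ' : G →* (K ≃ₐ[F.invS T₁] K), (∀ g y, ρ' g y = ρ g y) →
      WDJ (F.invS T₁) O₁ K G ρ' (F.TA T₁) z J e₁ W₁)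
    (e₂ : Ideal O₂ → ℕ) (W₂ : Ideal O₂ → Fin (m + 1) → ℕ)
    (hWD₂ : ∀ ρ' : G →* (K ≃ₐ[F.invS T₂] K), (∀ g y, ρ' g y = ρ g y) →
      WDJ (F.invS T₂) O₂ K G ρ' (F.TA T₂) z J e₂ W₂)
    (hVJ : ∀ V : ValuationSubring K, (∀ c : k₀, algebraMap k₀ K c ∈ V) →
      ∃ j ∈ J, ∀ i, z i / z j ∈ V)
    (hX : ∀ (β₁ β₂ : Type) [Finite β₁] [Finite β₂] (o₁ : β₁ → O₁) (o₂ : β₂ → O₂),
      (∀ b, o₁ b ≠ 0) → (∀ b, o₂ b ≠ 0) → ∃ τ : K, τ ≠ 0 ∧ (∀ g, ρ g τ = τ) ∧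
        (∀ b, ∃ x : O₁, algebraMap O₁ K x = τ * algebraMap O₂ K (o₂ b) ∧ ∀ P ∈ F.Ram T₁, x ∈ P) ∧
        (∀ b, ∃ x : O₂, algebraMap O₂ K x = algebraMap O₁ K (o₁ b) / τ ∧
          ∀ P ∈ F.Ram T₂, x ∈ P) ∧
        (∀ b, ∀ y ∈ BB K (o₂ b), ∃ (n : ℕ) (x : O₁),
          (τ * algebraMap O₂ K (o₂ b)) ^ n * y = algebraMap O₁ K x) ∧
        ∀ b, ∀ y ∈ BB K (o₁ b), ∃ (n : ℕ) (x : O₂),
          (algebraMap O₁ K (o₁ b) / τ) ^ n * y = algebraMap O₂ K x)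
    (hV : ∀ V : ValuationSubring K, (∀ c : k₀, algebraMap k₀ K c ∈ V) →
      (∀ x : O₁, algebraMap O₁ K x ∈ V) ∨ ∀ x : O₂, algebraMap O₂ K x ∈ V) :
    ∃ (I : Type) (_ : Finite I) (w : I → Y) (J' : Set I),
      ModelG (k := k₀) False ⊥ (⊤ : Subfield Y) w J' ∧
      ∀ j ∈ J', ∃ j₀ ∈ J,
        (∀ y : Y, ι y ∈ Algebra.adjoin O₁ (Set.range fun i => z i / z j₀) →
          y ∈ Algebra.adjoin k₀ (Set.range fun i => w i / w j)) ∨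
        ∀ y : Y, ι y ∈ Algebra.adjoin O₂ (Set.range fun i => z i / z j₀) →
          y ∈ Algebra.adjoin k₀ (Set.range fun i => w i / w j) := by
  classical
  obtain ⟨S, hSJ⟩ : ∃ S : Set K, S = z '' J := ⟨_, rfl⟩
  have hSe : ∀ F ∈ S, ∃ j ∈ J, z j = F := fun F hF => by
    rw [hSJ] at hF
    obtain ⟨j, hj, h⟩ := hF
    exact ⟨j, hj, h⟩
  have hSfin : S.Finite := by
    rw [hSJ]
    exact (Set.toFinite J).image z
  have hS : ∀ F ∈ S, F ≠ 0 ∧ (∀ g, ρ g F = F) ∧ ∀ (O : Type) [CommRing O] [Algebra O K],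
      F ∈ FS O z 1 := by
    intro F hF
    obtain ⟨j, hj, rfl⟩ := hSe F hF
    refine ⟨hJ0 j hj, hinv j hj, fun O _ _ => ?_⟩
    have h1 : z j ∈ MN z 1 := by
      rw [MN_one]
      exact ⟨j, rfl⟩
    exact Submodule.subset_span h1
  have hSV : ∀ V : ValuationSubring K, (∀ c : k₀, algebraMap k₀ K c ∈ V) →
      ∃ F ∈ S, ∀ x ∈ MN z 1, x / F ∈ V := by
    intro V hV
    obtain ⟨j, hj, h⟩ := hVJ V hV
    refine ⟨z j, by rw [hSJ]; exact ⟨j, hj, rfl⟩, ?_⟩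
    rw [MN_one]
    rintro _ ⟨i, rfl⟩
    exact h i
  obtain ⟨Y₂, K₂, _, _, _, _, ι₂, εY, ε, ρ₂, hE⟩ := Pool.Agent.Y949.H.t_EXT2 k₀ Y K G ι ρ hfixK
  obtain ⟨β₁, _, _, o₁, π₁, R₁, ho₁, hof₁, hπ₁, hv₁, hZ₁, hD₁, hL₁, hs₁⟩ := baseDJ hp hpk T₁ hT₁
    hin₁ hinj₁ ι ι₂ εY ε ρ ρ₂ hE hcom₁ hfixK hlin₁ J hinv hJ0 hreg₁ e₁ W₁ hWD₁ S hSe (by
      intro F hF x
      obtain ⟨j, hj, rfl⟩ := hSe F hF
      rw [AF_F]
      exact hfr₁ j hj x)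
  obtain ⟨β₂, _, _, o₂, π₂, R₂, ho₂, hof₂, hπ₂, hv₂, hZ₂, hD₂, hL₂, hs₂⟩ := baseDJ hp hpk T₂ hT₂
    hin₂ hinj₂ ι ι₂ εY ε ρ ρ₂ hE hcom₂ hfixK hlin₂ J hinv hJ0 hreg₂ e₂ W₂ hWD₂ S hSe (by
      intro F hF x
      obtain ⟨j, hj, rfl⟩ := hSe F hF
      rw [AF_F]
      exact hfr₂ j hj x)
  obtain ⟨τ, hτ0, hτ, hX1, hX2, hY1, hY2⟩ := hX β₁ β₂ o₁ o₂ ho₁ ho₂
  have hoK₁ : ∀ b, algebraMap O₁ K (o₁ b) ≠ 0 := fun b => (map_ne_zero_iff _ hinj₁).2 (ho₁ b)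
  have hoK₂ : ∀ b, algebraMap O₂ K (o₂ b) ≠ 0 := fun b => (map_ne_zero_iff _ hinj₂).2 (ho₂ b)
  have hπK₁ : ∀ b, algebraMap O₁ K (π₁ b) ≠ 0 := fun b => (map_ne_zero_iff _ hinj₁).2 (hπ₁ b)
  have hπK₂ : ∀ b, algebraMap O₂ K (π₂ b) ≠ 0 := fun b => (map_ne_zero_iff _ hinj₂).2 (hπ₂ b)
  let σ : β₁ ⊕ β₂ → K := Sum.elim (fun b => algebraMap O₁ K (o₁ b))
    (fun b => τ * algebraMap O₂ K (o₂ b))
  have hσ0 : ∀ b, σ b ≠ 0 := by
    rintro (b | b)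
    · exact hoK₁ b
    · exact mul_ne_zero hτ0 (hoK₂ b)
  have hσρ : ∀ b g, ρ g (σ b) = σ b := by
    rintro (b | b) g
    · change ρ g (algebraMap O₁ K (o₁ b)) = algebraMap O₁ K (o₁ b)
      rw [hcom₁, hof₁]
    · change ρ g (τ * algebraMap O₂ K (o₂ b)) = τ * algebraMap O₂ K (o₂ b)
      rw [map_mul, hτ, hcom₂, hof₂]
  have hh : ∀ (F : S) b, ∃ y : Y, ι y = (F : K) * σ b := by
    intro F b
    apply (hfixK _).1
    intro g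
    have h1 : ρ g (F : K) = F := (hS F F.2).2.1 g
    rw [map_mul, h1, hσρ]
  choose h hιh using hh
  suffices hmain : ∃ (I : Type) (_ : Finite I) (w : I → Y) (J' : Set I),
      ModelG (k := k₀) False ⊥ (⊤ : Subfield Y) w J' ∧
      ∀ j ∈ J', ∃ (F : S) (b : β₁ ⊕ β₂), ∀ y : Y, (ι : Y →+* K) y ∈
        CC (Sum.elim (fun b => BB K (o₁ b)) (fun b => BB K (o₂ b)) b) z 1 F →
        y ∈ Algebra.adjoin k₀ (Set.range fun i => w i / w j) by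
    obtain ⟨I', hI', w, J', hM, hd⟩ := hmain
    refine ⟨I', hI', w, J', hM, fun j hj => ?_⟩
    obtain ⟨F, b, hb⟩ := hd j hj
    obtain ⟨j₀, hj₀, hF⟩ := hSe F F.2
    refine ⟨j₀, hj₀, ?_⟩
    rcases b with b | b
    · exact Or.inl fun y hy => hb y (by
        rw [← hF]
        exact adj_CC hy)
    · exact Or.inr fun y hy => hb y (by
        rw [← hF]
        exact adj_CC hy)
  refine assemX_dom hSTEP (algebraMap k₀ Y).injective εY hE.eY (ι : Y →+* K) (Nat.card G)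
    Nat.card_pos z 1 S
    hSfin (fun F hF => (hS F hF).1) (β₁ ⊕ β₂)
    (Sum.elim (fun b => BB K (o₁ b)) (fun b => BB K (o₂ b)))
    (Sum.elim (fun b => II K T₁ (o₁ b)) (fun b => II K T₂ (o₂ b)))
    (Sum.elim (fun b => algebraMap O₁ K (π₁ b)) (fun b => algebraMap O₂ K (π₂ b)))
    σ hσ0 ?_ ?_ ?_ ?_ ?_ ?_ (fun F => Sum.elim (R₁ F) (R₂ F)) ?_ ?_ h hιh ?_ ?_ ?_
  · rintro (b | b)
    · exact hπK₁ b
    · exact hπK₂ b
  · rintro (b | b) x hx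
    · exact II_BB T₁ (o₁ b) hx
    · exact II_BB T₂ (o₂ b) hx
  · rintro (b | b)
    · exact alg_BB _ _
    · exact alg_BB _ _
  · have hI : ∀ {O : Type} [CommRing O] [IsDomain O] [Algebra k₀ O] [Algebra O K]
        (T : G →* (O ≃ₐ[k₀] O)) (s π : O), algebraMap O K π ≠ 0 →
        (∀ x : O, (∀ P ∈ F.Ram T, s ∉ P → x ∈ P) → ∃ y : O, s * x = y * π) →
        ∀ x ∈ II K T s, x / algebraMap O K π ∈ BB K s := by
      intro O _ _ _ _ T s π hπ hZ x hx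
      obtain ⟨y, n, hy, hyx⟩ := hx
      obtain ⟨w, hw⟩ := hZ y hy
      refine ⟨n + 1, w, ?_⟩
      have h1 := congrArg (algebraMap O K) hw
      rw [map_mul, map_mul, ← hyx] at h1
      rw [pow_succ]
      field_simp
      linear_combination h1
    rintro (b | b) x hx
    · exact hI T₁ (o₁ b) (π₁ b) (hπK₁ b) (hZ₁ b) x hx
    · exact hI T₂ (o₂ b) (π₂ b) (hπK₂ b) (hZ₂ b) x hx
  · rintro (b | b)
    · exact ⟨0, 0, 0, fun P _ _ => P.zero_mem, by rw [map_zero, mul_zero]⟩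
    · exact ⟨0, 0, 0, fun P _ _ => P.zero_mem, by rw [map_zero, mul_zero]⟩
  · rintro F hF F' hF' (b | b)
    · exact FS_CC ((hS F' hF').2.2 O₁)
    · exact FS_CC ((hS F' hF').2.2 O₂)
  · rintro F (b | b)
    · exact hL₁ F b
    · exact hL₂ F b
  · rintro F F' (b | b) y hy
    · exact hs₁ F F' b y hy
    · exact hs₂ F F' b y hy
  · rintro (b | b) (b' | b') hb
    · have hb' : b' ≠ b := fun h => hb (by rw [h])
      refine ⟨o₁ b', 1, fun P hP h1 => hD₁ b b' hb' P hP h1, ?_⟩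
      change _ * (algebraMap O₁ K (o₁ b') / algebraMap O₁ K (o₁ b)) = _
      rw [pow_one, mul_div_cancel₀ _ (hoK₁ b)]
    · obtain ⟨x, hx1, hx2⟩ := hX1 b'
      refine ⟨x, 1, fun P hP _ => hx2 P hP, ?_⟩
      change _ * ((τ * algebraMap O₂ K (o₂ b')) / algebraMap O₁ K (o₁ b)) = _
      rw [pow_one, mul_div_cancel₀ _ (hoK₁ b), hx1]
    · obtain ⟨x, hx1, hx2⟩ := hX2 b'
      refine ⟨x, 1, fun P hP _ => hx2 P hP, ?_⟩
      change _ * (algebraMap O₁ K (o₁ b') / (τ * algebraMap O₂ K (o₂ b))) = _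
      rw [hx1]
      have := hoK₂ b
      field_simp
    · have hb' : b' ≠ b := fun h => hb (by rw [h])
      refine ⟨o₂ b', 1, fun P hP h1 => hD₂ b b' hb' P hP h1, ?_⟩
      change _ * ((τ * algebraMap O₂ K (o₂ b')) / (τ * algebraMap O₂ K (o₂ b))) = _
      have := hoK₂ b
      field_simp
  · rintro (b | b) (b' | b') hb y hy
    · obtain ⟨n, x, hx⟩ := hy
      refine ⟨n, n, x, ?_⟩
      change _ * ((algebraMap O₁ K (o₁ b') / algebraMap O₁ K (o₁ b)) ^ n * y) = _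
      rw [← hx, div_pow]
      have := hoK₁ b
      field_simp
    · obtain ⟨n, x, hx⟩ := hY1 b' y hy
      refine ⟨n, n, x, ?_⟩
      change _ * (((τ * algebraMap O₂ K (o₂ b')) / algebraMap O₁ K (o₁ b)) ^ n * y) = _
      rw [← hx, div_pow]
      have := hoK₁ b
      field_simp
    · obtain ⟨n, x, hx⟩ := hY2 b' y hy
      refine ⟨n, n, x, ?_⟩
      change _ * ((algebraMap O₁ K (o₁ b') / (τ * algebraMap O₂ K (o₂ b))) ^ n * y) = _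
      rw [← hx, div_pow, div_pow, mul_pow]
      have := hoK₂ b
      field_simp
    · obtain ⟨n, x, hx⟩ := hy
      refine ⟨n, n, x, ?_⟩
      change _ * (((τ * algebraMap O₂ K (o₂ b')) / (τ * algebraMap O₂ K (o₂ b))) ^ n * y) = _
      rw [← hx, div_pow, mul_pow, mul_pow]
      have := hoK₂ b
      field_simp
  · intro V₀ hV₀
    obtain ⟨V', hV'⟩ := ext_val (ι : Y →+* K) V₀
    have hk : ∀ c : k₀, algebraMap k₀ K c ∈ V' := by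
      intro c
      rw [← ι.commutes]
      exact (hV' _).2 (hV₀ c)
    obtain ⟨F, hF, hFV⟩ := hSV V' hk
    rcases hV V' hk with h1 | h1
    · obtain ⟨b, hb⟩ := hv₁ V' h1
      exact ⟨⟨F, hF⟩, Sum.inl b, V', hV', CC_val V' h1 (hoK₁ b) hb hFV⟩
    · obtain ⟨b, hb⟩ := hv₂ V' h1
      exact ⟨⟨F, hF⟩, Sum.inr b, V', hV', CC_val V' h1 (hoK₂ b) hb hFV⟩

/-- **Projective models** over a function field `M` of one variable, with homogeneous coordinates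
`z`, the charts `z j ≠ 0`, `j ∈ J`, with `z j` invariant, and weights at the wildly ramified points
of all the affine models of `M`. -/
theorem projJ_dom (hSTEP : S_ASTEP2D) {k M G K Y : Type} [Field k] [PerfectField k] {p : ℕ}
    (hp : p.Prime)
    (hpk : (p : k) = 0) [Field M] [Algebra k M] [Group G] [Finite G] (ρ : G →* (M ≃ₐ[k] M))
    (hρ : Function.Injective ρ) {t : M} (ht : Transcendental k t) (htρ : ∀ g, ρ g t = t)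
    (F' : IntermediateField k M) (hF : F' = IntermediateField.adjoin k {t})
    [FiniteDimensional F' M] [Algebra.IsSeparable F' M]
    (hin : ∀ (O : Subalgebra k M) (hO : ∀ g, ∀ x ∈ O, ρ g x ∈ O) (𝔓 : Ideal O),
      IsDedekindDomain O → (∀ x : M, ∃ a b, a ∈ O ∧ b ∈ O ∧ b ≠ 0 ∧ x = a / b) →
      𝔓.IsMaximal → 𝔓 ≠ ⊥ → ¬ p ^ 2 ∣ Nat.card (F.inG (TS ρ O hO) 𝔓))
    [Field K] [Algebra M K] [Algebra k K] [IsScalarTower k M K] [Field Y] [Algebra k Y]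
    (ι : Y →ₐ[k] K) (ρK : G →* (K ≃ₐ[k] K))
    (hcom : ∀ g x, ρK g (algebraMap M K x) = algebraMap M K (ρ g x))
    (hfixK : ∀ x, (∀ g, ρK g x = x) ↔ ∃ y, ι y = x)
    {m : ℕ} {z : Fin (m + 1) → K} (J : Set (Fin (m + 1))) (hJ : J.Nonempty)
    (hinv : ∀ j ∈ J, ∀ g, ρK g (z j) = z j) (hJ0 : ∀ j ∈ J, z j ≠ 0)
    (hlin : ∀ g j, ρK g (z j) ∈ Submodule.span k (Set.range z))
    (hK : ∀ j ∈ J, ∀ x : K, ∃ a b, a ∈ Algebra.adjoin M (Set.range fun i => z i / z j) ∧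
      b ∈ Algebra.adjoin M (Set.range fun i => z i / z j) ∧ b ≠ 0 ∧ x = a / b)
    (hVJ : ∀ V : ValuationSubring K, (∀ c : k, algebraMap k K c ∈ V) →
      ∃ j ∈ J, ∀ i, z i / z j ∈ V)
    (hWD : ∀ (O : Subalgebra k M) (hO : ∀ g, ∀ x ∈ O, ρ g x ∈ O), IsDedekindDomain O →
      Algebra.FiniteType k O → (∀ x : M, ∃ a b, a ∈ O ∧ b ∈ O ∧ b ≠ 0 ∧ x = a / b) →
      (∀ j ∈ J, IsRegularRing (Algebra.adjoin O (Set.range fun i => z i / z j))) ∧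
      ∃ (e : Ideal O → ℕ) (W : Ideal O → Fin (m + 1) → ℕ),
        ∀ ρ' : G →* (K ≃ₐ[F.invS (TS ρ O hO)] K), (∀ g x, ρ' g x = ρK g x) →
        WDJ (F.invS (TS ρ O hO)) O K G ρ' (F.TA (TS ρ O hO)) z J e W) :
    ∃ (I : Type) (_ : Finite I) (w : I → Y) (J' : Set I),
      ModelG (k := k) False ⊥ (⊤ : Subfield Y) w J' ∧
      ∀ j ∈ J', ∃ j₀ ∈ J, ∃ O : Subalgebra k M, (∀ g, ∀ x ∈ O, ρ g x ∈ O) ∧ IsDedekindDomain O ∧
        Algebra.FiniteType k O ∧ (∀ x : M, ∃ a b, a ∈ O ∧ b ∈ O ∧ b ≠ 0 ∧ x = a / b) ∧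
        (t ∈ O ∨ t⁻¹ ∈ O) ∧
        ∀ y : Y, ι y ∈ Algebra.adjoin O (Set.range fun i => z i / z j₀) →
          y ∈ Algebra.adjoin k (Set.range fun i => w i / w j) := by
  classical
  have ht0 : t ≠ 0 := fun h => ht (by rw [h]; exact isAlgebraic_zero)
  have htr : Transcendental k t⁻¹ := fun h => ht (by
    have h1 := h.inv
    rwa [inv_inv] at h1)
  obtain ⟨hd1, hft1, hfr1⟩ := IC_ok ht F' hF
  obtain ⟨hd2, hft2, hfr2⟩ := IC_ok htr F' (hF.trans (adj_inv t))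
  have hG₁ : ∀ g, ∀ x ∈ IC k t, ρ g x ∈ IC k t := fun g x hx => IC_map (ρ g) (htρ g) hx
  have hG₂ : ∀ g, ∀ x ∈ IC k t⁻¹, ρ g x ∈ IC k t⁻¹ := fun g x hx =>
    IC_map (ρ g) (by rw [map_inv₀, htρ]) hx
  have h1 : ∀ x ∈ IC k t⁻¹, ∃ n : ℕ, t ^ n * x ∈ IC k t := fun x hx => IC_h1 ht0 hx
  have h2 : ∀ x ∈ IC k t, ∃ n : ℕ, t⁻¹ ^ n * x ∈ IC k t⁻¹ := fun x hx => IC_h2 ht0 hx
  obtain ⟨u, hu, huρ, hu0, huV, hA3, j, w, hw, hA4⟩ := twoAff ρ hρ (IC k t) (IC k t⁻¹) hG₁ hG₂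
    hfr2 ht0 htρ (IC_t t) (IC_t t⁻¹) h1 h2
  have hd3 : IsDedekindDomain (LS (IC k t⁻¹) u hu) := LS_ded _ u hu hu0
  have hft3 : Algebra.FiniteType k (LS (IC k t⁻¹) u hu) := LS_ft _ u hu hu0
  have hfr3 := LS_frac _ hfr2 u hu
  have hG₃ := LS_stable hG₂ hu huρ
  have hinjO : ∀ O : Subalgebra k M, Function.Injective (algebraMap O K) := fun O =>
    (algebraMap M K).injective.comp Subtype.val_injective
  have hlinO : ∀ O : Subalgebra k M, ∀ g j, ρK g (z j) ∈ Submodule.span O (Set.range z) :=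
    fun O g j => Submodule.span_subset_span k O _ (hlin g j)
  obtain ⟨hreg₁, e₁, W₁, hWD₁⟩ := hWD (IC k t) hG₁ hd1 hft1 hfr1
  obtain ⟨hreg₃, e₃, W₃, hWD₃⟩ := hWD (LS (IC k t⁻¹) u hu) hG₃ hd3 hft3 hfr3
  suffices hmain : ∃ (I : Type) (_ : Finite I) (w : I → Y) (J' : Set I),
      ModelG (k := k) False ⊥ (⊤ : Subfield Y) w J' ∧
      ∀ j ∈ J', ∃ j₀ ∈ J,
        (∀ y : Y, ι y ∈ Algebra.adjoin (IC k t) (Set.range fun i => z i / z j₀) →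
          y ∈ Algebra.adjoin k (Set.range fun i => w i / w j)) ∨
        ∀ y : Y, ι y ∈ Algebra.adjoin (LS (IC k t⁻¹) u hu) (Set.range fun i => z i / z j₀) →
          y ∈ Algebra.adjoin k (Set.range fun i => w i / w j) by
    obtain ⟨I', hI', w', J', hM, hd⟩ := hmain
    refine ⟨I', hI', w', J', hM, fun j' hj' => ?_⟩
    obtain ⟨j₀, hj₀, h | h⟩ := hd j' hj'
    · exact ⟨j₀, hj₀, IC k t, hG₁, hd1, hft1, hfr1, Or.inl (IC_t t), h⟩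
    · exact ⟨j₀, hj₀, LS (IC k t⁻¹) u hu, hG₃, hd3, hft3, hfr3, Or.inr (LS_le _ _ _ (IC_t t⁻¹)), h⟩
  refine twoBaseJ_dom hSTEP (O₁ := IC k t) (O₂ := LS (IC k t⁻¹) u hu) hp hpk (TS ρ (IC k t) hG₁)
    (TS_inj hρ hG₁ hfr1) (TS ρ (LS (IC k t⁻¹) u hu) hG₃) (TS_inj hρ hG₃ hfr3)
    (fun 𝔓 h𝔓 h𝔓0 => hin _ hG₁ 𝔓 hd1 hfr1 h𝔓 h𝔓0)
    (fun 𝔓 h𝔓 h𝔓0 => hin _ hG₃ 𝔓 hd3 hfr3 h𝔓 h𝔓0) (hinjO _) (hinjO _) ι ρK
    (fun g o => hcom g o) (fun g o => hcom g o) hfixK J hJ hinv hJ0 (hlinO _) (hlinO _)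
    hreg₁ hreg₃ (fun j hj => frac_sub _ hfr1 (hK j hj)) (fun j hj => frac_sub _ hfr3 (hK j hj))
    e₁ W₁ hWD₁ e₃ W₃ hWD₃ hVJ ?_ ?_
  · intro β₁ β₂ _ _ o₁ o₂ ho₁ ho₂
    exact baseX (IC k t) (IC k t⁻¹) ρ hG₁ hG₂ ht0 htρ (IC_t t) (IC_t t⁻¹) h1 h2 hu huρ hu0 hA3 hw
      hA4 ρK hcom β₁ β₂ o₁ o₂ ho₁ ho₂
  · intro V hV
    exact baseV hu hu0 huV V hV

end Pool.Agent.Zk15
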