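import Pool.Agent.Zk15.Aff1

/-!
# Affine weighted blowups: the graded algebras at the wild primes
-/

set_option autoImplicit false
set_option linter.unusedSectionVars false
set_option linter.overlappingInstances false

namespace Pool.Agent.Zk15

open Pool.Agent.Y223.G Pool.Agent.Y858.H Pool.Agent.Y987.H
open Pool.Agent.Y38.H.Rwb (R_s R_e R_o R_m R_low R_gr R_epow R_c R_coeff R_ft)
open Pool.Agent.R383.TM

section dl

variable {k K : Type} [CommRing k] [Field K] [Algebra k K]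

theorem wct_dl {σ : K ≃ₐ[k] K} {t : K} (ht : t ≠ 0) (hσ : σ t = t) {R₀ R : Subalgebra k (LP K)}
    (hx : hm 0 t ∈ R₀) (hR : R = loc R₀ (hm 0 t) hx) {D : ℕ}
    (hδ0 : ∀ f ∈ R₀, hm D 1 * (tl σ f - f) ∈ R₀) {𝔄 : Set K} {𝔅 : Set K} (hAB : 𝔄 ⊆ 𝔅)
    (h𝔄 : ∀ a ∈ 𝔄, hm 0 a ∈ R₀)
    (hnd : ∀ Q : Ideal R₀, Q.IsPrime → (∀ a ∈ 𝔄, ∃ h : hm 0 a ∈ R₀, (⟨_, h⟩ : R₀) ∈ Q) →
      (∃ (n : ℕ) (η : K) (he : hm n η ∈ R₀), 0 < n ∧ (⟨hm n η, he⟩ : R₀) ∉ Q) →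
      ∃ b ∈ R₀, ∃ h : hm D 1 * (tl σ b - b) ∈ R₀, (⟨_, h⟩ : R₀) ∉ Q) :
    (∀ f ∈ R, hm D 1 * (tl σ f - f) ∈ R) ∧
    ∀ Q : Ideal R, Q.IsPrime → (∀ a ∈ 𝔅, ∃ h : hm 0 a ∈ R, (⟨_, h⟩ : R) ∈ Q) →
      (∃ (n : ℕ) (η : K) (he : hm n η ∈ R), 0 < n ∧ (⟨hm n η, he⟩ : R) ∉ Q) →
      ∃ b ∈ R, ∃ h : hm D 1 * (tl σ b - b) ∈ R, (⟨_, h⟩ : R) ∉ Q := by
  subst hR
  exact ⟨loc_delta hx hσ hδ0, fun Q hQ h1 h2 =>
    loc_nd ht hx h𝔄 hnd Q hQ (fun a ha => h1 a (hAB ha)) h2⟩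

end dl

section wct

variable {k O K G : Type} [CommRing k] [CommRing O] [IsDomain O] [Field K]
    [Group G] [Algebra k O] [Algebra O K] [Algebra k K] [IsScalarTower k O K]
    {ρ : G →* (K ≃ₐ[k] K)} {T : G →* (O ≃ₐ[k] O)} {s : k}
    {Tb : G →* (OL O (K := K) s ≃ₐ[k] OL O (K := K) s)}

lemma tb_o (hcom : ∀ g o, ρ g (algebraMap O K o) = algebraMap O K (T g o))
    (hcomL : ∀ g (o : OL O (K := K) s), ρ g (o : K) = (Tb g o : OL O (K := K) s))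
    (g : G) (o : O) : Tb g ⟨algebraMap O K o, mem_OLb s o⟩ =
      (⟨algebraMap O K (T g o), mem_OLb s _⟩ : OL O (K := K) s) := by
  apply Subtype.ext
  change ((Tb g ⟨algebraMap O K o, mem_OLb s o⟩ : OL O (K := K) s) : K) = algebraMap O K (T g o)
  rw [← hcom, ← hcomL]

lemma tb_s (hcom : ∀ g o, ρ g (algebraMap O K o) = algebraMap O K (T g o))
    (hcomL : ∀ g (o : OL O (K := K) s), ρ g (o : K) = (Tb g o : OL O (K := K) s))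
    (g : G) (o : O) : Tb g ⟨algebraMap O K o, mem_OLb s o⟩ - ⟨algebraMap O K o, mem_OLb s o⟩ =
      (⟨algebraMap O K (T g o - o), mem_OLb s _⟩ : OL O (K := K) s) := by
  rw [tb_o hcom hcomL]
  apply Subtype.ext
  change algebraMap O K (T g o) - algebraMap O K o = algebraMap O K (T g o - o)
  rw [map_sub]

/-- Congruences for the action over the localization. -/
theorem dv_loc (hs : algebraMap k K s ≠ 0)
    (hcom : ∀ g o, ρ g (algebraMap O K o) = algebraMap O K (T g o))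
    (hcomL : ∀ g (o : OL O (K := K) s), ρ g (o : K) = (Tb g o : OL O (K := K) s))
    {𝔔 : Ideal (OL O (K := K) s)} {g : G} {n₀ : ℕ}
    (hdv : ∀ o, T g o - o ∈ ctr s 𝔔 ^ n₀) : ∀ o, Tb g o - o ∈ 𝔔 ^ n₀ := by
  rintro ⟨x, n, y, hxy⟩
  have hsu : (⟨(algebraMap k K s)⁻¹, Pool.Agent.Y177.G.inv_mem_OL s hs⟩ :
      OL O (K := K) s) * algebraMap k (OL O (K := K) s) s = 1 := by
    apply Subtype.ext
    exact inv_mul_cancel₀ hs
  have hx : algebraMap k (OL O (K := K) s) s ^ n * (⟨x, n, y, hxy⟩ : OL O (K := K) s) =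
      ⟨algebraMap O K y, mem_OLb s y⟩ := by
    apply Subtype.ext
    exact hxy
  have h1 : algebraMap k (OL O (K := K) s) s ^ n *
      (Tb g (⟨x, n, y, hxy⟩ : OL O (K := K) s) - ⟨x, n, y, hxy⟩) =
      ⟨algebraMap O K (T g y - y), mem_OLb s _⟩ := by
    rw [← tb_s hcom hcomL, ← hx, map_mul, map_pow, AlgEquiv.commutes, mul_sub]
  have h2 : Tb g (⟨x, n, y, hxy⟩ : OL O (K := K) s) - ⟨x, n, y, hxy⟩ =
      (⟨(algebraMap k K s)⁻¹, Pool.Agent.Y177.G.inv_mem_OL s hs⟩ :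
      OL O (K := K) s) ^ n * (algebraMap k (OL O (K := K) s) s ^ n *
      (Tb g (⟨x, n, y, hxy⟩ : OL O (K := K) s) - ⟨x, n, y, hxy⟩)) := by
    rw [← mul_assoc, ← mul_pow, hsu, one_pow, one_mul]
  rw [h2, h1]
  exact Ideal.mul_mem_left _ _ (Pool.Agent.R383.TM.ctr_pow _ (hdv y))

end wct

/-- **The graded algebras at the wild primes.** -/
theorem wct0 {k O K G : Type} [CommRing k] [CommRing O] [IsDomain O]
    [IsDedekindDomain O] [Field K] [Group G] [Algebra k O] [Algebra O K] [Algebra k K]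
    [IsScalarTower k O K] {ρ : G →* (K ≃ₐ[k] K)} {T : G →* (O ≃ₐ[k] O)} {s : k}
    [IsDedekindDomain (OL O (K := K) s)]
    {Tb : G →* (OL O (K := K) s ≃ₐ[k] OL O (K := K) s)}
    (hs : algebraMap k K s ≠ 0) (hinj : Function.Injective (algebraMap O K))
    (hcom : ∀ g o, ρ g (algebraMap O K o) = algebraMap O K (T g o))
    {m : ℕ} {z : Fin (m + 1) → K} {e : Ideal O → ℕ} {W : Ideal O → Fin (m + 1) → ℕ}
    (hD : WD0 k O K G ρ T z e W) {N : Type} {𝔔 : N → Ideal (OL O (K := K) s)} {p l : N → ℕ}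
    {τ : N → G} {π : OL O (K := K) s} (hL : LocE k (OL O (K := K) s) K G ρ Tb 𝔔 p l τ π)
    (hWe : ∀ i, ∃ g, g ≠ 1 ∧ Wild T g (ctr s (𝔔 i)))
    (hτW : ∀ i, τ i ≠ 1 ∧ Wild T (τ i) (ctr s (𝔔 i)))
    {C : Subalgebra (OL O (K := K) s) K} {R : N → Subalgebra k (LP K)}
    (hst : ∀ g, ∀ c ∈ C, ρ g c ∈ C) (hftC : Algebra.FiniteType (OL O (K := K) s) C)
    (hrgC : IsRegularRing C) (hc0 : ∀ i, ∀ c ∈ C, hm 0 c ∈ R i)
    (hd0 : ∀ i (d : ℤ) x, hm d x ∈ R i → x ∈ C) (hgr : ∀ i, Gr (R i))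
    (hss : ∀ i, hm (-1) 1 ∈ R i) (hft : ∀ i, Algebra.FiniteType k (R i))
    (hup : ∀ i, ∀ a ∈ 𝔔 i, hm 1 (algebraMap (OL O (K := K) s) K a) ∈ R i)
    (hep : ∀ i (n : ℕ), ∀ a ∈ 𝔔 i ^ n,
      hm ((e (ctr s (𝔔 i)) * n : ℕ) : ℤ) (algebraMap (OL O (K := K) s) K a) ∈ R i)
    (hRl : ∀ i, R i = loc (WR k (ctr s (𝔔 i)) (e (ctr s (𝔔 i))) (W (ctr s (𝔔 i))) z 0)
      (hm 0 (algebraMap k K s)) (WR_algk s)) :
    WCt k (OL O (K := K) s) K G ρ Tb 𝔔 τ π C R := by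
  have hM : ∀ i, (ctr s (𝔔 i)).IsMaximal := fun i => ctr_maximal hinj (hL.mx i) (hL.ne i)
  refine ⟨hst, hftC, hrgC, hc0, hd0, hgr, hss, hft, ?_, hup, ?_, ?_⟩
  · intro i
    rw [hRl i]
    exact regular_loc (hD.rg _ (hM i) (hWe i)) (WR_algk s) (isUnit_hm hs)
  · intro g i j hij
    have hij' : ∀ o, o ∈ ctr s (𝔔 i) ↔ T g o ∈ ctr s (𝔔 j) := by
      intro o
      rw [mem_ctr, mem_ctr, hij, tb_o hcom hL.com]
    rw [hRl i, hRl j]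
    exact loc_tl (WR_algk s) (WR_algk s) ((ρ g).commutes s) (hD.eq _ (hM i) (hWe i) g _ hij')
  · intro i
    obtain ⟨hne, hwild⟩ := hτW i
    obtain ⟨l', D, hD0, hDl, hdv, hδ0, hnd0⟩ := hD.dl _ (hM i) (τ i) hne hwild
    have hdv' := dv_loc hs hcom hL.com hdv
    have h𝔄 : ∀ a ∈ (algebraMap O K) '' (ctr s (𝔔 i) : Set O),
        hm 0 a ∈ WR k (ctr s (𝔔 i)) (e (ctr s (𝔔 i))) (W (ctr s (𝔔 i))) z 0 := by
      rintro _ ⟨a, -, rfl⟩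
      exact WR_o a
    have hAB : (algebraMap O K) '' (ctr s (𝔔 i) : Set O) ⊆
        (algebraMap (OL O (K := K) s) K) '' (𝔔 i : Set (OL O (K := K) s)) := by
      rintro _ ⟨a, ha, rfl⟩
      exact ⟨⟨algebraMap O K a, mem_OLb s a⟩, mem_ctr.1 ha, rfl⟩
    obtain ⟨hδ, hnd⟩ := wct_dl hs ((ρ (τ i)).commutes s) (WR_algk s) (hRl i) hδ0 hAB h𝔄
      (fun Q hQ h1 h2 => hnd0 Q hQ (fun a ha => h1 _ ⟨a, ha, rfl⟩) h2)
    refine ⟨D, hD0, hδ, fun w hw => ?_, fun Q hQ h1 h2 => hnd Q hQ ?_ h2⟩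
    · refine low_mem (hss i) (hep i l' _ ?_) (by exact_mod_cast hDl)
      refine cancel_unif (hL.mx i) (hL.ne i) ?_ (hL.pq i).1 (hL.pq i).2
      have e1 : (w - 1) * π = Tb (τ i) π - π := by
        rw [hw]
        ring
      rw [e1]
      exact hdv' π
    · rintro _ ⟨a, ha, rfl⟩
      exact h1 a ha

end Pool.Agent.Zk15
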