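import Pool.Agent.Zk15.Aff2

/-!
# Affine weighted blowups: the charts of the quotient
-/

set_option autoImplicit false
set_option linter.unusedSectionVars false
set_option linter.overlappingInstances false

namespace Pool.Agent.Zk15

open Pool.Agent.Y223.G Pool.Agent.Y858.H Pool.Agent.Y987.H
open Pool.Agent.Y38.H.Rwb (R_s R_e R_o R_m R_low R_gr R_epow R_c R_coeff R_ft)
open Pool.Agent.R383.TM

section st

variable {k O K G : Type} [CommRing k] [CommRing O] [IsDomain O] [Field K]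
    [Group G] [Algebra k O] [Algebra O K] [Algebra k K] [IsScalarTower k O K]
    {ρ : G →* (K ≃ₐ[k] K)} {s : k}
    {Tb : G →* (OL O (K := K) s ≃ₐ[k] OL O (K := K) s)} {m : ℕ} {z : Fin (m + 1) → K}

lemma span_le_OL {x : K} (hx : x ∈ Submodule.span O (Set.range z)) :
    x ∈ Algebra.adjoin (OL O (K := K) s) (Set.range z) := by
  refine adjoin_le_OL ?_
  exact Algebra.span_le_adjoin O (Set.range z) hx

lemma st0 (hcomL : ∀ g (o : OL O (K := K) s), ρ g (o : K) = (Tb g o : OL O (K := K) s))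
    (hlin : ∀ g j, ρ g (z j) ∈ Submodule.span O (Set.range z)) (g : G) :
    ∀ c ∈ CG (OL O (K := K) s) (fun _ : Unit => z) 1 (fun _ => 1),
      ρ g c ∈ CG (OL O (K := K) s) (fun _ : Unit => z) 1 (fun _ => 1) := by
  rw [CG_one]
  intro c hc
  induction hc using Algebra.adjoin_induction with
  | mem x hx =>
    obtain ⟨j, rfl⟩ := hx
    exact span_le_OL (hlin g j)
  | algebraMap r =>
    have h1 : ρ g (algebraMap (OL O (K := K) s) K r) = algebraMap (OL O (K := K) s) K (Tb g r) :=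
      hcomL g r
    rw [h1]
    exact Subalgebra.algebraMap_mem _ _
  | add x y _ _ hx hy =>
    rw [map_add]
    exact add_mem hx hy
  | mul x y _ _ hx hy =>
    rw [map_mul]
    exact mul_mem hx hy

lemma ft0 : Algebra.FiniteType (OL O (K := K) s)
    (CG (OL O (K := K) s) (fun _ : Unit => z) 1 (fun _ => 1)) := by
  rw [← Subalgebra.fg_iff_finiteType, CG_one, Subalgebra.fg_def]
  exact ⟨_, Set.finite_range z, rfl⟩

end st

/-- **The charts are regular outside the vertex.** -/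
theorem f_CH0 (hCH : S_CHW) (hRWB : S_RWB)
    (k O Y Y₂ K K₂ G : Type) [CommRing k] [IsDomain k] [IsNoetherianRing k]
    [CommRing O] [IsDomain O] [IsDedekindDomain O] [Field Y] [Field Y₂] [Field K]
    [Field K₂] [Group G] [Finite G] [Algebra k O] [Algebra O K]
    [Algebra k K] [IsScalarTower k O K] [Algebra k Y] [Algebra k Y₂] [Algebra k K₂]
    (ι : Y →ₐ[k] K) (ι₂ : Y₂ →ₐ[k] K₂) (εY : LP Y →ₐ[k] Y₂) (ε : LP K →ₐ[k] K₂)
    (ρ : G →* (K ≃ₐ[k] K)) (ρ₂ : G →* (K₂ ≃ₐ[k] K₂)) (hE : Ext2M ι ι₂ εY ε ρ ρ₂)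
    (T : G →* (O ≃ₐ[k] O)) (m : ℕ) (z : Fin (m + 1) → K)
    (hH : GF k O K G ρ T) (hz1 : z 0 = 1)
    (hlin0 : ∀ g j, ρ g (z j) ∈ Submodule.span O (Set.range z))
    (hreg0 : IsRegularRing (Algebra.adjoin O (Set.range z))) (e : Ideal O → ℕ)
    (W : Ideal O → Fin (m + 1) → ℕ) (hD : WD0 k O K G ρ T z e W)
    (s : k) (_ : IsDedekindDomain (OL O (K := K) s))
    (Tb : G →* (OL O (K := K) s ≃ₐ[k] OL O (K := K) s)) (N : Type) [Finite N]
    (𝔔 : N → Ideal (OL O (K := K) s)) (p l : N → ℕ) (τ : N → G) (π : OL O (K := K) s)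
    (hs : s ≠ 0) (hL : LocE k (OL O (K := K) s) K G ρ Tb 𝔔 p l τ π)
    (hin : ∀ i, ∃ g, g ≠ 1 ∧ (∀ x, Tb g x - x ∈ 𝔔 i) ∧ ∀ x ∈ 𝔔 i, Tb g x - x ∈ 𝔔 i ^ 2) :
    ∃ (e : N → ℕ) (W : N → Unit → Fin (m + 1) → ℕ), (∀ i, 0 < e i) ∧
      Pool.Agent.Y223.G.Ch (res ι₂ (GRW O ε (fun _ => z) s 𝔔 e W (π : K) 1
        (fun _ : Unit => (1 : K)))) := by
  have hsK : algebraMap k K s ≠ 0 := fun h => hs (hH.injk (by rw [h, map_zero]))
  have hNO : IsNoetherianRing (OL O (K := K) s) := inferInstance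
  have hM : ∀ i, (ctr s (𝔔 i)).IsMaximal := fun i => ctr_maximal hH.inj (hL.mx i) (hL.ne i)
  have hTbs := tb_s (s := s) (Tb := Tb) hH.com hL.com
  -- the wild inertia group
  have hWg : ∀ i g, (∀ x, Tb g x - x ∈ 𝔔 i) → (∀ x ∈ 𝔔 i, Tb g x - x ∈ 𝔔 i ^ 2) →
      Wild T g (ctr s (𝔔 i)) := by
    intro i g hg hg2
    refine ⟨fun o => ?_, fun o ho => ?_⟩
    · rw [mem_ctr, ← hTbs]
      exact hg _
    · refine ctr_sq hH.inj hsK (hL.mx i) (hL.ne i) ?_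
      rw [← hTbs]
      exact hg2 _ (mem_ctr.1 ho)
  have hWe : ∀ i, ∃ g, g ≠ 1 ∧ Wild T g (ctr s (𝔔 i)) := by
    intro i
    obtain ⟨g, hg1, hg, hg2⟩ := hin i
    exact ⟨g, hg1, hWg i g hg hg2⟩
  have hτW : ∀ i, τ i ≠ 1 ∧ Wild T (τ i) (ctr s (𝔔 i)) := by
    intro i
    obtain ⟨g, hg1, hg, hg2⟩ := hin i
    obtain ⟨hw, hτp, hz⟩ := hL.ty i
    have h1 : g ∈ Subgroup.zpowers (τ i) := by
      refine hz g hg fun w hw => ?_
      have h2 : (w - 1) * π ∈ 𝔔 i ^ (1 + 1) := by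
        have e1 : (w - 1) * π = Tb g π - π := by
          rw [hw]
          ring
        rw [e1]
        exact hg2 _ (hL.pq i).1
      have h3 := cancel_unif (hL.mx i) (hL.ne i) h2 (hL.pq i).1 (hL.pq i).2
      rwa [pow_one] at h3
    refine ⟨fun h => hg1 ?_, ?_⟩
    · rw [h, Subgroup.zpowers_one_eq_bot, Subgroup.mem_bot] at h1
      exact h1
    · have h2 : Subgroup.zpowers g ≤ wildSub T (ctr s (𝔔 i)) := by
        rw [Subgroup.zpowers_le]
        exact hWg i g hg hg2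
      exact h2 (zpowers_prime hw.pp hτp h1 hg1)
  refine ⟨fun i => e (ctr s (𝔔 i)), fun i _ => W (ctr s (𝔔 i)), fun i => hD.e0 _, ?_⟩
  have hb := fun i => hRWB k (OL O (K := K) s) K Unit (𝔔 i) (e (ctr s (𝔔 i))) (hD.e0 _) m
    (fun _ => W (ctr s (𝔔 i))) (fun _ => z) 1 (fun _ => 1)
  have hRW : ∀ i, RW k (𝔔 i) (e (ctr s (𝔔 i))) (fun _ : Unit => W (ctr s (𝔔 i))) (fun _ => z) 1
      (fun _ => 1) =
      loc (WR k (ctr s (𝔔 i)) (e (ctr s (𝔔 i))) (W (ctr s (𝔔 i))) z 0) (hm 0 (algebraMap k K s))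
        (WR_algk s) := fun i =>
    RW_eq_loc hsK hz1 (fun a ha => mem_ctr.1 ha) (fun b hb => ctr_rep b hb)
  unfold GRW
  generalize hR : (fun i => RW k (𝔔 i) (e (ctr s (𝔔 i))) (fun _ : Unit => W (ctr s (𝔔 i)))
    (fun _ => z) 1 (fun _ => 1)) = R
  have hRi : ∀ i, RW k (𝔔 i) (e (ctr s (𝔔 i))) (fun _ : Unit => W (ctr s (𝔔 i)))
    (fun _ => z) 1 (fun _ => 1) = R i := fun i => congrFun hR i
  have hft : ∀ i, Algebra.FiniteType k (R i) := fun i => by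
    rw [← hRi i]
    exact (hb i).2.2.2.2.2.2 hL.ft hNO
  simp only [hRi] at hb hRW
  have hst := st0 (z := z) (Tb := Tb) hL.com hlin0
  have hftC : Algebra.FiniteType (OL O (K := K) s)
    (CG (OL O (K := K) s) (fun _ : Unit => z) 1 (fun _ => 1)) := ft0
  have hrgC : IsRegularRing (CG (OL O (K := K) s) (fun _ : Unit => z) 1 (fun _ => 1)) :=
    reg_Cs hsK hreg0
  have hW : WCt k (OL O (K := K) s) K G ρ Tb 𝔔 τ π
      (CG (OL O (K := K) s) (fun _ : Unit => z) 1 (fun _ => 1)) R :=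
    wct0 hsK hH.inj hH.com hD hL hWe hτW hst hftC hrgC (fun i => (hb i).1)
      (fun i => (hb i).2.1) (fun i => (hb i).2.2.1) (fun i => (hb i).2.2.2.1)
      hft (fun i => (hb i).2.2.2.2.1)
      (fun i => (hb i).2.2.2.2.2.1) hRW
  exact hCH k (OL O (K := K) s) K K₂ G ε hE.eK ρ ρ₂ hE.act Tb N 𝔔 p l τ π hL _ _ hW Y₂ ι₂ hE.fix

end Pool.Agent.Zk15
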