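import Pool.Agent.Zk15.Aff7

/-!
# The local charts over one base, over the constants, in the charts of invariant coordinates
-/

set_option autoImplicit false
set_option linter.unusedVariables false
set_option linter.unusedSectionVars false
set_option linter.overlappingInstances false

namespace Pool.Agent.Zk15

open Pool.Agent.Y223.G

/-- **The local charts over one base, over the constants.** -/
theorem baseDJ {k₀ O Y Y₂ K K₂ G : Type} [Field k₀] [PerfectField k₀] {p : ℕ} (hp : p.Prime)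
    (hpk : (p : k₀) = 0) [CommRing O] [IsDomain O] [IsDedekindDomain O] [Algebra k₀ O]
    [Algebra.FiniteType k₀ O] [Field Y] [Field Y₂] [Field K] [Field K₂]
    [Group G] [Finite G] [Algebra O K] [Algebra k₀ K]
    [IsScalarTower k₀ O K] [Algebra k₀ Y] [Algebra k₀ Y₂] [Algebra k₀ K₂]
    (T : G →* (O ≃ₐ[k₀] O)) (hT : Function.Injective T)
    (hin : ∀ 𝔓 : Ideal O, 𝔓.IsMaximal → 𝔓 ≠ ⊥ → ¬ p ^ 2 ∣ Nat.card (F.inG T 𝔓))
    (hinj : Function.Injective (algebraMap O K)) (ι : Y →ₐ[k₀] K)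
    (ι₂ : Y₂ →ₐ[k₀] K₂) (εY : LP Y →ₐ[k₀] Y₂) (ε : LP K →ₐ[k₀] K₂) (ρ : G →* (K ≃ₐ[k₀] K))
    (ρ₂ : G →* (K₂ ≃ₐ[k₀] K₂)) (hE : Ext2M ι ι₂ εY ε ρ ρ₂)
    (hcom : ∀ g o, ρ g (algebraMap O K o) = algebraMap O K (T g o))
    (hfixK : ∀ x, (∀ g, ρ g x = x) ↔ ∃ y, ι y = x)
    {m : ℕ} {z : Fin (m + 1) → K}
    (hlin0 : ∀ g j, ρ g (z j) ∈ Submodule.span O (Set.range z)) (J : Set (Fin (m + 1)))
    (hinv : ∀ j ∈ J, ∀ g, ρ g (z j) = z j) (hJ0 : ∀ j ∈ J, z j ≠ 0)
    (hreg0 : ∀ j ∈ J, IsRegularRing (Algebra.adjoin O (Set.range fun i => z i / z j)))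
    (e : Ideal O → ℕ) (W : Ideal O → Fin (m + 1) → ℕ)
    (hWD : ∀ ρ' : G →* (K ≃ₐ[F.invS T] K), (∀ g y, ρ' g y = ρ g y) →
      WDJ (F.invS T) O K G ρ' (F.TA T) z J e W)
    (S : Set K) (hSJ : ∀ F ∈ S, ∃ j ∈ J, z j = F)
    (hq : ∀ F ∈ S, ∀ x : K, ∃ c c', c ∈ AF O z 1 F ∧ c' ∈ AF O z 1 F ∧ c' ≠ 0 ∧ x = c / c') :
    ∃ (β : Type) (_ : Finite β) (_ : Nonempty β) (o π : β → O)
      (R : S → β → Subalgebra k₀ (LP Y₂)), (∀ b, o b ≠ 0) ∧ (∀ b g, T g (o b) = o b) ∧
      (∀ b, π b ≠ 0) ∧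
      (∀ V : ValuationSubring K, (∀ x : O, algebraMap O K x ∈ V) →
        ∃ b, (algebraMap O K (o b))⁻¹ ∈ V) ∧
      (∀ b, ∀ x : O, (∀ P ∈ F.Ram T, o b ∉ P → x ∈ P) → ∃ y : O, o b * x = y * π b) ∧
      (∀ b b', b' ≠ b → ∀ P ∈ F.Ram T, o b ∉ P → o b' ∈ P) ∧
      (∀ (F : S) b, LCh εY ι (CC (BB K (o b)) z 1 (F : K) : Set K) (II K T (o b))
        (algebraMap O K (π b)) (Nat.card G) (R F b)) ∧
      ∀ (F F' : S) b y, ι y = (F' : K) / (F : K) → hm 0 (εY (hm 0 y)) ∈ R F b ∧
        ∀ f ∈ R F' b, ∃ n : ℕ, hm 0 (εY (hm 0 y)) ^ n * f ∈ R F b := by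
  classical
  have hft : Algebra.FiniteType k₀ (F.invS T) := F.invS_ft T
  have hNo : IsNoetherianRing (F.invS T) := Algebra.FiniteType.isNoetherianRing k₀ (F.invS T)
  have hAK : ∀ a : F.invS T, algebraMap (F.invS T) K a = algebraMap O K (a : O) := fun a => rfl
  let ρ' : G →* (K ≃ₐ[F.invS T] K) :=
    { toFun := fun g => AlgEquiv.ofRingEquiv (f := (ρ g : K ≃ₐ[k₀] K).toRingEquiv) (by
        intro a
        change ρ g (algebraMap O K (a : O)) = algebraMap O K (a : O)
        rw [hcom, a.2 g])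
      map_one' := by
        ext y
        change ρ 1 y = y
        rw [map_one]
        rfl
      map_mul' := fun g h => by
        ext y
        change ρ (g * h) y = ρ g (ρ h y)
        rw [map_mul]
        rfl }
  have hρ' : ∀ g y, ρ' g y = ρ g y := fun g y => rfl
  have hGF : GF (F.invS T) O K G ρ' (F.TA T) := F.gf_of hT hp hpk hin hinj ρ' hcom
  -- the algebra structure of `Y`
  have hιinj : Function.Injective ι := ι.toRingHom.injective
  let f : F.invS T →+* Y := ((AlgEquiv.ofInjectiveField ι).symm : ι.range →+* Y).comp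
    ((algebraMap (F.invS T) K).codRestrict ι.range.toSubring (fun a =>
      (hfixK _).1 fun g => by
        change ρ g (algebraMap O K (a : O)) = algebraMap O K (a : O)
        rw [hcom, a.2 g]))
  have hf : ∀ a, ι (f a) = algebraMap (F.invS T) K a := by
    intro a
    have h1 : ∀ w : ι.range, ι ((AlgEquiv.ofInjectiveField ι).symm w) = (w : K) := by
      intro w
      obtain ⟨y, rfl⟩ := (AlgEquiv.ofInjectiveField ι).surjective w
      rw [AlgEquiv.symm_apply_apply]
      rfl
    exact h1 _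
  let algY : Algebra (F.invS T) Y := f.toAlgebra
  have hfa : ∀ a, algebraMap (F.invS T) Y a = f a := fun a => rfl
  have htow : IsScalarTower k₀ (F.invS T) Y := IsScalarTower.of_algebraMap_eq fun c => by
    apply hιinj
    rw [hfa, hf, ι.commutes, hAK]
    exact IsScalarTower.algebraMap_apply k₀ O K c
  let ι' : Y →ₐ[F.invS T] K := { (ι : Y →+* K) with commutes' := fun a => hf a }
  obtain ⟨aY, tY, aK, ι₂', εY', ε', ρ₂', hE', hε⟩ := upExt hE ι' (fun y => rfl) ρ' hρ'
  obtain ⟨β, hβ, hβ', o, π, R, ho, hπ0, hspan, hZ, hDd, hL, hsame⟩ := baseFJ ι' ι₂' εY' ε' ρ' ρ₂'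
    hE' (F.TA T) m z hGF hlin0 J hinv hJ0 hreg0 hfixK e W (hWD ρ' hρ') S hSJ hq
  refine ⟨β, hβ, hβ', fun b => (o b : O), π, fun F b => dnS k₀ (R F b), fun b h => ho b
    (Subtype.ext h), fun b g => (o b).2 g, hπ0, ?_, hZ, hDd, ?_, ?_⟩
  · intro V hV
    by_contra hcon
    push Not at hcon
    -- all the elements `o b` are in the maximal ideal
    have h1 : (1 : F.invS T) ∈ Ideal.span (Set.range o) := by
      rw [hspan]
      trivial
    have h2 : ∀ a ∈ Ideal.span (Set.range o), V.valuation (algebraMap O K (a : O)) < 1 := by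
      intro a ha
      induction ha using Submodule.span_induction with
      | mem x hx =>
        obtain ⟨b, rfl⟩ := hx
        have h3 := hcon b
        rw [← V.valuation_le_one_iff, not_le, map_inv₀] at h3
        have h4 : V.valuation (algebraMap O K (o b : O)) ≠ 0 := by
          intro h0
          rw [h0, inv_zero] at h3
          exact not_lt.2 zero_le h3
        exact (one_lt_inv₀ (zero_lt_iff.2 h4)).1 h3
      | zero =>
        change V.valuation (algebraMap O K 0) < 1
        rw [map_zero, map_zero]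
        exact zero_lt_one
      | add x y _ _ hx hy =>
        change V.valuation (algebraMap O K ((x : O) + (y : O))) < 1
        rw [map_add]
        exact Valuation.map_add_lt _ hx hy
      | smul c x _ hx =>
        change V.valuation (algebraMap O K ((c : O) * (x : O))) < 1
        rw [map_mul, map_mul]
        have h5 : V.valuation (algebraMap O K (c : O)) ≤ 1 := (V.valuation_le_one_iff _).2 (hV _)
        calc V.valuation (algebraMap O K (c : O)) * V.valuation (algebraMap O K (x : O))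
            ≤ 1 * V.valuation (algebraMap O K (x : O)) := by gcongr
          _ < 1 := by rw [one_mul]; exact hx
    have h3 := h2 1 h1
    change V.valuation (algebraMap O K 1) < 1 at h3
    rw [map_one, map_one] at h3
    exact lt_irrefl _ h3
  · intro F b
    have h1 := (hL F b).dn εY hε
    have h2 : (AF (OL O (K := K) (o b)) z 1 (F : K) : Set K) = CC (BB K (o b : O)) z 1 (F : K) := by
      refine AF_CC _ ?_ _
      intro x
      constructor
      · intro hx
        exact ⟨⟨x, hx⟩, rfl⟩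
      · rintro ⟨⟨y, hy⟩, rfl⟩
        exact hy
    rw [h2] at h1
    exact h1
  · intro F F' b y hy
    have h1 := hsame F F' b y hy
    rw [hε] at h1
    exact h1

end Pool.Agent.Zk15
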