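import Pool.Agent.Zk15.Fp8

/-!
# The model over two bases
-/

set_option autoImplicit false
set_option linter.unusedVariables false
set_option linter.unusedSectionVars false
set_option linter.overlappingInstances false

namespace Pool.Agent.Zk15

open Pool.Agent.Y223.G
open Pool.Agent.R383.TM (WD)
open Pool.Agent.Y515.G (ext_val int_mem)

section

variable {k₀ O K G : Type} [Field k₀] [CommRing O] [IsDomain O] [Field K] [Group G]
  [Algebra k₀ O] [Algebra O K] [Algebra k₀ K] [IsScalarTower k₀ O K]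
  {m : ℕ} {z : Fin (m + 1) → K} {d : ℕ}

lemma alg_BB (s x : O) : algebraMap O K x ∈ BB K s := ⟨0, x, by rw [pow_zero, one_mul]⟩

lemma BB_alg {s : O} {x : K} (h : ∃ (n : ℕ) (y : O), algebraMap O K s ^ n * x = algebraMap O K y) :
    x ∈ BB K s := h

lemma II_BB (T : G →* (O ≃ₐ[k₀] O)) (s : O) {x : K} (hx : x ∈ II K T s) : x ∈ BB K s := by
  obtain ⟨y, n, -, h⟩ := hx
  exact ⟨n, y, h⟩

lemma FS_CC {s : O} {F F' : K} (hF' : F' ∈ FS O z d) : F' / F ∈ CC (BB K s) z d F := by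
  unfold FS at hF'
  induction hF' using Submodule.span_induction with
  | mem x hx => exact MN_CC hx
  | zero => rw [zero_div]; exact zero_mem _
  | add x y _ _ hx hy => rw [add_div]; exact add_mem hx hy
  | smul r x _ hx =>
    rw [Algebra.smul_def, mul_div_assoc]
    exact mul_mem (B_CC (alg_BB s r)) hx

lemma CC_val (V : ValuationSubring K) {s : O} (hO : ∀ x : O, algebraMap O K x ∈ V)
    (hs0 : algebraMap O K s ≠ 0) (hs : (algebraMap O K s)⁻¹ ∈ V) {F : K}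
    (hF : ∀ x ∈ MN z d, x / F ∈ V) : ∀ c ∈ CC (BB K s) z d F, c ∈ V := by
  intro c hc
  unfold CC at hc
  induction hc using Subring.closure_induction with
  | mem x hx =>
    rcases hx with hx | ⟨x, hx, rfl⟩
    · obtain ⟨n, y, h⟩ := hx
      have h1 : x = ((algebraMap O K s)⁻¹) ^ n * algebraMap O K y := by
        rw [← h, ← mul_assoc, ← mul_pow, inv_mul_cancel₀ hs0, one_pow, one_mul]
      rw [h1]
      exact mul_mem (pow_mem hs n) (hO y)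
    · exact hF x hx
  | zero => exact zero_mem _
  | one => exact one_mem _
  | add x y _ _ hx hy => exact add_mem hx hy
  | neg x _ hx => exact neg_mem hx
  | mul x y _ _ hx hy => exact mul_mem hx hy

end

/-- The field of fractions of the chart. -/
theorem frac_toric {O K Λ : Type} [CommRing O] [Field K] [Algebra O K] [AddCommGroup Λ]
    {X : Λ → K} {n : ℕ} (X0 : X 0 = 1) (Xa : ∀ a b, X (a + b) = X a * X b) {Q : Set Λ}
    {V : Set (Λ × Module.Basis (Fin n) ℤ Λ)} (hSP : SP Q V) (hV : V.Nonempty)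
    {m : ℕ} {z : Fin (m + 1) → K} (hz0 : ∀ j, z j ≠ 0)
    (hPz : ∀ μ ∈ Q, X μ ∈ Set.range z) {d : ℕ} (hd : 1 ≤ d) {F : K} (hF : F ≠ 0)
    (hfr : ∀ x : K, ∃ a b, a ∈ Algebra.adjoin O (Set.range X) ∧
      b ∈ Algebra.adjoin O (Set.range X) ∧ b ≠ 0 ∧ x = a / b) (x : K) :
    ∃ c c', c ∈ AF O z d F ∧ c' ∈ AF O z d F ∧ c' ≠ 0 ∧ x = c / c' := by
  classical
  let L : Subfield K := Subfield.closure (AF O z d F : Set K)
  have hAL : ∀ y ∈ AF O z d F, y ∈ L := fun y hy => Subfield.subset_closure hy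
  have hxn := X_ne X0 Xa
  have hzz : ∀ j j', z j / z j' ∈ L := by
    intro j j'
    obtain ⟨e, rfl⟩ : ∃ e, d = e + 1 := ⟨d - 1, by omega⟩
    have h1 : ∀ i, z i * z j' ^ e / F ∈ L := by
      intro i
      apply hAL
      refine Algebra.subset_adjoin ⟨z i * z j' ^ e, ?_, rfl⟩
      have h2 := Pool.Agent.Y25.G.MN_mul z (Pool.Agent.Y25.G.MN_z z i)
        (Pool.Agent.Y25.G.MN_pow_z z j' e)
      rwa [add_comm 1 e] at h2
    have h2 := L.div_mem (h1 j) (h1 j')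
    have e1 : z j * z j' ^ e / F / (z j' * z j' ^ e / F) = z j / z j' := by
      have := hz0 j'
      field_simp
    rwa [e1] at h2
  have hXX : ∀ μ ∈ Q, ∀ μ' ∈ Q, X (μ - μ') ∈ L := by
    intro μ hμ μ' hμ'
    obtain ⟨j, hj⟩ := hPz μ hμ
    obtain ⟨j', hj'⟩ := hPz μ' hμ'
    have h1 : X μ = X (μ - μ') * X μ' := by rw [← Xa, sub_add_cancel]
    have h2 := hzz j j'
    rw [hj, hj', h1, mul_div_cancel_right₀ _ (hxn _)] at h2
    exact h2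
  obtain ⟨⟨v, b⟩, hvb⟩ := hV
  have hb : ∀ i, X (b i) ∈ L := by
    intro i
    have h1 := hXX _ (hSP.vb _ b hvb i) _ (hSP.vm _ b hvb)
    rwa [add_sub_cancel_left] at h1
  have hall : ∀ μ, X μ ∈ L := by
    intro μ
    have h1 : μ ∈ GS b (Set.univ : Set (Fin n)) := fun i hi => absurd (Set.mem_univ i) hi
    refine GS_ind (fun μ => X μ ∈ L) ?_ ?_ hb ?_ h1
    · rw [X0]; exact L.one_mem
    · intro a c ha hc
      rw [Xa]
      exact L.mul_mem ha hc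
    · intro i _
      have h2 := L.inv_mem (hb i)
      rwa [← eq_inv_of_mul_eq_one_right (X_neg X0 Xa (b i))] at h2
  have hadj : ∀ y ∈ Algebra.adjoin O (Set.range X), y ∈ L := by
    intro y hy
    induction hy using Algebra.adjoin_induction with
    | mem x hx =>
      obtain ⟨μ, rfl⟩ := hx
      exact hall μ
    | algebraMap r => exact hAL _ (Subalgebra.algebraMap_mem _ r)
    | add x y _ _ hx hy => exact L.add_mem hx hy
    | mul x y _ _ hx hy => exact L.mul_mem hx hy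
  have hxL : x ∈ L := by
    obtain ⟨a, b, ha, hb, -, rfl⟩ := hfr x
    exact L.div_mem (hadj a ha) (hadj b hb)
  have hcl : ∀ y ∈ Subring.closure (AF O z d F : Set K), y ∈ AF O z d F := by
    intro y hy
    have h1 : Subring.closure (AF O z d F : Set K) ≤ (AF O z d F).toSubring :=
      Subring.closure_le.2 fun y hy => hy
    exact h1 hy
  obtain ⟨y, hy, y', hy', rfl⟩ := Subfield.mem_closure_iff.1 hxL
  by_cases h0 : y' = 0
  · exact ⟨0, 1, zero_mem _, one_mem _, one_ne_zero, by rw [h0, div_zero, zero_div]⟩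
  · exact ⟨y, y', hcl y hy, hcl y' hy', h0, rfl⟩

/-- **The model over two bases.** -/
theorem twoBase {k₀ O₁ O₂ Y K G : Type} [Field k₀] [PerfectField k₀] {p : ℕ} (hp : p.Prime)
    (hpk : (p : k₀) = 0) [CommRing O₁] [IsDomain O₁] [IsDedekindDomain O₁] [Algebra k₀ O₁]
    [Algebra.FiniteType k₀ O₁] [CommRing O₂] [IsDomain O₂] [IsDedekindDomain O₂] [Algebra k₀ O₂]
    [Algebra.FiniteType k₀ O₂] [Field Y] [Field K]
    [Group G] [Finite G] [Algebra O₁ K] [Algebra O₂ K] [Algebra k₀ K]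
    [IsScalarTower k₀ O₁ K] [IsScalarTower k₀ O₂ K] [Algebra k₀ Y]
    (T₁ : G →* (O₁ ≃ₐ[k₀] O₁)) (hT₁ : Function.Injective T₁)
    (T₂ : G →* (O₂ ≃ₐ[k₀] O₂)) (hT₂ : Function.Injective T₂)
    (hin₁ : ∀ 𝔓 : Ideal O₁, 𝔓.IsMaximal → 𝔓 ≠ ⊥ → ¬ p ^ 2 ∣ Nat.card (F.inG T₁ 𝔓))
    (hin₂ : ∀ 𝔓 : Ideal O₂, 𝔓.IsMaximal → 𝔓 ≠ ⊥ → ¬ p ^ 2 ∣ Nat.card (F.inG T₂ 𝔓))
    (hinj₁ : Function.Injective (algebraMap O₁ K)) (hinj₂ : Function.Injective (algebraMap O₂ K))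
    (ι : Y →ₐ[k₀] K) (ρ : G →* (K ≃ₐ[k₀] K))
    (hcom₁ : ∀ g o, ρ g (algebraMap O₁ K o) = algebraMap O₁ K (T₁ g o))
    (hcom₂ : ∀ g o, ρ g (algebraMap O₂ K o) = algebraMap O₂ K (T₂ g o))
    (hfixK : ∀ x, (∀ g, ρ g x = x) ↔ ∃ y, ι y = x)
    {Λ : Type} [AddCommGroup Λ] {n : ℕ} (e0 : Module.Basis (Fin n) ℤ Λ) (φ : G →* (Λ ≃ₗ[ℤ] Λ))
    {X : Λ → K} (X0 : X 0 = 1)
    (Xa : ∀ a b, X (a + b) = X a * X b) (li₁ : LinearIndependent O₁ X)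
    (li₂ : LinearIndependent O₂ X)
    (hρX : ∀ g m, ρ g (X m) = X (φ g m))
    (hfr₁ : ∀ x : K, ∃ a b, a ∈ Algebra.adjoin O₁ (Set.range X) ∧
      b ∈ Algebra.adjoin O₁ (Set.range X) ∧ b ≠ 0 ∧ x = a / b)
    (hfr₂ : ∀ x : K, ∃ a b, a ∈ Algebra.adjoin O₂ (Set.range X) ∧
      b ∈ Algebra.adjoin O₂ (Set.range X) ∧ b ≠ 0 ∧ x = a / b)
    (hX : ∀ (β₁ β₂ : Type) [Finite β₁] [Finite β₂] (o₁ : β₁ → O₁) (o₂ : β₂ → O₂),
      (∀ b, o₁ b ≠ 0) → (∀ b, o₂ b ≠ 0) → ∃ τ : K, τ ≠ 0 ∧ (∀ g, ρ g τ = τ) ∧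
        (∀ b, ∃ x : O₁, algebraMap O₁ K x = τ * algebraMap O₂ K (o₂ b) ∧ ∀ P ∈ F.Ram T₁, x ∈ P) ∧
        (∀ b, ∃ x : O₂, algebraMap O₂ K x = algebraMap O₁ K (o₁ b) / τ ∧
          ∀ P ∈ F.Ram T₂, x ∈ P) ∧
        (∀ b, ∀ y ∈ BB K (o₂ b), ∃ (n : ℕ) (x : O₁),
          (τ * algebraMap O₂ K (o₂ b)) ^ n * y = algebraMap O₁ K x) ∧
        ∀ b, ∀ y ∈ BB K (o₁ b), ∃ (n : ℕ) (x : O₂),
          (algebraMap O₁ K (o₁ b) / τ) ^ n * y = algebraMap O₂ K x)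
    (hV : ∀ V : ValuationSubring K, (∀ c : k₀, algebraMap k₀ K c ∈ V) →
      (∀ x : O₁, algebraMap O₁ K x ∈ V) ∨ ∀ x : O₂, algebraMap O₂ K x ∈ V) :
    ∃ (I : Type) (_ : Finite I) (w : I → Y) (J : Set I),
      ModelG (k := k₀) False ⊥ (⊤ : Subfield Y) w J := by
  classical
  have := Fintype.ofFinite G
  obtain ⟨P, V, hPf, hPn, hVf, hSP, hφ⟩ := exists_SP e0 φ
  obtain ⟨N, hN, hSPN, hPV⟩ := hSP.mul φ hVf hφ
  have hφN : ∀ g, ∀ m ∈ MS N P, φ g m ∈ MS N P := fun g m hm => MS_map (ah (φ g)) (hφ g) hm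
  have hXne : ∀ m, X m ≠ 0 := X_ne X0 Xa
  have hPN : (MS N P).Nonempty := by
    obtain ⟨m, hm⟩ := hPn
    exact ⟨N • m, Multiset.replicate N m, Multiset.card_replicate _ _, fun x hx => by
      rw [Multiset.eq_of_mem_replicate hx]; exact hm, Multiset.sum_replicate _ _⟩
  obtain ⟨m, z, hz0, hzD, hPz, hst, hgen⟩ := exists_coord (ρ := ρ) (φ := φ) hρX hφN hXne
    (MS_finite hPf N) hPN
  obtain ⟨d, S, hd, hSfin, hSne, hS, hSV⟩ := F.exists_forms (z := z)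
    (fun g => ((ρ g : K ≃ₐ[k₀] K) : K →+* K)) hz0 hst
  obtain ⟨Y₂, K₂, _, _, _, _, ι₂, εY, ε, ρ₂, hE⟩ := Pool.Agent.Y949.H.t_EXT2 k₀ Y K G ι ρ hfixK
  have hVN : (MV N V).Nonempty := by
    obtain ⟨μ0, hμ0⟩ := hPn
    obtain ⟨s, hs0, hs, -⟩ := hSP.cvx μ0 hμ0
    obtain ⟨v, hv⟩ := Multiset.exists_mem_of_ne_zero hs0
    obtain ⟨b, hvb⟩ := hs v hv
    exact ⟨((N • v : Λ), b), v, hvb, rfl⟩
  -- fractions
  have hq : ∀ (O : Type) [CommRing O] [Algebra O K], (∀ x : K, ∃ a b,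
      a ∈ Algebra.adjoin O (Set.range X) ∧ b ∈ Algebra.adjoin O (Set.range X) ∧ b ≠ 0 ∧
      x = a / b) → ∀ F ∈ S, ∀ x : K, ∃ c c', c ∈ AF O z d F ∧ c' ∈ AF O z d F ∧ c' ≠ 0 ∧
      x = c / c' := by
    intro O _ _ hfr F hF x
    exact frac_toric X0 Xa hSPN hVN hz0 hPz hd (hS F hF).1 hfr x
  obtain ⟨β₁, _, _, o₁, π₁, R₁, ho₁, hof₁, hπ₁, hv₁, hZ₁, hD₁, hL₁, hs₁⟩ := baseD hp hpk T₁ hT₁
    hin₁ hinj₁ ι ι₂ εY ε ρ ρ₂ hE hcom₁ hfixK φ X0 Xa li₁ hρX hφ hSPN hPV hz0 hzD hPz hst hgen d hd S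
    (fun F hF => ⟨(hS F hF).2.2 O₁, (hS F hF).1, (hS F hF).2.1⟩) (hq O₁ hfr₁)
  obtain ⟨β₂, _, _, o₂, π₂, R₂, ho₂, hof₂, hπ₂, hv₂, hZ₂, hD₂, hL₂, hs₂⟩ := baseD hp hpk T₂ hT₂
    hin₂ hinj₂ ι ι₂ εY ε ρ ρ₂ hE hcom₂ hfixK φ X0 Xa li₂ hρX hφ hSPN hPV hz0 hzD hPz hst hgen d hd S
    (fun F hF => ⟨(hS F hF).2.2 O₂, (hS F hF).1, (hS F hF).2.1⟩) (hq O₂ hfr₂)
  obtain ⟨τ, hτ0, hτ, hX1, hX2, hY1, hY2⟩ := hX β₁ β₂ o₁ o₂ ho₁ ho₂
  have hoK₁ : ∀ b, algebraMap O₁ K (o₁ b) ≠ 0 := fun b => (map_ne_zero_iff _ hinj₁).2 (ho₁ b)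
  have hoK₂ : ∀ b, algebraMap O₂ K (o₂ b) ≠ 0 := fun b => (map_ne_zero_iff _ hinj₂).2 (ho₂ b)
  have hπK₁ : ∀ b, algebraMap O₁ K (π₁ b) ≠ 0 := fun b => (map_ne_zero_iff _ hinj₁).2 (hπ₁ b)
  have hπK₂ : ∀ b, algebraMap O₂ K (π₂ b) ≠ 0 := fun b => (map_ne_zero_iff _ hinj₂).2 (hπ₂ b)
  let σ : β₁ ⊕ β₂ → K := Sum.elim (fun b => algebraMap O₁ K (o₁ b))
    (fun b => τ * algebraMap O₂ K (o₂ b))
  have hσ0 : ∀ b, σ b ≠ 0 := by
    rintro (b | b)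
    · exact hoK₁ b
    · exact mul_ne_zero hτ0 (hoK₂ b)
  have hσρ : ∀ b g, ρ g (σ b) = σ b := by
    rintro (b | b) g
    · change ρ g (algebraMap O₁ K (o₁ b)) = algebraMap O₁ K (o₁ b)
      rw [hcom₁, hof₁]
    · change ρ g (τ * algebraMap O₂ K (o₂ b)) = τ * algebraMap O₂ K (o₂ b)
      rw [map_mul, hτ, hcom₂, hof₂]
  have hh : ∀ (F : S) b, ∃ y : Y, ι y = (F : K) * σ b := by
    intro F b
    apply (hfixK _).1
    intro g
    have h1 : ρ g (F : K) = F := (hS F F.2).2.1 g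
    rw [map_mul, h1, hσρ]
  choose h hιh using hh
  refine assemX (algebraMap k₀ Y).injective εY hE.eY (ι : Y →+* K) (Nat.card G) Nat.card_pos z d S
    hSfin (fun F hF => (hS F hF).1) (β₁ ⊕ β₂)
    (Sum.elim (fun b => BB K (o₁ b)) (fun b => BB K (o₂ b)))
    (Sum.elim (fun b => II K T₁ (o₁ b)) (fun b => II K T₂ (o₂ b)))
    (Sum.elim (fun b => algebraMap O₁ K (π₁ b)) (fun b => algebraMap O₂ K (π₂ b)))
    σ hσ0 ?_ ?_ ?_ ?_ ?_ (fun F => Sum.elim (R₁ F) (R₂ F)) ?_ ?_ h hιh ?_ ?_ ?_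
  · rintro (b | b)
    · exact hπK₁ b
    · exact hπK₂ b
  · rintro (b | b) x hx
    · exact II_BB T₁ (o₁ b) hx
    · exact II_BB T₂ (o₂ b) hx
  · rintro (b | b)
    · exact alg_BB _ _
    · exact alg_BB _ _
  · have hI : ∀ {O : Type} [CommRing O] [IsDomain O] [Algebra k₀ O] [Algebra O K]
        (T : G →* (O ≃ₐ[k₀] O)) (s π : O), algebraMap O K π ≠ 0 →
        (∀ x : O, (∀ P ∈ F.Ram T, s ∉ P → x ∈ P) → ∃ y : O, s * x = y * π) →
        ∀ x ∈ II K T s, x / algebraMap O K π ∈ BB K s := by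
      intro O _ _ _ _ T s π hπ hZ x hx
      obtain ⟨y, n, hy, hyx⟩ := hx
      obtain ⟨w, hw⟩ := hZ y hy
      refine ⟨n + 1, w, ?_⟩
      have h1 := congrArg (algebraMap O K) hw
      rw [map_mul, map_mul, ← hyx] at h1
      rw [pow_succ]
      field_simp
      linear_combination h1
    rintro (b | b) x hx
    · exact hI T₁ (o₁ b) (π₁ b) (hπK₁ b) (hZ₁ b) x hx
    · exact hI T₂ (o₂ b) (π₂ b) (hπK₂ b) (hZ₂ b) x hx
  · rintro F hF F' hF' (b | b)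
    · exact FS_CC ((hS F' hF').2.2 O₁)
    · exact FS_CC ((hS F' hF').2.2 O₂)
  · rintro F (b | b)
    · exact hL₁ F b
    · exact hL₂ F b
  · rintro F F' (b | b) y hy
    · exact hs₁ F F' b y hy
    · exact hs₂ F F' b y hy
  · rintro (b | b) (b' | b') hb
    · have hb' : b' ≠ b := fun h => hb (by rw [h])
      refine ⟨o₁ b', 1, fun P hP h1 => hD₁ b b' hb' P hP h1, ?_⟩
      change _ * (algebraMap O₁ K (o₁ b') / algebraMap O₁ K (o₁ b)) = _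
      rw [pow_one, mul_div_cancel₀ _ (hoK₁ b)]
    · obtain ⟨x, hx1, hx2⟩ := hX1 b'
      refine ⟨x, 1, fun P hP _ => hx2 P hP, ?_⟩
      change _ * ((τ * algebraMap O₂ K (o₂ b')) / algebraMap O₁ K (o₁ b)) = _
      rw [pow_one, mul_div_cancel₀ _ (hoK₁ b), hx1]
    · obtain ⟨x, hx1, hx2⟩ := hX2 b'
      refine ⟨x, 1, fun P hP _ => hx2 P hP, ?_⟩
      change _ * (algebraMap O₁ K (o₁ b') / (τ * algebraMap O₂ K (o₂ b))) = _
      rw [hx1]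
      have := hoK₂ b
      field_simp
    · have hb' : b' ≠ b := fun h => hb (by rw [h])
      refine ⟨o₂ b', 1, fun P hP h1 => hD₂ b b' hb' P hP h1, ?_⟩
      change _ * ((τ * algebraMap O₂ K (o₂ b')) / (τ * algebraMap O₂ K (o₂ b))) = _
      have := hoK₂ b
      field_simp
  · rintro (b | b) (b' | b') hb y hy
    · obtain ⟨n, x, hx⟩ := hy
      refine ⟨n, n, x, ?_⟩
      change _ * ((algebraMap O₁ K (o₁ b') / algebraMap O₁ K (o₁ b)) ^ n * y) = _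
      rw [← hx, div_pow]
      have := hoK₁ b
      field_simp
    · obtain ⟨n, x, hx⟩ := hY1 b' y hy
      refine ⟨n, n, x, ?_⟩
      change _ * (((τ * algebraMap O₂ K (o₂ b')) / algebraMap O₁ K (o₁ b)) ^ n * y) = _
      rw [← hx, div_pow]
      have := hoK₁ b
      field_simp
    · obtain ⟨n, x, hx⟩ := hY2 b' y hy
      refine ⟨n, n, x, ?_⟩
      change _ * ((algebraMap O₁ K (o₁ b') / (τ * algebraMap O₂ K (o₂ b))) ^ n * y) = _
      rw [← hx, div_pow, div_pow, mul_pow]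
      have := hoK₂ b
      field_simp
    · obtain ⟨n, x, hx⟩ := hy
      refine ⟨n, n, x, ?_⟩
      change _ * (((τ * algebraMap O₂ K (o₂ b')) / (τ * algebraMap O₂ K (o₂ b))) ^ n * y) = _
      rw [← hx, div_pow, mul_pow, mul_pow]
      have := hoK₂ b
      field_simp
  · intro V₀ hV₀
    obtain ⟨V', hV'⟩ := ext_val (ι : Y →+* K) V₀
    obtain ⟨F, hF, hFV⟩ := hSV V'
    have hk : ∀ c : k₀, algebraMap k₀ K c ∈ V' := by
      intro c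
      rw [← ι.commutes]
      exact (hV' _).2 (hV₀ c)
    rcases hV V' hk with h1 | h1
    · obtain ⟨b, hb⟩ := hv₁ V' h1
      exact ⟨⟨F, hF⟩, Sum.inl b, V', hV', CC_val V' h1 (hoK₁ b) hb hFV⟩
    · obtain ⟨b, hb⟩ := hv₂ V' h1
      exact ⟨⟨F, hF⟩, Sum.inr b, V', hV', CC_val V' h1 (hoK₂ b) hb hFV⟩

end Pool.Agent.Zk15
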