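import Pool.Agent.Zk15.Aff8
import Pool.Agent.Zk15.Fp9

/-!
# The model over two bases, in the charts of invariant coordinates
-/

set_option autoImplicit false
set_option linter.unusedVariables false
set_option linter.unusedSectionVars false
set_option linter.overlappingInstances false

namespace Pool.Agent.Zk15

open Pool.Agent.Y223.G
open Pool.Agent.Y515.G (ext_val int_mem)

/-- **The model over two bases.** -/
theorem twoBaseJ {k₀ O₁ O₂ Y K G : Type} [Field k₀] [PerfectField k₀] {p : ℕ} (hp : p.Prime)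
    (hpk : (p : k₀) = 0) [CommRing O₁] [IsDomain O₁] [IsDedekindDomain O₁] [Algebra k₀ O₁]
    [Algebra.FiniteType k₀ O₁] [CommRing O₂] [IsDomain O₂] [IsDedekindDomain O₂] [Algebra k₀ O₂]
    [Algebra.FiniteType k₀ O₂] [Field Y] [Field K]
    [Group G] [Finite G] [Algebra O₁ K] [Algebra O₂ K] [Algebra k₀ K]
    [IsScalarTower k₀ O₁ K] [IsScalarTower k₀ O₂ K] [Algebra k₀ Y]
    (T₁ : G →* (O₁ ≃ₐ[k₀] O₁)) (hT₁ : Function.Injective T₁)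
    (T₂ : G →* (O₂ ≃ₐ[k₀] O₂)) (hT₂ : Function.Injective T₂)
    (hin₁ : ∀ 𝔓 : Ideal O₁, 𝔓.IsMaximal → 𝔓 ≠ ⊥ → ¬ p ^ 2 ∣ Nat.card (F.inG T₁ 𝔓))
    (hin₂ : ∀ 𝔓 : Ideal O₂, 𝔓.IsMaximal → 𝔓 ≠ ⊥ → ¬ p ^ 2 ∣ Nat.card (F.inG T₂ 𝔓))
    (hinj₁ : Function.Injective (algebraMap O₁ K)) (hinj₂ : Function.Injective (algebraMap O₂ K))
    (ι : Y →ₐ[k₀] K) (ρ : G →* (K ≃ₐ[k₀] K))
    (hcom₁ : ∀ g o, ρ g (algebraMap O₁ K o) = algebraMap O₁ K (T₁ g o))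
    (hcom₂ : ∀ g o, ρ g (algebraMap O₂ K o) = algebraMap O₂ K (T₂ g o))
    (hfixK : ∀ x, (∀ g, ρ g x = x) ↔ ∃ y, ι y = x)
    {m : ℕ} {z : Fin (m + 1) → K} (J : Set (Fin (m + 1))) (hJ : J.Nonempty)
    (hinv : ∀ j ∈ J, ∀ g, ρ g (z j) = z j) (hJ0 : ∀ j ∈ J, z j ≠ 0)
    (hlin₁ : ∀ g j, ρ g (z j) ∈ Submodule.span O₁ (Set.range z))
    (hlin₂ : ∀ g j, ρ g (z j) ∈ Submodule.span O₂ (Set.range z))
    (hreg₁ : ∀ j ∈ J, IsRegularRing (Algebra.adjoin O₁ (Set.range fun i => z i / z j)))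
    (hreg₂ : ∀ j ∈ J, IsRegularRing (Algebra.adjoin O₂ (Set.range fun i => z i / z j)))
    (hfr₁ : ∀ j ∈ J, ∀ x : K, ∃ a b, a ∈ Algebra.adjoin O₁ (Set.range fun i => z i / z j) ∧
      b ∈ Algebra.adjoin O₁ (Set.range fun i => z i / z j) ∧ b ≠ 0 ∧ x = a / b)
    (hfr₂ : ∀ j ∈ J, ∀ x : K, ∃ a b, a ∈ Algebra.adjoin O₂ (Set.range fun i => z i / z j) ∧
      b ∈ Algebra.adjoin O₂ (Set.range fun i => z i / z j) ∧ b ≠ 0 ∧ x = a / b)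
    (e₁ : Ideal O₁ → ℕ) (W₁ : Ideal O₁ → Fin (m + 1) → ℕ)
    (hWD₁ : ∀ ρ' : G →* (K ≃ₐ[F.invS T₁] K), (∀ g y, ρ' g y = ρ g y) →
      WDJ (F.invS T₁) O₁ K G ρ' (F.TA T₁) z J e₁ W₁)
    (e₂ : Ideal O₂ → ℕ) (W₂ : Ideal O₂ → Fin (m + 1) → ℕ)
    (hWD₂ : ∀ ρ' : G →* (K ≃ₐ[F.invS T₂] K), (∀ g y, ρ' g y = ρ g y) →
      WDJ (F.invS T₂) O₂ K G ρ' (F.TA T₂) z J e₂ W₂)
    (hVJ : ∀ V : ValuationSubring K, (∀ c : k₀, algebraMap k₀ K c ∈ V) →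
      ∃ j ∈ J, ∀ i, z i / z j ∈ V)
    (hX : ∀ (β₁ β₂ : Type) [Finite β₁] [Finite β₂] (o₁ : β₁ → O₁) (o₂ : β₂ → O₂),
      (∀ b, o₁ b ≠ 0) → (∀ b, o₂ b ≠ 0) → ∃ τ : K, τ ≠ 0 ∧ (∀ g, ρ g τ = τ) ∧
        (∀ b, ∃ x : O₁, algebraMap O₁ K x = τ * algebraMap O₂ K (o₂ b) ∧ ∀ P ∈ F.Ram T₁, x ∈ P) ∧
        (∀ b, ∃ x : O₂, algebraMap O₂ K x = algebraMap O₁ K (o₁ b) / τ ∧
          ∀ P ∈ F.Ram T₂, x ∈ P) ∧
        (∀ b, ∀ y ∈ BB K (o₂ b), ∃ (n : ℕ) (x : O₁),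
          (τ * algebraMap O₂ K (o₂ b)) ^ n * y = algebraMap O₁ K x) ∧
        ∀ b, ∀ y ∈ BB K (o₁ b), ∃ (n : ℕ) (x : O₂),
          (algebraMap O₁ K (o₁ b) / τ) ^ n * y = algebraMap O₂ K x)
    (hV : ∀ V : ValuationSubring K, (∀ c : k₀, algebraMap k₀ K c ∈ V) →
      (∀ x : O₁, algebraMap O₁ K x ∈ V) ∨ ∀ x : O₂, algebraMap O₂ K x ∈ V) :
    ∃ (I : Type) (_ : Finite I) (w : I → Y) (J : Set I),
      ModelG (k := k₀) False ⊥ (⊤ : Subfield Y) w J := by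
  classical
  obtain ⟨S, hSJ⟩ : ∃ S : Set K, S = z '' J := ⟨_, rfl⟩
  have hSe : ∀ F ∈ S, ∃ j ∈ J, z j = F := fun F hF => by
    rw [hSJ] at hF
    obtain ⟨j, hj, h⟩ := hF
    exact ⟨j, hj, h⟩
  have hSfin : S.Finite := by
    rw [hSJ]
    exact (Set.toFinite J).image z
  have hS : ∀ F ∈ S, F ≠ 0 ∧ (∀ g, ρ g F = F) ∧ ∀ (O : Type) [CommRing O] [Algebra O K],
      F ∈ FS O z 1 := by
    intro F hF
    obtain ⟨j, hj, rfl⟩ := hSe F hF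
    refine ⟨hJ0 j hj, hinv j hj, fun O _ _ => ?_⟩
    have h1 : z j ∈ MN z 1 := by
      rw [MN_one]
      exact ⟨j, rfl⟩
    exact Submodule.subset_span h1
  have hSV : ∀ V : ValuationSubring K, (∀ c : k₀, algebraMap k₀ K c ∈ V) →
      ∃ F ∈ S, ∀ x ∈ MN z 1, x / F ∈ V := by
    intro V hV
    obtain ⟨j, hj, h⟩ := hVJ V hV
    refine ⟨z j, by rw [hSJ]; exact ⟨j, hj, rfl⟩, ?_⟩
    rw [MN_one]
    rintro _ ⟨i, rfl⟩
    exact h i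
  obtain ⟨Y₂, K₂, _, _, _, _, ι₂, εY, ε, ρ₂, hE⟩ := Pool.Agent.Y949.H.t_EXT2 k₀ Y K G ι ρ hfixK
  obtain ⟨β₁, _, _, o₁, π₁, R₁, ho₁, hof₁, hπ₁, hv₁, hZ₁, hD₁, hL₁, hs₁⟩ := baseDJ hp hpk T₁ hT₁
    hin₁ hinj₁ ι ι₂ εY ε ρ ρ₂ hE hcom₁ hfixK hlin₁ J hinv hJ0 hreg₁ e₁ W₁ hWD₁ S hSe (by
      intro F hF x
      obtain ⟨j, hj, rfl⟩ := hSe F hF
      rw [AF_F]
      exact hfr₁ j hj x)
  obtain ⟨β₂, _, _, o₂, π₂, R₂, ho₂, hof₂, hπ₂, hv₂, hZ₂, hD₂, hL₂, hs₂⟩ := baseDJ hp hpk T₂ hT₂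
    hin₂ hinj₂ ι ι₂ εY ε ρ ρ₂ hE hcom₂ hfixK hlin₂ J hinv hJ0 hreg₂ e₂ W₂ hWD₂ S hSe (by
      intro F hF x
      obtain ⟨j, hj, rfl⟩ := hSe F hF
      rw [AF_F]
      exact hfr₂ j hj x)
  obtain ⟨τ, hτ0, hτ, hX1, hX2, hY1, hY2⟩ := hX β₁ β₂ o₁ o₂ ho₁ ho₂
  have hoK₁ : ∀ b, algebraMap O₁ K (o₁ b) ≠ 0 := fun b => (map_ne_zero_iff _ hinj₁).2 (ho₁ b)
  have hoK₂ : ∀ b, algebraMap O₂ K (o₂ b) ≠ 0 := fun b => (map_ne_zero_iff _ hinj₂).2 (ho₂ b)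
  have hπK₁ : ∀ b, algebraMap O₁ K (π₁ b) ≠ 0 := fun b => (map_ne_zero_iff _ hinj₁).2 (hπ₁ b)
  have hπK₂ : ∀ b, algebraMap O₂ K (π₂ b) ≠ 0 := fun b => (map_ne_zero_iff _ hinj₂).2 (hπ₂ b)
  let σ : β₁ ⊕ β₂ → K := Sum.elim (fun b => algebraMap O₁ K (o₁ b))
    (fun b => τ * algebraMap O₂ K (o₂ b))
  have hσ0 : ∀ b, σ b ≠ 0 := by
    rintro (b | b)
    · exact hoK₁ b
    · exact mul_ne_zero hτ0 (hoK₂ b)
  have hσρ : ∀ b g, ρ g (σ b) = σ b := by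
    rintro (b | b) g
    · change ρ g (algebraMap O₁ K (o₁ b)) = algebraMap O₁ K (o₁ b)
      rw [hcom₁, hof₁]
    · change ρ g (τ * algebraMap O₂ K (o₂ b)) = τ * algebraMap O₂ K (o₂ b)
      rw [map_mul, hτ, hcom₂, hof₂]
  have hh : ∀ (F : S) b, ∃ y : Y, ι y = (F : K) * σ b := by
    intro F b
    apply (hfixK _).1
    intro g
    have h1 : ρ g (F : K) = F := (hS F F.2).2.1 g
    rw [map_mul, h1, hσρ]
  choose h hιh using hh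
  refine assemX (algebraMap k₀ Y).injective εY hE.eY (ι : Y →+* K) (Nat.card G) Nat.card_pos z 1 S
    hSfin (fun F hF => (hS F hF).1) (β₁ ⊕ β₂)
    (Sum.elim (fun b => BB K (o₁ b)) (fun b => BB K (o₂ b)))
    (Sum.elim (fun b => II K T₁ (o₁ b)) (fun b => II K T₂ (o₂ b)))
    (Sum.elim (fun b => algebraMap O₁ K (π₁ b)) (fun b => algebraMap O₂ K (π₂ b)))
    σ hσ0 ?_ ?_ ?_ ?_ ?_ (fun F => Sum.elim (R₁ F) (R₂ F)) ?_ ?_ h hιh ?_ ?_ ?_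
  · rintro (b | b)
    · exact hπK₁ b
    · exact hπK₂ b
  · rintro (b | b) x hx
    · exact II_BB T₁ (o₁ b) hx
    · exact II_BB T₂ (o₂ b) hx
  · rintro (b | b)
    · exact alg_BB _ _
    · exact alg_BB _ _
  · have hI : ∀ {O : Type} [CommRing O] [IsDomain O] [Algebra k₀ O] [Algebra O K]
        (T : G →* (O ≃ₐ[k₀] O)) (s π : O), algebraMap O K π ≠ 0 →
        (∀ x : O, (∀ P ∈ F.Ram T, s ∉ P → x ∈ P) → ∃ y : O, s * x = y * π) →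
        ∀ x ∈ II K T s, x / algebraMap O K π ∈ BB K s := by
      intro O _ _ _ _ T s π hπ hZ x hx
      obtain ⟨y, n, hy, hyx⟩ := hx
      obtain ⟨w, hw⟩ := hZ y hy
      refine ⟨n + 1, w, ?_⟩
      have h1 := congrArg (algebraMap O K) hw
      rw [map_mul, map_mul, ← hyx] at h1
      rw [pow_succ]
      field_simp
      linear_combination h1
    rintro (b | b) x hx
    · exact hI T₁ (o₁ b) (π₁ b) (hπK₁ b) (hZ₁ b) x hx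
    · exact hI T₂ (o₂ b) (π₂ b) (hπK₂ b) (hZ₂ b) x hx
  · rintro F hF F' hF' (b | b)
    · exact FS_CC ((hS F' hF').2.2 O₁)
    · exact FS_CC ((hS F' hF').2.2 O₂)
  · rintro F (b | b)
    · exact hL₁ F b
    · exact hL₂ F b
  · rintro F F' (b | b) y hy
    · exact hs₁ F F' b y hy
    · exact hs₂ F F' b y hy
  · rintro (b | b) (b' | b') hb
    · have hb' : b' ≠ b := fun h => hb (by rw [h])
      refine ⟨o₁ b', 1, fun P hP h1 => hD₁ b b' hb' P hP h1, ?_⟩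
      change _ * (algebraMap O₁ K (o₁ b') / algebraMap O₁ K (o₁ b)) = _
      rw [pow_one, mul_div_cancel₀ _ (hoK₁ b)]
    · obtain ⟨x, hx1, hx2⟩ := hX1 b'
      refine ⟨x, 1, fun P hP _ => hx2 P hP, ?_⟩
      change _ * ((τ * algebraMap O₂ K (o₂ b')) / algebraMap O₁ K (o₁ b)) = _
      rw [pow_one, mul_div_cancel₀ _ (hoK₁ b), hx1]
    · obtain ⟨x, hx1, hx2⟩ := hX2 b'
      refine ⟨x, 1, fun P hP _ => hx2 P hP, ?_⟩
      change _ * (algebraMap O₁ K (o₁ b') / (τ * algebraMap O₂ K (o₂ b))) = _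
      rw [hx1]
      have := hoK₂ b
      field_simp
    · have hb' : b' ≠ b := fun h => hb (by rw [h])
      refine ⟨o₂ b', 1, fun P hP h1 => hD₂ b b' hb' P hP h1, ?_⟩
      change _ * ((τ * algebraMap O₂ K (o₂ b')) / (τ * algebraMap O₂ K (o₂ b))) = _
      have := hoK₂ b
      field_simp
  · rintro (b | b) (b' | b') hb y hy
    · obtain ⟨n, x, hx⟩ := hy
      refine ⟨n, n, x, ?_⟩
      change _ * ((algebraMap O₁ K (o₁ b') / algebraMap O₁ K (o₁ b)) ^ n * y) = _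
      rw [← hx, div_pow]
      have := hoK₁ b
      field_simp
    · obtain ⟨n, x, hx⟩ := hY1 b' y hy
      refine ⟨n, n, x, ?_⟩
      change _ * (((τ * algebraMap O₂ K (o₂ b')) / algebraMap O₁ K (o₁ b)) ^ n * y) = _
      rw [← hx, div_pow]
      have := hoK₁ b
      field_simp
    · obtain ⟨n, x, hx⟩ := hY2 b' y hy
      refine ⟨n, n, x, ?_⟩
      change _ * ((algebraMap O₁ K (o₁ b') / (τ * algebraMap O₂ K (o₂ b))) ^ n * y) = _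
      rw [← hx, div_pow, div_pow, mul_pow]
      have := hoK₂ b
      field_simp
    · obtain ⟨n, x, hx⟩ := hy
      refine ⟨n, n, x, ?_⟩
      change _ * (((τ * algebraMap O₂ K (o₂ b')) / (τ * algebraMap O₂ K (o₂ b))) ^ n * y) = _
      rw [← hx, div_pow, mul_pow, mul_pow]
      have := hoK₂ b
      field_simp
  · intro V₀ hV₀
    obtain ⟨V', hV'⟩ := ext_val (ι : Y →+* K) V₀
    have hk : ∀ c : k₀, algebraMap k₀ K c ∈ V' := by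
      intro c
      rw [← ι.commutes]
      exact (hV' _).2 (hV₀ c)
    obtain ⟨F, hF, hFV⟩ := hSV V' hk
    rcases hV V' hk with h1 | h1
    · obtain ⟨b, hb⟩ := hv₁ V' h1
      exact ⟨⟨F, hF⟩, Sum.inl b, V', hV', CC_val V' h1 (hoK₁ b) hb hFV⟩
    · obtain ⟨b, hb⟩ := hv₂ V' h1
      exact ⟨⟨F, hF⟩, Sum.inr b, V', hV', CC_val V' h1 (hoK₂ b) hb hFV⟩

end Pool.Agent.Zk15
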