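import Pool.Agent.Zk15.Poly

/-!
# The filtration of a subgroup
-/

set_option autoImplicit false
set_option linter.unusedSectionVars false

namespace Pool.Agent.Zk15

variable {k K Λ G : Type} [CommRing k] [Field K] [Algebra k K] [AddCommGroup Λ] [Group G]
  [Fintype G]

open Classical in
/-- The kernel of the norm of the subgroup. -/
noncomputable def KH (φ : G →* (Λ ≃ₗ[ℤ] Λ)) (H : Subgroup G) : Set Λ :=
  {m | ∑ g : G, (if g ∈ H then φ g m else 0) = 0}

/-- The filtration of the subgroup `H`. -/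
noncomputable def Dh (ρ : G →* (K ≃ₐ[k] K)) (φ : G →* (Λ ≃ₗ[ℤ] Λ)) (X : Λ → K) (P : Set Λ)
    (H : Subgroup G) : ℕ → AddSubgroup K
  | 0 => AddSubgroup.closure (X '' P)
  | 1 => AddSubgroup.closure {x | ∃ m ∈ P, ∃ m' ∈ P, m - m' ∈ KH φ H ∧ x = X m - X m'}
  | (a + 2) => AddSubgroup.closure {x | ∃ h ∈ H, ∃ y ∈ Dh ρ φ X P H (a + 1), x = ρ h y - y}

variable {ρ : G →* (K ≃ₐ[k] K)} {φ : G →* (Λ ≃ₗ[ℤ] Λ)} {X : Λ → K} {P : Set Λ}

lemma Dh_zero {H : Subgroup G} : Dh ρ φ X P H 0 = AddSubgroup.closure (X '' P) := rfl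

lemma Dh_one {H : Subgroup G} : Dh ρ φ X P H 1 =
    AddSubgroup.closure {x | ∃ m ∈ P, ∃ m' ∈ P, m - m' ∈ KH φ H ∧ x = X m - X m'} := rfl

lemma Dh_add {H : Subgroup G} (a : ℕ) (ha : 1 ≤ a) : Dh ρ φ X P H (a + 1) =
    AddSubgroup.closure {x | ∃ h ∈ H, ∃ y ∈ Dh ρ φ X P H a, x = ρ h y - y} := by
  obtain ⟨b, rfl⟩ : ∃ b, a = b + 1 := ⟨a - 1, by omega⟩
  rfl

/-- The kernels of the norms of conjugate subgroups. -/
lemma KH_conj {H H' : Subgroup G} {g : G} (hc : ∀ s, s ∈ H ↔ g * s * g⁻¹ ∈ H') {m : Λ}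
    (hm : m ∈ KH φ H) : φ g m ∈ KH φ H' := by
  classical
  unfold KH at *
  rw [Set.mem_ofPred_eq] at *
  have h1 : ∑ s : G, (if s ∈ H' then φ s (φ g m) else 0) =
      ∑ s : G, (if g * s * g⁻¹ ∈ H' then φ (g * s * g⁻¹) (φ g m) else 0) :=
    (Fintype.sum_equiv (MulAut.conj g).toEquiv _ _ fun s => rfl).symm
  have h2 : ∀ s, (if g * s * g⁻¹ ∈ H' then φ (g * s * g⁻¹) (φ g m) else 0) =
      φ g (if s ∈ H then φ s m else 0) := by
    intro s
    rw [← hc]
    split_ifs
    · rw [← LinearEquiv.mul_apply, ← LinearEquiv.mul_apply, ← map_mul, ← map_mul]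
      congr 2
      group
    · rw [map_zero]
  have h3 : (∑ s : G, (if s ∈ H' then φ s (φ g m) else 0)) = 0 := by
    rw [h1]
    simp only [h2]
    rw [← map_sum]
    have h4 : (∑ s : G, (if s ∈ H then φ s m else 0)) = 0 := by
      convert hm
    rw [h4, map_zero]
  convert h3

variable (hρX : ∀ g m, ρ g (X m) = X (φ g m)) (hφ : ∀ g, ∀ m ∈ P, φ g m ∈ P)

include hρX hφ

/-- The filtrations of conjugate subgroups. -/
lemma Dh_conj {H H' : Subgroup G} {g : G} (hc : ∀ s, s ∈ H ↔ g * s * g⁻¹ ∈ H') (a : ℕ) {x : K}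
    (hx : x ∈ Dh ρ φ X P H a) : ρ g x ∈ Dh ρ φ X P H' a := by
  have key : ∀ (A B : Set K), (∀ x ∈ A, ρ g x ∈ AddSubgroup.closure B) →
      ∀ x ∈ AddSubgroup.closure A, ρ g x ∈ AddSubgroup.closure B := by
    intro A B hAB x hx
    induction hx using AddSubgroup.closure_induction with
    | mem x hx => exact hAB x hx
    | zero => rw [map_zero]; exact zero_mem _
    | add x y _ _ hx hy => rw [map_add]; exact add_mem hx hy
    | neg x _ hx => rw [map_neg]; exact neg_mem hx
  induction a generalizing x with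
  | zero =>
    refine key _ _ ?_ x hx
    rintro _ ⟨m, hm, rfl⟩
    rw [hρX]
    exact AddSubgroup.subset_closure ⟨_, hφ g m hm, rfl⟩
  | succ a ih =>
    rcases Nat.eq_zero_or_pos a with h | h
    · subst h
      refine key _ _ ?_ x hx
      rintro _ ⟨m, hm, m', hm', hN, rfl⟩
      rw [map_sub, hρX, hρX]
      refine AddSubgroup.subset_closure ⟨_, hφ g m hm, _, hφ g m' hm', ?_, rfl⟩
      rw [← map_sub]
      exact KH_conj hc hN
    · rw [Dh_add a h] at *
      refine key _ _ ?_ x hx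
      rintro _ ⟨s, hs, y, hy, rfl⟩
      refine AddSubgroup.subset_closure ⟨g * s * g⁻¹, (hc s).1 hs, ρ g y, ih hy, ?_⟩
      rw [map_sub, ← AlgEquiv.mul_apply, ← AlgEquiv.mul_apply, ← map_mul, ← map_mul]
      congr 3
      group

lemma Dh_stab {H : Subgroup G} {g : G} (hg : g ∈ H) (a : ℕ) {x : K}
    (hx : x ∈ Dh ρ φ X P H a) : ρ g x ∈ Dh ρ φ X P H a := by
  refine Dh_conj hρX hφ (H := H) (H' := H) (g := g) (fun s => ?_) a hx
  constructor
  · intro hs
    exact H.mul_mem (H.mul_mem hg hs) (H.inv_mem hg)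
  · intro hs
    have h1 := H.mul_mem (H.mul_mem (H.inv_mem hg) hs) hg
    have e : g⁻¹ * (g * s * g⁻¹) * g = s := by group
    rwa [e] at h1

/-- The filtration of a cyclic subgroup. -/
lemma Dh_cyc {H : Subgroup G} {τ : G} (hτ : H = Subgroup.zpowers τ) (a : ℕ) (ha : 1 ≤ a) :
    Dh ρ φ X P H (a + 1) = AddSubgroup.closure {x | ∃ y ∈ Dh ρ φ X P H a, x = ρ τ y - y} := by
  classical
  have hτH : τ ∈ H := by rw [hτ]; exact Subgroup.mem_zpowers τ
  rw [Dh_add a ha]
  apply le_antisymm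
  · rw [AddSubgroup.closure_le]
    rintro _ ⟨h, hh, y, hy, rfl⟩
    rw [hτ, mem_zpowers_iff_mem_range_orderOf] at hh
    obtain ⟨i, -, rfl⟩ := Finset.mem_image.1 hh
    clear hh
    rw [SetLike.mem_coe]
    induction i with
    | zero =>
      rw [pow_zero, map_one, AlgEquiv.one_apply, sub_self]
      exact zero_mem _
    | succ i ih =>
      have e : ρ (τ ^ (i + 1)) y - y = (ρ τ (ρ (τ ^ i) y) - ρ (τ ^ i) y) + (ρ (τ ^ i) y - y) := by
        rw [pow_succ', map_mul, AlgEquiv.mul_apply]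
        ring
      rw [e]
      have h1 : ρ (τ ^ i) y ∈ Dh ρ φ X P H a := Dh_stab hρX hφ (H.pow_mem hτH i) a hy
      exact add_mem (AddSubgroup.subset_closure ⟨_, h1, rfl⟩) ih
  · rw [AddSubgroup.closure_le]
    rintro _ ⟨y, hy, rfl⟩
    exact AddSubgroup.subset_closure ⟨τ, hτH, y, hy, rfl⟩

omit hρX hφ in
/-- The kernel of the norm of a cyclic subgroup. -/
lemma KH_cyc {H : Subgroup G} {τ : G} (hτ : H = Subgroup.zpowers τ) (m : Λ) :
    m ∈ KH φ H ↔ m ∈ KN (ah (φ τ)) (orderOf τ) := by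
  classical
  have h1 : ∀ (i : ℕ) x, (ah (φ τ))^[i] x = φ (τ ^ i) x := by
    intro i
    induction i with
    | zero => intro x; rw [pow_zero, map_one]; rfl
    | succ i ih =>
      intro x
      rw [Function.iterate_succ_apply', ih, pow_succ', map_mul]
      rfl
  rw [mem_KN]
  simp only [h1]
  have h2 : ∑ i ∈ Finset.range (orderOf τ), φ (τ ^ i) m =
      ∑ g : G, (if g ∈ H then φ g m else 0) := by
    rw [← Finset.sum_filter]
    symm
    have h3 : Finset.univ.filter (fun g => g ∈ H) =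
        (Finset.range (orderOf τ)).image fun i => τ ^ i := by
      ext g
      rw [Finset.mem_filter, hτ, ← mem_zpowers_iff_mem_range_orderOf]
      simp
    rw [h3, Finset.sum_image]
    intro i hi i' hi' h
    exact pow_injOn_Iio_orderOf (by simpa using hi) (by simpa using hi') h
  rw [h2]
  unfold KH
  rw [Set.mem_ofPred_eq]

/-- The filtration is contained in the group of the coordinates. -/
lemma Dh_le {H : Subgroup G} (a : ℕ) : Dh ρ φ X P H a ≤ AddSubgroup.closure (X '' P) := by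
  induction a with
  | zero => exact le_rfl
  | succ a ih =>
    rcases Nat.eq_zero_or_pos a with h | h
    · subst h
      rw [zero_add, Dh_one, AddSubgroup.closure_le]
      rintro _ ⟨m, hm, m', hm', -, rfl⟩
      exact AddSubgroup.sub_mem _ (AddSubgroup.subset_closure ⟨m, hm, rfl⟩)
        (AddSubgroup.subset_closure ⟨m', hm', rfl⟩)
    · rw [Dh_add a h, AddSubgroup.closure_le]
      rintro _ ⟨s, hs, y, hy, rfl⟩
      exact AddSubgroup.sub_mem _ (ih (Dh_stab hρX hφ hs a hy)) (ih hy)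

/-- The finite set of the homogeneous coordinates. -/
theorem exists_coord (hX : ∀ m, X m ≠ 0) (hPf : P.Finite) (hPn : P.Nonempty) :
    ∃ (m : ℕ) (z : Fin (m + 1) → K), (∀ j, z j ≠ 0) ∧
      (∀ i, z i ∈ AddSubgroup.closure (X '' P)) ∧ (∀ μ ∈ P, X μ ∈ Set.range z) ∧
      (∀ g i, ∃ i', ρ g (z i) = z i') ∧
      ∀ (H : Subgroup G) (a : ℕ), a ≤ Nat.card G → ∀ x ∈ Dh ρ φ X P H a,
        x ∈ AddSubgroup.closure {y | y ∈ Dh ρ φ X P H a ∧ ∃ j, y = z j} := by
  classical
  have hXP : (X '' P).Finite := hPf.image X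
  -- finite generation
  have hfg : ∀ (x : Subgroup G × ℕ), ∃ F : Finset K,
      AddSubgroup.closure (F : Set K) = Dh ρ φ X P x.1 x.2 := by
    rintro ⟨H, a⟩
    have h1 : (AddSubgroup.toIntSubmodule (AddSubgroup.closure (X '' P))).FG := by
      refine ⟨hXP.toFinset, ?_⟩
      rw [hXP.coe_toFinset]
      apply le_antisymm
      · rw [Submodule.span_le]
        intro x hx
        exact AddSubgroup.subset_closure hx
      · intro x hx
        have hx' : x ∈ AddSubgroup.closure (X '' P) := hx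
        clear hx
        induction hx' using AddSubgroup.closure_induction with
        | mem x hx => exact Submodule.subset_span hx
        | zero => exact zero_mem _
        | add x y _ _ hx' hy' => exact add_mem hx' hy'
        | neg x _ hx' => exact neg_mem hx'
    have h2 : IsNoetherian ℤ (AddSubgroup.toIntSubmodule (AddSubgroup.closure (X '' P))) :=
      isNoetherian_of_fg_of_noetherian _ h1
    have h3 : (AddSubgroup.toIntSubmodule (Dh ρ φ X P H a)).FG := by
      refine (isNoetherian_submodule.1 h2) _ ?_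
      intro x hx
      exact Dh_le hρX hφ a hx
    obtain ⟨F, hF⟩ := h3
    refine ⟨F, ?_⟩
    dsimp only
    apply le_antisymm
    · rw [AddSubgroup.closure_le]
      intro x hx
      have h4 : x ∈ Submodule.span ℤ (F : Set K) := Submodule.subset_span hx
      rw [hF] at h4
      exact h4
    · intro x hx
      have h4 : x ∈ Submodule.span ℤ (F : Set K) := by
        rw [hF]
        exact hx
      clear hx
      induction h4 using Submodule.span_induction with
      | mem x hx => exact AddSubgroup.subset_closure hx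
      | zero => exact zero_mem _
      | add x y _ _ hx' hy' => exact add_mem hx' hy'
      | smul c x _ hx' => exact zsmul_mem hx' c
  choose F hF using hfg
  have hsub : Finite (Subgroup G) := inferInstance
  have := Fintype.ofFinite (Subgroup G)
  let I0 : Set K := X '' P ∪ ⋃ H : Subgroup G, ⋃ a ∈ Finset.range (Nat.card G + 1),
    (F (H, a) : Set K)
  have hI0f : I0.Finite := by
    refine hXP.union (Set.finite_iUnion fun H => ?_)
    exact (Finset.finite_toSet _).biUnion fun a _ => Finset.finite_toSet _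
  let I : Set K := (⋃ g : G, (ρ g) '' I0) \ {0}
  have hIf : I.Finite := (Set.finite_iUnion fun g => hI0f.image _).sdiff
  have hI0D : ∀ x ∈ I0, x ∈ AddSubgroup.closure (X '' P) := by
    rintro x (hx | hx)
    · exact AddSubgroup.subset_closure hx
    · obtain ⟨H, hx⟩ := Set.mem_iUnion.1 hx
      obtain ⟨a, ha, hx⟩ := Set.mem_iUnion₂.1 hx
      have h1 : x ∈ Dh ρ φ X P H a := by
        rw [← hF (H, a)]
        exact AddSubgroup.subset_closure hx
      exact Dh_le hρX hφ a h1
  have hI0I : ∀ x ∈ I0, x ≠ 0 → x ∈ I := by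
    intro x hx hx0
    refine ⟨Set.mem_iUnion.2 ⟨1, x, hx, ?_⟩, hx0⟩
    rw [map_one, AlgEquiv.one_apply]
  obtain ⟨μ0, hμ0⟩ := hPn
  have hne : I.Nonempty := ⟨X μ0, hI0I _ (Or.inl ⟨μ0, hμ0, rfl⟩) (hX μ0)⟩
  obtain ⟨m, z, hz⟩ : ∃ (m : ℕ) (z : Fin (m + 1) → K), Set.range z = I := by
    have hcard : 0 < hIf.toFinset.card := by
      rw [Finset.card_pos, hIf.toFinset_nonempty]
      exact hne
    obtain ⟨m, hm⟩ : ∃ m, hIf.toFinset.card = m + 1 := ⟨hIf.toFinset.card - 1, by omega⟩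
    let e := (hIf.toFinset.equivFinOfCardEq hm).symm
    refine ⟨m, fun i => e i, ?_⟩
    ext x
    constructor
    · rintro ⟨i, rfl⟩
      exact hIf.mem_toFinset.1 (e i).2
    · intro hx
      refine ⟨e.symm ⟨x, hIf.mem_toFinset.2 hx⟩, ?_⟩
      simp
  have hzI : ∀ i, z i ∈ I := fun i => by rw [← hz]; exact ⟨i, rfl⟩
  refine ⟨m, z, fun j => (hzI j).2, fun i => ?_, fun μ hμ => ?_, fun g i => ?_, ?_⟩
  · obtain ⟨g, x, hx, hxi⟩ := Set.mem_iUnion.1 (hzI i).1
    rw [← hxi]
    exact Dh_conj hρX hφ (H := ⊥) (H' := ⊥) (g := g) (fun s => by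
      rw [Subgroup.mem_bot, Subgroup.mem_bot]
      constructor
      · rintro rfl
        group
      · intro h
        have e : s = g⁻¹ * (g * s * g⁻¹) * g := by group
        rw [e, h]
        group) 0 (hI0D x hx)
  · rw [hz]
    exact hI0I _ (Or.inl ⟨μ, hμ, rfl⟩) (hX μ)
  · obtain ⟨⟨g', x, hx, hxi⟩, h0⟩ : (∃ g', z i ∈ (ρ g') '' I0) ∧ z i ≠ 0 :=
      ⟨Set.mem_iUnion.1 (hzI i).1, (hzI i).2⟩
    have h1 : ρ g (z i) ∈ I := by
      refine ⟨Set.mem_iUnion.2 ⟨g * g', x, hx, ?_⟩, fun h => h0 ?_⟩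
      · rw [map_mul, AlgEquiv.mul_apply, hxi]
      · exact (map_eq_zero_iff _ (ρ g).injective).1 h
    rw [← hz] at h1
    obtain ⟨i', hi'⟩ := h1
    exact ⟨i', hi'.symm⟩
  · intro H a ha x hx
    rw [← hF (H, a)] at hx
    induction hx using AddSubgroup.closure_induction with
    | mem x hx =>
      by_cases hx0 : x = 0
      · rw [hx0]
        exact zero_mem _
      · have h1 : x ∈ Dh ρ φ X P H a := by
          rw [← hF (H, a)]
          exact AddSubgroup.subset_closure hx
        have h2 : x ∈ I := hI0I x (Or.inr (Set.mem_iUnion.2 ⟨H, Set.mem_iUnion₂.2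
          ⟨a, Finset.mem_range.2 (by omega), hx⟩⟩)) hx0
        rw [← hz] at h2
        obtain ⟨j, rfl⟩ := h2
        exact AddSubgroup.subset_closure ⟨h1, j, rfl⟩
    | zero => exact zero_mem _
    | add x y _ _ hx hy => exact add_mem hx hy
    | neg x _ hx => exact neg_mem hx

end Pool.Agent.Zk15
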