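import Pool.Agent.Zk15.Rg
import Pool.Agent.Zk15.Dfil
import Pool.Agent.Y71.H.RamEb
import Pool.Agent.Y363.G.Ram1

/-!
# Weights at the wildly ramified primes
-/

set_option autoImplicit false
set_option linter.unusedSectionVars false
set_option linter.overlappingInstances false

namespace Pool.Agent.Zk15

open Pool.Agent.Y223.G
open Pool.Agent.Y71.H (ram1E Wil mem_Wil Wil_mv)
open Pool.Agent.Y290.G (mv T_inv T_inv' mem_mv mem_mv' mv_pow conj_mv zp)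
open Pool.Agent.R383.TM (WR WR_s WR_e WR_o WR_z FIX WD Wild)

variable {k O K G : Type} [CommRing k] [IsDomain k] [CommRing O] [IsDomain O]
  [IsDedekindDomain O] [Field K] [Group G] [Algebra k O] [Algebra O K] [Algebra k K]
  [IsScalarTower k O K] {ρ : G →* (K ≃ₐ[k] K)} {T : G →* (O ≃ₐ[k] O)}

/-- The jump. -/
noncomputable def lP (T : G →* (O ≃ₐ[k] O)) (𝔓 : Ideal O) : ℕ :=
  sSup {l | ∀ h ∈ Wil T 𝔓, ∀ o, T h o - o ∈ 𝔓 ^ (l + 1)}

theorem wild_facts [Finite G] (h : GE k O K G ρ T) {𝔓 : Ideal O} (h𝔓 : 𝔓.IsMaximal) {g : G}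
    (hg1 : g ≠ 1) (hg : g ∈ Wil T 𝔓) :
    (orderOf g).Prime ∧ Wil T 𝔓 = Subgroup.zpowers g ∧ 0 < lP T 𝔓 ∧
      (∀ o, T g o - o ∈ 𝔓 ^ (lP T 𝔓 + 1)) ∧ (∃ π ∈ 𝔓, T g π - π ∉ 𝔓 ^ (lP T 𝔓 + 2)) ∧
      ((orderOf g : ℕ) : O) ∈ 𝔓 ^ ((orderOf g - 1) * lP T 𝔓) := by
  have hbot : 𝔓 ≠ ⊥ := by
    rintro rfl
    apply hg1
    refine h.fai g fun o => ?_
    have h1 := hg.1 o
    rwa [Ideal.mem_bot, sub_eq_zero] at h1
  obtain ⟨p, τ₀, hp, hτ₀, hz⟩ := h.inr 𝔓 h𝔓 hbot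
  have hgz : g ∈ Subgroup.zpowers τ₀ := hz g hg.1 hg.2
  have hτz : τ₀ ∈ Subgroup.zpowers g := zp hp hτ₀ hgz hg1
  have hgp : g ^ p = 1 := by
    obtain ⟨i, rfl⟩ := Subgroup.mem_zpowers_iff.1 hgz
    rw [← zpow_natCast, ← zpow_mul, mul_comm, zpow_mul, zpow_natCast, hτ₀, one_zpow]
  have := Fact.mk hp
  have hord : orderOf g = p := orderOf_eq_prime hgp hg1
  have hW : Wil T 𝔓 = Subgroup.zpowers g := by
    apply le_antisymm
    · intro s hs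
      have h1 := hz s hs.1 hs.2
      exact (Subgroup.zpowers_le.2 hτz) h1
    · rw [Subgroup.zpowers_le]
      exact hg
  obtain ⟨l, hl1, ⟨π, hπ, hl2⟩, hl3, -⟩ := ram1E Pool.Agent.Y363.G.t_RAM1 h hp hgp hg1 h𝔓 hbot
    hg.1
  have hl0 : 0 < l := by
    rw [Nat.pos_iff_ne_zero]
    rintro rfl
    exact hl2 (hg.2 π hπ)
  have hmem : ∀ s ∈ Wil T 𝔓, ∀ o, T s o - o ∈ 𝔓 ^ (l + 1) := by
    classical
    intro s hs
    rw [hW, mem_zpowers_iff_mem_range_orderOf] at hs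
    obtain ⟨i, -, rfl⟩ := Finset.mem_image.1 hs
    clear hs
    induction i with
    | zero =>
      intro o
      rw [pow_zero, map_one, AlgEquiv.one_apply, sub_self]
      exact zero_mem _
    | succ i ih =>
      intro o
      have e : T (g ^ (i + 1)) o - o = (T g (T (g ^ i) o) - T (g ^ i) o) + (T (g ^ i) o - o) := by
        rw [pow_succ', map_mul, AlgEquiv.mul_apply]
        ring
      rw [e]
      exact add_mem (hl1 _) (ih o)
  have hgreat : IsGreatest {l | ∀ h ∈ Wil T 𝔓, ∀ o, T h o - o ∈ 𝔓 ^ (l + 1)} l := by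
    refine ⟨hmem, fun l' hl' => ?_⟩
    by_contra hcon
    rw [not_le] at hcon
    apply hl2
    exact Ideal.pow_le_pow_right (by omega) (hl' g hg π)
  have hlP : lP T 𝔓 = l := hgreat.csSup_eq
  rw [hlP, hord]
  exact ⟨hp, hW, hl0, hl1, ⟨π, hπ, hl2⟩, hl3⟩

/-- The jumps of conjugate primes. -/
lemma lP_mv (g : G) (𝔓 : Ideal O) : lP T (mv T g 𝔓) = lP T 𝔓 := by
  unfold lP
  congr 1
  ext l
  constructor
  · intro hl s hs o
    have h1 := hl (g * s * g⁻¹) ((Wil_mv g s 𝔓).2 hs) (T g o)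
    rw [← mv_pow, conj_mv, T_inv'] at h1
    exact h1
  · intro hl s hs o
    have h1 : g * (g⁻¹ * s * g) * g⁻¹ = s := by group
    rw [← h1, ← mv_pow, conj_mv]
    refine hl _ ?_ _
    rw [← Wil_mv g, h1]
    exact hs

lemma card_mv [Finite G] (g : G) (𝔓 : Ideal O) :
    Nat.card (Wil T (mv T g 𝔓)) = Nat.card (Wil T 𝔓) := by
  have h1 : Wil T (mv T g 𝔓) = (Wil T 𝔓).map (MulAut.conj g).toMonoidHom := by
    ext s
    rw [Subgroup.mem_map]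
    constructor
    · intro hs
      refine ⟨g⁻¹ * s * g, ?_, ?_⟩
      · rw [← Wil_mv g]
        have h1 : g * (g⁻¹ * s * g) * g⁻¹ = s := by group
        rwa [h1]
      · change g * (g⁻¹ * s * g) * g⁻¹ = s
        group
    · rintro ⟨s, hs, rfl⟩
      exact (Wil_mv g s 𝔓).2 hs
  rw [h1]
  exact Nat.card_congr ((Wil T 𝔓).equivMapOfInjective _ (MulAut.conj g).injective).symm.toEquiv

variable {Λ : Type} [AddCommGroup Λ] {n : ℕ}

/-- **The weights.** -/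
theorem wd_main [Finite G] (h : GE k O K G ρ T) (φ : G →* (Λ ≃ₗ[ℤ] Λ)) {X : Λ → K}
    (X0 : X 0 = 1) (Xa : ∀ a b, X (a + b) = X a * X b) (li : LinearIndependent O X)
    (hρX : ∀ g m, ρ g (X m) = X (φ g m)) {P : Set Λ} {V : Set (Λ × Module.Basis (Fin n) ℤ Λ)}
    (hSP : SP P V) (hPf : P.Finite) (hPn : P.Nonempty) (hVf : V.Finite)
    (hφ : ∀ g, ∀ m ∈ P, φ g m ∈ P) :
    ∃ (N : ℕ) (m : ℕ) (z : Fin (m + 1) → K) (W : Ideal O → Fin (m + 1) → ℕ), 0 < N ∧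
      SP (MS N P) (MV N V) ∧ (∀ j, z j ≠ 0) ∧ (∀ g j, ∃ i, ρ g (z j) = z i) ∧
      (∀ i, z i ∈ AddSubgroup.closure (X '' MS N P)) ∧ (∀ μ ∈ MS N P, X μ ∈ Set.range z) ∧
      (∀ j, IsRegularRing (Algebra.adjoin O (Set.range fun i => z i / z j))) ∧
      WD k O K G ρ T z (fun _ => 1) W := by
  classical
  have := Fintype.ofFinite G
  obtain ⟨N, hN, hSPN, hPV⟩ := hSP.mul φ hVf hφ
  have hφN : ∀ g, ∀ m ∈ MS N P, φ g m ∈ MS N P := fun g m hm => MS_map (ah (φ g)) (hφ g) hm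
  have hXne : ∀ m, X m ≠ 0 := X_ne X0 Xa
  have hPN : (MS N P).Nonempty := by
    obtain ⟨m, hm⟩ := hPn
    exact ⟨N • m, Multiset.replicate N m, Multiset.card_replicate _ _, fun x hx => by
      rw [Multiset.eq_of_mem_replicate hx]; exact hm, Multiset.sum_replicate _ _⟩
  obtain ⟨m, z, hz0, hzD, hPz, hst, hgen⟩ := exists_coord (ρ := ρ) (φ := φ) hρX hφN hXne
    (MS_finite hPf N) hPN
  have hPT : PT O X (MS N P) (MV N V) :=
    { X0 := X0, Xa := Xa, li := li, vm := hSPN.vm, vb := hSPN.vb, cone := hSPN.cone,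
      cvx := hSPN.cvx }
  have hch : ∀ j, IsRegularRing (Algebra.adjoin O (Set.range fun i => z i / z j)) := fun j =>
    hPT.chart hz0 hzD hPz j
  let D : Subgroup G → ℕ → AddSubgroup K := Dh ρ φ X (MS N P)
  let aa : Ideal O → Fin (m + 1) → ℕ := fun 𝔓 i =>
    Nat.findGreatest (fun a => z i ∈ D (Wil T 𝔓) a) (Nat.card (Wil T 𝔓))
  let W : Ideal O → Fin (m + 1) → ℕ := fun 𝔓 i => aa 𝔓 i * lP T 𝔓
  have haa : ∀ 𝔓 i, z i ∈ D (Wil T 𝔓) (aa 𝔓 i) := fun 𝔓 i =>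
    Nat.findGreatest_spec (P := fun a => z i ∈ D (Wil T 𝔓) a) (Nat.zero_le _) (hzD i)
  have haale : ∀ 𝔓 i, aa 𝔓 i ≤ Nat.card (Wil T 𝔓) := fun 𝔓 i => Nat.findGreatest_le _
  have hlea : ∀ 𝔓 i a, a ≤ Nat.card (Wil T 𝔓) → z i ∈ D (Wil T 𝔓) a → a ≤ aa 𝔓 i :=
    fun 𝔓 i a ha hz => Nat.le_findGreatest ha hz
  -- the data at a prime
  have key : ∀ (𝔓 : Ideal O), 𝔓.IsMaximal → ∀ g, g ≠ 1 → Wild T g 𝔓 →
      ∃ S : Dat k O K Λ n, S.𝔓 = 𝔓 ∧ S.l = lP T 𝔓 ∧ S.τ = ρ g ∧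
        (S.T : O → O) = T g ∧ CH S z (aa 𝔓) := by
    intro 𝔓 h𝔓 g hg1 hg
    have hgW : g ∈ Wil T 𝔓 := hg
    obtain ⟨hp, hW, hl0, hdv, hpi, hpp⟩ := wild_facts h h𝔓 hg1 hgW
    have hcard : Nat.card (Wil T 𝔓) = orderOf g := by
      rw [hW]
      exact Nat.card_zpowers g
    have htp : ∀ x, (ah (φ g))^[orderOf g] x = x := by
      have h1 : ∀ (i : ℕ) x, (ah (φ g))^[i] x = φ (g ^ i) x := by
        intro i
        induction i with
        | zero => intro x; rw [pow_zero, map_one]; rfl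
        | succ i ih =>
          intro x
          rw [Function.iterate_succ_apply', ih, pow_succ', map_mul]
          rfl
      intro x
      rw [h1, pow_orderOf_eq_one, map_one]
      rfl
    let S : Dat k O K Λ n :=
      { X := X, t := ah (φ g), p := orderOf g, l := lP T 𝔓, τ := ρ g,
        T := ((T g : O ≃ₐ[k] O) : O →+* O), 𝔓 := 𝔓, P := MS N P, D := D (Wil T 𝔓),
        V := MV N V, inj := h.inj, X0 := X0, Xa := Xa, li := li, pp := hp, tp := htp,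
        τX := fun m => hρX g m, com := fun o => h.com g o, l0 := hl0, mx := h𝔓, dv := hdv,
        hp := hpp, pi := hpi, tP := hφN g,
        hV := fun v b hvb => hPV v b hvb g _ hp rfl, cvx := hSPN.cvx, D0 := rfl,
        D1 := by
          have h1 : ∀ m, m ∈ KH φ (Wil T 𝔓) ↔ m ∈ KN (ah (φ g)) (orderOf g) := KH_cyc hW
          change Dh ρ φ X (MS N P) (Wil T 𝔓) 1 = _
          rw [Dh_one]
          simp only [h1],
        Dτ := fun a x hx => Dh_stab hρX hφN hgW a hx,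
        Ds := fun a ha => Dh_cyc hρX hφN hW a ha }
    refine ⟨S, rfl, rfl, rfl, rfl, ?_⟩
    refine ⟨hz0, haa 𝔓, fun i => ?_, fun i hi x hx => ?_⟩
    · change aa 𝔓 i ≤ orderOf g
      rw [← hcard]
      exact haale 𝔓 i
    · have hi' : i ≤ Nat.card (Wil T 𝔓) := by rw [hcard]; exact hi
      have hi2 : i ≤ Nat.card G := hi'.trans (Nat.le_of_dvd Nat.card_pos (Subgroup.card_subgroup_dvd_card _))
      have h1 := hgen (Wil T 𝔓) i hi2 x hx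
      refine (AddSubgroup.closure_mono ?_) h1
      rintro y ⟨hy, j, rfl⟩
      exact ⟨j, hlea 𝔓 j i hi' hy, rfl⟩
  refine ⟨N, m, z, W, hN, hSPN, hz0, fun g j => hst g j, hzD, hPz, hch, ?_⟩
  refine ⟨fun _ => Nat.one_pos, ?_, ?_, ?_⟩
  · rintro 𝔓 h𝔓 ⟨g, hg1, hg⟩ j
    obtain ⟨S, h1, h2, h3, h4, hC⟩ := key 𝔓 h𝔓 g hg1 hg
    have h5 := hC.reg (j := j) Pool.Agent.Y901.G.t_WREG (hch j)
    unfold RZ at h5
    rw [h1, h2] at h5
    exact h5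
  · rintro 𝔓 h𝔓 ⟨g₁, hg1, hg₁⟩ g 𝔓' hg𝔓
    have hmv : 𝔓' = mv T g 𝔓 := by
      ext o
      rw [mem_mv, hg𝔓, T_inv]
    refine ⟨rfl, fun i j => ?_⟩
    obtain ⟨i', hi'⟩ := hst g i
    have hc : ∀ s, s ∈ Wil T 𝔓 ↔ g * s * g⁻¹ ∈ Wil T 𝔓' := fun s => by rw [hmv, Wil_mv]
    have h1 : z i' ∈ D (Wil T 𝔓') (aa 𝔓 i) := by
      rw [← hi']
      exact Dh_conj hρX hφN hc _ (haa 𝔓 i)
    have h2 : aa 𝔓 i ≤ aa 𝔓' i' := by
      refine hlea 𝔓' i' _ ?_ h1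
      rw [hmv, card_mv]
      exact haale 𝔓 i
    rw [hi']
    refine hm_low WR_s (WR_z i') ?_
    have h3 : lP T 𝔓' = lP T 𝔓 := by rw [hmv, lP_mv]
    change ((aa 𝔓 i * lP T 𝔓 : ℕ) : ℤ) ≤ ((aa 𝔓' i' * lP T 𝔓' : ℕ) : ℤ)
    rw [h3]
    exact_mod_cast Nat.mul_le_mul_right _ h2
  · intro 𝔓 h𝔓 g hg1 hg
    obtain ⟨S, h1, h2, h3, h4, hC⟩ := key 𝔓 h𝔓 g hg1 hg
    obtain ⟨hp, hW, hl0, hdv, hpi, hpp⟩ := wild_facts h h𝔓 hg1 hg
    refine ⟨lP T 𝔓, lP T 𝔓, hl0, by rw [one_mul], hdv, fun i j => ?_, fun j x hx => ?_⟩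
    · have h5 := (hC.RH (j := j)).dd (hC.ap i) (hC.zD i)
      unfold RZ at h5
      rw [h1, h2, h3] at h5
      exact h5
    · subst h1
      have h6 : (fun i => aa S.𝔓 i * S.l) = W S.𝔓 := by
        funext i
        change _ = aa S.𝔓 i * lP T S.𝔓
        rw [h2]
      have h5 := fun x => hC.fix (j := j) x
      unfold RZ at h5
      rw [h6, h2, h3, h4] at h5
      exact h5 x hx

end Pool.Agent.Zk15
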