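import Pool.Agent.Zk15.Loc2
import Pool.Agent.R383.TM.Bridge

/-!
# Regularity of the charts of a smooth toric scheme
-/

set_option autoImplicit false
set_option linter.unusedSectionVars false

namespace Pool.Agent.Zk15

open Pool.Agent.Y223.G IsLocalRing
open Pool.Agent.R383.TM (WR WR_s WR_e WR_o WR_z FIX BR BR_eq mo mo_eq)

section lo

variable {K : Type} [Field K]

/-- The localization at `s`, in the field. -/
def lo (A : Subring K) (s : A) : Subring K where
  carrier := {y | ∃ n : ℕ, (s : K) ^ n * y ∈ A}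
  mul_mem' := by
    rintro x y ⟨n, hn⟩ ⟨n', hn'⟩
    refine ⟨n + n', ?_⟩
    have e : (s : K) ^ (n + n') * (x * y) = ((s : K) ^ n * x) * ((s : K) ^ n' * y) := by
      rw [pow_add]; ring
    rw [e]
    exact A.mul_mem hn hn'
  one_mem' := ⟨0, by rw [pow_zero, one_mul]; exact A.one_mem⟩
  add_mem' := by
    rintro x y ⟨n, hn⟩ ⟨n', hn'⟩
    refine ⟨n + n', ?_⟩
    have e : (s : K) ^ (n + n') * (x + y) = (s : K) ^ n' * ((s : K) ^ n * x) +
        (s : K) ^ n * ((s : K) ^ n' * y) := by
      rw [pow_add]; ring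
    rw [e]
    exact A.add_mem (A.mul_mem (A.pow_mem s.2 _) hn) (A.mul_mem (A.pow_mem s.2 _) hn')
  zero_mem' := ⟨0, by rw [mul_zero]; exact A.zero_mem⟩
  neg_mem' := by
    rintro x ⟨n, hn⟩
    exact ⟨n, by rw [mul_neg]; exact A.neg_mem hn⟩

lemma mem_lo {A : Subring K} {s : A} {y : K} : y ∈ lo A s ↔ ∃ n : ℕ, (s : K) ^ n * y ∈ A := Iff.rfl

lemma le_lo (A : Subring K) (s : A) : A ≤ lo A s := fun y hy =>
  ⟨0, by rw [pow_zero, one_mul]; exact hy⟩

theorem isLoc_lo {A : Subring K} {s : A} (hs : (s : K) ≠ 0) :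
    @IsLocalization.Away A _ s (lo A s) _ (Subring.inclusion (le_lo A s)).toAlgebra := by
  let _ := (Subring.inclusion (le_lo A s)).toAlgebra
  refine ⟨⟨?_, ?_, ?_⟩⟩
  · rintro ⟨_, n, rfl⟩
    rw [map_pow]
    refine IsUnit.pow n (IsUnit.of_mul_eq_one ⟨(s : K)⁻¹, 1, ?_⟩ ?_)
    · rw [pow_one, mul_inv_cancel₀ hs]
      exact A.one_mem
    · apply Subtype.ext
      exact mul_inv_cancel₀ hs
  · rintro ⟨y, n, hn⟩
    refine ⟨⟨⟨_, hn⟩, ⟨_, n, rfl⟩⟩, ?_⟩
    apply Subtype.ext
    change y * ((s ^ n : A) : K) = (s : K) ^ n * y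
    rw [SubmonoidClass.coe_pow, mul_comm]
  · intro x y hxy
    refine ⟨1, ?_⟩
    have h1 : (x : K) = y := congrArg (fun z : lo A s => (z : K)) hxy
    rw [Subtype.ext h1]

end lo

/-- The data of a smooth polytope. -/
structure PT (O : Type) {K Λ : Type} [CommRing O] [Field K] [Algebra O K] [AddCommGroup Λ]
    {n : ℕ} (X : Λ → K) (P : Set Λ) (V : Set (Λ × Module.Basis (Fin n) ℤ Λ)) : Prop where
  X0 : X 0 = 1
  Xa : ∀ a b, X (a + b) = X a * X b
  li : LinearIndependent O X
  vm : ∀ v b, (v, b) ∈ V → v ∈ P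
  vb : ∀ v b, (v, b) ∈ V → ∀ i, v + b i ∈ P
  cone : ∀ v b, (v, b) ∈ V → ∀ m ∈ P, ∀ i, 0 ≤ b.repr (m - v) i
  cvx : ∀ m ∈ P, ∃ s : Multiset Λ, s ≠ 0 ∧ (∀ v ∈ s, ∃ b, (v, b) ∈ V) ∧
    Multiset.card s • m = s.sum

variable {O K Λ : Type} [CommRing O] [Field K] [Algebra O K] [AddCommGroup Λ] {n : ℕ}
  {X : Λ → K} {P : Set Λ} {V : Set (Λ × Module.Basis (Fin n) ℤ Λ)}

/-- **The charts are regular.** -/
theorem PT.chart [IsRegularRing O] (h : PT O X P V) {m : ℕ} {z : Fin (m + 1) → K}
    (z0 : ∀ j, z j ≠ 0) (hzD : ∀ i, z i ∈ AddSubgroup.closure (X '' P))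
    (hPz : ∀ m ∈ P, X m ∈ Set.range z) (j : Fin (m + 1)) :
    IsRegularRing (Algebra.adjoin O (Set.range fun i => z i / z j)) := by
  classical
  have hXne : ∀ m, X m ≠ 0 := X_ne h.X0 h.Xa
  have hO : IsNoetherianRing O := inferInstance
  set C := Algebra.adjoin O (Set.range fun i => z i / z j) with hC
  have hCz : ∀ i, z i / z j ∈ C := fun i => Algebra.subset_adjoin ⟨i, rfl⟩
  have hCX : ∀ m ∈ P, X m / z j ∈ C := by
    intro m hm
    obtain ⟨i, hi⟩ := hPz m hm
    rw [← hi]
    exact hCz i
  have hCft : Algebra.FiniteType O C := by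
    rw [← Subalgebra.fg_iff_finiteType]
    exact Subalgebra.fg_def.2 ⟨_, Set.finite_range _, rfl⟩
  have hCn : IsNoetherianRing C := Algebra.FiniteType.isNoetherianRing O C
  rw [isRegularRing_iff]
  intro q hq
  -- a vertex
  obtain ⟨v, b, hvb, hv⟩ : ∃ v b, ∃ hvb : (v, b) ∈ V,
      (⟨X v / z j, hCX v (h.vm v b hvb)⟩ : C) ∉ q := by
    by_contra hcon
    push Not at hcon
    have h1 : ∀ m (hm : m ∈ P), (⟨X m / z j, hCX m hm⟩ : C) ∈ q := by
      intro m hm
      obtain ⟨s, hs0, hs, hsum⟩ := h.cvx m hm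
      have h3 : ∀ s : Multiset Λ, (∀ v ∈ s, ∃ b, (v, b) ∈ V) →
          ∃ c : C, (c : K) = X s.sum / z j ^ Multiset.card s ∧ (s ≠ 0 → c ∈ q) := by
        intro s
        induction s using Multiset.induction_on with
        | empty =>
          intro _
          exact ⟨1, by simp [h.X0], fun h => (h rfl).elim⟩
        | cons a s ih =>
          intro hs
          obtain ⟨b, hb⟩ := hs a (Multiset.mem_cons_self a s)
          obtain ⟨c, hc, -⟩ := ih fun v hv => hs v (Multiset.mem_cons_of_mem hv)
          refine ⟨c * ⟨X a / z j, hCX a (h.vm a b hb)⟩, ?_, fun _ =>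
            q.mul_mem_left _ (hcon a b hb)⟩
          rw [MulMemClass.coe_mul, hc, Multiset.sum_cons, Multiset.card_cons, h.Xa, pow_succ]
          have := z0 j
          field_simp
      obtain ⟨c, hc, hcq⟩ := h3 s hs
      have h4 : (⟨X m / z j, hCX m hm⟩ : C) ^ Multiset.card s = c := by
        apply Subtype.ext
        rw [SubmonoidClass.coe_pow, hc]
        change (X m / z j) ^ Multiset.card s = _
        rw [div_pow, ← X_nsmul h.X0 h.Xa, hsum]
      have h5 := hcq hs0
      rw [← h4] at h5
      exact hq.mem_of_pow_mem _ h5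
    have h2 : ∀ x ∈ AddSubgroup.closure (X '' P), ∃ c ∈ q, ((c : C) : K) = x / z j := by
      intro x hx
      induction hx using AddSubgroup.closure_induction with
      | mem x hx =>
        obtain ⟨m, hm, rfl⟩ := hx
        exact ⟨_, h1 m hm, rfl⟩
      | zero => exact ⟨0, q.zero_mem, by rw [zero_div]; rfl⟩
      | add x y _ _ hx hy =>
        obtain ⟨c, hc, hc'⟩ := hx
        obtain ⟨d, hd, hd'⟩ := hy
        exact ⟨c + d, q.add_mem hc hd, by rw [add_div, ← hc', ← hd']; rfl⟩
      | neg x _ hx =>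
        obtain ⟨c, hc, hc'⟩ := hx
        exact ⟨-c, q.neg_mem hc, by rw [neg_div, ← hc']; rfl⟩
    obtain ⟨c, hc, hc'⟩ := h2 _ (hzD j)
    rw [div_self (z0 j)] at hc'
    have h3 : c = 1 := Subtype.ext hc'
    rw [h3] at hc
    exact hq.ne_top ((Ideal.eq_top_iff_one _).2 hc)
  -- the chart of the vertex
  set T := TC O X (GS b (∅ : Set (Fin n))) with hT
  have hTreg : IsRegularRing T := v_reg h.X0 h.Xa h.li b ∅
  have hTX : ∀ m ∈ P, X m / X v ∈ T := by
    intro m hm
    have e : X m / X v = X (m - v) := by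
      have h1 : X m = X (m - v) * X v := by rw [← h.Xa, sub_add_cancel]
      rw [h1, mul_div_cancel_right₀ _ (hXne v)]
    rw [e]
    exact Algebra.subset_adjoin ⟨_, fun i _ => h.cone v b hvb m hm i, rfl⟩
  have hTz : ∀ i, z i / X v ∈ T := by
    intro i
    have h1 := hzD i
    generalize z i = x at h1
    induction h1 using AddSubgroup.closure_induction with
    | mem x hx =>
      obtain ⟨m, hm, rfl⟩ := hx
      exact hTX m hm
    | zero => rw [zero_div]; exact Subalgebra.zero_mem _
    | add x y _ _ hx hy => rw [add_div]; exact Subalgebra.add_mem _ hx hy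
    | neg x _ hx => rw [neg_div]; exact Subalgebra.neg_mem _ hx
  have hvP := h.vm v b hvb
  let s : C.toSubring := ⟨X v / z j, hCX v hvP⟩
  let s' : T.toSubring := ⟨z j / X v, hTz j⟩
  have hs0 : (s : K) ≠ 0 := div_ne_zero (hXne v) (z0 j)
  have hs0' : (s' : K) ≠ 0 := div_ne_zero (z0 j) (hXne v)
  have hss : (s' : K) * s = 1 := by
    change z j / X v * (X v / z j) = 1
    have := hXne v
    have := z0 j
    field_simp
  have hCT : ∀ y ∈ C, y ∈ lo T.toSubring s' := by
    intro y hy
    rw [hC] at hy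
    induction hy using Algebra.adjoin_induction with
    | mem y hy =>
      obtain ⟨i, rfl⟩ := hy
      refine ⟨1, ?_⟩
      rw [pow_one]
      change z j / X v * (z i / z j) ∈ T
      have e : z j / X v * (z i / z j) = z i / X v := by
        have := z0 j
        field_simp
      rw [e]
      exact hTz i
    | algebraMap r => exact le_lo _ _ (T.algebraMap_mem r)
    | add x y _ _ hx hy => exact add_mem hx hy
    | mul x y _ _ hx hy => exact mul_mem hx hy
  have hTC : ∀ y ∈ T, y ∈ lo C.toSubring s := by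
    intro y hy
    have hy' : y ∈ Algebra.adjoin O (X '' GS b (∅ : Set (Fin n))) := hy
    clear hy
    induction hy' using Algebra.adjoin_induction with
    | mem y hy =>
      obtain ⟨m', hm', rfl⟩ := hy
      refine GS_ind (fun m' => X m' ∈ lo C.toSubring s) ?_ ?_ ?_ ?_ hm'
      · rw [h.X0]; exact one_mem _
      · intro x y hx hy
        rw [h.Xa]
        exact mul_mem hx hy
      · intro i
        refine ⟨1, ?_⟩
        rw [pow_one]
        change X v / z j * X (b i) ∈ C
        have e : X v / z j * X (b i) = X (v + b i) / z j := by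
          rw [h.Xa]
          ring
        rw [e]
        exact hCX _ (h.vb v b hvb i)
      · intro i hi
        exact absurd hi (Set.notMem_empty i)
    | algebraMap r => exact le_lo _ _ (C.algebraMap_mem r)
    | add x y _ _ hx hy => exact add_mem hx hy
    | mul x y _ _ hx hy => exact mul_mem hx hy
  have heq : lo C.toSubring s = lo T.toSubring s' := by
    apply le_antisymm
    · rintro y ⟨n, hn⟩
      have h1 := mul_mem (le_lo _ s' (pow_mem s'.2 n)) (hCT _ hn)
      rwa [← mul_assoc, ← mul_pow, hss, one_pow, one_mul] at h1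
    · rintro y ⟨n, hn⟩
      have h1 := mul_mem (le_lo _ s (pow_mem s.2 n)) (hTC _ hn)
      rwa [← mul_assoc, ← mul_pow, mul_comm (s : K), hss, one_pow, one_mul] at h1
  have hreg1 : IsRegularRing (lo T.toSubring s') := by
    let _ := (Subring.inclusion (le_lo T.toSubring s')).toAlgebra
    have h1 := isLoc_lo hs0'
    have h2 : IsRegularRing T.toSubring := hTreg
    exact regular_of_isLocalization (Submonoid.powers s')
  have hreg2 : IsRegularRing (lo C.toSubring s) := by rw [heq]; exact hreg1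
  let _ := (Subring.inclusion (le_lo C.toSubring s)).toAlgebra
  have h1 := isLoc_lo hs0
  have hq' : (Ideal.comap (RingHom.id C.toSubring) q).IsPrime := hq
  have h3 : IsRegularLocalRing (Localization.AtPrime (R := C.toSubring) q) := by
    refine Pool.Agent.Y563.GW.reg_of_loc (B := lo C.toSubring s) (Submonoid.powers s) q ?_ ?_
    · rw [Set.disjoint_left]
      rintro _ ⟨n, rfl⟩ h2
      exact hv (hq.mem_of_pow_mem n h2)
    · intro p _ _
      infer_instance
  exact h3

/-- The graded ring is noetherian. -/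
theorem WR_noeth {k : Type} [CommRing k] [Algebra k O] [Algebra k K] [IsScalarTower k O K]
    [IsNoetherianRing O] {𝔓 : Ideal O} {e m : ℕ} {W : Fin (m + 1) → ℕ} {z : Fin (m + 1) → K}
    {j : Fin (m + 1)} : IsNoetherianRing (WR k 𝔓 e W z j) := by
  classical
  obtain ⟨F, hF⟩ : 𝔓.FG := IsNoetherian.noetherian 𝔓
  set G' : Set (LaurentPolynomial K) := {mo 1 (-1)} ∪ (fun a => mo (algebraMap O K a) e) '' F ∪
    Set.range fun i => mo (z i / z j) (W i) with hG'
  have hG'f : G'.Finite := ((Set.finite_singleton _).union (F.finite_toSet.image _)).union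
    (Set.finite_range _)
  have h1 : Algebra.adjoin O ({mo 1 (-1)} ∪ {f | ∃ a ∈ 𝔓, f = mo (algebraMap O K a) e} ∪
      Set.range fun i => mo (z i / z j) (W i)) = Algebra.adjoin O G' := by
    apply le_antisymm
    · apply Algebra.adjoin_le
      rintro f ((hf | ⟨a, ha, rfl⟩) | hf)
      · exact Algebra.subset_adjoin (Or.inl (Or.inl hf))
      · rw [← hF] at ha
        induction ha using Submodule.span_induction with
        | mem a ha => exact Algebra.subset_adjoin (Or.inl (Or.inr ⟨a, ha, rfl⟩))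
        | zero =>
          rw [map_zero, mo_eq, hm_zero]
          exact Subalgebra.zero_mem _
        | add a b _ _ ha hb =>
          rw [map_add, mo_eq, hm_add, ← mo_eq, ← mo_eq]
          exact Subalgebra.add_mem _ ha hb
        | smul c a _ ha =>
          have e1 : mo (algebraMap O K (c • a)) e =
              algebraMap O (LaurentPolynomial K) c * mo (algebraMap O K a) e := by
            have e2 : algebraMap O (LaurentPolynomial K) c = hm 0 (algebraMap O K c) := rfl
            rw [e2, mo_eq, mo_eq, smul_eq_mul, map_mul]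
            have e3 := hm_mul (K := K) 0 (e : ℤ) (algebraMap O K c) (algebraMap O K a)
            rw [zero_add] at e3
            exact e3.symm
          rw [e1]
          exact Subalgebra.mul_mem _ (Subalgebra.algebraMap_mem _ _) ha
      · exact Algebra.subset_adjoin (Or.inr hf)
    · apply Algebra.adjoin_le
      rintro f ((hf | ⟨a, ha, rfl⟩) | hf)
      · exact Algebra.subset_adjoin (Or.inl (Or.inl hf))
      · refine Algebra.subset_adjoin (Or.inl (Or.inr ⟨a, ?_, rfl⟩))
        rw [← hF]
        exact Submodule.subset_span ha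
      · exact Algebra.subset_adjoin (Or.inr hf)
  have h2 : IsNoetherianRing (Algebra.adjoin O G') := by
    have h3 : Algebra.FiniteType O (Algebra.adjoin O G') := by
      rw [← Subalgebra.fg_iff_finiteType]
      exact Subalgebra.fg_def.2 ⟨_, hG'f, rfl⟩
    exact Algebra.FiniteType.isNoetherianRing O _
  have h3 : IsNoetherianRing (BR 𝔓 e W z j) := by
    unfold BR
    rw [h1]
    exact h2
  rw [BR_eq (k := k)] at h3
  exact h3

end Pool.Agent.Zk15
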