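import Pool.Agent.Zk15.Lg

/-!
# Differences of an automorphism on the localized graded algebra
-/

set_option autoImplicit false
set_option linter.unusedSectionVars false

namespace Pool.Agent.Zk15

open Pool.Agent.Y223.G
open Pool.Agent.Y86.G5 (im mem_im im_sub im_mul im_prime im_one im_pow)

variable {k K : Type} [CommRing k] [Field K] [Algebra k K]

/-- Induction on the homogeneous components. -/
theorem graded_ind {S : Set (LP K)} (P : ℤ → K → Prop) (hz : ∀ d, P d 0)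
    (ha : ∀ d x y, P d x → P d y → P d (x + y)) (hmu : ∀ d e x y, P d x → P e y → P (d + e) (x * y))
    (hk : ∀ c : k, P 0 (algebraMap k K c)) (hS : ∀ s ∈ S, ∃ d a, s = hm d a ∧ P d a) :
    ∀ f ∈ Algebra.adjoin k S, ∀ d, P d (f.coeff d) := by
  classical
  have hsum : ∀ {ι : Type} (s : Finset ι) (d : ℤ) (g : ι → K), (∀ i ∈ s, P d (g i)) →
      P d (∑ i ∈ s, g i) := by
    intro ι s d g hg
    induction s using Finset.induction_on with
    | empty => rw [Finset.sum_empty]; exact hz d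
    | insert i s hi ih =>
      rw [Finset.sum_insert hi]
      exact ha _ _ _ (hg i (Finset.mem_insert_self _ _))
        (ih fun j hj => hg j (Finset.mem_insert_of_mem hj))
  intro f hf
  induction hf using Algebra.adjoin_induction with
  | mem x hx =>
    intro e
    obtain ⟨d, a, rfl, h⟩ := hS x hx
    rw [coeff_hm]
    split_ifs with h1
    · rw [← h1]; exact h
    · exact hz e
  | algebraMap r =>
    intro d
    rw [algebraMap_LP, coeff_hm]
    split_ifs with h1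
    · rw [← h1]; exact hk r
    · exact hz d
  | add x y _ _ hx hy =>
    intro d
    rw [AddMonoidAlgebra.coeff_add, Finsupp.add_apply]
    exact ha _ _ _ (hx d) (hy d)
  | mul x y _ _ hx hy =>
    intro d
    rw [eq_sum_hm x, eq_sum_hm y, Finset.sum_mul_sum, AddMonoidAlgebra.coeff_sum,
      Finsupp.finsetSum_apply]
    refine hsum _ _ _ fun a _ => ?_
    rw [AddMonoidAlgebra.coeff_sum, Finsupp.finsetSum_apply]
    refine hsum _ _ _ fun b _ => ?_
    rw [hm_mul, coeff_hm]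
    split_ifs with h1
    · rw [← h1]; exact hmu _ _ _ _ (hx a) (hy b)
    · exact hz d

/-- A family of submodules of the localization: `Lg` or `Pg`. -/
structure NT (R : Subalgebra k (LP K)) (Q : Ideal R) (l : ℕ) (N : ℤ → K → Prop) : Prop where
  z : ∀ d, N d 0
  ad : ∀ d x y, N d x → N d y → N d (x + y)
  mu : ∀ d e x y, Lg R Q d x → N e y → N (d + e) (x * y)
  l0 : ∀ x, N l x → Pg R Q 0 x

lemma NT.neg {R : Subalgebra k (LP K)} {Q : Ideal R} [hQ : Q.IsPrime] {l : ℕ} {N : ℤ → K → Prop}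
    (h : NT R Q l N) {d : ℤ} {x : K} (hx : N d x) : N d (-x) := by
  have h1 := h.mu 0 d (-1) x (Lg.one.neg) hx
  rwa [zero_add, neg_one_mul] at h1

lemma NT.sub {R : Subalgebra k (LP K)} {Q : Ideal R} [hQ : Q.IsPrime] {l : ℕ} {N : ℤ → K → Prop}
    (h : NT R Q l N) {d : ℤ} {x y : K} (hx : N d x) (hy : N d y) : N d (x - y) := by
  rw [sub_eq_add_neg]
  exact h.ad _ _ _ hx (h.neg hy)

/-- The property of homogeneous elements. -/
def GG (R : Subalgebra k (LP K)) (Q : Ideal R) (τ : K ≃ₐ[k] K) (l : ℕ) (N : ℤ → K → Prop) (d : ℤ)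
    (x : K) : Prop := Lg R Q d x ∧ Lg R Q d (τ x) ∧ N (d + l) (τ x - x)

section

variable {R : Subalgebra k (LP K)} {Q : Ideal R} [hQ : Q.IsPrime] {τ : K ≃ₐ[k] K} {l : ℕ}
  {N : ℤ → K → Prop}

lemma GG.mul (h : NT R Q l N) {d e : ℤ} {x y : K} (hx : GG R Q τ l N d x)
    (hy : GG R Q τ l N e y) : GG R Q τ l N (d + e) (x * y) := by
  obtain ⟨h1, h2, h3⟩ := hx
  obtain ⟨h4, h5, h6⟩ := hy
  refine ⟨h1.mul h4, by rw [map_mul]; exact h2.mul h5, ?_⟩
  have e1 : τ (x * y) - x * y = τ y * (τ x - x) + x * (τ y - y) := by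
    rw [map_mul]
    ring
  rw [e1]
  have h7 := h.mu _ _ _ _ h5 h3
  have h8 := h.mu _ _ _ _ h1 h6
  have e2 : e + (d + l) = d + e + l := by ring
  have e3 : d + (e + l) = d + e + l := by ring
  rw [e2] at h7
  rw [e3] at h8
  exact h.ad _ _ _ h7 h8

lemma GG.add (h : NT R Q l N) {d : ℤ} {x y : K} (hx : GG R Q τ l N d x)
    (hy : GG R Q τ l N d y) : GG R Q τ l N d (x + y) := by
  obtain ⟨h1, h2, h3⟩ := hx
  obtain ⟨h4, h5, h6⟩ := hy
  refine ⟨h1.add h4, by rw [map_add]; exact h2.add h5, ?_⟩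
  have e1 : τ (x + y) - (x + y) = (τ x - x) + (τ y - y) := by
    rw [map_add]
    ring
  rw [e1]
  exact h.ad _ _ _ h3 h6

lemma GG.zero (h : NT R Q l N) (d : ℤ) : GG R Q τ l N d 0 :=
  ⟨Lg.zero d, by rw [map_zero]; exact Lg.zero d, by rw [map_zero, sub_zero]; exact h.z _⟩

lemma GG.neg (h : NT R Q l N) {d : ℤ} {x : K} (hx : GG R Q τ l N d x) : GG R Q τ l N d (-x) := by
  obtain ⟨h1, h2, h3⟩ := hx
  refine ⟨h1.neg, by rw [map_neg]; exact h2.neg, ?_⟩
  have e1 : τ (-x) - -x = -(τ x - x) := by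
    rw [map_neg]
    ring
  rw [e1]
  exact h.neg h3

/-- The image of a unit is a unit. -/
lemma GG.unit (h : NT R Q l N) {x : K} (hx : GG R Q τ l N 0 x) (hu : ¬ Pg R Q 0 x) :
    τ x ≠ 0 ∧ Lg R Q 0 (τ x)⁻¹ := by
  obtain ⟨h1, h2, h3⟩ := hx
  refine Lg.unit h2 fun h4 => hu ?_
  rw [zero_add] at h3
  have h5 := h.l0 _ h3
  have h6 := h4.sub h5
  rwa [sub_sub_cancel] at h6

/-- Quotients by units. -/
lemma GG.div (h : NT R Q l N) {d : ℤ} {s x : K} (hs : GG R Q τ l N 0 s) (hu : ¬ Pg R Q 0 s)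
    (hx : GG R Q τ l N d (s * x)) : GG R Q τ l N d x := by
  obtain ⟨h1, h2⟩ := GG.unit h hs hu
  obtain ⟨h3, h4⟩ := Lg.unit hs.1 hu
  obtain ⟨h5, h6, h7⟩ := hx
  have e1 : x = s⁻¹ * (s * x) := by field_simp
  have hLx : Lg R Q d x := by
    rw [e1]
    exact h4.mul0 h5
  have e2 : τ x = (τ s)⁻¹ * τ (s * x) := by
    rw [map_mul, inv_mul_cancel_left₀ h1]
  have hLt : Lg R Q d (τ x) := by
    rw [e2]
    exact h2.mul0 h6
  refine ⟨hLx, hLt, ?_⟩
  have e3 : τ x - x = (τ s)⁻¹ * ((τ (s * x) - s * x) - x * (τ s - s)) := by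
    rw [map_mul]
    field_simp
    ring
  rw [e3]
  have h8 := h.mu _ _ _ _ hLx hs.2.2
  rw [zero_add] at h8
  have h9 := h.mu _ _ _ _ h2 (h.sub h7 h8)
  rwa [zero_add] at h9

/-- **The differences.** -/
theorem del (h : NT R Q l N) {S : Set (LP K)} (hR : R = Algebra.adjoin k S)
    (hS : ∀ s ∈ S, ∃ d a, s = hm d a ∧ GG R Q τ l N d a) {d : ℤ} {x : K} (hx : Lg R Q d x) :
    GG R Q τ l N d x := by
  have h1 : ∀ f ∈ Algebra.adjoin k S, ∀ d, GG R Q τ l N d (f.coeff d) := by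
    refine graded_ind (GG R Q τ l N) (fun d => GG.zero h d) (fun d x y => GG.add h)
      (fun d e x y => GG.mul h) (fun c => ?_) hS
    have h2 : hm 0 (algebraMap k K c) ∈ R := R.algebraMap_mem c
    refine ⟨Lg.of h2, ?_, ?_⟩
    · rw [AlgEquiv.commutes]
      exact Lg.of h2
    · rw [AlgEquiv.commutes, sub_self]
      exact h.z _
  obtain ⟨s, hs, hsx⟩ := hx
  have h2 : GG R Q τ l N 0 s := by
    have h3 := h1 (hm 0 s) (by rw [← hR]; exact hs.1) 0
    rwa [coeff_hm_same] at h3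
  have h3 : GG R Q τ l N d (s * x) := by
    have h4 := h1 (hm d (s * x)) (by rw [← hR]; exact hsx) d
    rwa [coeff_hm_same] at h4
  exact GG.div h h2 hs.not h3

lemma NT_Lg (hT : hm (-1) 1 ∈ R) (hTQ : hm (-1) 1 ∈ im R Q) (hl : 0 < l) :
    NT R Q l (Lg R Q) where
  z := Lg.zero
  ad _ _ _ := Lg.add
  mu _ _ _ _ := Lg.mul
  l0 x hx := by
    obtain ⟨s, hs, h⟩ := hx
    refine ⟨s, hs, ?_⟩
    obtain ⟨l', rfl⟩ : ∃ l', l = l' + 1 := ⟨l - 1, by omega⟩
    have h1 := im_mul (hm_low hT h (e := 1) (by push_cast; omega)) hTQ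
    rwa [hm_mul, mul_one] at h1

lemma NT_Pg (hT : hm (-1) 1 ∈ R) : NT R Q l (Pg R Q) where
  z := Pg.zero
  ad _ _ _ := Pg.add
  mu _ _ _ _ := Lg.mulP
  l0 x hx := hx.low hT (by positivity)

end

end Pool.Agent.Zk15
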