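import Pool.Agent.Y223.G.Base

/-!
# Étale coordinates of toric charts
-/

set_option autoImplicit false
set_option linter.unusedSectionVars false

namespace Pool.Agent.Zk15

open MvPolynomial

variable {Λ : Type} [AddCommGroup Λ]

section chars

variable {K : Type} [Field K] {X : Λ → K}

lemma X_nsmul (hX0 : X 0 = 1) (hX : ∀ a b, X (a + b) = X a * X b) (n : ℕ) (a : Λ) :
    X (n • a) = X a ^ n := by
  induction n with
  | zero => rw [zero_smul, hX0, pow_zero]
  | succ n ih => rw [succ_nsmul, hX, ih, pow_succ]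

lemma X_sum (hX0 : X 0 = 1) (hX : ∀ a b, X (a + b) = X a * X b) {ι : Type} (s : Finset ι)
    (f : ι → Λ) : X (∑ i ∈ s, f i) = ∏ i ∈ s, X (f i) := by
  classical
  induction s using Finset.induction_on with
  | empty => rw [Finset.sum_empty, Finset.prod_empty, hX0]
  | insert i s hi ih => rw [Finset.sum_insert hi, Finset.prod_insert hi, hX, ih]

lemma X_neg (hX0 : X 0 = 1) (hX : ∀ a b, X (a + b) = X a * X b) (a : Λ) : X a * X (-a) = 1 := by
  rw [← hX, add_neg_cancel, hX0]

lemma X_ne (hX0 : X 0 = 1) (hX : ∀ a b, X (a + b) = X a * X b) (a : Λ) : X a ≠ 0 := fun h => by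
  have := X_neg hX0 hX a
  rw [h, zero_mul] at this
  exact zero_ne_one this

end chars

variable {O K : Type} [CommRing O] [Field K] [Algebra O K] {X : Λ → K} {ι : Type} [Fintype ι]

/-- The coordinate ring of the toric chart. -/
noncomputable def TC (O : Type) {K : Type} [CommRing O] [Field K] [Algebra O K] (X : Λ → K)
    (S : Set Λ) : Subalgebra O K := Algebra.adjoin O (X '' S)

/-- The elements with nonnegative coordinates outside `U`. -/
def GS (g : Module.Basis ι ℤ Λ) (U : Set ι) : Set Λ := {s | ∀ j, j ∉ U → 0 ≤ g.repr s j}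

lemma aeval_inj (hX0 : X 0 = 1) (hX : ∀ a b, X (a + b) = X a * X b)
    (hli : LinearIndependent O X) (g : Module.Basis ι ℤ Λ) :
    Function.Injective (aeval (fun i => X (g i)) : MvPolynomial ι O →ₐ[O] K) := by
  classical
  rw [injective_iff_map_eq_zero]
  intro F hF
  let c : (ι →₀ ℕ) → Λ := fun m => ∑ i, m i • g i
  have hc : Function.Injective c := by
    intro m m' h
    ext i
    have h1 := congrArg (fun x => g.repr x i) h
    simp only [c] at h1
    have h2 : ∀ m : ι →₀ ℕ, g.repr (∑ i, m i • g i) i = m i := by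
      intro m
      have h3 : ∑ i, m i • g i = ∑ i, (m i : ℤ) • g i :=
        Finset.sum_congr rfl fun i _ => (natCast_zsmul _ _).symm
      rw [h3, g.repr_sum_self]
    rw [h2, h2] at h1
    exact_mod_cast h1
  have hli' := hli.comp c hc
  rw [linearIndependent_iff'] at hli'
  have h1 : aeval (fun i => X (g i)) F = ∑ m ∈ F.support, coeff m F • (X ∘ c) m := by
    rw [aeval_def, eval₂_eq]
    refine Finset.sum_congr rfl fun m _ => ?_
    rw [Algebra.smul_def, Function.comp_apply]
    congr 1
    simp only [c]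
    rw [X_sum hX0 hX]
    rw [Finset.prod_subset (Finset.subset_univ m.support)]
    · exact Finset.prod_congr rfl fun i _ => (X_nsmul hX0 hX _ _).symm
    · intro i _ hi
      rw [Finsupp.notMem_support_iff.1 hi, pow_zero]
  rw [h1] at hF
  have h2 := hli' F.support (fun m => coeff m F) hF
  rw [← MvPolynomial.support_eq_empty, Finset.eq_empty_iff_forall_notMem]
  intro m hm
  exact (mem_support_iff.1 hm) (h2 m hm)

open Classical in
/-- The polynomials which are inverted. -/
noncomputable def hU (O : Type) [CommRing O] (U : Set ι) : MvPolynomial ι O :=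
  ∏ i, if i ∈ U then 1 + MvPolynomial.X i else 1

variable {g : Module.Basis ι ℤ Λ} {U : Set ι} {T : Subalgebra O K} {v : ι → T}

lemma v_inj (hX0 : X 0 = 1) (hX : ∀ a b, X (a + b) = X a * X b) (hli : LinearIndependent O X)
    (hv1 : ∀ i, i ∈ U → (v i : K) = X (g i) - 1) (hv2 : ∀ i, i ∉ U → (v i : K) = X (g i)) :
    Function.Injective (aeval v : MvPolynomial ι O →ₐ[O] T) := by
  classical
  let sh : MvPolynomial ι O →ₐ[O] MvPolynomial ι O :=
    aeval (fun i => if i ∈ U then MvPolynomial.X i - 1 else MvPolynomial.X i)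
  let sh' : MvPolynomial ι O →ₐ[O] MvPolynomial ι O :=
    aeval (fun i => if i ∈ U then MvPolynomial.X i + 1 else MvPolynomial.X i)
  have h1 : sh'.comp sh = AlgHom.id O _ := by
    apply MvPolynomial.algHom_ext
    intro i
    simp only [sh, sh', AlgHom.comp_apply, aeval_X, AlgHom.id_apply]
    split_ifs with h
    · rw [map_sub, aeval_X, map_one, if_pos h]
      ring
    · rw [aeval_X, if_neg h]
  have h2 : T.val.comp (aeval v) = (aeval (fun i => X (g i)) : MvPolynomial ι O →ₐ[O] K).comp sh := by
    apply MvPolynomial.algHom_ext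
    intro i
    simp only [sh, AlgHom.comp_apply, aeval_X, Subalgebra.coe_val]
    split_ifs with h
    · rw [map_sub, aeval_X, map_one, hv1 i h]
    · rw [aeval_X, hv2 i h]
  intro F G hFG
  have h3 : sh F = sh G := by
    apply aeval_inj hX0 hX hli g
    have h4 := congrArg T.val hFG
    have h5 : ∀ F, T.val (aeval v F) = aeval (fun i => X (g i)) (sh F) := fun F => by
      have := congrArg (fun f => f F) h2
      simpa using this
    rwa [h5, h5] at h4
  have h4 := congrArg sh' h3
  have h5 : ∀ F, sh' (sh F) = F := fun F => by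
    have := congrArg (fun f => f F) h1
    simpa using this
  rwa [h5, h5] at h4

theorem v_loc (hX0 : X 0 = 1) (hX : ∀ a b, X (a + b) = X a * X b) (hli : LinearIndependent O X)
    (hT : T = TC O X (GS g U))
    (hv1 : ∀ i, i ∈ U → (v i : K) = X (g i) - 1) (hv2 : ∀ i, i ∉ U → (v i : K) = X (g i)) :
    @IsLocalization.Away (MvPolynomial ι O) _ (hU O U) T _
      (aeval v : MvPolynomial ι O →ₐ[O] T).toRingHom.toAlgebra := by
  classical
  let _ := (aeval v : MvPolynomial ι O →ₐ[O] T).toRingHom.toAlgebra
  have halg : ∀ F : MvPolynomial ι O, algebraMap (MvPolynomial ι O) T F = aeval v F := fun F => rfl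
  have hXT : ∀ s ∈ GS g U, X s ∈ T := fun s hs => by
    rw [hT]
    exact Algebra.subset_adjoin ⟨s, hs, rfl⟩
  let σ : Λ := ∑ i, if i ∈ U then g i else 0
  have hσr : ∀ j, g.repr σ j = if j ∈ U then 1 else 0 := by
    intro j
    have h3 : σ = ∑ i, (if i ∈ U then (1 : ℤ) else 0) • g i :=
      Finset.sum_congr rfl fun i _ => by split_ifs <;> simp
    rw [h3, g.repr_sum_self]
  have hhU : ((aeval v (hU O U) : T) : K) = X σ := by
    unfold hU
    rw [map_prod, SubmonoidClass.coe_finsetProd, X_sum hX0 hX]
    refine Finset.prod_congr rfl fun i _ => ?_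
    split_ifs with h
    · rw [map_add, map_one, aeval_X]
      change (1 : K) + (v i : K) = _
      rw [hv1 i h]
      ring
    · rw [map_one, hX0]
      rfl
  have hσ : -σ ∈ GS g U := by
    intro j hj
    rw [map_neg, Finsupp.neg_apply, hσr, if_neg hj, neg_zero]
  refine ⟨⟨?_, ?_, ?_⟩⟩
  · rintro ⟨_, n, rfl⟩
    rw [halg, map_pow]
    refine IsUnit.pow n (IsUnit.of_mul_eq_one ⟨X (-σ), hXT _ hσ⟩ ?_)
    apply Subtype.ext
    change ((aeval v (hU O U) : T) : K) * X (-σ) = 1
    rw [hhU]
    exact X_neg hX0 hX σ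
  · -- surjectivity
    have key : ∀ y : K, y ∈ T → ∃ (n : ℕ) (F : MvPolynomial ι O),
        X σ ^ n * y = ((aeval v F : T) : K) := by
      intro y hy
      rw [hT] at hy
      unfold TC at hy
      induction hy using Algebra.adjoin_induction with
      | mem y hy =>
        obtain ⟨s, hs, rfl⟩ := hy
        obtain ⟨n, hn⟩ : ∃ n : ℕ, ∀ j, 0 ≤ g.repr s j + (if j ∈ U then (n : ℤ) else 0) := by
          refine ⟨∑ j, (g.repr s j).natAbs, fun j => ?_⟩
          split_ifs with h
          · have h1 : (g.repr s j).natAbs ≤ ∑ j, (g.repr s j).natAbs :=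
              Finset.single_le_sum (f := fun j => (g.repr s j).natAbs)
                (fun _ _ => Nat.zero_le _) (Finset.mem_univ j)
            omega
          · rw [add_zero]
            exact hs j h
        refine ⟨n, ∏ j, (if j ∈ U then MvPolynomial.X j + 1 else MvPolynomial.X j) ^
          (g.repr s j + (if j ∈ U then (n : ℤ) else 0)).toNat, ?_⟩
        rw [map_prod, SubmonoidClass.coe_finsetProd, ← X_nsmul hX0 hX, ← hX]
        have h1 : n • σ + s = ∑ j, (g.repr s j + (if j ∈ U then (n : ℤ) else 0)).toNat • g j := by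
          apply g.repr.injective
          ext j
          rw [map_add, Finsupp.add_apply, map_nsmul, Finsupp.smul_apply, hσr]
          have h3 : ∑ j, (g.repr s j + (if j ∈ U then (n : ℤ) else 0)).toNat • g j =
              ∑ j, (g.repr s j + (if j ∈ U then (n : ℤ) else 0)) • g j :=
            Finset.sum_congr rfl fun j _ => by
              rw [← natCast_zsmul, Int.toNat_of_nonneg (hn j)]
          rw [h3, g.repr_sum_self]
          split_ifs <;> simp [add_comm]
        rw [h1, X_sum hX0 hX]
        refine Finset.prod_congr rfl fun j _ => ?_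
        rw [X_nsmul hX0 hX, map_pow, SubmonoidClass.coe_pow]
        congr 1
        split_ifs with h
        · rw [map_add, map_one, aeval_X]
          change _ = (v j : K) + 1
          rw [hv1 j h]
          ring
        · rw [aeval_X, hv2 j h]
      | algebraMap r =>
        refine ⟨0, C r, ?_⟩
        rw [pow_zero, one_mul, aeval_C]
        rfl
      | add y z _ _ hy hz =>
        obtain ⟨n, F, hF⟩ := hy
        obtain ⟨m, G, hG⟩ := hz
        refine ⟨n + m, hU O U ^ m * F + hU O U ^ n * G, ?_⟩
        rw [map_add, map_mul, map_mul, map_pow, map_pow]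
        push_cast
        rw [hhU, ← hF, ← hG]
        ring
      | mul y z _ _ hy hz =>
        obtain ⟨n, F, hF⟩ := hy
        obtain ⟨m, G, hG⟩ := hz
        refine ⟨n + m, F * G, ?_⟩
        rw [map_mul]
        push_cast
        rw [← hF, ← hG]
        ring
    rintro ⟨y, hy⟩
    obtain ⟨n, F, hF⟩ := key y hy
    refine ⟨⟨F, ⟨_, n, rfl⟩⟩, ?_⟩
    rw [halg, halg, map_pow]
    apply Subtype.ext
    rw [MulMemClass.coe_mul, SubmonoidClass.coe_pow, hhU, ← hF, mul_comm]
  · intro F G h
    refine ⟨1, ?_⟩
    rw [v_inj hX0 hX hli hv1 hv2 h]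

theorem v_etale (hX0 : X 0 = 1) (hX : ∀ a b, X (a + b) = X a * X b)
    (hli : LinearIndependent O X) (hT : T = TC O X (GS g U))
    (hv1 : ∀ i, i ∈ U → (v i : K) = X (g i) - 1) (hv2 : ∀ i, i ∉ U → (v i : K) = X (g i)) :
    (aeval v : MvPolynomial ι O →ₐ[O] T).toRingHom.Etale := by
  let _ := (aeval v : MvPolynomial ι O →ₐ[O] T).toRingHom.toAlgebra
  have := v_loc hX0 hX hli hT hv1 hv2
  have h1 : Algebra.Etale (MvPolynomial ι O) T := Algebra.Etale.of_isLocalizationAway (hU O U)
  exact h1

theorem v_reg [IsRegularRing O] (hX0 : X 0 = 1) (hX : ∀ a b, X (a + b) = X a * X b)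
    (hli : LinearIndependent O X) (g : Module.Basis ι ℤ Λ) (U : Set ι) :
    IsRegularRing (TC O X (GS g U)) := by
  classical
  have hm : ∀ i, g i ∈ GS g U := fun i j _ => by
    rw [g.repr_self, Finsupp.single_apply]
    split_ifs <;> norm_num
  have hm' : ∀ i, X (g i) ∈ TC O X (GS g U) := fun i => Algebra.subset_adjoin ⟨_, hm i, rfl⟩
  let v : ι → TC O X (GS g U) := fun i => if i ∈ U then ⟨X (g i), hm' i⟩ - 1 else ⟨X (g i), hm' i⟩
  let _ := (aeval v : MvPolynomial ι O →ₐ[O] TC O X (GS g U)).toRingHom.toAlgebra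
  have h1 := v_loc (g := g) (U := U) (v := v) hX0 hX hli rfl (fun i hi => by
    simp only [v, if_pos hi]; rfl) (fun i hi => by simp only [v, if_neg hi])
  exact Pool.Agent.Y223.G.regular_of_isLocalization (Submonoid.powers (hU O U))

end Pool.Agent.Zk15
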