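import Pool.Agent.Y563.G.Wch
import Pool.Agent.Y215.G.Indd

/-!
# Local subrings of a field which are localizations of a subalgebra
-/

set_option autoImplicit false
set_option linter.unusedSectionVars false

namespace Pool.Agent.Zk15

open Pool.Agent.Y223.G IsLocalRing Pool.Agent.W418.LU2

section loc

variable {O K : Type} [CommRing O] [Field K] [Algebra O K]

/-- The inclusion. -/
def incS (T : Subalgebra O K) (B : Subring K) (h : ∀ y ∈ T, y ∈ B) : T →+* B :=
  { toFun := fun y => ⟨y.1, h y.1 y.2⟩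
    map_one' := rfl
    map_mul' := fun _ _ => rfl
    map_zero' := rfl
    map_add' := fun _ _ => rfl }

/-- The prime ideal of the subalgebra. -/
def QT (T : Subalgebra O K) (B : Subring K) [IsLocalRing B] (h : ∀ y ∈ T, y ∈ B) : Ideal T :=
  (maximalIdeal B).comap (incS T B h)

instance (T : Subalgebra O K) (B : Subring K) [IsLocalRing B] (h : ∀ y ∈ T, y ∈ B) :
    (QT T B h).IsPrime := Ideal.comap_isPrime _ _

lemma mem_QT {T : Subalgebra O K} {B : Subring K} [IsLocalRing B] {h : ∀ y ∈ T, y ∈ B} {y : T} :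
    y ∈ QT T B h ↔ (⟨y.1, h y.1 y.2⟩ : B) ∈ maximalIdeal B := Iff.rfl

theorem locS {T : Subalgebra O K} {B : Subring K} [IsLocalRing B] (h : ∀ y ∈ T, y ∈ B)
    (hs : ∀ y ∈ B, ∃ u, ∃ hu : u ∈ T, (⟨u, h u hu⟩ : B) ∉ maximalIdeal B ∧ u * y ∈ T) :
    @IsLocalization.AtPrime T _ B _ (incS T B h).toAlgebra (QT T B h) _ := by
  let _ := (incS T B h).toAlgebra
  have halg : ∀ y : T, ((algebraMap T B y : B) : K) = y := fun y => rfl
  refine ⟨⟨?_, ?_, ?_⟩⟩
  · rintro ⟨y, hy⟩
    change IsUnit (incS T B h y)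
    have h1 : y ∉ QT T B h := hy
    rw [mem_QT, mem_maximalIdeal, mem_nonunits_iff, not_not] at h1
    exact h1
  · rintro ⟨y, hy⟩
    obtain ⟨u, hu, hu1, hu2⟩ := hs y hy
    refine ⟨⟨⟨u * y, hu2⟩, ⟨⟨u, hu⟩, hu1⟩⟩, ?_⟩
    apply Subtype.ext
    change y * u = u * y
    rw [mul_comm]
  · intro x y hxy
    refine ⟨1, ?_⟩
    have h1 : (x : K) = y := congrArg (fun z : B => (z : K)) hxy
    rw [Subtype.ext h1]

/-- The local ring is the localization. -/
theorem locS_equiv {T : Subalgebra O K} {B : Subring K} [IsLocalRing B] (h : ∀ y ∈ T, y ∈ B)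
    (hs : ∀ y ∈ B, ∃ u, ∃ hu : u ∈ T, (⟨u, h u hu⟩ : B) ∉ maximalIdeal B ∧ u * y ∈ T) :
    ∃ e : B ≃+* Localization.AtPrime (QT T B h),
      ∀ y (hy : y ∈ T), e ⟨y, h y hy⟩ = algebraMap T _ ⟨y, hy⟩ := by
  let _ := (incS T B h).toAlgebra
  have h1 := locS h hs
  refine ⟨(IsLocalization.algEquiv (QT T B h).primeCompl B
    (Localization.AtPrime (QT T B h))).toRingEquiv, fun y hy => ?_⟩
  exact (IsLocalization.algEquiv (QT T B h).primeCompl B
    (Localization.AtPrime (QT T B h))).commutes ⟨y, hy⟩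

theorem locS_reg {T : Subalgebra O K} [IsRegularRing T] {B : Subring K} [IsLocalRing B]
    (h : ∀ y ∈ T, y ∈ B)
    (hs : ∀ y ∈ B, ∃ u, ∃ hu : u ∈ T, (⟨u, h u hu⟩ : B) ∉ maximalIdeal B ∧ u * y ∈ T) :
    IsRegularLocalRing B := by
  obtain ⟨e, -⟩ := locS_equiv h hs
  exact IsRegularLocalRing.of_ringEquiv e.symm

end loc

/-- Changing the parameters by a linear map modulo the maximal ideal. -/
theorem ind_lin {B : Type} [CommRing B] [IsLocalRing B] {ι κ : Type} [Fintype ι] [Fintype κ]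
    {y : κ → B} (hy : Ind y) {x : ι → B} (A : ι → κ → B) (w : ι → κ → B)
    (hx : ∀ i, x i - ∑ j, A i j * y j ∈ maximalIdeal B ^ 2)
    (hw : ∀ i, (∑ j, A i j * w i j - 1 ∈ maximalIdeal B) ∧
      ∀ i', i' ≠ i → ∑ j, A i' j * w i j ∈ maximalIdeal B) : Ind x := by
  classical
  have hsq : ∀ b, b ∈ maximalIdeal B ^ 2 → b ∈ maximalIdeal B := fun b hb =>
    Ideal.pow_le_self two_ne_zero hb
  constructor
  · intro i
    have h1 : ∑ j, A i j * y j ∈ maximalIdeal B :=
      Ideal.sum_mem _ fun j _ => Ideal.mul_mem_left _ _ (hy.1 j)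
    have h2 := (maximalIdeal B).add_mem (hsq _ (hx i)) h1
    rwa [sub_add_cancel] at h2
  · intro c hc i
    have h1 : ∑ j, (∑ i, c i * A i j) * y j ∈ maximalIdeal B ^ 2 := by
      have e1 : ∑ j, (∑ i, c i * A i j) * y j =
          ∑ i, c i * x i - ∑ i, c i * (x i - ∑ j, A i j * y j) := by
        rw [← Finset.sum_sub_distrib]
        have e2 : ∀ i, c i * x i - c i * (x i - ∑ j, A i j * y j) =
            ∑ j, c i * A i j * y j := by
          intro i
          rw [← mul_sub, sub_sub_cancel, Finset.mul_sum]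
          exact Finset.sum_congr rfl fun j _ => by ring
        simp only [e2]
        rw [Finset.sum_comm]
        exact Finset.sum_congr rfl fun j _ => by rw [Finset.sum_mul]
      rw [e1]
      exact Ideal.sub_mem _ hc (Ideal.sum_mem _ fun i _ => Ideal.mul_mem_left _ _ (hx i))
    have h2 := hy.2 _ h1
    have h3 : ∑ j, (∑ i', c i' * A i' j) * w i j ∈ maximalIdeal B :=
      Ideal.sum_mem _ fun j _ => Ideal.mul_mem_right _ _ (h2 j)
    have e3 : ∑ j, (∑ i', c i' * A i' j) * w i j = ∑ i', c i' * ∑ j, A i' j * w i j := by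
      simp only [Finset.sum_mul, Finset.mul_sum]
      rw [Finset.sum_comm]
      exact Finset.sum_congr rfl fun i' _ => Finset.sum_congr rfl fun j _ => by ring
    rw [e3, ← Finset.add_sum_erase _ _ (Finset.mem_univ i)] at h3
    have h4 : ∑ i' ∈ Finset.univ.erase i, c i' * ∑ j, A i' j * w i j ∈ maximalIdeal B :=
      Ideal.sum_mem _ fun i' hi' => Ideal.mul_mem_left _ _ ((hw i).2 i' (Finset.ne_of_mem_erase hi'))
    have h5 := Ideal.sub_mem _ h3 h4
    rw [add_sub_cancel_right] at h5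
    have h6 := Ideal.mul_mem_left _ (c i) (hw i).1
    have h7 := Ideal.sub_mem _ h5 h6
    have e4 : c i * ∑ j, A i j * w i j - c i * (∑ j, A i j * w i j - 1) = c i := by ring
    rwa [e4] at h7

end Pool.Agent.Zk15
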