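import Mathlib

/-!
# The orbits of a permutation of prime order
-/

set_option autoImplicit false

namespace Pool.Agent.Zk15

open Function

theorem orbits {α : Type} [Finite α] (π : α → α) {p : ℕ} (hp : p.Prime)
    (hπ : ∀ x, π^[p] x = x) :
    ∃ (κ0 κ1 : Type) (_ : Finite κ0) (_ : Finite κ1) (f0 : κ0 → α) (f1 : κ1 → α),
      (∀ j, π (f0 j) = f0 j) ∧
      Bijective (Sum.elim f0 (fun rk : κ1 × Fin p => π^[(rk.2 : ℕ)] (f1 rk.1))) := by
  classical
  have hper : ∀ x, IsPeriodicPt π p x := hπ
  have hmul : ∀ k x, π^[p * k] x = x := fun k x => by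
    rw [iterate_mul]
    exact iterate_fixed (hπ x) k
  have hmul' : ∀ k x, π^[p * k - k] (π^[k] x) = x := fun k x => by
    rw [← iterate_add_apply, Nat.sub_add_cancel (Nat.le_mul_of_pos_left k hp.pos), hmul]
  let S : Setoid {x : α // π x ≠ x} :=
    { r := fun x y => ∃ k, π^[k] x.1 = y.1
      iseqv :=
        { refl := fun x => ⟨0, rfl⟩
          symm := by
            rintro x y ⟨k, h⟩
            exact ⟨p * k - k, by rw [← h, hmul']⟩
          trans := by
            rintro x y z ⟨k, h⟩ ⟨l, h'⟩
            exact ⟨l + k, by rw [iterate_add_apply, h, h']⟩ } }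
  have hS : ∀ x y : {x : α // π x ≠ x}, S.r x y ↔ ∃ k, π^[k] x.1 = y.1 := fun x y => Iff.rfl
  have hfix : ∀ (x : α) (k : ℕ), π (π^[k] x) = π^[k] x → π x = x := by
    intro x k h
    have h1 : π x = π^[p * k - k] (π (π^[k] x)) := by
      rw [← iterate_succ_apply' π k x, iterate_succ_apply, hmul']
    rw [h1, h, hmul']
  refine ⟨{x : α // π x = x}, Quotient S, inferInstance, inferInstance, Subtype.val,
    fun q => (Quotient.out q).1, fun j => j.2, ?_, ?_⟩
  · rintro (x | ⟨q, k⟩) (y | ⟨q', k'⟩) h
    · exact congrArg Sum.inl (Subtype.ext h)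
    · exfalso
      change x.1 = π^[(k' : ℕ)] (Quotient.out q').1 at h
      refine (Quotient.out q').2 (hfix _ k' ?_)
      rw [← h]
      exact x.2
    · exfalso
      change π^[(k : ℕ)] (Quotient.out q).1 = y.1 at h
      refine (Quotient.out q).2 (hfix _ k ?_)
      rw [h]
      exact y.2
    · change π^[(k : ℕ)] (Quotient.out q).1 = π^[(k' : ℕ)] (Quotient.out q').1 at h
      have hqq : q = q' := by
        rw [← Quotient.out_eq q, ← Quotient.out_eq q']
        apply Quotient.sound
        refine ⟨(p * k' - k') + k, ?_⟩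
        rw [iterate_add_apply, h, hmul']
      subst hqq
      have key : ∀ i j : Fin p, (i : ℕ) < j →
          π^[(i : ℕ)] (Quotient.out q).1 = π^[(j : ℕ)] (Quotient.out q).1 → False := by
        intro i j hij he
        have h1 : IsPeriodicPt π (j - i) (Quotient.out q).1 := by
          have h2 : π^[(j : ℕ)] (Quotient.out q).1 =
              π^[(i : ℕ)] (π^[(j - i : ℕ)] (Quotient.out q).1) := by
            rw [← iterate_add_apply]
            congr 2
            omega
          rw [h2] at he
          have h3 := congrArg (π^[p * i - i]) he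
          rw [hmul', hmul'] at h3
          exact h3.symm
        have h4 := h1.gcd (hper _)
        have h5 : Nat.gcd ((j : ℕ) - i) p = 1 := by
          rw [Nat.gcd_comm]
          refine (Nat.Prime.coprime_iff_not_dvd hp).2 fun hd => ?_
          have := Nat.le_of_dvd (by omega) hd
          omega
        rw [h5] at h4
        exact (Quotient.out q).2 h4
      have hkk : k = k' := by
        rcases lt_trichotomy (k : ℕ) k' with h1 | h1 | h1
        · exact (key _ _ h1 h).elim
        · exact Fin.ext h1
        · exact (key _ _ h1 h.symm).elim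
      rw [hkk]
  · intro y
    by_cases hy : π y = y
    · exact ⟨Sum.inl ⟨y, hy⟩, rfl⟩
    · have h1 : S.r (Quotient.out (Quotient.mk S ⟨y, hy⟩)) ⟨y, hy⟩ :=
        Quotient.exact (Quotient.out_eq _)
      obtain ⟨k, hk⟩ := (hS _ _).1 h1
      refine ⟨Sum.inr ⟨Quotient.mk S ⟨y, hy⟩, ⟨k % p, Nat.mod_lt _ hp.pos⟩⟩, ?_⟩
      change π^[k % p] (Quotient.out (Quotient.mk S ⟨y, hy⟩)).1 = y
      rw [(hper _).iterate_mod_apply]
      exact hk

end Pool.Agent.Zk15
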