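import Pool.Agent.Zk15.Lat
import Pool.Agent.Zk15.Orb

/-!
# Coordinates at a face of a smooth cone, adapted to an automorphism of prime order
-/

set_option autoImplicit false

namespace Pool.Agent.Zk15

open Module

variable {Λ : Type} [AddCommGroup Λ] {n : ℕ}

/-- The norm on the group of units, as a linear map. -/
noncomputable def nrm (t : Λ →+ Λ) (p : ℕ) : Λ →ₗ[ℤ] Λ :=
  ∑ k ∈ Finset.range p, (AddMonoidHom.toIntLinearMap t) ^ k

lemma nrm_apply (t : Λ →+ Λ) (p : ℕ) (x : Λ) : nrm t p x = ∑ k ∈ Finset.range p, t^[k] x := by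
  unfold nrm
  rw [LinearMap.sum_apply]
  refine Finset.sum_congr rfl fun k _ => ?_
  rw [Module.End.pow_apply]
  rfl

/-- The index of the coordinates. -/
abbrev NI (ι1 ι2 κ0 κ1 : Type) (p : ℕ) : Type := (ι1 ⊕ ι2) ⊕ (κ0 ⊕ κ1 × Fin p)

/-- The coordinates. -/
structure NB (b : Basis (Fin n) ℤ Λ) (J : Set (Fin n)) (t : Λ →+ Λ) (p : ℕ) {ι1 ι2 κ0 κ1 : Type}
    (g : Basis (NI ι1 ι2 κ0 κ1 p) ℤ Λ) (f0 : κ0 → Fin n) (f1 : κ1 → Fin n) : Prop where
  g1 : ∀ i, g (Sum.inl (Sum.inl i)) ∈ LF b J ⊓ KN t p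
  g1s : ∀ e ∈ LF b J, e ∈ KN t p → e ∈ Submodule.span ℤ (Set.range fun i => g (Sum.inl (Sum.inl i)))
  g2 : ∀ i, g (Sum.inl (Sum.inr i)) ∈ LF b J
  sf : ∀ s, s ∈ SF b J ↔ ∀ j, 0 ≤ g.repr s (Sum.inr j)
  h0 : ∀ j, g (Sum.inr (Sum.inl j)) = b (f0 j) ∧ f0 j ∉ J ∧ t (b (f0 j)) - b (f0 j) ∈ LF b J
  h1 : ∀ r k, g (Sum.inr (Sum.inr (r, k))) = t^[(k : ℕ)] (b (f1 r))
  h1J : ∀ r, f1 r ∉ J
  hb : ∀ i, i ∉ J → ∃ j, b i - g (Sum.inr j) ∈ LF b J

theorem nice (b : Basis (Fin n) ℤ Λ) (J : Set (Fin n)) (t : Λ →+ Λ) {p : ℕ} (hpp : p.Prime)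
    (hS : ∀ s ∈ SF b J, t s ∈ SF b J) (hp : ∀ x, t^[p] x = x) :
    ∃ (ι1 ι2 κ0 κ1 : Type) (_ : Finite ι1) (_ : Finite ι2) (_ : Finite κ0) (_ : Finite κ1)
      (g : Basis (NI ι1 ι2 κ0 κ1 p) ℤ Λ) (f0 : κ0 → Fin n) (f1 : κ1 → Fin n),
      NB b J t p g f0 f1 := by
  classical
  have hfree : Module.Free ℤ Λ := Module.Free.of_basis b
  have hfin : Module.Finite ℤ Λ := Module.Finite.of_basis b
  -- the permutation of the boundary
  let α : Type := {i : Fin n // i ∉ J}
  have hπ0 : ∀ j : α, ∃ i : α, t (b j.1) - b i.1 ∈ LF b J := by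
    rintro ⟨j, hj⟩
    obtain ⟨i, hi, h⟩ := exists_img hS hpp.pos hp hj
    exact ⟨⟨i, hi⟩, h⟩
  choose π hπ using hπ0
  have hπk : ∀ (k : ℕ) (j : α), t^[k] (b j.1) - b (π^[k] j).1 ∈ LF b J := by
    intro k
    induction k with
    | zero => intro j; rw [Function.iterate_zero_apply, Function.iterate_zero_apply, sub_self]; exact zero_mem _
    | succ k ih =>
      intro j
      have e1 : t^[k + 1] (b j.1) - b (π^[k + 1] j).1 =
          t^[k] (t (b j.1) - b (π j).1) + (t^[k] (b (π j).1) - b (π^[k] (π j)).1) := by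
        rw [Function.iterate_succ_apply, Function.iterate_succ_apply, iterate_map_sub]
        abel
      rw [e1]
      exact add_mem (LF_iter hS k (hπ j)) (ih _)
  have huniq : ∀ i j : α, b i.1 - b j.1 ∈ LF b J → i = j := by
    intro i j h
    by_contra hne
    have h1 := h i.1 i.2
    rw [map_sub, Finsupp.sub_apply, b.repr_self, b.repr_self, Finsupp.single_eq_same,
      Finsupp.single_apply, if_neg (fun h => hne (Subtype.ext h.symm))] at h1
    norm_num at h1
  have hπp : ∀ j : α, π^[p] j = j := by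
    intro j
    apply huniq
    have h1 := hπk p j
    rw [hp] at h1
    rw [← neg_sub]
    exact neg_mem h1
  obtain ⟨κ0, κ1, hκ0, hκ1, f0, f1, hf0, hbij⟩ := orbits π hpp hπp
  let e : (κ0 ⊕ κ1 × Fin p) → α := Sum.elim f0 (fun rk => π^[(rk.2 : ℕ)] (f1 rk.1))
  let h : (κ0 ⊕ κ1 × Fin p) → Λ := Sum.elim (fun j => b (f0 j).1)
    (fun rk => t^[(rk.2 : ℕ)] (b (f1 rk.1).1))
  have hhe : ∀ j, h j - b (e j).1 ∈ LF b J := by
    rintro (j | ⟨r, k⟩)
    · change b (f0 j).1 - b (f0 j).1 ∈ LF b J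
      rw [sub_self]
      exact zero_mem _
    · exact hπk k _
  -- the units
  let LFs : Submodule ℤ Λ := AddSubgroup.toIntSubmodule (LF b J)
  have memLFs : ∀ x, x ∈ LFs ↔ x ∈ LF b J := fun x => Iff.rfl
  let f : LFs →ₗ[ℤ] Λ := (nrm t p).domRestrict LFs
  have hf : ∀ x : LFs, f x = ∑ k ∈ Finset.range p, t^[k] (x : Λ) := fun x => nrm_apply t p x
  obtain ⟨sec, hsec⟩ := Module.projective_lifting_property f.rangeRestrict
    (LinearMap.id : f.range →ₗ[ℤ] f.range) f.surjective_rangeRestrict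
  have hsec' : ∀ y : f.range, f (sec y) = y := by
    intro y
    have h1 := congrArg (fun φ => ((φ y : f.range) : Λ)) hsec
    exact h1
  let ι1 : Type := Module.Free.ChooseBasisIndex ℤ f.ker
  let ι2 : Type := Module.Free.ChooseBasisIndex ℤ f.range
  let b1 := Module.Free.chooseBasis ℤ f.ker
  let b2 := Module.Free.chooseBasis ℤ f.range
  have hι1 : Finite ι1 := inferInstance
  have hι2 : Finite ι2 := inferInstance
  let _ : Fintype ι1 := Fintype.ofFinite _
  let _ : Fintype ι2 := Fintype.ofFinite _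
  let _ : Fintype κ0 := Fintype.ofFinite _
  let _ : Fintype κ1 := Fintype.ofFinite _
  let g0 : ι1 ⊕ ι2 → Λ := Sum.elim (fun i => ((b1 i : LFs) : Λ)) (fun i => ((sec (b2 i) : LFs) : Λ))
  have hg0 : ∀ i, g0 i ∈ LF b J := by
    rintro (i | i)
    · exact (b1 i : LFs).2
    · exact (sec (b2 i) : LFs).2
  let G : NI ι1 ι2 κ0 κ1 p → Λ := Sum.elim g0 h
  have hrepr : ∀ j j' : κ0 ⊕ κ1 × Fin p, b.repr (h j) (e j').1 = if j = j' then 1 else 0 := by
    intro j j'
    have h1 := hhe j (e j').1 (e j').2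
    rw [map_sub, Finsupp.sub_apply, sub_eq_zero, b.repr_self, Finsupp.single_apply] at h1
    rw [h1]
    refine if_congr ⟨fun h => ?_, fun h => by rw [h]⟩ rfl rfl
    exact hbij.1 (Subtype.ext h)
  have hcoord : ∀ (c : NI ι1 ι2 κ0 κ1 p → ℤ) (j : κ0 ⊕ κ1 × Fin p),
      b.repr (∑ i, c i • G i) (e j).1 = c (Sum.inr j) := by
    intro c j
    rw [map_sum, Finsupp.finsetSum_apply, Fintype.sum_sum_type]
    have h1 : ∑ i : ι1 ⊕ ι2, b.repr (c (Sum.inl i) • G (Sum.inl i)) (e j).1 = 0 := by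
      refine Finset.sum_eq_zero fun i _ => ?_
      rw [map_zsmul, Finsupp.smul_apply]
      change c (Sum.inl i) • b.repr (g0 i) (e j).1 = 0
      rw [hg0 i (e j).1 (e j).2, smul_zero]
    have h2 : ∑ i : κ0 ⊕ κ1 × Fin p, b.repr (c (Sum.inr i) • G (Sum.inr i)) (e j).1 =
        c (Sum.inr j) := by
      rw [Finset.sum_eq_single j]
      · rw [map_zsmul, Finsupp.smul_apply]
        change c (Sum.inr j) • b.repr (h j) (e j).1 = _
        rw [hrepr, if_pos rfl, smul_eq_mul, mul_one]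
      · intro i _ hij
        rw [map_zsmul, Finsupp.smul_apply]
        change c (Sum.inr i) • b.repr (h i) (e j).1 = 0
        rw [hrepr, if_neg hij, smul_zero]
      · intro h
        exact absurd (Finset.mem_univ _) h
    rw [h1, h2, zero_add]
  have hli : LinearIndependent ℤ G := by
    rw [Fintype.linearIndependent_iff]
    intro c hc
    have h1 : ∀ j, c (Sum.inr j) = 0 := by
      intro j
      rw [← hcoord c j, hc, map_zero, Finsupp.zero_apply]
    have h2 : ∑ i, c (Sum.inl (Sum.inl i)) • ((b1 i : LFs) : Λ) +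
        ∑ i, c (Sum.inl (Sum.inr i)) • ((sec (b2 i) : LFs) : Λ) = 0 := by
      rw [Fintype.sum_sum_type, Fintype.sum_sum_type] at hc
      have h3 : ∑ x, c (Sum.inr x) • G (Sum.inr x) = 0 :=
        Finset.sum_eq_zero fun j _ => by rw [h1, zero_smul]
      rw [h3, add_zero] at hc
      exact hc
    have h3 : ∑ i, c (Sum.inl (Sum.inl i)) • (b1 i : LFs) +
        ∑ i, c (Sum.inl (Sum.inr i)) • (sec (b2 i) : LFs) = 0 := by
      apply Subtype.ext
      simpa using h2
    have h4 : ∑ i, c (Sum.inl (Sum.inr i)) • b2 i = 0 := by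
      apply Subtype.ext
      have h5 := congrArg f h3
      rw [map_add, map_sum, map_sum, map_zero] at h5
      have h6 : ∑ i, f (c (Sum.inl (Sum.inl i)) • (b1 i : LFs)) = 0 :=
        Finset.sum_eq_zero fun i _ => by
          rw [map_zsmul, LinearMap.mem_ker.1 (b1 i).2, smul_zero]
      rw [h6, zero_add] at h5
      simp only [map_zsmul, hsec'] at h5
      simpa using h5
    have h5 := Fintype.linearIndependent_iff.1 b2.linearIndependent _ h4
    have h6 : ∑ i, c (Sum.inl (Sum.inl i)) • b1 i = 0 := by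
      apply Subtype.ext
      have h7 : ∑ i, c (Sum.inl (Sum.inr i)) • (sec (b2 i) : LFs) = 0 :=
        Finset.sum_eq_zero fun i _ => by rw [h5, zero_smul]
      rw [h7, add_zero] at h3
      simpa using h3
    have h7 := Fintype.linearIndependent_iff.1 b1.linearIndependent _ h6
    rintro ((i | i) | j)
    · exact h7 i
    · exact h5 i
    · exact h1 j
  have hker : ∀ x (hx : x ∈ LF b J), x ∈ KN t p → (⟨x, hx⟩ : LFs) ∈ f.ker := by
    intro x hx hN
    rw [LinearMap.mem_ker, hf]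
    exact hN
  have hspan1 : ∀ x : LFs, x ∈ f.ker → (x : Λ) ∈ Submodule.span ℤ
      (Set.range fun i => G (Sum.inl (Sum.inl i))) := by
    intro x hx
    have h1 : (⟨x, hx⟩ : f.ker) = ∑ i, b1.repr ⟨x, hx⟩ i • b1 i := (b1.sum_repr _).symm
    have h2 := congrArg (fun y : f.ker => ((y : LFs) : Λ)) h1
    simp only [AddSubmonoidClass.coe_finsetSum, SetLike.val_smul] at h2
    rw [h2]
    exact Submodule.sum_mem _ fun i _ => Submodule.smul_mem _ _ (Submodule.subset_span ⟨i, rfl⟩)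
  have hspan : ⊤ ≤ Submodule.span ℤ (Set.range G) := by
    intro x _
    let eb : (κ0 ⊕ κ1 × Fin p) ≃ α := Equiv.ofBijective e hbij
    have hx0 : x - ∑ j, b.repr x (e j).1 • h j ∈ LF b J := by
      intro i hi
      rw [map_sub, Finsupp.sub_apply, map_sum, Finsupp.finsetSum_apply]
      obtain ⟨j, hj⟩ := hbij.2 ⟨i, hi⟩
      have hj' : i = (e j).1 := by
        have := congrArg Subtype.val hj
        exact this.symm
      rw [hj', Finset.sum_eq_single j]
      · rw [map_zsmul, Finsupp.smul_apply, hrepr, if_pos rfl, smul_eq_mul, mul_one, sub_self]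
      · intro j' _ hne
        rw [map_zsmul, Finsupp.smul_apply, hrepr, if_neg hne, smul_zero]
      · intro h
        exact absurd (Finset.mem_univ _) h
    have h1 : x = (x - ∑ j, b.repr x (e j).1 • h j) + ∑ j, b.repr x (e j).1 • h j := by abel
    rw [h1]
    refine Submodule.add_mem _ ?_ (Submodule.sum_mem _ fun j _ =>
      Submodule.smul_mem _ _ (Submodule.subset_span ⟨Sum.inr j, rfl⟩))
    generalize x - ∑ j, b.repr x (e j).1 • h j = y at hx0
    let y' : LFs := ⟨y, hx0⟩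
    have h2 : y' = (y' - sec ⟨f y', y', rfl⟩) + sec ⟨f y', y', rfl⟩ := by abel
    have h3 : y' - sec ⟨f y', y', rfl⟩ ∈ f.ker := by
      rw [LinearMap.mem_ker, map_sub, hsec', sub_self]
    have h4 := hspan1 _ h3
    have h5 : ((sec ⟨f y', y', rfl⟩ : LFs) : Λ) ∈ Submodule.span ℤ (Set.range G) := by
      have h6 : (⟨f y', y', rfl⟩ : f.range) = ∑ i, b2.repr ⟨f y', y', rfl⟩ i • b2 i :=
        (b2.sum_repr _).symm
      rw [h6, map_sum]
      simp only [map_zsmul, AddSubmonoidClass.coe_finsetSum, SetLike.val_smul]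
      exact Submodule.sum_mem _ fun i _ => Submodule.smul_mem _ _
        (Submodule.subset_span ⟨Sum.inl (Sum.inr i), rfl⟩)
    have h6 : y = ((y' - sec ⟨f y', y', rfl⟩ : LFs) : Λ) + ((sec ⟨f y', y', rfl⟩ : LFs) : Λ) :=
      congrArg Subtype.val h2
    rw [h6]
    refine Submodule.add_mem _ (Submodule.span_mono ?_ h4) h5
    rintro _ ⟨i, rfl⟩
    exact ⟨_, rfl⟩
  let g : Basis (NI ι1 ι2 κ0 κ1 p) ℤ Λ := Basis.mk hli hspan
  have hg : ∀ i, g i = G i := fun i => Basis.mk_apply hli hspan i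
  have hco : ∀ s j, b.repr s (e j).1 = g.repr s (Sum.inr j) := by
    intro s j
    conv_lhs => rw [← g.sum_repr s]
    simp only [hg]
    exact hcoord _ j
  refine ⟨ι1, ι2, κ0, κ1, hι1, hι2, hκ0, hκ1, g, fun j => (f0 j).1, fun r => (f1 r).1, ?_⟩
  refine
  { g1 := fun i => ?_
    g1s := fun x hx hN => ?_
    g2 := fun i => ?_
    sf := fun s => ?_
    h0 := fun j => ⟨hg _, (f0 j).2, ?_⟩
    h1 := fun r k => hg _
    h1J := fun r => (f1 r).2
    hb := fun i hi => ?_ }
  · rw [hg]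
    refine ⟨hg0 (Sum.inl i), ?_⟩
    have h1 := LinearMap.mem_ker.1 (b1 i).2
    rw [hf] at h1
    exact h1
  · have h1 := hspan1 ⟨x, hx⟩ (hker x hx hN)
    have h2 : (fun i => g (Sum.inl (Sum.inl i))) = fun i => G (Sum.inl (Sum.inl i)) :=
      funext fun i => hg _
    rw [h2]
    exact h1
  · rw [hg]
    exact hg0 (Sum.inr i)
  · constructor
    · intro hs j
      rw [← hco]
      exact hs _ (e j).2
    · intro hs i hi
      obtain ⟨j, hj⟩ := hbij.2 ⟨i, hi⟩
      have hj' : i = (e j).1 := (congrArg Subtype.val hj).symm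
      rw [hj', hco]
      exact hs j
  · have h1 := hπ (f0 j)
    rwa [hf0] at h1
  · obtain ⟨j, hj⟩ := hbij.2 ⟨i, hi⟩
    refine ⟨j, ?_⟩
    rw [hg]
    change b i - h j ∈ LF b J
    have h1 := hhe j
    have hj' : (e j).1 = i := congrArg Subtype.val hj
    rw [hj'] at h1
    rw [← neg_sub]
    exact neg_mem h1

end Pool.Agent.Zk15
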