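import Pool.Agent.Zk15.Dlt
import Pool.Agent.Zk15.Nice
import Pool.Agent.Zk15.Adapt
import Pool.Agent.Zk15.Et
import Pool.Agent.Zk15.Del
import Pool.Agent.Zk15.LocB

/-!
# The data at a wildly ramified prime
-/

set_option autoImplicit false
set_option linter.unusedSectionVars false

namespace Pool.Agent.Zk15

open Pool.Agent.Y223.G IsLocalRing
open Pool.Agent.Y86.G5 (im mem_im im_sub im_mul im_prime im_one im_pow)

/-- A vertex `v`, with the basis `b`, of the set `P`. -/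
structure PV {Λ : Type} [AddCommGroup Λ] {n : ℕ} (P : Set Λ) (v : Λ)
    (b : Module.Basis (Fin n) ℤ Λ) (t : Λ →+ Λ) (p : ℕ) : Prop where
  vm : v ∈ P
  vb : ∀ i, v + b i ∈ P
  cone : ∀ m ∈ P, ∀ i, 0 ≤ b.repr (m - v) i
  gens : ∀ J : Set (Fin n), (∀ s ∈ SF b J, t s ∈ SF b J) → ∀ e ∈ LF b J, e ∈ KN t p →
    e ∈ AddSubgroup.closure {e | ∃ m ∈ P, ∃ m' ∈ P, m - v ∈ LF b J ∧ m' - v ∈ LF b J ∧
      m - m' ∈ KN t p ∧ e = m - m'}
  inv : ∃ w ∈ P, t w = w ∧ ∀ J : Set (Fin n), (∀ s ∈ SF b J, t s ∈ SF b J) →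
    t v - v ∈ LF b J → w - v ∈ LF b J

/-- The data at a prime ideal of the ring `O`. -/
structure Dat (k O K Λ : Type) [CommRing k] [CommRing O] [Field K] [Algebra k K] [Algebra O K]
    [AddCommGroup Λ] (n : ℕ) where
  X : Λ → K
  t : Λ →+ Λ
  p : ℕ
  l : ℕ
  τ : K ≃ₐ[k] K
  T : O →+* O
  𝔓 : Ideal O
  P : Set Λ
  D : ℕ → AddSubgroup K
  V : Set (Λ × Module.Basis (Fin n) ℤ Λ)
  inj : Function.Injective (algebraMap O K)
  X0 : X 0 = 1
  Xa : ∀ a b, X (a + b) = X a * X b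
  li : LinearIndependent O X
  pp : p.Prime
  tp : ∀ x, t^[p] x = x
  τX : ∀ m, τ (X m) = X (t m)
  com : ∀ o, τ (algebraMap O K o) = algebraMap O K (T o)
  l0 : 0 < l
  mx : 𝔓.IsMaximal
  dv : ∀ o, T o - o ∈ 𝔓 ^ (l + 1)
  hp : (p : O) ∈ 𝔓 ^ ((p - 1) * l)
  pi : ∃ π ∈ 𝔓, T π - π ∉ 𝔓 ^ (l + 2)
  tP : ∀ m ∈ P, t m ∈ P
  hV : ∀ v b, (v, b) ∈ V → PV P v b t p
  cvx : ∀ m ∈ P, ∃ s : Multiset Λ, s ≠ 0 ∧ (∀ v ∈ s, ∃ b, (v, b) ∈ V) ∧
    Multiset.card s • m = s.sum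
  D0 : D 0 = AddSubgroup.closure (X '' P)
  D1 : D 1 = AddSubgroup.closure {x | ∃ m ∈ P, ∃ m' ∈ P, m - m' ∈ KN t p ∧ x = X m - X m'}
  Dτ : ∀ a, ∀ x ∈ D a, τ x ∈ D a
  Ds : ∀ a, 1 ≤ a → D (a + 1) = AddSubgroup.closure {x | ∃ y ∈ D a, x = τ y - y}

variable {k O K Λ : Type} [CommRing k] [CommRing O] [Field K] [Algebra k K] [Algebra O K]
  [AddCommGroup Λ] {n : ℕ}

/-- The graded ring of a chart contains the necessary elements. -/
structure RH (S : Dat k O K Λ n) (R : Subalgebra k (LP K)) (c : K) : Prop where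
  s : hm (-1) 1 ∈ R
  o : ∀ o, hm 0 (algebraMap O K o) ∈ R
  e : ∀ a ∈ S.𝔓, hm 1 (algebraMap O K a) ∈ R
  d : ∀ i ≤ S.p, ∀ x ∈ S.D i, hm ((i * S.l : ℕ) : ℤ) (x / c) ∈ R
  c0 : c ≠ 0
  cD : c ∈ S.D 0

section

variable (S : Dat k O K Λ n)

lemma Dat.Xne (m : Λ) : S.X m ≠ 0 := X_ne S.X0 S.Xa m

lemma Dat.Xneg (m : Λ) : S.X (-m) = (S.X m)⁻¹ := by
  have h := X_neg S.X0 S.Xa m
  exact eq_inv_of_mul_eq_one_right h

lemma Dat.Xsub (a b : Λ) : S.X (a - b) = S.X a / S.X b := by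
  rw [sub_eq_add_neg, S.Xa, S.Xneg, div_eq_mul_inv]

lemma Dat.Dδ (a : ℕ) {x : K} (hx : x ∈ S.D a) : S.τ x - x ∈ S.D (a + 1) := by
  rcases Nat.eq_zero_or_pos a with h | h
  · subst h
    rw [S.D0] at hx
    rw [zero_add]
    induction hx using AddSubgroup.closure_induction with
    | mem x hx =>
      obtain ⟨m, hm, rfl⟩ := hx
      rw [S.τX, S.D1]
      exact AddSubgroup.subset_closure ⟨_, S.tP m hm, _, hm, KN_step S.tp m, rfl⟩
    | zero =>
      rw [map_zero, sub_zero]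
      exact zero_mem _
    | add x y _ _ hx hy =>
      have e : S.τ (x + y) - (x + y) = (S.τ x - x) + (S.τ y - y) := by rw [map_add]; ring
      rw [e]
      exact add_mem hx hy
    | neg x _ hx =>
      have e : S.τ (-x) - -x = -(S.τ x - x) := by rw [map_neg]; ring
      rw [e]
      exact neg_mem hx
  · rw [S.Ds a h]
    exact AddSubgroup.subset_closure ⟨x, hx, rfl⟩

lemma Dat.D01 {x : K} (hx : x ∈ S.D 1) : x ∈ S.D 0 := by
  rw [S.D1] at hx
  rw [S.D0]
  refine (AddSubgroup.closure_le _).2 ?_ hx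
  rintro _ ⟨m, hm, m', hm', -, rfl⟩
  exact AddSubgroup.sub_mem _ (AddSubgroup.subset_closure ⟨m, hm, rfl⟩)
    (AddSubgroup.subset_closure ⟨m', hm', rfl⟩)

lemma Dat.Dan (a : ℕ) {x : K} (hx : x ∈ S.D (a + 1)) : x ∈ S.D a := by
  rcases Nat.eq_zero_or_pos a with h | h
  · subst h
    exact S.D01 hx
  · rw [S.Ds a h] at hx
    refine (AddSubgroup.closure_le _).2 ?_ hx
    rintro _ ⟨y, hy, rfl⟩
    exact AddSubgroup.sub_mem _ (S.Dτ a y hy) hy

lemma Dat.Dle {a b : ℕ} (h : a ≤ b) {x : K} (hx : x ∈ S.D b) : x ∈ S.D a := by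
  obtain ⟨c, rfl⟩ := Nat.exists_eq_add_of_le h
  clear h
  induction c with
  | zero => exact hx
  | succ c ih => exact ih (S.Dan _ hx)

lemma Dat.XD {m : Λ} (hm : m ∈ S.P) : S.X m ∈ S.D 0 := by
  rw [S.D0]
  exact AddSubgroup.subset_closure ⟨m, hm, rfl⟩

end

/-- Induction on the elements of the cone. -/
lemma SF_ind {b : Module.Basis (Fin n) ℤ Λ} {J : Set (Fin n)} (Pr : Λ → Prop) (h0 : Pr 0)
    (ha : ∀ x y, Pr x → Pr y → Pr (x + y)) (hb : ∀ i, Pr (b i)) (hJ : ∀ i ∈ J, Pr (-b i))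
    {s : Λ} (hs : s ∈ SF b J) : Pr s := by
  classical
  have hsm : ∀ (q : ℕ) x, Pr x → Pr (q • x) := by
    intro q x hx
    induction q with
    | zero => rw [zero_smul]; exact h0
    | succ q ih => rw [succ_nsmul]; exact ha _ _ ih hx
  have hsum : ∀ (I : Finset (Fin n)) (f : Fin n → Λ), (∀ i, Pr (f i)) → Pr (∑ i ∈ I, f i) := by
    intro I f hf
    induction I using Finset.induction_on with
    | empty => rw [Finset.sum_empty]; exact h0
    | insert i I hi ih => rw [Finset.sum_insert hi]; exact ha _ _ (hf i) ih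
  rw [← b.sum_repr s]
  refine hsum _ _ fun i => ?_
  rcases le_total 0 (b.repr s i) with h | h
  · obtain ⟨q, hq⟩ := Int.eq_ofNat_of_zero_le h
    rw [hq, natCast_zsmul]
    exact hsm q _ (hb i)
  · by_cases hi : i ∈ J
    · obtain ⟨q, hq⟩ := Int.eq_ofNat_of_zero_le (neg_nonneg.2 h)
      have e : b.repr s i • b i = q • -b i := by
        rw [← natCast_zsmul, ← hq]
        simp
      rw [e]
      exact hsm q _ (hJ i hi)
    · have h1 := hs i hi
      have h2 : b.repr s i = 0 := le_antisymm h h1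
      rw [h2, zero_smul]
      exact h0

section local_

variable {S : Dat k O K Λ n} {R : Subalgebra k (LP K)} {c : K} (hR : RH S R c) {Q : Ideal R}
  [hQ : Q.IsPrime]

include hR

lemma RH.Lo (o : O) : Lg R Q 0 (algebraMap O K o) := Lg.of (hR.o o)

lemma RH.Ld {i : ℕ} (hi : i ≤ S.p) {x : K} (hx : x ∈ S.D i) :
    Lg R Q ((i * S.l : ℕ) : ℤ) (x / c) := Lg.of (hR.d i hi x hx)

lemma RH.Ld0 {x : K} (hx : x ∈ S.D 0) : Lg R Q 0 (x / c) := by
  have h := hR.Ld (Q := Q) (Nat.zero_le _) hx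
  rwa [Nat.zero_mul, Nat.cast_zero] at h

lemma RH.LX {m : Λ} (hm : m ∈ S.P) : Lg R Q 0 (S.X m / c) := hR.Ld0 (S.XD hm)

/-- There is a vertex. -/
theorem RH.exists_vertex : ∃ v b, (v, b) ∈ S.V ∧ ¬ Pg R Q 0 (S.X v / c) := by
  by_contra hcon
  push Not at hcon
  have h1 : ∀ m ∈ S.P, Pg R Q 0 (S.X m / c) := by
    intro m hm
    obtain ⟨s, hs0, hs, hsum⟩ := S.cvx m hm
    have h2 : (S.X m / c) ^ Multiset.card s = (s.map fun v => S.X v / c).prod := by
      have h3 : ∀ s : Multiset Λ, S.X s.sum / c ^ Multiset.card s =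
          (s.map fun v => S.X v / c).prod := by
        intro s
        induction s using Multiset.induction_on with
        | empty => simp [S.X0]
        | cons a s ih =>
          rw [Multiset.sum_cons, Multiset.card_cons, Multiset.map_cons, Multiset.prod_cons, ← ih,
            S.Xa, pow_succ']
          field_simp
      rw [div_pow, ← X_nsmul S.X0 S.Xa, hsum, h3]
    have h3 : ∀ s : Multiset Λ, (∀ v ∈ s, ∃ b, (v, b) ∈ S.V) →
        Lg R Q 0 (s.map fun v => S.X v / c).prod ∧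
          (s ≠ 0 → Pg R Q 0 (s.map fun v => S.X v / c).prod) := by
      intro s
      induction s using Multiset.induction_on with
      | empty =>
        intro _
        refine ⟨by rw [Multiset.map_zero, Multiset.prod_zero]; exact Lg.one, fun h => (h rfl).elim⟩
      | cons a s ih =>
        intro h
        obtain ⟨b, hb⟩ := h a (Multiset.mem_cons_self a s)
        have h4 := hcon a b hb
        obtain ⟨h5, -⟩ := ih fun v hv => h v (Multiset.mem_cons_of_mem hv)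
        have h6 : Pg R Q 0 ((a ::ₘ s).map fun v => S.X v / c).prod := by
          rw [Multiset.map_cons, Multiset.prod_cons, mul_comm]
          exact h5.mulP0 h4
        exact ⟨h6.lg, fun _ => h6⟩
    have h4 := (h3 s hs).2 hs0
    rw [← h2] at h4
    refine Pg.of_pow (hR.LX hm) (Multiset.card s) ?_
    rwa [mul_zero]
  have h2 : ∀ x ∈ S.D 0, Pg R Q 0 (x / c) := by
    intro x hx
    rw [S.D0] at hx
    induction hx using AddSubgroup.closure_induction with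
    | mem x hx =>
      obtain ⟨m, hm, rfl⟩ := hx
      exact h1 m hm
    | zero => rw [zero_div]; exact Pg.zero 0
    | add x y _ _ hx hy => rw [add_div]; exact hx.add hy
    | neg x _ hx => rw [neg_div]; exact hx.neg
  have h3 := h2 c hR.cD
  rw [div_self hR.c0] at h3
  exact Pg.not_one h3

/-- The set of the coordinates which are units. -/
def JJ (S : Dat k O K Λ n) (R : Subalgebra k (LP K)) (Q : Ideal R)
    (b : Module.Basis (Fin n) ℤ Λ) : Set (Fin n) := {i | ¬ Pg R Q 0 (S.X (b i))}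

section vertex

variable {v : Λ} {b : Module.Basis (Fin n) ℤ Λ} (hvb : (v, b) ∈ S.V)
  (hv : ¬ Pg R Q 0 (S.X v / c))

include hvb hv

lemma RH.Lb (i : Fin n) : Lg R Q 0 (S.X (b i)) := by
  obtain ⟨-, h2⟩ := Lg.unit (hR.LX (S.hV v b hvb).vm) hv
  have h3 := (hR.LX (Q := Q) ((S.hV v b hvb).vb i)).mul0 h2
  have e : S.X (v + b i) / c * (S.X v / c)⁻¹ = S.X (b i) := by
    rw [S.Xa]
    have := S.Xne v
    have := hR.c0
    field_simp
  rwa [e] at h3

lemma RH.LS {s : Λ} (hs : s ∈ SF b (JJ S R Q b)) : Lg R Q 0 (S.X s) := by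
  refine SF_ind (fun s => Lg R Q 0 (S.X s)) ?_ ?_ ?_ ?_ hs
  · rw [S.X0]; exact Lg.one
  · intro x y hx hy
    rw [S.Xa]
    exact hx.mul0 hy
  · exact hR.Lb hvb hv
  · intro i hi
    rw [S.Xneg]
    exact (Lg.unit (hR.Lb hvb hv i) hi).2

lemma RH.nP {s : Λ} (hs : s ∈ LF b (JJ S R Q b)) : ¬ Pg R Q 0 (S.X s) := by
  intro h
  have h1 := (mem_LF_iff.1 hs).2
  have h2 := (hR.LS hvb hv h1).mulP0 h
  rw [mul_comm, X_neg S.X0 S.Xa] at h2
  exact Pg.not_one h2

lemma RH.yP {s : Λ} (hs : s ∈ SF b (JJ S R Q b)) (h : s ∉ LF b (JJ S R Q b)) :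
    Pg R Q 0 (S.X s) := by
  obtain ⟨i, hi, hpos⟩ := exists_pos hs h
  have h1 := hR.LS hvb hv (sub_b hs hpos)
  have h2 : Pg R Q 0 (S.X (b i)) := not_not.1 hi
  have h3 := h1.mulP0 h2
  rwa [← S.Xa, sub_add_cancel] at h3

lemma RH.cone {m : Λ} (hm : m ∈ S.P) : m - v ∈ SF b (JJ S R Q b) := fun i _ =>
  (S.hV v b hvb).cone m hm i

/-- The points of `P` where the coordinate is a unit. -/
lemma RH.unit_iff {m : Λ} (hm : m ∈ S.P) :
    ¬ Pg R Q 0 (S.X m / c) ↔ m - v ∈ LF b (JJ S R Q b) := by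
  have e : S.X m / c = S.X (m - v) * (S.X v / c) := by
    rw [S.Xsub]
    have := S.Xne v
    have := hR.c0
    field_simp
  constructor
  · intro h
    by_contra h1
    apply h
    have h2 := hR.yP hvb hv (hR.cone hvb hv hm) h1
    have h3 := (hR.LX (Q := Q) (S.hV v b hvb).vm).mulP0 h2
    rw [e, mul_comm]
    exact h3
  · intro h h1
    rw [e] at h1
    rcases Pg.prime (d := 0) (e := 0) (hR.LS hvb hv (LF_le h)) (hR.LX (S.hV v b hvb).vm)
      (by rwa [add_zero]) with h2 | h2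
    · exact hR.nP hvb hv h h2
    · exact hv h2

/-- The cone is stable. -/
theorem RH.stab (hst : ∀ m ∈ S.P, ¬ Pg R Q 0 (S.X m / c) → ¬ Pg R Q 0 (S.X (S.t m) / c)) :
    (∀ s ∈ SF b (JJ S R Q b), S.t s ∈ SF b (JJ S R Q b)) ∧ S.t v - v ∈ LF b (JJ S R Q b) := by
  have hPV := S.hV v b hvb
  have h1 : ∀ m ∈ S.P, m - v ∈ LF b (JJ S R Q b) → S.t m - v ∈ LF b (JJ S R Q b) := by
    intro m hm h
    exact (hR.unit_iff hvb hv (S.tP m hm)).1 (hst m hm ((hR.unit_iff hvb hv hm).2 h))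
  have h2 : S.t v - v ∈ LF b (JJ S R Q b) := h1 v hPV.vm (by rw [sub_self]; exact zero_mem _)
  have h3 : ∀ i, S.t (b i) = (S.t (v + b i) - v) - (S.t v - v) := by
    intro i
    rw [map_add]
    abel
  refine ⟨fun s hs => ?_, h2⟩
  refine SF_ind (fun s => S.t s ∈ SF b (JJ S R Q b)) ?_ ?_ ?_ ?_ hs
  · rw [map_zero]; exact zero_mem _
  · intro x y hx hy
    rw [map_add]
    exact add_mem hx hy
  · intro i
    rw [h3, sub_eq_add_neg]
    exact add_mem (hR.cone hvb hv (S.tP _ (hPV.vb i))) (LF_le (neg_mem h2))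
  · intro i hi
    have h4 : S.t (b i) ∈ LF b (JJ S R Q b) := by
      rw [h3]
      refine sub_mem (h1 _ (hPV.vb i) ?_) h2
      rw [add_sub_cancel_left]
      exact b_J hi
    rw [map_neg]
    exact LF_le (neg_mem h4)

end vertex

end local_

end Pool.Agent.Zk15
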