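import Pool.Agent.Zk15.Lat

/-!
# Differences on a lattice with an automorphism of prime order
-/

set_option autoImplicit false

namespace Pool.Agent.Zk15

variable {Λ : Type} [AddCommGroup Λ]

/-- The difference `t - 1`. -/
def dl (t : Λ →+ Λ) : Λ →+ Λ := t - AddMonoidHom.id Λ

lemma dl_apply (t : Λ →+ Λ) (x : Λ) : dl t x = t x - x := rfl

/-- The binomial formula. -/
lemma dl_iter (t : Λ →+ Λ) (q : ℕ) (x : Λ) :
    t^[q] x = ∑ m ∈ Finset.range (q + 1), q.choose m • (dl t)^[m] x := by
  let S : Module.End ℤ Λ := t.toIntLinearMap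
  let D : Module.End ℤ Λ := S - 1
  have hS : ∀ y, S y = t y := fun y => rfl
  have hD : ∀ y, D y = dl t y := fun y => rfl
  have h1 : ∀ (m : ℕ) (y : Λ), (D ^ m) y = (dl t)^[m] y := by
    intro m
    induction m with
    | zero => intro y; rfl
    | succ m ih =>
      intro y
      rw [pow_succ, Module.End.mul_apply, ih, hD, Function.iterate_succ_apply]
  have h2 : ∀ (m : ℕ) (y : Λ), (S ^ m) y = t^[m] y := by
    intro m
    induction m with
    | zero => intro y; rfl
    | succ m ih =>
      intro y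
      rw [pow_succ, Module.End.mul_apply, ih, hS, Function.iterate_succ_apply]
  have h3 : S = D + 1 := by simp [D]
  have h4 := (Commute.one_right D).add_pow q
  rw [← h3] at h4
  rw [← h2, h4, LinearMap.sum_apply]
  refine Finset.sum_congr rfl fun m _ => ?_
  rw [one_pow, mul_one, ← h1]
  rw [← Nat.cast_commute, ← nsmul_eq_mul, LinearMap.smul_apply]

/-- The norm and the differences. -/
lemma sum_iter (t : Λ →+ Λ) (q : ℕ) (x : Λ) :
    ∑ k ∈ Finset.range q, t^[k] x =
      ∑ m ∈ Finset.range q, q.choose (m + 1) • (dl t)^[m] x := by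
  induction q with
  | zero => rfl
  | succ q ih =>
    rw [Finset.sum_range_succ, ih, dl_iter]
    have h1 : ∑ m ∈ Finset.range (q + 1), (q + 1).choose (m + 1) • (dl t)^[m] x =
        ∑ m ∈ Finset.range (q + 1), q.choose m • (dl t)^[m] x +
          ∑ m ∈ Finset.range (q + 1), q.choose (m + 1) • (dl t)^[m] x := by
      rw [← Finset.sum_add_distrib]
      refine Finset.sum_congr rfl fun m _ => ?_
      rw [Nat.choose_succ_succ, add_smul]
    rw [h1, Finset.sum_range_succ (fun m => q.choose (m + 1) • (dl t)^[m] x),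
      Nat.choose_succ_self, zero_smul, add_zero, add_comm]

/-- The power `p - 1` of the difference on the kernel of the norm. -/
theorem dl_pred {t : Λ →+ Λ} {p : ℕ} (hp : p.Prime) {e : Λ} (he : e ∈ KN t p) :
    ∃ g ∈ AddSubgroup.closure (Set.range fun m => (dl t)^[m] e),
      (dl t)^[p - 1] e = -(p • (e + dl t g)) := by
  classical
  have h1 := mem_KN.1 he
  rw [sum_iter] at h1
  obtain ⟨q, rfl⟩ : ∃ q, p = q + 1 := ⟨p - 1, by have := hp.pos; omega⟩
  rw [Nat.add_sub_cancel]
  have hq : 0 < q := by have := hp.two_le; omega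
  obtain ⟨r, rfl⟩ : ∃ r, q = r + 1 := ⟨q - 1, by omega⟩
  rw [Finset.sum_range_succ, Nat.choose_self, one_smul, Finset.sum_range_succ', zero_add,
    Nat.choose_one_right, Function.iterate_zero_apply] at h1
  refine ⟨∑ k ∈ Finset.range r, ((r + 1 + 1).choose (k + 2) / (r + 1 + 1)) • (dl t)^[k] e,
    AddSubgroup.sum_mem _ fun k _ => AddSubgroup.nsmul_mem _ (AddSubgroup.subset_closure
      (Set.mem_range_self k)) _, ?_⟩
  rw [smul_add, map_sum, Finset.smul_sum]
  have h2 : ∀ k ∈ Finset.range r, (r + 1 + 1) • dl t (((r + 1 + 1).choose (k + 2) / (r + 1 + 1)) •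
      (dl t)^[k] e) = (r + 1 + 1).choose (k + 1 + 1) • (dl t)^[k + 1] e := by
    intro k hk
    rw [map_nsmul, smul_smul, Function.iterate_succ_apply']
    congr 1
    rw [Finset.mem_range] at hk
    exact Nat.mul_div_cancel' (hp.dvd_choose_self (by omega) (by omega))
  rw [Finset.sum_congr rfl h2, eq_neg_iff_add_eq_zero, ← h1]
  abel

/-- The differences of the iterates. -/
lemma dl_mem {t : Λ →+ Λ} {L : AddSubgroup Λ} (hL : ∀ e ∈ L, t e ∈ L) {e : Λ} (he : e ∈ L) :
    dl t e ∈ L := L.sub_mem (hL e he) he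

lemma dl_iter_mem {t : Λ →+ Λ} {L : AddSubgroup Λ} (hL : ∀ e ∈ L, t e ∈ L) {e : Λ} (he : e ∈ L)
    (m : ℕ) : (dl t)^[m] e ∈ L := by
  induction m with
  | zero => exact he
  | succ m ih =>
    rw [Function.iterate_succ_apply']
    exact dl_mem hL ih

end Pool.Agent.Zk15
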