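import Pool.Agent.Zk15.Poly

/-!
# Fans with strictly convex functions, and polytopes
-/

set_option autoImplicit false
set_option linter.unusedSectionVars false

namespace Pool.Agent.Zk15

open Module

/-- **The lemma of Farkas**, for integers. -/
theorem farkas {W : Type} [AddCommGroup W] {ι : Type} (s : Finset ι) (α : ι → W →+ ℤ)
    (γ : W →+ ℤ) (h : ∀ x, (∀ i ∈ s, 0 ≤ α i x) → 0 ≤ γ x) :
    ∃ d : ℕ, 0 < d ∧ ∃ c : ι → ℕ, ∀ x, (d : ℤ) * γ x = ∑ i ∈ s, (c i : ℤ) * α i x := by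
  classical
  induction s using Finset.induction_on generalizing α γ with
  | empty =>
    refine ⟨1, Nat.one_pos, fun _ => 0, fun x => ?_⟩
    have h1 := h x (fun i hi => absurd hi (Finset.notMem_empty i))
    have h2 := h (-x) (fun i hi => absurd hi (Finset.notMem_empty i))
    rw [map_neg] at h2
    rw [Finset.sum_empty]
    push_cast
    linarith
  | insert m s hm ih =>
    by_cases h1 : ∀ x, (∀ i ∈ s, 0 ≤ α i x) → 0 ≤ γ x
    · obtain ⟨d, hd, c, hc⟩ := ih α γ h1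
      refine ⟨d, hd, Function.update c m 0, fun x => ?_⟩
      rw [Finset.sum_insert hm, Function.update_self, hc]
      push_cast
      rw [zero_mul, zero_add]
      refine Finset.sum_congr rfl fun i hi => ?_
      rw [Function.update_of_ne]
      rintro rfl
      exact hm hi
    · push Not at h1
      obtain ⟨x0, hx0, hγ⟩ := h1
      have hm0 : α m x0 < 0 := by
        by_contra hcon
        push Not at hcon
        have h2 := h x0 (fun i hi => by
          rcases Finset.mem_insert.1 hi with rfl | hi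
          · exact hcon
          · exact hx0 i hi)
        linarith
      obtain ⟨t, ht⟩ : ∃ t : ℕ, (t : ℤ) = -α m x0 := ⟨(-α m x0).toNat, by omega⟩
      have ht0 : 0 < t := by omega
      have key : ∀ (β : W →+ ℤ) (x : W), ((t : ℤ) • β + (β x0) • α m) x =
          β ((t : ℤ) • x + (α m x) • x0) := by
        intro β x
        rw [map_add, map_zsmul, map_zsmul]
        change (t : ℤ) • β x + (β x0) • α m x = _
        simp only [smul_eq_mul]
        ring
      obtain ⟨d, hd, c, hc⟩ := ih (fun i => (t : ℤ) • α i + (α i x0) • α m)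
        ((t : ℤ) • γ + (γ x0) • α m) (fun x hx => by
          rw [key]
          refine h _ fun i hi => ?_
          rcases Finset.mem_insert.1 hi with rfl | hi
          · rw [map_add, map_zsmul, map_zsmul, smul_eq_mul, smul_eq_mul, ht]
            apply le_of_eq
            ring
          · rw [← key]
            exact hx i hi)
      have hcoef : 0 ≤ ∑ i ∈ s, (c i : ℤ) * α i x0 - d * γ x0 := by
        have h2 : 0 ≤ ∑ i ∈ s, (c i : ℤ) * α i x0 :=
          Finset.sum_nonneg fun i hi => mul_nonneg (by positivity) (hx0 i hi)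
        have h3 : 0 ≤ (d : ℤ) * (-γ x0) := mul_nonneg (by positivity) (by linarith)
        linarith
      refine ⟨d * t, Nat.mul_pos hd ht0, Function.update (fun i => c i * t) m
        (∑ i ∈ s, (c i : ℤ) * α i x0 - d * γ x0).toNat, fun x => ?_⟩
      rw [Finset.sum_insert hm, Function.update_self, Int.toNat_of_nonneg hcoef]
      have h2 : ∑ i ∈ s, ((Function.update (fun i => c i * t) m
          (∑ i ∈ s, (c i : ℤ) * α i x0 - d * γ x0).toNat i : ℕ) : ℤ) * α i x =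
          ∑ i ∈ s, ((c i : ℤ) * t) * α i x := by
        refine Finset.sum_congr rfl fun i hi => ?_
        rw [Function.update_of_ne]
        · push_cast
          rfl
        · rintro rfl
          exact hm hi
      rw [h2]
      have h3 := hc x
      have h4 : ∀ β : W →+ ℤ, ((t : ℤ) • β + (β x0) • α m) x = t * β x + β x0 * α m x := by
        intro β
        rfl
      rw [h4] at h3
      simp only [h4] at h3
      have h5 : ∑ i ∈ s, (c i : ℤ) * (t * α i x + α i x0 * α m x) =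
          ∑ i ∈ s, ((c i : ℤ) * t) * α i x + (∑ i ∈ s, (c i : ℤ) * α i x0) * α m x := by
        rw [Finset.sum_mul, ← Finset.sum_add_distrib]
        exact Finset.sum_congr rfl fun i _ => by ring
      rw [h5] at h3
      push_cast
      linear_combination h3

variable {N : Type} [AddCommGroup N] {n : ℕ}

/-- The action on the dual lattice. -/
def gm {G : Type} [Group G] (ψ : G →* (N ≃ₗ[ℤ] N)) (g : G) (m : N →ₗ[ℤ] ℤ) : N →ₗ[ℤ] ℤ :=
  m ∘ₗ ((ψ g⁻¹ : N ≃ₗ[ℤ] N) : N →ₗ[ℤ] N)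

lemma gm_apply {G : Type} [Group G] (ψ : G →* (N ≃ₗ[ℤ] N)) (g : G) (m : N →ₗ[ℤ] ℤ) (x : N) :
    gm ψ g m x = m (ψ g⁻¹ x) := rfl

lemma gm_self {G : Type} [Group G] (ψ : G →* (N ≃ₗ[ℤ] N)) (g : G) (m : N →ₗ[ℤ] ℤ) (x : N) :
    gm ψ g m (ψ g x) = m x := by
  rw [gm_apply, ← LinearEquiv.mul_apply, ← map_mul, inv_mul_cancel, map_one]
  rfl

/-- A complete simplicial fan (the cones are generated by the families `r`) with a strictly convex
function (linear on the cone of `r`, with the value `v`), stable under the group, such that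
different generators of a cone are not conjugate. -/
structure FN (e : Basis (Fin n) ℤ N) {G : Type} [Group G] (ψ : G →* (N ≃ₗ[ℤ] N))
    (A : Set ((Fin n → N) × (N →ₗ[ℤ] ℤ))) : Prop where
  fin : A.Finite
  nd : ∀ r v, (r, v) ∈ A → e.det r ≠ 0
  cpl : ∀ x : N, ∃ r v, (r, v) ∈ A ∧ ∃ a : ℤ, 0 < a ∧ ∃ c : Fin n → ℤ, (∀ i, 0 ≤ c i) ∧
    a • x = ∑ i, c i • r i
  cvx : ∀ r v r' v', (r, v) ∈ A → (r', v') ∈ A → ∀ j, v' (r' j) ≤ v (r' j) ∧
    (v (r' j) = v' (r' j) → ∃ i, r i = r' j)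
  st : ∀ g r v, (r, v) ∈ A → (fun i => ψ g (r i), gm ψ g v) ∈ A
  ors : ∀ r v, (r, v) ∈ A → ∀ g i j, ψ g (r i) = r j → r i = r j

/-- The basis given by a cone. -/
lemma exists_basis {e : Basis (Fin n) ℤ N} {r : Fin n → N} (h : IsUnit (e.det r)) :
    ∃ b : Basis (Fin n) ℤ N, ∀ i, b i = r i := by
  obtain ⟨h1, h2⟩ := (Basis.is_basis_iff_det e).2 h
  exact ⟨Basis.mk h1 h2.ge, fun i => Basis.mk_apply h1 h2.ge i⟩

/-- Bounds. -/
lemma exists_bound4 {α : Type} {n : ℕ} {A : Set α} (hA : A.Finite)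
    (f : α → α → Fin n → Fin n → ℤ) :
    ∃ K : ℕ, 0 < K ∧ ∀ x ∈ A, ∀ y ∈ A, ∀ i j, |f x y i j| ≤ K := by
  have hfin : ((fun q : (α × α) × (Fin n × Fin n) => (f q.1.1 q.1.2 q.2.1 q.2.2).natAbs) ''
      ((A ×ˢ A) ×ˢ (Set.univ : Set (Fin n × Fin n)))).Finite :=
    ((hA.prod hA).prod Set.finite_univ).image _
  obtain ⟨K, hK⟩ := hfin.bddAbove
  refine ⟨K + 1, Nat.succ_pos _, fun x hx y hy i j => ?_⟩
  have h1 : (f x y i j).natAbs ≤ K := hK ⟨((x, y), (i, j)), ⟨⟨hx, hy⟩, Set.mem_univ _⟩, rfl⟩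
  rw [Int.abs_eq_natAbs]
  exact_mod_cast h1.trans (Nat.le_succ K)

/-- **The polytope of a smooth fan.** -/
theorem FN.poly {e : Basis (Fin n) ℤ N} {G : Type} [Group G] {ψ : G →* (N ≃ₗ[ℤ] N)}
    {A : Set ((Fin n → N) × (N →ₗ[ℤ] ℤ))} (h : FN e ψ A)
    (hu : ∀ r v, (r, v) ∈ A → IsUnit (e.det r)) :
    ∃ (P : Set (N →ₗ[ℤ] ℤ)) (V : Set ((N →ₗ[ℤ] ℤ) × Basis (Fin n) ℤ (N →ₗ[ℤ] ℤ))),
      P.Finite ∧ P.Nonempty ∧ V.Finite ∧ SP P V ∧ ∀ g, ∀ m ∈ P, gm ψ g m ∈ P := by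
  classical
  have hne : Nonempty (Basis (Fin n) ℤ N) := ⟨e⟩
  choose! rb hrb using fun r (h : IsUnit (e.det r)) => exists_basis (e := e) (r := r) h
  set db : (Fin n → N) → Basis (Fin n) ℤ (N →ₗ[ℤ] ℤ) := fun r => (rb r).dualBasis with hdb
  have hdb1 : ∀ r v, (r, v) ∈ A → ∀ i j, db r i (r j) = if j = i then 1 else 0 := by
    intro r v hrv i j
    have h1 := (rb r).dualBasis_apply_self i j
    rw [hrb r (hu r v hrv)] at h1
    exact h1
  have hdb2 : ∀ r v, (r, v) ∈ A → ∀ (m : N →ₗ[ℤ] ℤ) i, (db r).repr m i = m (r i) := by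
    intro r v hrv m i
    have h1 := (rb r).dualBasis_repr m i
    rw [hrb r (hu r v hrv)] at h1
    exact h1
  obtain ⟨K, hK0, hKle'⟩ := exists_bound4 h.fin (fun x y i j => db y.1 j (x.1 i))
  have hKle : ∀ r v r' v', (r, v) ∈ A → (r', v') ∈ A → ∀ i j, -(K : ℤ) ≤ db r' j (r i) := by
    intro r v r' v' hrv hrv' i j
    exact (abs_le.1 (hKle' (r, v) hrv (r', v') hrv' i j)).1
  set V : Set ((N →ₗ[ℤ] ℤ) × Basis (Fin n) ℤ (N →ₗ[ℤ] ℤ)) :=
    (fun x : (Fin n → N) × (N →ₗ[ℤ] ℤ) => ((K : ℤ) • x.2, db x.1)) '' A with hV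
  set P : Set (N →ₗ[ℤ] ℤ) := ((fun x : (Fin n → N) × (N →ₗ[ℤ] ℤ) => (K : ℤ) • x.2) '' A) ∪
    ⋃ i : Fin n, ((fun x : (Fin n → N) × (N →ₗ[ℤ] ℤ) => (K : ℤ) • x.2 + db x.1 i) '' A) with hP
  have hPm1 : ∀ r v, (r, v) ∈ A → (K : ℤ) • v ∈ P := fun r v hrv => Or.inl ⟨(r, v), hrv, rfl⟩
  have hPm2 : ∀ r v, (r, v) ∈ A → ∀ i, (K : ℤ) • v + db r i ∈ P := fun r v hrv i =>
    Or.inr (Set.mem_iUnion.2 ⟨i, (r, v), hrv, rfl⟩)
  have hPc : ∀ m ∈ P, (∃ r v, (r, v) ∈ A ∧ m = (K : ℤ) • v) ∨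
      ∃ r v, (r, v) ∈ A ∧ ∃ i, m = (K : ℤ) • v + db r i := by
    rintro m (⟨⟨r, v⟩, hrv, rfl⟩ | hm)
    · exact Or.inl ⟨r, v, hrv, rfl⟩
    · obtain ⟨i, ⟨r, v⟩, hrv, rfl⟩ := Set.mem_iUnion.1 hm
      exact Or.inr ⟨r, v, hrv, i, rfl⟩
  -- the cone condition
  have hcone : ∀ r v, (r, v) ∈ A → ∀ m ∈ P, ∀ i, (K : ℤ) * v (r i) ≤ m (r i) := by
    intro r v hrv m hm i
    rcases hPc m hm with ⟨r', v', hrv', rfl⟩ | ⟨r', v', hrv', j, rfl⟩
    · rw [LinearMap.smul_apply, smul_eq_mul]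
      exact mul_le_mul_of_nonneg_left (h.cvx r' v' r v hrv' hrv i).1 (by positivity)
    · rw [LinearMap.add_apply, LinearMap.smul_apply, smul_eq_mul]
      obtain ⟨h1, h2⟩ := h.cvx r' v' r v hrv' hrv i
      rcases h1.eq_or_lt with h3 | h3
      · obtain ⟨k, hk⟩ := h2 h3.symm
        rw [h3, ← hk, hdb1 r' v' hrv']
        split_ifs <;> omega
      · have h4 := hKle r v r' v' hrv hrv' i j
        have h5 : (K : ℤ) * (v (r i) + 1) ≤ K * v' (r i) :=
          mul_le_mul_of_nonneg_left h3 (by positivity)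
        linarith
  refine ⟨P, V, ?_, ?_, h.fin.image _, ⟨?_, ?_, ?_, ?_⟩, ?_⟩
  · exact (h.fin.image _).union (Set.finite_iUnion fun i => h.fin.image _)
  · obtain ⟨r, v, hrv, -⟩ := h.cpl 0
    exact ⟨_, hPm1 r v hrv⟩
  · rintro w b ⟨⟨r, v⟩, hrv, hwb⟩
    obtain ⟨rfl, rfl⟩ := Prod.mk.inj hwb
    exact hPm1 r v hrv
  · rintro w b ⟨⟨r, v⟩, hrv, hwb⟩ i
    obtain ⟨rfl, rfl⟩ := Prod.mk.inj hwb
    exact hPm2 r v hrv i
  · rintro w b ⟨⟨r, v⟩, hrv, hwb⟩ m hm i
    obtain ⟨rfl, rfl⟩ := Prod.mk.inj hwb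
    dsimp only
    rw [hdb2 r v hrv, LinearMap.sub_apply, LinearMap.smul_apply, smul_eq_mul]
    have := hcone r v hrv m hm i
    linarith
  · intro m hm
    obtain ⟨d, hd, c, hc⟩ := farkas (W := N × ℤ) h.fin.toFinset
      (fun x : (Fin n → N) × (N →ₗ[ℤ] ℤ) =>
        (((K : ℤ) • x.2).coprod LinearMap.id : (N × ℤ) →ₗ[ℤ] ℤ).toAddMonoidHom)
      ((m.coprod LinearMap.id : (N × ℤ) →ₗ[ℤ] ℤ).toAddMonoidHom) (by
        rintro ⟨x, t⟩ hx
        obtain ⟨r, v, hrv, a, ha, k, hk, hax⟩ := h.cpl x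
        have h1 : 0 ≤ (K : ℤ) * v x + t := hx (r, v) (h.fin.mem_toFinset.2 hrv)
        change 0 ≤ m x + t
        have h2 : a * ((K : ℤ) * v x) ≤ a * m x := by
          have h3 : a * m x = ∑ i, k i * m (r i) := by
            rw [← smul_eq_mul, ← map_smul, hax, map_sum]
            exact Finset.sum_congr rfl fun i _ => by rw [map_smul, smul_eq_mul]
          have h4 : a * v x = ∑ i, k i * v (r i) := by
            rw [← smul_eq_mul, ← map_smul, hax, map_sum]
            exact Finset.sum_congr rfl fun i _ => by rw [map_smul, smul_eq_mul]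
          rw [mul_left_comm, h4, h3, Finset.mul_sum]
          refine Finset.sum_le_sum fun i _ => ?_
          rw [mul_left_comm]
          exact mul_le_mul_of_nonneg_left (hcone r v hrv m hm i) (hk i)
        have h3 := le_of_mul_le_mul_left h2 ha
        linarith)
    have hc' : ∀ (x : N) (t : ℤ), (d : ℤ) * (m x + t) =
        ∑ y ∈ h.fin.toFinset, (c y : ℤ) * ((K : ℤ) * y.2 x + t) := fun x t => hc (x, t)
    have hd1 : (d : ℤ) = ∑ y ∈ h.fin.toFinset, (c y : ℤ) := by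
      have h1 := hc' 0 1
      simpa using h1
    have hd2 : d = ∑ y ∈ h.fin.toFinset, c y := by
      exact_mod_cast hd1
    refine ⟨∑ y ∈ h.fin.toFinset, Multiset.replicate (c y) ((K : ℤ) • y.2), ?_, ?_, ?_⟩
    · intro h0
      have h1 := congrArg Multiset.card h0
      rw [Multiset.card_sum, Multiset.card_zero] at h1
      simp only [Multiset.card_replicate] at h1
      omega
    · intro w hw
      obtain ⟨y, hy, hw⟩ := Multiset.mem_sum.1 hw
      rw [Multiset.eq_of_mem_replicate hw]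
      exact ⟨db y.1, y, h.fin.mem_toFinset.1 hy, rfl⟩
    · rw [Multiset.card_sum, Multiset.sum_sum]
      simp only [Multiset.card_replicate, Multiset.sum_replicate]
      rw [← hd2]
      apply LinearMap.ext
      intro x
      have h1 := hc' x 0
      simp only [add_zero] at h1
      rw [LinearMap.smul_apply, nsmul_eq_mul, h1, LinearMap.sum_apply]
      refine Finset.sum_congr rfl fun y _ => ?_
      rw [LinearMap.smul_apply, LinearMap.smul_apply, nsmul_eq_mul, smul_eq_mul]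
  · intro g m hm
    have hlin : ∀ (v w : N →ₗ[ℤ] ℤ), gm ψ g ((K : ℤ) • v + w) = (K : ℤ) • gm ψ g v + gm ψ g w :=
      fun v w => rfl
    have hlin' : ∀ (v : N →ₗ[ℤ] ℤ), gm ψ g ((K : ℤ) • v) = (K : ℤ) • gm ψ g v :=
      fun v => rfl
    rcases hPc m hm with ⟨r, v, hrv, rfl⟩ | ⟨r, v, hrv, i, rfl⟩
    · rw [hlin']
      exact hPm1 _ _ (h.st g r v hrv)
    · rw [hlin]
      have h1 := h.st g r v hrv
      have h2 : gm ψ g (db r i) = db (fun i => ψ g (r i)) i := by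
        refine (rb (fun i => ψ g (r i))).ext fun j => ?_
        rw [hrb _ (hu _ _ h1), hdb1 _ _ h1, gm_self, hdb1 _ _ hrv]
      rw [h2]
      exact hPm2 _ _ h1 i

end Pool.Agent.Zk15
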