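import Pool.Agent.Zk15.Fa1

/-!
# Coordinates on cones
-/

set_option autoImplicit false
set_option linter.unusedSectionVars false

namespace Pool.Agent.Zk15

open Module

variable {N : Type} [AddCommGroup N] {n : ℕ}

/-- The coordinates with respect to the generators of a cone, multiplied by the square of the
determinant. -/
noncomputable def Lr (e : Basis (Fin n) ℤ N) (r : Fin n → N) (i : Fin n) : N →ₗ[ℤ] ℤ :=
  (e.det r) • (e.det.toMultilinearMap.toLinearMap r i)

lemma Lr_apply (e : Basis (Fin n) ℤ N) (r : Fin n → N) (i : Fin n) (x : N) :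
    Lr e r i x = e.det r * e.det (Function.update r i x) := rfl

/-- The square of the determinant. -/
noncomputable def qr (e : Basis (Fin n) ℤ N) (r : Fin n → N) : ℤ := e.det r * e.det r

lemma qr_pos {e : Basis (Fin n) ℤ N} {r : Fin n → N} (h : e.det r ≠ 0) : 0 < qr e r :=
  mul_self_pos.2 h

lemma Lr_self (e : Basis (Fin n) ℤ N) (r : Fin n → N) (i : Fin n) :
    Lr e r i (r i) = qr e r := by
  rw [Lr_apply, Function.update_eq_self]
  rfl

lemma Lr_ne (e : Basis (Fin n) ℤ N) (r : Fin n → N) {i j : Fin n} (h : j ≠ i) :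
    Lr e r i (r j) = 0 := by
  have h1 : e.det (Function.update r i (r j)) = 0 := by
    refine e.det.map_eq_zero_of_eq _ (i := i) (j := j) ?_ h.symm
    rw [Function.update_self, Function.update_of_ne h]
  rw [Lr_apply, h1, mul_zero]

/-- **The rule of Cramer.** -/
lemma cramer (e : Basis (Fin n) ℤ N) (r : Fin n → N) (x : N) :
    qr e r • x = ∑ i, Lr e r i x • r i := by
  refine e.ext_elem fun k => ?_
  have h1 := congrFun (Matrix.mulVec_cramer (e.toMatrix r) (fun k => e.repr x k)) k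
  rw [Matrix.mulVec, dotProduct] at h1
  rw [map_smul, Finsupp.smul_apply, map_sum, Finsupp.finsetSum_apply]
  simp only [map_smul, Finsupp.smul_apply, smul_eq_mul, Lr_apply]
  rw [qr, mul_assoc]
  have h2 : ∀ i, (e.toMatrix r).cramer (fun k => e.repr x k) i =
      e.det (Function.update r i x) := by
    intro i
    rw [Matrix.cramer_apply, e.det_apply, e.toMatrix_update]
  simp only [h2, Pi.smul_apply, smul_eq_mul] at h1
  rw [e.det_apply, ← h1, Finset.mul_sum]
  refine Finset.sum_congr rfl fun i _ => ?_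
  rw [Basis.toMatrix_apply]
  ring

/-- The element `x` is in the cone. -/
def cn (e : Basis (Fin n) ℤ N) (r : Fin n → N) (x : N) : Prop := ∀ i, 0 ≤ Lr e r i x

lemma cn_self (e : Basis (Fin n) ℤ N) (r : Fin n → N) (j : Fin n) : cn e r (r j) := by
  intro i
  by_cases h : j = i
  · subst h
    rw [Lr_self]
    exact mul_self_nonneg _
  · rw [Lr_ne e r h]

/-- Values of linear functions. -/
lemma val (e : Basis (Fin n) ℤ N) (r : Fin n → N) (v : N →ₗ[ℤ] ℤ) (x : N) :
    qr e r * v x = ∑ i, Lr e r i x * v (r i) := by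
  rw [← smul_eq_mul, ← map_smul, cramer, map_sum]
  exact Finset.sum_congr rfl fun i _ => by rw [map_smul, smul_eq_mul]

/-- Equality of elements. -/
lemma ext_cn {e : Basis (Fin n) ℤ N} {r : Fin n → N} (h : e.det r ≠ 0) {x y : N}
    (hxy : ∑ i, Lr e r i x • r i = qr e r • y) : x = y := by
  rw [← cramer] at hxy
  refine e.ext_elem fun k => ?_
  have h1 := congrArg (fun z => e.repr z k) hxy
  simp only [map_smul, Finsupp.smul_apply, smul_eq_mul] at h1
  exact mul_left_cancel₀ (qr_pos h).ne' h1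

section

variable {G : Type} [Group G] {ψ : G →* (N ≃ₗ[ℤ] N)}

lemma det_act (e : Basis (Fin n) ℤ N) (ψ : G →* (N ≃ₗ[ℤ] N)) (g : G) (r : Fin n → N) :
    e.det (fun i => ψ g (r i)) = LinearMap.det ((ψ g : N ≃ₗ[ℤ] N) : N →ₗ[ℤ] N) * e.det r :=
  e.det_comp ((ψ g : N ≃ₗ[ℤ] N) : N →ₗ[ℤ] N) r

lemma det_sq (ψ : G →* (N ≃ₗ[ℤ] N)) (g : G) :
    LinearMap.det ((ψ g : N ≃ₗ[ℤ] N) : N →ₗ[ℤ] N) * LinearMap.det ((ψ g : N ≃ₗ[ℤ] N) :
      N →ₗ[ℤ] N) = 1 := by
  have h1 : IsUnit (LinearMap.det ((ψ g : N ≃ₗ[ℤ] N) : N →ₗ[ℤ] N)) := (ψ g).isUnit_det'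
  rcases Int.isUnit_iff.1 h1 with h | h <;> rw [h] <;> rfl

lemma update_act (ψ : G →* (N ≃ₗ[ℤ] N)) (g : G) (r : Fin n → N) (i : Fin n) (x : N) :
    Function.update (fun i => ψ g (r i)) i (ψ g x) =
      fun j => ψ g (Function.update r i x j) := by
  funext j
  by_cases h : j = i
  · subst h
    rw [Function.update_self, Function.update_self]
  · rw [Function.update_of_ne h, Function.update_of_ne h]

lemma Lr_act (e : Basis (Fin n) ℤ N) (ψ : G →* (N ≃ₗ[ℤ] N)) (g : G) (r : Fin n → N)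
    (i : Fin n) (x : N) : Lr e (fun i => ψ g (r i)) i (ψ g x) = Lr e r i x := by
  rw [Lr_apply, Lr_apply, update_act, det_act, det_act]
  linear_combination (e.det r * e.det (Function.update r i x)) * det_sq ψ g

lemma qr_act (e : Basis (Fin n) ℤ N) (ψ : G →* (N ≃ₗ[ℤ] N)) (g : G) (r : Fin n → N) :
    qr e (fun i => ψ g (r i)) = qr e r := by
  rw [qr, qr, det_act]
  linear_combination (e.det r * e.det r) * det_sq ψ g

lemma cn_act (e : Basis (Fin n) ℤ N) (ψ : G →* (N ≃ₗ[ℤ] N)) (g : G) (r : Fin n → N) (x : N) :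
    cn e (fun i => ψ g (r i)) (ψ g x) ↔ cn e r x := by
  unfold cn
  simp only [Lr_act]

lemma act_inv (ψ : G →* (N ≃ₗ[ℤ] N)) (g : G) (x : N) : ψ g (ψ g⁻¹ x) = x := by
  rw [← LinearEquiv.mul_apply, ← map_mul, mul_inv_cancel, map_one]
  rfl

lemma act_mul (ψ : G →* (N ≃ₗ[ℤ] N)) (g h : G) (x : N) : ψ (g * h) x = ψ g (ψ h x) := by
  rw [map_mul, LinearEquiv.mul_apply]

variable {e : Basis (Fin n) ℤ N} {A : Set ((Fin n → N) × (N →ₗ[ℤ] ℤ))}

/-- The function is the minimum of the linear functions. -/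
lemma FN.le (h : FN e ψ A) {r : Fin n → N} {v : N →ₗ[ℤ] ℤ} {r' : Fin n → N} {v' : N →ₗ[ℤ] ℤ}
    (hr : (r, v) ∈ A) (hr' : (r', v') ∈ A) {x : N} (hx : cn e r x) : v x ≤ v' x := by
  have h1 := val e r v x
  have h2 := val e r v' x
  have h3 : qr e r * v x ≤ qr e r * v' x := by
    rw [h1, h2]
    exact Finset.sum_le_sum fun i _ =>
      mul_le_mul_of_nonneg_left (h.cvx r' v' r v hr' hr i).1 (hx i)
  exact le_of_mul_le_mul_left h3 (qr_pos (h.nd r v hr))

lemma FN.face (h : FN e ψ A) {r : Fin n → N} {v : N →ₗ[ℤ] ℤ} {r' : Fin n → N}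
    {v' : N →ₗ[ℤ] ℤ} (hr : (r, v) ∈ A) (hr' : (r', v') ∈ A) {x : N} (hx : cn e r x)
    (heq : v' x ≤ v x) (i : Fin n) (hi : 0 < Lr e r i x) : ∃ k, r' k = r i := by
  obtain ⟨h1, h2⟩ := h.cvx r' v' r v hr' hr i
  rcases h1.eq_or_lt with h3 | h3
  · exact h2 h3.symm
  · exfalso
    have h4 := val e r v x
    have h5 := val e r v' x
    have h6 : qr e r * v x < qr e r * v' x := by
      rw [h4, h5]
      exact Finset.sum_lt_sum (fun i _ =>
        mul_le_mul_of_nonneg_left (h.cvx r' v' r v hr' hr i).1 (hx i))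
        ⟨i, Finset.mem_univ i, mul_lt_mul_of_pos_left h3 hi⟩
    have h7 := lt_of_mul_lt_mul_left h6 (qr_pos (h.nd r v hr)).le
    exact absurd heq (not_le.2 h7)

/-- There is at most one element of an orbit in a cone. -/
lemma FN.uo (h : FN e ψ A) {r : Fin n → N} {v : N →ₗ[ℤ] ℤ} (hr : (r, v) ∈ A) {x : N} {g : G}
    (hx : cn e r x) (hgx : cn e r (ψ g x)) : ψ g x = x := by
  have hr' := h.st g r v hr
  have hx' : cn e (fun i => ψ g (r i)) (ψ g x) := (cn_act e ψ g r x).2 hx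
  have h1 : v (ψ g x) ≤ gm ψ g v (ψ g x) := h.le hr hr' hgx
  have h2 : ∀ i, 0 < Lr e r i x → ψ g (r i) = r i := by
    intro i hi
    obtain ⟨k, hk⟩ := h.face hr' hr hx' h1 i (by rw [Lr_act]; exact hi)
    have h3 := h.ors r v hr g i k hk.symm
    rw [← hk, h3]
  symm
  refine ext_cn (h.nd r v hr) ?_
  rw [← map_smul, cramer, map_sum]
  refine Finset.sum_congr rfl fun i _ => ?_
  rw [map_smul]
  rcases (hx i).eq_or_lt with h3 | h3
  · rw [← h3, zero_smul, zero_smul]
  · rw [h2 i h3]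

/-- The coefficients of an element in a cone and in another cone. -/
lemma FN.co (h : FN e ψ A) {r0 : Fin n → N} {v0 : N →ₗ[ℤ] ℤ} (hr0 : (r0, v0) ∈ A) {u : N}
    (hu : ∀ i, 0 ≤ Lr e r0 i u) (hu' : ∀ i, Lr e r0 i u < qr e r0) {r : Fin n → N}
    {v : N →ₗ[ℤ] ℤ} (hr : (r, v) ∈ A) {g : G} (hg : cn e r (ψ g u)) (i : Fin n) :
    Lr e r i (ψ g u) < qr e r := by
  classical
  have hr1 := h.st g r0 v0 hr0
  have hx' : cn e (fun i => ψ g (r0 i)) (ψ g u) := (cn_act e ψ g r0 u).2 hu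
  have h1 : v (ψ g u) ≤ gm ψ g v0 (ψ g u) := h.le hr hr1 hg
  have h2 : ∀ k, 0 < Lr e r0 k u → ∃ j, r j = ψ g (r0 k) := by
    intro k hk
    exact h.face hr1 hr hx' h1 k (by rw [Lr_act]; exact hk)
  have hq0 := qr_pos (h.nd r0 v0 hr0)
  have hq := qr_pos (h.nd r v hr)
  have h3 : qr e r0 * Lr e r i (ψ g u) = ∑ k, Lr e r0 k u * Lr e r i (ψ g (r0 k)) := by
    rw [← smul_eq_mul, ← map_smul, ← map_smul, cramer, map_sum, map_sum]
    exact Finset.sum_congr rfl fun k _ => by rw [map_smul, map_smul, smul_eq_mul]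
  have h4 : ∀ k, 0 < Lr e r0 k u → ψ g (r0 k) ≠ r i → Lr e r i (ψ g (r0 k)) = 0 := by
    intro k hk hne
    obtain ⟨j, hj⟩ := h2 k hk
    rw [← hj]
    exact Lr_ne e r fun hji => hne (by rw [← hj, hji])
  have h5 : qr e r0 * Lr e r i (ψ g u) < qr e r0 * qr e r := by
    rw [h3]
    by_cases hex : ∃ k, 0 < Lr e r0 k u ∧ ψ g (r0 k) = r i
    · obtain ⟨k, hk, hki⟩ := hex
      rw [Finset.sum_eq_single k]
      · rw [hki, Lr_self]
        exact mul_lt_mul_of_pos_right (hu' k) hq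
      · intro k' _ hk'
        rcases (hu k').eq_or_lt with h6 | h6
        · rw [← h6, zero_mul]
        · rw [h4 k' h6, mul_zero]
          intro h7
          have h8 : r0 k' = r0 k := (ψ g).injective (h7.trans hki.symm)
          exact h.nd r0 v0 hr0 (e.det.map_eq_zero_of_eq r0 h8 hk')
      · intro hk'
        exact absurd (Finset.mem_univ k) hk'
    · rw [Finset.sum_eq_zero]
      · exact mul_pos hq0 hq
      · intro k _
        rcases (hu k).eq_or_lt with h6 | h6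
        · rw [← h6, zero_mul]
        · rw [h4 k h6, mul_zero]
          intro h7
          exact hex ⟨k, h6, h7⟩
  exact lt_of_mul_lt_mul_left h5 hq0.le

/-- Completeness with the coordinates. -/
lemma FN.cpl' (h : FN e ψ A) (x : N) : ∃ r v, (r, v) ∈ A ∧ cn e r x := by
  obtain ⟨r, v, hr, a, ha, c, hc, hax⟩ := h.cpl x
  refine ⟨r, v, hr, fun i => ?_⟩
  have h1 : a * Lr e r i x = ∑ j, c j * Lr e r i (r j) := by
    rw [← smul_eq_mul, ← map_smul, hax, map_sum]
    exact Finset.sum_congr rfl fun k _ => by rw [map_smul, smul_eq_mul]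
  have h2 : 0 ≤ a * Lr e r i x := by
    rw [h1]
    exact Finset.sum_nonneg fun j _ => mul_nonneg (hc j) (cn_self e r j i)
  exact nonneg_of_mul_nonneg_right h2 ha

end

end Pool.Agent.Zk15
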