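import Pool.Agent.Zk15.Fa2

/-!
# Star subdivisions
-/

set_option autoImplicit false
set_option linter.unusedSectionVars false

namespace Pool.Agent.Zk15

open Module

variable {N : Type} [AddCommGroup N] {n : ℕ} {G : Type} [Group G]

/-- The star subdivision at the orbit of `u`. -/
def SA (e : Basis (Fin n) ℤ N) (ψ : G →* (N ≃ₗ[ℤ] N)) (A : Set ((Fin n → N) × (N →ₗ[ℤ] ℤ)))
    (u : N) (D K : ℤ) : Set ((Fin n → N) × (N →ₗ[ℤ] ℤ)) :=
  {x | ∃ v, (x.1, v) ∈ A ∧ x.2 = K • v ∧ ∀ g, ¬ cn e x.1 (ψ g u)} ∪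
  {x | ∃ r v g i, (r, v) ∈ A ∧ cn e r (ψ g u) ∧ 0 < Lr e r i (ψ g u) ∧
    x = (Function.update r i (ψ g u), K • v + (D / Lr e r i (ψ g u)) • Lr e r i)}

variable {ψ : G →* (N ≃ₗ[ℤ] N)} {e : Basis (Fin n) ℤ N} {A : Set ((Fin n → N) × (N →ₗ[ℤ] ℤ))}

lemma exists_mult {S : Set ℤ} (hS : S.Finite) : ∃ D : ℤ, 0 < D ∧ ∀ s ∈ S, 0 < s → s ∣ D := by
  classical
  refine ⟨∏ s ∈ hS.toFinset.filter (0 < ·), s, ?_, ?_⟩
  · exact Finset.prod_pos fun s hs => (Finset.mem_filter.1 hs).2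
  · intro s hs h0
    exact Finset.dvd_prod_of_mem (fun s => s) (Finset.mem_filter.2 ⟨hS.mem_toFinset.2 hs, h0⟩)

lemma exists_abs_le {S : Set ℤ} (hS : S.Finite) : ∃ K : ℤ, ∀ s ∈ S, |s| ≤ K := by
  obtain ⟨K, hK⟩ := (hS.image fun s => |s|).bddAbove
  exact ⟨K, fun s hs => hK ⟨s, hs, rfl⟩⟩

lemma FN.cn_face (h : FN e ψ A) {r r' : Fin n → N} {v v' : N →ₗ[ℤ] ℤ} (hr : (r, v) ∈ A)
    (hr' : (r', v') ∈ A) {x : N} (hx : cn e r' x) (heq : v x ≤ v' x) : cn e r x := by
  intro i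
  have h1 : qr e r' * Lr e r i x = ∑ k, Lr e r' k x * Lr e r i (r' k) := val e r' (Lr e r i) x
  have h2 : 0 ≤ qr e r' * Lr e r i x := by
    rw [h1]
    refine Finset.sum_nonneg fun k _ => ?_
    rcases (hx k).eq_or_lt with h3 | h3
    · rw [← h3, zero_mul]
    · obtain ⟨j, hj⟩ := h.face hr' hr hx heq k h3
      rw [← hj]
      exact mul_nonneg h3.le (cn_self e r j i)
  exact nonneg_of_mul_nonneg_right h2 (qr_pos (h.nd r' v' hr'))

/-- The description of the cones of the star subdivision. -/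
lemma FN.sa_desc (h : FN e ψ A) {u : N} {D K : ℤ} (hD : 0 < D)
    (hDd : ∀ r v, (r, v) ∈ A → ∀ g i, 0 < Lr e r i (ψ g u) → Lr e r i (ψ g u) ∣ D)
    {R : Set N}
    (hK : ∀ r v, (r, v) ∈ A → ∀ g i, ∀ ρ ∈ R,
      |((D / Lr e r i (ψ g u)) • Lr e r i : N →ₗ[ℤ] ℤ) ρ| + D < K)
    (hKD : D < K)
    {r1 : Fin n → N} {w1 : N →ₗ[ℤ] ℤ} (h1 : (r1, w1) ∈ SA e ψ A u D K) :
    ∃ r v, (r, v) ∈ A ∧ ∃ β : N →ₗ[ℤ] ℤ, w1 = K • v + β ∧
      (∀ j, (∃ k, r1 j = r k ∧ β (r k) = 0) ∨
        ∃ g, r1 j = ψ g u ∧ β (ψ g u) = D ∧ cn e r (ψ g u)) ∧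
      (∀ k, ((∃ j, r1 j = r k) ∧ β (r k) = 0) ∨ 0 < β (r k)) ∧
      (∀ g, cn e r (ψ g u) → (∃ j, r1 j = ψ g u) ∧ β (ψ g u) = D) ∧
      (∀ ρ ∈ R, |β ρ| + D < K) := by
  rcases h1 with ⟨v, hr, hw, hg⟩ | ⟨r, v, g, i, hr, hg, hi, hx⟩
  · dsimp only at hr hw hg
    refine ⟨r1, v, hr, 0, by rw [hw, add_zero], fun j => Or.inl ⟨j, rfl, rfl⟩,
      fun k => Or.inl ⟨⟨k, rfl⟩, rfl⟩, fun g hgu => absurd hgu (hg g), fun ρ _ => ?_⟩
    rw [LinearMap.zero_apply, abs_zero, zero_add]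
    exact hKD
  · obtain ⟨rfl, rfl⟩ := Prod.mk.inj hx
    have hd := hDd r v hr g i hi
    have hβu : ((D / Lr e r i (ψ g u)) • Lr e r i : N →ₗ[ℤ] ℤ) (ψ g u) = D := by
      rw [LinearMap.smul_apply, smul_eq_mul]
      exact Int.ediv_mul_cancel hd
    have hβ : ∀ j, j ≠ i → ((D / Lr e r i (ψ g u)) • Lr e r i : N →ₗ[ℤ] ℤ) (r j) = 0 := by
      intro j hj
      rw [LinearMap.smul_apply, Lr_ne e r hj, smul_zero]
    refine ⟨r, v, hr, _, rfl, fun j => ?_, fun k => ?_, fun g' hg' => ?_,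
      fun ρ hρ => hK r v hr g i ρ hρ⟩
    · by_cases hj : j = i
      · subst hj
        exact Or.inr ⟨g, Function.update_self _ _ _, hβu, hg⟩
      · exact Or.inl ⟨j, Function.update_of_ne hj _ _, hβ j hj⟩
    · by_cases hk : k = i
      · subst hk
        right
        rw [LinearMap.smul_apply, Lr_self, smul_eq_mul]
        exact mul_pos (Int.ediv_pos_of_pos_of_dvd hD hi.le hd) (qr_pos (h.nd r v hr))
      · exact Or.inl ⟨⟨k, Function.update_of_ne hk _ _⟩, hβ k hk⟩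
    · have h2 : ψ g u = ψ g' u := by
        have h3 : ψ (g * g'⁻¹) (ψ g' u) = ψ g u := by
          rw [← act_mul, inv_mul_cancel_right]
        rw [← h3]
        exact h.uo hr hg' (by rw [h3]; exact hg)
      rw [← h2]
      exact ⟨⟨i, Function.update_self _ _ _⟩, hβu⟩

/-- **Star subdivisions.** -/
theorem FN.star [Finite G] (h : FN e ψ A) {u : N} (hu0 : u ≠ 0)
    (hnr : ∀ r v, (r, v) ∈ A → ∀ g j, ψ g u ≠ r j) :
    ∃ D K : ℤ, FN e ψ (SA e ψ A u D K) := by
  classical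
  have := Fintype.ofFinite G
  -- the number `D`
  obtain ⟨D, hD, hDd'⟩ := exists_mult (S := ⋃ g : G, ⋃ i : Fin n,
    (fun y : (Fin n → N) × (N →ₗ[ℤ] ℤ) => Lr e y.1 i (ψ g u)) '' A)
    (Set.finite_iUnion fun g => Set.finite_iUnion fun i => h.fin.image _)
  have hDd : ∀ r v, (r, v) ∈ A → ∀ g i, 0 < Lr e r i (ψ g u) → Lr e r i (ψ g u) ∣ D :=
    fun r v hr g i hi => hDd' _ (Set.mem_iUnion.2 ⟨g, Set.mem_iUnion.2 ⟨i, (r, v), hr, rfl⟩⟩) hi
  -- the rays
  set R : Set N := (⋃ j : Fin n, (fun y : (Fin n → N) × (N →ₗ[ℤ] ℤ) => y.1 j) '' A) ∪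
    Set.range (fun g => ψ g u) with hR
  have hRfin : R.Finite := (Set.finite_iUnion fun j => h.fin.image _).union
    (Set.finite_range _)
  have hR1 : ∀ r v, (r, v) ∈ A → ∀ j, r j ∈ R := fun r v hr j =>
    Or.inl (Set.mem_iUnion.2 ⟨j, (r, v), hr, rfl⟩)
  have hR2 : ∀ g, ψ g u ∈ R := fun g => Or.inr ⟨g, rfl⟩
  obtain ⟨K0, hK0⟩ := exists_abs_le (S := ⋃ g : G, ⋃ i : Fin n,
    (fun y : ((Fin n → N) × (N →ₗ[ℤ] ℤ)) × N =>
      ((D / Lr e y.1.1 i (ψ g u)) • Lr e y.1.1 i : N →ₗ[ℤ] ℤ) y.2) '' (A ×ˢ R))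
    (Set.finite_iUnion fun g => Set.finite_iUnion fun i => (h.fin.prod hRfin).image _)
  set K : ℤ := |K0| + D + 1 with hKdef
  have hK : ∀ r v, (r, v) ∈ A → ∀ g i, ∀ ρ ∈ R,
      |((D / Lr e r i (ψ g u)) • Lr e r i : N →ₗ[ℤ] ℤ) ρ| + D < K := by
    intro r v hr g i ρ hρ
    have h1 := hK0 _ (Set.mem_iUnion.2 ⟨g, Set.mem_iUnion.2 ⟨i, ((r, v), ρ), ⟨hr, hρ⟩, rfl⟩⟩)
    have h2 := le_abs_self K0
    dsimp only at h1
    omega
  have hKD : D < K := by
    have h2 := abs_nonneg K0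
    omega
  have hK0' : 0 < K := hD.trans hKD
  refine ⟨D, K, ?_, ?_, ?_, ?_, ?_, ?_⟩
  · -- finiteness
    refine Set.Finite.subset ((h.fin.image (fun y => (y.1, K • y.2))).union
      (Set.finite_iUnion fun g : G => Set.finite_iUnion fun i : Fin n => h.fin.image
        (fun y => (Function.update y.1 i (ψ g u),
          K • y.2 + (D / Lr e y.1 i (ψ g u)) • Lr e y.1 i)))) ?_
    rintro x (⟨v, hr, hw, -⟩ | ⟨r, v, g, i, hr, -, -, rfl⟩)
    · left
      exact ⟨(x.1, v), hr, Prod.ext rfl hw.symm⟩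
    · right
      exact Set.mem_iUnion.2 ⟨g, Set.mem_iUnion.2 ⟨i, (r, v), hr, rfl⟩⟩
  · -- the determinants
    rintro r1 w1 (⟨v, hr, -, -⟩ | ⟨r, v, g, i, hr, -, hi, hx⟩)
    · exact h.nd r1 v hr
    · obtain ⟨rfl, rfl⟩ := Prod.mk.inj hx
      intro h0
      rw [Lr_apply, h0, mul_zero] at hi
      exact lt_irrefl _ hi
  · -- completeness
    intro x
    obtain ⟨r, v, hr, hx⟩ := h.cpl' x
    have hq := qr_pos (h.nd r v hr)
    by_cases hex : ∃ g, cn e r (ψ g u)
    · obtain ⟨g, hg⟩ := hex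
      have hne : (Finset.univ.filter fun i => 0 < Lr e r i (ψ g u)).Nonempty := by
        by_contra hcon
        rw [Finset.not_nonempty_iff_eq_empty] at hcon
        apply hu0
        apply (ψ g).injective
        rw [map_zero]
        refine ext_cn (h.nd r v hr) ?_
        rw [smul_zero]
        refine Finset.sum_eq_zero fun i _ => ?_
        have h1 : ¬ 0 < Lr e r i (ψ g u) := fun h2 => by
          have h3 : i ∈ (Finset.univ.filter fun i => 0 < Lr e r i (ψ g u)) :=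
            Finset.mem_filter.2 ⟨Finset.mem_univ i, h2⟩
          rw [hcon] at h3
          exact absurd h3 (Finset.notMem_empty i)
        rw [le_antisymm (not_lt.1 h1) (hg i), zero_smul]
      obtain ⟨i, hi, hmin⟩ := Finset.exists_min_image _
        (fun i => (Lr e r i x : ℚ) / (Lr e r i (ψ g u) : ℚ)) hne
      rw [Finset.mem_filter] at hi
      have hi0 := hi.2
      have hmin' : ∀ j, 0 ≤ Lr e r i (ψ g u) * Lr e r j x - Lr e r j (ψ g u) * Lr e r i x := by
        intro j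
        rcases (hg j).eq_or_lt with h1 | h1
        · rw [← h1, zero_mul, sub_zero]
          exact mul_nonneg hi0.le (hx j)
        · have h2 := hmin j (Finset.mem_filter.2 ⟨Finset.mem_univ j, h1⟩)
          rw [div_le_div_iff₀ (by exact_mod_cast hi0) (by exact_mod_cast h1)] at h2
          have h3 : Lr e r i x * Lr e r j (ψ g u) ≤ Lr e r j x * Lr e r i (ψ g u) := by
            exact_mod_cast h2
          linarith
      refine ⟨_, _, Or.inr ⟨r, v, g, i, hr, hg, hi0, rfl⟩, Lr e r i (ψ g u) * qr e r,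
        mul_pos hi0 hq, fun j => if j = i then qr e r * Lr e r i x else
          Lr e r i (ψ g u) * Lr e r j x - Lr e r j (ψ g u) * Lr e r i x, fun j => ?_, ?_⟩
      · dsimp only
        split_ifs
        · exact mul_nonneg hq.le (hx i)
        · exact hmin' j
      · have h1 : ∀ j, (if j = i then qr e r * Lr e r i x else
            Lr e r i (ψ g u) * Lr e r j x - Lr e r j (ψ g u) * Lr e r i x) •
            Function.update r i (ψ g u) j =
            Lr e r i (ψ g u) • (Lr e r j x • r j) - Lr e r i x • (Lr e r j (ψ g u) • r j) +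
            (if j = i then (qr e r * Lr e r i x) • ψ g u else 0) := by
          intro j
          by_cases hj : j = i
          · subst hj
            rw [if_pos rfl, if_pos rfl, Function.update_self, smul_smul, smul_smul,
              mul_comm (Lr e r j x), sub_self, zero_add]
          · rw [if_neg hj, if_neg hj, Function.update_of_ne hj, add_zero, smul_smul, smul_smul,
              ← sub_smul, mul_comm (Lr e r i x)]
        simp only [h1]
        rw [Finset.sum_add_distrib, Finset.sum_sub_distrib, ← Finset.smul_sum,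
          ← Finset.smul_sum, ← cramer, ← cramer, Finset.sum_ite_eq' Finset.univ i,
          if_pos (Finset.mem_univ i), smul_smul, smul_smul, mul_comm (qr e r) (Lr e r i x),
          sub_add_cancel]
    · refine ⟨r, K • v, Or.inl ⟨v, hr, rfl, fun g hg => hex ⟨g, hg⟩⟩, qr e r, hq,
        fun i => Lr e r i x, hx, cramer e r x⟩
  · -- convexity
    intro r1 w1 r1' w1' h1 h1' j
    obtain ⟨r, v, hr, β, rfl, ha, hb, hc, hd⟩ := h.sa_desc hD hDd hK hKD h1
    obtain ⟨r', v', hr', β', rfl, ha', hb', hc', hd'⟩ := h.sa_desc hD hDd hK hKD h1'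
    rcases ha' j with ⟨k, hk, hβ⟩ | ⟨g, hg, hβ, hcn⟩
    · rw [hk]
      have e1 : (K • v' + β') (r' k) = K * v' (r' k) := by
        rw [LinearMap.add_apply, hβ, add_zero]
        rfl
      have e2 : (K • v + β) (r' k) = K * v (r' k) + β (r' k) := rfl
      rw [e1, e2]
      obtain ⟨h2, h3⟩ := h.cvx r v r' v' hr hr' k
      rcases h2.eq_or_lt with h4 | h4
      · obtain ⟨i, hi⟩ := h3 h4.symm
        rw [h4]
        rcases hb i with ⟨⟨j', hj'⟩, h5⟩ | h5
        · rw [hi] at h5 hj'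
          rw [h5, add_zero]
          exact ⟨le_rfl, fun _ => ⟨j', hj'⟩⟩
        · rw [hi] at h5
          constructor
          · linarith
          · intro h6
            linarith
      · have h5 := hd _ (hR1 r' v' hr' k)
        have h6 := (abs_le.1 (le_refl |β (r' k)|)).1
        have h7 : K * (v' (r' k) + 1) ≤ K * v (r' k) := mul_le_mul_of_nonneg_left h4 hK0'.le
        constructor
        · linarith
        · intro h8
          linarith
    · rw [hg]
      have e1 : (K • v' + β') (ψ g u) = K * v' (ψ g u) + D := by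
        rw [LinearMap.add_apply, hβ]
        rfl
      have e2 : (K • v + β) (ψ g u) = K * v (ψ g u) + β (ψ g u) := rfl
      rw [e1, e2]
      rcases (h.le hr' hr hcn).eq_or_lt with h4 | h4
      · obtain ⟨⟨j', hj'⟩, h5⟩ := hc g (h.cn_face hr hr' hcn h4.ge)
        rw [h5, h4]
        exact ⟨le_rfl, fun _ => ⟨j', hj'⟩⟩
      · have h5 := hd _ (hR2 g)
        have h6 := (abs_le.1 (le_refl |β (ψ g u)|)).1
        have h7 : K * (v' (ψ g u) + 1) ≤ K * v (ψ g u) := mul_le_mul_of_nonneg_left h4 hK0'.le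
        constructor
        · linarith
        · intro h8
          linarith
  · -- stability
    rintro g0 r1 w1 (⟨v, hr, hw, hg⟩ | ⟨r, v, g, i, hr, hg, hi, hx⟩)
    · dsimp only at hr hw hg
      subst hw
      left
      refine ⟨gm ψ g0 v, h.st g0 r1 v hr, rfl, fun g hgu => hg (g0⁻¹ * g) ?_⟩
      have h1 : ψ g u = ψ g0 (ψ (g0⁻¹ * g) u) := by
        rw [← act_mul, mul_inv_cancel_left]
      rw [h1] at hgu
      exact (cn_act e ψ g0 r1 _).1 hgu
    · obtain ⟨rfl, rfl⟩ := Prod.mk.inj hx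
      right
      have h1 : Lr e (fun j => ψ g0 (r j)) i (ψ (g0 * g) u) = Lr e r i (ψ g u) := by
        rw [act_mul, Lr_act]
      refine ⟨fun j => ψ g0 (r j), gm ψ g0 v, g0 * g, i, h.st g0 r v hr, ?_, ?_, ?_⟩
      · rw [act_mul]
        exact (cn_act e ψ g0 r _).2 hg
      · rw [h1]
        exact hi
      · refine Prod.ext ?_ ?_
        · dsimp only
          rw [act_mul, update_act]
        · dsimp only
          rw [h1]
          apply LinearMap.ext
          intro x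
          have h2 : Lr e (fun j => ψ g0 (r j)) i x = Lr e r i (ψ g0⁻¹ x) := by
            rw [← Lr_act e ψ g0 r i (ψ g0⁻¹ x), act_inv]
          rw [gm_apply, LinearMap.add_apply, LinearMap.add_apply, LinearMap.smul_apply,
            LinearMap.smul_apply, LinearMap.smul_apply, LinearMap.smul_apply, gm_apply, h2]
  · -- orbits
    intro r1 w1 h1 g0 i j hij
    obtain ⟨r, v, hr, β, rfl, ha, hb, hc, hd⟩ := h.sa_desc hD hDd hK hKD h1
    rcases ha i with ⟨k, hk, -⟩ | ⟨g, hg, -, hcn⟩ <;>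
      rcases ha j with ⟨l, hl, -⟩ | ⟨g', hg', -, hcn'⟩
    · rw [hk, hl] at hij ⊢
      exact h.ors r v hr g0 k l hij
    · exfalso
      rw [hk, hg'] at hij
      apply hnr r v hr (g0⁻¹ * g') k
      rw [act_mul, ← hij, ← act_mul, inv_mul_cancel, map_one]
      rfl
    · exfalso
      rw [hg, hl] at hij
      apply hnr r v hr (g0 * g) l
      rw [act_mul, hij]
    · rw [hg, hg']
      have h3 : ψ (g * g'⁻¹) (ψ g' u) = ψ g u := by
        rw [← act_mul, inv_mul_cancel_right]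
      rw [← h3]
      exact h.uo hr hcn' (by rw [h3]; exact hcn)

end Pool.Agent.Zk15
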