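import Pool.Agent.Zk15.Fa3

/-!
# Unimodular subdivisions
-/

set_option autoImplicit false
set_option linter.unusedSectionVars false

namespace Pool.Agent.Zk15

open Module

variable {N : Type} [AddCommGroup N] {n : ℕ} {G : Type} [Group G]

variable {ψ : G →* (N ≃ₗ[ℤ] N)} {e : Basis (Fin n) ℤ N}

/-- An element with coefficients in `[0, 1)`. -/
lemma exists_frac {r : Fin n → N} (h0 : e.det r ≠ 0) (h1 : ¬ IsUnit (e.det r)) :
    ∃ u : N, u ≠ 0 ∧ (∀ i, 0 ≤ Lr e r i u) ∧ ∀ i, Lr e r i u < qr e r := by
  classical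
  have hq := qr_pos h0
  have hx : ∃ x, x ∉ Submodule.span ℤ (Set.range r) := by
    by_contra hcon
    push Not at hcon
    apply h1
    refine (Basis.is_basis_iff_det e).1 ⟨?_, eq_top_iff.2 fun x _ => hcon x⟩
    rw [Fintype.linearIndependent_iff]
    intro c hc i
    have h2 : Lr e r i (∑ j, c j • r j) = c i * qr e r := by
      rw [map_sum, Finset.sum_eq_single i]
      · rw [map_smul, Lr_self, smul_eq_mul]
      · intro j _ hj
        rw [map_smul, Lr_ne e r hj, smul_zero]
      · intro hi
        exact absurd (Finset.mem_univ i) hi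
    rw [hc, map_zero] at h2
    exact (mul_eq_zero.1 h2.symm).resolve_right hq.ne'
  obtain ⟨x, hx⟩ := hx
  have h2 : ∀ i, Lr e r i (x - ∑ j, (Lr e r j x / qr e r) • r j) = Lr e r i x % qr e r := by
    intro i
    rw [map_sub, map_sum, Finset.sum_eq_single i]
    · rw [map_smul, Lr_self, smul_eq_mul, Int.emod_def, mul_comm (qr e r)]
    · intro j _ hj
      rw [map_smul, Lr_ne e r hj, smul_zero]
    · intro hi
      exact absurd (Finset.mem_univ i) hi
  refine ⟨x - ∑ j, (Lr e r j x / qr e r) • r j, ?_, fun i => ?_, fun i => ?_⟩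
  · intro h3
    rw [sub_eq_zero] at h3
    apply hx
    rw [h3]
    exact sum_mem fun i _ => Submodule.smul_mem _ _ (Submodule.subset_span ⟨i, rfl⟩)
  · rw [h2]
    exact Int.emod_nonneg _ hq.ne'
  · rw [h2]
    exact Int.emod_lt_of_pos _ hq

/-- **Unimodular subdivisions.** -/
theorem FN.unimod [Finite G] : ∀ (M : ℕ) (A : Set ((Fin n → N) × (N →ₗ[ℤ] ℤ))), FN e ψ A →
    (∀ r v, (r, v) ∈ A → (e.det r).natAbs ≤ M) →
    ∃ A' : Set ((Fin n → N) × (N →ₗ[ℤ] ℤ)), FN e ψ A' ∧
      ∀ r v, (r, v) ∈ A' → IsUnit (e.det r) := by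
  intro M
  induction M with
  | zero =>
    intro A h hM
    obtain ⟨r, v, hr, -⟩ := h.cpl 0
    have h1 := hM r v hr
    exact absurd (Int.natAbs_eq_zero.1 (Nat.le_zero.1 h1)) (h.nd r v hr)
  | succ M ih =>
    rcases Nat.eq_zero_or_pos M with hM0 | hM0
    · intro A h hM
      refine ⟨A, h, fun r v hr => ?_⟩
      rw [Int.isUnit_iff_natAbs_eq]
      have h1 := hM r v hr
      have h2 := Int.natAbs_ne_zero.2 (h.nd r v hr)
      omega
    · suffices H : ∀ (k : ℕ) (A : Set ((Fin n → N) × (N →ₗ[ℤ] ℤ))), FN e ψ A →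
          (∀ r v, (r, v) ∈ A → (e.det r).natAbs ≤ M + 1) →
          ({x | x ∈ A ∧ (e.det x.1).natAbs = M + 1} : Set _).ncard ≤ k →
          ∃ A' : Set ((Fin n → N) × (N →ₗ[ℤ] ℤ)), FN e ψ A' ∧
            ∀ r v, (r, v) ∈ A' → IsUnit (e.det r) by
        intro A h hM
        exact H _ A h hM le_rfl
      intro k
      induction k with
      | zero =>
        intro A h hM hk
        refine ih A h fun r v hr => ?_
        have h1 := hM r v hr
        have hfin : ({x | x ∈ A ∧ (e.det x.1).natAbs = M + 1} : Set _).Finite :=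
          h.fin.subset fun x hx => hx.1
        have h2 := (Set.ncard_eq_zero hfin).1 (Nat.le_zero.1 hk)
        by_contra hcon
        have h3 : (r, v) ∈ ({x | x ∈ A ∧ (e.det x.1).natAbs = M + 1} : Set _) :=
          ⟨hr, by dsimp only; omega⟩
        rw [h2] at h3
        exact h3
      | succ k ihk =>
        intro A h hM hk
        by_cases hex : ∃ r0 v0, (r0, v0) ∈ A ∧ (e.det r0).natAbs = M + 1
        · obtain ⟨r0, v0, hr0, hd0⟩ := hex
          have hnu : ¬ IsUnit (e.det r0) := by
            rw [Int.isUnit_iff_natAbs_eq]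
            omega
          obtain ⟨u, hu0, hu1, hu2⟩ := exists_frac (h.nd r0 v0 hr0) hnu
          have hco : ∀ r v, (r, v) ∈ A → ∀ g, cn e r (ψ g u) → ∀ i,
              Lr e r i (ψ g u) < qr e r := fun r v hr g hg i => h.co hr0 hu1 hu2 hr hg i
          have hnr : ∀ r v, (r, v) ∈ A → ∀ g j, ψ g u ≠ r j := by
            intro r v hr g j hj
            have h1 := hco r v hr g (by rw [hj]; exact cn_self e r j) j
            rw [hj, Lr_self] at h1
            exact lt_irrefl _ h1
          obtain ⟨D, K, hA'⟩ := h.star hu0 hnr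
          have hlt : ∀ r v, (r, v) ∈ A → ∀ g i, cn e r (ψ g u) → 0 < Lr e r i (ψ g u) →
              (e.det (Function.update r i (ψ g u))).natAbs < M + 1 := by
            intro r v hr g i hg hi
            have h1 := hco r v hr g hg i
            have h2 := hM r v hr
            rw [Lr_apply] at h1 hi
            rw [qr] at h1
            have h3 : |e.det r * e.det (Function.update r i (ψ g u))| <
                |e.det r * e.det r| := by
              rw [abs_of_pos hi, abs_of_pos (hi.trans h1)]
              exact h1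
            rw [abs_mul, abs_mul] at h3
            have h4 := lt_of_mul_lt_mul_left h3 (abs_nonneg _)
            rw [Int.abs_eq_natAbs, Int.abs_eq_natAbs] at h4
            omega
          refine ihk _ hA' ?_ ?_
          · rintro r1 w1 (⟨v, hr, -, -⟩ | ⟨r, v, g, i, hr, hg, hi, hx⟩)
            · exact hM r1 v hr
            · obtain ⟨rfl, rfl⟩ := Prod.mk.inj hx
              exact (hlt r v hr g i hg hi).le
          · have hfin : ({x | x ∈ A ∧ (e.det x.1).natAbs = M + 1} : Set _).Finite :=
              h.fin.subset fun x hx => hx.1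
            have hsub : ({x | x ∈ SA e ψ A u D K ∧ (e.det x.1).natAbs = M + 1} : Set _) ⊆
                (fun y : (Fin n → N) × (N →ₗ[ℤ] ℤ) => (y.1, K • y.2)) ''
                  (({x | x ∈ A ∧ (e.det x.1).natAbs = M + 1} : Set _) \ {(r0, v0)}) := by
              rintro y ⟨⟨v, hr, hw, hg⟩ | ⟨r, v, g, i, hr, hg, hi, hx⟩, hy⟩
              · refine ⟨(y.1, v), ⟨⟨hr, hy⟩, ?_⟩, Prod.ext rfl hw.symm⟩
                intro h1
                obtain ⟨h2, -⟩ := Prod.mk.inj (Set.mem_singleton_iff.1 h1)
                apply hg 1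
                rw [h2, map_one]
                exact hu1
              · exfalso
                rw [hx] at hy
                have := hlt r v hr g i hg hi
                dsimp only at hy
                omega
            have h1 : (r0, v0) ∈ ({x | x ∈ A ∧ (e.det x.1).natAbs = M + 1} : Set _) :=
              ⟨hr0, hd0⟩
            have h2 := Set.ncard_diff_singleton_add_one h1 hfin
            have h3 := Set.ncard_le_ncard hsub ((hfin.diff).image _)
            have h4 := Set.ncard_image_le
              (f := fun y : (Fin n → N) × (N →ₗ[ℤ] ℤ) => (y.1, K • y.2))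
              (s := (({x | x ∈ A ∧ (e.det x.1).natAbs = M + 1} : Set _) \ {(r0, v0)}))
              hfin.diff
            omega
        · refine ih A h fun r v hr => ?_
          have h1 := hM r v hr
          by_contra hcon
          exact hex ⟨r, v, hr, by omega⟩

/-- **Unimodular subdivisions.** -/
theorem FN.exists_unimod [Finite G] {A : Set ((Fin n → N) × (N →ₗ[ℤ] ℤ))} (h : FN e ψ A) :
    ∃ A' : Set ((Fin n → N) × (N →ₗ[ℤ] ℤ)), FN e ψ A' ∧
      ∀ r v, (r, v) ∈ A' → IsUnit (e.det r) := by
  obtain ⟨M, hM⟩ := (h.fin.image fun x => (e.det x.1).natAbs).bddAbove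
  exact FN.unimod M A h fun r v hr => hM ⟨(r, v), hr, rfl⟩

end Pool.Agent.Zk15
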