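import Pool.Agent.Zk15.Fa4

/-!
# The chains of faces of an arrangement
-/

set_option autoImplicit false
set_option linter.unusedSectionVars false

namespace Pool.Agent.Zk15

open Module

variable {N : Type} [AddCommGroup N] {n : ℕ} {G : Type} [Group G]

/-- The linear forms. -/
noncomputable def mu (e : Basis (Fin n) ℤ N) (ψ : G →* (N ≃ₗ[ℤ] N)) (p : G × Fin n) :
    N →ₗ[ℤ] ℤ := gm ψ p.1 (e.coord p.2)

/-- The sign vector. -/
noncomputable def sg (e : Basis (Fin n) ℤ N) (ψ : G →* (N ≃ₗ[ℤ] N)) (x : N) :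
    G × Fin n → SignType := fun p => SignType.sign (mu e ψ p x)

/-- The action on the sign vectors. -/
def ac (h : G) (τ : G × Fin n → SignType) : G × Fin n → SignType :=
  fun p => τ (h⁻¹ * p.1, p.2)

/-- The order of the sign vectors. -/
def lev (τ σ : G × Fin n → SignType) : Prop := ∀ p, τ p ≠ 0 → σ p = τ p

section

variable (e : Basis (Fin n) ℤ N) (ψ : G →* (N ≃ₗ[ℤ] N))

lemma mu_act (p : G × Fin n) (h : G) (x : N) :
    mu e ψ p (ψ h x) = mu e ψ (h⁻¹ * p.1, p.2) x := by
  unfold mu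
  rw [gm_apply, gm_apply, ← act_mul, mul_inv_rev, inv_inv]

lemma sg_act (h : G) (x : N) : sg e ψ (ψ h x) = ac h (sg e ψ x) := by
  funext p
  unfold sg ac
  rw [mu_act]

lemma sg_zero_iff (x : N) : sg e ψ x = 0 ↔ x = 0 := by
  constructor
  · intro h
    refine e.ext_elem fun i => ?_
    have h1 := congrFun h (1, i)
    have h2 : mu e ψ (1, i) x = 0 := sign_eq_zero_iff.1 h1
    unfold mu at h2
    rw [gm_apply, inv_one, map_one] at h2
    rw [map_zero]
    exact h2
  · rintro rfl
    funext p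
    unfold sg
    rw [map_zero, sign_zero]
    rfl

lemma ac_one (τ : G × Fin n → SignType) : ac 1 τ = τ := by
  funext p
  unfold ac
  rw [inv_one, one_mul]

lemma ac_mul (g h : G) (τ : G × Fin n → SignType) : ac (g * h) τ = ac g (ac h τ) := by
  funext p
  unfold ac
  rw [mul_inv_rev, mul_assoc]

lemma sg_ne {x : N} {p : G × Fin n} (h : sg e ψ x p ≠ 0) : mu e ψ p x ≠ 0 := fun h1 => h (by
  unfold sg
  rw [h1, sign_zero])

lemma sg_eq0 {x : N} {p : G × Fin n} (h : sg e ψ x p = 0) : mu e ψ p x = 0 :=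
  sign_eq_zero_iff.1 h

/-- The absolute value. -/
lemma sg_abs (x : N) (p : G × Fin n) : ((sg e ψ x p : SignType) : ℤ) * mu e ψ p x = |mu e ψ p x| :=
  sign_mul_self _

end

section

variable [Fintype G]

/-- The number of the nonzero entries. -/
def nz (τ : G × Fin n → SignType) : ℕ := (Finset.univ.filter fun p => τ p ≠ 0).card

lemma nz_ac [DecidableEq G] (h : G) (τ : G × Fin n → SignType) : nz (ac h τ) = nz τ := by
  unfold nz ac
  refine Finset.card_bij (fun p _ => (h⁻¹ * p.1, p.2)) ?_ ?_ ?_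
  · intro p hp
    exact Finset.mem_filter.2 ⟨Finset.mem_univ _, (Finset.mem_filter.1 hp).2⟩
  · intro p _ p' _ h1
    obtain ⟨h2, h3⟩ := Prod.mk.inj h1
    exact Prod.ext (mul_left_cancel h2) h3
  · intro p hp
    refine ⟨(h * p.1, p.2), Finset.mem_filter.2 ⟨Finset.mem_univ _, ?_⟩, ?_⟩
    · dsimp only
      rw [inv_mul_cancel_left]
      exact (Finset.mem_filter.1 hp).2
    · dsimp only
      rw [inv_mul_cancel_left]

lemma nz_le {τ σ : G × Fin n → SignType} (h : lev τ σ) : nz τ ≤ nz σ := by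
  refine Finset.card_le_card fun p hp => ?_
  have h1 := (Finset.mem_filter.1 hp).2
  exact Finset.mem_filter.2 ⟨Finset.mem_univ _, by rw [h p h1]; exact h1⟩

lemma eq_of_nz {τ σ : G × Fin n → SignType} (h : lev τ σ) (h' : nz σ ≤ nz τ) : τ = σ := by
  have h1 : (Finset.univ.filter fun p => τ p ≠ 0) = Finset.univ.filter fun p => σ p ≠ 0 := by
    refine Finset.eq_of_subset_of_card_le (fun p hp => ?_) h'
    have h1 := (Finset.mem_filter.1 hp).2
    exact Finset.mem_filter.2 ⟨Finset.mem_univ _, by rw [h p h1]; exact h1⟩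
  funext p
  by_cases hp : τ p = 0
  · rw [hp]
    by_contra h2
    have h3 : p ∈ Finset.univ.filter fun p => σ p ≠ 0 :=
      Finset.mem_filter.2 ⟨Finset.mem_univ _, fun h4 => h2 h4.symm⟩
    rw [← h1] at h3
    exact (Finset.mem_filter.1 h3).2 hp
  · exact (h p hp).symm

/-- **The points in the faces.** -/
theorem exists_b [DecidableEq G] (e : Basis (Fin n) ℤ N) (ψ : G →* (N ≃ₗ[ℤ] N)) :
    ∃ b : (G × Fin n → SignType) → N, (∀ x, sg e ψ (b (sg e ψ x)) = sg e ψ x) ∧
      ∀ h τ, b (ac h τ) = ψ h (b τ) := by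
  classical
  have hch : ∀ τ : G × Fin n → SignType, ∃ y, (∃ x, sg e ψ x = τ) → sg e ψ y = τ := by
    intro τ
    by_cases h : ∃ x, sg e ψ x = τ
    · obtain ⟨x, hx⟩ := h
      exact ⟨x, fun _ => hx⟩
    · exact ⟨0, fun h' => absurd h' h⟩
  choose y hy using hch
  refine ⟨fun τ => ∑ g, ψ g (y (ac g⁻¹ τ)), fun x => ?_, fun h τ => ?_⟩
  · have h1 : ∀ g, sg e ψ (ψ g (y (ac g⁻¹ (sg e ψ x)))) = sg e ψ x := by
      intro g
      rw [sg_act, hy _ ⟨ψ g⁻¹ x, sg_act e ψ g⁻¹ x⟩, ← ac_mul, mul_inv_cancel, ac_one]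
    funext p
    have h2 : ∀ g, SignType.sign (mu e ψ p (ψ g (y (ac g⁻¹ (sg e ψ x))))) =
        SignType.sign (mu e ψ p x) := fun g => congrFun (h1 g) p
    change SignType.sign (mu e ψ p (∑ g, ψ g (y (ac g⁻¹ (sg e ψ x))))) =
      SignType.sign (mu e ψ p x)
    rw [map_sum]
    rcases lt_trichotomy (mu e ψ p x) 0 with h3 | h3 | h3
    · rw [sign_neg h3, sign_eq_neg_one_iff]
      refine Finset.sum_neg (fun g _ => ?_) ⟨1, Finset.mem_univ _⟩
      have h4 := h2 g
      rw [sign_neg h3] at h4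
      exact sign_eq_neg_one_iff.1 h4
    · rw [h3, sign_zero, sign_eq_zero_iff]
      refine Finset.sum_eq_zero fun g _ => ?_
      have h4 := h2 g
      rw [h3, sign_zero] at h4
      exact sign_eq_zero_iff.1 h4
    · rw [sign_pos h3, sign_eq_one_iff]
      refine Finset.sum_pos (fun g _ => ?_) ⟨1, Finset.mem_univ _⟩
      have h4 := h2 g
      rw [sign_pos h3] at h4
      exact sign_eq_one_iff.1 h4
  · dsimp only
    rw [map_sum, ← Equiv.sum_comp (Equiv.mulLeft h)]
    refine Finset.sum_congr rfl fun g _ => ?_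
    rw [Equiv.coe_mulLeft, act_mul, mul_inv_rev, ac_mul, ← ac_mul h⁻¹ h, inv_mul_cancel, ac_one]

/-- A chain of faces. -/
structure Ch (e : Basis (Fin n) ℤ N) (ψ : G →* (N ≃ₗ[ℤ] N)) {ι : Type}
    (τ : ι → G × Fin n → SignType) : Prop where
  rs : ∀ i, ∃ x, sg e ψ x = τ i
  ne : ∀ i, τ i ≠ 0
  cmp : ∀ i j, lev (τ i) (τ j) ∨ lev (τ j) (τ i)
  inj : Function.Injective τ

variable {e : Basis (Fin n) ℤ N} {ψ : G →* (N ≃ₗ[ℤ] N)} {ι : Type}
  {τ : ι → G × Fin n → SignType}

lemma Ch.lev (h : Ch e ψ τ) {i j : ι} (hij : nz (τ i) ≤ nz (τ j)) : lev (τ i) (τ j) := by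
  rcases h.cmp i j with h1 | h1
  · exact h1
  · rw [eq_of_nz h1 hij]
    exact fun p _ => rfl

lemma Ch.lt (h : Ch e ψ τ) {i j : ι} (hij : nz (τ i) ≤ nz (τ j)) (hne : i ≠ j) :
    nz (τ i) < nz (τ j) := by
  refine lt_of_le_of_ne hij fun h1 => hne (h.inj (eq_of_nz (h.lev hij) h1.ge))

lemma exists_ne0 {τ σ : G × Fin n → SignType} (h : lev τ σ) (hne : τ ≠ σ) :
    ∃ p, σ p ≠ 0 ∧ τ p = 0 := by
  by_contra hcon
  push Not at hcon
  apply hne
  funext p
  by_cases hp : σ p = 0
  · rw [hp]
    by_contra h1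
    exact h1 ((h p h1).symm.trans hp)
  · exact (h p (hcon p hp)).symm

lemma Ch.sep [DecidableEq ι] (h : Ch e ψ τ) (S : Finset ι) (i1 : ι)
    (hmax : ∀ i ∈ S, nz (τ i) ≤ nz (τ i1)) :
    ∃ p, τ i1 p ≠ 0 ∧ ∀ i ∈ S, i ≠ i1 → τ i p = 0 := by
  classical
  rcases (S.erase i1).eq_empty_or_nonempty with hS | hS
  · obtain ⟨p, hp⟩ : ∃ p, τ i1 p ≠ 0 := by
      by_contra hcon
      push Not at hcon
      exact h.ne i1 (funext hcon)
    refine ⟨p, hp, fun i hi hne => ?_⟩
    have h1 : i ∈ S.erase i1 := Finset.mem_erase.2 ⟨hne, hi⟩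
    rw [hS] at h1
    exact absurd h1 (Finset.notMem_empty _)
  · obtain ⟨i0, hi0, h0⟩ := Finset.exists_max_image _ (fun i => nz (τ i)) hS
    obtain ⟨hne, hi0'⟩ := Finset.mem_erase.1 hi0
    obtain ⟨p, hp, hp0⟩ := exists_ne0 (h.lev (hmax i0 hi0')) (fun h1 => hne (h.inj h1))
    refine ⟨p, hp, fun i hi hne' => ?_⟩
    by_contra h1
    have h2 := h.lev (h0 i (Finset.mem_erase.2 ⟨hne', hi⟩)) p h1
    exact h1 (h2.symm.trans hp0)

variable {b : (G × Fin n → SignType) → N}

lemma Ch.sgb (h : Ch e ψ τ) (hb : ∀ x, sg e ψ (b (sg e ψ x)) = sg e ψ x) (i : ι) :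
    sg e ψ (b (τ i)) = τ i := by
  obtain ⟨x, hx⟩ := h.rs i
  rw [← hx]
  exact hb x

/-- The points in the faces of a chain are linearly independent. -/
lemma Ch.li [Fintype ι] (h : Ch e ψ τ) (hb : ∀ x, sg e ψ (b (sg e ψ x)) = sg e ψ x)
    (c : ι → ℤ) (hc : ∑ i, c i • b (τ i) = 0) : c = 0 := by
  classical
  by_contra hcon
  have hS : (Finset.univ.filter fun i => c i ≠ 0).Nonempty := by
    by_contra h1
    rw [Finset.not_nonempty_iff_eq_empty] at h1
    apply hcon
    funext i
    by_contra h2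
    have h3 : i ∈ Finset.univ.filter fun i => c i ≠ 0 :=
      Finset.mem_filter.2 ⟨Finset.mem_univ _, h2⟩
    rw [h1] at h3
    exact absurd h3 (Finset.notMem_empty _)
  obtain ⟨i1, hi1, hmax⟩ := Finset.exists_max_image _ (fun i => nz (τ i)) hS
  obtain ⟨p, hp, hp0⟩ := h.sep _ i1 hmax
  have h1 := congrArg (mu e ψ p) hc
  rw [map_sum, map_zero, Finset.sum_eq_single i1] at h1
  · rw [map_smul, smul_eq_mul] at h1
    rcases mul_eq_zero.1 h1 with h2 | h2
    · exact (Finset.mem_filter.1 hi1).2 h2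
    · refine sg_ne e ψ (x := b (τ i1)) (p := p) ?_ h2
      rw [h.sgb hb]
      exact hp
  · intro i _ hne
    rw [map_smul]
    by_cases h2 : c i = 0
    · rw [h2, zero_smul]
    · have h3 := hp0 i (Finset.mem_filter.2 ⟨Finset.mem_univ _, h2⟩) hne
      rw [← h.sgb hb] at h3
      rw [sg_eq0 e ψ h3, smul_zero]
  · intro h2
    exact absurd (Finset.mem_univ _) h2

lemma Ch.det_ne {τ : Fin n → G × Fin n → SignType} (h : Ch e ψ τ)
    (hb : ∀ x, sg e ψ (b (sg e ψ x)) = sg e ψ x) : e.det (fun i => b (τ i)) ≠ 0 := by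
  intro h0
  rw [e.det_apply] at h0
  obtain ⟨c, hc, hc0⟩ := Matrix.exists_mulVec_eq_zero_iff.2 h0
  apply hc
  refine h.li hb c ?_
  refine e.ext_elem fun k => ?_
  have h1 := congrFun hc0 k
  rw [Matrix.mulVec, dotProduct] at h1
  rw [map_sum, Finsupp.finsetSum_apply, map_zero]
  rw [Pi.zero_apply] at h1
  rw [Finsupp.zero_apply, ← h1]
  refine Finset.sum_congr rfl fun i _ => ?_
  rw [map_smul, Finsupp.smul_apply, smul_eq_mul, Basis.toMatrix_apply, mul_comm]

/-- **Every element is in the cone of a chain.** -/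
theorem exists_chain (hb : ∀ x, sg e ψ (b (sg e ψ x)) = sg e ψ x) : ∀ (k : ℕ) (x : N),
    nz (sg e ψ x) ≤ k → ∃ C : Finset (G × Fin n → SignType),
      (∀ τ ∈ C, (∃ y, sg e ψ y = τ) ∧ τ ≠ 0 ∧ lev τ (sg e ψ x)) ∧
      (∀ τ ∈ C, ∀ τ' ∈ C, lev τ τ' ∨ lev τ' τ) ∧
      ∃ a : ℤ, 0 < a ∧ ∃ c : (G × Fin n → SignType) → ℤ, (∀ τ, 0 ≤ c τ) ∧
        a • x = ∑ τ ∈ C, c τ • b τ := by
  classical
  intro k
  induction k with
  | zero =>
    intro x hx
    have h1 : sg e ψ x = 0 := by
      funext p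
      by_contra h1
      have h2 : p ∈ Finset.univ.filter fun p => sg e ψ x p ≠ 0 :=
        Finset.mem_filter.2 ⟨Finset.mem_univ _, h1⟩
      rw [nz, Nat.le_zero, Finset.card_eq_zero] at hx
      rw [hx] at h2
      exact absurd h2 (Finset.notMem_empty _)
    rw [sg_zero_iff] at h1
    subst h1
    refine ⟨∅, fun τ h => absurd h (Finset.notMem_empty _),
      fun τ h => absurd h (Finset.notMem_empty _), 1, one_pos, fun _ => 0, fun _ => le_rfl, ?_⟩
    rw [smul_zero, Finset.sum_empty]
  | succ k ih =>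
    intro x hx
    by_cases hx0 : sg e ψ x = 0
    · refine ih x ?_
      have h1 : nz (sg e ψ x) = 0 := by
        rw [nz, Finset.card_eq_zero, Finset.filter_eq_empty_iff]
        intro p _ h2
        exact h2 (congrFun hx0 p)
      omega
    · set β := b (sg e ψ x) with hβ
      have hsβ : sg e ψ β = sg e ψ x := hb x
      have hne : (Finset.univ.filter fun p => sg e ψ x p ≠ 0).Nonempty := by
        by_contra h1
        rw [Finset.not_nonempty_iff_eq_empty, Finset.filter_eq_empty_iff] at h1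
        apply hx0
        funext p
        by_contra h2
        exact h1 (Finset.mem_univ p) h2
      obtain ⟨p, hp, hmin⟩ := Finset.exists_min_image _
        (fun p => (|mu e ψ p x| : ℚ) / (|mu e ψ p β| : ℚ)) hne
      have hp0 := (Finset.mem_filter.1 hp).2
      have hβp : ∀ p, sg e ψ x p ≠ 0 → 0 < |mu e ψ p β| := by
        intro p hp
        rw [abs_pos]
        refine sg_ne e ψ ?_
        rw [hsβ]
        exact hp
      have hmin' : ∀ p', |mu e ψ p x| * |mu e ψ p' β| ≤ |mu e ψ p β| * |mu e ψ p' x| := by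
        intro p'
        by_cases hp' : sg e ψ x p' = 0
        · have h1 : mu e ψ p' β = 0 := by
            refine sg_eq0 e ψ ?_
            rw [hsβ]
            exact hp'
          rw [h1, abs_zero, mul_zero]
          positivity
        · have h2 := hmin p' (Finset.mem_filter.2 ⟨Finset.mem_univ _, hp'⟩)
          rw [div_le_div_iff₀ (by exact_mod_cast hβp p hp0) (by exact_mod_cast hβp p' hp')] at h2
          have h3 : |mu e ψ p x| * |mu e ψ p' β| ≤ |mu e ψ p' x| * |mu e ψ p β| := by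
            exact_mod_cast h2
          rw [mul_comm |mu e ψ p β|]
          exact h3
      set x' := |mu e ψ p β| • x - |mu e ψ p x| • β with hx'
      have hμ : ∀ p', mu e ψ p' x' = |mu e ψ p β| * mu e ψ p' x - |mu e ψ p x| * mu e ψ p' β := by
        intro p'
        rw [hx', map_sub, map_smul, map_smul, smul_eq_mul, smul_eq_mul]
      have hlev : lev (sg e ψ x') (sg e ψ x) := by
        intro p' hp'
        have h1 := sg_ne e ψ hp'
        rw [hμ] at h1
        have h2 := hmin' p'
        have h3 : SignType.sign (mu e ψ p' β) = SignType.sign (mu e ψ p' x) := congrFun hsβ p'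
        change SignType.sign (mu e ψ p' x) = SignType.sign (mu e ψ p' x')
        rw [hμ]
        rcases lt_trichotomy (mu e ψ p' x) 0 with h4 | h4 | h4
        · have h5 : mu e ψ p' β < 0 := by
            rw [sign_neg h4] at h3
            exact sign_eq_neg_one_iff.1 h3
          rw [abs_of_neg h4, abs_of_neg h5] at h2
          rw [sign_neg h4, sign_neg]
          refine lt_of_le_of_ne (by linarith) h1
        · exfalso
          have h5 : mu e ψ p' β = 0 := by
            rw [h4, sign_zero] at h3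
            exact sign_eq_zero_iff.1 h3
          apply h1
          rw [h4, h5, mul_zero, mul_zero, sub_zero]
        · have h5 : 0 < mu e ψ p' β := by
            rw [sign_pos h4] at h3
            exact sign_eq_one_iff.1 h3
          rw [abs_of_pos h4, abs_of_pos h5] at h2
          rw [sign_pos h4, sign_pos]
          refine lt_of_le_of_ne (by linarith) h1.symm
      have hxp : sg e ψ x' p = 0 := by
        change SignType.sign (mu e ψ p x') = 0
        rw [sign_eq_zero_iff, hμ]
        have h3 : SignType.sign (mu e ψ p β) = SignType.sign (mu e ψ p x) := congrFun hsβ p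
        rcases lt_trichotomy (mu e ψ p x) 0 with h4 | h4 | h4
        · have h5 : mu e ψ p β < 0 := by
            rw [sign_neg h4] at h3
            exact sign_eq_neg_one_iff.1 h3
          rw [abs_of_neg h4, abs_of_neg h5]
          ring
        · rw [h4, abs_zero]
          ring
        · have h5 : 0 < mu e ψ p β := by
            rw [sign_pos h4] at h3
            exact sign_eq_one_iff.1 h3
          rw [abs_of_pos h4, abs_of_pos h5]
          ring
      have hlt : nz (sg e ψ x') ≤ k := by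
        have h1 : nz (sg e ψ x') ≤ nz (sg e ψ x) := nz_le hlev
        have h2 : nz (sg e ψ x') ≠ nz (sg e ψ x) := by
          intro h2
          have h3 := eq_of_nz hlev h2.ge
          rw [← h3] at hp0
          exact hp0 hxp
        omega
      obtain ⟨C, hC1, hC2, a, ha, c, hc, hac⟩ := ih x' hlt
      have hnotin : sg e ψ x ∉ C := by
        intro h1
        obtain ⟨-, -, h2⟩ := hC1 _ h1
        exact hp0 ((h2 p hp0).symm.trans hxp)
      have htr : ∀ τ ∈ C, lev τ (sg e ψ x) := by
        intro τ hτ p' hp'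
        have h1 := (hC1 τ hτ).2.2 p' hp'
        rw [← h1]
        exact hlev p' (by rw [h1]; exact hp')
      refine ⟨insert (sg e ψ x) C, ?_, ?_, a * |mu e ψ p β|, mul_pos ha (hβp p hp0),
        Function.update c (sg e ψ x) (a * |mu e ψ p x|), ?_, ?_⟩
      · intro τ hτ
        rcases Finset.mem_insert.1 hτ with rfl | hτ
        · exact ⟨⟨x, rfl⟩, hx0, fun p _ => rfl⟩
        · exact ⟨(hC1 τ hτ).1, (hC1 τ hτ).2.1, htr τ hτ⟩
      · intro τ hτ τ' hτ'
        rcases Finset.mem_insert.1 hτ with rfl | hτ <;>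
          rcases Finset.mem_insert.1 hτ' with rfl | hτ'
        · exact Or.inl fun p _ => rfl
        · exact Or.inr (htr τ' hτ')
        · exact Or.inl (htr τ hτ)
        · exact hC2 τ hτ τ' hτ'
      · intro τ
        by_cases h1 : τ = sg e ψ x
        · subst h1
          rw [Function.update_self]
          positivity
        · rw [Function.update_of_ne h1]
          exact hc τ
      · rw [Finset.sum_insert hnotin, Function.update_self]
        have h1 : ∑ τ ∈ C, Function.update c (sg e ψ x) (a * |mu e ψ p x|) τ • b τ =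
            ∑ τ ∈ C, c τ • b τ := by
          refine Finset.sum_congr rfl fun τ hτ => ?_
          rw [Function.update_of_ne]
          rintro rfl
          exact hnotin hτ
        rw [h1, ← hac, hx', smul_sub, smul_smul, smul_smul, add_sub_cancel]

end

end Pool.Agent.Zk15
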