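import Pool.Agent.Zk15.Fa5

/-!
# The fan of the chains of faces of an arrangement
-/

set_option autoImplicit false
set_option linter.unusedSectionVars false

namespace Pool.Agent.Zk15

open Module

variable {N : Type} [AddCommGroup N] {n : ℕ} {G : Type} [Group G] [Fintype G]

/-- Elements which are not in finitely many hyperplanes. -/
lemma exists_generic (S : Finset (N →ₗ[ℤ] ℤ)) (h0 : ∀ l ∈ S, l ≠ 0) :
    ∃ y, ∀ l ∈ S, l y ≠ 0 := by
  classical
  induction S using Finset.induction_on with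
  | empty => exact ⟨0, fun l hl => absurd hl (Finset.notMem_empty _)⟩
  | insert l0 S hl0 ih =>
    obtain ⟨y, hy⟩ := ih fun l hl => h0 l (Finset.mem_insert_of_mem hl)
    by_cases h1 : l0 y = 0
    · obtain ⟨z, hz⟩ : ∃ z, l0 z ≠ 0 := by
        by_contra hcon
        push Not at hcon
        exact h0 l0 (Finset.mem_insert_self _ _) (LinearMap.ext hcon)
      set B : ℤ := ∑ l ∈ S, |l z| with hB
      have hB0 : 0 ≤ B := Finset.sum_nonneg fun _ _ => abs_nonneg _
      refine ⟨(B + 1) • y + z, fun l hl => ?_⟩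
      rw [map_add, map_smul, smul_eq_mul]
      rcases Finset.mem_insert.1 hl with rfl | hl
      · rw [h1, mul_zero, zero_add]
        exact hz
      · intro h2
        have h3 : |l z| ≤ B :=
          Finset.single_le_sum (f := fun l : N →ₗ[ℤ] ℤ => |l z|) (fun _ _ => abs_nonneg _) hl
        have h4 : |(B + 1) * l y| = |l z| := by
          rw [← abs_neg (l z)]
          congr 1
          linarith
        rw [abs_mul, abs_of_pos (by linarith)] at h4
        have h5 : 1 ≤ |l y| := Int.one_le_abs (hy l hl)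
        nlinarith
    · refine ⟨y, fun l hl => ?_⟩
      rcases Finset.mem_insert.1 hl with rfl | hl
      · exact h1
      · exact hy l hl

variable {e : Basis (Fin n) ℤ N} {ψ : G →* (N ≃ₗ[ℤ] N)}
  {b : (G × Fin n → SignType) → N}

lemma exists_form (e : Basis (Fin n) ℤ N) (b : (G × Fin n → SignType) → N)
    (C : Finset (G × Fin n → SignType)) (hC : C.card < n) :
    ∃ l : N →ₗ[ℤ] ℤ, l ≠ 0 ∧ ∀ τ ∈ C, l (b τ) = 0 := by
  classical
  by_contra hcon
  push Not at hcon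
  have hfin : Module.Finite ℤ N := Module.Finite.of_basis e
  set Φ : (N →ₗ[ℤ] ℤ) →ₗ[ℤ] (C → ℤ) := LinearMap.pi fun τ : C => LinearMap.applyₗ (b τ)
    with hΦ
  have hΦa : ∀ l (τ : C), Φ l τ = l (b τ) := fun _ _ => rfl
  have hinj : Function.Injective Φ := by
    rw [injective_iff_map_eq_zero]
    intro l hl
    by_contra hl0
    obtain ⟨τ, hτ, h1⟩ := hcon l hl0
    apply h1
    rw [← hΦa l ⟨τ, hτ⟩, hl]
    rfl
  have h1 := LinearMap.finrank_le_finrank_of_injective hinj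
  rw [Module.finrank_eq_card_basis e.dualBasis, Module.finrank_fintype_fun_eq_card,
    Fintype.card_fin, Fintype.card_coe] at h1
  omega

/-- **Completeness.** -/
theorem cpl_chain (hb : ∀ x, sg e ψ (b (sg e ψ x)) = sg e ψ x) (x : N) :
    ∃ τ : Fin n → G × Fin n → SignType, Ch e ψ τ ∧ cn e (fun i => b (τ i)) x := by
  classical
  have hfin : Module.Finite ℤ N := Module.Finite.of_basis e
  have hl : ∀ C : Finset (G × Fin n → SignType), ∃ l : N →ₗ[ℤ] ℤ, C.card < n →
      l ≠ 0 ∧ ∀ τ ∈ C, l (b τ) = 0 := by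
    intro C
    by_cases hC : C.card < n
    · obtain ⟨l, h1, h2⟩ := exists_form e b C hC
      exact ⟨l, fun _ => ⟨h1, h2⟩⟩
    · exact ⟨0, fun h => absurd h hC⟩
  choose l hl using hl
  obtain ⟨y, hy⟩ := exists_generic
    ((Finset.univ.filter fun C : Finset (G × Fin n → SignType) => C.card < n).image l) (by
      intro l' hl'
      obtain ⟨C, hC, rfl⟩ := Finset.mem_image.1 hl'
      exact (hl C (Finset.mem_filter.1 hC).2).1)
  have hy' : ∀ C : Finset (G × Fin n → SignType), C.card < n → l C y ≠ 0 := fun C hC =>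
    hy _ (Finset.mem_image.2 ⟨C, Finset.mem_filter.2 ⟨Finset.mem_univ _, hC⟩, rfl⟩)
  obtain ⟨K1, hK1⟩ := exists_abs_le
    (Set.finite_range fun C : Finset (G × Fin n → SignType) => l C y)
  obtain ⟨K2, hK2⟩ := exists_abs_le
    (Set.finite_range fun q : (Fin n → G × Fin n → SignType) × Fin n =>
      Lr e (fun i => b (q.1 i)) q.2 y)
  set K : ℤ := |K1| + |K2| + 1 with hK
  have hK1' : ∀ C, |l C y| < K := by
    intro C
    have h1 := hK1 _ ⟨C, rfl⟩
    have h2 := le_abs_self K1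
    have h3 := abs_nonneg K2
    dsimp only at h1
    omega
  have hK2' : ∀ (τ : Fin n → G × Fin n → SignType) (i : Fin n),
      |Lr e (fun i => b (τ i)) i y| < K := by
    intro τ i
    have h1 := hK2 _ ⟨(τ, i), rfl⟩
    have h2 := le_abs_self K2
    have h3 := abs_nonneg K1
    dsimp only at h1
    omega
  have hK0 : 0 < K := by
    have h2 := abs_nonneg K2
    have h3 := abs_nonneg K1
    omega
  obtain ⟨C, hC1, hC2, a, ha, c, hc, hac⟩ := exists_chain hb _ (K • x + y) le_rfl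
  have hCh : Ch e ψ (fun τ : C => (τ : G × Fin n → SignType)) :=
    ⟨fun τ => (hC1 τ τ.2).1, fun τ => (hC1 τ τ.2).2.1, fun τ τ' => hC2 τ τ.2 τ' τ'.2,
      Subtype.val_injective⟩
  have hle : C.card ≤ n := by
    have h1 : LinearIndependent ℤ (fun τ : C => b τ) := by
      rw [Fintype.linearIndependent_iff]
      intro c hc i
      exact congrFun (hCh.li hb c hc) i
    have h2 := h1.fintype_card_le_finrank
    rw [Module.finrank_eq_card_basis e, Fintype.card_fin, Fintype.card_coe] at h2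
    exact h2
  have hge : ¬ C.card < n := by
    intro hlt
    obtain ⟨-, h2⟩ := hl C hlt
    have h3 : a * l C (K • x + y) = 0 := by
      rw [← smul_eq_mul, ← map_smul, hac, map_sum]
      refine Finset.sum_eq_zero fun τ hτ => ?_
      rw [map_smul, h2 τ hτ, smul_zero]
    have h4 := (mul_eq_zero.1 h3).resolve_left ha.ne'
    rw [map_add, map_smul, smul_eq_mul] at h4
    have h5 : l C x ≠ 0 := by
      intro h5
      rw [h5, mul_zero, zero_add] at h4
      exact hy' C hlt h4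
    have h6 : |K * l C x| = |l C y| := by
      rw [← abs_neg (l C y)]
      congr 1
      linarith
    rw [abs_mul, abs_of_pos hK0] at h6
    have h7 : 1 ≤ |l C x| := Int.one_le_abs h5
    have h8 := hK1' C
    nlinarith
  have hcard : C.card = n := le_antisymm hle (not_lt.1 hge)
  set E := C.equivFinOfCardEq hcard with hE
  set τ : Fin n → G × Fin n → SignType := fun i => (E.symm i : G × Fin n → SignType) with hτ
  have hCτ : Ch e ψ τ := ⟨fun i => hCh.rs _, fun i => hCh.ne _, fun i j => hCh.cmp _ _,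
    hCh.inj.comp E.symm.injective⟩
  refine ⟨τ, hCτ, fun i => ?_⟩
  have hsum : a • (K • x + y) = ∑ i, c (τ i) • b (τ i) := by
    rw [hac, ← Finset.sum_coe_sort C, ← Equiv.sum_comp E.symm]
  have h1 : a * Lr e (fun i => b (τ i)) i (K • x + y) = c (τ i) * qr e (fun i => b (τ i)) := by
    rw [← smul_eq_mul, ← map_smul, hsum, map_sum, Finset.sum_eq_single i]
    · rw [map_smul, smul_eq_mul]
      congr 1
      exact Lr_self e (fun i => b (τ i)) i
    · intro j _ hj
      rw [map_smul]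
      have h2 := Lr_ne e (fun i => b (τ i)) hj
      rw [h2, smul_zero]
    · intro h2
      exact absurd (Finset.mem_univ i) h2
  have hq := qr_pos (hCτ.det_ne hb)
  have h2 : 0 ≤ a * Lr e (fun i => b (τ i)) i (K • x + y) := by
    rw [h1]
    exact mul_nonneg (hc _) hq.le
  have h3 := nonneg_of_mul_nonneg_right h2 ha
  rw [map_add, map_smul, smul_eq_mul] at h3
  by_contra h4
  push Not at h4
  have h5 : K * Lr e (fun i => b (τ i)) i x ≤ K * (-1) :=
    mul_le_mul_of_nonneg_left (by linarith) hK0.le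
  have h6 := (abs_lt.1 (hK2' τ i)).2
  linarith

/-- The concave function. -/
noncomputable def f0 (e : Basis (Fin n) ℤ N) (ψ : G →* (N ≃ₗ[ℤ] N)) (x : N) : ℤ :=
  -∑ p, |mu e ψ p x|

lemma f0_act (g : G) (x : N) : f0 e ψ (ψ g x) = f0 e ψ x := by
  classical
  unfold f0
  congr 1
  have h1 : ∀ p : G × Fin n, |mu e ψ p (ψ g x)| =
      (fun p => |mu e ψ p x|) (((Equiv.mulLeft g⁻¹).prodCongr (Equiv.refl (Fin n))) p) := by
    intro p
    rw [mu_act]
    rfl
  rw [Finset.sum_congr rfl fun p _ => h1 p]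
  exact Equiv.sum_comp ((Equiv.mulLeft g⁻¹).prodCongr (Equiv.refl (Fin n)))
    (fun p => |mu e ψ p x|)

/-- The values of the convex function. -/
noncomputable def h0 (e : Basis (Fin n) ℤ N) (ψ : G →* (N ≃ₗ[ℤ] N))
    (b : (G × Fin n → SignType) → N) (K E : ℤ) (τ : G × Fin n → SignType) : ℤ :=
  K * f0 e ψ (b τ) + E ^ nz τ

/-- The multiple of the linear function. -/
noncomputable def uu (e : Basis (Fin n) ℤ N) (ψ : G →* (N ≃ₗ[ℤ] N))
    (b : (G × Fin n → SignType) → N) (K E : ℤ) (τ : Fin n → G × Fin n → SignType) :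
    N →ₗ[ℤ] ℤ := ∑ i, h0 e ψ b K E (τ i) • Lr e (fun i => b (τ i)) i

lemma uu_apply (K E : ℤ) (τ : Fin n → G × Fin n → SignType) (x : N) :
    uu e ψ b K E τ x = ∑ i, h0 e ψ b K E (τ i) * Lr e (fun i => b (τ i)) i x := by
  rw [uu, LinearMap.sum_apply]
  rfl

lemma uu_self (K E : ℤ) (τ : Fin n → G × Fin n → SignType) (j : Fin n) :
    uu e ψ b K E τ (b (τ j)) = qr e (fun i => b (τ i)) * h0 e ψ b K E (τ j) := by
  rw [uu_apply, Finset.sum_eq_single j]
  · have h1 := Lr_self e (fun i => b (τ i)) j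
    rw [h1, mul_comm]
  · intro i _ hi
    have h1 := Lr_ne e (fun i => b (τ i)) (i := i) (j := j) hi.symm
    rw [h1, mul_zero]
  · intro h
    exact absurd (Finset.mem_univ j) h

/-- The comparison of the second summands. -/
lemma second {τ : Fin n → G × Fin n → SignType} (hτ : Ch e ψ τ)
    (hb : ∀ x, sg e ψ (b (sg e ψ x)) = sg e ψ x) {σ ρ : G × Fin n → SignType}
    (hρ : ∃ x, sg e ψ x = ρ) (hρ0 : ρ ≠ 0) (hρτ : ∀ i, τ i ≠ ρ)
    (hσ : ∀ i, lev (τ i) σ) (hρσ : lev ρ σ) (E : ℤ)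
    (hE : ∑ i, |Lr e (fun i => b (τ i)) i (b ρ)| + qr e (fun i => b (τ i)) < E) :
    qr e (fun i => b (τ i)) * E ^ nz ρ <
      ∑ i, E ^ nz (τ i) * Lr e (fun i => b (τ i)) i (b ρ) := by
  classical
  set q := qr e (fun i => b (τ i)) with hq
  set L : Fin n → ℤ := fun i => Lr e (fun i => b (τ i)) i (b ρ) with hL
  have hq0 : 0 < q := qr_pos (hτ.det_ne hb)
  have hsρ : sg e ψ (b ρ) = ρ := by
    obtain ⟨x, hx⟩ := hρ
    rw [← hx]
    exact hb x
  have hS : (Finset.univ.filter fun i => L i ≠ 0).Nonempty := by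
    by_contra h1
    rw [Finset.not_nonempty_iff_eq_empty, Finset.filter_eq_empty_iff] at h1
    apply hρ0
    rw [← hsρ, sg_zero_iff]
    refine ext_cn (hτ.det_ne hb) ?_
    rw [smul_zero]
    refine Finset.sum_eq_zero fun i _ => ?_
    have h2 : L i = 0 := by
      by_contra h3
      exact h1 (Finset.mem_univ i) h3
    have h3 : Lr e (fun i => b (τ i)) i (b ρ) = 0 := h2
    rw [h3, zero_smul]
  obtain ⟨i1, hi1, hmax⟩ := Finset.exists_max_image _ (fun i => nz (τ i)) hS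
  have hi1' : L i1 ≠ 0 := (Finset.mem_filter.1 hi1).2
  obtain ⟨p, hp, hp0⟩ := hτ.sep _ i1 hmax
  have hv : ∀ p, q * mu e ψ p (b ρ) = ∑ i, L i * mu e ψ p (b (τ i)) := fun p =>
    val e (fun i => b (τ i)) (mu e ψ p) (b ρ)
  have hvp : q * mu e ψ p (b ρ) = L i1 * mu e ψ p (b (τ i1)) := by
    rw [hv, Finset.sum_eq_single i1]
    · intro i _ hne
      by_cases h2 : L i = 0
      · rw [h2, zero_mul]
      · have h3 := hp0 i (Finset.mem_filter.2 ⟨Finset.mem_univ _, h2⟩) hne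
        rw [← hτ.sgb hb] at h3
        rw [sg_eq0 e ψ h3, mul_zero]
    · intro h2
      exact absurd (Finset.mem_univ _) h2
  have hLpos : 0 < L i1 := by
    have h1 : (σ p : ℤ) * mu e ψ p (b (τ i1)) = |mu e ψ p (b (τ i1))| := by
      rw [hσ i1 p hp]
      have h5 := sg_abs e ψ (b (τ i1)) p
      rw [hτ.sgb hb] at h5
      exact h5
    have h2 : 0 ≤ (σ p : ℤ) * mu e ψ p (b ρ) := by
      by_cases h3 : ρ p = 0
      · have h4 : mu e ψ p (b ρ) = 0 := sg_eq0 e ψ (by rw [hsρ]; exact h3)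
        rw [h4, mul_zero]
      · rw [hρσ p h3]
        have h4 : ((ρ p : SignType) : ℤ) * mu e ψ p (b ρ) = |mu e ψ p (b ρ)| := by
          have h5 := sg_abs e ψ (b ρ) p
          rw [hsρ] at h5
          exact h5
        rw [h4]
        exact abs_nonneg _
    have h3 : 0 < |mu e ψ p (b (τ i1))| := by
      rw [abs_pos]
      refine sg_ne e ψ ?_
      rw [hτ.sgb hb]
      exact hp
    have h4 : q * ((σ p : ℤ) * mu e ψ p (b ρ)) = L i1 * |mu e ψ p (b (τ i1))| := by
      rw [← h1]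
      linear_combination (σ p : ℤ) * hvp
    have h5 : 0 ≤ L i1 * |mu e ψ p (b (τ i1))| := by
      rw [← h4]
      exact mul_nonneg hq0.le h2
    exact lt_of_le_of_ne (nonneg_of_mul_nonneg_left h5 h3) hi1'.symm
  have hsub : ∀ p', τ i1 p' = 0 → ρ p' = 0 := by
    intro p' hp'
    have h1 : q * mu e ψ p' (b ρ) = 0 := by
      rw [hv]
      refine Finset.sum_eq_zero fun i _ => ?_
      by_cases h2 : L i = 0
      · rw [h2, zero_mul]
      · have h3 := hτ.lev (hmax i (Finset.mem_filter.2 ⟨Finset.mem_univ _, h2⟩))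
        have h4 : τ i p' = 0 := by
          by_contra h5
          exact h5 ((h3 p' h5).symm.trans hp')
        rw [← hτ.sgb hb] at h4
        rw [sg_eq0 e ψ h4, mul_zero]
    have h2 := (mul_eq_zero.1 h1).resolve_left hq0.ne'
    have h3 : sg e ψ (b ρ) p' = 0 := by
      change SignType.sign (mu e ψ p' (b ρ)) = 0
      rw [h2, sign_zero]
    rw [hsρ] at h3
    exact h3
  have hlev : lev ρ (τ i1) := by
    intro p' hp'
    have h1 : τ i1 p' ≠ 0 := fun h2 => hp' (hsub p' h2)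
    rw [← hρσ p' hp', hσ i1 p' h1]
  have hlt : nz ρ < nz (τ i1) := by
    refine lt_of_le_of_ne (nz_le hlev) fun h1 => ?_
    exact hρτ i1 (eq_of_nz hlev h1.ge).symm
  set m := nz (τ i1) with hm
  have hE1 : 1 ≤ E := by
    have h1 : 0 ≤ ∑ i, |Lr e (fun i => b (τ i)) i (b ρ)| :=
      Finset.sum_nonneg fun _ _ => abs_nonneg _
    linarith
  have hEp : ∀ k, 0 < E ^ k := fun k => pow_pos (by linarith) k
  have hb1 : ∀ i, -(E ^ (m - 1) * |L i|) ≤ (if i = i1 then 0 else E ^ nz (τ i) * L i) := by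
    intro i
    have h1 : 0 ≤ E ^ (m - 1) * |L i| := mul_nonneg (hEp _).le (abs_nonneg _)
    split_ifs with h2
    · linarith
    · by_cases h3 : L i = 0
      · rw [h3, mul_zero, abs_zero, mul_zero, neg_zero]
      · have h4 := hτ.lt (hmax i (Finset.mem_filter.2 ⟨Finset.mem_univ _, h3⟩)) h2
        have h5 : E ^ nz (τ i) ≤ E ^ (m - 1) := pow_le_pow_right₀ hE1 (by omega)
        have h6 : -|L i| ≤ L i := neg_abs_le (L i)
        have h7 : E ^ nz (τ i) * |L i| ≤ E ^ (m - 1) * |L i| :=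
          mul_le_mul_of_nonneg_right h5 (abs_nonneg _)
        have h8 : E ^ nz (τ i) * (-|L i|) ≤ E ^ nz (τ i) * L i :=
          mul_le_mul_of_nonneg_left h6 (hEp _).le
        linarith
  have hsum : ∑ i, E ^ nz (τ i) * L i = E ^ m * L i1 +
      ∑ i, (if i = i1 then 0 else E ^ nz (τ i) * L i) := by
    rw [← Finset.add_sum_erase _ _ (Finset.mem_univ i1),
      ← Finset.add_sum_erase Finset.univ (fun i => if i = i1 then 0 else E ^ nz (τ i) * L i)
        (Finset.mem_univ i1), if_pos rfl, zero_add]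
    congr 1
    refine Finset.sum_congr rfl fun i hi => ?_
    rw [if_neg (Finset.ne_of_mem_erase hi)]
  have hlow : -(E ^ (m - 1) * ∑ i, |L i|) ≤
      ∑ i, (if i = i1 then 0 else E ^ nz (τ i) * L i) := by
    rw [Finset.mul_sum, ← Finset.sum_neg_distrib]
    exact Finset.sum_le_sum fun i _ => hb1 i
  have hm1 : E ^ m = E ^ (m - 1) * E := by
    rw [← pow_succ]
    congr 1
    omega
  have h1 : E ^ nz ρ ≤ E ^ (m - 1) := pow_le_pow_right₀ hE1 (by omega)
  have h2 : q * E ^ nz ρ ≤ q * E ^ (m - 1) := mul_le_mul_of_nonneg_left h1 hq0.le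
  have h3 : E ^ m ≤ E ^ m * L i1 := le_mul_of_one_le_right (hEp m).le hLpos
  have h4 : E ^ (m - 1) * (∑ i, |L i| + q) < E ^ (m - 1) * E :=
    mul_lt_mul_of_pos_left hE (hEp _)
  rw [hsum]
  rw [mul_add] at h4
  linarith

/-- **Convexity.** -/
lemma conv {τ : Fin n → G × Fin n → SignType} (hτ : Ch e ψ τ)
    (hb : ∀ x, sg e ψ (b (sg e ψ x)) = sg e ψ x) {ρ : G × Fin n → SignType}
    (hρ : ∃ x, sg e ψ x = ρ) (hρ0 : ρ ≠ 0) (hρτ : ∀ i, τ i ≠ ρ) (hn : 0 < n) (K E : ℤ)
    (hE : ∑ i, |Lr e (fun i => b (τ i)) i (b ρ)| + qr e (fun i => b (τ i)) < E)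
    (hK : |∑ i, E ^ nz (τ i) * Lr e (fun i => b (τ i)) i (b ρ) -
      qr e (fun i => b (τ i)) * E ^ nz ρ| < K) :
    qr e (fun i => b (τ i)) * h0 e ψ b K E ρ < uu e ψ b K E τ (b ρ) := by
  classical
  have : Nonempty (Fin n) := ⟨⟨0, hn⟩⟩
  obtain ⟨it, hit⟩ := Finite.exists_max fun i => nz (τ i)
  have hσ : ∀ i, lev (τ i) (τ it) := fun i => hτ.lev (hit i)
  set q := qr e (fun i => b (τ i)) with hq
  have hq0 : 0 < q := qr_pos (hτ.det_ne hb)
  have hsρ : sg e ψ (b ρ) = ρ := by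
    obtain ⟨x, hx⟩ := hρ
    rw [← hx]
    exact hb x
  -- the linear function
  set φ : N →ₗ[ℤ] ℤ := -∑ p, (τ it p : ℤ) • mu e ψ p with hφ
  have hφa : ∀ x, φ x = -∑ p, (τ it p : ℤ) * mu e ψ p x := by
    intro x
    rw [hφ, LinearMap.neg_apply, LinearMap.sum_apply]
    rfl
  have hφτ : ∀ i, φ (b (τ i)) = f0 e ψ (b (τ i)) := by
    intro i
    rw [hφa, f0]
    congr 1
    refine Finset.sum_congr rfl fun p _ => ?_
    by_cases h1 : τ i p = 0
    · have h2 : mu e ψ p (b (τ i)) = 0 := sg_eq0 e ψ (by rw [hτ.sgb hb]; exact h1)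
      rw [h2, mul_zero, abs_zero]
    · rw [hσ i p h1]
      have h5 := sg_abs e ψ (b (τ i)) p
      rw [hτ.sgb hb] at h5
      exact h5
  have hsplit : uu e ψ b K E τ (b ρ) = K * (q * φ (b ρ)) +
      ∑ i, E ^ nz (τ i) * Lr e (fun i => b (τ i)) i (b ρ) := by
    rw [uu_apply, val e (fun i => b (τ i)) φ (b ρ), Finset.mul_sum, ← Finset.sum_add_distrib]
    refine Finset.sum_congr rfl fun i _ => ?_
    rw [hφτ, h0]
    ring
  have hterm : ∀ p, (τ it p : ℤ) * mu e ψ p (b ρ) ≤ |mu e ψ p (b ρ)| := by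
    intro p
    rcases SignType.trichotomy (τ it p) with h1 | h1 | h1
    · rw [h1]
      have := neg_le_abs (mu e ψ p (b ρ))
      simpa using this
    · rw [h1]
      simp
    · rw [h1]
      have := le_abs_self (mu e ψ p (b ρ))
      simpa using this
  rw [hsplit, h0]
  by_cases hle : lev ρ (τ it)
  · have h1 := second hτ hb hρ hρ0 hρτ hσ hle E hE
    have h2 : f0 e ψ (b ρ) = φ (b ρ) := by
      rw [hφa, f0]
      congr 1
      refine Finset.sum_congr rfl fun p _ => ?_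
      by_cases h1 : ρ p = 0
      · have h2 : mu e ψ p (b ρ) = 0 := sg_eq0 e ψ (by rw [hsρ]; exact h1)
        rw [h2, mul_zero, abs_zero]
      · rw [hle p h1]
        have h5 := sg_abs e ψ (b ρ) p
        rw [hsρ] at h5
        exact h5.symm
    rw [h2]
    have h3 : q * (K * φ (b ρ) + E ^ nz ρ) = K * (q * φ (b ρ)) + q * E ^ nz ρ := by ring
    rw [h3]
    linarith
  · have h1 : f0 e ψ (b ρ) + 1 ≤ φ (b ρ) := by
      unfold lev at hle
      push Not at hle
      obtain ⟨p, hp, hp'⟩ := hle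
      have h2 : (τ it p : ℤ) * mu e ψ p (b ρ) < |mu e ψ p (b ρ)| := by
        have h3 := sg_abs e ψ (b ρ) p
        rw [hsρ] at h3
        have h4 : mu e ψ p (b ρ) ≠ 0 := sg_ne e ψ (by rw [hsρ]; exact hp)
        have h5 := abs_pos.2 h4
        refine lt_of_le_of_ne (hterm p) fun h6 => ?_
        rw [← h3] at h6
        have h7 := mul_right_cancel₀ h4 h6
        apply hp'
        have h8 : ∀ a b : SignType, (a : ℤ) = (b : ℤ) → a = b := by decide
        exact h8 _ _ h7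
      have h3 : ∑ p, (τ it p : ℤ) * mu e ψ p (b ρ) < ∑ p, |mu e ψ p (b ρ)| :=
        Finset.sum_lt_sum (fun p _ => hterm p) ⟨p, Finset.mem_univ p, h2⟩
      rw [hφa, f0]
      linarith
    have h2 := (abs_lt.1 hK).1
    have hK0 : 0 < K := lt_of_le_of_lt (abs_nonneg _) hK
    have h3 : K * (q * (f0 e ψ (b ρ) + 1)) ≤ K * (q * φ (b ρ)) :=
      mul_le_mul_of_nonneg_left (mul_le_mul_of_nonneg_left h1 hq0.le) hK0.le
    have h4 : K * 1 ≤ K * q := mul_le_mul_of_nonneg_left hq0 hK0.le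
    have h5 : q * (K * f0 e ψ (b ρ) + E ^ nz ρ) + K * q =
        K * (q * (f0 e ψ (b ρ) + 1)) + q * E ^ nz ρ := by ring
    linarith

lemma lev_ac {τ σ : G × Fin n → SignType} (h : lev τ σ) (g : G) : lev (ac g τ) (ac g σ) :=
  fun _ hp => h _ hp

lemma Ch.ac {τ : Fin n → G × Fin n → SignType} (h : Ch e ψ τ) (g : G) :
    Ch e ψ (fun i => ac g (τ i)) := by
  refine ⟨fun i => ?_, fun i h1 => ?_, fun i j => ?_, fun i j hij => ?_⟩
  · obtain ⟨x, hx⟩ := h.rs i
    exact ⟨ψ g x, by rw [sg_act, hx]⟩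
  · apply h.ne i
    rw [← ac_one (τ i), ← inv_mul_cancel g, ac_mul, h1]
    rfl
  · rcases h.cmp i j with h1 | h1
    · exact Or.inl (lev_ac h1 g)
    · exact Or.inr (lev_ac h1 g)
  · apply h.inj
    have h1 := congrArg (Pool.Agent.Zk15.ac g⁻¹) hij
    rw [← ac_mul, ← ac_mul, inv_mul_cancel, ac_one, ac_one] at h1
    exact h1

/-- **The fan.** -/
theorem exists_fan (e : Basis (Fin n) ℤ N) (ψ : G →* (N ≃ₗ[ℤ] N)) : ∃ A, FN e ψ A := by
  classical
  obtain ⟨b, hb, hbe⟩ := exists_b e ψ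
  obtain ⟨E0, hE0⟩ := exists_abs_le
    (Set.finite_range fun q : (Fin n → G × Fin n → SignType) × (G × Fin n → SignType) =>
      ∑ i, |Lr e (fun i => b (q.1 i)) i (b q.2)| + qr e (fun i => b (q.1 i)))
  set E : ℤ := |E0| + 1 with hEdef
  have hE : ∀ (τ : Fin n → G × Fin n → SignType) (ρ : G × Fin n → SignType),
      ∑ i, |Lr e (fun i => b (τ i)) i (b ρ)| + qr e (fun i => b (τ i)) < E := by
    intro τ ρ
    have h1 := hE0 _ ⟨(τ, ρ), rfl⟩
    have h2 := le_abs_self E0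
    dsimp only at h1
    have h3 := le_abs_self (∑ i, |Lr e (fun i => b (τ i)) i (b ρ)| + qr e (fun i => b (τ i)))
    omega
  obtain ⟨K0, hK0⟩ := exists_abs_le
    (Set.finite_range fun q : (Fin n → G × Fin n → SignType) × (G × Fin n → SignType) =>
      ∑ i, E ^ nz (q.1 i) * Lr e (fun i => b (q.1 i)) i (b q.2) -
        qr e (fun i => b (q.1 i)) * E ^ nz q.2)
  set K : ℤ := |K0| + 1 with hKdef
  have hK : ∀ (τ : Fin n → G × Fin n → SignType) (ρ : G × Fin n → SignType),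
      |∑ i, E ^ nz (τ i) * Lr e (fun i => b (τ i)) i (b ρ) -
      qr e (fun i => b (τ i)) * E ^ nz ρ| < K := by
    intro τ ρ
    have h1 := hK0 _ ⟨(τ, ρ), rfl⟩
    have h2 := le_abs_self K0
    dsimp only at h1
    omega
  obtain ⟨D, hD, hDd⟩ := exists_mult
    (Set.finite_range fun τ : Fin n → G × Fin n → SignType => qr e (fun i => b (τ i)))
  set vv : (Fin n → G × Fin n → SignType) → (N →ₗ[ℤ] ℤ) := fun τ =>
    (D / qr e (fun i => b (τ i))) • uu e ψ b K E τ with hvv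
  have hvself : ∀ τ, Ch e ψ τ → ∀ j, vv τ (b (τ j)) = D * h0 e ψ b K E (τ j) := by
    intro τ hτ j
    have hq := qr_pos (hτ.det_ne hb)
    change (D / qr e (fun i => b (τ i))) * uu e ψ b K E τ (b (τ j)) = _
    rw [uu_self, ← mul_assoc, Int.ediv_mul_cancel (hDd _ ⟨τ, rfl⟩ hq)]
  have hvlt : ∀ τ, Ch e ψ τ → ∀ ρ, (∃ x, sg e ψ x = ρ) → ρ ≠ 0 → (∀ i, τ i ≠ ρ) → 0 < n →
      D * h0 e ψ b K E ρ < vv τ (b ρ) := by
    intro τ hτ ρ hρ hρ0 hρτ hn
    have hq := qr_pos (hτ.det_ne hb)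
    have h1 := conv hτ hb hρ hρ0 hρτ hn K E (hE τ ρ) (hK τ ρ)
    change _ < (D / qr e (fun i => b (τ i))) * uu e ψ b K E τ (b ρ)
    have hd := hDd _ ⟨τ, rfl⟩ hq
    have h2 : 0 < D / qr e (fun i => b (τ i)) := Int.ediv_pos_of_pos_of_dvd hD hq.le hd
    have h3 := mul_lt_mul_of_pos_left h1 h2
    rw [← mul_assoc, Int.ediv_mul_cancel hd] at h3
    exact h3
  refine ⟨{x | ∃ τ, Ch e ψ τ ∧ x = (fun i => b (τ i), vv τ)}, ?_, ?_, ?_, ?_, ?_, ?_⟩
  · refine (Set.finite_range fun τ : Fin n → G × Fin n → SignType =>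
      ((fun i => b (τ i), vv τ) : (Fin n → N) × (N →ₗ[ℤ] ℤ))).subset ?_
    rintro x ⟨τ, -, rfl⟩
    exact ⟨τ, rfl⟩
  · rintro r v ⟨τ, hτ, hx⟩
    obtain ⟨rfl, rfl⟩ := Prod.mk.inj hx
    exact hτ.det_ne hb
  · intro x
    obtain ⟨τ, hτ, hx⟩ := cpl_chain hb x
    exact ⟨_, _, ⟨τ, hτ, rfl⟩, qr e (fun i => b (τ i)), qr_pos (hτ.det_ne hb),
      fun i => Lr e (fun i => b (τ i)) i x, hx, cramer e _ x⟩
  · rintro r v r' v' ⟨τ, hτ, hx⟩ ⟨τ', hτ', hx'⟩ j
    obtain ⟨rfl, rfl⟩ := Prod.mk.inj hx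
    obtain ⟨rfl, rfl⟩ := Prod.mk.inj hx'
    dsimp only
    rw [hvself τ' hτ']
    by_cases hex : ∃ i, τ i = τ' j
    · obtain ⟨i, hi⟩ := hex
      rw [← hi, hvself τ hτ]
      exact ⟨le_rfl, fun _ => ⟨i, rfl⟩⟩
    · push Not at hex
      have h1 := hvlt τ hτ (τ' j) (hτ'.rs j) (hτ'.ne j) hex (Nat.lt_of_le_of_lt
        (Nat.zero_le _) j.2)
      exact ⟨h1.le, fun h2 => absurd h2 h1.ne'⟩
  · rintro g r v ⟨τ, hτ, hx⟩
    obtain ⟨rfl, rfl⟩ := Prod.mk.inj hx
    refine ⟨fun i => ac g (τ i), hτ.ac g, Prod.ext ?_ ?_⟩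
    · funext i
      exact (hbe g (τ i)).symm
    · dsimp only
      have hr : (fun i => b (ac g (τ i))) = fun i => ψ g (b (τ i)) := by
        funext i
        exact hbe g (τ i)
      apply LinearMap.ext
      intro x
      rw [gm_apply]
      change (D / qr e (fun i => b (τ i))) * uu e ψ b K E τ (ψ g⁻¹ x) =
        (D / qr e (fun i => b (ac g (τ i)))) * uu e ψ b K E (fun i => ac g (τ i)) x
      rw [hr, qr_act, uu_apply, uu_apply]
      congr 1
      refine Finset.sum_congr rfl fun i _ => ?_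
      have h1 : h0 e ψ b K E (ac g (τ i)) = h0 e ψ b K E (τ i) := by
        rw [h0, h0, hbe, f0_act, nz_ac]
      have h2 : Lr e (fun i => ψ g (b (τ i))) i x = Lr e (fun i => b (τ i)) i (ψ g⁻¹ x) := by
        rw [← Lr_act e ψ g (fun i => b (τ i)) i (ψ g⁻¹ x), act_inv]
      rw [h1, hr, h2]
  · rintro r v ⟨τ, hτ, hx⟩ g i j hij
    obtain ⟨rfl, rfl⟩ := Prod.mk.inj hx
    dsimp only at hij ⊢
    have h1 : ac g (τ i) = τ j := by
      have h2 := congrArg (sg e ψ) hij
      rw [← hbe, (hτ.ac g).sgb hb i, hτ.sgb hb] at h2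
      exact h2
    have h2 : nz (τ i) = nz (τ j) := by
      rw [← h1, nz_ac]
    rw [eq_of_nz (hτ.lev h2.le) h2.ge]

end Pool.Agent.Zk15
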