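import Pool.Agent.Y223.G.Stm12
import Pool.Agent.Y363.G.Ram1

/-!
# Dedekind domains with an action of a finite group: the residue fields are perfect

The order of the group may be divisible by the characteristic.
-/

set_option autoImplicit false
set_option linter.overlappingInstances false
set_option linter.unusedSectionVars false

namespace Pool.Agent.Zk15

open Pool.Agent.Y223.G
open Pool.Agent.Y363.G (Dt Dt_apply Dt_mul t_pow_mem Dt_mem_pow Dt_iter_mem)

/-- The base: a Dedekind domain `O`, finite over `k`, with an action of the finite group `G` with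
the fixed ring `k` and perfect residue fields, in the field `K` with an action of `G`, such that the
wild inertia groups have order at most `p`. -/
structure GF (k O K G : Type) [CommRing k] [IsDomain k] [CommRing O] [IsDomain O]
    [IsDedekindDomain O] [Field K] [Group G] [Algebra k O] [Algebra O K] [Algebra k K]
    [IsScalarTower k O K] (ρ : G →* (K ≃ₐ[k] K)) (T : G →* (O ≃ₐ[k] O)) : Prop where
  fin : Module.Finite k O
  inj : Function.Injective (algebraMap O K)
  injk : Function.Injective (algebraMap k K)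
  com : ∀ g o, ρ g (algebraMap O K o) = algebraMap O K (T g o)
  fai : ∀ g, (∀ o, T g o = o) → g = 1
  fix : ∀ o, (∀ g, T g o = o) → ∃ c : k, algebraMap k O c = o
  pf : ∀ 𝔓 : Ideal O, 𝔓.IsMaximal → 𝔓 ≠ ⊥ → ∀ p : ℕ, p.Prime → (p : O) ∈ 𝔓 →
    ∀ o : O, ∃ o' : O, o' ^ p - o ∈ 𝔓
  inr : ∀ 𝔓 : Ideal O, 𝔓.IsMaximal → 𝔓 ≠ ⊥ → ∃ (p : ℕ) (τ : G), p.Prime ∧ τ ^ p = 1 ∧
    ∀ g, (∀ o, T g o - o ∈ 𝔓) → (∀ o ∈ 𝔓, T g o - o ∈ 𝔓 ^ 2) → g ∈ Subgroup.zpowers τ

/-- The fixed ring of an automorphism of prime order. -/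
structure GSF (k O K : Type) [CommRing k] [IsDomain k] [CommRing O] [IsDomain O]
    [IsDedekindDomain O] [Field K] [Algebra k O] [Algebra O K] [Algebra k K] [IsScalarTower k O K]
    (p : ℕ) (τ : K ≃ₐ[k] K) (t : O ≃ₐ[k] O) : Prop where
  pp : p.Prime
  fin : Module.Finite k O
  inj : Function.Injective (algebraMap O K)
  injk : Function.Injective (algebraMap k K)
  ord : ∀ x, τ^[p] x = x
  com : ∀ o, τ (algebraMap O K o) = algebraMap O K (t o)
  nt : ∃ o, t o ≠ o
  fix : ∀ o, t o = o → ∃ c : k, algebraMap k O c = o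
  pf : ∀ 𝔓 : Ideal O, 𝔓.IsMaximal → 𝔓 ≠ ⊥ → ∀ p : ℕ, p.Prime → (p : O) ∈ 𝔓 →
    ∀ o : O, ∃ o' : O, o' ^ p - o ∈ 𝔓

section ram

variable {k O K : Type} [CommRing k] [IsDomain k] [CommRing O] [IsDomain O]
  [IsDedekindDomain O] [Field K] [Algebra k O] [Algebra O K] [Algebra k K] [IsScalarTower k O K]
  {p : ℕ} {τ : K ≃ₐ[k] K} {t : O ≃ₐ[k] O}

lemma iter_alg (g : GSF k O K p τ t) (i : ℕ) (o : O) :
    algebraMap O K (t^[i] o) = τ^[i] (algebraMap O K o) := by
  induction i with
  | zero => rfl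
  | succ i ih => rw [Function.iterate_succ_apply', Function.iterate_succ_apply', ← g.com, ih]

lemma t_ord (g : GSF k O K p τ t) (o : O) : t^[p] o = o :=
  g.inj (by rw [iter_alg g, g.ord])

/-- The residue field of the fixed ring is the residue field. -/
lemma res_surj (g : GSF k O K p τ t) {𝔓 : Ideal O} (hmax : 𝔓.IsMaximal) (hbot : 𝔓 ≠ ⊥)
    (hδ : ∀ o, t o - o ∈ 𝔓) (o : O) : ∃ c : k, o - algebraMap k O c ∈ 𝔓 := by
  classical
  have hmk : ∀ x, Ideal.Quotient.mk 𝔓 (t x) = Ideal.Quotient.mk 𝔓 x :=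
    fun x => Ideal.Quotient.eq.2 (hδ x)
  have hit : ∀ i o, Ideal.Quotient.mk 𝔓 (t^[i] o) = Ideal.Quotient.mk 𝔓 o := by
    intro i o
    induction i with
    | zero => rfl
    | succ i ih => rw [Function.iterate_succ_apply', hmk, ih]
  suffices hkey : ∃ c : k, Ideal.Quotient.mk 𝔓 (algebraMap k O c) = Ideal.Quotient.mk 𝔓 o by
    obtain ⟨c, hc⟩ := hkey
    exact ⟨c, Ideal.Quotient.eq.1 hc.symm⟩
  have hpp := g.pp
  by_cases hp : ((p : ℕ) : O) ∈ 𝔓
  · -- the norm
    obtain ⟨o', ho'⟩ := g.pf 𝔓 hmax hbot p hpp hp o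
    have hfix : t (∏ i ∈ Finset.range p, t^[i] o') = ∏ i ∈ Finset.range p, t^[i] o' := by
      rw [map_prod]
      have h1 := Finset.prod_range_succ' (fun i => t^[i] o') p
      have h2 := Finset.prod_range_succ (fun i => t^[i] o') p
      rw [t_ord g] at h2
      rw [h2, Function.iterate_zero_apply] at h1
      by_cases ho : o' = 0
      · rw [ho]
        have h3 : ∀ i, t^[i] (0 : O) = 0 := by
          intro i
          induction i with
          | zero => rfl
          | succ i ih => rw [Function.iterate_succ_apply', ih, map_zero]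
        simp only [h3, map_zero]
      · have h4 := mul_right_cancel₀ ho h1
        rw [h4]
        refine Finset.prod_congr rfl fun i _ => ?_
        rw [Function.iterate_succ_apply']
    obtain ⟨c, hc⟩ := g.fix _ hfix
    refine ⟨c, ?_⟩
    rw [hc, map_prod, Finset.prod_congr rfl fun i _ => hit i o', Finset.prod_const,
      Finset.card_range, ← map_pow]
    exact Ideal.Quotient.eq.2 ho'
  · -- the trace
    have hfix : t (∑ i ∈ Finset.range p, t^[i] o) = ∑ i ∈ Finset.range p, t^[i] o := by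
      rw [map_sum]
      have h1 := Finset.sum_range_succ' (fun i => t^[i] o) p
      have h2 := Finset.sum_range_succ (fun i => t^[i] o) p
      rw [t_ord g] at h2
      rw [h2, Function.iterate_zero_apply] at h1
      have h4 := add_right_cancel h1
      rw [h4]
      refine Finset.sum_congr rfl fun i _ => ?_
      rw [Function.iterate_succ_apply']
    obtain ⟨c, hc⟩ := g.fix _ hfix
    have h1 : Ideal.Quotient.mk 𝔓 (algebraMap k O c) = p * Ideal.Quotient.mk 𝔓 o := by
      rw [hc, map_sum, Finset.sum_congr rfl fun i _ => hit i o, Finset.sum_const,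
        Finset.card_range, nsmul_eq_mul]
    have hfin := g.fin
    have hint : Algebra.IsIntegral k O := inferInstance
    have hcm : (𝔓.comap (algebraMap k O)).IsMaximal :=
      Ideal.isMaximal_comap_of_isIntegral_of_isMaximal 𝔓
    have hpk : ((p : ℕ) : k) ∉ 𝔓.comap (algebraMap k O) := by
      rw [Ideal.mem_comap, map_natCast]
      exact hp
    obtain ⟨c₁, hc₁⟩ := hcm.exists_inv hpk
    obtain ⟨i, hi, hci⟩ := hc₁
    refine ⟨c₁ * c, ?_⟩
    have h2 : Ideal.Quotient.mk 𝔓 (algebraMap k O c₁) * p = 1 := by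
      have h3 := congrArg (fun x => Ideal.Quotient.mk 𝔓 (algebraMap k O x)) hci
      simp only [map_add, map_mul, map_natCast, map_one] at h3
      rw [Ideal.Quotient.eq_zero_iff_mem.2 (Ideal.mem_comap.1 hi), add_zero] at h3
      exact h3
    rw [map_mul, map_mul, h1, ← mul_assoc, h2, one_mul]

/-- the binomial formula -/
lemma Dt_binom (g : GSF k O K p τ t) (x : O) :
    ∑ m ∈ Finset.range p, (p.choose (m + 1) : O) * (Dt t ^ (m + 1)) x = 0 := by
  have h1 : (Dt t + 1) ^ p = 1 := by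
    have e : Dt t + 1 = t.toLinearMap := by
      rw [Dt, sub_add_cancel]
    rw [e]
    ext x
    rw [Module.End.pow_apply]
    exact t_ord g x
  rw [(Commute.one_right (Dt t)).add_pow] at h1
  have h2 := congrArg (fun F : Module.End k O => F x) h1
  simp only [one_pow, mul_one, LinearMap.sum_apply, Module.End.one_apply] at h2
  rw [Finset.sum_range_succ'] at h2
  have h3 : ∀ m, (Dt t ^ m * (p.choose m : Module.End k O)) x = (p.choose m : O) * (Dt t ^ m) x := by
    intro m
    rw [← (Nat.cast_commute (p.choose m) (Dt t ^ m)).eq, ← nsmul_eq_mul, LinearMap.smul_apply,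
      nsmul_eq_mul]
  simp only [h3, pow_zero, Nat.choose_zero_right, Nat.cast_one, one_mul,
    Module.End.one_apply] at h2
  have h4 : ∑ m ∈ Finset.range p, (p.choose (m + 1) : O) * (Dt t ^ (m + 1)) x + x = 0 + x := by
    rw [zero_add]
    exact h2
  exact add_right_cancel h4

end ram

/-- **The ramification at a prime.** -/
theorem ram1F (k O K : Type) [CommRing k] [IsDomain k] [CommRing O] [IsDomain O]
    [IsDedekindDomain O] [Field K] [Algebra k O] [Algebra O K] [Algebra k K] [IsScalarTower k O K]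
    (p : ℕ) (τ : K ≃ₐ[k] K) (t : O ≃ₐ[k] O) (g : GSF k O K p τ t) (𝔓 : Ideal O)
    (hmax : 𝔓.IsMaximal) (hbot : 𝔓 ≠ ⊥) (hδ : ∀ o, t o - o ∈ 𝔓) :
    ∃ l : ℕ, (∀ o, t o - o ∈ 𝔓 ^ (l + 1)) ∧
      (∃ π ∈ 𝔓, t π - π ∉ 𝔓 ^ (l + 2)) ∧ (p : O) ∈ 𝔓 ^ ((p - 1) * l) ∧
      (l = 0 → (p : O) ∉ 𝔓) := by
  classical
  have hprime : 𝔓.IsPrime := hmax.isPrime
  have hPr : Prime 𝔓 := Ideal.prime_of_isPrime hbot hprime
  have hpp := g.pp
  -- the number `l`
  have hex : ∃ n, ∃ o, t o - o ∉ 𝔓 ^ n := by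
    obtain ⟨o, ho⟩ := g.nt
    by_contra hcon
    push Not at hcon
    have h1 : t o - o ∈ (⨅ n : ℕ, 𝔓 ^ n : Ideal O) := by
      rw [Submodule.mem_iInf]
      exact fun n => hcon n o
    rw [Ideal.iInf_pow_eq_bot_of_isDomain 𝔓 hmax.ne_top, Ideal.mem_bot] at h1
    exact ho (sub_eq_zero.1 h1)
  obtain ⟨o, ho⟩ := Nat.find_spec hex
  have hmin : ∀ m < Nat.find hex, ∀ o, t o - o ∈ 𝔓 ^ m := fun m hm o => by
    by_contra hcon
    exact Nat.find_min hex hm ⟨o, hcon⟩
  set n := Nat.find hex with hn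
  have hn2 : 2 ≤ n := by
    by_contra hcon
    have h1 : n = 0 ∨ n = 1 := by omega
    rcases h1 with h1 | h1
    · rw [h1, pow_zero, Ideal.one_eq_top] at ho
      exact ho trivial
    · rw [h1, pow_one] at ho
      exact ho (hδ o)
  obtain ⟨l, hl⟩ := Nat.exists_eq_add_of_le' hn2
  rw [hl] at ho
  have hl1 : ∀ o, t o - o ∈ 𝔓 ^ (l + 1) := hmin (l + 1) (by omega)
  obtain ⟨c, hc⟩ := res_surj g hmax hbot hδ o
  set π := o - algebraMap k O c with hπ
  have hDπ : Dt t π = t o - o := by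
    rw [Dt_apply, hπ, map_sub, t.commutes]
    ring
  have hDπ2 : Dt t π ∉ 𝔓 ^ (l + 2) := by
    rw [hDπ]
    exact ho
  refine ⟨l, hl1, ⟨π, hc, hDπ2⟩, ?_, ?_⟩
  · -- the different
    rcases Nat.eq_zero_or_pos l with hl0 | hl0
    · rw [hl0, mul_zero, pow_zero, Ideal.one_eq_top]
      trivial
    by_contra hcon
    have hex2 : ∃ m, (p : O) ∉ 𝔓 ^ m := ⟨_, hcon⟩
    have h1 := Nat.find_spec hex2
    have h2 : ∀ m < Nat.find hex2, (p : O) ∈ 𝔓 ^ m := fun m hm => by
      by_contra hcon'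
      exact Nat.find_min hex2 hm hcon'
    have h3 : Nat.find hex2 ≤ (p - 1) * l := Nat.find_le hcon
    set r := Nat.find hex2 with hr
    have hr1 : 1 ≤ r := by
      by_contra hcon'
      have h4 : r = 0 := by omega
      rw [h4, pow_zero, Ideal.one_eq_top] at h1
      exact h1 trivial
    obtain ⟨s, hs⟩ := Nat.exists_eq_add_of_le' hr1
    rw [hs] at h1
    have hps : (p : O) ∈ 𝔓 ^ s := h2 s (by omega)
    -- the exact valuation of `p δ π`
    have hDπ1 : Dt t π ∈ 𝔓 ^ (l + 1) := hl1 π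
    have h5 : (p : O) * Dt t π ∉ 𝔓 ^ (s + (l + 1) + 1) := by
      intro h6
      rw [← Ideal.dvd_span_singleton, ← Ideal.span_singleton_mul_span_singleton] at h6
      rcases succ_dvd_or_succ_dvd_of_succ_sum_dvd_mul hPr (Ideal.dvd_span_singleton.2 hps)
        (Ideal.dvd_span_singleton.2 hDπ1) h6 with h7 | h7
      · exact h1 (Ideal.dvd_span_singleton.1 h7)
      · exact hDπ2 (Ideal.dvd_span_singleton.1 h7)
    apply h5
    -- all the other terms are smaller
    obtain ⟨q, hq⟩ : ∃ q, p = q + 1 + 1 := ⟨p - 2, by have := hpp.two_le; omega⟩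
    have h6 := Dt_binom g π
    have h7 : ∑ m ∈ Finset.range p, (p.choose (m + 1) : O) * (Dt t ^ (m + 1)) π =
        ∑ m ∈ Finset.range q, (p.choose (m + 1 + 1) : O) * (Dt t ^ (m + 1 + 1)) π +
          (p : O) * Dt t π + (Dt t ^ p) π := by
      have e1 : Finset.range p = Finset.range (q + 1 + 1) := by rw [hq]
      rw [e1, Finset.sum_range_succ, Finset.sum_range_succ']
      have e2 : p.choose (q + 1 + 1) = 1 := by rw [← hq, Nat.choose_self]
      rw [e2, ← hq, zero_add, Nat.choose_one_right, pow_one, Nat.cast_one, one_mul]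
    rw [h7] at h6
    have h8 : (p : O) * Dt t π =
        -(∑ m ∈ Finset.range q, (p.choose (m + 1 + 1) : O) * (Dt t ^ (m + 1 + 1)) π +
          (Dt t ^ p) π) := by
      linear_combination h6
    rw [h8]
    refine Ideal.neg_mem_iff _ |>.2 (Ideal.add_mem _ (Ideal.sum_mem _ fun m hm => ?_) ?_)
    · rw [Finset.mem_range] at hm
      obtain ⟨d, hd⟩ := hpp.dvd_choose_self (k := m + 1 + 1) (by omega) (by omega)
      rw [hd, Nat.cast_mul]
      have h9 := Ideal.mul_mem_mul hps (Dt_iter_mem hδ hl1 hc (m + 1 + 1))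
      rw [← pow_add] at h9
      have h10 : s + (l + 1) + 1 ≤ s + (1 + (m + 1 + 1) * l) := by
        have : 2 * l ≤ (m + 1 + 1) * l := Nat.mul_le_mul_right l (by omega)
        omega
      have h11 := Ideal.pow_le_pow_right (I := 𝔓) h10 h9
      have e3 : (p : O) * (d : O) * (Dt t ^ (m + 1 + 1)) π =
          (d : O) * ((p : O) * (Dt t ^ (m + 1 + 1)) π) := by ring
      rw [e3]
      exact Ideal.mul_mem_left _ _ h11
    · have h9 := Dt_iter_mem hδ hl1 hc p
      refine Ideal.pow_le_pow_right ?_ h9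
      have h10 : p * l = (p - 1) * l + l := by
        rw [Nat.sub_mul, one_mul, Nat.sub_add_cancel]
        exact Nat.le_mul_of_pos_left l hpp.pos
      omega
  · -- tame ramification
    intro hl0 hp
    subst hl0
    have hl1' : ∀ o, t o - o ∈ 𝔓 ^ (0 + 1) := hl1
    have hπ2 : π ∉ 𝔓 ^ 2 := by
      intro h1
      have h2 := Dt_mem_pow hδ hl1' 2 π h1
      exact hDπ2 h2
    have hstep : ∀ x ∈ 𝔓, x ∉ 𝔓 ^ 2 → Dt t x ∉ 𝔓 ^ 2 := by
      intro x hx hx2 hcon
      have hc' : π ∈ 𝔓 ^ 1 := by rw [pow_one]; exact hc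
      have hx' : x ∈ 𝔓 ^ 1 := by rw [pow_one]; exact hx
      obtain ⟨a, e, he, hae⟩ := Ideal.exists_mul_add_mem_pow_succ hbot π x hc' hπ2 hx'
      have ha : a ∉ 𝔓 := by
        intro ha
        apply hx2
        rw [← hae]
        refine Ideal.add_mem _ ?_ he
        rw [sq]
        exact Ideal.mul_mem_mul hc ha
      have h1 : Dt t x = Dt t π * t a + π * Dt t a + Dt t e := by
        rw [← hae, map_add, Dt_mul]
      have h2 : Dt t e ∈ 𝔓 ^ 2 := Dt_mem_pow hδ hl1' 2 e he
      have h3 : π * Dt t a ∈ 𝔓 ^ 2 := by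
        rw [sq]
        exact Ideal.mul_mem_mul hc (hδ a)
      have h4 : Dt t π * t a ∈ 𝔓 ^ 2 := by
        have h5 : Dt t π * t a = Dt t x - π * Dt t a - Dt t e := by
          rw [h1]
          ring
        rw [h5]
        exact Ideal.sub_mem _ (Ideal.sub_mem _ hcon h3) h2
      have hta : t a ∉ 𝔓 := by
        intro h5
        apply ha
        have h6 := 𝔓.sub_mem h5 (hδ a)
        rwa [sub_sub_cancel] at h6
      rw [mul_comm] at h4
      rcases Ideal.IsPrime.mul_mem_pow 𝔓 h4 with h5 | h5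
      · exact hta h5
      · exact hDπ2 h5
    have hiter : ∀ i, (Dt t ^ i) π ∈ 𝔓 ∧ (Dt t ^ i) π ∉ 𝔓 ^ 2 := by
      intro i
      induction i with
      | zero => exact ⟨hc, hπ2⟩
      | succ i ih =>
        rw [pow_succ', Module.End.mul_apply]
        exact ⟨hδ _, hstep _ ih.1 ih.2⟩
    obtain ⟨q, hq⟩ : ∃ q, p = q + 1 := ⟨p - 1, by have := hpp.two_le; omega⟩
    have h6 := Dt_binom g π
    have h7 : ∑ m ∈ Finset.range p, (p.choose (m + 1) : O) * (Dt t ^ (m + 1)) π =
        ∑ m ∈ Finset.range q, (p.choose (m + 1) : O) * (Dt t ^ (m + 1)) π + (Dt t ^ p) π := by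
      have e1 : Finset.range p = Finset.range (q + 1) := by rw [hq]
      rw [e1, Finset.sum_range_succ]
      have e2 : p.choose (q + 1) = 1 := by rw [← hq, Nat.choose_self]
      rw [e2, ← hq, Nat.cast_one, one_mul]
    rw [h7] at h6
    have h8 : (Dt t ^ p) π =
        -∑ m ∈ Finset.range q, (p.choose (m + 1) : O) * (Dt t ^ (m + 1)) π := by
      linear_combination h6
    apply (hiter p).2
    rw [h8]
    refine Ideal.neg_mem_iff _ |>.2 (Ideal.sum_mem _ fun m hm => ?_)
    rw [Finset.mem_range] at hm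
    obtain ⟨d, hd⟩ := hpp.dvd_choose_self (k := m + 1) (by omega) (by omega)
    rw [hd, Nat.cast_mul]
    have e3 : (p : O) * (d : O) * (Dt t ^ (m + 1)) π =
        (d : O) * ((p : O) * (Dt t ^ (m + 1)) π) := by ring
    rw [e3, sq]
    exact Ideal.mul_mem_left _ _ (Ideal.mul_mem_mul hp (hiter (m + 1)).1)

end Pool.Agent.Zk15
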