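import Pool.Agent.Zk15.Ff5
import Pool.Agent.Y944.H.Gfw

/-!
# Fractions and units of the charts
-/

set_option autoImplicit false
set_option linter.unusedSectionVars false
set_option linter.overlappingInstances false

namespace Pool.Agent.Zk15

open Pool.Agent.Y223.G Pool.Agent.Y25.G Pool.Agent.Y564.G Pool.Agent.Y919.H Pool.Agent.Y944.H

section quot

variable {k O Y K G Ω : Type} [CommRing k] [IsDomain k] [CommRing O] [IsDomain O]
  [Field Y] [Field K] [Group G] [Finite G]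
  [Algebra k O] [Algebra O K] [Algebra k K] [IsScalarTower k O K] [Algebra k Y]
  {ι : Y →ₐ[k] K} {ρ : G →* (K ≃ₐ[k] K)} {T : G →* (O ≃ₐ[k] O)} {m : ℕ}
  {z : Ω → Fin (m + 1) → K}

/-- A common invariant denominator. -/
theorem exists_denF (hfixK : ∀ x, (∀ g, ρ g x = x) ↔ ∃ y, ι y = x)
    (hcom : ∀ g o, ρ g (algebraMap O K o) = algebraMap O K (T g o))
    (hlin : ∀ g ω j, ρ g (z ω j) ∈ Submodule.span O (Set.range (z ω))) (s : k) {d : ℕ}
    {Φ : Ω → K} (hΦ : FmL k O K G Ω ρ z d Φ)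
    (hq : ∀ x : K, ∃ c c', c ∈ CG (OL O (K := K) s) z d Φ ∧ c' ∈ CG (OL O (K := K) s) z d Φ ∧
      c' ≠ 0 ∧ x = c / c') (S : Finset ℤ) (f : ℤ → K) :
    ∃ c : Y, c ≠ 0 ∧ ι c ∈ CG (OL O (K := K) s) z d Φ ∧
      ∀ b ∈ S, ι c * f b ∈ CG (OL O (K := K) s) z d Φ := by
  classical
  cases nonempty_fintype G
  induction S using Finset.induction_on with
  | empty => exact ⟨1, one_ne_zero, by rw [map_one]; exact one_mem _, fun b hb => by simp at hb⟩
  | insert a S ha ih =>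
    obtain ⟨c, hc0, hc, hcS⟩ := ih
    obtain ⟨e, e', he, he', h0, hx⟩ := hq (f a)
    obtain ⟨y', hy'⟩ := (hfixK _).1 fun g => nm_act ρ g e'
    have hact : ∀ g, ρ g e' ∈ CG (OL O (K := K) s) z d Φ := fun g =>
      CG_actL hcom hlin hΦ g e' he'
    have hN0 : (∏ g, ρ g e') ≠ 0 := by
      rw [Finset.prod_ne_zero_iff]
      exact fun g _ => (map_ne_zero_iff _ (ρ g).injective).2 h0
    have hy0 : y' ≠ 0 := by
      rintro rfl
      rw [map_zero] at hy'
      exact hN0 hy'.symm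
    have hyC : ι y' ∈ CG (OL O (K := K) s) z d Φ := by
      rw [hy']
      exact prod_mem fun g _ => hact g
    have hyf : ι y' * f a ∈ CG (OL O (K := K) s) z d Φ := by
      rw [hy', nm_mul, hx]
      have h1 : (e' * ∏ g ∈ Finset.univ.erase 1, ρ g e') * (e / e') =
          e * ∏ g ∈ Finset.univ.erase 1, ρ g e' := by
        field_simp
      rw [h1]
      exact mul_mem he (prod_mem fun g _ => hact g)
    refine ⟨c * y', mul_ne_zero hc0 hy0, ?_, ?_⟩
    · rw [map_mul]; exact mul_mem hc hyC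
    · intro b hb
      rw [Finset.mem_insert] at hb
      rw [map_mul]
      rcases hb with rfl | hb
      · rw [mul_assoc]; exact mul_mem hc hyf
      · rw [mul_comm (ι c), mul_assoc]; exact mul_mem hyC (hcS b hb)

end quot

/-- **The elements of the charts, fractions and units.** -/
theorem frF (hRES : S_RES2) (hRWB : S_RWB) (k O Y Y₂ K K₂ G Ω : Type) [CommRing k] [IsDomain k]
    [CommRing O] [IsDomain O] [Field Y] [Field Y₂] [Field K]
    [Field K₂] [Group G] [Finite G] [Finite Ω] [Nonempty Ω] [Algebra k O]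
    [Algebra O K] [Algebra k K] [IsScalarTower k O K] [Algebra k Y] [Algebra k Y₂]
    [Algebra k K₂] (ι : Y →ₐ[k] K) (ι₂ : Y₂ →ₐ[k] K₂) (εY : LP Y →ₐ[k] Y₂) (ε : LP K →ₐ[k] K₂)
    (ρ : G →* (K ≃ₐ[k] K)) (ρ₂ : G →* (K₂ ≃ₐ[k] K₂)) (hE : Ext2M ι ι₂ εY ε ρ ρ₂)
    (hfixK : ∀ x, (∀ g, ρ g x = x) ↔ ∃ y, ι y = x)
    (T : G →* (O ≃ₐ[k] O)) (m : ℕ) (z : Ω → Fin (m + 1) → K)
    (hcom : ∀ g o, ρ g (algebraMap O K o) = algebraMap O K (T g o))
    (hlin : ∀ g ω j, ρ g (z ω j) ∈ Submodule.span O (Set.range (z ω)))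
    (s : k) (_ : IsDedekindDomain (OL O (K := K) s))
    (Tb : G →* (OL O (K := K) s ≃ₐ[k] OL O (K := K) s)) (N : Type) [Finite N]
    (𝔔 : N → Ideal (OL O (K := K) s)) (p l : N → ℕ) (τ : N → G) (π : OL O (K := K) s)
    (_ : s ≠ 0) (hL : LocE k (OL O (K := K) s) K G ρ Tb 𝔔 p l τ π) (e₀ : N → ℕ)
    (W : N → Ω → Fin (m + 1) → ℕ) (he : ∀ i, 0 < e₀ i) (d : ℕ) (Φ : Ω → K)
    (hΦ : FmL k O K G Ω ρ z d Φ)
    (hq : ∀ x : K, ∃ c c', c ∈ CG (OL O (K := K) s) z d Φ ∧ c' ∈ CG (OL O (K := K) s) z d Φ ∧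
      c' ≠ 0 ∧ x = c / c') (R : Subalgebra k (LP Y₂))
    (hR : R = res ι₂ (GRW O ε z s 𝔔 e₀ W (π : K) d Φ)) :
    (∀ y : Y, ι y ∈ CG (OL O (K := K) s) z d Φ → hm 0 (εY (hm 0 y)) ∈ R) ∧
    (∀ x : Y₂, ∃ y y' : Y₂, hm 0 y ∈ R ∧ hm 0 y' ∈ R ∧ y' ≠ 0 ∧ x = y / y') ∧
    hm 0 (εY (hm (-1) 1)) ∈ R ∧
    ∃ w : Y, w ≠ 0 ∧ hm 0 (εY (hm (Nat.card G) w)) ∈ R ∧
      hm 0 (εY (hm (-(Nat.card G : ℤ)) w⁻¹)) ∈ R := by
  classical
  cases nonempty_fintype G
  cases nonempty_fintype N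
  have hπ0 : (π : K) ≠ 0 := fun h => hL.p0 (Subtype.ext h)
  have hB := fun i => hRWB k (OL O (K := K) s) K Ω (𝔔 i) (e₀ i) (he i) m (W i) z d Φ
  set RXc := RX k (CG (OL O (K := K) s) z d Φ) (fun i => RW k (𝔔 i) (e₀ i) (W i) z d Φ) with hRXc
  have hgr : Gr RXc := RX_gr _ _ fun i => (hB i).2.2.1
  have hmemX : ∀ x ∈ CG (OL O (K := K) s) z d Φ, hm 0 x ∈ RXc := by
    intro x hx
    rw [hRXc]
    unfold RX
    rw [Algebra.mem_inf, Algebra.mem_iInf]
    exact ⟨RR_c Nat.one_pos hx, fun i => (hB i).1 x hx⟩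
  have hmem : ∀ (e b : ℤ) (y : Y), hm e (εY (hm b y)) ∈ R ↔
      hm e (ι y * (π : K) ^ (-b)) ∈ RXc := by
    intro e b y
    rw [hR]
    exact (hRES k Y Y₂ K K₂ G ι ι₂ εY ε ρ ρ₂ hE hfixK RXc
      hgr π hπ0).2 e b y
  have hmem0 : ∀ (b : ℤ) (y : Y), ι y * (π : K) ^ (-b) ∈ CG (OL O (K := K) s) z d Φ →
      hm 0 (εY (hm b y)) ∈ R := fun b y h => (hmem 0 b y).2 (hmemX _ h)
  refine ⟨?_, ?_, ?_, ?_⟩
  · intro y hy
    refine hmem0 0 y ?_
    rwa [neg_zero, zpow_zero, mul_one]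
  · intro x
    obtain ⟨u, u', hu', hx⟩ := hE.eY.frac x
    have key : ∀ v : LP Y, ∃ c : Y, c ≠ 0 ∧ ι c ∈ CG (OL O (K := K) s) z d Φ ∧
        ∀ c' : Y, ι c' ∈ CG (OL O (K := K) s) z d Φ → hm 0 (εY (hm 0 (c * c') * v)) ∈ R := by
      intro v
      obtain ⟨c, hc0, hc, hcS⟩ := exists_denF (T := T) hfixK hcom hlin s hΦ hq v.coeff.support
        fun b => ι (v.coeff b) * (π : K) ^ (-b)
      refine ⟨c, hc0, hc, fun c' hc' => ?_⟩
      have h1 : hm 0 (εY (hm 0 (c * c') * v)) =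
          ∑ b ∈ v.coeff.support, hm 0 (εY (hm b (c * c' * v.coeff b))) := by
        conv_lhs => rw [eq_sum_hm v]
        rw [Finset.mul_sum, map_sum]
        have h2 : ∀ w : Y₂, hm 0 w = zer k Y₂ w := fun _ => rfl
        rw [h2, map_sum]
        refine Finset.sum_congr rfl fun b _ => ?_
        rw [hm_mul, zero_add]
        rfl
      rw [h1]
      refine sum_mem fun b hb => hmem0 _ _ ?_
      have h3 : ι (c * c' * v.coeff b) * (π : K) ^ (-b) =
          ι c' * (ι c * (ι (v.coeff b) * (π : K) ^ (-b))) := by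
        rw [map_mul, map_mul]; ring
      rw [h3]
      exact mul_mem hc' (hcS b hb)
    obtain ⟨c, hc0, hc, hcu⟩ := key u
    obtain ⟨c', hc0', hc', hcu'⟩ := key u'
    have hcc : εY (hm 0 (c * c')) ≠ 0 := by
      rw [Ne, map_eq_zero_iff _ hE.eY.inj]
      exact hm_ne_zero (mul_ne_zero hc0 hc0')
    refine ⟨εY (hm 0 (c * c') * u), εY (hm 0 (c * c') * u'), hcu c' hc', ?_, ?_, ?_⟩
    · have := hcu' c hc
      rwa [mul_comm c' c] at this
    · rw [map_mul]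
      exact mul_ne_zero hcc ((map_ne_zero_iff _ hE.eY.inj).2 hu')
    · rw [map_mul, map_mul, mul_div_mul_left _ _ hcc, hx]
  · refine hmem0 _ _ ?_
    rw [map_one, one_mul, neg_neg, zpow_one]
    exact CG_OL π.2
  · obtain ⟨w, hw⟩ := (hfixK _).1 fun g => nm_act ρ g (π : K)
    have hw0 : w ≠ 0 := by
      rintro rfl
      rw [map_zero] at hw
      have : (∏ g, ρ g (π : K)) ≠ 0 := by
        rw [Finset.prod_ne_zero_iff]
        exact fun g _ => (map_ne_zero_iff _ (ρ g).injective).2 hπ0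
      exact this hw.symm
    choose v hv using hL.wi
    have hv' : ∀ g, ρ g (π : K) = (v g : K) * π := by
      intro g
      have := hL.com g π
      rw [hv g] at this
      exact this
    have hinv : ∀ g, ∃ r : OL O (K := K) s, (r : K) * v g = 1 := by
      intro g
      refine ⟨Tb g (v g⁻¹), ?_⟩
      have h1 : Tb g (Tb g⁻¹ π) = π := by
        have : Tb g (Tb g⁻¹ π) = Tb (g * g⁻¹) π := by rw [map_mul]; rfl
        rw [this, mul_inv_cancel, map_one]; rfl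
      rw [hv g⁻¹, map_mul, hv g] at h1
      have h2 : (Tb g (v g⁻¹) : K) * v g * π = 1 * π := by
        have := congrArg Subtype.val h1
        change (Tb g (v g⁻¹) : K) * ((v g : K) * π) = π at this
        rw [one_mul, mul_assoc]; exact this
      exact mul_right_cancel₀ hπ0 h2
    choose r hr using hinv
    have hW : ι w = (∏ g, (v g : K)) * (π : K) ^ (Nat.card G) := by
      rw [hw, Finset.prod_congr rfl fun g _ => hv' g, Finset.prod_mul_distrib, Finset.prod_const,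
        Finset.card_univ, Nat.card_eq_fintype_card]
    have hrv : (∏ g, (r g : K)) * (∏ g, (v g : K)) = 1 := by
      rw [← Finset.prod_mul_distrib]
      exact Finset.prod_eq_one fun g _ => hr g
    have hV0 : (∏ g, (v g : K)) ≠ 0 := right_ne_zero_of_mul_eq_one hrv
    refine ⟨w, hw0, hmem0 _ _ ?_, hmem0 _ _ ?_⟩
    · rw [hW, zpow_neg, zpow_natCast, mul_assoc, mul_inv_cancel₀ (pow_ne_zero _ hπ0), mul_one]
      exact CG_OL (prod_mem fun g _ => (v g).2)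
    · rw [map_inv₀, hW, neg_neg, zpow_natCast, mul_inv, mul_assoc,
        inv_mul_cancel₀ (pow_ne_zero _ hπ0), mul_one, ← eq_inv_of_mul_eq_one_left hrv]
      exact CG_OL (prod_mem fun g _ => (r g).2)

end Pool.Agent.Zk15
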