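import Pool.Agent.Zk15.Ff6
import Pool.Agent.Y223.G.AllW

/-!
# The atlas over the ring of invariants
-/

set_option autoImplicit false
set_option linter.unusedSectionVars false
set_option linter.overlappingInstances false

namespace Pool.Agent.Zk15

open Pool.Agent.Y223.G
open Pool.Agent.Y232.G6 (exists_inv_mem Ph Ph_hm mem_res)
open Pool.Agent.Y550.H (iter RW_gr gr_RX hm_prod0)
open Pool.Agent.Y31.H (ext_unit R2_coeff)

section up

variable {k D K₂ : Type} [CommRing k] [CommRing D] [Field K₂] [Algebra k K₂] [Algebra D K₂]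
  [Algebra k D] [IsScalarTower k D K₂]

/-- The subalgebra, over a larger base ring. -/
def upS (R : Subalgebra k (LP K₂)) (h : ∀ a : D, hm 0 (algebraMap D K₂ a) ∈ R) :
    Subalgebra D (LP K₂) where
  carrier := R
  mul_mem' := R.mul_mem
  add_mem' := R.add_mem
  algebraMap_mem' := h

variable {R : Subalgebra k (LP K₂)} {h : ∀ a : D, hm 0 (algebraMap D K₂ a) ∈ R}

lemma mem_upS {f : LP K₂} : f ∈ upS R h ↔ f ∈ R := Iff.rfl

lemma fg_upS (hR : Algebra.FiniteType k R) : Algebra.FiniteType D (upS R h) := by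
  obtain ⟨s, hs⟩ := (Subalgebra.fg_iff_finiteType _).2 hR
  refine (Subalgebra.fg_iff_finiteType _).1 ⟨s, le_antisymm ?_ ?_⟩
  · rw [Algebra.adjoin_le_iff]
    intro x hx
    change x ∈ R
    rw [← hs]
    exact Algebra.subset_adjoin hx
  · let R' : Subalgebra k (LP K₂) :=
      { carrier := Algebra.adjoin D (s : Set (LP K₂))
        mul_mem' := fun ha hb => Subalgebra.mul_mem _ ha hb
        add_mem' := fun ha hb => Subalgebra.add_mem _ ha hb
        algebraMap_mem' := by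
          intro c
          have h1 : algebraMap k (LP K₂) c = algebraMap D (LP K₂) (algebraMap k D c) := by
            rw [algebraMap_LP, algebraMap_LP, ← IsScalarTower.algebraMap_apply]
          rw [h1]
          exact Subalgebra.algebraMap_mem _ _ }
    have h1 : Algebra.adjoin k (s : Set (LP K₂)) ≤ R' := by
      rw [Algebra.adjoin_le_iff]
      exact fun x hx => Algebra.subset_adjoin (R := D) hx
    intro x hx
    have hx' : x ∈ R := hx
    rw [← hs] at hx'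
    exact h1 hx'

lemma ch_upS (hR : Ch R) : Ch (upS R h) := by
  refine ⟨fg_upS hR.ft, fun f hf d => hR.gr f hf d, hR.ss, hR.cf, hR.pos, ?_⟩
  intro e η he h0 hη
  have h1 := hR.rg e η he h0 hη
  let ev : loc R (hm e η) he ≃+* loc (upS R h) (hm e η) he :=
    { toFun := fun a => ⟨a.1, a.2⟩
      invFun := fun a => ⟨a.1, a.2⟩
      left_inv := fun a => rfl
      right_inv := fun a => rfl
      map_mul' := fun a b => rfl
      map_add' := fun a b => rfl }
  exact IsRegularRing.of_ringEquiv ev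

end up

section val

variable {k O Y Y₂ K K₂ G Ω : Type} [CommRing k] [CommRing O] [Field Y] [Field Y₂] [Field K]
    [Field K₂] [Group G] [Algebra k O]
    [Algebra O K] [Algebra k K] [IsScalarTower k O K] [Algebra k Y] [Algebra k Y₂]
    [Algebra k K₂] {ι : Y →ₐ[k] K} {ι₂ : Y₂ →ₐ[k] K₂} {εY : LP Y →ₐ[k] Y₂} {ε : LP K →ₐ[k] K₂}
    {ρ : G →* (K ≃ₐ[k] K)} {ρ₂ : G →* (K₂ ≃ₐ[k] K₂)}

/-- The valuation rings which contain a chart. -/
theorem valF (HE : Ext2M ι ι₂ εY ε ρ ρ₂) {m : ℕ} {z : Ω → Fin (m + 1) → K} {s : k} {d : ℕ}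
    {Φ : Ω → K} (V : ValuationSubring Y) (V' : ValuationSubring K)
    (hV' : ∀ x, ι x ∈ V' ↔ x ∈ V)
    (hC : ∀ c ∈ CG (OL O (K := K) s) z d Φ, c ∈ V')
    (N : Type) (𝔔 : N → Ideal (OL O (K := K) s)) (e' : N → ℕ) (W : N → Ω → Fin (m + 1) → ℕ)
    (π : K) (hπ : π ≠ 0) :
    ∃ V₂ : ValuationSubring Y₂,
      (∀ x : Y₂, hm 0 x ∈ res ι₂ (GRW O ε z s 𝔔 e' W π d Φ) → x ∈ V₂) ∧
      ∀ x : Y, εY (hm 0 x) ∈ V₂ ↔ x ∈ V := by
  have hkV : ∀ c : k, algebraMap k K c ∈ V' := fun c => by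
    refine hC _ ?_
    have h1 : algebraMap k K c = algebraMap (OL O (K := K) s) K
        (algebraMap k (OL O (K := K) s) c) := rfl
    rw [h1]
    exact Subalgebra.algebraMap_mem _ _
  obtain ⟨V₂', hU1, hU2, hU3, hU4⟩ := ext_unit ε HE.eK.inj V' π hπ
  have hkV2 : ∀ c : k, algebraMap k K₂ c ∈ V₂' := by
    intro c
    have h1 : algebraMap k K₂ c = ε (hm 0 (algebraMap k K c)) := by
      rw [← algebraMap_LP, ε.commutes]
    rw [h1]
    exact hU1 _ (hkV c)
  refine ⟨V₂'.comap (ι₂ : Y₂ →+* K₂), ?_, ?_⟩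
  · intro x hmx
    rw [ValuationSubring.mem_comap]
    change ι₂ x ∈ V₂'
    have h1 : hm 0 (ι₂ x) ∈ GRW O ε z s 𝔔 e' W π d Φ := by
      have h2 : AddMonoidAlgebra.mapAlgHom (R := k) ℤ ι₂ (hm 0 x) ∈
        GRW O ε z s 𝔔 e' W π d Φ := hmx
      have h3 : AddMonoidAlgebra.mapAlgHom (R := k) ℤ ι₂ (hm 0 x) = hm 0 (ι₂ x) :=
        AddMonoidAlgebra.mapAlgHom_single _ _ _
      rwa [h3] at h2
    have h2 := R2_coeff ε (RX k (CG (OL O (K := K) s) z d Φ)
      (fun i => RW k (𝔔 i) (e' i) (W i) z d Φ)) π V₂' hkV2 (by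
      intro d' a ha
      have h3 : hm d' a ∈ RR k 1 1 (⊤ : Ideal (OL O (K := K) s)) 0
          (CG (OL O (K := K) s) z d Φ) := ha.1
      have h4 : a ∈ CG (OL O (K := K) s) z d Φ := RR_mem_C (fun c hc => hc) h3
      exact hU1 a (hC a h4)) hU3 hU4 h1 0
    rwa [coeff_hm_same] at h2
  · intro x
    rw [ValuationSubring.mem_comap]
    change ι₂ (εY (hm 0 x)) ∈ V₂' ↔ x ∈ V
    rw [HE.com]
    exact ⟨fun hx2 => (hV' x).1 (hU2 _ hx2), fun hx => hU1 _ ((hV' x).2 hx)⟩

end val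

end Pool.Agent.Zk15
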