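import Pool.Agent.Zk15.Ff7

/-!
# The model over the ring of invariants
-/

set_option autoImplicit false
set_option linter.unusedSectionVars false
set_option linter.overlappingInstances false

namespace Pool.Agent.Zk15

open Pool.Agent.Y223.G
open Pool.Agent.Y232.G6 (exists_inv_mem Ph Ph_hm mem_res)
open Pool.Agent.Y550.H (iter RW_gr gr_RX hm_prod0)
open Pool.Agent.R383.TM (WD)

lemma CG_unit {A K : Type} [CommRing A] [Field K] [Algebra A K] {m : ℕ} (z : Fin (m + 1) → K)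
    (d : ℕ) (F : K) : CG A (fun _ : Unit => z) d (fun _ => F) = AF A z d F := by
  unfold CG
  exact iSup_const

section

variable {k O K : Type} [CommRing k] [CommRing O] [Field K] [Algebra k O]
  [Algebra O K] [Algebra k K] [IsScalarTower k O K] {m : ℕ} {z : Fin (m + 1) → K} {d : ℕ} {F : K}

lemma AF_up {s : k} {x : K} (hx : x ∈ AF O z d F) : x ∈ AF (OL O (K := K) s) z d F := by
  unfold AF at hx
  induction hx using Algebra.adjoin_induction with
  | mem x hx => exact Algebra.subset_adjoin hx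
  | algebraMap r => exact Subalgebra.algebraMap_mem _ (⟨algebraMap O K r, 0, r, by
      rw [pow_zero, one_mul]⟩ : OL O (K := K) s)
  | add x y _ _ hx hy => exact Subalgebra.add_mem _ hx hy
  | mul x y _ _ hx hy => exact Subalgebra.mul_mem _ hx hy

lemma AF_val {s : k} (hs : algebraMap k K s ≠ 0) (V : ValuationSubring K)
    (h : ∀ c ∈ AF O z d F, c ∈ V) (hsV : (algebraMap k K s)⁻¹ ∈ V) {x : K}
    (hx : x ∈ AF (OL O (K := K) s) z d F) : x ∈ V := by
  unfold AF at hx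
  induction hx using Algebra.adjoin_induction with
  | mem x hx => exact h _ (Algebra.subset_adjoin hx)
  | algebraMap r =>
    obtain ⟨r, n, y, hy⟩ := r
    change r ∈ V
    have h2 : r = ((algebraMap k K s)⁻¹) ^ n * algebraMap O K y := by
      rw [← hy, ← mul_assoc, ← mul_pow, inv_mul_cancel₀ hs, one_pow, one_mul]
    rw [h2]
    exact V.mul_mem _ _ (pow_mem hsV n) (h _ (Subalgebra.algebraMap_mem _ y))
  | add x y _ _ hx hy => exact V.add_mem _ _ hx hy
  | mul x y _ _ hx hy => exact V.mul_mem _ _ hx hy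

end

lemma S_atlas2 : S_ATLAS2 := Pool.Agent.Y484.H.t_ATLAS2

lemma S_astep2 : S_ASTEP2 := by
  have hLOCJ : S_LOCJ := Pool.Agent.Y878.G.t_LOCJ
  have hI0 : S_I0REG := Pool.Agent.Y642.G.t_I0REG hLOCJ
  have hWQR : S_WQR := Pool.Agent.Y484.G.t_WQR
  have hLRA : S_LRA := Pool.Agent.Y737.G.t_LRA hLOCJ hWQR
  have hLOWFT : S_LOWFT := Pool.Agent.Y86.G.t_LOWFT
  have hLOWREG : S_LOWREG := Pool.Agent.Y44.G.t_LOWREG hI0 hLRA hLOWFT
  exact Pool.Agent.Y839.H.t_ASTEP2 Pool.Agent.Y232.G.t_GENS Pool.Agent.Y232.G.t_VAL hLOWFT hLOWREG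

lemma S_down : S_DOWN := by
  have hLOCJ : S_LOCJ := Pool.Agent.Y878.G.t_LOCJ
  have hI0 : S_I0REG := Pool.Agent.Y642.G.t_I0REG hLOCJ
  have hD0 : S_D0 := Pool.Agent.Y705.G.t_D0 hI0
  exact Pool.Agent.Y394.H.t_DOWN hD0

/-- **The model over the ring of invariants.** -/
theorem assemF {k O Y K G : Type} [CommRing k] [IsDomain k] [IsNoetherianRing k]
    [CommRing O] [IsDomain O] [IsDedekindDomain O] [Field Y] [Field K] [Group G]
    [Finite G] [Algebra k O] [Algebra O K] [Algebra k K]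
    [IsScalarTower k O K] [Algebra k Y] (ι : Y →ₐ[k] K) (ρ : G →* (K ≃ₐ[k] K))
    (T : G →* (O ≃ₐ[k] O)) (m : ℕ) (z : Fin (m + 1) → K) (hyp : GHF k O K G ρ T m z)
    (hfixK : ∀ x, (∀ g, ρ g x = x) ↔ ∃ y, ι y = x)
    (e : Ideal O → ℕ) (W : Ideal O → Fin (m + 1) → ℕ) (hWD : WD k O K G ρ T z e W)
    (d : ℕ) (hd : 1 ≤ d) (S : Set K) (hSfin : S.Finite) (hSne : S.Nonempty)
    (hS : ∀ F ∈ S, F ∈ FS O z d ∧ F ≠ 0 ∧ ∀ g, ρ g F = F)
    (hq : ∀ F ∈ S, ∀ x : K, ∃ c c', c ∈ AF O z d F ∧ c' ∈ AF O z d F ∧ c' ≠ 0 ∧ x = c / c')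
    (D : Type) [CommRing D] [IsDomain D] [IsNoetherianRing D] [Algebra k D] [Algebra D Y]
    [IsScalarTower k D Y] (hDinj : Function.Injective (algebraMap D Y))
    (hDC : ∀ F ∈ S, ∀ a : D, ι (algebraMap D Y a) ∈ AF O z d F)
    (hcov : ∀ V : ValuationSubring Y, (∀ a : D, algebraMap D Y a ∈ V) →
      ∃ F ∈ S, ∃ V' : ValuationSubring K, (∀ x, ι x ∈ V' ↔ x ∈ V) ∧
        ∀ c ∈ AF O z d F, c ∈ V') :
    ∃ (I : Type) (_ : Finite I) (w : I → Y) (J : Set I),
      ModelG (k := D) False ⊥ (⊤ : Subfield Y) w J := by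
  classical
  have hinjk : Function.Injective (algebraMap k K) := hyp.injk
  have hιk : ∀ c : k, ι (algebraMap k Y c) = algebraMap k K c := fun c => ι.commutes c
  have hinjY : Function.Injective (algebraMap k Y) := by
    intro a b hab
    apply hinjk
    rw [← hιk, ← hιk, hab]
  obtain ⟨Y₂, K₂, _, _, _, _, ι₂, εY, ε, ρ₂, hE⟩ := Pool.Agent.Y949.H.t_EXT2 k Y K G ι ρ hfixK
  obtain ⟨β, _, _, o, π, ho, hπ0, hspan, hππ, hb⟩ := F.ramG2 k O K G ρ T hyp.toGF
  choose dd Tb N hN 𝔔 p l τ π' hπ' hL hg hor using hb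
  have hFm : ∀ F ∈ S, FmL k O K G Unit ρ (fun _ => z) d (fun _ => F) := fun F hF =>
    ⟨fun _ => (hS F hF).1, fun _ => (hS F hF).2.1, fun g _ => (hS F hF).2.2 g⟩
  choose ee W' hee hCh using fun b => f_CH all_CHW all_RWB Pool.Agent.Y614.H.RegL.t_REGL
    k O Y Y₂ K K₂ G ι ι₂ εY ε ρ ρ₂ hE T m z hyp e W hWD (o b) (dd b) (Tb b) (N b) (𝔔 b) (p b)
    (l b) (τ b) (π' b) (ho b) (hL b) (hg b)
  have hoK : ∀ b, algebraMap k K (o b) ≠ 0 := by
    intro b h
    apply ho b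
    apply hinjk
    rw [h, map_zero]
  have hfinS : Finite S := hSfin
  have hn₀ : 0 < Nat.card G := Nat.card_pos
  let _ : Fintype G := Fintype.ofFinite G
  -- the functions
  have hh : ∀ a : S × β, ∃ y : Y, ι y = (a.1 : K) * algebraMap k K (o a.2) := by
    intro a
    apply (hfixK _).1
    intro g
    rw [map_mul, (hS a.1 a.1.2).2.2 g, (ρ g).commutes]
  choose h hιh using hh
  have hh0 : ∀ a, h a ≠ 0 := by
    intro a h0
    have h1 := hιh a
    rw [h0, map_zero] at h1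
    exact mul_ne_zero (hS a.1 a.1.2).2.1 (hoK a.2) h1.symm
  have hquot : ∀ a a' : S × β, ι (h a' / h a) = ((a'.1 : K) / (a.1 : K)) *
        (algebraMap k K (o a'.2) / algebraMap k K (o a.2)) := by
    intro a a'
    rw [map_div₀, hιh, hιh, mul_div_mul_comm]
  -- the charts
  obtain ⟨R, hR⟩ : ∃ R : S × β → Subalgebra k (LP Y₂), R = fun a =>
    res ι₂ (GRW O ε (fun _ : Unit => z) (o a.2) (𝔔 a.2) (ee a.2) (W' a.2) (π a.2) d
      (fun _ => (a.1 : K))) := ⟨_, rfl⟩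
  have hRπ : ∀ a : S × β, R a = res ι₂ (GRW O ε (fun _ : Unit => z) (o a.2) (𝔔 a.2) (ee a.2)
      (W' a.2) (π' a.2 : K) d (fun _ => (a.1 : K))) := by
    intro a
    rw [hR, hπ']
  have hlin : ∀ (g : G) (ω : Unit) (j : Fin (m + 1)),
      ρ g ((fun _ : Unit => z) ω j) ∈ Submodule.span O (Set.range ((fun _ : Unit => z) ω)) :=
    fun g _ j => hyp.lin g j
  have hfr := fun a : S × β => frF Pool.Agent.Y153.H.t_RES2 all_RWB k O Y Y₂ K K₂ G Unit ι ι₂ εY ε
    ρ ρ₂ hE hfixK T m (fun _ => z) hyp.com hlin (o a.2)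
    (dd a.2) (Tb a.2) (N a.2) (𝔔 a.2) (p a.2) (l a.2) (τ a.2) (π' a.2) (ho a.2) (hL a.2)
    (ee a.2) (W' a.2) (hee a.2) d (fun _ => (a.1 : K)) (hFm a.1 a.1.2)
    (by
      intro x
      obtain ⟨c, c', h1, h2, h3, h4⟩ := hq a.1 a.1.2 x
      rw [CG_unit]
      exact ⟨c, c', AF_up h1, AF_up h2, h3, h4⟩) (R a) (hRπ a)
  have hmemR : ∀ (a a' : S × β), hm 0 (εY (hm 0 (h a' / h a))) ∈ R a ↔
      hm 0 (ε (hm 0 ((a'.1 : K) / (a.1 : K)))) *
        hm 0 (ε (hm 0 (algebraMap k K (o a'.2) / algebraMap k K (o a.2)))) ∈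
      GRW O ε (fun _ : Unit => z) (o a.2) (𝔔 a.2) (ee a.2) (W' a.2) (π a.2) d
        (fun _ => (a.1 : K)) := by
    intro a a'
    rw [hR, mem_res, Ph_hm, hE.com, hquot, hm_prod0]
  -- gluing
  have hGL := fun a : S × β => (Pool.Agent.Y769.H.t_GLW Pool.Agent.Y153.H.t_R2M all_RWB)
    k O K K₂ G Unit ε hE.eK ρ m (fun _ => z) (o a.2) (hoK a.2) (N a.2)
    (𝔔 a.2) (ee a.2) (W' a.2) (hee a.2) (π a.2) (hπ0 a.2) d (fun _ => (a.1 : K))
    (hFm a.1 a.1.2)
  have hbase : ∀ (a : S × β) (b' : β),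
      hm 0 (ε (hm 0 (algebraMap k K (o b') / algebraMap k K (o a.2)))) ∈
        GRW O ε (fun _ : Unit => z) (o a.2) (𝔔 a.2) (ee a.2) (W' a.2) (π a.2) d
          (fun _ => (a.1 : K)) ∧
      ∀ f ∈ GRW O ε (fun _ : Unit => z) (o b') (𝔔 b') (ee b') (W' b') (π b') d
          (fun _ => (a.1 : K)), ∃ n : ℕ,
        hm 0 (ε (hm 0 (algebraMap k K (o b') / algebraMap k K (o a.2)))) ^ n * f ∈
          GRW O ε (fun _ : Unit => z) (o a.2) (𝔔 a.2) (ee a.2) (W' a.2) (π a.2) d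
            (fun _ => (a.1 : K)) := by
    intro a b'
    by_cases hbb : b' = a.2
    · subst hbb
      rw [div_self (hoK a.2), hm_one, map_one, hm_one]
      refine ⟨Subalgebra.one_mem _, fun f hf => ⟨0, ?_⟩⟩
      rw [pow_zero, one_mul]
      exact hf
    · exact (hGL a).2 (o b') (hoK b') (N b') (𝔔 b') (ee b') (W' b') (π b') (hπ0 b')
        (hor a.2 b' hbb) (hππ a.2 b')
  -- the base `D`
  let algD : Algebra D Y₂ :=
    (((εY : LP Y →+* Y₂).comp (zer k Y : Y →+* LP Y)).comp (algebraMap D Y)).toAlgebra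
  have halgD : ∀ a : D, algebraMap D Y₂ a = εY (hm 0 (algebraMap D Y a)) := fun a => rfl
  have hTower : IsScalarTower k D Y₂ := IsScalarTower.of_algebraMap_eq fun c => by
    rw [halgD, ← IsScalarTower.algebraMap_apply, ← algebraMap_LP, εY.commutes]
  let εD : LP Y →ₐ[D] Y₂ := { (εY : LP Y →+* Y₂) with commutes' := fun a => rfl }
  have hεD : ∀ x, εD x = εY x := fun x => rfl
  have hED : Ext2 εD := ⟨hE.eY.inj, hE.eY.frac⟩
  have hRD : ∀ (a : S × β) (x : D), hm 0 (algebraMap D Y₂ x) ∈ R a := by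
    intro a x
    rw [halgD]
    refine (hfr a).1 _ ?_
    rw [CG_unit]
    exact AF_up (hDC a.1 a.1.2 x)
  let RD : S × β → Subalgebra D (LP Y₂) := fun a => upS (R a) (hRD a)
  have hmRD : ∀ a f, f ∈ RD a ↔ f ∈ R a := fun a f => Iff.rfl
  obtain ⟨𝒱, h𝒱⟩ : ∃ 𝒱 : Set (ValuationSubring Y₂), 𝒱 = {V | (∀ c : D, algebraMap D Y₂ c ∈ V) ∧
    ∃ a, ∀ x, hm 0 x ∈ RD a → x ∈ V} := ⟨_, rfl⟩
  have h𝒱k : ∀ V ∈ 𝒱, ∀ c : D, algebraMap D Y₂ c ∈ V := by
    rw [h𝒱]
    exact fun V hV => hV.1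
  -- the atlas
  obtain ⟨r, T', hT', C, H, hAt⟩ := S_atlas2 D Y Y₂ hDinj εD hED False ⊥ 𝒱 h𝒱k (Nat.card G) hn₀
    (S × β) RD h
    (fun a => ch_upS (by
      rw [hRπ]
      exact hCh a.2 d (fun _ => (a.1 : K)) hd (hFm a.1 a.1.2)))
    (fun a => by
      have h1 := (Pool.Agent.Y153.H.t_RES2 k Y Y₂ K K₂ G ι ι₂ εY ε ρ ρ₂ hE hfixK _
        (gr_RX (k := k) (CG (OL O (K := K) (o a.2)) (fun _ : Unit => z) d (fun _ => (a.1 : K)))
          (fun i => RW k (𝔔 a.2 i) (ee a.2 i) (W' a.2 i) (fun _ : Unit => z) d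
            (fun _ => (a.1 : K))) fun i => RW_gr (𝔔 a.2 i) (ee a.2 i) (W' a.2 i)
            (fun _ : Unit => z) d (fun _ => (a.1 : K))) (π a.2) (hπ0 a.2)).1
      intro f hf
      have hf' : f ∈ R a := hf
      rw [hR] at hf'
      have h2 := h1 f hf'
      clear hf hf'
      induction h2 using Submodule.span_induction with
      | mem g hg =>
        obtain ⟨hg1, d', b', a', rfl⟩ := hg
        refine Submodule.subset_span ⟨?_, d', b', a', rfl⟩
        rw [hmRD, hR]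
        exact hg1
      | zero => exact Submodule.zero_mem _
      | add x y _ _ hx hy => exact Submodule.add_mem _ hx hy
      | smul c x _ hx =>
        have h3 : c • x = algebraMap k D c • x := by
          rw [Algebra.smul_def, Algebra.smul_def, algebraMap_LP, algebraMap_LP,
            ← IsScalarTower.algebraMap_apply]
        rw [h3]
        exact Submodule.smul_mem _ _ hx)
    hh0 (fun a => (hfr a).2.2.1) (fun a => (hfr a).2.2.2)
    (fun a a' => by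
      rw [hmRD, hεD, hmemR]
      exact Subalgebra.mul_mem _ ((hGL a).1 (fun _ => (a'.1 : K)) (hFm a'.1 a'.1.2) _
        ⟨inferInstance, by rw [Finset.univ_unique, Finset.prod_singleton]⟩).1 (hbase a a'.2).1)
    (fun a a' f hf => by
      have hf' : Ph ι₂ f ∈ GRW O ε (fun _ : Unit => z) (o a'.2) (𝔔 a'.2) (ee a'.2) (W' a'.2)
          (π a'.2) d (fun _ => (a'.1 : K)) := by
        rw [hmRD, hR] at hf
        exact mem_res.1 hf
      obtain ⟨n, hn⟩ := ((hGL (a.1, a'.2)).1 (fun _ => (a'.1 : K)) (hFm a'.1 a'.1.2)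
        ((a'.1 : K) / (a.1 : K))
        ⟨inferInstance, by rw [Finset.univ_unique, Finset.prod_singleton]⟩).2 _ hf'
      have h1 := ((hGL a).1 (fun _ => (a'.1 : K)) (hFm a'.1 a'.1.2)
        ((a'.1 : K) / (a.1 : K))
        ⟨inferInstance, by rw [Finset.univ_unique, Finset.prod_singleton]⟩).1
      obtain ⟨h2, h3⟩ := hbase a a'.2
      obtain ⟨n', hn'⟩ := h3 _ hn
      refine ⟨n + n', ?_⟩
      rw [hmRD, hεD, hR, mem_res, map_mul, map_pow, Ph_hm, hE.com, hquot, hm_prod0]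
      have h5 := Subalgebra.mul_mem _ (Subalgebra.mul_mem _ (Subalgebra.pow_mem _ h1 n')
        (Subalgebra.pow_mem _ h2 n)) hn'
      convert h5 using 1
      ring)
    (by
      rw [h𝒱]
      exact fun V hV => hV.2)
    (fun a => (hfr a).2.1) (fun hP => hP.elim) (fun hP => hP.elim) (fun hP => hP.elim)
  obtain ⟨T1, hT1, C1, H1, hA1⟩ := iter S_astep2 hDinj εD hED False ⊥ 𝒱 h𝒱k (Nat.card G) hn₀ r T'
    hT' C H hAt
  obtain ⟨D', hD'⟩ := S_down D Y Y₂ hDinj εD hED False ⊥ 𝒱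
    (by
      intro V hV
      have hVk : ∀ c : k, algebraMap k Y c ∈ V := by
        intro c
        rw [IsScalarTower.algebraMap_apply k D Y]
        exact hV _
      obtain ⟨F, hF, V', hV', hFV⟩ := hcov V hV
      obtain ⟨b, hbV⟩ := exists_inv_mem o hspan V hVk
      have hbV' : (algebraMap k K (o b))⁻¹ ∈ V' := by
        rw [← hιk, ← map_inv₀, hV']
        exact hbV
      obtain ⟨V₂, h2, h3⟩ := valF hE V V' hV' (z := fun _ : Unit => z) (s := o b) (d := d)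
        (Φ := fun _ => F) (by
          intro c hc
          rw [CG_unit] at hc
          exact AF_val (hoK b) V' hFV hbV' hc) (N b) (𝔔 b) (ee b) (W' b) (π b) (hπ0 b)
      refine ⟨V₂, ?_, fun x hx => (h3 x).1 hx⟩
      rw [h𝒱]
      refine ⟨fun c => ?_, (⟨F, hF⟩, b), fun x hx => h2 x ?_⟩
      · rw [halgD]
        exact (h3 _).2 (hV c)
      · rw [hmRD, hR] at hx
        exact hx)
    (Nat.card G) hn₀ T1 C1 H1 hA1
  exact all_MODEL D Y hDinj False ⊥ Submodule.fg_bot ⊤ (fun hP => hP.elim)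
    (Nat.card G) T1 D' H1 hD'

end Pool.Agent.Zk15
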