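import Pool.Agent.Y438.G.Tay
import Pool.Agent.Zk15.Et

/-!
# Weighted filtrations of a local ring and differences of an automorphism
-/

set_option autoImplicit false
set_option linter.unusedSectionVars false

namespace Pool.Agent.Zk15

open Pool.Agent.Y223.G
open Pool.Agent.Y438.G (FI_mono FI_zero FI_mul FI_gen FI_pow)

variable {K : Type} [Field K] {B : Subring K} {ι : Type} [Fintype ι] {x : ι → B} {a : ι → ℕ}

/-- The weighted filtration. -/
def FK (B : Subring K) {ι : Type} [Fintype ι] (x : ι → B) (a : ι → ℕ) (n : ℕ) : AddSubgroup K where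
  carrier := {y | ∃ h : y ∈ B, (⟨y, h⟩ : B) ∈ FI x a n}
  add_mem' := by
    rintro y z ⟨hy, hy'⟩ ⟨hz, hz'⟩
    exact ⟨B.add_mem hy hz, (FI x a n).add_mem hy' hz'⟩
  zero_mem' := ⟨B.zero_mem, (FI x a n).zero_mem⟩
  neg_mem' := by
    rintro y ⟨hy, hy'⟩
    exact ⟨B.neg_mem hy, (FI x a n).neg_mem hy'⟩

lemma mem_FK {n : ℕ} {y : K} : y ∈ FK B x a n ↔ ∃ h : y ∈ B, (⟨y, h⟩ : B) ∈ FI x a n := Iff.rfl

lemma mem_FK' {n : ℕ} {y : B} : (y : K) ∈ FK B x a n ↔ y ∈ FI x a n :=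
  ⟨fun h => h.2, fun h => ⟨y.2, h⟩⟩

lemma FK_le {n : ℕ} {y : K} (h : y ∈ FK B x a n) : y ∈ B := h.1

lemma FK_mono {m n : ℕ} (h : m ≤ n) {y : K} (hy : y ∈ FK B x a n) : y ∈ FK B x a m :=
  ⟨hy.1, FI_mono h hy.2⟩

lemma FK_zero {y : K} (hy : y ∈ B) : y ∈ FK B x a 0 := ⟨hy, by rw [FI_zero]; trivial⟩

lemma FK_mul {m n : ℕ} {y z : K} (hy : y ∈ FK B x a m) (hz : z ∈ FK B x a n) :
    y * z ∈ FK B x a (m + n) := ⟨B.mul_mem hy.1 hz.1, FI_mul hy.2 hz.2⟩

lemma FK_smul {n : ℕ} {y z : K} (hy : y ∈ B) (hz : z ∈ FK B x a n) : y * z ∈ FK B x a n := by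
  have h := FK_mul (FK_zero (x := x) (a := a) hy) hz
  rwa [zero_add] at h

lemma FK_gen (i : ι) : (x i : K) ∈ FK B x a (a i) := ⟨(x i).2, FI_gen i⟩

lemma FK_pow {n m : ℕ} {y : K} (hy : y ∈ FK B x a n) : y ^ m ∈ FK B x a (n * m) := by
  refine ⟨B.pow_mem hy.1 m, ?_⟩
  have h := FI_pow (m := m) hy.2
  exact h

section delta

variable {τ : K →+* K} {l : ℕ}

/-- The differences raise the weight by `l`. -/
theorem FK_delta (h1 : ∀ b ∈ B, τ b - b ∈ FK B x a l)
    (h2 : ∀ i, τ (x i) - (x i : K) ∈ FK B x a (a i + l)) {n : ℕ} {y : K}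
    (hy : y ∈ FK B x a n) : τ y - y ∈ FK B x a (n + l) := by
  classical
  let P : ℕ → K → Prop := fun n y => y ∈ FK B x a n ∧ τ y - y ∈ FK B x a (n + l)
  have hmul : ∀ m n y z, P m y → P n z → P (m + n) (y * z) := by
    rintro m n y z ⟨hy, hy'⟩ ⟨hz, hz'⟩
    refine ⟨FK_mul hy hz, ?_⟩
    have hτz : τ z ∈ FK B x a n := by
      have h3 := (FK B x a n).add_mem hz (FK_mono (Nat.le_add_right n l) hz')
      rwa [add_sub_cancel] at h3
    have e1 : τ (y * z) - y * z = (τ y - y) * τ z + y * (τ z - z) := by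
      rw [map_mul]
      ring
    rw [e1]
    have h4 := FK_mul hy' hτz
    have h5 := FK_mul hy hz'
    have e2 : m + l + n = m + n + l := by ring
    have e3 : m + (n + l) = m + n + l := by ring
    rw [e2] at h4
    rw [e3] at h5
    exact (FK B x a _).add_mem h4 h5
  have hone : P 0 1 := ⟨FK_zero B.one_mem, by rw [map_one, sub_self]; exact zero_mem _⟩
  have hpow : ∀ (i : ι) (m : ℕ), P (a i * m) ((x i : K) ^ m) := by
    intro i m
    induction m with
    | zero => rw [pow_zero, Nat.mul_zero]; exact hone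
    | succ m ih =>
      rw [pow_succ, Nat.mul_succ]
      exact hmul _ _ _ _ ih ⟨FK_gen i, h2 i⟩
  have hprod : ∀ (s : Finset ι) (m : ι → ℕ), P (∑ i ∈ s, a i * m i) (∏ i ∈ s, (x i : K) ^ m i) := by
    intro s m
    induction s using Finset.induction_on with
    | empty => rw [Finset.sum_empty, Finset.prod_empty]; exact hone
    | insert i s hi ih =>
      rw [Finset.sum_insert hi, Finset.prod_insert hi]
      exact hmul _ _ _ _ (hpow i _) ih
  have hmono : ∀ m n y, m ≤ n → P n y → P m y := fun m n y h hP =>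
    ⟨FK_mono h hP.1, FK_mono (by omega) hP.2⟩
  have hb : ∀ b ∈ B, P 0 b := fun b hb => ⟨FK_zero hb, by rw [zero_add]; exact h1 b hb⟩
  have key : ∀ y : B, y ∈ FI x a n → P n (y : K) := by
    intro y hy
    unfold FI at hy
    induction hy using Submodule.span_induction with
    | mem y hy =>
      obtain ⟨m, hm, rfl⟩ := hy
      refine hmono _ _ _ hm ?_
      have h3 := hprod Finset.univ m
      rw [SubmonoidClass.coe_finsetProd]
      simp only [SubmonoidClass.coe_pow]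
      exact h3
    | zero =>
      exact ⟨zero_mem _, by
        rw [ZeroMemClass.coe_zero, map_zero, sub_zero]
        exact zero_mem _⟩
    | add y z _ _ hy hz =>
      refine ⟨(FK B x a n).add_mem hy.1 hz.1, ?_⟩
      have e1 : τ ((y + z : B) : K) - ((y + z : B) : K) =
          (τ (y : K) - y) + (τ (z : K) - z) := by
        rw [AddMemClass.coe_add, map_add]
        ring
      rw [e1]
      exact (FK B x a _).add_mem hy.2 hz.2
    | smul r y _ hy =>
      have h3 := hmul 0 n _ _ (hb r r.2) hy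
      rw [zero_add] at h3
      exact h3
  exact (key ⟨y, hy.1⟩ hy.2).2

theorem FK_tau (h1 : ∀ b ∈ B, τ b - b ∈ FK B x a l)
    (h2 : ∀ i, τ (x i) - (x i : K) ∈ FK B x a (a i + l)) {n : ℕ} {y : K}
    (hy : y ∈ FK B x a n) : τ y ∈ FK B x a n := by
  have h3 := (FK B x a n).add_mem hy (FK_mono (Nat.le_add_right n l) (FK_delta h1 h2 hy))
  rwa [add_sub_cancel] at h3

theorem FK_df (h1 : ∀ b ∈ B, τ b - b ∈ FK B x a l)
    (h2 : ∀ i, τ (x i) - (x i : K) ∈ FK B x a (a i + l)) {n : ℕ} {y : K}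
    (hy : y ∈ FK B x a n) (c : ℕ) : (df τ)^[c] y ∈ FK B x a (n + c * l) := by
  induction c with
  | zero => rw [Function.iterate_zero_apply, zero_mul, add_zero]; exact hy
  | succ c ih =>
    rw [Function.iterate_succ_apply']
    have h3 := FK_delta h1 h2 ih
    have e1 : n + c * l + l = n + (c + 1) * l := by ring
    rwa [e1] at h3

end delta

section mult

variable {Λ : Type} [AddCommGroup Λ] {X : Λ → K}

/-- The elements `e` such that `X e = 1` modulo the weight `n` form a group. -/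
def ME (hX0 : X 0 = 1) (hX : ∀ a b, X (a + b) = X a * X b) (L : AddSubgroup Λ)
    (hL : ∀ e ∈ L, X e ∈ B) (x : ι → B) (a : ι → ℕ) (n : ℕ) : AddSubgroup Λ where
  carrier := {e | e ∈ L ∧ X e - 1 ∈ FK B x a n}
  add_mem' := by
    rintro e e' ⟨h1, h2⟩ ⟨h3, h4⟩
    refine ⟨L.add_mem h1 h3, ?_⟩
    have e1 : X (e + e') - 1 = X e * (X e' - 1) + (X e - 1) := by
      rw [hX]
      ring
    rw [e1]
    exact (FK B x a n).add_mem (FK_smul (hL e h1) h4) h2
  zero_mem' := ⟨L.zero_mem, by rw [hX0, sub_self]; exact zero_mem _⟩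
  neg_mem' := by
    rintro e ⟨h1, h2⟩
    refine ⟨L.neg_mem h1, ?_⟩
    have e1 : X (-e) - 1 = -(X (-e) * (X e - 1)) := by
      rw [mul_sub, mul_comm (X (-e)) (X e), X_neg hX0 hX]
      ring
    rw [e1]
    exact (FK B x a n).neg_mem (FK_smul (hL _ (L.neg_mem h1)) h2)

lemma mem_ME {hX0 : X 0 = 1} {hX : ∀ a b, X (a + b) = X a * X b} {L : AddSubgroup Λ}
    {hL : ∀ e ∈ L, X e ∈ B} {n : ℕ} {e : Λ} :
    e ∈ ME hX0 hX L hL x a n ↔ e ∈ L ∧ X e - 1 ∈ FK B x a n := Iff.rfl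

/-- `p`-th powers. -/
lemma FK_pmul (hX0 : X 0 = 1) (hX : ∀ a b, X (a + b) = X a * X b) {p l : ℕ} (hp : p.Prime)
    (hpl : (p : K) ∈ FK B x a ((p - 1) * l)) {e : Λ} (he : X e - 1 ∈ FK B x a l) :
    X (p • e) - 1 ∈ FK B x a (p * l) := by
  rw [X_nsmul hX0 hX]
  set y := X e - 1 with hy
  have hyB : y ∈ B := FK_le he
  obtain ⟨r, hr⟩ := exists_add_pow_prime_eq hp (1 : B) ⟨y, hyB⟩
  have h1 := congrArg Subtype.val hr
  push_cast at h1
  have e1 : X e = 1 + y := by rw [hy]; ring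
  have e2 : X e ^ p - 1 = y ^ p + (r : K) * ((p : K) * y) := by
    rw [e1, h1]
    ring
  rw [e2]
  have h2 := FK_pow (m := p) he
  rw [mul_comm l p] at h2
  have h3 := FK_mul hpl he
  have e3 : (p - 1) * l + l = p * l := by
    obtain ⟨q, rfl⟩ : ∃ q, p = q + 1 := ⟨p - 1, by have := hp.pos; omega⟩
    rw [Nat.add_sub_cancel]
    ring
  rw [e3] at h3
  exact (FK B x a _).add_mem h2 (FK_smul r.2 h3)

end mult

end Pool.Agent.Zk15
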