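import Pool.Agent.Zk15.Asm
import Pool.Agent.R383.TM.NumF
import Pool.Agent.Y223.G.AllW
import Pool.Agent.Y223.G.AllP

/-!
# Number fields
-/

set_option autoImplicit false
set_option linter.unusedVariables false
set_option linter.unusedSectionVars false

open AlgebraicGeometry CategoryTheory CategoryTheory.Limits MvPolynomial NumberField

namespace Pool.Agent.Zk15

open Pool.Agent.Y223.G Pool.Agent.R383.TM

/-- The Laurent monomials. -/
noncomputable def mono {K : Type} [Field K] {n : ℕ} (x : Fin n → K) (m : Fin n → ℤ) : K :=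
  ∏ i, x i ^ m i

lemma mono_zero {K : Type} [Field K] {n : ℕ} (x : Fin n → K) : mono x 0 = 1 := by
  unfold mono
  simp

lemma mono_add {K : Type} [Field K] {n : ℕ} {x : Fin n → K} (hx : ∀ i, x i ≠ 0)
    (a b : Fin n → ℤ) : mono x (a + b) = mono x a * mono x b := by
  unfold mono
  rw [← Finset.prod_mul_distrib]
  exact Finset.prod_congr rfl fun i _ => zpow_add₀ (hx i) _ _

lemma mono_single {K : Type} [Field K] {n : ℕ} (x : Fin n → K) (i : Fin n) :
    mono x (Pi.single i 1) = x i := by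
  classical
  unfold mono
  rw [Finset.prod_eq_single i]
  · rw [Pi.single_eq_same, zpow_one]
  · intro j _ hj
    rw [Pi.single_eq_of_ne hj, zpow_zero]
  · intro h
    exact absurd (Finset.mem_univ i) h

/-- The Laurent monomials are linearly independent. -/
theorem mono_li {M K : Type} [Field M] [Field K] [Algebra M K] {n : ℕ} {x : Fin n → K}
    (hx : AlgebraicIndependent M x) : LinearIndependent M (mono x) := by
  classical
  have hx0 : ∀ i, x i ≠ 0 := hx.ne_zero
  rw [linearIndependent_iff']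
  intro s g hg m hm
  -- a common denominator
  obtain ⟨N, hN⟩ : ∃ N : ℕ, ∀ m ∈ s, ∀ i, 0 ≤ m i + N := by
    refine ⟨∑ m ∈ s, ∑ i, (m i).natAbs, fun m hm i => ?_⟩
    have h1 : (m i).natAbs ≤ ∑ i, (m i).natAbs :=
      Finset.single_le_sum (f := fun i => (m i).natAbs) (fun _ _ => Nat.zero_le _)
        (Finset.mem_univ i)
    have h2 : ∑ i, (m i).natAbs ≤ ∑ m ∈ s, ∑ i, (m i).natAbs :=
      Finset.single_le_sum (f := fun m : Fin n → ℤ => ∑ i, (m i).natAbs)
        (fun _ _ => Nat.zero_le _) hm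
    omega
  let c : (Fin n → ℤ) → (Fin n →₀ ℕ) := fun m =>
    Finsupp.equivFunOnFinite.symm fun i => (m i + N).toNat
  have hc : ∀ m i, c m i = (m i + N).toNat := fun m i => rfl
  have hinj : ∀ m ∈ s, ∀ m' ∈ s, c m = c m' → m = m' := by
    intro m hm m' hm' h
    funext i
    have h1 := DFunLike.congr_fun h i
    rw [hc, hc] at h1
    have h2 := hN m hm i
    have h3 := hN m' hm' i
    omega
  let F : MvPolynomial (Fin n) M := ∑ m ∈ s, monomial (c m) (g m)
  have hF : aeval x F = 0 := by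
    have h1 : aeval x F = mono x (fun _ => (N : ℤ)) * ∑ m ∈ s, g m • mono x m := by
      simp only [F]
      rw [map_sum, Finset.mul_sum]
      refine Finset.sum_congr rfl fun m hm => ?_
      rw [aeval_monomial, Algebra.smul_def, mul_left_comm, ← mono_add hx0]
      congr 1
      unfold mono
      rw [Finsupp.prod_fintype _ _ (fun i => pow_zero _)]
      refine Finset.prod_congr rfl fun i _ => ?_
      rw [hc, ← zpow_natCast, Int.toNat_of_nonneg (hN m hm i), Pi.add_apply, add_comm]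
    rw [h1, hg, mul_zero]
  have hF0 : F = 0 := by
    rw [AlgebraicIndependent] at hx
    apply hx
    rw [hF, map_zero]
  have h2 := congrArg (coeff (c m)) hF0
  simp only [F] at h2
  rw [coeff_sum, coeff_zero, Finset.sum_eq_single m] at h2
  · rwa [coeff_monomial, if_pos rfl] at h2
  · intro m' hm' hne
    rw [coeff_monomial, if_neg]
    intro h
    exact hne (hinj m' hm' m hm h)
  · intro h
    exact absurd hm h

section

variable {E M F K : Type} [Field E] [NumberField E] [Field M] [NumberField M] [Algebra E M]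
  [Field F] [Algebra E F] [Field K] [Algebra M K] [Algebra E K] [IsScalarTower E M K]
  [Algebra F K] [IsScalarTower E F K]

/-- The weights exist. -/
theorem wwd_toric [IsGalois E M]
    (hin : ∀ 𝔓 : Ideal (𝓞 M), 𝔓.IsMaximal → ∀ p : ℕ, p.Prime → (p : 𝓞 M) ∈ 𝔓 →
      ¬ p ^ 2 ∣ Nat.card (Pool.Agent.Y223.G.inert E 𝔓))
    {n : ℕ} (φ : (M ≃ₐ[E] M) →* ((Fin n → ℤ) ≃ₗ[ℤ] (Fin n → ℤ))) {P : Set (Fin n → ℤ)}
    {V : Set ((Fin n → ℤ) × Module.Basis (Fin n) ℤ (Fin n → ℤ))} (hSP : SP P V)
    (hPf : P.Finite) (hPn : P.Nonempty) (hVf : V.Finite) (hφ : ∀ g, ∀ m ∈ P, φ g m ∈ P)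
    (ρ : (M ≃ₐ[E] M) →* (K ≃ₐ[E] K))
    (hρ : ∀ g c, ρ g (algebraMap M K c) = algebraMap M K (g c))
    (hfix : ∀ x, (∀ g, ρ g x = x) ↔ ∃ y : F, algebraMap F K y = x)
    {x : Fin n → K} (hx : AlgebraicIndependent M x)
    (hgen : IntermediateField.adjoin M (Set.range x) = ⊤)
    (hρx : ∀ g m, ρ g (mono x m) = mono x (φ g m)) :
    ∃ (N m : ℕ) (z : Fin (m + 1) → K), 0 < N ∧ WWD E M F K ρ z ∧
      (∀ i, z i ∈ AddSubgroup.closure (mono x '' MS N P)) ∧
      (∀ μ ∈ MS N P, mono x μ ∈ Set.range z) := by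
  have hx0 : ∀ i, x i ≠ 0 := hx.ne_zero
  have hGE := Pool.Agent.Y223.G.ge_of Pool.Agent.Y223.G.all_TAMC ρ hρ hin
  have hli : LinearIndependent (𝓞 M) (mono x) :=
    (mono_li hx).restrict_scalars' (𝓞 M)
  obtain ⟨N, m, z, W, hN, hSPN, hz0, hst, hzD, hPz, hch, hWD⟩ := wd_main (X := mono x) hGE φ
    (mono_zero x) (mono_add hx0) hli (fun g μ => hρx g μ) hSP hPf hPn hVf hφ
  refine ⟨N, m, z, hN, ⟨fun _ => 1, W, ?_, hWD⟩, hzD, hPz⟩
  refine
  { toGE := hGE
    lo := fun o => ⟨algebraMap (𝓞 M) M o, rfl⟩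
    lf := ?_
    fixK := hfix
    z0 := fun _ => hz0
    lin := fun g _ j => ?_
    gen := ?_
    ld := ?_
    rg := ?_ }
  · intro x
    obtain ⟨a, b, hb, rfl⟩ := IsFractionRing.div_surjective (A := 𝓞 M) x
    have hb0 : b ≠ 0 := nonZeroDivisors.ne_zero hb
    have hb' : algebraMap (𝓞 M) M b ≠ 0 := RingOfIntegers.coe_ne_zero_iff.2 hb0
    refine ⟨a, b, hb0, ?_⟩
    rw [IsScalarTower.algebraMap_apply (𝓞 M) M K, IsScalarTower.algebraMap_apply (𝓞 M) M K,
      ← map_mul, div_mul_cancel₀ _ hb']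
  · obtain ⟨i, hi⟩ := hst g j
    rw [hi]
    exact Submodule.subset_span ⟨i, rfl⟩
  · rw [eq_top_iff, ← hgen, IntermediateField.adjoin_le_iff]
    set L := IntermediateField.adjoin M {y : K | ∃ (_ : Unit) (j : Fin (m + 1)), y = z j / z 0}
      with hL
    have hzz : ∀ j j', z j / z j' ∈ L := by
      intro j j'
      have h1 : z j / z 0 ∈ L := IntermediateField.subset_adjoin _ _ ⟨(), j, rfl⟩
      have h2 : z j' / z 0 ∈ L := IntermediateField.subset_adjoin _ _ ⟨(), j', rfl⟩
      have h3 := L.div_mem h1 h2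
      have e : z j / z 0 / (z j' / z 0) = z j / z j' := by
        have := hz0 0
        have := hz0 j'
        field_simp
      rwa [e] at h3
    have hXX : ∀ μ ∈ MS N P, ∀ μ' ∈ MS N P, mono x (μ - μ') ∈ L := by
      intro μ hμ μ' hμ'
      obtain ⟨j, hj⟩ := hPz μ hμ
      obtain ⟨j', hj'⟩ := hPz μ' hμ'
      have h1 : mono x μ = mono x (μ - μ') * mono x μ' := by rw [← mono_add hx0, sub_add_cancel]
      have h2 := hzz j j'
      rw [hj, hj', h1, mul_div_cancel_right₀ _ (X_ne (mono_zero x) (mono_add hx0) _)] at h2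
      exact h2
    -- a vertex
    obtain ⟨μ0, hμ0⟩ := hPn
    obtain ⟨s, hs0, hs, -⟩ := hSP.cvx μ0 hμ0
    obtain ⟨v, hv⟩ := Multiset.exists_mem_of_ne_zero hs0
    obtain ⟨b, hvb⟩ := hs v hv
    have hvN : ((N • v : Fin n → ℤ), b) ∈ MV N V := ⟨v, hvb, rfl⟩
    have hb : ∀ i, mono x (b i) ∈ L := by
      intro i
      have h1 := hXX _ (hSPN.vb _ b hvN i) _ (hSPN.vm _ b hvN)
      rwa [add_sub_cancel_left] at h1
    have hall : ∀ μ : Fin n → ℤ, mono x μ ∈ L := by
      intro μ
      have h1 : μ ∈ GS b (Set.univ : Set (Fin n)) := fun i hi => absurd (Set.mem_univ i) hi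
      refine GS_ind (fun μ => mono x μ ∈ L) ?_ ?_ hb ?_ h1
      · rw [mono_zero]; exact L.one_mem
      · intro a c ha hc
        rw [mono_add hx0]
        exact L.mul_mem ha hc
      · intro i _
        have h2 := L.inv_mem (hb i)
        rwa [← eq_inv_of_mul_eq_one_right (X_neg (mono_zero x) (mono_add hx0) (b i))] at h2
    rintro _ ⟨i, rfl⟩
    rw [← mono_single x i]
    exact hall _
  · intro S ω hω
    have hS : S = ∅ := by
      rw [Finset.eq_empty_iff_forall_notMem]
      intro ω' h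
      exact hω (by cases ω; cases ω'; exact h)
    subst hS
    have h1 : {y : K | ∃ ω' ∈ (∅ : Finset Unit), ∃ j, y = z j / z 0} = ∅ := by
      ext y
      constructor
      · rintro ⟨ω', h, -⟩
        exact absurd h (Finset.notMem_empty _)
      · intro h
        exact absurd h (Set.notMem_empty _)
    rw [h1, IntermediateField.adjoin_empty, IntermediateField.bot_toSubalgebra]
    exact Subalgebra.LinearDisjoint.bot_left _
  · intro J
    have h1 : {y : K | ∃ (ω : Unit) (i : Fin (m + 1)), y = z i / z (J ω)} =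
        Set.range fun i => z i / z (J ()) := by
      ext y
      constructor
      · rintro ⟨ω, i, h⟩
        exact ⟨i, h.symm⟩
      · rintro ⟨i, h⟩
        exact ⟨(), i, h.symm⟩
    rw [h1]
    exact hch (J ())

end

end Pool.Agent.Zk15
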