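import Pool.Agent.Zk15.Fin

/-!
# Flat models of toric varieties
-/

set_option autoImplicit false
set_option linter.unusedSectionVars false

open scoped Pointwise

open NumberField Pool.Agent.W418

namespace Pool.Agent.Zk15

/-- Good modules for the products of the coordinates. -/
lemma good_pow {O F : Type} [CommRing O] [Field F] [Algebra O F] {ι κ : Type} {u : ι → F}
    {v : κ → F} {N : ℕ} (hN : 0 < N) (h : Set.range v = Set.range u ^ N)
    (hv : GoodModule O v) : GoodModule O u := by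
  obtain ⟨D, M, hD, h1, h2, h3, h4, h5⟩ := hv
  rw [h, ← pow_mul] at h3 h4
  exact ⟨N * D, M, Nat.mul_pos hN hD, h1, h2, h3, h4, h5⟩

lemma mono_pow {K : Type} [Field K] {n : ℕ} {x : Fin n → K} (hx : ∀ i, x i ≠ 0)
    (P : Set (Fin n → ℤ)) (N : ℕ) : (mono x '' P) ^ N = mono x '' MS N P := by
  induction N with
  | zero =>
    rw [pow_zero]
    ext y
    rw [Set.mem_one]
    constructor
    · rintro rfl
      exact ⟨0, ⟨0, Multiset.card_zero, fun _ h => absurd h (Multiset.notMem_zero _),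
        Multiset.sum_zero⟩, mono_zero x⟩
    · rintro ⟨m, ⟨s, hs, -, rfl⟩, rfl⟩
      rw [Multiset.card_eq_zero.1 hs, Multiset.sum_zero, mono_zero]
  | succ N ih =>
    rw [pow_succ, ih]
    ext y
    rw [Set.mem_mul]
    constructor
    · rintro ⟨_, ⟨m, ⟨s, hs, hsP, rfl⟩, rfl⟩, _, ⟨a, ha, rfl⟩, rfl⟩
      refine ⟨s.sum + a, ⟨a ::ₘ s, ?_, ?_, ?_⟩, mono_add hx _ _⟩
      · rw [Multiset.card_cons, hs]
      · intro b hb
        rcases Multiset.mem_cons.1 hb with rfl | hb
        · exact ha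
        · exact hsP b hb
      · rw [Multiset.sum_cons, add_comm]
    · rintro ⟨m, ⟨s, hs, hsP, rfl⟩, rfl⟩
      obtain ⟨a, s', rfl, hs'⟩ := Multiset.card_eq_succ_iff.1 hs
      refine ⟨mono x s'.sum, ⟨s'.sum, ⟨s', hs', fun b hb => hsP b (Multiset.mem_cons_of_mem hb),
        rfl⟩, rfl⟩, mono x a, ⟨a, hsP a (Multiset.mem_cons_self _ _), rfl⟩, ?_⟩
      rw [Multiset.sum_cons, add_comm a, mono_add hx]

end Pool.Agent.Zk15
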