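import Pool.Agent.Zk15.Flat

/-!
# Flat models of toric varieties: the modules
-/

set_option autoImplicit false
set_option linter.unusedSectionVars false

open scoped Pointwise

open NumberField Pool.Agent.W418

namespace Pool.Agent.Zk15

open Pool.Agent.Y223.G Pool.Agent.R383.TM

variable {E M F K : Type} [Field E] [NumberField E] [Field M] [NumberField M] [Algebra E M]
  [Field F] [Algebra E F] [Field K] [Algebra M K] [Algebra E K] [IsScalarTower E M K]
  [Algebra F K] [IsScalarTower E F K]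

/-- Smooth projective toric varieties have good modules. -/
theorem toric_good [IsGalois E M]
    (hin : ∀ 𝔓 : Ideal (𝓞 M), 𝔓.IsMaximal → ∀ p : ℕ, p.Prime → (p : 𝓞 M) ∈ 𝔓 →
      ¬ p ^ 2 ∣ Nat.card (Pool.Agent.Y223.G.inert E 𝔓))
    {n : ℕ} (φ : (M ≃ₐ[E] M) →* ((Fin n → ℤ) ≃ₗ[ℤ] (Fin n → ℤ))) {P : Set (Fin n → ℤ)}
    {V : Set ((Fin n → ℤ) × Module.Basis (Fin n) ℤ (Fin n → ℤ))} (hSP : SP P V)
    (hPf : P.Finite) (hPn : P.Nonempty) (hVf : V.Finite) (hφ : ∀ g, ∀ m ∈ P, φ g m ∈ P)
    (ρ : (M ≃ₐ[E] M) →* (K ≃ₐ[E] K))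
    (hρ : ∀ g c, ρ g (algebraMap M K c) = algebraMap M K (g c))
    (hfix : ∀ x, (∀ g, ρ g x = x) ↔ ∃ y : F, algebraMap F K y = x)
    {x : Fin n → K} (hx : AlgebraicIndependent M x)
    (hgen : IntermediateField.adjoin M (Set.range x) = ⊤)
    (hρx : ∀ g m, ρ g (mono x m) = mono x (φ g m))
    {ι : Type} [Finite ι] (u : ι → F)
    (hseg : Submodule.span M (Set.range fun i => algebraMap F K (u i)) =
      Submodule.span M (mono x '' P)) :
    GoodModule (𝓞 E) u := by
  classical
  have hx0 : ∀ i, x i ≠ 0 := hx.ne_zero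
  obtain ⟨N, m, z, hN, hD, hz1, hz2⟩ := wwd_toric (F := F) (K := K) hin φ hSP hPf hPn hVf hφ
    ρ hρ hfix hx hgen hρx
  have hfin : ∀ N : ℕ, (Set.range u ^ N).Finite := by
    intro N
    induction N with
    | zero => rw [pow_zero]; exact Set.finite_one
    | succ N ih => rw [pow_succ]; exact ih.mul (Set.finite_range u)
  have hfin' : Finite ↥(Set.range u ^ N) := hfin N
  refine good_pow (v := fun y : ↥(Set.range u ^ N) => (y : F)) hN Subtype.range_coe ?_
  refine tm_good all_LINW all_CHW all_RWB Pool.Agent.Y614.H.RegL.t_REGL hD _ ?_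
  have h1 : (Set.range fun y : ↥(Set.range u ^ N) => algebraMap F K (y : F)) =
      (Set.range fun i => algebraMap F K (u i)) ^ N := by
    have h2 : (Set.range fun y : ↥(Set.range u ^ N) => algebraMap F K (y : F)) =
        algebraMap F K '' (Set.range u ^ N) := by
      ext y
      constructor
      · rintro ⟨a, rfl⟩
        exact ⟨a, a.2, rfl⟩
      · rintro ⟨a, ha, rfl⟩
        exact ⟨⟨a, ha⟩, rfl⟩
    rw [h2, Set.image_pow, ← Set.range_comp]
    rfl
  rw [h1, ← Submodule.span_pow, hseg, Submodule.span_pow, mono_pow hx0]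
  apply le_antisymm
  · rw [Submodule.span_le]
    rintro _ ⟨μ, hμ, rfl⟩
    exact Submodule.subset_span (hz2 μ hμ)
  · rw [Submodule.span_le]
    rintro _ ⟨i, rfl⟩
    have h3 := hz1 i
    have h4 : AddSubgroup.closure (mono x '' MS N P) ≤
        (Submodule.span M (mono x '' MS N P)).toAddSubgroup := by
      rw [AddSubgroup.closure_le]
      exact Submodule.subset_span
    exact h4 h3

/-- The polytope is stable. -/
theorem toric_stable {n : ℕ} (φ : (M ≃ₐ[E] M) →* ((Fin n → ℤ) ≃ₗ[ℤ] (Fin n → ℤ)))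
    {P : Set (Fin n → ℤ)} (ρ : (M ≃ₐ[E] M) →* (K ≃ₐ[E] K))
    (hρ : ∀ g c, ρ g (algebraMap M K c) = algebraMap M K (g c))
    (hfix : ∀ x, (∀ g, ρ g x = x) ↔ ∃ y : F, algebraMap F K y = x)
    {x : Fin n → K} (hx : AlgebraicIndependent M x)
    (hρx : ∀ g m, ρ g (mono x m) = mono x (φ g m))
    {ι : Type} (u : ι → F)
    (hseg : Submodule.span M (Set.range fun i => algebraMap F K (u i)) =
      Submodule.span M (mono x '' P)) : ∀ g, ∀ m ∈ P, φ g m ∈ P := by
  intro g m hm
  have h1 : ∀ y ∈ Submodule.span M (Set.range fun i => algebraMap F K (u i)),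
      ρ g y ∈ Submodule.span M (Set.range fun i => algebraMap F K (u i)) := by
    intro y hy
    induction hy using Submodule.span_induction with
    | mem y hy =>
      obtain ⟨i, rfl⟩ := hy
      have h2 := (hfix (algebraMap F K (u i))).2 ⟨u i, rfl⟩ g
      simp only [h2]
      exact Submodule.subset_span ⟨i, rfl⟩
    | zero => rw [map_zero]; exact zero_mem _
    | add a b _ _ ha hb => rw [map_add]; exact add_mem ha hb
    | smul c a _ ha =>
      rw [Algebra.smul_def, map_mul, hρ, ← Algebra.smul_def]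
      exact Submodule.smul_mem _ _ ha
  have h2 : mono x m ∈ Submodule.span M (Set.range fun i => algebraMap F K (u i)) := by
    rw [hseg]
    exact Submodule.subset_span ⟨m, hm, rfl⟩
  have h3 := h1 _ h2
  rw [hρx, hseg] at h3
  by_contra h4
  exact (mono_li hx).notMem_span_image h4 h3

end Pool.Agent.Zk15
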