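import Pool.Agent.Zk15.Fp9

/-!
# The base: integral closures in function fields of one variable
-/

set_option autoImplicit false
set_option linter.unusedVariables false
set_option linter.unusedSectionVars false
set_option linter.overlappingInstances false

namespace Pool.Agent.Zk15

section

variable {k M : Type} [Field k] [Field M] [Algebra k M]

/-- The localization `S[1/u]`. -/
def LS (S : Subalgebra k M) (u : M) (hu : u ∈ S) : Subalgebra k M where
  carrier := {x | ∃ n : ℕ, u ^ n * x ∈ S}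
  mul_mem' := by
    rintro a b ⟨n, ha⟩ ⟨m, hb⟩
    refine ⟨n + m, ?_⟩
    have h1 := mul_mem ha hb
    have e : u ^ (n + m) * (a * b) = u ^ n * a * (u ^ m * b) := by ring
    rwa [e]
  add_mem' := by
    rintro a b ⟨n, ha⟩ ⟨m, hb⟩
    refine ⟨n + m, ?_⟩
    have h1 := add_mem (mul_mem (pow_mem hu m) ha) (mul_mem (pow_mem hu n) hb)
    have e : u ^ (n + m) * (a + b) = u ^ m * (u ^ n * a) + u ^ n * (u ^ m * b) := by ring
    rwa [e]
  algebraMap_mem' := fun c => ⟨0, by rw [pow_zero, one_mul]; exact S.algebraMap_mem c⟩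

lemma mem_LS {S : Subalgebra k M} {u : M} {hu : u ∈ S} {x : M} :
    x ∈ LS S u hu ↔ ∃ n : ℕ, u ^ n * x ∈ S := Iff.rfl

lemma LS_le (S : Subalgebra k M) (u : M) (hu : u ∈ S) : S ≤ LS S u hu := fun x hx =>
  ⟨0, by rwa [pow_zero, one_mul]⟩

/-- The localization as an algebra. -/
@[reducible] def LSalg (S : Subalgebra k M) (u : M) (hu : u ∈ S) : Algebra S (LS S u hu) :=
  (Subalgebra.inclusion (LS_le S u hu)).toRingHom.toAlgebra

theorem LS_loc (S : Subalgebra k M) (u : M) (hu : u ∈ S) (hu0 : u ≠ 0) :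
    letI := LSalg S u hu
    IsLocalization (Submonoid.powers (⟨u, hu⟩ : S)) (LS S u hu) := by
  let _ := LSalg S u hu
  constructor
  constructor
  · rintro ⟨_, n, rfl⟩
    refine IsUnit.of_mul_eq_one (⟨(u ^ n)⁻¹, n, ?_⟩ : LS S u hu) ?_
    · rw [mul_inv_cancel₀ (pow_ne_zero _ hu0)]
      exact one_mem _
    · apply Subtype.ext
      change u ^ n * (u ^ n)⁻¹ = 1
      exact mul_inv_cancel₀ (pow_ne_zero _ hu0)
  · rintro ⟨x, n, h⟩
    refine ⟨(⟨u ^ n * x, h⟩, ⟨_, n, rfl⟩), ?_⟩
    apply Subtype.ext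
    change x * u ^ n = u ^ n * x
    exact mul_comm _ _
  · intro x y h
    refine ⟨1, ?_⟩
    have h1 : (x : M) = y := congrArg (fun z : LS S u hu => (z : M)) h
    rw [Subtype.ext h1]

theorem LS_ded (S : Subalgebra k M) (u : M) (hu : u ∈ S) (hu0 : u ≠ 0) [IsDedekindDomain S] :
    IsDedekindDomain (LS S u hu) := by
  let _ := LSalg S u hu
  have := LS_loc S u hu hu0
  refine IsLocalization.isDedekindDomain S (M := Submonoid.powers (⟨u, hu⟩ : S)) ?_ (LS S u hu)
  apply powers_le_nonZeroDivisors_of_noZeroDivisors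
  intro h
  exact hu0 (congrArg Subtype.val h)

theorem LS_ft (S : Subalgebra k M) (u : M) (hu : u ∈ S) (hu0 : u ≠ 0) [Algebra.FiniteType k S] :
    Algebra.FiniteType k (LS S u hu) := by
  let _ := LSalg S u hu
  have := LS_loc S u hu hu0
  have : IsScalarTower k S (LS S u hu) := IsScalarTower.of_algebraMap_eq fun x => rfl
  have : Algebra.FiniteType S (LS S u hu) :=
    IsLocalization.finiteType_of_monoid_fg (Submonoid.powers (⟨u, hu⟩ : S)) _
  exact Algebra.FiniteType.trans (inferInstance : Algebra.FiniteType k S) this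

theorem LS_int (S : Subalgebra k M) (u : M) (hu : u ∈ S) (hu0 : u ≠ 0) {x : M}
    (hx : IsIntegral (LS S u hu) x) : ∃ n : ℕ, IsIntegral S (u ^ n * x) := by
  let _ := LSalg S u hu
  have := LS_loc S u hu hu0
  have : IsScalarTower S (LS S u hu) M := IsScalarTower.of_algebraMap_eq fun x => rfl
  obtain ⟨⟨_, n, rfl⟩, hm⟩ := IsIntegral.exists_multiple_integral_of_isLocalization
    (Submonoid.powers (⟨u, hu⟩ : S)) x hx
  refine ⟨n, ?_⟩
  exact hm

lemma int_mono {S S' : Subalgebra k M} (h : S ≤ S') {x : M} (hx : IsIntegral S x) :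
    IsIntegral S' x := by
  obtain ⟨P, hP, h0⟩ := hx
  refine ⟨P.map (Subalgebra.inclusion h).toRingHom, hP.map _, ?_⟩
  rw [Polynomial.eval₂_map]
  exact h0

variable (k)

/-- The integral closure of `k[t]`. -/
def IC (t : M) : Subalgebra k M where
  carrier := {x | IsIntegral (Algebra.adjoin k {t}) x}
  mul_mem' := fun {a b} ha hb => IsIntegral.mul ha hb
  add_mem' := fun {a b} ha hb => IsIntegral.add ha hb
  algebraMap_mem' := fun c => by
    exact isIntegral_algebraMap (R := Algebra.adjoin k {t}) (A := M) (x := algebraMap k _ c)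

variable {k}

lemma mem_IC {t x : M} : x ∈ IC k t ↔ IsIntegral (Algebra.adjoin k {t}) x := Iff.rfl

lemma IC_t (t : M) : t ∈ IC k t :=
  isIntegral_algebraMap (R := Algebra.adjoin k {t}) (A := M)
    (x := ⟨t, Algebra.self_mem_adjoin_singleton k t⟩)

theorem IC_h1 {t : M} (ht : t ≠ 0) {x : M} (hx : x ∈ IC k t⁻¹) : ∃ n : ℕ, t ^ n * x ∈ IC k t := by
  have hx : IsIntegral (Algebra.adjoin k {t⁻¹}) x := hx
  have ht1 := Algebra.self_mem_adjoin_singleton k t
  have h1 : Algebra.adjoin k {t⁻¹} ≤ LS (Algebra.adjoin k {t}) t ht1 := by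
    rw [Algebra.adjoin_le_iff, Set.singleton_subset_iff]
    refine ⟨1, ?_⟩
    rw [pow_one, mul_inv_cancel₀ ht]
    exact one_mem _
  exact LS_int _ t ht1 ht (int_mono h1 hx)

theorem IC_h2 {t : M} (ht : t ≠ 0) {x : M} (hx : x ∈ IC k t) :
    ∃ n : ℕ, t⁻¹ ^ n * x ∈ IC k t⁻¹ :=
  IC_h1 (inv_ne_zero ht) (by rwa [inv_inv])

lemma IC_map {t : M} (σ : M ≃ₐ[k] M) (hσ : σ t = t) {x : M} (hx : x ∈ IC k t) :
    σ x ∈ IC k t := by
  have h0 : ∀ y ∈ Algebra.adjoin k {t}, σ y = y := by
    intro y hy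
    induction hy using Algebra.adjoin_induction with
    | mem x hx => rw [Set.mem_singleton_iff.1 hx, hσ]
    | algebraMap r => exact AlgEquiv.commutes _ _
    | add x y _ _ hx hy => rw [map_add, hx, hy]
    | mul x y _ _ hx hy => rw [map_mul, hx, hy]
  let f : M →ₐ[Algebra.adjoin k {t}] M :=
    { toRingHom := (σ : M →+* M), commutes' := fun y => h0 y y.2 }
  exact IsIntegral.map f hx

end

end Pool.Agent.Zk15
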