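import Pool.Agent.Zk15.Fp10

/-!
# Integral closures in function fields of one variable are Dedekind domains
-/

set_option autoImplicit false
set_option linter.unusedVariables false
set_option linter.unusedSectionVars false
set_option linter.overlappingInstances false

namespace Pool.Agent.Zk15

open IntermediateField.algebraAdjoinAdjoin in
theorem IC_ok {k M : Type} [Field k] [Field M] [Algebra k M] {t : M} (ht : Transcendental k t)
    (F : IntermediateField k M) (hF : F = IntermediateField.adjoin k {t})
    [FiniteDimensional F M] [Algebra.IsSeparable F M] :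
    IsDedekindDomain (IC k t) ∧ Algebra.FiniteType k (IC k t) ∧
      ∀ x : M, ∃ a b, a ∈ IC k t ∧ b ∈ IC k t ∧ b ≠ 0 ∧ x = a / b := by
  subst hF
  have hpid : IsPrincipalIdealRing (Algebra.adjoin k {t}) :=
    IsPrincipalIdealRing.of_surjective
      (Polynomial.algEquivOfTranscendental k t ht : Polynomial k →+* Algebra.adjoin k {t})
      (Polynomial.algEquivOfTranscendental k t ht).surjective
  have hft : Algebra.FiniteType k (Algebra.adjoin k {t}) :=
    (inferInstance : Algebra.FiniteType k (Polynomial k)).equiv
      (Polynomial.algEquivOfTranscendental k t ht)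
  have h1 : IsDedekindDomain (integralClosure (Algebra.adjoin k {t}) M) :=
    integralClosure.isDedekindDomain (Algebra.adjoin k {t}) (IntermediateField.adjoin k {t}) M
  have h2 : Module.Finite (Algebra.adjoin k {t}) (integralClosure (Algebra.adjoin k {t}) M) :=
    IsIntegralClosure.finite (Algebra.adjoin k {t}) (IntermediateField.adjoin k {t}) M _
  have h3 : IsFractionRing (integralClosure (Algebra.adjoin k {t}) M) M :=
    integralClosure.isFractionRing_of_finite_extension (A := Algebra.adjoin k {t})
      (IntermediateField.adjoin k {t}) M
  have h4 : Algebra.FiniteType k (integralClosure (Algebra.adjoin k {t}) M) :=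
    Algebra.FiniteType.trans hft inferInstance
  let e : integralClosure (Algebra.adjoin k {t}) M ≃ₐ[k] IC k t :=
    { toFun := fun x => ⟨x.1, x.2⟩
      invFun := fun x => ⟨x.1, x.2⟩
      left_inv := fun x => rfl
      right_inv := fun x => rfl
      map_mul' := fun x y => rfl
      map_add' := fun x y => rfl
      commutes' := fun c => rfl }
  refine ⟨?_, h4.equiv e, ?_⟩
  · exact h1
  · intro x
    obtain ⟨a, b, hb, h⟩ := IsFractionRing.div_surjective
      (A := integralClosure (Algebra.adjoin k {t}) M) x
    refine ⟨a, b, a.2, b.2, ?_, h.symm⟩
    intro h0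
    exact nonZeroDivisors.ne_zero hb (Subtype.ext h0)

end Pool.Agent.Zk15
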