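import Pool.Agent.Zk15.Fp12

/-!
# Two affine pieces of a projective curve with an action: an invariant function
-/

set_option autoImplicit false
set_option linter.unusedVariables false
set_option linter.unusedSectionVars false
set_option linter.overlappingInstances false

namespace Pool.Agent.Zk15

section

variable {k M G : Type} [Field k] [Field M] [Algebra k M] [Group G]

/-- The prime of `A₂` which corresponds to the prime `P` of `A₁`, not containing `t`. -/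
def trP (A₁ A₂ : Subalgebra k M) {t : M} (ht₁ : t ∈ A₁) (h1 : ∀ x ∈ A₂, ∃ n : ℕ, t ^ n * x ∈ A₁)
    (P : Ideal A₁) : Ideal A₂ where
  carrier := {x | ∃ (n : ℕ) (y : A₁), y ∈ P ∧ (y : M) = t ^ n * x}
  add_mem' := by
    rintro a b ⟨n, y, hy, e⟩ ⟨m, z, hz, f⟩
    refine ⟨n + m, (⟨t, ht₁⟩ : A₁) ^ m * y + (⟨t, ht₁⟩ : A₁) ^ n * z,
      P.add_mem (P.mul_mem_left _ hy) (P.mul_mem_left _ hz), ?_⟩
    push_cast
    rw [e, f]
    ring
  zero_mem' := ⟨0, 0, P.zero_mem, by push_cast; ring⟩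
  smul_mem' := by
    rintro c x ⟨n, y, hy, e⟩
    obtain ⟨l, hl⟩ := h1 c c.2
    refine ⟨n + l, ⟨_, hl⟩ * y, P.mul_mem_left _ hy, ?_⟩
    rw [smul_eq_mul]
    push_cast
    rw [e]
    ring

lemma mem_trP {A₁ A₂ : Subalgebra k M} {t : M} {ht₁ : t ∈ A₁}
    {h1 : ∀ x ∈ A₂, ∃ n : ℕ, t ^ n * x ∈ A₁} {P : Ideal A₁} {x : A₂} :
    x ∈ trP A₁ A₂ ht₁ h1 P ↔ ∃ (n : ℕ) (y : A₁), y ∈ P ∧ (y : M) = t ^ n * x := Iff.rfl

lemma trP_mem {A₁ A₂ : Subalgebra k M} {t : M} (ht₁ : t ∈ A₁)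
    (h1 : ∀ x ∈ A₂, ∃ n : ℕ, t ^ n * x ∈ A₁) {P : Ideal A₁} (hP : P.IsPrime)
    (htP : (⟨t, ht₁⟩ : A₁) ∉ P) {x : A₂} (hx : x ∈ trP A₁ A₂ ht₁ h1 P) {l : ℕ} {y : A₁}
    (hy : (y : M) = t ^ l * x) : y ∈ P := by
  obtain ⟨n, z, hz, e⟩ := hx
  have h2 : (⟨t, ht₁⟩ : A₁) ^ n * y = (⟨t, ht₁⟩ : A₁) ^ l * z := by
    apply Subtype.ext
    push_cast
    rw [hy, e]
    ring
  have h3 : (⟨t, ht₁⟩ : A₁) ^ n * y ∈ P := by
    rw [h2]
    exact P.mul_mem_left _ hz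
  rcases hP.mem_or_mem h3 with h | h
  · exact absurd (hP.mem_of_pow_mem _ h) htP
  · exact h

lemma trP_prime {A₁ A₂ : Subalgebra k M} {t : M} (ht₁ : t ∈ A₁)
    (h1 : ∀ x ∈ A₂, ∃ n : ℕ, t ^ n * x ∈ A₁) {P : Ideal A₁} (hP : P.IsPrime)
    (htP : (⟨t, ht₁⟩ : A₁) ∉ P) : (trP A₁ A₂ ht₁ h1 P).IsPrime := by
  refine ⟨?_, ?_⟩
  · intro h
    have h2 : (1 : A₂) ∈ trP A₁ A₂ ht₁ h1 P := by
      rw [h]
      trivial
    have h3 := trP_mem ht₁ h1 hP htP h2 (l := 0) (y := 1) (by push_cast; ring)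
    exact hP.ne_top ((Ideal.eq_top_iff_one _).2 h3)
  · intro x x' hxx
    obtain ⟨l, hl⟩ := h1 x x.2
    obtain ⟨l', hl'⟩ := h1 x' x'.2
    have h3 := trP_mem ht₁ h1 hP htP hxx (l := l + l') (y := ⟨_, hl⟩ * ⟨_, hl'⟩)
      (by push_cast; ring)
    rcases hP.mem_or_mem h3 with h | h
    · exact Or.inl ⟨l, _, h, rfl⟩
    · exact Or.inr ⟨l', _, h, rfl⟩

/-- An invariant function on the second affine piece. -/
theorem twoAff [Finite G] (ρ : G →* (M ≃ₐ[k] M)) (hρ : Function.Injective ρ)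
    (A₁ A₂ : Subalgebra k M) [IsDedekindDomain A₁] [IsDedekindDomain A₂]
    (hG₁ : ∀ g, ∀ x ∈ A₁, ρ g x ∈ A₁) (hG₂ : ∀ g, ∀ x ∈ A₂, ρ g x ∈ A₂)
    (hfr₂ : ∀ x : M, ∃ a b, a ∈ A₂ ∧ b ∈ A₂ ∧ b ≠ 0 ∧ x = a / b)
    {t : M} (ht0 : t ≠ 0) (htρ : ∀ g, ρ g t = t) (ht₁ : t ∈ A₁) (ht₂ : t⁻¹ ∈ A₂)
    (h1 : ∀ x ∈ A₂, ∃ n : ℕ, t ^ n * x ∈ A₁) (h2 : ∀ x ∈ A₁, ∃ n : ℕ, t⁻¹ ^ n * x ∈ A₂) :
    ∃ (u : M) (hu : u ∈ A₂) (huρ : ∀ g, ρ g u = u), u ≠ 0 ∧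
      (∀ V : ValuationSubring M, (∀ x ∈ A₂, x ∈ V) → t ∉ V → u⁻¹ ∈ V) ∧
      (∀ P ∈ F.Ram (TS ρ (LS A₂ u hu) (LS_stable hG₂ hu huρ)),
        (⟨t⁻¹, LS_le A₂ u hu ht₂⟩ : LS A₂ u hu) ∈ P) ∧
      ∃ (j : ℕ) (w : A₁), (w : M) = t ^ j * u ∧
        ∀ P ∈ F.Ram (TS ρ A₁ hG₁), (⟨t, ht₁⟩ : A₁) ∉ P → w ∈ P := by
  classical
  have := Fintype.ofFinite G
  have hT₂ := TS_inj hρ hG₂ hfr₂
  obtain ⟨a, b, ha0, hab, hav⟩ := exists_van (⟨t⁻¹, ht₂⟩ : A₂) _ (ram_fin (TS ρ A₂ hG₂) hT₂)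
    (fun P hP => hP.1) (fun P hP => hP.2.1)
  let T₂ := TS ρ A₂ hG₂
  let U : A₂ := ∏ g : G, T₂ g a
  have hU0 : U ≠ 0 := Finset.prod_ne_zero_iff.2 fun g _ => by
    rw [Ne, EmbeddingLike.map_eq_zero_iff]
    exact ha0
  have hUG : ∀ g, T₂ g U = U := by
    intro g
    rw [map_prod]
    refine Fintype.prod_equiv (Equiv.mulLeft g) _ _ fun h => ?_
    rw [Equiv.coe_mulLeft, map_mul, AlgEquiv.mul_apply]
  have hUa : ∀ P : Ideal A₂, a ∈ P → U ∈ P := by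
    intro P hP
    have h3 : U = T₂ 1 a * ∏ g ∈ Finset.univ.erase (1 : G), T₂ g a :=
      (Finset.mul_prod_erase Finset.univ (fun g => T₂ g a) (Finset.mem_univ 1)).symm
    rw [h3, map_one, AlgEquiv.one_apply]
    exact P.mul_mem_right _ hP
  have huρ : ∀ g, ρ g (U : M) = U := fun g => congrArg Subtype.val (hUG g)
  have hu0 : (U : M) ≠ 0 := fun h => hU0 (Subtype.ext h)
  refine ⟨U, U.2, huρ, hu0, ?_, ?_, ?_⟩
  · intro V hV htV
    have hUe : (U : M) = ∏ g : G, ρ g (a : M) := by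
      change ((∏ g : G, T₂ g a : A₂) : M) = _
      push_cast
      rfl
    rw [hUe, ← Finset.prod_inv_distrib]
    refine prod_mem fun g _ => ?_
    have h3 : ρ g (a : M) + ρ g (b : M) * t⁻¹ = 1 := by
      have h4 := congrArg (fun z : A₂ => ρ g (z : M)) hab
      push_cast at h4
      rwa [map_add, map_mul, map_one, map_inv₀, htρ] at h4
    have h4 : V.valuation (ρ g (b : M) * t⁻¹) < 1 := by
      rw [map_mul, map_inv₀]
      have h5 : V.valuation (ρ g (b : M)) ≤ 1 :=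
        (V.valuation_le_one_iff _).2 (hV _ (hG₂ g _ b.2))
      have h6 : 1 < V.valuation t := by
        rw [← not_le, V.valuation_le_one_iff]
        exact htV
      have h7 : (V.valuation t)⁻¹ < 1 := inv_lt_one_of_one_lt₀ h6
      calc V.valuation (ρ g (b : M)) * (V.valuation t)⁻¹ ≤ 1 * (V.valuation t)⁻¹ := by gcongr
        _ < 1 := by rwa [one_mul]
    have h5 : V.valuation (ρ g (a : M)) = 1 := by
      have h6 : ρ g (a : M) = 1 - ρ g (b : M) * t⁻¹ := by rw [← h3]; ring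
      rw [h6]
      exact Valuation.map_one_sub_of_lt _ h4
    rw [← V.valuation_le_one_iff, map_inv₀, h5, inv_one]
  · intro P hP
    obtain ⟨hPm, hP0, g, hg, hgo⟩ := hP
    by_contra htP
    let P' : Ideal A₂ := P.comap (Subalgebra.inclusion (LS_le A₂ (U : M) U.2))
    have hP'p : P'.IsPrime := by
      have := hPm.isPrime
      exact Ideal.IsPrime.comap _
    have hP'0 : P' ≠ ⊥ := by
      obtain ⟨⟨x, n, hx⟩, hxP, hx0⟩ := Submodule.exists_mem_ne_zero_of_ne_bot hP0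
      intro h
      have h3 : (⟨(U : M) ^ n * x, hx⟩ : A₂) ∈ P' := by
        change (⟨(U : M) ^ n * x, _⟩ : LS A₂ (U : M) U.2) ∈ P
        have h4 : (⟨(U : M) ^ n * x, LS_le _ _ _ hx⟩ : LS A₂ (U : M) U.2) =
            (⟨(U : M), LS_le _ _ _ U.2⟩ : LS A₂ (U : M) U.2) ^ n * ⟨x, n, hx⟩ := by
          apply Subtype.ext
          push_cast
          rfl
        rw [h4]
        exact P.mul_mem_left _ hxP
      rw [h, Ideal.mem_bot] at h3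
      have h4 : (U : M) ^ n * x = 0 := congrArg Subtype.val h3
      have h5 : x ≠ 0 := fun h => hx0 (Subtype.ext h)
      exact mul_ne_zero (pow_ne_zero _ hu0) h5 h4
    have hP'm := hP'p.isMaximal hP'0
    have hP'R : P' ∈ F.Ram T₂ := by
      refine ⟨hP'm, hP'0, g, hg, fun o => ?_⟩
      have h3 := hgo (Subalgebra.inclusion (LS_le A₂ (U : M) U.2) o)
      exact h3
    have h3 := hUa P' (hav P' hP'R htP)
    have h4 : (⟨(U : M), LS_le _ _ _ U.2⟩ : LS A₂ (U : M) U.2) ∈ P := h3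
    have h5 : (U : M)⁻¹ ∈ LS A₂ (U : M) U.2 := ⟨1, by
      rw [pow_one, mul_inv_cancel₀ hu0]
      exact one_mem _⟩
    have h6 := P.mul_mem_left ⟨_, h5⟩ h4
    apply hPm.ne_top
    rw [Ideal.eq_top_iff_one]
    have h7 : (⟨_, h5⟩ : LS A₂ (U : M) U.2) * ⟨(U : M), LS_le _ _ _ U.2⟩ = 1 := by
      apply Subtype.ext
      push_cast
      exact inv_mul_cancel₀ hu0
    rwa [h7] at h6
  · obtain ⟨j, hj⟩ := h1 U U.2
    refine ⟨j, ⟨_, hj⟩, rfl, ?_⟩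
    intro P hP htP
    obtain ⟨hPm, hP0, g, hg, hgo⟩ := hP
    have hPp := hPm.isPrime
    have hQp := trP_prime ht₁ h1 hPp htP
    refine trP_mem ht₁ h1 hPp htP (x := U) ?_ rfl
    apply hUa
    apply hav
    · have hQ0 : trP A₁ A₂ ht₁ h1 P ≠ ⊥ := by
        obtain ⟨x, hxP, hx0⟩ := Submodule.exists_mem_ne_zero_of_ne_bot hP0
        obtain ⟨n, hn⟩ := h2 x x.2
        intro h
        have h3 : (⟨_, hn⟩ : A₂) ∈ trP A₁ A₂ ht₁ h1 P := by
          refine ⟨n, x, hxP, ?_⟩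
          change (x : M) = t ^ n * (t⁻¹ ^ n * x)
          rw [← mul_assoc, ← mul_pow, mul_inv_cancel₀ ht0, one_pow, one_mul]
        rw [h, Ideal.mem_bot] at h3
        have h4 : t⁻¹ ^ n * (x : M) = 0 := congrArg Subtype.val h3
        have h5 : (x : M) ≠ 0 := fun h => hx0 (Subtype.ext h)
        exact mul_ne_zero (pow_ne_zero _ (inv_ne_zero ht0)) h5 h4
      refine ⟨hQp.isMaximal hQ0, hQ0, g, hg, ?_⟩
      intro o
      obtain ⟨n, hn⟩ := h1 o o.2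
      refine ⟨n, _, hgo ⟨_, hn⟩, ?_⟩
      push_cast
      rw [TS_coe, TS_coe]
      change ρ g (t ^ n * o) - t ^ n * o = t ^ n * (ρ g o - o)
      rw [map_mul, map_pow, htρ]
      ring
    · intro h
      have h3 := trP_mem ht₁ h1 hPp htP h (l := 1) (y := 1) (by
        push_cast
        rw [pow_one, mul_inv_cancel₀ ht0])
      exact hPp.ne_top ((Ideal.eq_top_iff_one _).2 h3)

end

end Pool.Agent.Zk15
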