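import Pool.Agent.Zk15.Fp13

/-!
# The change of base between two affine pieces
-/

set_option autoImplicit false
set_option linter.unusedVariables false
set_option linter.unusedSectionVars false
set_option linter.overlappingInstances false

namespace Pool.Agent.Zk15

open Pool.Agent.Y515.G (ext_val int_mem)

section

variable {k M G K : Type} [Field k] [Field M] [Algebra k M] [Group G] [Field K] [Algebra M K]
  [Algebra k K] [IsScalarTower k M K]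

lemma LS_inv {S : Subalgebra k M} {c : M} {hc : c ∈ S} {x : M} (hx : c * x ∈ S) :
    x ∈ LS S c hc := ⟨1, by rwa [pow_one]⟩

lemma fin_bd {β : Type} [Finite β] (f : β → ℕ) : ∃ N, ∀ b, f b ≤ N := by
  obtain ⟨N, hN⟩ := (Set.finite_range f).bddAbove
  exact ⟨N, fun b => hN ⟨b, rfl⟩⟩

lemma pow_up {S : Subalgebra k M} {t : M} (ht : t ∈ S) {n N : ℕ} (h : n ≤ N) {x : M}
    (hx : t ^ n * x ∈ S) : t ^ N * x ∈ S := by
  obtain ⟨d, rfl⟩ := Nat.exists_eq_add_of_le h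
  have e : t ^ (n + d) * x = t ^ d * (t ^ n * x) := by ring
  rw [e]
  exact mul_mem (pow_mem ht d) hx

/-- The change of base. -/
theorem baseX (A₁ A₂ : Subalgebra k M) (ρ : G →* (M ≃ₐ[k] M))
    (hG₁ : ∀ g, ∀ x ∈ A₁, ρ g x ∈ A₁) (hG₂ : ∀ g, ∀ x ∈ A₂, ρ g x ∈ A₂)
    {t : M} (ht0 : t ≠ 0) (htρ : ∀ g, ρ g t = t) (ht₁ : t ∈ A₁) (ht₂ : t⁻¹ ∈ A₂)
    (h1 : ∀ x ∈ A₂, ∃ n : ℕ, t ^ n * x ∈ A₁) (h2 : ∀ x ∈ A₁, ∃ n : ℕ, t⁻¹ ^ n * x ∈ A₂)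
    {u : M} (hu : u ∈ A₂) (huρ : ∀ g, ρ g u = u) (hu0 : u ≠ 0)
    (hA3 : ∀ P ∈ F.Ram (TS ρ (LS A₂ u hu) (LS_stable hG₂ hu huρ)),
        (⟨t⁻¹, LS_le A₂ u hu ht₂⟩ : LS A₂ u hu) ∈ P)
    {j : ℕ} {w : A₁} (hw : (w : M) = t ^ j * u)
    (hA4 : ∀ P ∈ F.Ram (TS ρ A₁ hG₁), (⟨t, ht₁⟩ : A₁) ∉ P → w ∈ P)
    (ρK : G →* (K ≃ₐ[k] K)) (hcom : ∀ g x, ρK g (algebraMap M K x) = algebraMap M K (ρ g x))
    (β₁ β₂ : Type) [Finite β₁] [Finite β₂] (o₁ : β₁ → A₁) (o₂ : β₂ → LS A₂ u hu)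
    (ho₁ : ∀ b, o₁ b ≠ 0) (ho₂ : ∀ b, o₂ b ≠ 0) :
    ∃ τ : K, τ ≠ 0 ∧ (∀ g, ρK g τ = τ) ∧
      (∀ b, ∃ x : A₁, algebraMap A₁ K x = τ * algebraMap (LS A₂ u hu) K (o₂ b) ∧
        ∀ P ∈ F.Ram (TS ρ A₁ hG₁), x ∈ P) ∧
      (∀ b, ∃ x : LS A₂ u hu, algebraMap (LS A₂ u hu) K x = algebraMap A₁ K (o₁ b) / τ ∧
        ∀ P ∈ F.Ram (TS ρ (LS A₂ u hu) (LS_stable hG₂ hu huρ)), x ∈ P) ∧
      (∀ b, ∀ y ∈ BB K (o₂ b), ∃ (n : ℕ) (x : A₁),
        (τ * algebraMap (LS A₂ u hu) K (o₂ b)) ^ n * y = algebraMap A₁ K x) ∧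
      ∀ b, ∀ y ∈ BB K (o₁ b), ∃ (n : ℕ) (x : LS A₂ u hu),
        (algebraMap A₁ K (o₁ b) / τ) ^ n * y = algebraMap (LS A₂ u hu) K x := by
  have hf1 : ∀ x : A₁, algebraMap A₁ K x = algebraMap M K (x : M) := fun x => rfl
  have hf2 : ∀ x : LS A₂ u hu, algebraMap (LS A₂ u hu) K x = algebraMap M K (x : M) :=
    fun x => rfl
  have hui : u⁻¹ ∈ LS A₂ u hu := LS_inv (by
    rw [mul_inv_cancel₀ hu0]
    exact one_mem _)
  have hm : ∀ b, ∃ n : ℕ, u ^ n * (o₂ b : M) ∈ A₂ := fun b => (o₂ b).2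
  choose m hm using hm
  obtain ⟨M0, hM0⟩ := fin_bd m
  have hv : ∀ b, u ^ M0 * (o₂ b : M) ∈ A₂ := fun b => pow_up hu (hM0 b) (hm b)
  have hl : ∀ b, ∃ n : ℕ, t ^ n * (u ^ M0 * (o₂ b : M)) ∈ A₁ := fun b => h1 _ (hv b)
  choose l hl using hl
  obtain ⟨L0, hL0⟩ := fin_bd l
  have hr : ∀ b, ∃ n : ℕ, t⁻¹ ^ n * (o₁ b : M) ∈ A₂ := fun b => h2 _ (o₁ b).2
  choose r hr using hr
  obtain ⟨R0, hR0⟩ := fin_bd r
  have hv1 : ∀ b, t ^ (L0 + R0) * (u ^ M0 * (o₂ b : M)) ∈ A₁ := fun b =>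
    pow_up ht₁ ((hL0 b).trans (Nat.le_add_right _ _)) (hl b)
  have hv2 : ∀ b, t⁻¹ ^ (j + L0 + R0) * (o₁ b : M) ∈ A₂ := fun b =>
    pow_up ht₂ ((hR0 b).trans (Nat.le_add_left _ _)) (hr b)
  let τ : M := t ^ (j + 1 + L0 + R0) * u ^ (M0 + 1)
  have hτ0 : τ ≠ 0 := mul_ne_zero (pow_ne_zero _ ht0) (pow_ne_zero _ hu0)
  have hτK0 : algebraMap M K τ ≠ 0 := (map_ne_zero _).2 hτ0
  -- the element of `A₁`
  have e1 : ∀ b, τ * (o₂ b : M) = t * w * (t ^ (L0 + R0) * (u ^ M0 * (o₂ b : M))) := by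
    intro b
    rw [hw]
    change t ^ (j + 1 + L0 + R0) * u ^ (M0 + 1) * (o₂ b : M) = _
    ring
  have hc1 : ∀ b, τ * (o₂ b : M) ∈ A₁ := by
    intro b
    rw [e1]
    exact mul_mem (mul_mem ht₁ w.2) (hv1 b)
  -- the element of the localization
  have e2 : ∀ b, (o₁ b : M) / τ =
      t⁻¹ * (t⁻¹ ^ (j + L0 + R0) * (o₁ b : M)) * u⁻¹ ^ (M0 + 1) := by
    intro b
    change (o₁ b : M) / (t ^ (j + 1 + L0 + R0) * u ^ (M0 + 1)) = _
    have h3 : t ^ (j + 1 + L0 + R0) = t * t ^ (j + L0 + R0) := by ring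
    rw [h3, inv_pow, inv_pow]
    field_simp
  have hc2 : ∀ b, (o₁ b : M) / τ ∈ LS A₂ u hu := by
    intro b
    rw [e2]
    exact mul_mem (mul_mem (LS_le _ _ _ ht₂) (LS_le _ _ _ (hv2 b))) (pow_mem hui _)
  refine ⟨algebraMap M K τ, hτK0, ?_, ?_, ?_, ?_, ?_⟩
  · intro g
    rw [hcom]
    congr 1
    change ρ g (t ^ (j + 1 + L0 + R0) * u ^ (M0 + 1)) = _
    rw [map_mul, map_pow, map_pow, htρ, huρ]
  · intro b
    refine ⟨⟨t, ht₁⟩ * w * ⟨_, hv1 b⟩, ?_, ?_⟩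
    · rw [hf1, hf2, ← map_mul]
      congr 1
      rw [e1]
      push_cast
      ring
    · intro P hP
      apply P.mul_mem_right
      by_cases h : (⟨t, ht₁⟩ : A₁) ∈ P
      · exact P.mul_mem_right _ h
      · exact P.mul_mem_left _ (hA4 P hP h)
  · intro b
    refine ⟨⟨t⁻¹, LS_le A₂ u hu ht₂⟩ * ⟨_, LS_le _ _ _ (hv2 b)⟩ * ⟨_, pow_mem hui (M0 + 1)⟩,
      ?_, ?_⟩
    · rw [hf1, hf2, ← map_div₀]
      congr 1
      rw [e2]
      push_cast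
      ring
    · intro P hP
      apply P.mul_mem_right
      apply P.mul_mem_right
      exact hA3 P hP
  · intro b y hy
    obtain ⟨n, z, hz⟩ := hy
    have hW : LS A₂ u hu ≤ LS A₁ (τ * (o₂ b : M)) (hc1 b) := by
      have hti : t⁻¹ ∈ LS A₁ (τ * (o₂ b : M)) (hc1 b) := LS_inv (by
        rw [e1]
        have e : t * (w : M) * (t ^ (L0 + R0) * (u ^ M0 * (o₂ b : M))) * t⁻¹ =
            w * (t ^ (L0 + R0) * (u ^ M0 * (o₂ b : M))) := by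
          field_simp
        rw [e]
        exact mul_mem w.2 (hv1 b))
      have hui' : u⁻¹ ∈ LS A₁ (τ * (o₂ b : M)) (hc1 b) := LS_inv (by
        rw [e1, hw]
        have e : t * (t ^ j * u) * (t ^ (L0 + R0) * (u ^ M0 * (o₂ b : M))) * u⁻¹ =
            t * t ^ j * (t ^ (L0 + R0) * (u ^ M0 * (o₂ b : M))) := by
          field_simp
        rw [e]
        exact mul_mem (mul_mem ht₁ (pow_mem ht₁ _)) (hv1 b))
      have hA : ∀ x ∈ A₂, x ∈ LS A₁ (τ * (o₂ b : M)) (hc1 b) := by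
        intro x hx
        obtain ⟨n, hn⟩ := h1 x hx
        have e : x = t⁻¹ ^ n * (t ^ n * x) := by
          rw [← mul_assoc, ← mul_pow, inv_mul_cancel₀ ht0, one_pow, one_mul]
        rw [e]
        exact mul_mem (pow_mem hti n) (LS_le _ _ _ hn)
      rintro x ⟨n, hn⟩
      have e : x = u⁻¹ ^ n * (u ^ n * x) := by
        rw [← mul_assoc, ← mul_pow, inv_mul_cancel₀ hu0, one_pow, one_mul]
      rw [e]
      exact mul_mem (pow_mem hui' n) (hA _ hn)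
    have hτW : τ ∈ LS A₁ (τ * (o₂ b : M)) (hc1 b) :=
      mul_mem (pow_mem (LS_le _ _ _ ht₁) _) (pow_mem (hW (LS_le _ _ _ hu)) _)
    obtain ⟨s, hs⟩ := mul_mem (pow_mem hτW n) (hW z.2)
    refine ⟨s + n, ⟨_, hs⟩, ?_⟩
    rw [hf1, hf2]
    rw [hf2, hf2] at hz
    rw [pow_add, mul_pow _ _ n, mul_assoc, mul_assoc, hz]
    change _ = algebraMap M K ((τ * (o₂ b : M)) ^ s * (τ ^ n * z))
    simp only [map_mul, map_pow]
  · intro b y hy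
    obtain ⟨n, z, hz⟩ := hy
    have hW : A₁ ≤ LS (LS A₂ u hu) ((o₁ b : M) / τ) (hc2 b) := by
      have hti : t ∈ LS (LS A₂ u hu) ((o₁ b : M) / τ) (hc2 b) := LS_inv (by
        rw [e2]
        have e : t⁻¹ * (t⁻¹ ^ (j + L0 + R0) * (o₁ b : M)) * u⁻¹ ^ (M0 + 1) * t =
            (t⁻¹ ^ (j + L0 + R0) * (o₁ b : M)) * u⁻¹ ^ (M0 + 1) := by
          field_simp
        rw [e]
        exact mul_mem (LS_le _ _ _ (hv2 b)) (pow_mem hui _))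
      intro x hx
      obtain ⟨n, hn⟩ := h2 x hx
      have e : x = t ^ n * (t⁻¹ ^ n * x) := by
        rw [← mul_assoc, ← mul_pow, mul_inv_cancel₀ ht0, one_pow, one_mul]
      rw [e]
      exact mul_mem (pow_mem hti n) (LS_le _ _ _ (LS_le _ _ _ hn))
    have hτW : τ⁻¹ ∈ LS (LS A₂ u hu) ((o₁ b : M) / τ) (hc2 b) := by
      have e : τ⁻¹ = t⁻¹ ^ (j + 1 + L0 + R0) * u⁻¹ ^ (M0 + 1) := by
        change (t ^ (j + 1 + L0 + R0) * u ^ (M0 + 1))⁻¹ = _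
        rw [mul_inv, inv_pow, inv_pow]
      rw [e]
      exact mul_mem (pow_mem (LS_le _ _ _ (LS_le _ _ _ ht₂)) _) (pow_mem (LS_le _ _ _ hui) _)
    obtain ⟨s, hs⟩ := mul_mem (pow_mem hτW n) (hW z.2)
    refine ⟨s + n, ⟨_, hs⟩, ?_⟩
    rw [hf1, hf2]
    rw [hf1, hf1] at hz
    have e : (algebraMap M K (o₁ b : M) / algebraMap M K τ) ^ (s + n) * y =
        (algebraMap M K (o₁ b : M) / algebraMap M K τ) ^ s * ((algebraMap M K τ)⁻¹ ^ n *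
          (algebraMap M K (o₁ b : M) ^ n * y)) := by
      rw [pow_add, div_eq_mul_inv, mul_pow _ _ n]
      ring
    rw [e, hz]
    change _ = algebraMap M K (((o₁ b : M) / τ) ^ s * (τ⁻¹ ^ n * z))
    simp only [map_mul, map_pow, map_div₀, map_inv₀]

/-- Valuation rings. -/
theorem baseV {t u : M} (hu : u ∈ IC k t⁻¹) (hu0 : u ≠ 0)
    (huV : ∀ V : ValuationSubring M, (∀ x ∈ IC k t⁻¹, x ∈ V) → t ∉ V → u⁻¹ ∈ V)
    (V : ValuationSubring K) (hk : ∀ c : k, algebraMap k K c ∈ V) :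
    (∀ x : IC k t, algebraMap (IC k t) K x ∈ V) ∨
      ∀ x : LS (IC k t⁻¹) u hu, algebraMap (LS (IC k t⁻¹) u hu) K x ∈ V := by
  let V' : ValuationSubring M := V.comap (algebraMap M K)
  have hV' : ∀ x, x ∈ V' ↔ algebraMap M K x ∈ V := fun x => Iff.rfl
  have hi : ∀ s : M, s ∈ V' → ∀ x ∈ IC k s, x ∈ V' := by
    intro s hs x hx
    refine int_mem (k := Algebra.adjoin k {s}) V' ?_ hx
    rintro ⟨c, hc⟩
    change c ∈ V'
    induction hc using Algebra.adjoin_induction with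
    | mem x hx => rwa [Set.mem_singleton_iff.1 hx]
    | algebraMap r =>
      rw [hV', ← IsScalarTower.algebraMap_apply]
      exact hk r
    | add x y _ _ hx hy => exact add_mem hx hy
    | mul x y _ _ hx hy => exact mul_mem hx hy
  by_cases ht : t ∈ V'
  · exact Or.inl fun x => hi t ht x x.2
  · right
    have hti : t⁻¹ ∈ V' := (V'.mem_or_inv_mem t).resolve_left ht
    have hA := hi _ hti
    have hui := huV V' hA ht
    rintro ⟨x, n, hn⟩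
    change algebraMap M K x ∈ V
    rw [← hV']
    have e : x = u⁻¹ ^ n * (u ^ n * x) := by
      rw [← mul_assoc, ← mul_pow, inv_mul_cancel₀ hu0, one_pow, one_mul]
    rw [e]
    exact mul_mem (pow_mem hui n) (hA _ hn)

end

end Pool.Agent.Zk15
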