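import Pool.Agent.Zk15.Fp15

/-!
# The inertia groups of the valuation rings
-/

set_option autoImplicit false
set_option linter.unusedVariables false
set_option linter.unusedSectionVars false
set_option linter.overlappingInstances false

namespace Pool.Agent.Zk15

open scoped Pointwise

/-- The valuation ring of a maximal ideal of a Dedekind domain. -/
def VP {k M : Type} [Field k] [Field M] [Algebra k M] (O : Subalgebra k M) [IsDedekindDomain O]
    (hfr : ∀ x : M, ∃ a b, a ∈ O ∧ b ∈ O ∧ b ≠ 0 ∧ x = a / b) (𝔓 : Ideal O) (hm : 𝔓.IsMaximal)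
    (h0 : 𝔓 ≠ ⊥) : ValuationSubring M where
  carrier := {x | ∃ a b : O, b ∉ 𝔓 ∧ x * b = a}
  mul_mem' := by
    rintro x y ⟨a, b, hb, h⟩ ⟨c, d, hd, h'⟩
    refine ⟨a * c, b * d, fun hbd => (hm.isPrime.mem_or_mem hbd).elim hb hd, ?_⟩
    push_cast
    rw [← h, ← h']
    ring
  one_mem' := ⟨1, 1, fun h => hm.ne_top ((Ideal.eq_top_iff_one _).2 h), by push_cast; ring⟩
  add_mem' := by
    rintro x y ⟨a, b, hb, h⟩ ⟨c, d, hd, h'⟩
    refine ⟨a * d + c * b, b * d, fun hbd => (hm.isPrime.mem_or_mem hbd).elim hb hd, ?_⟩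
    push_cast
    rw [← h, ← h']
    ring
  zero_mem' := ⟨0, 1, fun h => hm.ne_top ((Ideal.eq_top_iff_one _).2 h), by push_cast; ring⟩
  neg_mem' := by
    rintro x ⟨a, b, hb, h⟩
    exact ⟨-a, b, hb, by push_cast; rw [← h]; ring⟩
  mem_or_inv_mem' := by
    intro x
    have := hm.isPrime
    obtain ⟨a, b, ha, hb, hb0, rfl⟩ := hfr x
    by_cases ha0 : a = 0
    · left
      refine ⟨0, 1, fun h => hm.ne_top ((Ideal.eq_top_iff_one _).2 h), ?_⟩
      push_cast
      rw [ha0, zero_div, zero_mul]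
    have := IsLocalization.AtPrime.isDiscreteValuationRing_of_dedekind_domain O h0
      (Localization.AtPrime 𝔓)
    have hkey : ∀ (a b : O), (a : M) ≠ 0 → algebraMap O (Localization.AtPrime 𝔓) a ∣
        algebraMap O (Localization.AtPrime 𝔓) b →
        ∃ c s : O, s ∉ 𝔓 ∧ (b : M) / a * s = c := by
      intro a b ha ⟨c, hc⟩
      obtain ⟨c', s, rfl⟩ := IsLocalization.exists_mk'_eq 𝔓.primeCompl c
      refine ⟨c', s, s.2, ?_⟩
      have h1 : algebraMap O (Localization.AtPrime 𝔓) (b * s) =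
          algebraMap O (Localization.AtPrime 𝔓) (a * c') := by
        rw [map_mul, map_mul, hc, mul_assoc, IsLocalization.mk'_spec]
      have h2 := IsLocalization.injective (Localization.AtPrime 𝔓)
        (Ideal.primeCompl_le_nonZeroDivisors 𝔓) h1
      have h3 : (b : M) * (s : O) = a * c' := congrArg Subtype.val h2
      rw [div_mul_eq_mul_div, h3, mul_div_cancel_left₀ _ ha]
    rcases ValuationRing.dvd_total (algebraMap O (Localization.AtPrime 𝔓) ⟨a, ha⟩)
      (algebraMap O (Localization.AtPrime 𝔓) ⟨b, hb⟩) with h | h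
    · right
      obtain ⟨c, s, hs, h1⟩ := hkey _ _ ha0 h
      exact ⟨c, s, hs, by rw [inv_div]; exact h1⟩
    · left
      obtain ⟨c, s, hs, h1⟩ := hkey _ _ hb0 h
      exact ⟨c, s, hs, h1⟩

section

variable {k E M : Type} [Field k] [Field E] [Field M] [Algebra k E] [Algebra E M] [Algebra k M]
  [IsScalarTower k E M]

variable (k E M) in
/-- The Galois group acts over `k`. -/
def ρE : (M ≃ₐ[E] M) →* (M ≃ₐ[k] M) where
  toFun g := g.restrictScalars k
  map_one' := rfl
  map_mul' g h := rfl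

lemma ρE_apply (g : M ≃ₐ[E] M) (x : M) : ρE k E M g x = g x := rfl

lemma ρE_inj : Function.Injective (ρE k E M) := fun g h hgh =>
  AlgEquiv.ext fun x => congrArg (fun f : M ≃ₐ[k] M => f x) hgh

/-- The inertia groups. -/
theorem inertia_hom (O : Subalgebra k M) (hO : ∀ g, ∀ x ∈ O, ρE k E M g x ∈ O) (𝔓 : Ideal O)
    (hd : IsDedekindDomain O) (hfr : ∀ x : M, ∃ a b, a ∈ O ∧ b ∈ O ∧ b ≠ 0 ∧ x = a / b)
    (hm : 𝔓.IsMaximal) (h0 : 𝔓 ≠ ⊥) :
    ∃ V : ValuationSubring M, (∀ c : k, algebraMap k M c ∈ V) ∧ V ≠ ⊤ ∧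
      ∃ f : F.inG (TS (ρE k E M) O hO) 𝔓 →* V.inertiaSubgroup E, Function.Injective f ∧
        ∀ g, (((f g : V.inertiaSubgroup E) : V.decompositionSubgroup E) : M ≃ₐ[E] M) = g := by
  classical
  let V := VP O hfr 𝔓 hm h0
  have hOV : ∀ o : O, (o : M) ∈ V := fun o =>
    ⟨o, 1, fun h => hm.ne_top ((Ideal.eq_top_iff_one _).2 h), by push_cast; ring⟩
  have hI : ∀ g ∈ F.inG (TS (ρE k E M) O hO) 𝔓, ∀ b : O, b ∉ 𝔓 → TS (ρE k E M) O hO g b ∉ 𝔓 := by
    intro g hg b hb h
    apply hb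
    have h1 := 𝔓.sub_mem h (hg b)
    rwa [sub_sub_cancel] at h1
  have hgV : ∀ g ∈ F.inG (TS (ρE k E M) O hO) 𝔓, ∀ x ∈ V, g x ∈ V := by
    rintro g hg x ⟨a, b, hb, h⟩
    refine ⟨TS (ρE k E M) O hO g a, TS (ρE k E M) O hO g b, hI g hg b hb, ?_⟩
    rw [TS_coe, TS_coe, ρE_apply, ρE_apply, ← map_mul, h]
  have hnon : ∀ (e s : O), e ∈ 𝔓 → s ∉ 𝔓 → ∀ y : M, y * s = e → y ≠ 0 → y⁻¹ ∉ V := by
    rintro e s he hs y hy hy0 ⟨a, b, hb, h⟩
    have h1 : b * s = a * e := by
      apply Subtype.ext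
      push_cast
      rw [← h, ← hy]
      field_simp
    have h2 : b * s ∈ 𝔓 := by
      rw [h1]
      exact 𝔓.mul_mem_left _ he
    exact (hm.isPrime.mem_or_mem h2).elim hb hs
  have hstab : ∀ g ∈ F.inG (TS (ρE k E M) O hO) 𝔓, g ∈ V.decompositionSubgroup E := by
    intro g hg
    rw [MulAction.mem_stabilizer_iff]
    ext x
    rw [ValuationSubring.mem_pointwise_smul_iff_inv_smul_mem]
    constructor
    · intro h
      have h1 := hgV g hg _ h
      have h2 : g (g⁻¹ • x) = x := by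
        rw [AlgEquiv.smul_def, ← AlgEquiv.mul_apply, mul_inv_cancel, AlgEquiv.one_apply]
      rwa [h2] at h1
    · intro h
      exact hgV g⁻¹ (inv_mem hg) x h
  have hker : ∀ g (hg : g ∈ F.inG (TS (ρE k E M) O hO) 𝔓),
      (⟨g, hstab g hg⟩ : V.decompositionSubgroup E) ∈ V.inertiaSubgroup E := by
    intro g hg
    rw [ValuationSubring.inertiaSubgroup, MonoidHom.mem_ker]
    refine RingEquiv.ext fun r => ?_
    obtain ⟨x, rfl⟩ := IsLocalRing.residue_surjective r
    change (⟨g, hstab g hg⟩ : V.decompositionSubgroup E) • IsLocalRing.residue V x = _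
    rw [← IsLocalRing.ResidueField.residue_smul]
    change _ = IsLocalRing.residue V x
    rw [← sub_eq_zero, ← map_sub, IsLocalRing.residue_eq_zero_iff, IsLocalRing.mem_maximalIdeal,
      mem_nonunits_iff]
    intro hu
    obtain ⟨x, a, b, hb, h⟩ := x
    have e1 : (((⟨g, hstab g hg⟩ : V.decompositionSubgroup E) •
        (⟨x, a, b, hb, h⟩ : V) - ⟨x, a, b, hb, h⟩ : V) : M) = g x - x := rfl
    let T := TS (ρE k E M) O hO g
    have h2 : (g x - x) * ((T b * b : O) : M) =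
        (((T a - a) * b - a * (T b - b) : O) : M) := by
      push_cast
      have e2 : ((T a : O) : M) = g a := rfl
      have e3 : ((T b : O) : M) = g b := rfl
      rw [e2, e3, ← h, map_mul]
      ring
    have h3 : (T a - a) * b - a * (T b - b) ∈ 𝔓 :=
      𝔓.sub_mem (𝔓.mul_mem_right _ (hg a)) (𝔓.mul_mem_left _ (hg b))
    have h4 : T b * b ∉ 𝔓 := fun h => (hm.isPrime.mem_or_mem h).elim (hI g hg b hb) hb
    obtain ⟨w, hw⟩ := hu
    have h5 : g x - x ≠ 0 := by
      intro h6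
      have h7 : (w : V) = 0 := by
        rw [hw]
        exact Subtype.ext h6
      exact w.ne_zero h7
    apply hnon _ _ h3 h4 (g x - x) h2 h5
    have h6 : ((w⁻¹ : Vˣ) : V) * (w : V) = 1 := w.inv_mul
    have h7 : (((w⁻¹ : Vˣ) : V) : M) * (g x - x) = 1 := by
      have h8 := congrArg Subtype.val h6
      rw [hw] at h8
      exact h8
    rw [← eq_inv_of_mul_eq_one_left h7]
    exact ((w⁻¹ : Vˣ) : V).2
  refine ⟨V, fun c => hOV (algebraMap k O c), ?_, ?_⟩
  · intro hV
    obtain ⟨e, he, he0⟩ := Submodule.exists_mem_ne_zero_of_ne_bot h0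
    have he0' : (e : M) ≠ 0 := fun h => he0 (Subtype.ext h)
    refine hnon e 1 he (fun h => hm.ne_top ((Ideal.eq_top_iff_one _).2 h)) e
      (by push_cast; ring) he0' ?_
    rw [hV]
    trivial
  · refine ⟨
      { toFun := fun g => ⟨⟨g, hstab g g.2⟩, hker g g.2⟩
        map_one' := rfl
        map_mul' := fun g h => rfl }, ?_, fun g => rfl⟩
    intro g h hgh
    apply Subtype.ext
    exact congrArg (fun q : V.inertiaSubgroup E =>
      ((q : V.decompositionSubgroup E) : M ≃ₐ[E] M)) hgh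

end

end Pool.Agent.Zk15
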