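import Pool.Agent.Zk15.Fp16

/-!
# Separating elements
-/

set_option autoImplicit false
set_option linter.unusedVariables false
set_option linter.unusedSectionVars false
set_option linter.overlappingInstances false

namespace Pool.Agent.Zk15

/-- A finitely generated algebraic field extension is finite. -/
theorem fin_of_alg (F M : Type) [Field F] [Field M] [Algebra F M] [Algebra.EssFiniteType F M]
    [Algebra.IsAlgebraic F M] : FiniteDimensional F M := by
  obtain ⟨s, hs⟩ := IntermediateField.fg_top F M
  have h1 : FiniteDimensional F (IntermediateField.adjoin F (s : Set M)) :=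
    IntermediateField.finiteDimensional_adjoin fun x _ =>
      (Algebra.IsAlgebraic.isAlgebraic x).isIntegral
  rw [hs] at h1
  exact IntermediateField.topEquiv.toLinearEquiv.finiteDimensional

/-- A separating element. -/
theorem exists_sep (k E M : Type) [Field k] [PerfectField k] [Field E] [Algebra k E]
    [Algebra.EssFiniteType k E] (hE : Algebra.trdeg k E = 1) [Field M] [Algebra E M]
    [FiniteDimensional E M] [Algebra.IsSeparable E M] [Algebra k M] [IsScalarTower k E M] :
    ∃ t : E, Transcendental k (algebraMap E M t) ∧
      FiniteDimensional (IntermediateField.adjoin k {algebraMap E M t}) M ∧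
      Algebra.IsSeparable (IntermediateField.adjoin k {algebraMap E M t}) M := by
  classical
  obtain ⟨s, hs, hsep⟩ := exists_isTranscendenceBasis_and_isSeparable_of_perfectField k E
  have hc : Cardinal.mk s = 1 := hs.cardinalMk_eq_trdeg.trans hE
  have hc' : s.card = 1 := by
    rw [Cardinal.mk_coe_finset] at hc
    exact_mod_cast hc
  obtain ⟨t, rfl⟩ := Finset.card_eq_one.1 hc'
  rw [Finset.coe_singleton] at hsep
  have ht : Transcendental k t := by
    have h1 := hs.1.transcendental ⟨t, Finset.mem_singleton_self t⟩
    exact h1
  have htM : Transcendental k (algebraMap E M t) :=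
    (transcendental_algebraMap_iff (algebraMap E M).injective).2 ht
  refine ⟨t, htM, ?_⟩
  have hle : ∀ x ∈ IntermediateField.adjoin k {t},
      algebraMap E M x ∈ IntermediateField.adjoin k {algebraMap E M t} := by
    intro x hx
    have h1 : algebraMap E M x ∈ (IntermediateField.adjoin k {t}).map (IsScalarTower.toAlgHom k E M) :=
      ⟨x, hx, rfl⟩
    rw [IntermediateField.adjoin_map, Set.image_singleton] at h1
    exact h1
  let f : IntermediateField.adjoin k {t} →+* IntermediateField.adjoin k {algebraMap E M t} :=
    ((algebraMap E M).comp (algebraMap (IntermediateField.adjoin k {t}) E)).codRestrict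
      (IntermediateField.adjoin k {algebraMap E M t}).toSubring fun x => hle x x.2
  let _ := f.toAlgebra
  have : IsScalarTower (IntermediateField.adjoin k {t})
      (IntermediateField.adjoin k {algebraMap E M t}) M :=
    IsScalarTower.of_algebraMap_eq fun x => rfl
  have h1 : Algebra.IsSeparable (IntermediateField.adjoin k {t}) M :=
    Algebra.IsSeparable.trans _ E M
  have h2 : Algebra.IsSeparable (IntermediateField.adjoin k {algebraMap E M t}) M :=
    Algebra.isSeparable_tower_top_of_isSeparable (IntermediateField.adjoin k {t}) _ M
  refine ⟨?_, h2⟩
  have h3 : Algebra.EssFiniteType k M := Algebra.EssFiniteType.comp k E M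
  have h4 : Algebra.EssFiniteType (IntermediateField.adjoin k {algebraMap E M t}) M :=
    Algebra.EssFiniteType.of_comp k _ M
  exact fin_of_alg _ M

end Pool.Agent.Zk15
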