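import Pool.Agent.Zk15.Fp18

/-!
# Smooth projective models of tori over function fields of one variable
-/

set_option autoImplicit false
set_option linter.unusedVariables false
set_option linter.unusedSectionVars false
set_option linter.overlappingInstances false

namespace Pool.Agent.Zk15

open Pool.Agent.Y223.G

theorem torusHasSm {p : ℕ} (hp : p.Prime) {k E M B K D Y Λ : Type} [Field k] [PerfectField k]
    (hpk : (p : k) = 0) [Field E] [Algebra k E] [Algebra.EssFiniteType k E]
    (hE : Algebra.trdeg k E = 1) [Field M] [Algebra E M] [FiniteDimensional E M] [IsGalois E M]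
    [Algebra k M] [IsScalarTower k E M]
    (hin : ∀ V : ValuationSubring M, (∀ c : k, algebraMap k M c ∈ V) → V ≠ ⊤ →
      ¬ p ^ 2 ∣ Nat.card (V.inertiaSubgroup E))
    [CommRing B] [IsDomain B] [Algebra k B] [Algebra M B] [IsScalarTower k M B]
    (θ : (M ≃ₐ[E] M) →* (B ≃ₐ[k] B))
    (hθM : ∀ g x, θ g (algebraMap M B x) = algebraMap M B (g x))
    [AddCommGroup Λ] {n : ℕ} (e0 : Module.Basis (Fin n) ℤ Λ) (φ : (M ≃ₐ[E] M) →* (Λ ≃ₗ[ℤ] Λ))
    (x : Λ → B) (x0 : x 0 = 1) (xa : ∀ a b, x (a + b) = x a * x b) (li : LinearIndependent M x)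
    (hsp : Algebra.adjoin M (Set.range x) = ⊤) (hθx : ∀ g m, θ g (x m) = x (φ g m))
    [CommRing D] [IsDomain D] [Algebra k D] (j : D →ₐ[k] B) (hj : Function.Injective j)
    (hjfix : ∀ b, (∀ g, θ g b = b) ↔ ∃ d, j d = b)
    [Field K] [Algebra B K] [IsFractionRing B K] [Algebra k K] [Algebra M K]
    [IsScalarTower k B K] [IsScalarTower M B K] [IsScalarTower k M K]
    [Field Y] [Algebra D Y] [IsFractionRing D Y] [Algebra k Y] [IsScalarTower k D Y] :
    HasSm k Y := by
  classical
  have := Fintype.ofFinite (M ≃ₐ[E] M)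
  have hBK : Function.Injective (algebraMap B K) := IsFractionRing.injective B K
  obtain ⟨t, ht, hfd, hsep⟩ := exists_sep k E M hE
  let ρK : (M ≃ₐ[E] M) →* (K ≃ₐ[k] K) :=
    (IsFractionRing.fieldEquivOfAlgEquivHom (A := k) (B := B) k K).comp θ
  have hρK : ∀ g b, ρK g (algebraMap B K b) = algebraMap B K (θ g b) := fun g b =>
    IsFractionRing.fieldEquivOfAlgEquiv_algebraMap k K K (θ g) b
  have hjK : Function.Injective ((IsScalarTower.toAlgHom k B K).comp j) := hBK.comp hj
  let ι : Y →ₐ[k] K := IsFractionRing.liftAlgHom (A := D) (K := Y) hjK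
  have hι : ∀ d : D, ι (algebraMap D Y d) = algebraMap B K (j d) := fun d =>
    IsFractionRing.lift_algebraMap hjK d
  have hfixK : ∀ y : K, (∀ g, ρK g y = y) ↔ ∃ y', ι y' = y := by
    intro y
    constructor
    · intro hy
      obtain ⟨a, b, hb, hab⟩ := IsFractionRing.div_surjective (A := B) (y : K)
      have hb0 : b ≠ 0 := nonZeroDivisors.ne_zero hb
      -- the norm of the denominator
      have hn : ∀ g, θ g (∏ h : (M ≃ₐ[E] M), θ h b) = ∏ h : (M ≃ₐ[E] M), θ h b := by
        intro g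
        rw [map_prod]
        refine Fintype.prod_equiv (Equiv.mulLeft g) _ _ fun h => ?_
        rw [Equiv.coe_mulLeft, map_mul, AlgEquiv.mul_apply]
      have hn0 : (∏ h : (M ≃ₐ[E] M), θ h b) ≠ 0 := Finset.prod_ne_zero_iff.2 fun h _ =>
        (map_ne_zero_iff _ (θ h).injective).2 hb0
      have hmul : (∏ h : (M ≃ₐ[E] M), θ h b) = b * ∏ h ∈ Finset.univ.erase 1, θ h b := by
        rw [← Finset.mul_prod_erase Finset.univ _ (Finset.mem_univ (1 : (M ≃ₐ[E] M))), map_one,
          AlgEquiv.one_apply]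
      have hnum : (y : K) * algebraMap B K (∏ h : (M ≃ₐ[E] M), θ h b) =
          algebraMap B K (a * ∏ h ∈ Finset.univ.erase 1, θ h b) := by
        have hbK : algebraMap B K b ≠ 0 := (map_ne_zero_iff _ hBK).2 hb0
        rw [hmul, ← hab, map_mul, map_mul]
        field_simp
      have hnumi : ∀ g, θ g (a * ∏ h ∈ Finset.univ.erase 1, θ h b) =
          a * ∏ h ∈ Finset.univ.erase 1, θ h b := by
        intro g
        apply hBK
        rw [← hρK, ← hnum, map_mul, hρK, hn]
        rw [hy g]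
      obtain ⟨d, hd⟩ := (hjfix _).1 hn
      obtain ⟨c, hc⟩ := (hjfix _).1 hnumi
      have hd0 : algebraMap B K (∏ h : (M ≃ₐ[E] M), θ h b) ≠ 0 :=
        (map_ne_zero_iff _ hBK).2 hn0
      refine ⟨algebraMap D Y c / algebraMap D Y d, ?_⟩
      rw [map_div₀, hι, hι, hc, hd, ← hnum, mul_div_assoc, div_self hd0, mul_one]
    · rintro ⟨y', rfl⟩ g
      obtain ⟨a, b, hb, rfl⟩ := IsFractionRing.div_surjective (A := D) y'
      rw [map_div₀, map_div₀, hι, hι, hρK, hρK, (hjfix _).2 ⟨a, rfl⟩ g, (hjfix _).2 ⟨b, rfl⟩ g]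
  -- the monomials
  have hmem : ∀ y : K, y ∈ Algebra.adjoin M (Set.range fun m => algebraMap B K (x m)) ↔
      ∃ b : B, algebraMap B K b = y := by
    intro y
    have h1 : Set.range (fun m => algebraMap B K (x m)) =
        (IsScalarTower.toAlgHom M B K) '' (Set.range x) := by
      rw [← Set.range_comp]
      rfl
    rw [h1, ← AlgHom.map_adjoin, hsp]
    constructor
    · rintro ⟨b, -, rfl⟩
      exact ⟨b, rfl⟩
    · rintro ⟨b, rfl⟩
      exact ⟨b, trivial, rfl⟩
  obtain ⟨I, hI, w, J, hM⟩ := projM hp hpk (ρE k E M) ρE_inj ht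
    (fun g => by rw [ρE_apply, AlgEquiv.commutes]) (IntermediateField.adjoin k {algebraMap E M t})
    rfl
    (fun O hO 𝔓 hd hfr hm h0 => by
      obtain ⟨V, hV, hVt, f, hf, -⟩ := inertia_hom O hO 𝔓 hd hfr hm h0
      exact fun h => hin V hV hVt (h.trans (Subgroup.card_dvd_of_injective f hf)))
    ι ρK
    (fun g y => by
      rw [IsScalarTower.algebraMap_apply M B K, hρK, hθM, ← IsScalarTower.algebraMap_apply]
      rfl)
    hfixK e0 φ (X := fun m => algebraMap B K (x m))
    (by rw [x0, map_one]) (fun a b => by rw [xa, map_mul])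
    (li.map' (IsScalarTower.toAlgHom M B K).toLinearMap (LinearMap.ker_eq_bot.2 hBK))
    (fun g m => by
      rw [hρK, hθx])
    (fun y => by
      obtain ⟨a, b, hb, rfl⟩ := IsFractionRing.div_surjective (A := B) y
      exact ⟨_, _, (hmem _).2 ⟨a, rfl⟩, (hmem _).2 ⟨b, rfl⟩,
        fun h => nonZeroDivisors.ne_zero hb (hBK (by rw [h, map_zero])), rfl⟩)
  exact hasSm_of_model hM

end Pool.Agent.Zk15
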