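import Pool.Agent.Zk15.Ff8
import Pool.Agent.Zk15.Fp1

/-!
# Atlases from local charts
-/

set_option autoImplicit false
set_option linter.unusedSectionVars false
set_option linter.overlappingInstances false

namespace Pool.Agent.Zk15

open Pool.Agent.Y223.G
open Pool.Agent.Y232.G6 (exists_inv_mem Ph Ph_hm mem_res)
open Pool.Agent.Y550.H (iter RW_gr gr_RX hm_prod0)
open Pool.Agent.R383.TM (WD)

/-- The properties of a local chart `R` of the quotient of a variety with the chart `C`; here `I`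
consists of the functions on the base which vanish at the ramified primes, and `π` is the local
equation of the ramified primes. -/
structure LCh {D Y Y₂ K : Type} [CommRing D] [Field Y] [Field Y₂] [Field K] [Algebra D Y]
    [Algebra D Y₂] (ε : LP Y →ₐ[D] Y₂) (ι : Y → K) (C I : Set K) (π : K) (n₀ : ℕ)
    (R : Subalgebra D (LP Y₂)) : Prop where
  ch : Ch R
  bg : BG ε R
  q1 : ∀ (d b : ℤ) (y : Y) (ν c : K), ν ∈ I → c ∈ C → ι y * π ^ (-b) = ν ^ d.natAbs * c →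
    hm d (ε (hm b y)) ∈ R
  q2 : ∀ (d b : ℤ) (y : Y), hm d (ε (hm b y)) ∈ R → ι y * π ^ (-b) ∈ C
  fr : ∀ x : Y₂, ∃ y y' : Y₂, hm 0 y ∈ R ∧ hm 0 y' ∈ R ∧ y' ≠ 0 ∧ x = y / y'
  s1 : hm 0 (ε (hm (-1) 1)) ∈ R
  un : ∃ w : Y, w ≠ 0 ∧ hm 0 (ε (hm n₀ w)) ∈ R ∧ hm 0 (ε (hm (-n₀) w⁻¹)) ∈ R
  va : ∀ (V : ValuationSubring Y) (V' : ValuationSubring K), (∀ x, ι x ∈ V' ↔ x ∈ V) →
    (∀ c ∈ C, c ∈ V') → ∃ V₂ : ValuationSubring Y₂, (∀ x, hm 0 x ∈ R → x ∈ V₂) ∧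
      ∀ x : Y, ε (hm 0 x) ∈ V₂ ↔ x ∈ V

/-- **A regular model from local charts.** -/
theorem tailF {D Y Y₂ K : Type} [CommRing D] [IsDomain D] [IsNoetherianRing D] [Field Y]
    [Field Y₂] [Field K] [Algebra D Y] [Algebra D Y₂] (hDinj : Function.Injective (algebraMap D Y))
    (ε : LP Y →ₐ[D] Y₂) (hε : Ext2 ε) (ι : Y → K) (n₀ : ℕ) (hn₀ : 0 < n₀) (𝒜 : Type) [Finite 𝒜]
    (C I : 𝒜 → Set K) (π : 𝒜 → K) (R : 𝒜 → Subalgebra D (LP Y₂)) (h : 𝒜 → Y) (hh0 : ∀ a, h a ≠ 0)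
    (hR : ∀ a, LCh ε ι (C a) (I a) (π a) n₀ (R a))
    (hrt : ∀ a a', hm 0 (ε (hm 0 (h a' / h a))) ∈ R a)
    (hgl : ∀ a a', ∀ f ∈ R a', ∃ n : ℕ, hm 0 (ε (hm 0 (h a' / h a))) ^ n * f ∈ R a)
    (hcov : ∀ V : ValuationSubring Y, (∀ c : D, algebraMap D Y c ∈ V) →
      ∃ a, ∃ V' : ValuationSubring K, (∀ x, ι x ∈ V' ↔ x ∈ V) ∧ ∀ c ∈ C a, c ∈ V') :
    ∃ (I : Type) (_ : Finite I) (w : I → Y) (J : Set I),
      ModelG (k := D) False ⊥ (⊤ : Subfield Y) w J := by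
  classical
  have hDε : ∀ c : D, algebraMap D Y₂ c = ε (hm 0 (algebraMap D Y c)) := by
    intro c
    rw [← algebraMap_LP, ε.commutes]
  obtain ⟨𝒱, h𝒱⟩ : ∃ 𝒱 : Set (ValuationSubring Y₂), 𝒱 = {V | (∀ c : D, algebraMap D Y₂ c ∈ V) ∧
    ∃ a, ∀ x, hm 0 x ∈ R a → x ∈ V} := ⟨_, rfl⟩
  have h𝒱k : ∀ V ∈ 𝒱, ∀ c : D, algebraMap D Y₂ c ∈ V := by
    rw [h𝒱]
    exact fun V hV => hV.1
  obtain ⟨r, T', hT', C', H, hAt⟩ := S_atlas2 D Y Y₂ hDinj ε hε False ⊥ 𝒱 h𝒱k n₀ hn₀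
    𝒜 R h (fun a => (hR a).ch) (fun a => (hR a).bg) hh0 (fun a => (hR a).s1) (fun a => (hR a).un)
    hrt hgl
    (by
      rw [h𝒱]
      exact fun V hV => hV.2)
    (fun a => (hR a).fr) (fun hP => hP.elim) (fun hP => hP.elim) (fun hP => hP.elim)
  obtain ⟨T1, hT1, C1, H1, hA1⟩ := iter S_astep2 hDinj ε hε False ⊥ 𝒱 h𝒱k n₀ hn₀ r T'
    hT' C' H hAt
  obtain ⟨D', hD'⟩ := S_down D Y Y₂ hDinj ε hε False ⊥ 𝒱
    (by
      intro V hV
      obtain ⟨a, V', hV', hFV⟩ := hcov V hV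
      obtain ⟨V₂, h2, h3⟩ := (hR a).va V V' hV' hFV
      refine ⟨V₂, ?_, fun x hx => (h3 x).1 hx⟩
      rw [h𝒱]
      refine ⟨fun c => ?_, a, h2⟩
      rw [hDε]
      exact (h3 _).2 (hV c))
    n₀ hn₀ T1 C1 H1 hA1
  exact all_MODEL D Y hDinj False ⊥ Submodule.fg_bot ⊤ (fun hP => hP.elim)
    n₀ T1 D' H1 hD'

/-- monomials -/
lemma hm_pow_mem {k K : Type} [CommRing k] [Field K] [Algebra k K] {R : Subalgebra k (LP K)}
    {ν c : K} (hc : hm 0 c ∈ R) (hs : hm (-1) 1 ∈ R) (hν : hm 0 ν ∈ R) (hν1 : hm 1 ν ∈ R) (d : ℤ) :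
    hm d (ν ^ d.natAbs * c) ∈ R := by
  rcases Int.natAbs_eq d with hd | hd
  · have h1 := R.mul_mem (R.pow_mem hν1 d.natAbs) hc
    rw [hm_pow, hm_mul, mul_one, add_zero, ← hd] at h1
    exact h1
  · have h1 := R.mul_mem (R.pow_mem hs d.natAbs) (R.mul_mem (R.pow_mem hν d.natAbs) hc)
    rw [hm_pow, hm_pow, hm_mul, hm_mul, one_pow, one_mul, mul_zero, add_zero, add_zero] at h1
    have e : (d.natAbs : ℤ) * (-1) = d := by omega
    rw [e] at h1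
    exact h1

section cross

variable {D Y Y₂ K : Type} [CommRing D] [Field Y] [Field Y₂] [Field K] [Algebra D Y]
    [Algebra D Y₂] {ε : LP Y →ₐ[D] Y₂} {ι : Y →+* K}

/-- **Gluing of two local charts.** -/
theorem glX {C I C' I' : Set K} {π π' : K} {n₀ : ℕ} {R R' : Subalgebra D (LP Y₂)}
    (hR : LCh ε ι C I π n₀ R) (hR' : LCh ε ι C' I' π' n₀ R')
    (hC1 : (1 : K) ∈ C) (hCm : ∀ a ∈ C, ∀ b ∈ C, a * b ∈ C) (hπ : π ≠ 0) (hπ' : π' ≠ 0) {y : Y}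
    {ν φ : K} (hy : ι y = φ * ν) (hφ : φ ∈ C) (hνI : ν ∈ I) (hνC : ν ∈ C)
    (hloc : ∀ c ∈ C', ∃ n : ℕ, (φ * ν) ^ n * c ∈ C)
    (h1 : ∃ n : ℕ, ν ^ n * (π' / π) ∈ C) (h2 : ∃ n : ℕ, ν ^ n * (π / π') ∈ C) :
    hm 0 (ε (hm 0 y)) ∈ R ∧ ∀ f ∈ R', ∃ n : ℕ, hm 0 (ε (hm 0 y)) ^ n * f ∈ R := by
  have hpow : ∀ a ∈ C, ∀ n : ℕ, a ^ n ∈ C := by
    intro a ha n
    induction n with
    | zero => rw [pow_zero]; exact hC1
    | succ n ih => rw [pow_succ]; exact hCm _ ih _ ha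
  have hφν : φ * ν ∈ C := hCm _ hφ _ hνC
  have h0 : hm 0 (ε (hm 0 y)) ∈ R := by
    refine hR.q1 0 0 y ν (φ * ν) hνI hφν ?_
    rw [neg_zero, zpow_zero, mul_one, Int.natAbs_zero, pow_zero, one_mul, hy]
  refine ⟨h0, fun f hf => ?_⟩
  have h3 := hR'.bg f hf
  clear hf
  induction h3 using Submodule.span_induction with
  | mem f hf =>
    obtain ⟨hfR, d, b, y', rfl⟩ := hf
    have hc' := hR'.q2 d b y' hfR
    obtain ⟨n, hn⟩ := hloc _ hc'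
    -- the power of the quotient of the uniformizers
    obtain ⟨m, hm'⟩ : ∃ m : ℕ, ν ^ m * (π' / π) ^ b ∈ C := by
      rcases Int.natAbs_eq b with hb | hb
      · obtain ⟨m, hm'⟩ := h1
        refine ⟨m * b.natAbs, ?_⟩
        have e : ν ^ (m * b.natAbs) * (π' / π) ^ b = (ν ^ m * (π' / π)) ^ b.natAbs := by
          conv_lhs => rw [hb]
          rw [mul_pow, zpow_natCast, pow_mul, Int.natAbs_natCast]
        rw [e]
        exact hpow _ hm' _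
      · obtain ⟨m, hm'⟩ := h2
        refine ⟨m * b.natAbs, ?_⟩
        have e : ν ^ (m * b.natAbs) * (π' / π) ^ b = (ν ^ m * (π / π')) ^ b.natAbs := by
          conv_lhs => rw [hb]
          rw [mul_pow, zpow_neg, zpow_natCast, pow_mul, Int.natAbs_neg, Int.natAbs_natCast,
            ← inv_pow, inv_div]
        rw [e]
        exact hpow _ hm' _
    refine ⟨d.natAbs + m + n, ?_⟩
    have e1 : hm 0 (ε (hm 0 y)) ^ (d.natAbs + m + n) * hm d (ε (hm b y')) =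
        hm d (ε (hm b (y ^ (d.natAbs + m + n) * y'))) := by
      rw [hm_pow, mul_zero, hm_mul, zero_add, ← map_pow, hm_pow, mul_zero, ← map_mul, hm_mul,
        zero_add]
    rw [e1]
    refine hR.q1 d b _ ν (φ ^ (d.natAbs + m) * ((ν ^ m * (π' / π) ^ b) *
      ((φ * ν) ^ n * (ι y' * π' ^ (-b))))) hνI ?_ ?_
    · exact hCm _ (hpow _ hφ _) _ (hCm _ hm' _ hn)
    · have e2 : (π' / π) ^ b * π' ^ (-b) = π ^ (-b) := by
        rw [div_zpow, zpow_neg, zpow_neg]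
        have := zpow_ne_zero b hπ'
        have := zpow_ne_zero b hπ
        field_simp
      rw [map_mul, map_pow, hy, ← e2]
      ring
  | zero => exact ⟨0, by rw [mul_zero]; exact R.zero_mem⟩
  | add f g _ _ hf hg =>
    obtain ⟨n, hn⟩ := hf
    obtain ⟨m, hm'⟩ := hg
    refine ⟨n + m, ?_⟩
    have e : hm 0 (ε (hm 0 y)) ^ (n + m) * (f + g) =
        hm 0 (ε (hm 0 y)) ^ m * (hm 0 (ε (hm 0 y)) ^ n * f) +
        hm 0 (ε (hm 0 y)) ^ n * (hm 0 (ε (hm 0 y)) ^ m * g) := by ring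
    rw [e]
    exact R.add_mem (R.mul_mem (R.pow_mem h0 _) hn) (R.mul_mem (R.pow_mem h0 _) hm')
  | smul c f _ hf =>
    obtain ⟨n, hn⟩ := hf
    refine ⟨n, ?_⟩
    rw [mul_smul_comm]
    exact R.smul_mem hn c

end cross

end Pool.Agent.Zk15
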