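import Pool.Agent.Zk15.Fp2

/-!
# The local charts over one base
-/

set_option autoImplicit false
set_option linter.unusedSectionVars false
set_option linter.overlappingInstances false

namespace Pool.Agent.Zk15

open Pool.Agent.Y223.G
open Pool.Agent.Y232.G6 (exists_inv_mem Ph Ph_hm mem_res)
open Pool.Agent.Y550.H (iter RW_gr gr_RX hm_prod0)
open Pool.Agent.R383.TM (WD)
open Pool.Agent.Y983.G (iO iO_coe iO_alg mem_ext)

/-- The functions on the open subset `s ≠ 0` of the base which vanish at the ramified primes. -/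
def Iset {k O G : Type} (K : Type) [CommRing k] [CommRing O] [Field K] [Group G] [Algebra k O]
    [Algebra O K] [Algebra k K] (T : G →* (O ≃ₐ[k] O)) (s : k) : Set K :=
  {ν | ∃ (x : O) (n : ℕ), (∀ P ∈ F.Ram T, algebraMap k O s ∉ P → x ∈ P) ∧
    algebraMap k K s ^ n * ν = algebraMap O K x}

/-- elements of the charts -/
lemma mem_RX_of {k B K : Type} [CommRing k] [CommRing B] [Field K] [Algebra k B] [Algebra B K]
    [Algebra k K] [IsScalarTower k B K] {m : ℕ} {N : Type} (𝔔 : N → Ideal B) (e : N → ℕ)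
    (he : ∀ i, 0 < e i) (W : N → Unit → Fin (m + 1) → ℕ) (z : Unit → Fin (m + 1) → K) (d : ℕ)
    (Φ : Unit → K) {v : B} (hv : ∀ i, v ∈ 𝔔 i) {c : K} (hc : c ∈ CG B z d Φ) (d' : ℤ) :
    hm d' (algebraMap B K v ^ d'.natAbs * c) ∈
      RX k (CG B z d Φ) (fun i => RW k (𝔔 i) (e i) (W i) z d Φ) := by
  have hB := fun (i : N) => all_RWB k B K Unit (𝔔 i) (e i) (he i) m (W i) z d Φ
  have hνC : algebraMap B K v ∈ CG B z d Φ := Subalgebra.algebraMap_mem _ v
  unfold RX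
  rw [Algebra.mem_inf, Algebra.mem_iInf]
  constructor
  · exact hm_pow_mem (RR_c Nat.one_pos hc) RR_s (RR_c Nat.one_pos hνC)
      (RR_e (𝔓 := (⊤ : Ideal B)) Submodule.mem_top) d'
  · intro i
    exact hm_pow_mem ((hB i).1 _ hc) (hB i).2.2.2.1 ((hB i).1 _ hνC)
      ((hB i).2.2.2.2.1 v (hv i)) d'

/-- **The local charts over one base.** -/
theorem baseF {k O Y Y₂ K K₂ G : Type} [CommRing k] [IsDomain k] [IsNoetherianRing k]
    [CommRing O] [IsDomain O] [IsDedekindDomain O] [Field Y] [Field Y₂] [Field K] [Field K₂]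
    [Group G] [Finite G] [Algebra k O] [Algebra O K] [Algebra k K]
    [IsScalarTower k O K] [Algebra k Y] [Algebra k Y₂] [Algebra k K₂] (ι : Y →ₐ[k] K)
    (ι₂ : Y₂ →ₐ[k] K₂) (εY : LP Y →ₐ[k] Y₂) (ε : LP K →ₐ[k] K₂) (ρ : G →* (K ≃ₐ[k] K))
    (ρ₂ : G →* (K₂ ≃ₐ[k] K₂)) (hE : Ext2M ι ι₂ εY ε ρ ρ₂)
    (T : G →* (O ≃ₐ[k] O)) (m : ℕ) (z : Fin (m + 1) → K) (hyp : GHF k O K G ρ T m z)
    (hfixK : ∀ x, (∀ g, ρ g x = x) ↔ ∃ y, ι y = x)
    (e : Ideal O → ℕ) (W : Ideal O → Fin (m + 1) → ℕ) (hWD : WD k O K G ρ T z e W)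
    (d : ℕ) (hd : 1 ≤ d) (S : Set K)
    (hS : ∀ F ∈ S, F ∈ FS O z d ∧ F ≠ 0 ∧ ∀ g, ρ g F = F)
    (hq : ∀ F ∈ S, ∀ x : K, ∃ c c', c ∈ AF O z d F ∧ c' ∈ AF O z d F ∧ c' ≠ 0 ∧ x = c / c') :
    ∃ (β : Type) (_ : Finite β) (_ : Nonempty β) (o : β → k) (π : β → O)
      (R : S → β → Subalgebra k (LP Y₂)), (∀ b, o b ≠ 0) ∧
      (∀ b, π b ≠ 0) ∧ Ideal.span (Set.range o) = ⊤ ∧
      (∀ b, ∀ x : O, (∀ P ∈ F.Ram T, algebraMap k O (o b) ∉ P → x ∈ P) →
        ∃ y : O, algebraMap k O (o b) * x = y * π b) ∧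
      (∀ b b', b' ≠ b → ∀ P ∈ F.Ram T, algebraMap k O (o b) ∉ P → algebraMap k O (o b') ∈ P) ∧
      (∀ (F : S) b, LCh εY ι (AF (OL O (K := K) (o b)) z d (F : K) : Set K) (Iset K T (o b))
        (algebraMap O K (π b)) (Nat.card G) (R F b)) ∧
      ∀ (F F' : S) b y, ι y = (F' : K) / (F : K) → hm 0 (εY (hm 0 y)) ∈ R F b ∧
        ∀ f ∈ R F' b, ∃ n : ℕ, hm 0 (εY (hm 0 y)) ^ n * f ∈ R F b := by
  classical
  have hinjk : Function.Injective (algebraMap k K) := hyp.injk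
  obtain ⟨β, hβ, hβ', o, π, ho, hπ0, hspan, hZ, hDd, hb⟩ := F.ramG3 k O K G ρ T hyp.toGF
  choose dd Tb N hN 𝔔 p l τ π' hπ' hL hg hQ using hb
  have hFm : ∀ F ∈ S, FmL k O K G Unit ρ (fun _ => z) d (fun _ => F) := fun F hF =>
    ⟨fun _ => (hS F hF).1, fun _ => (hS F hF).2.1, fun g _ => (hS F hF).2.2 g⟩
  choose ee W' hee hCh using fun b => f_CH all_CHW all_RWB Pool.Agent.Y614.H.RegL.t_REGL
    k O Y Y₂ K K₂ G ι ι₂ εY ε ρ ρ₂ hE T m z hyp e W hWD (o b) (dd b) (Tb b) (N b) (𝔔 b) (p b)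
    (l b) (τ b) (π' b) (ho b) (hL b) (hg b)
  have hoK : ∀ b, algebraMap k K (o b) ≠ 0 := by
    intro b h
    apply ho b
    apply hinjk
    rw [h, map_zero]
  have hπK : ∀ b, algebraMap O K (π b) ≠ 0 := by
    intro b h
    apply hπ0 b
    apply hyp.inj
    rw [h, map_zero]
  have hn₀ : 0 < Nat.card G := Nat.card_pos
  -- the charts
  obtain ⟨R, hR⟩ : ∃ R : S → β → Subalgebra k (LP Y₂), R = fun (F : S) b =>
    res ι₂ (GRW O ε (fun _ : Unit => z) (o b) (𝔔 b) (ee b) (W' b) (algebraMap O K (π b)) d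
      (fun _ => (F : K))) := ⟨_, rfl⟩
  have hRπ : ∀ F b, R F b = res ι₂ (GRW O ε (fun _ : Unit => z) (o b) (𝔔 b) (ee b)
      (W' b) (π' b : K) d (fun _ => (F : K))) := by
    intro F b
    rw [hR, hπ']
  have hlin : ∀ (g : G) (ω : Unit) (j : Fin (m + 1)),
      ρ g ((fun _ : Unit => z) ω j) ∈ Submodule.span O (Set.range ((fun _ : Unit => z) ω)) :=
    fun g _ j => hyp.lin g j
  have hfr := fun (F : S) (b : β) => frF Pool.Agent.Y153.H.t_RES2 all_RWB k O Y Y₂ K K₂ G Unit ι ι₂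
    εY ε ρ ρ₂ hE hfixK T m (fun _ => z) hyp.com hlin (o b)
    (dd b) (Tb b) (N b) (𝔔 b) (p b) (l b) (τ b) (π' b) (ho b) (hL b)
    (ee b) (W' b) (hee b) d (fun _ => (F : K)) (hFm F F.2)
    (by
      intro x
      obtain ⟨c, c', h1, h2, h3, h4⟩ := hq F F.2 x
      rw [CG_unit]
      exact ⟨c, c', AF_up h1, AF_up h2, h3, h4⟩) (R F b) (hRπ F b)
  have hRES := fun (F : S) (b : β) => Pool.Agent.Y153.H.t_RES2 k Y Y₂ K K₂ G ι ι₂ εY ε ρ ρ₂ hE hfixK
    _ (gr_RX (k := k) (CG (OL O (K := K) (o b)) (fun _ : Unit => z) d (fun _ => (F : K)))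
      (fun i => RW k (𝔔 b i) (ee b i) (W' b i) (fun _ : Unit => z) d
        (fun _ => (F : K))) fun i => RW_gr (𝔔 b i) (ee b i) (W' b i)
        (fun _ : Unit => z) d (fun _ => (F : K))) (algebraMap O K (π b)) (hπK b)
  have hmem : ∀ (F : S) (b : β) (d' b' : ℤ) (y : Y), hm d' (εY (hm b' y)) ∈ R F b ↔
      hm d' (ι y * algebraMap O K (π b) ^ (-b')) ∈
        RX k (CG (OL O (K := K) (o b)) (fun _ : Unit => z) d (fun _ => (F : K)))
          (fun i => RW k (𝔔 b i) (ee b i) (W' b i) (fun _ : Unit => z) d (fun _ => (F : K))) := by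
    intro F b d' b' y
    rw [hR]
    exact (hRES F b).2 d' b' y
  refine ⟨β, hβ, hβ', o, π, R, ho, hπ0, hspan, hZ, hDd, fun F b => ?_, ?_⟩
  · refine ⟨?_, ?_, ?_, ?_, (hfr F b).2.1, (hfr F b).2.2.1, (hfr F b).2.2.2, ?_⟩
    · rw [hRπ]
      exact hCh b d (fun _ => (F : K)) hd (hFm F F.2)
    · rw [hR]
      exact (hRES F b).1
    · rintro d' b' y ν c ⟨x, n, hx, hxν⟩ hc hy
      rw [hmem, hy]
      have hc' : c ∈ CG (OL O (K := K) (o b)) (fun _ : Unit => z) d (fun _ => (F : K)) := by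
        rw [CG_unit]
        exact hc
      -- the element of the base
      have hinv : (algebraMap k K (o b))⁻¹ ∈ OL O (K := K) (o b) :=
        Pool.Agent.Y177.G.inv_mem_OL (o b) (hoK b)
      let v : OL O (K := K) (o b) := (⟨_, hinv⟩ : OL O (K := K) (o b)) ^ n * iO (o b) x
      have hv : algebraMap (OL O (K := K) (o b)) K v = ν := by
        change (((algebraMap k K (o b))⁻¹) ^ n * algebraMap O K x : K) = ν
        rw [← hxν, ← mul_assoc, ← mul_pow, inv_mul_cancel₀ (hoK b), one_pow, one_mul]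
      have hvQ : ∀ i, v ∈ 𝔔 b i := fun i => Ideal.mul_mem_left _ _ (hQ b i x hx)
      have h1 := mem_RX_of (k := k) (𝔔 b) (ee b) (hee b) (W' b) (fun _ => z) d
        (fun _ => (F : K)) hvQ hc' d'
      rw [hv] at h1
      exact h1
    · intro d' b' y h
      rw [hmem] at h
      have h3 : hm d' (ι y * algebraMap O K (π b) ^ (-b')) ∈
          RR k 1 1 (⊤ : Ideal (OL O (K := K) (o b))) 0
          (CG (OL O (K := K) (o b)) (fun _ : Unit => z) d (fun _ => (F : K))) := h.1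
      have h4 := RR_mem_C (fun c hc => hc) h3
      rw [CG_unit] at h4
      exact h4
    · intro V V' hV' hC
      obtain ⟨V₂, h2, h3⟩ := valF hE V V' hV' (z := fun _ : Unit => z) (s := o b) (d := d)
        (Φ := fun _ => (F : K)) (by
          intro c hc
          rw [CG_unit] at hc
          exact hC c hc) (N b) (𝔔 b) (ee b) (W' b) (algebraMap O K (π b)) (hπK b)
      refine ⟨V₂, fun x hx => h2 x ?_, h3⟩
      rw [hR] at hx
      exact hx
  · intro F F' b y hy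
    have hGL := (Pool.Agent.Y769.H.t_GLW Pool.Agent.Y153.H.t_R2M all_RWB)
      k O K K₂ G Unit ε hE.eK ρ m (fun _ => z) (o b) (hoK b) (N b)
      (𝔔 b) (ee b) (W' b) (hee b) (algebraMap O K (π b)) (hπK b) d (fun _ => (F : K))
      (hFm F F.2)
    have h1 := hGL.1 (fun _ => (F' : K)) (hFm F' F'.2) ((F' : K) / (F : K))
      ⟨inferInstance, by rw [Finset.univ_unique, Finset.prod_singleton]⟩
    have hiff : ∀ f, f ∈ R F b ↔ Ph ι₂ f ∈ GRW O ε (fun _ : Unit => z) (o b) (𝔔 b) (ee b) (W' b)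
        (algebraMap O K (π b)) d (fun _ => (F : K)) := by
      intro f
      rw [hR, mem_res]
    have hPy : Ph ι₂ (hm 0 (εY (hm 0 y))) = hm 0 (ε (hm 0 ((F' : K) / (F : K)))) := by
      rw [Ph_hm, hE.com, hy]
    refine ⟨?_, fun f hf => ?_⟩
    · rw [hiff, hPy]
      exact h1.1
    · have hf' : Ph ι₂ f ∈ GRW O ε (fun _ : Unit => z) (o b) (𝔔 b) (ee b) (W' b)
          (algebraMap O K (π b)) d (fun _ => (F' : K)) := by
        rw [hR, mem_res] at hf
        exact hf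
      obtain ⟨n, hn⟩ := h1.2 _ hf'
      refine ⟨n, ?_⟩
      rw [hiff, map_mul, map_pow, hPy]
      exact hn

end Pool.Agent.Zk15
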