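import Pool.Agent.Zk15.Fp3

/-!
# Change of the base ring
-/

set_option autoImplicit false
set_option linter.unusedSectionVars false
set_option linter.overlappingInstances false

namespace Pool.Agent.Zk15

open Pool.Agent.Y223.G

section dn

variable {D k Y Y₂ K : Type} [CommRing D] [CommRing k] [Field Y] [Field Y₂] [Field K]
  [Algebra D k] [Algebra D Y₂] [Algebra k Y₂] [IsScalarTower D k Y₂]

/-- The subalgebra, over a smaller base ring. -/
def dnS (D : Type) [CommRing D] [Algebra D k] [Algebra D Y₂] [IsScalarTower D k Y₂]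
    (R : Subalgebra k (LP Y₂)) : Subalgebra D (LP Y₂) where
  carrier := R
  mul_mem' := R.mul_mem
  add_mem' := R.add_mem
  algebraMap_mem' := fun a => by
    have h1 := R.algebraMap_mem (algebraMap D k a)
    rw [algebraMap_LP, ← IsScalarTower.algebraMap_apply, ← algebraMap_LP] at h1
    exact h1

lemma mem_dnS {R : Subalgebra k (LP Y₂)} {f : LP Y₂} : f ∈ dnS D R ↔ f ∈ R := Iff.rfl

lemma fg_dnS [Algebra.FiniteType D k] {R : Subalgebra k (LP Y₂)} (hR : Algebra.FiniteType k R) :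
    Algebra.FiniteType D (dnS D R) := by
  let _ : Algebra D R := ((algebraMap k R).comp (algebraMap D k)).toAlgebra
  have _ : IsScalarTower D k R := IsScalarTower.of_algebraMap_eq fun a => rfl
  have h1 : Algebra.FiniteType D R := Algebra.FiniteType.trans (inferInstance : Algebra.FiniteType D k) hR
  let e : R ≃ₐ[D] dnS D R :=
    { toFun := fun a => ⟨a.1, a.2⟩
      invFun := fun a => ⟨a.1, a.2⟩
      left_inv := fun a => rfl
      right_inv := fun a => rfl
      map_mul' := fun a b => rfl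
      map_add' := fun a b => rfl
      commutes' := fun a => by
        apply Subtype.ext
        change algebraMap k (LP Y₂) (algebraMap D k a) = algebraMap D (LP Y₂) a
        rw [algebraMap_LP, algebraMap_LP, ← IsScalarTower.algebraMap_apply] }
  exact Algebra.FiniteType.equiv h1 e

lemma ch_dnS [Algebra.FiniteType D k] {R : Subalgebra k (LP Y₂)} (hR : Ch R) : Ch (dnS D R) := by
  refine ⟨fg_dnS hR.ft, fun f hf d => hR.gr f hf d, hR.ss, hR.cf, hR.pos, ?_⟩
  intro e η he h0 hη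
  have h1 := hR.rg e η he h0 hη
  let ev : loc R (hm e η) he ≃+* loc (dnS D R) (hm e η) he :=
    { toFun := fun a => ⟨a.1, a.2⟩
      invFun := fun a => ⟨a.1, a.2⟩
      left_inv := fun a => rfl
      right_inv := fun a => rfl
      map_mul' := fun a b => rfl
      map_add' := fun a b => rfl }
  exact IsRegularRing.of_ringEquiv ev

/-- The local charts, over a smaller base ring. -/
theorem LCh.dn [Algebra.FiniteType D k] [Algebra D Y] [Algebra k Y] {ε : LP Y →ₐ[k] Y₂}
    (ε' : LP Y →ₐ[D] Y₂) (hε : ∀ f, ε f = ε' f) {ι : Y → K} {C I : Set K} {π : K} {n₀ : ℕ}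
    {R : Subalgebra k (LP Y₂)} (h : LCh ε ι C I π n₀ R) : LCh ε' ι C I π n₀ (dnS D R) := by
  refine ⟨ch_dnS h.ch, ?_, ?_, ?_, h.fr, ?_, ?_, ?_⟩
  · intro f hf
    have h1 := h.bg f hf
    clear hf
    -- the span over `k` is contained in the span over `D`
    have hk : ∀ (c : k), ∀ f ∈ Submodule.span D {g | g ∈ dnS D R ∧
        ∃ (d b : ℤ) (a : Y), g = hm d (ε' (hm b a))},
        c • f ∈ Submodule.span D {g | g ∈ dnS D R ∧
          ∃ (d b : ℤ) (a : Y), g = hm d (ε' (hm b a))} := by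
      intro c f hf
      induction hf using Submodule.span_induction with
      | mem g hg =>
        obtain ⟨hg, d, b, a, rfl⟩ := hg
        refine Submodule.subset_span ⟨R.smul_mem hg c, d, b, algebraMap k Y c * a, ?_⟩
        have h2 : hm b (algebraMap k Y c * a) = hm 0 (algebraMap k Y c) * hm b a := by
          rw [hm_mul, zero_add]
        rw [h2, map_mul, ← hε (hm 0 _), ← algebraMap_LP, ε.commutes, Algebra.smul_def,
          algebraMap_LP, hm_mul, zero_add]
      | zero => rw [smul_zero]; exact Submodule.zero_mem _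
      | add x y _ _ hx hy => rw [smul_add]; exact Submodule.add_mem _ hx hy
      | smul r x _ hx =>
        have e : c • r • x = r • c • x := by
          rw [Algebra.smul_def, Algebra.smul_def, Algebra.smul_def, Algebra.smul_def]
          ring
        rw [e]
        exact Submodule.smul_mem _ _ hx
    induction h1 using Submodule.span_induction with
    | mem g hg =>
      obtain ⟨hg, d, b, a, rfl⟩ := hg
      exact Submodule.subset_span ⟨hg, d, b, a, by rw [hε]⟩
    | zero => exact Submodule.zero_mem _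
    | add x y _ _ hx hy => exact Submodule.add_mem _ hx hy
    | smul c x _ hx => exact hk c x hx
  · intro d b y ν c h1 h2 h3
    have h4 := h.q1 d b y ν c h1 h2 h3
    rw [hε] at h4
    exact h4
  · intro d b y h1
    refine h.q2 d b y ?_
    rw [hε]
    exact h1
  · have h1 := h.s1
    rw [hε] at h1
    exact h1
  · obtain ⟨w, h1, h2, h3⟩ := h.un
    rw [hε] at h2 h3
    exact ⟨w, h1, h2, h3⟩
  · intro V V' h1 h2
    obtain ⟨V₂, h3, h4⟩ := h.va V V' h1 h2
    refine ⟨V₂, h3, fun x => ?_⟩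
    rw [← h4, hε]

end dn

/-- **The fields of fractions of the Laurent polynomials over a larger base ring.** -/
theorem upExt {D R Y Y₂ K K₂ G : Type} [CommRing D] [CommRing R] [Field Y] [Field Y₂] [Field K]
    [Field K₂] [Group G] [Algebra D R] [Algebra D Y] [Algebra D Y₂] [Algebra D K] [Algebra D K₂]
    [Algebra R Y] [Algebra R K] [IsScalarTower D R Y] {ι : Y →ₐ[D] K} {ι₂ : Y₂ →ₐ[D] K₂}
    {εY : LP Y →ₐ[D] Y₂} {ε : LP K →ₐ[D] K₂} {ρ : G →* (K ≃ₐ[D] K)} {ρ₂ : G →* (K₂ ≃ₐ[D] K₂)}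
    (hE : Ext2M ι ι₂ εY ε ρ ρ₂) (ι' : Y →ₐ[R] K) (hι : ∀ y, ι' y = ι y)
    (ρ' : G →* (K ≃ₐ[R] K)) (hρ : ∀ g x, ρ' g x = ρ g x) :
    ∃ (_ : Algebra R Y₂) (_ : IsScalarTower D R Y₂) (_ : Algebra R K₂) (ι₂' : Y₂ →ₐ[R] K₂)
      (εY' : LP Y →ₐ[R] Y₂) (ε' : LP K →ₐ[R] K₂) (ρ₂' : G →* (K₂ ≃ₐ[R] K₂)),
      Ext2M ι' ι₂' εY' ε' ρ' ρ₂' ∧ ∀ x, εY' x = εY x := by
  let aY : Algebra R Y₂ := (((εY : LP Y →+* Y₂).comp (zer D Y : Y →+* LP Y)).comp
    (algebraMap R Y)).toAlgebra
  let aK : Algebra R K₂ := (((ε : LP K →+* K₂).comp (zer D K : K →+* LP K)).comp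
    (algebraMap R K)).toAlgebra
  have haY : ∀ a : R, algebraMap R Y₂ a = εY (hm 0 (algebraMap R Y a)) := fun a => rfl
  have haK : ∀ a : R, algebraMap R K₂ a = ε (hm 0 (algebraMap R K a)) := fun a => rfl
  have htow : IsScalarTower D R Y₂ := IsScalarTower.of_algebraMap_eq fun c => by
    rw [haY, ← IsScalarTower.algebraMap_apply, ← algebraMap_LP, εY.commutes]
  have hιR : ∀ a : R, ι (algebraMap R Y a) = algebraMap R K a := fun a => by
    rw [← hι, ι'.commutes]
  let ι₂' : Y₂ →ₐ[R] K₂ := { (ι₂ : Y₂ →+* K₂) with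
    commutes' := fun a => by
      change ι₂ (algebraMap R Y₂ a) = algebraMap R K₂ a
      rw [haY, haK, hE.com, hιR] }
  let εY' : LP Y →ₐ[R] Y₂ := { (εY : LP Y →+* Y₂) with
    commutes' := fun a => by
      change εY (algebraMap R (LP Y) a) = algebraMap R Y₂ a
      rw [haY, algebraMap_LP] }
  let ε' : LP K →ₐ[R] K₂ := { (ε : LP K →+* K₂) with
    commutes' := fun a => by
      change ε (algebraMap R (LP K) a) = algebraMap R K₂ a
      rw [haK, algebraMap_LP] }
  have htl : ∀ g w, tl (ρ g) w = tl (ρ' g) w := by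
    intro g w
    have h1 : ∀ x : K, ρ g x = ρ' g x := fun x => (hρ g x).symm
    change AddMonoidAlgebra.mapAlgEquiv D ℤ (ρ g) w = AddMonoidAlgebra.mapAlgEquiv R ℤ (ρ' g) w
    ext n
    change (AddMonoidAlgebra.mapAlgHom ℤ ((ρ g : K ≃ₐ[D] K) : K →ₐ[D] K) w).coeff n =
      (AddMonoidAlgebra.mapAlgHom ℤ ((ρ' g : K ≃ₐ[R] K) : K →ₐ[R] K) w).coeff n
    rw [AddMonoidAlgebra.coeff_mapAlgHom, AddMonoidAlgebra.coeff_mapAlgHom]
    exact h1 _
  have hact : ∀ g (a : R), ρ₂ g (algebraMap R K₂ a) = algebraMap R K₂ a := by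
    intro g a
    rw [haK, hE.act, htl]
    have h1 : tl (ρ' g) (hm 0 (algebraMap R K a)) = hm 0 (ρ' g (algebraMap R K a)) :=
      AddMonoidAlgebra.mapAlgHom_single _ _ _
    rw [h1, (ρ' g).commutes]
  let ρ₂' : G →* (K₂ ≃ₐ[R] K₂) :=
    { toFun := fun g => AlgEquiv.ofRingEquiv (f := (ρ₂ g : K₂ ≃ₐ[D] K₂).toRingEquiv)
        (fun a => hact g a)
      map_one' := by
        ext y
        change ρ₂ 1 y = y
        rw [map_one]
        rfl
      map_mul' := fun g h => by
        ext y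
        change ρ₂ (g * h) y = ρ₂ g (ρ₂ h y)
        rw [map_mul]
        rfl }
  refine ⟨aY, htow, aK, ι₂', εY', ε', ρ₂', ⟨⟨hE.eY.inj, hE.eY.frac⟩, ⟨hE.eK.inj, hE.eK.frac⟩, ?_,
    ?_, ?_⟩, fun x => rfl⟩
  · intro g w
    have h1 := hE.act g w
    rw [htl] at h1
    exact h1
  · intro b a
    have h1 := hE.com b a
    rw [← hι] at h1
    exact h1
  · exact hE.fix

end Pool.Agent.Zk15
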