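import Pool.Agent.Zk15.Fp5
import Pool.Agent.Y25.G.Base

/-!
# Invariant forms without common zeros
-/

set_option autoImplicit false
set_option linter.unusedVariables false
set_option linter.unusedSectionVars false
set_option linter.overlappingInstances false

namespace Pool.Agent.Zk15.F

open Pool.Agent.Y223.G Pool.Agent.Zk15
open Pool.Agent.Y25.G (MN_mul MN_one MN_z FS_mul FS_pow)

variable {K : Type} [Field K] {m : ℕ} {z : Fin (m + 1) → K}

lemma MN_mprod (t : Multiset K) (h : ∀ x ∈ t, ∃ j, z j = x) : t.prod ∈ MN z (Multiset.card t) := by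
  induction t using Multiset.induction_on with
  | empty => rw [Multiset.prod_zero, Multiset.card_zero]; exact MN_one z
  | cons a t ih =>
    rw [Multiset.prod_cons, Multiset.card_cons, add_comm]
    obtain ⟨j, rfl⟩ := h a (Multiset.mem_cons_self _ _)
    exact MN_mul z (MN_z z j) (ih fun x hx => h x (Multiset.mem_cons_of_mem hx))

lemma FS_esymm (O : Type) [CommRing O] [Algebra O K] (t : Multiset K) (h : ∀ x ∈ t, ∃ j, z j = x)
    (r : ℕ) : t.esymm r ∈ FS O z r := by
  unfold Multiset.esymm
  refine multiset_sum_mem _ ?_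
  intro x hx
  rw [Multiset.mem_map] at hx
  obtain ⟨s, hs, rfl⟩ := hx
  rw [Multiset.mem_powersetCard] at hs
  have h1 := MN_mprod (z := z) s fun x hx => h x (Multiset.mem_of_le hs.1 hx)
  rw [hs.2] at h1
  exact Submodule.subset_span h1

/-- the valuation of monomials -/
lemma MN_div (V : ValuationSubring K) {j0 : Fin (m + 1)} (hj : ∀ i, z i / z j0 ∈ V)
    (h0 : z j0 ≠ 0) {d : ℕ} {x : K} (hx : x ∈ MN z d) : x / z j0 ^ d ∈ V := by
  obtain ⟨a, ha, rfl⟩ := hx
  rw [← ha, ← Finset.prod_pow_eq_pow_sum, ← Finset.prod_div_distrib]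
  refine prod_mem fun i _ => ?_
  rw [← div_pow]
  exact pow_mem (hj i) _

/-- **Invariant forms without common zeros.** -/
theorem exists_forms {G : Type} (ρ : G → (K →+* K)) (hz0 : ∀ j, z j ≠ 0)
    (hst : ∀ g j, ∃ i, ρ g (z j) = z i) :
    ∃ (d : ℕ) (S : Set K), 1 ≤ d ∧ S.Finite ∧ S.Nonempty ∧
      (∀ F ∈ S, F ≠ 0 ∧ (∀ g, ρ g F = F) ∧ ∀ (O : Type) [CommRing O] [Algebra O K],
        F ∈ FS O z d) ∧
      ∀ V : ValuationSubring K, ∃ F ∈ S, ∀ x ∈ MN z d, x / F ∈ V := by
  classical
  let Z : Finset K := Finset.univ.image z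
  have hZ : ∀ x, x ∈ Z ↔ ∃ j, z j = x := fun x => by simp [Z]
  let n := Z.card
  have hn : 0 < n := Finset.card_pos.2 ⟨z 0, (hZ _).2 ⟨0, rfl⟩⟩
  let L := n.factorial
  have hL : 0 < L := Nat.factorial_pos n
  have hdvd : ∀ r, 1 ≤ r → r ≤ n → r * (L / r) = L := fun r h1 h2 =>
    Nat.mul_div_cancel' (Nat.dvd_factorial h1 h2)
  let Fr : ℕ → K := fun r => Z.val.esymm r ^ (L / r)
  -- invariance
  have hinv : ∀ g r, ρ g (Z.val.esymm r) = Z.val.esymm r := by
    intro g r
    have h1 : Z.val.map (ρ g) = Z.val := by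
      have h2 : Z.image (ρ g) = Z := by
        apply Finset.eq_of_subset_of_card_le
        · intro x hx
          rw [Finset.mem_image] at hx
          obtain ⟨y, hy, rfl⟩ := hx
          obtain ⟨j, rfl⟩ := (hZ y).1 hy
          obtain ⟨i, hi⟩ := hst g j
          rw [hi]
          exact (hZ _).2 ⟨i, rfl⟩
        · rw [Finset.card_image_of_injective _ (ρ g).injective]
      have h4 : (Z.image (ρ g)).val = Z.val.map (ρ g) := by
        rw [Finset.image_val, Multiset.dedup_eq_self.2]
        exact Z.nodup.map (ρ g).injective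
      rw [← h4, h2]
    have h3 : ρ g (Z.val.esymm r) = (Z.val.map (ρ g)).esymm r := by
      unfold Multiset.esymm
      rw [map_multiset_sum, Multiset.powersetCard_map, Multiset.map_map, Multiset.map_map]
      congr 1
      refine Multiset.map_congr rfl fun s _ => ?_
      exact map_multiset_prod _ _
    rw [h3, h1]
  refine ⟨L, {F | ∃ r, 1 ≤ r ∧ r ≤ n ∧ F = Fr r ∧ F ≠ 0}, hL, ?_, ?_, ?_, ?_⟩
  · refine ((Finset.range (n + 1)).finite_toSet.image Fr).subset ?_
    rintro F ⟨r, h1, h2, rfl, -⟩
    exact ⟨r, by simpa using h2, rfl⟩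
  all_goals
    have key : ∀ V : ValuationSubring K, ∃ F ∈ {F | ∃ r, 1 ≤ r ∧ r ≤ n ∧ F = Fr r ∧ F ≠ 0},
        ∀ x ∈ MN z L, x / F ∈ V := by
      intro V
      -- the coordinate of smallest value
      obtain ⟨j0, hj0⟩ : ∃ j0, ∀ i, z i / z j0 ∈ V := by
        obtain ⟨j0, -, h⟩ := Finset.exists_max_image Finset.univ (fun j => V.valuation (z j))
          ⟨0, Finset.mem_univ _⟩
        refine ⟨j0, fun i => ?_⟩
        rw [← V.valuation_le_one_iff, map_div₀]
        exact div_le_one_of_le₀ (h i (Finset.mem_univ _)) zero_le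
      have h00 := hz0 j0
      let U : Multiset K := Z.val.map fun x => x / z j0
      have hU : ∀ r, U.esymm r = Z.val.esymm r / z j0 ^ r := by
        intro r
        unfold Multiset.esymm
        rw [Multiset.powersetCard_map, Multiset.map_map, div_eq_mul_inv, Multiset.sum_map_mul_right.symm]
        congr 1
        refine Multiset.map_congr rfl fun s hs => ?_
        rw [Multiset.mem_powersetCard] at hs
        change (s.map fun x => x / z j0).prod = s.prod * (z j0 ^ r)⁻¹
        rw [Multiset.prod_map_div, Multiset.map_id', Multiset.map_const', Multiset.prod_replicate,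
          hs.2, div_eq_mul_inv]
      have hUV : ∀ x ∈ U, x ∈ V := by
        intro x hx
        rw [Multiset.mem_map] at hx
        obtain ⟨y, hy, rfl⟩ := hx
        obtain ⟨j, rfl⟩ := (hZ y).1 hy
        exact hj0 j
      have hUe : ∀ r, U.esymm r ∈ V := by
        intro r
        unfold Multiset.esymm
        refine multiset_sum_mem _ ?_
        intro x hx
        rw [Multiset.mem_map] at hx
        obtain ⟨s, hs, rfl⟩ := hx
        rw [Multiset.mem_powersetCard] at hs
        exact multiset_prod_mem _ fun x hx => hUV x (Multiset.mem_of_le hs.1 hx)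
      have hUc : Multiset.card U = n := by
        rw [Multiset.card_map]
        rfl
      obtain ⟨r, hr1, hrn, hr⟩ : ∃ r, 1 ≤ r ∧ r ≤ n ∧ V.valuation (U.esymm r) = 1 := by
        by_contra hcon
        push Not at hcon
        have hlt : ∀ r, 1 ≤ r → r ≤ n → V.valuation (U.esymm r) < 1 := fun r h1 h2 =>
          lt_of_le_of_ne ((V.valuation_le_one_iff _).2 (hUe r)) (hcon r h1 h2)
        have h1 := congrArg (Polynomial.eval (-1 : K)) (Multiset.prod_X_add_C_eq_sum_esymm U)
        rw [Polynomial.eval_multiset_prod, Multiset.map_map, Polynomial.eval_finsetSum, hUc,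
          Finset.sum_range_succ'] at h1
        have h2 : (Multiset.map (Polynomial.eval (-1 : K) ∘ fun r => Polynomial.X + Polynomial.C r)
            U).prod = 0 := by
          apply Multiset.prod_eq_zero
          rw [Multiset.mem_map]
          refine ⟨1, ?_, by simp⟩
          rw [Multiset.mem_map]
          exact ⟨z j0, (hZ _).2 ⟨j0, rfl⟩, div_self h00⟩
        rw [h2] at h1
        have h3 : V.valuation (∑ k ∈ Finset.range n, Polynomial.eval (-1 : K)
            (Polynomial.C (U.esymm (k + 1)) * Polynomial.X ^ (n - (k + 1)))) < 1 := by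
          refine Valuation.map_sum_lt _ one_ne_zero fun k hk => ?_
          rw [Polynomial.eval_mul, Polynomial.eval_C, Polynomial.eval_pow, Polynomial.eval_X,
            map_mul, map_pow, Valuation.map_neg, map_one, one_pow, mul_one]
          exact hlt _ (by omega) (by rw [Finset.mem_range] at hk; omega)
        have h4 : (∑ k ∈ Finset.range n, Polynomial.eval (-1 : K)
            (Polynomial.C (U.esymm (k + 1)) * Polynomial.X ^ (n - (k + 1)))) =
            -(Polynomial.eval (-1 : K) (Polynomial.C (U.esymm 0) * Polynomial.X ^ (n - 0))) := by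
          linear_combination -h1
        rw [h4, Valuation.map_neg, Polynomial.eval_mul, Polynomial.eval_C, Polynomial.eval_pow,
          Polynomial.eval_X, map_mul, map_pow, Valuation.map_neg, map_one, one_pow, mul_one] at h3
        have h5 : U.esymm 0 = 1 := by simp [Multiset.esymm]
        rw [h5, map_one] at h3
        exact lt_irrefl _ h3
      have hF : Fr r = U.esymm r ^ (L / r) * z j0 ^ L := by
        change Z.val.esymm r ^ (L / r) = _
        rw [hU, div_pow, ← pow_mul, hdvd r hr1 hrn, div_mul_cancel₀ _ (pow_ne_zero _ h00)]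
      have hU0 : U.esymm r ≠ 0 := by
        intro h
        rw [h, map_zero] at hr
        exact zero_ne_one hr
      have hF0 : Fr r ≠ 0 := by
        rw [hF]
        exact mul_ne_zero (pow_ne_zero _ hU0) (pow_ne_zero _ h00)
      refine ⟨Fr r, ⟨r, hr1, hrn, rfl, hF0⟩, fun x hx => ?_⟩
      have h1 := MN_div V hj0 h00 hx
      have h2 : x / Fr r = (x / z j0 ^ L) * (U.esymm r ^ (L / r))⁻¹ := by
        rw [hF, div_mul_eq_div_div_swap, div_eq_mul_inv (x / z j0 ^ L)]
      rw [h2]
      refine mul_mem h1 ?_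
      rw [← V.valuation_le_one_iff, map_inv₀, map_pow, hr, one_pow, inv_one]
  · obtain ⟨F, hF, -⟩ := key ⊤
    exact ⟨F, hF⟩
  · rintro F ⟨r, h1, h2, rfl, h0⟩
    refine ⟨h0, fun g => ?_, fun O _ _ => ?_⟩
    · change ρ g (Z.val.esymm r ^ (L / r)) = _
      rw [map_pow, hinv]
    · have h3 := FS_pow (k := O) z (FS_esymm (z := z) O Z.val (fun x hx => (hZ x).1 hx) r) (L / r)
      rw [hdvd r h1 h2] at h3
      exact h3
  · exact key

end Pool.Agent.Zk15.F
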