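import Pool.Agent.Zk15.Fp4
import Pool.Agent.Zk15.Fp6

/-!
# Assembly of a model from the local charts over several bases
-/

set_option autoImplicit false
set_option linter.unusedSectionVars false
set_option linter.overlappingInstances false

namespace Pool.Agent.Zk15

open Pool.Agent.Y223.G

section cc

variable {K : Type} [Field K] {m : ℕ} {z : Fin (m + 1) → K} {d : ℕ}

/-- The chart of a form. -/
def CC (B : Subring K) (z : Fin (m + 1) → K) (d : ℕ) (F : K) : Subring K :=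
  Subring.closure ((B : Set K) ∪ {y | ∃ x ∈ MN z d, y = x / F})

lemma B_CC {B : Subring K} {F : K} {b : K} (hb : b ∈ B) : b ∈ CC B z d F :=
  Subring.subset_closure (Or.inl hb)

lemma MN_CC {B : Subring K} {F : K} {x : K} (hx : x ∈ MN z d) : x / F ∈ CC B z d F :=
  Subring.subset_closure (Or.inr ⟨x, hx, rfl⟩)

lemma AF_CC {B' : Type} [CommRing B'] [Algebra B' K] (B : Subring K)
    (h : ∀ x, x ∈ B ↔ ∃ b : B', algebraMap B' K b = x) (F : K) :
    (AF B' z d F : Set K) = CC B z d F := by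
  ext x
  constructor
  · intro hx
    have hx' : x ∈ AF B' z d F := hx
    unfold AF at hx'
    clear hx
    induction hx' using Algebra.adjoin_induction with
    | mem x hx => exact Subring.subset_closure (Or.inr hx)
    | algebraMap r => exact B_CC ((h _).2 ⟨r, rfl⟩)
    | add x y _ _ hx hy => exact add_mem hx hy
    | mul x y _ _ hx hy => exact mul_mem hx hy
  · intro hx
    have hx' : x ∈ CC B z d F := hx
    unfold CC at hx'
    clear hx
    induction hx' using Subring.closure_induction with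
    | mem x hx =>
      rcases hx with hx | hx
      · obtain ⟨b, rfl⟩ := (h x).1 hx
        exact Subalgebra.algebraMap_mem _ _
      · exact Algebra.subset_adjoin hx
    | zero => exact zero_mem (AF B' z d F)
    | one => exact one_mem (AF B' z d F)
    | add x y _ _ hx hy => exact add_mem (S := Subalgebra B' K) (s := AF B' z d F) hx hy
    | neg x _ hx => exact neg_mem (S := Subalgebra B' K) (s := AF B' z d F) hx
    | mul x y _ _ hx hy => exact mul_mem (S := Subalgebra B' K) (s := AF B' z d F) hx hy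

lemma CC_loc {B B' : Subring K} {F F' ν : K} (hF : F ≠ 0) (hF' : F' ≠ 0)
    (hφ : F' / F ∈ CC B z d F) (hν : ν ∈ B) (hB : ∀ y ∈ B', ∃ n : ℕ, ν ^ n * y ∈ B) :
    ∀ c ∈ CC B' z d F', ∃ n : ℕ, (F' / F * ν) ^ n * c ∈ CC B z d F := by
  have hl : F' / F * ν ∈ CC B z d F := mul_mem hφ (B_CC hν)
  intro c hc
  unfold CC at hc
  induction hc using Subring.closure_induction with
  | mem x hx =>
    rcases hx with hx | ⟨x, hx, rfl⟩
    · obtain ⟨n, hn⟩ := hB x hx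
      refine ⟨n, ?_⟩
      rw [mul_pow, mul_assoc]
      exact mul_mem (pow_mem hφ n) (B_CC hn)
    · refine ⟨1, ?_⟩
      have e : (F' / F * ν) ^ 1 * (x / F') = ν * (x / F) := by
        field_simp
      rw [e]
      exact mul_mem (B_CC hν) (MN_CC hx)
  | zero => exact ⟨0, by rw [mul_zero]; exact zero_mem _⟩
  | one => exact ⟨0, by rw [pow_zero, one_mul]; exact one_mem _⟩
  | add x y _ _ hx hy =>
    obtain ⟨n, hn⟩ := hx
    obtain ⟨k, hk⟩ := hy
    refine ⟨n + k, ?_⟩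
    have e : (F' / F * ν) ^ (n + k) * (x + y) = (F' / F * ν) ^ k * ((F' / F * ν) ^ n * x) +
        (F' / F * ν) ^ n * ((F' / F * ν) ^ k * y) := by ring
    rw [e]
    exact add_mem (mul_mem (pow_mem hl _) hn) (mul_mem (pow_mem hl _) hk)
  | neg x _ hx =>
    obtain ⟨n, hn⟩ := hx
    exact ⟨n, by rw [mul_neg]; exact neg_mem hn⟩
  | mul x y _ _ hx hy =>
    obtain ⟨n, hn⟩ := hx
    obtain ⟨k, hk⟩ := hy
    refine ⟨n + k, ?_⟩
    have e : (F' / F * ν) ^ (n + k) * (x * y) = ((F' / F * ν) ^ n * x) *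
        ((F' / F * ν) ^ k * y) := by ring
    rw [e]
    exact mul_mem hn hk

end cc

/-- The comparison of the local equations of the ramified primes. -/
lemma pi_cmp {K : Type} [Field K] {B B' : Subring K} {I I' : Set K} {π π' ν : K} (hν0 : ν ≠ 0)
    (hπ : π ∈ B) (hπ' : π' ∈ B') (hIπ : ∀ x ∈ I, x / π ∈ B) (hIπ' : ∀ x ∈ I', x / π' ∈ B')
    (hνB : ν ∈ B) (hν : ν ∈ I) (hν' : ν⁻¹ ∈ I') (hB : ∀ y ∈ B', ∃ n : ℕ, ν ^ n * y ∈ B) :
    (∃ n : ℕ, ν ^ n * (π' / π) ∈ B) ∧ ∃ n : ℕ, ν ^ n * (π / π') ∈ B := by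
  constructor
  · obtain ⟨n, hn⟩ := hB _ hπ'
    refine ⟨n + 1, ?_⟩
    have e : ν ^ (n + 1) * (π' / π) = (ν / π) * (ν ^ n * π') := by ring
    rw [e]
    exact mul_mem (hIπ _ hν) hn
  · obtain ⟨n, hn⟩ := hB _ (hIπ' _ hν')
    refine ⟨n, ?_⟩
    have e : ν ^ n * (π / π') = (π * ν) * (ν ^ n * (ν⁻¹ / π')) := by
      field_simp
    rw [e]
    exact mul_mem (mul_mem hπ hνB) hn

/-- **Assembly of a model from the local charts over several bases.** -/
theorem assemX {D Y Y₂ K : Type} [CommRing D] [IsDomain D] [IsNoetherianRing D] [Field Y]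
    [Field Y₂] [Field K] [Algebra D Y] [Algebra D Y₂] (hDinj : Function.Injective (algebraMap D Y))
    (ε : LP Y →ₐ[D] Y₂) (hε : Ext2 ε) (ι : Y →+* K) (n₀ : ℕ) (hn₀ : 0 < n₀)
    {m : ℕ} (z : Fin (m + 1) → K) (d : ℕ) (S : Set K) (hSfin : S.Finite) (hS0 : ∀ F ∈ S, F ≠ 0)
    (β : Type) [Finite β] (B : β → Subring K) (I : β → Set K) (π σ : β → K) (hσ : ∀ b, σ b ≠ 0)
    (hπ0 : ∀ b, π b ≠ 0) (hIB : ∀ b, ∀ x ∈ I b, x ∈ B b) (hπB : ∀ b, π b ∈ B b)
    (hIπ : ∀ b, ∀ x ∈ I b, x / π b ∈ B b)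
    (hSS : ∀ F ∈ S, ∀ F' ∈ S, ∀ b, F' / F ∈ CC (B b) z d F)
    (R : S → β → Subalgebra D (LP Y₂))
    (hR : ∀ (F : S) b, LCh ε ι (CC (B b) z d F) (I b) (π b) n₀ (R F b))
    (hsame : ∀ (F F' : S) b y, ι y = (F' : K) / (F : K) → hm 0 (ε (hm 0 y)) ∈ R F b ∧
        ∀ f ∈ R F' b, ∃ n : ℕ, hm 0 (ε (hm 0 y)) ^ n * f ∈ R F b)
    (h : S → β → Y) (hh : ∀ F b, ι (h F b) = (F : K) * σ b)
    (h1 : ∀ b b', b' ≠ b → σ b' / σ b ∈ I b)
    (h2 : ∀ b b', b' ≠ b → ∀ y ∈ B b', ∃ n : ℕ, (σ b' / σ b) ^ n * y ∈ B b)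
    (hcov : ∀ V : ValuationSubring Y, (∀ c : D, algebraMap D Y c ∈ V) →
      ∃ (F : S) (b : β) (V' : ValuationSubring K), (∀ x, ι x ∈ V' ↔ x ∈ V) ∧
        ∀ c ∈ CC (B b) z d F, c ∈ V') :
    ∃ (I : Type) (_ : Finite I) (w : I → Y) (J : Set I),
      ModelG (k := D) False ⊥ (⊤ : Subfield Y) w J := by
  have hfinS : Finite S := hSfin
  have hh0 : ∀ F b, h F b ≠ 0 := by
    intro F b h0
    have h3 := hh F b
    rw [h0, map_zero] at h3
    exact mul_ne_zero (hS0 F F.2) (hσ b) h3.symm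
  have hquot : ∀ a a' : S × β, ι (h a'.1 a'.2 / h a.1 a.2) =
      ((a'.1 : K) / (a.1 : K)) * (σ a'.2 / σ a.2) := by
    intro a a'
    rw [map_div₀, hh, hh, mul_div_mul_comm]
  have hglue : ∀ a a' : S × β, hm 0 (ε (hm 0 (h a'.1 a'.2 / h a.1 a.2))) ∈ R a.1 a.2 ∧
      ∀ f ∈ R a'.1 a'.2, ∃ n : ℕ, hm 0 (ε (hm 0 (h a'.1 a'.2 / h a.1 a.2))) ^ n * f ∈
        R a.1 a.2 := by
    rintro ⟨F, b⟩ ⟨F', b'⟩
    by_cases hb : b' = b
    · subst hb
      refine hsame F F' b' _ ?_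
      rw [hquot (F, b') (F', b'), div_self (hσ b'), mul_one]
    · have hν0 : σ b' / σ b ≠ 0 := div_ne_zero (hσ b') (hσ b)
      have hνI := h1 b b' hb
      have hν'I := h1 b' b (Ne.symm hb)
      rw [← inv_div] at hν'I
      have hcmp := pi_cmp hν0 (hπB b) (hπB b') (hIπ b) (hIπ b') (hIB b _ hνI) hνI hν'I (h2 b b' hb)
      refine glX (C := (CC (B b) z d F : Set K)) (C' := (CC (B b') z d F' : Set K)) (hR F b)
        (hR F' b') (one_mem (CC (B b) z d F)) (fun x hx y hy => mul_mem (S := Subring K) hx hy)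
        (hπ0 b) (hπ0 b') (hquot (F, b) (F', b')) (hSS F F.2 F' F'.2 b) hνI (B_CC (hIB b _ hνI))
        (CC_loc (hS0 F F.2) (hS0 F' F'.2) (hSS F F.2 F' F'.2 b) (hIB b _ hνI) (h2 b b' hb))
        ?_ ?_
      · obtain ⟨n, hn⟩ := hcmp.1
        exact ⟨n, B_CC hn⟩
      · obtain ⟨n, hn⟩ := hcmp.2
        exact ⟨n, B_CC hn⟩
  exact tailF hDinj ε hε ι n₀ hn₀ (S × β) (fun a => (CC (B a.2) z d (a.1 : K) : Set K))
    (fun a => I a.2) (fun a => π a.2) (fun a => R a.1 a.2) (fun a => h a.1 a.2)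
    (fun a => hh0 a.1 a.2) (fun a => hR a.1 a.2) (fun a a' => (hglue a a').1)
    (fun a a' => (hglue a a').2) (fun V hV => by
      obtain ⟨F, b, V', h3, h4⟩ := hcov V hV
      exact ⟨(F, b), V', h3, h4⟩)

end Pool.Agent.Zk15
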