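import Pool.Agent.Zk15.Lz4
import Pool.Agent.Zk15.Fp16

/-!
# Tori over number fields, with an abstract coordinate ring
-/

set_option autoImplicit false
set_option linter.unusedVariables false
set_option linter.unusedSectionVars false
set_option linter.overlappingInstances false

open AlgebraicGeometry CategoryTheory NumberField

namespace Pool.Agent.Zk15

section mon

variable {M K Λ : Type} [Field M] [Field K] [Algebra M K] [AddCommGroup Λ] {n : ℕ}
  (e0 : Module.Basis (Fin n) ℤ Λ) {X : Λ → K}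

lemma X_nsmul'' (X0 : X 0 = 1) (Xa : ∀ a b, X (a + b) = X a * X b) (a : Λ) (m : ℕ) :
    X (m • a) = X a ^ m := by
  induction m with
  | zero => rw [zero_smul, X0, pow_zero]
  | succ m ih => rw [succ_nsmul, Xa, ih, pow_succ]

lemma X_zsmul (X0 : X 0 = 1) (Xa : ∀ a b, X (a + b) = X a * X b) (a : Λ) (m : ℤ) :
    X (m • a) = X a ^ m := by
  cases m with
  | ofNat m =>
    rw [Int.ofNat_eq_natCast, natCast_zsmul, X_nsmul'' X0 Xa, zpow_natCast]
  | negSucc m =>
    rw [negSucc_zsmul, zpow_negSucc, ← X_nsmul'' X0 Xa]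
    exact eq_inv_of_mul_eq_one_right (X_neg X0 Xa _)

lemma X_fsum (X0 : X 0 = 1) (Xa : ∀ a b, X (a + b) = X a * X b) (f : Fin n → Λ) :
    X (∑ i, f i) = ∏ i, X (f i) := by
  classical
  have h : ∀ s : Finset (Fin n), X (∑ i ∈ s, f i) = ∏ i ∈ s, X (f i) := by
    intro s
    induction s using Finset.induction_on with
    | empty => rw [Finset.sum_empty, Finset.prod_empty, X0]
    | insert i s hi ih => rw [Finset.sum_insert hi, Finset.prod_insert hi, Xa, ih]
  exact h _

lemma mono_X (X0 : X 0 = 1) (Xa : ∀ a b, X (a + b) = X a * X b) (m : Fin n → ℤ) :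
    mono (fun i => X (e0 i)) m = X (e0.equivFun.symm m) := by
  unfold mono
  rw [Module.Basis.equivFun_symm_apply, X_fsum X0 Xa]
  exact Finset.prod_congr rfl fun i _ => (X_zsmul X0 Xa _ _).symm

theorem algInd_X (X0 : X 0 = 1) (Xa : ∀ a b, X (a + b) = X a * X b)
    (li : LinearIndependent M X) : AlgebraicIndependent M (fun i => X (e0 i)) := by
  classical
  let f : (Fin n →₀ ℕ) → Λ := fun s => e0.equivFun.symm fun i => (s i : ℤ)
  have hf : Function.Injective f := by
    intro s t hst
    have h1 := e0.equivFun.symm.injective hst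
    ext i
    exact_mod_cast congrFun h1 i
  have h2 : ∀ s : Fin n →₀ ℕ, ∏ i, X (e0 i) ^ s i = X (f s) := by
    intro s
    change _ = X (e0.equivFun.symm fun i => (s i : ℤ))
    rw [← mono_X e0 X0 Xa]
    unfold mono
    exact Finset.prod_congr rfl fun i _ => (zpow_natCast _ _).symm
  rw [algebraicIndependent_iff]
  intro p hp
  rw [MvPolynomial.aeval_def, MvPolynomial.eval₂_eq'] at hp
  have h3 := linearIndependent_iff'.1 (li.comp f hf) p.support (fun d => p.coeff d) (by
    rw [← hp]
    refine Finset.sum_congr rfl fun d _ => ?_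
    rw [h2, Algebra.smul_def]
    rfl)
  ext d
  by_cases hd : d ∈ p.support
  · rw [h3 d hd, MvPolynomial.coeff_zero]
  · rw [MvPolynomial.notMem_support_iff.1 hd, MvPolynomial.coeff_zero]

end mon

/-- **Tori over number fields.** -/
theorem torusNF {E M B K D Y Λ : Type} [Field E] [NumberField E] [Field M] [NumberField M]
    [Algebra E M] [IsGalois E M] {N' : ℕ} (hN' : N' ≠ 0)
    (hin : ∀ 𝔓 : Ideal (𝓞 M), 𝔓.IsMaximal → (N' : 𝓞 M) ∉ 𝔓 → ∀ p : ℕ, p.Prime →
      (p : 𝓞 M) ∈ 𝔓 → ¬ p ^ 2 ∣ Nat.card (Pool.Agent.Y223.G.inert E 𝔓))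
    [CommRing B] [IsDomain B] [Algebra E B] [Algebra M B] [IsScalarTower E M B]
    (θ : (M ≃ₐ[E] M) →* (B ≃ₐ[E] B))
    (hθM : ∀ g x, θ g (algebraMap M B x) = algebraMap M B (g x))
    [AddCommGroup Λ] {n : ℕ} (e0 : Module.Basis (Fin n) ℤ Λ) (φ : (M ≃ₐ[E] M) →* (Λ ≃ₗ[ℤ] Λ))
    (x : Λ → B) (x0 : x 0 = 1) (xa : ∀ a b, x (a + b) = x a * x b) (li : LinearIndependent M x)
    (hsp : Algebra.adjoin M (Set.range x) = ⊤) (hθx : ∀ g m, θ g (x m) = x (φ g m))
    [CommRing D] [IsDomain D] [Algebra E D] (j : D →ₐ[E] B) (hj : Function.Injective j)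
    (hjfix : ∀ b, (∀ g, θ g b = b) ↔ ∃ d, j d = b)
    [Field K] [Algebra B K] [IsFractionRing B K] [Algebra E K] [Algebra M K]
    [IsScalarTower E B K] [IsScalarTower M B K] [IsScalarTower E M K]
    [Field Y] [Algebra D Y] [IsFractionRing D Y] [Algebra E Y] [IsScalarTower E D Y] :
    ∃ (X' : Scheme.{0}) (_ : IsIntegral X') (g : X' ⟶ Spec (CommRingCat.of ℤ)),
      IsProper g ∧
      (∀ x : X', ¬ ringChar (IsLocalRing.ResidueField (X'.presheaf.stalk x)) ∣ N' →
        IsRegularLocalRing (X'.presheaf.stalk x)) ∧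
      Nonempty (X'.functionField ≃+* Y) := by
  classical
  have := Fintype.ofFinite (M ≃ₐ[E] M)
  have hBK : Function.Injective (algebraMap B K) := IsFractionRing.injective B K
  let ρK : (M ≃ₐ[E] M) →* (K ≃ₐ[E] K) :=
    (IsFractionRing.fieldEquivOfAlgEquivHom (A := E) (B := B) E K).comp θ
  have hρK : ∀ g b, ρK g (algebraMap B K b) = algebraMap B K (θ g b) := fun g b =>
    IsFractionRing.fieldEquivOfAlgEquiv_algebraMap E K K (θ g) b
  have hjK : Function.Injective ((IsScalarTower.toAlgHom E B K).comp j) := hBK.comp hj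
  let ι : Y →ₐ[E] K := IsFractionRing.liftAlgHom (A := D) (K := Y) hjK
  have hι : ∀ d : D, ι (algebraMap D Y d) = algebraMap B K (j d) := fun d =>
    IsFractionRing.lift_algebraMap hjK d
  have hfixK : ∀ y : K, (∀ g, ρK g y = y) ↔ ∃ y', ι y' = y := by
    intro y
    constructor
    · intro hy
      obtain ⟨a, b, hb, hab⟩ := IsFractionRing.div_surjective (A := B) (y : K)
      have hb0 : b ≠ 0 := nonZeroDivisors.ne_zero hb
      -- the norm of the denominator
      have hn : ∀ g, θ g (∏ h : (M ≃ₐ[E] M), θ h b) = ∏ h : (M ≃ₐ[E] M), θ h b := by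
        intro g
        rw [map_prod]
        refine Fintype.prod_equiv (Equiv.mulLeft g) _ _ fun h => ?_
        rw [Equiv.coe_mulLeft, map_mul, AlgEquiv.mul_apply]
      have hn0 : (∏ h : (M ≃ₐ[E] M), θ h b) ≠ 0 := Finset.prod_ne_zero_iff.2 fun h _ =>
        (map_ne_zero_iff _ (θ h).injective).2 hb0
      have hmul : (∏ h : (M ≃ₐ[E] M), θ h b) = b * ∏ h ∈ Finset.univ.erase 1, θ h b := by
        rw [← Finset.mul_prod_erase Finset.univ _ (Finset.mem_univ (1 : (M ≃ₐ[E] M))), map_one,
          AlgEquiv.one_apply]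
      have hnum : (y : K) * algebraMap B K (∏ h : (M ≃ₐ[E] M), θ h b) =
          algebraMap B K (a * ∏ h ∈ Finset.univ.erase 1, θ h b) := by
        have hbK : algebraMap B K b ≠ 0 := (map_ne_zero_iff _ hBK).2 hb0
        rw [hmul, ← hab, map_mul, map_mul]
        field_simp
      have hnumi : ∀ g, θ g (a * ∏ h ∈ Finset.univ.erase 1, θ h b) =
          a * ∏ h ∈ Finset.univ.erase 1, θ h b := by
        intro g
        apply hBK
        rw [← hρK, ← hnum, map_mul, hρK, hn]
        rw [hy g]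
      obtain ⟨d, hd⟩ := (hjfix _).1 hn
      obtain ⟨c, hc⟩ := (hjfix _).1 hnumi
      have hd0 : algebraMap B K (∏ h : (M ≃ₐ[E] M), θ h b) ≠ 0 :=
        (map_ne_zero_iff _ hBK).2 hn0
      refine ⟨algebraMap D Y c / algebraMap D Y d, ?_⟩
      rw [map_div₀, hι, hι, hc, hd, ← hnum, mul_div_assoc, div_self hd0, mul_one]
    · rintro ⟨y', rfl⟩ g
      obtain ⟨a, b, hb, rfl⟩ := IsFractionRing.div_surjective (A := D) y'
      rw [map_div₀, map_div₀, hι, hι, hρK, hρK, (hjfix _).2 ⟨a, rfl⟩ g, (hjfix _).2 ⟨b, rfl⟩ g]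
  let algYK : Algebra Y K := (ι : Y →+* K).toAlgebra
  have htow : IsScalarTower E Y K := IsScalarTower.of_algebraMap_eq fun c => (ι.commutes c).symm
  -- the monomials
  obtain ⟨X, hX⟩ : ∃ X : Λ → K, X = fun m => algebraMap B K (x m) := ⟨_, rfl⟩
  have hXx : ∀ m, X m = algebraMap B K (x m) := fun m => by rw [hX]
  have X0 : X 0 = 1 := by rw [hXx, x0, map_one]
  have Xa : ∀ a b, X (a + b) = X a * X b := fun a b => by rw [hXx, hXx, hXx, xa, map_mul]
  have hli : LinearIndependent M X := by
    rw [hX]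
    exact li.map' (IsScalarTower.toAlgHom M B K).toLinearMap (LinearMap.ker_eq_bot.2 hBK)
  have hgen : IntermediateField.adjoin M (Set.range fun i => X (e0 i)) = ⊤ := by
    rw [eq_top_iff]
    rintro y -
    set L := IntermediateField.adjoin M (Set.range fun i => X (e0 i)) with hL
    have hyL : ∀ i, X (e0 i) ∈ L := fun i => IntermediateField.subset_adjoin _ _ ⟨i, rfl⟩
    have hXL : ∀ μ, X μ ∈ L := by
      intro μ
      have h1 := mono_X e0 X0 Xa (e0.equivFun μ)
      rw [LinearEquiv.symm_apply_apply] at h1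
      rw [← h1]
      exact L.prod_mem fun i _ => zpow_mem (hyL i) _
    have hBL : ∀ b : B, algebraMap B K b ∈ L := by
      intro b
      have hb : b ∈ Algebra.adjoin M (Set.range x) := by
        rw [hsp]
        trivial
      induction hb using Algebra.adjoin_induction with
      | mem b hb =>
        obtain ⟨μ, rfl⟩ := hb
        rw [← hXx]
        exact hXL μ
      | algebraMap c =>
        rw [← IsScalarTower.algebraMap_apply]
        exact L.algebraMap_mem c
      | add a b _ _ ha hb => rw [map_add]; exact add_mem ha hb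
      | mul a b _ _ ha hb => rw [map_mul]; exact mul_mem ha hb
    obtain ⟨a, b, -, rfl⟩ := IsFractionRing.div_surjective (A := B) y
    exact L.div_mem (hBL a) (hBL b)
  let φ' : (M ≃ₐ[E] M) →* ((Fin n → ℤ) ≃ₗ[ℤ] (Fin n → ℤ)) :=
    { toFun := fun g => (e0.equivFun.symm.trans (φ g)).trans e0.equivFun
      map_one' := by
        refine LinearEquiv.ext fun v => ?_
        change e0.equivFun (φ 1 (e0.equivFun.symm v)) = v
        rw [map_one]
        change e0.equivFun (e0.equivFun.symm v) = v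
        rw [LinearEquiv.apply_symm_apply]
      map_mul' := fun g h => by
        refine LinearEquiv.ext fun v => ?_
        change e0.equivFun (φ (g * h) (e0.equivFun.symm v)) =
          e0.equivFun (φ g (e0.equivFun.symm (e0.equivFun (φ h (e0.equivFun.symm v)))))
        rw [LinearEquiv.symm_apply_apply, map_mul]
        rfl }
  refine tori_N (E := E) (M := M) (F := Y) (K := K) hN' hin φ' ρK ?_ ?_ (algInd_X e0 X0 Xa hli)
    hgen ?_
  · intro g c
    rw [IsScalarTower.algebraMap_apply M B K, hρK, hθM, ← IsScalarTower.algebraMap_apply]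
  · exact hfixK
  · intro g m
    rw [mono_X e0 X0 Xa, mono_X e0 X0 Xa, hXx, hρK, hθx, hXx]
    congr 2
    change _ = e0.equivFun.symm (e0.equivFun (φ g (e0.equivFun.symm m)))
    rw [LinearEquiv.symm_apply_apply]

end Pool.Agent.Zk15
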