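import Mathlib

/-!
# Lattices with an automorphism of prime order: faces of smooth cones
-/

set_option autoImplicit false

namespace Pool.Agent.Zk15

variable {Λ : Type} [AddCommGroup Λ] {n : ℕ}

/-- The kernel of the norm `1 + t + ... + t ^ (p - 1)`. -/
def KN (t : Λ →+ Λ) (p : ℕ) : AddSubgroup Λ where
  carrier := {m | ∑ k ∈ Finset.range p, t^[k] m = 0}
  add_mem' := by
    intro a b ha hb
    simp only [Set.mem_ofPred_eq, iterate_map_add, Finset.sum_add_distrib] at *
    rw [ha, hb, add_zero]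
  zero_mem' := by simp
  neg_mem' := by
    intro a ha
    simp only [Set.mem_ofPred_eq, iterate_map_neg, Finset.sum_neg_distrib] at *
    rw [ha, neg_zero]

lemma mem_KN {t : Λ →+ Λ} {p : ℕ} {m : Λ} :
    m ∈ KN t p ↔ ∑ k ∈ Finset.range p, t^[k] m = 0 := Iff.rfl

lemma KN_step {t : Λ →+ Λ} {p : ℕ} (hp : ∀ x, t^[p] x = x) (m : Λ) : t m - m ∈ KN t p := by
  rw [mem_KN]
  have h1 : ∀ k, t^[k] (t m - m) = t^[k + 1] m - t^[k] m := by
    intro k
    rw [iterate_map_sub, Function.iterate_succ_apply]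
  simp only [h1]
  rw [Finset.sum_range_sub (fun k => t^[k] m), hp, Function.iterate_zero_apply, sub_self]

lemma KN_iter {t : Λ →+ Λ} {p : ℕ} (hp : ∀ x, t^[p] x = x) (k : ℕ) (m : Λ) :
    t^[k] m - m ∈ KN t p := by
  induction k with
  | zero => rw [Function.iterate_zero_apply, sub_self]; exact (KN t p).zero_mem
  | succ k ih =>
    have h1 : t^[k + 1] m - m = (t (t^[k] m) - t^[k] m) + (t^[k] m - m) := by
      rw [Function.iterate_succ_apply']
      abel
    rw [h1]
    exact (KN t p).add_mem (KN_step hp _) ih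

lemma KN_stab {t : Λ →+ Λ} {p : ℕ} {m : Λ} (hm : m ∈ KN t p) : t m ∈ KN t p := by
  rw [mem_KN] at *
  have h1 : ∀ k, t^[k] (t m) = t (t^[k] m) := fun k => by
    rw [← Function.iterate_succ_apply, Function.iterate_succ_apply']
  simp only [h1]
  rw [← map_sum, hm, map_zero]

section cone

variable (b : Module.Basis (Fin n) ℤ Λ) (J : Set (Fin n))

/-- The monoid generated by the elements `b i` and the elements `- b i`, for `i` in `J`. -/
def SF : AddSubmonoid Λ where
  carrier := {s | ∀ i, i ∉ J → 0 ≤ b.repr s i}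
  add_mem' := by
    intro x y hx hy i hi
    rw [map_add, Finsupp.add_apply]
    exact add_nonneg (hx i hi) (hy i hi)
  zero_mem' := by
    intro i _
    rw [map_zero, Finsupp.zero_apply]

/-- The group generated by the elements `b i`, for `i` in `J`. -/
def LF : AddSubgroup Λ where
  carrier := {s | ∀ i, i ∉ J → b.repr s i = 0}
  add_mem' := by
    intro x y hx hy i hi
    rw [map_add, Finsupp.add_apply, hx i hi, hy i hi, add_zero]
  zero_mem' := by
    intro i _
    rw [map_zero, Finsupp.zero_apply]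
  neg_mem' := by
    intro x hx i hi
    rw [map_neg, Finsupp.neg_apply, hx i hi, neg_zero]

variable {b J}

lemma mem_SF {s : Λ} : s ∈ SF b J ↔ ∀ i, i ∉ J → 0 ≤ b.repr s i := Iff.rfl

lemma mem_LF {s : Λ} : s ∈ LF b J ↔ ∀ i, i ∉ J → b.repr s i = 0 := Iff.rfl

lemma LF_le {s : Λ} (hs : s ∈ LF b J) : s ∈ SF b J := fun i hi => (hs i hi).ge

lemma mem_LF_iff {s : Λ} : s ∈ LF b J ↔ s ∈ SF b J ∧ -s ∈ SF b J := by
  constructor
  · intro h
    exact ⟨LF_le h, LF_le (neg_mem h)⟩
  · rintro ⟨h1, h2⟩ i hi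
    have h3 := h2 i hi
    rw [map_neg, Finsupp.neg_apply] at h3
    have h4 := h1 i hi
    omega

lemma b_mem (i : Fin n) : b i ∈ SF b J := by
  intro j _
  rw [b.repr_self, Finsupp.single_apply]
  split_ifs <;> norm_num

lemma b_not {i : Fin n} (hi : i ∉ J) : b i ∉ LF b J := by
  intro h
  have h1 := h i hi
  rw [b.repr_self, Finsupp.single_eq_same] at h1
  exact one_ne_zero h1

lemma b_J {i : Fin n} (hi : i ∈ J) : b i ∈ LF b J := by
  intro j hj
  rw [b.repr_self, Finsupp.single_apply, if_neg]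
  rintro rfl
  exact hj hi

/-- Removing a generator. -/
lemma sub_b {s : Λ} (hs : s ∈ SF b J) {i : Fin n} (h : 0 < b.repr s i) : s - b i ∈ SF b J := by
  intro j hj
  rw [map_sub, Finsupp.sub_apply, b.repr_self, Finsupp.single_apply]
  split_ifs with h1
  · subst h1
    omega
  · rw [sub_zero]
    exact hs j hj

/-- Elements which are not units. -/
lemma exists_pos {s : Λ} (hs : s ∈ SF b J) (h : s ∉ LF b J) : ∃ i, i ∉ J ∧ 0 < b.repr s i := by
  by_contra hcon
  push Not at hcon
  exact h fun i hi => le_antisymm (hcon i hi) (hs i hi)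

/-- The height. -/
noncomputable def ht (b : Module.Basis (Fin n) ℤ Λ) (J : Set (Fin n)) (s : Λ) : ℕ :=
  open Classical in ∑ i, if i ∈ J then 0 else (b.repr s i).toNat

lemma ht_sub {s : Λ} {i : Fin n} (hi : i ∉ J) (h : 0 < b.repr s i) :
    ht b J (s - b i) < ht b J s := by
  classical
  unfold ht
  apply Finset.sum_lt_sum
  · intro j _
    rw [map_sub, Finsupp.sub_apply, b.repr_self, Finsupp.single_apply]
    split_ifs <;> omega
  · refine ⟨i, Finset.mem_univ _, ?_⟩
    rw [map_sub, Finsupp.sub_apply, b.repr_self, Finsupp.single_apply, if_neg hi, if_neg hi,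
      if_pos rfl]
    omega

section action

variable {t : Λ →+ Λ} {p : ℕ}

lemma SF_iter (hS : ∀ s ∈ SF b J, t s ∈ SF b J) (k : ℕ) {s : Λ} (hs : s ∈ SF b J) :
    t^[k] s ∈ SF b J := by
  induction k with
  | zero => exact hs
  | succ k ih =>
    rw [Function.iterate_succ_apply']
    exact hS _ ih

lemma LF_iter (hS : ∀ s ∈ SF b J, t s ∈ SF b J) (k : ℕ) {s : Λ} (hs : s ∈ LF b J) :
    t^[k] s ∈ LF b J := by
  rw [mem_LF_iff] at hs ⊢
  refine ⟨SF_iter hS k hs.1, ?_⟩
  rw [← iterate_map_neg]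
  exact SF_iter hS k hs.2

lemma iter_sub {k : ℕ} (hk : k ≤ p) (hp : ∀ x, t^[p] x = x) (x : Λ) :
    t^[p - k] (t^[k] x) = x := by
  rw [← Function.iterate_add_apply, Nat.sub_add_cancel hk, hp]

lemma LF_of_iter (hS : ∀ s ∈ SF b J, t s ∈ SF b J) (hp : ∀ x, t^[p] x = x) {k : ℕ} (hk : k ≤ p)
    {s : Λ} (hs : t^[k] s ∈ LF b J) : s ∈ LF b J := by
  rw [← iter_sub hk hp s]
  exact LF_iter hS _ hs

/-- An element equivalent to a unit is a unit. -/
lemma LF_of_KN (hS : ∀ s ∈ SF b J, t s ∈ SF b J) (hp0 : 0 < p)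
    {s s' : Λ} (hs : s ∈ LF b J) (hs' : s' ∈ SF b J) (h : s - s' ∈ KN t p) : s' ∈ LF b J := by
  intro i hi
  rw [mem_KN] at h
  have h1 : ∑ k ∈ Finset.range p, b.repr (t^[k] s') i = 0 := by
    have h2 : ∑ k ∈ Finset.range p, (b.repr (t^[k] s) i - b.repr (t^[k] s') i) = 0 := by
      have h3 := congrArg (fun x => b.repr x i) h
      simp only [map_sum, iterate_map_sub, map_sub, map_zero,
        Finsupp.zero_apply] at h3
      rw [Finsupp.finsetSum_apply] at h3
      simpa using h3
    rw [Finset.sum_sub_distrib] at h2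
    have h4 : ∑ k ∈ Finset.range p, b.repr (t^[k] s) i = 0 :=
      Finset.sum_eq_zero fun k _ => LF_iter hS k hs i hi
    omega
  have h5 := (Finset.sum_eq_zero_iff_of_nonneg fun k _ => SF_iter hS k hs' i hi).1 h1 0
    (Finset.mem_range.2 hp0)
  simpa using h5

/-- **Moves.** -/
theorem moves {K : Type} [Field K] {X : Λ → K} (hX0 : X 0 = 1)
    (hX : ∀ a b, X (a + b) = X a * X b) (hS : ∀ s ∈ SF b J, t s ∈ SF b J) (hp0 : 0 < p)
    (hp : ∀ x, t^[p] x = x) (𝒥 : AddSubgroup K) (h1 : ∀ s ∈ SF b J, ∀ x ∈ 𝒥, X s * x ∈ 𝒥)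
    (h2 : ∀ s ∈ SF b J, X (t s) - X s ∈ 𝒥) (h3 : ∀ e ∈ LF b J, e ∈ KN t p → X e - 1 ∈ 𝒥)
    {s s' : Λ} (hs : s ∈ SF b J) (hs' : s' ∈ SF b J) (h : s - s' ∈ KN t p) :
    X s - X s' ∈ 𝒥 := by
  obtain ⟨N, hN⟩ : ∃ N, ht b J s ≤ N := ⟨_, le_rfl⟩
  induction N generalizing s s' with
  | zero =>
    by_cases hL : s ∈ LF b J
    · have hL' := LF_of_KN hS hp0 hL hs' h
      have e1 : X s - X s' = X s' * (X (s - s') - 1) := by
        rw [mul_sub, mul_one, ← hX, add_sub_cancel]
      rw [e1]
      exact h1 _ hs' _ (h3 _ (sub_mem hL hL') h)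
    · obtain ⟨i, hi, hpos⟩ := exists_pos hs hL
      have := ht_sub (b := b) hi hpos
      omega
  | succ N ih =>
    by_cases hL : s ∈ LF b J
    · have hL' := LF_of_KN hS hp0 hL hs' h
      have e1 : X s - X s' = X s' * (X (s - s') - 1) := by
        rw [mul_sub, mul_one, ← hX, add_sub_cancel]
      rw [e1]
      exact h1 _ hs' _ (h3 _ (sub_mem hL hL') h)
    · obtain ⟨i, hi, hpos⟩ := exists_pos hs hL
      have hlt := ht_sub (b := b) hi hpos
      obtain ⟨k, hk, hkpos⟩ : ∃ k < p, 0 < b.repr (t^[k] s') i := by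
        by_contra hcon
        push Not at hcon
        have h4 := mem_KN.1 h
        have h5 : ∑ k ∈ Finset.range p, (b.repr (t^[k] s) i - b.repr (t^[k] s') i) = 0 := by
          have h3 := congrArg (fun x => b.repr x i) h4
          simp only [map_sum, iterate_map_sub, map_sub, map_zero,
            Finsupp.zero_apply] at h3
          rw [Finsupp.finsetSum_apply] at h3
          simpa using h3
        rw [Finset.sum_sub_distrib] at h5
        have h6 : ∑ k ∈ Finset.range p, b.repr (t^[k] s') i ≤ 0 :=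
          Finset.sum_nonpos fun k hk => hcon k (Finset.mem_range.1 hk)
        have h7 : b.repr (t^[0] s) i ≤ ∑ k ∈ Finset.range p, b.repr (t^[k] s) i :=
          Finset.single_le_sum (f := fun k => b.repr (t^[k] s) i)
            (fun k _ => SF_iter hS k hs i hi) (Finset.mem_range.2 hp0)
        rw [Function.iterate_zero_apply] at h7
        omega
      set r := t^[k] s' - b i with hr
      have hrS : r ∈ SF b J := sub_b (SF_iter hS k hs') hkpos
      set s'' := t^[p - k] r with hs''
      have hs''S : s'' ∈ SF b J := SF_iter hS _ hrS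
      have e2 : s' = t^[p - k] (b i) + s'' := by
        rw [hs'', ← iterate_map_add, hr, add_sub_cancel, iter_sub hk.le hp]
      have hs1 : s - b i ∈ SF b J := sub_b hs hpos
      have hN1 : (s - b i) - s'' ∈ KN t p := by
        have e3 : (s - b i) - s'' = (s - s') + (t^[p - k] (b i) - b i) := by
          conv_rhs => rw [e2]
          abel
        rw [e3]
        exact add_mem h (KN_iter hp _ _)
      have h5 := ih hs1 hs''S hN1 (by omega)
      have h6 : ∀ m, X (t^[m] (b i)) - X (b i) ∈ 𝒥 := by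
        intro m
        induction m with
        | zero => rw [Function.iterate_zero_apply, sub_self]; exact 𝒥.zero_mem
        | succ m ihm =>
          have e4 : X (t^[m + 1] (b i)) - X (b i) =
              (X (t (t^[m] (b i))) - X (t^[m] (b i))) + (X (t^[m] (b i)) - X (b i)) := by
            rw [Function.iterate_succ_apply']
            ring
          rw [e4]
          exact 𝒥.add_mem (h2 _ (SF_iter hS m (b_mem i))) ihm
      have e5 : X s - X s' = X (b i) * (X (s - b i) - X s'') +
          X s'' * -(X (t^[p - k] (b i)) - X (b i)) := by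
        have e6 : X s = X (b i) * X (s - b i) := by rw [← hX, add_sub_cancel]
        have e7 : X s' = X (t^[p - k] (b i)) * X s'' := by rw [← hX, ← e2]
        rw [e6, e7]
        ring
      rw [e5]
      exact 𝒥.add_mem (h1 _ (b_mem i) _ h5) (h1 _ hs''S _ (𝒥.neg_mem (h6 _)))

/-- The images of the generators outside `J`. -/
lemma exists_img (hS : ∀ s ∈ SF b J, t s ∈ SF b J) (hp0 : 0 < p) (hp : ∀ x, t^[p] x = x)
    {j : Fin n} (hj : j ∉ J) : ∃ i, i ∉ J ∧ t (b j) - b i ∈ LF b J := by
  have e1 : ∀ x, t^[p - 1] (t x) = x := fun x => by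
    have h := iter_sub (k := 1) hp0 hp x
    rwa [Function.iterate_one] at h
  have h1 : t (b j) ∉ LF b J := by
    intro h
    refine b_not (b := b) hj ?_
    rw [← e1 (b j)]
    exact LF_iter hS _ h
  obtain ⟨i, hi, hpos⟩ := exists_pos (hS _ (b_mem j)) h1
  refine ⟨i, hi, ?_⟩
  set y := t (b j) - b i with hy
  have hyS : y ∈ SF b J := sub_b (hS _ (b_mem j)) hpos
  have h2 : b j = t^[p - 1] (b i) + t^[p - 1] y := by
    rw [← iterate_map_add, hy, add_sub_cancel, e1]
  have h3 : t^[p - 1] (b i) ∉ LF b J := fun h =>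
    b_not hi (LF_of_iter hS hp (Nat.sub_le _ _) h)
  obtain ⟨i', hi', hpos'⟩ := exists_pos (SF_iter hS _ (b_mem i)) h3
  have hyS' := SF_iter hS (p - 1) hyS
  have h4 : i' = j := by
    by_contra hne
    have h5 := congrArg (fun x => b.repr x i') h2
    simp only [map_add, Finsupp.add_apply, b.repr_self] at h5
    rw [Finsupp.single_apply, if_neg (Ne.symm hne)] at h5
    have h6 := hyS' i' hi'
    omega
  subst h4
  have h7 : t^[p - 1] y ∈ LF b J := by
    intro l hl
    have h5 := congrArg (fun x => b.repr x l) h2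
    simp only [map_add, Finsupp.add_apply, b.repr_self] at h5
    have h6 := hyS' l hl
    have h8 := SF_iter hS (p - 1) (b_mem i) l hl
    rw [Finsupp.single_apply] at h5
    split_ifs at h5 with h9
    · subst h9
      omega
    · omega
  exact LF_of_iter hS hp (Nat.sub_le _ _) h7

end action

end cone

end Pool.Agent.Zk15
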