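import Pool.Agent.Y223.G.Defs
import Pool.Agent.Y86.G5.Rgin1

/-!
# Localization of graded algebras at the elements of degree zero outside a prime
-/

set_option autoImplicit false
set_option linter.unusedSectionVars false

namespace Pool.Agent.Zk15

open Pool.Agent.Y223.G
open Pool.Agent.Y86.G5 (im mem_im im_sub im_mul im_prime im_one im_pow)

variable {k K : Type} [CommRing k] [Field K] [Algebra k K]

/-- The elements of degree zero outside the prime. -/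
def Un (R : Subalgebra k (LP K)) (Q : Ideal R) (s : K) : Prop := hm 0 s ∈ R ∧ hm 0 s ∉ im R Q

/-- The elements of degree `d` of the localization. -/
def Lg (R : Subalgebra k (LP K)) (Q : Ideal R) (d : ℤ) (x : K) : Prop :=
  ∃ s, Un R Q s ∧ hm d (s * x) ∈ R

/-- The elements of degree `d` of the localization of the prime. -/
def Pg (R : Subalgebra k (LP K)) (Q : Ideal R) (d : ℤ) (x : K) : Prop :=
  ∃ s, Un R Q s ∧ hm d (s * x) ∈ im R Q

variable {R : Subalgebra k (LP K)} {Q : Ideal R}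

lemma hm0_mul (d : ℤ) (s x : K) : hm 0 s * hm d x = hm d (s * x) := by rw [hm_mul, zero_add]

lemma im_zero : (0 : LP K) ∈ im R Q := (im R Q).zero_mem

lemma im_neg {f : LP K} (h : f ∈ im R Q) : -f ∈ im R Q := by
  have h1 := im_mul (f := (-1 : LP K)) (R.neg_mem R.one_mem) h
  rwa [neg_one_mul] at h1

lemma im_sub' {f g : LP K} (hf : f ∈ im R Q) (hg : g ∈ im R Q) : f - g ∈ im R Q := by
  rw [sub_eq_add_neg]
  exact (im R Q).add_mem hf (im_neg hg)

section un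

variable [hQ : Q.IsPrime]

lemma Un.mul {s t : K} (hs : Un R Q s) (ht : Un R Q t) : Un R Q (s * t) := by
  have h1 : (hm 0 (s * t) : LP K) = hm 0 s * hm 0 t := by rw [hm_mul, add_zero]
  refine ⟨by rw [h1]; exact R.mul_mem hs.1 ht.1, fun h => ?_⟩
  rw [h1] at h
  exact (im_prime hQ hs.1 ht.1 h).elim hs.2 ht.2

lemma Un.one : Un R Q 1 := by
  refine ⟨by rw [hm_one]; exact R.one_mem, ?_⟩
  rw [hm_one]
  exact im_one hQ

lemma Un.ne {s : K} (hs : Un R Q s) : s ≠ 0 := by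
  rintro rfl
  apply hs.2
  rw [hm_zero]
  exact im_zero

lemma Lg.of {d : ℤ} {x : K} (h : hm d x ∈ R) : Lg R Q d x := ⟨1, Un.one, by rwa [one_mul]⟩

lemma Pg.of {d : ℤ} {x : K} (h : hm d x ∈ im R Q) : Pg R Q d x := ⟨1, Un.one, by rwa [one_mul]⟩

lemma Pg.lg {d : ℤ} {x : K} (h : Pg R Q d x) : Lg R Q d x := by
  obtain ⟨s, hs, h⟩ := h
  exact ⟨s, hs, im_sub h⟩

lemma Lg.add {d : ℤ} {x y : K} (hx : Lg R Q d x) (hy : Lg R Q d y) : Lg R Q d (x + y) := by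
  obtain ⟨s, hs, hx⟩ := hx
  obtain ⟨t, ht, hy⟩ := hy
  refine ⟨s * t, hs.mul ht, ?_⟩
  have e1 : (hm d (s * t * (x + y)) : LP K) = hm 0 t * hm d (s * x) + hm 0 s * hm d (t * y) := by
    rw [hm0_mul, hm0_mul, ← hm_add]
    congr 1
    ring
  rw [e1]
  exact R.add_mem (R.mul_mem ht.1 hx) (R.mul_mem hs.1 hy)

lemma Lg.neg {d : ℤ} {x : K} (hx : Lg R Q d x) : Lg R Q d (-x) := by
  obtain ⟨s, hs, hx⟩ := hx
  exact ⟨s, hs, by rw [mul_neg, hm_neg]; exact R.neg_mem hx⟩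

lemma Lg.sub {d : ℤ} {x y : K} (hx : Lg R Q d x) (hy : Lg R Q d y) : Lg R Q d (x - y) := by
  rw [sub_eq_add_neg]
  exact hx.add hy.neg

lemma Lg.zero (d : ℤ) : Lg R Q d 0 := Lg.of (by rw [hm_zero]; exact R.zero_mem)

lemma Lg.one : Lg R Q 0 1 := Lg.of (by rw [hm_one]; exact R.one_mem)

lemma Lg.mul {d e : ℤ} {x y : K} (hx : Lg R Q d x) (hy : Lg R Q e y) :
    Lg R Q (d + e) (x * y) := by
  obtain ⟨s, hs, hx⟩ := hx
  obtain ⟨t, ht, hy⟩ := hy
  refine ⟨s * t, hs.mul ht, ?_⟩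
  have e1 : (hm (d + e) (s * t * (x * y)) : LP K) = hm d (s * x) * hm e (t * y) := by
    rw [hm_mul]
    congr 1
    ring
  rw [e1]
  exact R.mul_mem hx hy

lemma Lg.mul0 {d : ℤ} {x y : K} (hx : Lg R Q 0 x) (hy : Lg R Q d y) : Lg R Q d (x * y) := by
  have h := hx.mul hy
  rwa [zero_add] at h

lemma Lg.pow {d : ℤ} {x : K} (hx : Lg R Q d x) (n : ℕ) : Lg R Q (n * d) (x ^ n) := by
  induction n with
  | zero =>
    rw [pow_zero, Nat.cast_zero, zero_mul]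
    exact Lg.one
  | succ n ih =>
    rw [pow_succ]
    have h := ih.mul hx
    have e1 : ((n + 1 : ℕ) : ℤ) * d = n * d + d := by push_cast; ring
    rwa [e1]

lemma Lg.inv {s : K} (hs : Un R Q s) : Lg R Q 0 s⁻¹ := by
  refine ⟨s, hs, ?_⟩
  rw [mul_inv_cancel₀ hs.ne, hm_one]
  exact R.one_mem

lemma hm_low (hT : hm (-1) 1 ∈ R) {d e : ℤ} {x : K} (h : hm d x ∈ R) (he : e ≤ d) :
    hm e x ∈ R := by
  have h1 := R.mul_mem (R.pow_mem hT (d - e).toNat) h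
  rw [hm_pow, one_pow, hm_mul, one_mul] at h1
  have h2 : ((d - e).toNat : ℤ) * -1 + d = e := by
    rw [Int.toNat_of_nonneg (by omega)]
    ring
  rwa [h2] at h1

lemma im_low (hT : hm (-1) 1 ∈ R) {d e : ℤ} {x : K} (h : hm d x ∈ im R Q) (he : e ≤ d) :
    hm e x ∈ im R Q := by
  have h1 := im_mul (R.pow_mem hT (d - e).toNat) h
  rw [hm_pow, one_pow, hm_mul, one_mul] at h1
  have h2 : ((d - e).toNat : ℤ) * -1 + d = e := by
    rw [Int.toNat_of_nonneg (by omega)]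
    ring
  rwa [h2] at h1

lemma Lg.low (hT : hm (-1) 1 ∈ R) {d e : ℤ} {x : K} (h : Lg R Q d x) (he : e ≤ d) :
    Lg R Q e x := by
  obtain ⟨s, hs, h⟩ := h
  exact ⟨s, hs, hm_low hT h he⟩

lemma Pg.low (hT : hm (-1) 1 ∈ R) {d e : ℤ} {x : K} (h : Pg R Q d x) (he : e ≤ d) :
    Pg R Q e x := by
  obtain ⟨s, hs, h⟩ := h
  exact ⟨s, hs, im_low hT h he⟩

lemma Pg.add {d : ℤ} {x y : K} (hx : Pg R Q d x) (hy : Pg R Q d y) : Pg R Q d (x + y) := by
  obtain ⟨s, hs, hx⟩ := hx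
  obtain ⟨t, ht, hy⟩ := hy
  refine ⟨s * t, hs.mul ht, ?_⟩
  have e1 : (hm d (s * t * (x + y)) : LP K) = hm 0 t * hm d (s * x) + hm 0 s * hm d (t * y) := by
    rw [hm0_mul, hm0_mul, ← hm_add]
    congr 1
    ring
  rw [e1]
  exact (im R Q).add_mem (im_mul ht.1 hx) (im_mul hs.1 hy)

lemma Pg.neg {d : ℤ} {x : K} (hx : Pg R Q d x) : Pg R Q d (-x) := by
  obtain ⟨s, hs, hx⟩ := hx
  exact ⟨s, hs, by rw [mul_neg, hm_neg]; exact im_neg hx⟩

lemma Pg.sub {d : ℤ} {x y : K} (hx : Pg R Q d x) (hy : Pg R Q d y) : Pg R Q d (x - y) := by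
  rw [sub_eq_add_neg]
  exact hx.add hy.neg

lemma Pg.zero (d : ℤ) : Pg R Q d 0 := Pg.of (by rw [hm_zero]; exact im_zero)

lemma Lg.mulP {d e : ℤ} {x y : K} (hx : Lg R Q d x) (hy : Pg R Q e y) :
    Pg R Q (d + e) (x * y) := by
  obtain ⟨s, hs, hx⟩ := hx
  obtain ⟨t, ht, hy⟩ := hy
  refine ⟨s * t, hs.mul ht, ?_⟩
  have e1 : (hm (d + e) (s * t * (x * y)) : LP K) = hm d (s * x) * hm e (t * y) := by
    rw [hm_mul]
    congr 1
    ring
  rw [e1]
  exact im_mul hx hy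

lemma Lg.mulP0 {d : ℤ} {x y : K} (hx : Lg R Q 0 x) (hy : Pg R Q d y) : Pg R Q d (x * y) := by
  have h := hx.mulP hy
  rwa [zero_add] at h

lemma Pg.mulL {d e : ℤ} {x y : K} (hx : Pg R Q d x) (hy : Lg R Q e y) :
    Pg R Q (d + e) (x * y) := by
  have h := hy.mulP hx
  rwa [mul_comm, add_comm] at h

lemma Pg.prime {d e : ℤ} {x y : K} (hx : Lg R Q d x) (hy : Lg R Q e y)
    (h : Pg R Q (d + e) (x * y)) : Pg R Q d x ∨ Pg R Q e y := by
  obtain ⟨s, hs, hx⟩ := hx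
  obtain ⟨t, ht, hy⟩ := hy
  obtain ⟨u, hu, h⟩ := h
  have e1 : (hm 0 s * hm 0 t) * hm (d + e) (u * (x * y)) =
      hm 0 u * (hm d (s * x) * hm e (t * y)) := by
    rw [hm_mul, hm_mul, hm_mul, hm_mul]
    congr 1
    ring
  have h1 := im_mul (R.mul_mem hs.1 ht.1) h
  rw [e1] at h1
  rcases im_prime hQ hu.1 (R.mul_mem hx hy) h1 with h2 | h2
  · exact absurd h2 hu.2
  · rcases im_prime hQ hx hy h2 with h3 | h3
    · exact Or.inl ⟨s, hs, h3⟩
    · exact Or.inr ⟨t, ht, h3⟩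

lemma Pg.mem {d : ℤ} {x : K} (h : Pg R Q d x) (hx : hm d x ∈ R) : hm d x ∈ im R Q := by
  obtain ⟨s, hs, h⟩ := h
  rw [← hm0_mul] at h
  rcases im_prime hQ hs.1 hx h with h1 | h1
  · exact absurd h1 hs.2
  · exact h1

lemma Pg.not_one : ¬ Pg R Q 0 1 := fun h => by
  have h1 := h.mem (by rw [hm_one]; exact R.one_mem)
  rw [hm_one] at h1
  exact im_one hQ h1

lemma Pg.of_pow {d : ℤ} {x : K} (hx : Lg R Q d x) (n : ℕ) (h : Pg R Q (n * d) (x ^ n)) :
    Pg R Q d x := by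
  induction n with
  | zero =>
    rw [Nat.cast_zero, zero_mul, pow_zero] at h
    exact absurd h Pg.not_one
  | succ n ih =>
    have e1 : ((n + 1 : ℕ) : ℤ) * d = n * d + d := by push_cast; ring
    rw [e1, pow_succ] at h
    rcases Pg.prime (hx.pow n) hx h with h1 | h1
    · exact ih h1
    · exact h1

lemma Un.not {s : K} (hs : Un R Q s) : ¬ Pg R Q 0 s := fun h => hs.2 (h.mem hs.1)

/-- Units. -/
lemma Lg.unit {x : K} (hx : Lg R Q 0 x) (h : ¬ Pg R Q 0 x) : x ≠ 0 ∧ Lg R Q 0 x⁻¹ := by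
  obtain ⟨s, hs, hx⟩ := hx
  have h1 : Un R Q (s * x) := ⟨hx, fun h2 => h ⟨s, hs, h2⟩⟩
  have h2 : x ≠ 0 := right_ne_zero_of_mul h1.ne
  refine ⟨h2, ?_⟩
  have h3 : x⁻¹ = s * (s * x)⁻¹ := by
    have := hs.ne
    field_simp
  rw [h3]
  exact (Lg.of hs.1).mul0 (Lg.inv h1)

lemma Lg.sum {ι : Type} {d : ℤ} (S : Finset ι) (f : ι → K) (h : ∀ i ∈ S, Lg R Q d (f i)) :
    Lg R Q d (∑ i ∈ S, f i) := by
  classical
  induction S using Finset.induction_on with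
  | empty => rw [Finset.sum_empty]; exact Lg.zero d
  | insert i S hi ih =>
    rw [Finset.sum_insert hi]
    exact (h i (Finset.mem_insert_self _ _)).add
      (ih fun j hj => h j (Finset.mem_insert_of_mem hj))

/-- The elements of degree `d` form a group. -/
def LgA (R : Subalgebra k (LP K)) (Q : Ideal R) [Q.IsPrime] (d : ℤ) : AddSubgroup K where
  carrier := {x | Lg R Q d x}
  add_mem' := Lg.add
  zero_mem' := Lg.zero d
  neg_mem' := Lg.neg

/-- The elements of degree `d` of the prime form a group. -/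
def PgA (R : Subalgebra k (LP K)) (Q : Ideal R) [Q.IsPrime] (d : ℤ) : AddSubgroup K where
  carrier := {x | Pg R Q d x}
  add_mem' := Pg.add
  zero_mem' := Pg.zero d
  neg_mem' := Pg.neg

lemma mem_LgA {d : ℤ} {x : K} : x ∈ LgA R Q d ↔ Lg R Q d x := Iff.rfl

lemma mem_PgA {d : ℤ} {x : K} : x ∈ PgA R Q d ↔ Pg R Q d x := Iff.rfl

/-- The ring of the elements of degree zero. -/
def LgR (R : Subalgebra k (LP K)) (Q : Ideal R) [Q.IsPrime] : Subring K where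
  carrier := {x | Lg R Q 0 x}
  add_mem' := Lg.add
  zero_mem' := Lg.zero 0
  neg_mem' := Lg.neg
  mul_mem' := Lg.mul0
  one_mem' := Lg.one

lemma mem_LgR {x : K} : x ∈ LgR R Q ↔ Lg R Q 0 x := Iff.rfl

lemma isUnit_LgR {x : LgR R Q} : IsUnit x ↔ ¬ Pg R Q 0 (x : K) := by
  constructor
  · intro h h1
    obtain ⟨y, hy⟩ := h.exists_right_inv
    have h2 := h1.mulL (mem_LgR.1 y.2)
    have h3 : (x : K) * y = 1 := congrArg Subtype.val hy
    rw [h3, add_zero] at h2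
    exact Pg.not_one h2
  · intro h
    obtain ⟨h1, h2⟩ := Lg.unit (mem_LgR.1 x.2) h
    refine IsUnit.of_mul_eq_one ⟨(x : K)⁻¹, h2⟩ ?_
    apply Subtype.ext
    exact mul_inv_cancel₀ h1

instance isLocalRing_LgR : IsLocalRing (LgR R Q) := by
  refine IsLocalRing.of_nonunits_add ?_
  intro a b ha hb
  rw [mem_nonunits_iff, isUnit_LgR, not_not] at ha hb ⊢
  exact ha.add hb

lemma mem_maxLgR {x : LgR R Q} :
    x ∈ IsLocalRing.maximalIdeal (LgR R Q) ↔ Pg R Q 0 (x : K) := by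
  rw [IsLocalRing.mem_maximalIdeal, mem_nonunits_iff, isUnit_LgR, not_not]

end un

end Pool.Agent.Zk15
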