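import Pool.Agent.Zk15.NoZ
import Pool.Agent.Zk15.Fil

/-!
# The local ring of a chart at a prime of the exceptional divisor
-/

set_option autoImplicit false
set_option linter.unusedSectionVars false

namespace Pool.Agent.Zk15

open Pool.Agent.Y223.G IsLocalRing
open Pool.Agent.Y86.G5 (im mem_im im_sub im_mul im_prime im_one im_pow)
open Pool.Agent.R383.TM (WR WR_s WR_e WR_o WR_z FIX)

variable {k O K Λ : Type} [CommRing k] [CommRing O] [Field K] [Algebra k K] [Algebra O K]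
  [AddCommGroup Λ] {n : ℕ}

section

variable {S : Dat k O K Λ n}

/-- The elements of `D i` are combinations of differences. -/
lemma Dat.Dcl (i : ℕ) {x : K} (hx : x ∈ S.D (i + 1)) :
    x ∈ AddSubgroup.closure {x | ∃ y ∈ S.D 1, x = (df S.τ)^[i] y} := by
  induction i generalizing x with
  | zero => exact AddSubgroup.subset_closure ⟨x, hx, rfl⟩
  | succ i ih =>
    rw [S.Ds (i + 1) (by omega)] at hx
    refine (AddSubgroup.closure_le _).2 ?_ hx
    rintro _ ⟨y, hy, rfl⟩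
    have h1 := ih hy
    clear hy
    rw [SetLike.mem_coe]
    induction h1 using AddSubgroup.closure_induction with
    | mem y hy =>
      obtain ⟨y', hy', rfl⟩ := hy
      refine AddSubgroup.subset_closure ⟨y', hy', ?_⟩
      rw [Function.iterate_succ_apply']
      rfl
    | zero => rw [map_zero, sub_zero]; exact zero_mem _
    | add x y _ _ hx hy =>
      have e : S.τ (x + y) - (x + y) = (S.τ x - x) + (S.τ y - y) := by rw [map_add]; ring
      rw [e]
      exact add_mem hx hy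
    | neg x _ hx =>
      have e : S.τ (-x) - -x = -(S.τ x - x) := by rw [map_neg]; ring
      rw [e]
      exact neg_mem hx

lemma Dat.Dit (i a : ℕ) {x : K} (hx : x ∈ S.D a) : (df S.τ)^[i] x ∈ S.D (a + i) := by
  induction i with
  | zero => exact hx
  | succ i ih =>
    rw [Function.iterate_succ_apply']
    exact S.Dδ _ ih

/-- `τ` has order `p` on the elements of `D`. -/
lemma Dat.tauX (m : Λ) (i : ℕ) : S.τ^[i] (S.X m) = S.X (S.t^[i] m) := by
  induction i with
  | zero => rfl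
  | succ i ih => rw [Function.iterate_succ_apply', Function.iterate_succ_apply', ih, S.τX]

lemma Dat.tauD {x : K} (hx : x ∈ S.D 0) : S.τ^[S.p] x = x := by
  rw [S.D0] at hx
  induction hx using AddSubgroup.closure_induction with
  | mem x hx =>
    obtain ⟨m, hm, rfl⟩ := hx
    rw [S.tauX, S.tp]
  | zero => rw [iterate_map_zero]
  | add x y _ _ hx hy => rw [iterate_map_add, hx, hy]
  | neg x _ hx => rw [iterate_map_neg, hx]

/-- The power `p` of the difference. -/
lemma dfp {τ : K ≃ₐ[k] K} {p : ℕ} (hp : p.Prime) {x : K} (hx : τ^[p] x = x) :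
    (df τ)^[p] x = -((p : K) * ∑ i ∈ Finset.range (p - 1),
      ((p.choose (i + 1) / p : ℕ) : K) * (df τ)^[i + 1] x) := by
  have h1 := Pool.Agent.Y438.G.df_iter (σ := ((τ : K ≃ₐ[k] K) : K →+* K)) p x
  have h2 : (((τ : K ≃ₐ[k] K) : K →+* K) : K → K) = τ := rfl
  rw [h2, hx, Finset.sum_range_succ] at h1
  obtain ⟨q, hq⟩ : ∃ q, p = q + 1 := ⟨p - 1, by have := hp.pos; omega⟩
  have h3 : ∑ m ∈ Finset.range p, (p.choose m : K) * (df τ)^[m] x =
      x + ∑ i ∈ Finset.range (p - 1), (p.choose (i + 1) : K) * (df τ)^[i + 1] x := by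
    conv_lhs => rw [hq, Finset.sum_range_succ', Nat.choose_zero_right, Nat.cast_one, one_mul,
      Function.iterate_zero_apply, add_comm]
    rw [hq, Nat.add_sub_cancel]
  rw [h3, Nat.choose_self, Nat.cast_one, one_mul, add_assoc] at h1
  have h4 := left_eq_add.1 h1
  rw [← sub_eq_zero, sub_neg_eq_add, add_comm, ← h4]
  congr 1
  rw [Finset.mul_sum]
  refine Finset.sum_congr rfl fun i hi => ?_
  rw [← mul_assoc, ← Nat.cast_mul, Nat.mul_div_cancel']
  rw [Finset.mem_range] at hi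
  exact hp.dvd_choose_self (by omega) (by omega)

/-- The differences of the elements of `D p`. -/
lemma Dat.Dp {x : K} (hx : x ∈ S.D S.p) : ∃ y ∈ S.D 2, S.τ x - x = (S.p : K) * y := by
  obtain ⟨q, hq⟩ : ∃ q, S.p = q + 1 := ⟨S.p - 1, by have := S.pp.pos; omega⟩
  rw [hq] at hx
  have h1 := S.Dcl q hx
  clear hx
  induction h1 using AddSubgroup.closure_induction with
  | mem x hx =>
    obtain ⟨y, hy, rfl⟩ := hx
    have h2 : S.τ ((df S.τ)^[q] y) - (df S.τ)^[q] y = (df S.τ)^[S.p] y := by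
      rw [hq, Function.iterate_succ_apply']
      rfl
    rw [h2, dfp S.pp (S.tauD (S.D01 hy)), ← mul_neg]
    refine ⟨_, neg_mem (sum_mem fun i _ => ?_), rfl⟩
    rw [← nsmul_eq_mul]
    refine nsmul_mem (S.Dle (b := 1 + (i + 1)) (by omega) (S.Dit _ _ hy)) _
  | zero => exact ⟨0, zero_mem _, by rw [map_zero, sub_zero, mul_zero]⟩
  | add x y _ _ hx hy =>
    obtain ⟨x', hx', hx⟩ := hx
    obtain ⟨y', hy', hy⟩ := hy
    refine ⟨x' + y', add_mem hx' hy', ?_⟩
    rw [mul_add, ← hx, ← hy, map_add]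
    ring
  | neg x _ hx =>
    obtain ⟨x', hx', hx⟩ := hx
    refine ⟨-x', neg_mem hx', ?_⟩
    rw [mul_neg, ← hx, map_neg]
    ring

/-- The differences raise the weights. -/
theorem RH.dd {R : Subalgebra k (LP K)} {c : K} (hR : RH S R c) {i : ℕ} (hi : i ≤ S.p) {x : K}
    (hx : x ∈ S.D i) : hm (((i * S.l : ℕ) : ℤ) + S.l) ((S.τ x - x) / c) ∈ R := by
  rcases Nat.lt_or_eq_of_le hi with h | h
  · have h1 := hR.d (i + 1) h _ (S.Dδ i hx)
    have e : (((i + 1) * S.l : ℕ) : ℤ) = ((i * S.l : ℕ) : ℤ) + S.l := by push_cast; ring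
    rwa [e] at h1
  · subst h
    obtain ⟨y, hy, h⟩ := S.Dp hx
    have h1 := hR.epow _ S.hp
    rw [map_natCast] at h1
    have h2 := R.mul_mem h1 (hR.d 2 S.pp.two_le y hy)
    rw [hm_mul, ← mul_div_assoc, ← h] at h2
    have e : (((S.p - 1) * S.l : ℕ) : ℤ) + ((2 * S.l : ℕ) : ℤ) =
        ((S.p * S.l : ℕ) : ℤ) + S.l := by
      obtain ⟨q, hq⟩ : ∃ q, S.p = q + 1 := ⟨S.p - 1, by have := S.pp.pos; omega⟩
      rw [hq, Nat.add_sub_cancel]
      push_cast
      ring
    rwa [e] at h2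

end

section

variable [Algebra k O] [IsScalarTower k O K] {S : Dat k O K Λ n} {m : ℕ} {z : Fin (m + 1) → K}
  {a : Fin (m + 1) → ℕ} (hC : CH S z a) {j : Fin (m + 1)}

lemma Gr_RZ : Gr (RZ S z a j) := by
  intro f hf
  refine graded_ind (k := k) (fun d x => hm d x ∈ RZ S z a j) (fun d => by
    rw [hm_zero]; exact Subalgebra.zero_mem _) (fun d x y hx hy => by
      rw [hm_add]; exact Subalgebra.add_mem _ hx hy) (fun d e x y hx hy => by
        rw [← hm_mul]; exact Subalgebra.mul_mem _ hx hy) (fun c => ?_) (fun s hs => ?_) f hf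
  · exact Subalgebra.algebraMap_mem _ c
  · have h1 : s ∈ RZ S z a j := Algebra.subset_adjoin hs
    rcases hs with ((hs | ⟨x, hx, rfl⟩) | ⟨o, rfl⟩) | ⟨i, rfl⟩
    · rw [Set.mem_singleton_iff] at hs
      subst hs
      exact ⟨_, _, rfl, h1⟩
    · exact ⟨_, _, rfl, h1⟩
    · exact ⟨_, _, rfl, h1⟩
    · exact ⟨_, _, rfl, h1⟩

/-- The elements of the ring in degree zero. -/
lemma RZ_zero (d : ℤ) (x : K) (hx : hm d x ∈ RZ S z a j) : hm 0 x ∈ RZ S z a j := by
  have h1 : ∀ f ∈ RZ S z a j, ∀ d, hm 0 (f.coeff d) ∈ RZ S z a j := by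
    intro f hf
    refine graded_ind (k := k) (fun _ x => hm 0 x ∈ RZ S z a j) (fun d => by
      rw [hm_zero]; exact Subalgebra.zero_mem _) (fun d x y hx hy => by
        rw [hm_add]; exact Subalgebra.add_mem _ hx hy) (fun d e x y hx hy => by
          have := Subalgebra.mul_mem _ hx hy
          rwa [hm_mul, zero_add] at this) (fun c => ?_) (fun s hs => ?_) f hf
    · exact Subalgebra.algebraMap_mem _ c
    · have h1 : s ∈ RZ S z a j := Algebra.subset_adjoin hs
      rcases hs with ((hs | ⟨x, hx, rfl⟩) | ⟨o, rfl⟩) | ⟨i, rfl⟩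
      · rw [Set.mem_singleton_iff] at hs
        subst hs
        exact ⟨_, _, rfl, by rw [hm_one]; exact Subalgebra.one_mem _⟩
      · exact ⟨_, _, rfl, WR_o x⟩
      · exact ⟨_, _, rfl, h1⟩
      · exact ⟨_, _, rfl, hm_low WR_s h1 (by positivity)⟩
  have h2 := h1 _ hx d
  rwa [coeff_hm_same] at h2

variable {Q : Ideal (RZ S z a j)} [hQ : Q.IsPrime] {b : Module.Basis (Fin n) ℤ Λ}
  {J : Set (Fin n)} {w : Λ} (h : LV S (RZ S z a j) (z j) Q b J w)

include h

lemma LV.TB {y : K} (hy : y ∈ TC O S.X (SF b J : Set Λ)) : y ∈ LgR (RZ S z a j) Q := by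
  unfold TC at hy
  induction hy using Algebra.adjoin_induction with
  | mem y hy =>
    obtain ⟨s, hs, rfl⟩ := hy
    exact h.LS s hs
  | algebraMap r => exact Lg.of (WR_o r)
  | add x y _ _ hx hy => exact Subring.add_mem _ hx hy
  | mul x y _ _ hx hy => exact Subring.mul_mem _ hx hy

/-- The elements of `D 0`. -/
lemma LV.DT {x : K} (hx : x ∈ S.D 0) : x / S.X w ∈ TC O S.X (SF b J : Set Λ) := by
  rw [S.D0] at hx
  induction hx using AddSubgroup.closure_induction with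
  | mem x hx =>
    obtain ⟨m, hm, rfl⟩ := hx
    rw [← S.Xsub]
    exact Algebra.subset_adjoin ⟨_, h.cone m hm, rfl⟩
  | zero => rw [zero_div]; exact Subalgebra.zero_mem _
  | add x y _ _ hx hy => rw [add_div]; exact Subalgebra.add_mem _ hx hy
  | neg x _ hx => rw [neg_div]; exact Subalgebra.neg_mem _ hx

include hC

/-- The elements of the local ring are fractions. -/
lemma LV.frac {y : K} (hy : y ∈ LgR (RZ S z a j) Q) :
    ∃ u ∈ TC O S.X (SF b J : Set Λ), ¬ Pg (RZ S z a j) Q 0 u ∧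
      u * y ∈ TC O S.X (SF b J : Set Λ) := by
  have hone : ¬ Pg (RZ S z a j) Q 0 1 := Pg.not_one
  have hmul : ∀ u v, u ∈ TC O S.X (SF b J : Set Λ) → v ∈ TC O S.X (SF b J : Set Λ) →
      ¬ Pg (RZ S z a j) Q 0 u → ¬ Pg (RZ S z a j) Q 0 v → ¬ Pg (RZ S z a j) Q 0 (u * v) := by
    intro u v hu hv hu' hv' h1
    rcases Pg.prime (d := 0) (e := 0) (h.TB hu) (h.TB hv) (by rwa [add_zero]) with h2 | h2
    · exact hu' h2
    · exact hv' h2
  let Pr : ℤ → K → Prop := fun _ y => ∃ u ∈ TC O S.X (SF b J : Set Λ),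
    ¬ Pg (RZ S z a j) Q 0 u ∧ u * y ∈ TC O S.X (SF b J : Set Λ)
  have hT : ∀ (d : ℤ) y, y ∈ TC O S.X (SF b J : Set Λ) → Pr d y := fun d y hy =>
    ⟨1, Subalgebra.one_mem _, hone, by rwa [one_mul]⟩
  have h1 : ∀ f ∈ RZ S z a j, ∀ d, Pr d (f.coeff d) := by
    intro f hf
    refine graded_ind (k := k) Pr (fun d => hT d _ (Subalgebra.zero_mem _)) ?_ ?_ ?_ ?_ f hf
    · rintro d x y ⟨u, hu, hu1, hu2⟩ ⟨v, hv, hv1, hv2⟩
      refine ⟨u * v, Subalgebra.mul_mem _ hu hv, hmul u v hu hv hu1 hv1, ?_⟩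
      have e : u * v * (x + y) = v * (u * x) + u * (v * y) := by ring
      rw [e]
      exact Subalgebra.add_mem _ (Subalgebra.mul_mem _ hv hu2) (Subalgebra.mul_mem _ hu hv2)
    · rintro d e x y ⟨u, hu, hu1, hu2⟩ ⟨v, hv, hv1, hv2⟩
      refine ⟨u * v, Subalgebra.mul_mem _ hu hv, hmul u v hu hv hu1 hv1, ?_⟩
      have e : u * v * (x * y) = (u * x) * (v * y) := by ring
      rw [e]
      exact Subalgebra.mul_mem _ hu2 hv2
    · intro c
      refine hT 0 _ ?_
      rw [IsScalarTower.algebraMap_apply k O K]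
      exact Subalgebra.algebraMap_mem _ _
    · intro s hs
      rcases hC.gens (j := j) s hs with rfl | ⟨x, hx, rfl⟩ | ⟨o, rfl⟩ | ⟨i, rfl⟩
      · exact ⟨_, _, rfl, hT 0 _ (Subalgebra.one_mem _)⟩
      · exact ⟨_, _, rfl, hT 0 _ (Subalgebra.algebraMap_mem _ _)⟩
      · exact ⟨_, _, rfl, hT 0 _ (Subalgebra.algebraMap_mem _ _)⟩
      · refine ⟨_, _, rfl, z j / S.X w, h.DT hC.RH.cD, h.cn, ?_⟩
        have e : z j / S.X w * (z i / z j) = z i / S.X w := by
          have := hC.z0 j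
          field_simp
        rw [e]
        exact h.DT (S.Dle (Nat.zero_le _) (hC.zD i))
  obtain ⟨s, hs, hsy⟩ := mem_LgR.1 hy
  obtain ⟨u, hu, hu1, hu2⟩ := h1 _ hs.1 0
  obtain ⟨v, hv, hv1, hv2⟩ := h1 _ hsy 0
  rw [coeff_hm_same] at hu2 hv2
  refine ⟨v * (u * s), Subalgebra.mul_mem _ hv hu2, ?_, ?_⟩
  · refine hmul _ _ hv hu2 hv1 fun h2 => ?_
    rcases Pg.prime (d := 0) (e := 0) (h.TB hu) (Lg.of hs.1) (by rwa [add_zero]) with h3 | h3
    · exact hu1 h3
    · exact hs.not h3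
  · have e : v * (u * s) * y = u * (v * (s * y)) := by ring
    rw [e]
    exact Subalgebra.mul_mem _ hu hv2

end

end Pool.Agent.Zk15
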