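import Pool.Agent.Zk15.Lg
import Pool.Agent.Y563.G.Wch

/-!
# Regularity of a graded algebra at a prime over a weighted regular centre
-/

set_option autoImplicit false
set_option linter.unusedSectionVars false

namespace Pool.Agent.Zk15

open Pool.Agent.Y223.G IsLocalRing Pool.Agent.W418.LU2
open Pool.Agent.Y86.G5 (im mem_im im_sub im_mul im_prime im_one im_pow)
open Pool.Agent.Y563.GW (reg_of_loc mem_neg FI_mem)

variable {k K : Type} [CommRing k] [Field K] [Algebra k K]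

theorem wch2 (hreg : S_WREG) {R : Subalgebra k (LP K)} (hgr : Gr R) (hT : hm (-1) 1 ∈ R)
    (h0 : ∀ (d : ℤ) x, hm d x ∈ R → hm 0 x ∈ R) (PP : Ideal R) [hPP : PP.IsPrime]
    (hPT : hm (-1) 1 ∈ im R PP) (hB : IsRegularLocalRing (LgR R PP)) {ι : Type} [Fintype ι]
    (x : ι → LgR R PP) (a : ι → ℕ) (ha : ∀ i, 0 < a i) (hx : ∀ i, Lg R PP (a i) (x i : K))
    (hind : Ind x) (hFI : ∀ (n : ℕ) (y : LgR R PP), hm n (y : K) ∈ R → y ∈ FI x a n) :
    IsRegularLocalRing (Localization.AtPrime PP) := by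
  have halg : ∀ b : LgR R PP, algebraMap (LgR R PP) K b = (b : K) := fun b => rfl
  have hinj : Function.Injective (algebraMap (LgR R PP) K) := Subtype.val_injective
  obtain ⟨R', hR'⟩ : ∃ R' : Subalgebra (LgR R PP) (LP K), R' = Algebra.adjoin (LgR R PP)
    ({hm (-1) 1} ∪ Set.range fun i => hm (a i) (algebraMap (LgR R PP) K (x i))) := ⟨_, rfl⟩
  have hT' : hm (-1) 1 ∈ R' := by rw [hR']; exact Algebra.subset_adjoin (Or.inl rfl)
  have hx' : ∀ i, hm (a i) (algebraMap (LgR R PP) K (x i)) ∈ R' := fun i => by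
    rw [hR']; exact Algebra.subset_adjoin (Or.inr ⟨i, rfl⟩)
  have h0B : ∀ b : LgR R PP, hm 0 (b : K) ∈ R' := fun b => R'.algebraMap_mem b
  have hle : ∀ f ∈ R, f ∈ R' := by
    intro f hf
    apply mem_of_comp R'
    intro d
    have h1 := hgr f hf d
    have h2 : f.coeff d ∈ LgR R PP := Lg.of (h0 _ _ h1)
    rcases le_or_gt d 0 with hd | hd
    · exact mem_neg (R := R') hT' hd (h0B ⟨_, h2⟩)
    · obtain ⟨n, rfl⟩ := Int.eq_ofNat_of_zero_le hd.le
      exact FI_mem x a R' hT' hx' n ⟨_, h2⟩ (hFI n ⟨_, h2⟩ h1)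
  have hge : ∀ f ∈ R', ∃ s, Un R PP s ∧ hm 0 s * f ∈ R := by
    intro f hf
    rw [hR'] at hf
    induction hf using Algebra.adjoin_induction with
    | mem f hf =>
      rcases hf with hf | ⟨i, rfl⟩
      · rw [Set.mem_singleton_iff] at hf
        rw [hf]
        exact ⟨1, Un.one, by rw [hm_one, one_mul]; exact hT⟩
      · obtain ⟨s, hs, h1⟩ := hx i
        refine ⟨s, hs, ?_⟩
        change hm 0 s * hm (a i : ℤ) ((x i : LgR R PP) : K) ∈ R
        rw [hm0_mul]
        exact h1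
    | algebraMap b =>
      obtain ⟨s, hs, h1⟩ := mem_LgR.1 b.2
      refine ⟨s, hs, ?_⟩
      have h2 : algebraMap (LgR R PP) (LP K) b = hm 0 (b : K) := rfl
      rw [h2, hm0_mul]
      exact h1
    | add f g _ _ hf hg =>
      obtain ⟨s, hs, hs'⟩ := hf
      obtain ⟨t, ht, ht'⟩ := hg
      refine ⟨s * t, hs.mul ht, ?_⟩
      have e : hm 0 (s * t) * (f + g) = hm 0 t * (hm 0 s * f) + hm 0 s * (hm 0 t * g) := by
        have e1 : (hm 0 (s * t) : LP K) = hm 0 s * hm 0 t := by rw [hm_mul, add_zero]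
        rw [e1]
        ring
      rw [e]
      exact R.add_mem (R.mul_mem ht.1 hs') (R.mul_mem hs.1 ht')
    | mul f g _ _ hf hg =>
      obtain ⟨s, hs, hs'⟩ := hf
      obtain ⟨t, ht, ht'⟩ := hg
      refine ⟨s * t, hs.mul ht, ?_⟩
      have e : hm 0 (s * t) * (f * g) = (hm 0 s * f) * (hm 0 t * g) := by
        have e1 : (hm 0 (s * t) : LP K) = hm 0 s * hm 0 t := by rw [hm_mul, add_zero]
        rw [e1]
        ring
      rw [e]
      exact R.mul_mem hs' ht'
  let inc : R →+* R' :=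
    { toFun := fun f => ⟨f.1, hle f.1 f.2⟩
      map_one' := rfl
      map_mul' := fun _ _ => rfl
      map_zero' := rfl
      map_add' := fun _ _ => rfl }
  let _ : Algebra R R' := inc.toAlgebra
  have hinc : ∀ f : R, ((algebraMap R R' f : R') : LP K) = f := fun f => rfl
  let M : Submonoid R :=
    { carrier := {f | ∃ s, Un R PP s ∧ (f : LP K) = hm 0 s}
      mul_mem' := by
        rintro f g ⟨s, hs, hf⟩ ⟨t, ht, hg⟩
        exact ⟨s * t, hs.mul ht, by rw [MulMemClass.coe_mul, hf, hg, hm_mul, add_zero]⟩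
      one_mem' := ⟨1, Un.one, by rw [OneMemClass.coe_one, hm_one]⟩ }
  have hloc : IsLocalization M R' := by
    refine ⟨⟨?_, ?_, ?_⟩⟩
    · rintro ⟨f, s, hs, hfs⟩
      refine IsUnit.of_mul_eq_one ⟨hm 0 s⁻¹, h0B ⟨s⁻¹, Lg.inv hs⟩⟩ ?_
      apply Subtype.ext
      change (f : LP K) * hm 0 s⁻¹ = 1
      rw [hfs, hm_mul, add_zero, mul_inv_cancel₀ hs.ne, hm_one]
    · rintro ⟨f, hf⟩
      obtain ⟨s, hs, hs'⟩ := hge f hf
      refine ⟨⟨⟨_, hs'⟩, ⟨⟨hm 0 s, hs.1⟩, s, hs, rfl⟩⟩, ?_⟩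
      apply Subtype.ext
      change f * hm 0 s = hm 0 s * f
      rw [mul_comm]
    · intro f g hfg
      refine ⟨1, ?_⟩
      have h1 : (f : LP K) = g := congrArg (fun z : R' => (z : LP K)) hfg
      rw [Subtype.ext h1]
  refine reg_of_loc (B := R') M PP ?_ ?_
  · rw [Set.disjoint_left]
    rintro f ⟨s, hs, hfs⟩ h1
    apply hs.2
    rw [← hfs]
    exact ⟨f.2, h1⟩
  · intro p _ hp
    refine hreg (LgR R PP) K hinj ι x hind a ha R' hR' p ?_ ?_
    · intro h
      rw [hp]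
      exact Ideal.mem_map_of_mem (algebraMap R R') hPT.2
    · intro b hb
      obtain ⟨s, hs, h1⟩ := mem_maxLgR.1 hb
      have h2 : algebraMap (LgR R PP) R' b =
          algebraMap (LgR R PP) R' ⟨s⁻¹, Lg.inv hs⟩ * algebraMap R R' ⟨_, h1.1⟩ := by
        apply Subtype.ext
        change hm 0 (b : K) = hm 0 s⁻¹ * hm 0 (s * (b : K))
        rw [hm_mul, add_zero, ← mul_assoc, inv_mul_cancel₀ hs.ne, one_mul]
      rw [h2, hp]
      exact Ideal.mul_mem_left _ _ (Ideal.mem_map_of_mem (algebraMap R R') h1.2)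

end Pool.Agent.Zk15
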