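import Pool.Agent.Zk15.Loc1
import Pool.Agent.Zk15.Wch2

/-!
# Parameters of the local ring
-/

set_option autoImplicit false
set_option linter.unusedSectionVars false
set_option linter.unusedSimpArgs false

namespace Pool.Agent.Zk15

open Pool.Agent.Y223.G IsLocalRing Pool.Agent.W418.LU2

/-- Induction on the elements of a cone. -/
lemma GS_ind {Λ : Type} [AddCommGroup Λ] {ι : Type} [Fintype ι] {g : Module.Basis ι ℤ Λ}
    {U : Set ι} (Pr : Λ → Prop) (h0 : Pr 0) (ha : ∀ x y, Pr x → Pr y → Pr (x + y))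
    (hb : ∀ i, Pr (g i)) (hJ : ∀ i ∈ U, Pr (-g i)) {s : Λ} (hs : s ∈ GS g U) : Pr s := by
  classical
  have hsm : ∀ (q : ℕ) x, Pr x → Pr (q • x) := by
    intro q x hx
    induction q with
    | zero => rw [zero_smul]; exact h0
    | succ q ih => rw [succ_nsmul]; exact ha _ _ ih hx
  have hsum : ∀ (I : Finset ι) (f : ι → Λ), (∀ i, Pr (f i)) → Pr (∑ i ∈ I, f i) := by
    intro I f hf
    induction I using Finset.induction_on with
    | empty => rw [Finset.sum_empty]; exact h0
    | insert i I hi ih => rw [Finset.sum_insert hi]; exact ha _ _ (hf i) ih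
  rw [← g.sum_repr s]
  refine hsum _ _ fun i => ?_
  rcases le_total 0 (g.repr s i) with h | h
  · obtain ⟨q, hq⟩ := Int.eq_ofNat_of_zero_le h
    rw [hq, natCast_zsmul]
    exact hsm q _ (hb i)
  · by_cases hi : i ∈ U
    · obtain ⟨q, hq⟩ := Int.eq_ofNat_of_zero_le (neg_nonneg.2 h)
      have e : g.repr s i • g i = q • -g i := by
        rw [← natCast_zsmul, ← hq]
        simp
      rw [e]
      exact hsm q _ (hJ i hi)
    · have h1 := hs i hi
      have h2 : g.repr s i = 0 := le_antisymm h h1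
      rw [h2, zero_smul]
      exact h0

section yb

variable {K Λ : Type} [Field K] [AddCommGroup Λ] {X : Λ → K} {B : Subring K}
  {L : AddSubgroup Λ} (hL : ∀ e ∈ L, X e ∈ B)

/-- The element `X e`. -/
def xB (e : L) : B := ⟨X e, hL e e.2⟩

/-- The element `X e - 1`. -/
def yB (e : L) : B := xB hL e - 1

lemma xB_add (hXa : ∀ a b, X (a + b) = X a * X b) (e e' : L) :
    xB hL (e + e') = xB hL e * xB hL e' := Subtype.ext (hXa _ _)

lemma xB_zero (hX0 : X 0 = 1) : xB hL 0 = 1 := Subtype.ext hX0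

lemma yB_add (hXa : ∀ a b, X (a + b) = X a * X b) (e e' : L) :
    yB hL (e + e') = xB hL e * yB hL e' + yB hL e := by
  unfold yB
  rw [xB_add hL hXa]
  ring

lemma yB_zero (hX0 : X 0 = 1) : yB hL 0 = 0 := by
  unfold yB
  rw [xB_zero hL hX0, sub_self]

lemma yB_neg (hX0 : X 0 = 1) (hXa : ∀ a b, X (a + b) = X a * X b) (e : L) :
    yB hL (-e) = -(xB hL (-e) * yB hL e) := by
  have h1 := yB_add hL hXa (-e) e
  rw [neg_add_cancel, yB_zero hL hX0] at h1
  linear_combination -h1

/-- The elements `e` with `X e - 1` in an ideal form a group. -/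
def yG (hX0 : X 0 = 1) (hXa : ∀ a b, X (a + b) = X a * X b) (I : Ideal B) : AddSubgroup L where
  carrier := {e | yB hL e ∈ I}
  add_mem' := by
    intro a b ha hb
    rw [Set.mem_ofPred_eq] at *
    rw [yB_add hL hXa]
    exact I.add_mem (I.mul_mem_left _ hb) ha
  zero_mem' := by
    rw [Set.mem_ofPred_eq, yB_zero hL hX0]
    exact I.zero_mem
  neg_mem' := by
    intro a ha
    rw [Set.mem_ofPred_eq] at *
    rw [yB_neg hL hX0 hXa]
    exact I.neg_mem (I.mul_mem_left _ ha)

lemma mem_yG {hX0 : X 0 = 1} {hXa : ∀ a b, X (a + b) = X a * X b} {I : Ideal B} {e : L} :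
    e ∈ yG hL hX0 hXa I ↔ yB hL e ∈ I := Iff.rfl

/-- The `p`-th multiples. -/
lemma yB_pmul (hX0 : X 0 = 1) (hXa : ∀ a b, X (a + b) = X a * X b) {p : ℕ} (hp : p.Prime)
    (e : L) : ∃ r : B, yB hL (p • e) = yB hL e ^ p + r * ((p : B) * yB hL e) := by
  have h1 : ∀ q : ℕ, xB hL (q • e) = xB hL e ^ q := by
    intro q
    induction q with
    | zero => rw [zero_smul, xB_zero hL hX0, pow_zero]
    | succ q ih => rw [succ_nsmul, xB_add hL hXa, ih, pow_succ]
  obtain ⟨r, hr⟩ := exists_add_pow_prime_eq hp (1 : B) (yB hL e)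
  refine ⟨r, ?_⟩
  have h2 : 1 + yB hL e = xB hL e := by unfold yB; ring
  unfold yB
  rw [h1, ← h2, hr, one_pow]
  ring

/-- **The ideal of the elements `X e - 1`.** -/
theorem nak [IsLocalRing B] [IsNoetherianRing B] (hX0 : X 0 = 1)
    (hXa : ∀ a b, X (a + b) = X a * X b) (hm : ∀ e : L, yB hL e ∈ maximalIdeal B) {p : ℕ}
    (hp : p.Prime) (hpm : (p : B) ∈ maximalIdeal B) {Sx : Type} [Fintype Sx] (f : Sx → L)
    (hdec : ∀ e : L, ∃ (n : Sx → ℤ) (e' : L), e = ∑ s, n s • f s + p • e') (e : L) :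
    yB hL e ∈ Ideal.span (Set.range fun s => yB hL (f s)) := by
  set 𝔞 : Ideal B := Ideal.span (Set.range fun e => yB hL e) with h𝔞
  set 𝔟 : Ideal B := Ideal.span (Set.range fun s => yB hL (f s)) with h𝔟
  have h1 : 𝔞 ≤ 𝔟 ⊔ maximalIdeal B • 𝔞 := by
    rw [h𝔞, Ideal.span_le]
    rintro _ ⟨e, rfl⟩
    obtain ⟨n, e', he⟩ := hdec e
    change e ∈ yG hL hX0 hXa (𝔟 ⊔ maximalIdeal B • 𝔞)
    rw [he]
    refine add_mem (sum_mem fun s _ => zsmul_mem ?_ _) ?_
    · exact (le_sup_left : 𝔟 ≤ _) (Ideal.subset_span ⟨s, rfl⟩)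
    · rw [mem_yG]
      apply (le_sup_right : maximalIdeal B • 𝔞 ≤ _)
      obtain ⟨r, hr⟩ := yB_pmul hL hX0 hXa hp e'
      rw [hr]
      have hy : yB hL e' ∈ 𝔞 := Ideal.subset_span ⟨e', rfl⟩
      obtain ⟨q, rfl⟩ : ∃ q, p = q + 1 + 1 := ⟨p - 2, by have := hp.two_le; omega⟩
      refine Submodule.add_mem _ ?_ (Ideal.mul_mem_left _ _ ?_)
      · rw [pow_succ]
        exact Submodule.smul_mem_smul (Ideal.pow_mem_of_mem _ (hm e') _ (Nat.succ_pos _)) hy
      · exact Submodule.smul_mem_smul hpm hy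
  have h2 : 𝔞 ≤ 𝔟 := by
    refine Submodule.le_of_le_smul_of_le_jacobson_bot (I := maximalIdeal B) ?_ ?_ h1
    · exact IsNoetherian.noetherian 𝔞
    · exact (IsLocalRing.maximalIdeal_le_jacobson _)
  exact h2 (Ideal.subset_span ⟨e, rfl⟩)

/-- Additivity modulo the square of an ideal. -/
theorem yB_lin (hX0 : X 0 = 1) (hXa : ∀ a b, X (a + b) = X a * X b) (I : Ideal B)
    (hm : ∀ e : L, yB hL e ∈ I) {ι : Type} [Fintype ι] (g : ι → L) (n : ι → ℤ) :
    yB hL (∑ i, n i • g i) - ∑ i, (n i : B) * yB hL (g i) ∈ I ^ 2 := by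
  classical
  let φ : L →+ B ⧸ (I ^ 2) :=
    { toFun := fun e => Ideal.Quotient.mk _ (yB hL e)
      map_zero' := by rw [yB_zero hL hX0, map_zero]
      map_add' := by
        intro a b
        rw [← map_add, Ideal.Quotient.eq, yB_add hL hXa]
        have e1 : xB hL a * yB hL b + yB hL a - (yB hL a + yB hL b) = yB hL a * yB hL b := by
          unfold yB
          ring
        rw [e1, sq]
        exact Ideal.mul_mem_mul (hm a) (hm b) }
  have hφ : ∀ e, φ e = Ideal.Quotient.mk _ (yB hL e) := fun e => rfl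
  rw [← Ideal.Quotient.eq_zero_iff_mem, map_sub, ← hφ, map_sum, map_sum, sub_eq_zero]
  refine Finset.sum_congr rfl fun i _ => ?_
  rw [map_zsmul, hφ, zsmul_eq_mul, map_mul, map_intCast]

end yb

section binom

variable {k K : Type} [CommRing k] [Field K] [Algebra k K]

/-- The differences in terms of the iterates. -/
lemma df_shift (τ : K ≃ₐ[k] K) (i : ℕ) (x : K) :
    (df τ)^[i] x = ∑ q ∈ Finset.range (i + 1),
      ((((-1 : ℤ) ^ (i - q) * (i.choose q : ℤ) : ℤ)) : K) * τ^[q] x := by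
  have h1 : ∀ (i q : ℕ), (fwdDiff (1 : ℕ))^[i] (fun q => τ^[q] x) q = τ^[q] ((df τ)^[i] x) := by
    intro i
    induction i with
    | zero => intro q; rfl
    | succ i ih =>
      intro q
      have h2 : ∀ F : ℕ → K, fwdDiff (1 : ℕ) F q = F (q + 1) - F q := fun F => rfl
      rw [Function.iterate_succ_apply', h2, ih, ih, Function.iterate_succ_apply' (df τ), Function.iterate_succ_apply]
      change _ = τ^[q] (τ ((df τ)^[i] x) - (df τ)^[i] x)
      rw [iterate_map_sub]
  have h2 := fwdDiff_iter_eq_sum_shift (1 : ℕ) (fun q => τ^[q] x) i 0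
  rw [h1, Function.iterate_zero_apply] at h2
  rw [h2]
  refine Finset.sum_congr rfl fun q _ => ?_
  rw [zsmul_eq_mul, zero_add, smul_eq_mul, mul_one]

lemma binom_inv (i a : ℕ) : ∑ q ∈ Finset.range (i + 1),
    ((-1 : ℤ) ^ (i - q) * (i.choose q : ℤ)) * (q.choose a : ℤ) = if i = a then 1 else 0 := by
  have h1 := fwdDiff_iter_eq_sum_shift (1 : ℕ) (fun q => ((q.choose a : ℕ) : ℤ)) i 0
  rw [fwdDiff_iter_choose_zero] at h1
  rw [h1]
  refine Finset.sum_congr rfl fun q _ => ?_
  rw [zero_add, smul_eq_mul, smul_eq_mul, mul_one]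

end binom

section indq

variable {k K Λ : Type} [CommRing k] [Field K] [Algebra k K] [AddCommGroup Λ] {X : Λ → K}
  {B : Subring K} {L : AddSubgroup Λ} (hL : ∀ e ∈ L, X e ∈ B) [IsLocalRing B]

/-- The parameters. -/
def prm {Sx κ1 : Type} {p : ℕ} (π : B) (f : Sx → L) (d1 : κ1 → ℕ → B) :
    Option (Sx ⊕ κ1 × Fin (p - 1)) → B :=
  fun i => i.elim π (Sum.elim (fun s => yB hL (f s)) fun rq => d1 rq.1 (rq.2 + 1))

/-- The parameters are independent. -/
theorem indQ (hX0 : X 0 = 1) (hXa : ∀ a b, X (a + b) = X a * X b)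
    (hm : ∀ e : L, yB hL e ∈ maximalIdeal B) {p : ℕ} (hp : p.Prime)
    (hpm : (p : B) ∈ maximalIdeal B) {Sx ι1 κ0 κ1 : Type} [Fintype Sx] [Fintype ι1] [Fintype κ0]
    [Fintype κ1] (π : B) (f : Sx → L) (g1 : ι1 → L) (u0 : κ0 → B) (t1 : κ1 → ℕ → B)
    (d1 : κ1 → ℕ → B)
    (hd : ∀ r i, d1 r i = ∑ q ∈ Finset.range (i + 1),
      ((((-1 : ℤ) ^ (i - q) * (i.choose q : ℤ) : ℤ)) : B) * t1 r q)
    (hInd : Ind (fun i : Option (ι1 ⊕ (κ0 ⊕ κ1 × Fin p)) => i.elim π
      (Sum.elim (fun i => yB hL (g1 i)) (Sum.elim u0 fun rk => t1 rk.1 rk.2))))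
    (hf : ∀ s, ∃ n : ι1 → ℤ, f s = ∑ i, n i • g1 i)
    (hψ : ∀ s', ∃ ψ : L →+ ZMod p, ∀ s, (s = s' → ψ (f s) = 1) ∧ (s ≠ s' → ψ (f s) = 0)) :
    Ind (prm (p := p) hL π f d1) := by
  classical
  choose nf hnf using hf
  choose ψ hψ using hψ
  have hne : NeZero p := ⟨hp.ne_zero⟩
  have hmod : ∀ n : ℤ, ((n : ℤ) : ZMod p) = 0 → (n : B) ∈ maximalIdeal B := by
    intro n hn
    rw [ZMod.intCast_zmod_eq_zero_iff_dvd] at hn
    obtain ⟨c, rfl⟩ := hn
    push_cast
    exact Ideal.mul_mem_right _ _ hpm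
  let A : Option (Sx ⊕ κ1 × Fin (p - 1)) → Option (ι1 ⊕ (κ0 ⊕ κ1 × Fin p)) → B := fun i j =>
    match i, j with
    | none, none => 1
    | some (Sum.inl s), some (Sum.inl i) => (nf s i : B)
    | some (Sum.inr (r, q)), some (Sum.inr (Sum.inr (r', q'))) =>
      if r = r' then ((((-1 : ℤ) ^ ((q : ℕ) + 1 - q') * (((q : ℕ) + 1).choose q' : ℤ) : ℤ)) : B)
        else 0
    | _, _ => 0
  let w : Option (Sx ⊕ κ1 × Fin (p - 1)) → Option (ι1 ⊕ (κ0 ⊕ κ1 × Fin p)) → B := fun i j =>
    match i, j with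
    | none, none => 1
    | some (Sum.inl s), some (Sum.inl i) => (((ψ s (g1 i)).val : ℤ) : B)
    | some (Sum.inr (r, q)), some (Sum.inr (Sum.inr (r', q'))) =>
      if r = r' then (((q' : ℕ).choose ((q : ℕ) + 1) : ℤ) : B) else 0
    | _, _ => 0
  have hbin : ∀ (q : Fin (p - 1)) (F : ℕ → B),
      ∑ q' : Fin p, ((((-1 : ℤ) ^ ((q : ℕ) + 1 - q') * (((q : ℕ) + 1).choose q' : ℤ) : ℤ)) : B) *
        F q' = ∑ q' ∈ Finset.range ((q : ℕ) + 1 + 1),
          ((((-1 : ℤ) ^ ((q : ℕ) + 1 - q') * (((q : ℕ) + 1).choose q' : ℤ) : ℤ)) : B) * F q' := by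
    intro q F
    rw [Fin.sum_univ_eq_sum_range (fun q' => ((((-1 : ℤ) ^ ((q : ℕ) + 1 - q') *
      (((q : ℕ) + 1).choose q' : ℤ) : ℤ)) : B) * F q')]
    symm
    apply Finset.sum_subset
    · intro q' hq'
      rw [Finset.mem_range] at *
      have := q.2
      omega
    · intro q' _ hq'
      rw [Finset.mem_range, not_lt] at hq'
      rw [Nat.choose_eq_zero_of_lt (by omega)]
      simp
  refine ind_lin hInd A w ?_ ?_
  · rintro (_ | s | ⟨r, q⟩)
    · simp [A, prm, Fintype.sum_option, Fintype.sum_sum_type]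
    · have h1 := yB_lin hL hX0 hXa (maximalIdeal B) hm g1 (nf s)
      rw [← hnf] at h1
      simpa [A, prm, Fintype.sum_option, Fintype.sum_sum_type] using h1
    · have h1 : d1 r (q + 1) = ∑ q' : Fin p,
          ((((-1 : ℤ) ^ ((q : ℕ) + 1 - q') * (((q : ℕ) + 1).choose q' : ℤ) : ℤ)) : B) *
            t1 r q' := by
        rw [hbin q (fun q' => t1 r q'), hd]
      simp only [A, prm, Fintype.sum_option, Fintype.sum_sum_type, Fintype.sum_prod_type,
        Option.elim, Sum.elim_inr, Sum.elim_inl, zero_mul, Finset.sum_const_zero, zero_add,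
        ite_mul]
      rw [Finset.sum_comm]
      simp only [Finset.sum_ite_eq, Finset.mem_univ, if_true]
      rw [h1, sub_self]
      exact zero_mem _
  · rintro (_ | s | ⟨r, q⟩)
    · constructor
      · simp [A, w, Fintype.sum_option, Fintype.sum_sum_type]
      · rintro (_ | s' | ⟨r', q'⟩) h
        · exact absurd rfl h
        · simp [A, w, Fintype.sum_option, Fintype.sum_sum_type]
        · simp [A, w, Fintype.sum_option, Fintype.sum_sum_type]
    · have h1 : ∀ s', ((∑ i, nf s' i * ((ψ s (g1 i)).val : ℤ) : ℤ) : ZMod p) = ψ s (f s') := by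
        intro s'
        rw [hnf s', map_sum]
        push_cast
        refine Finset.sum_congr rfl fun i _ => ?_
        rw [map_zsmul, ZMod.natCast_zmod_val, zsmul_eq_mul]
      constructor
      · have h2 : ((∑ i, nf s i * ((ψ s (g1 i)).val : ℤ) - 1 : ℤ) : B) ∈ maximalIdeal B := by
          apply hmod
          rw [Int.cast_sub, h1, (hψ s s).1 rfl, Int.cast_one, sub_self]
        push_cast at h2
        simpa [A, w, Fintype.sum_option, Fintype.sum_sum_type] using h2
      · rintro (_ | s' | ⟨r', q'⟩) h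
        · simp [A, w, Fintype.sum_option, Fintype.sum_sum_type]
        · have h2 : ((∑ i, nf s' i * ((ψ s (g1 i)).val : ℤ) : ℤ) : B) ∈ maximalIdeal B := by
            apply hmod
            rw [h1, (hψ s s').2 (fun h' => h (by rw [h']))]
          push_cast at h2
          simpa [A, w, Fintype.sum_option, Fintype.sum_sum_type] using h2
        · simp [A, w, Fintype.sum_option, Fintype.sum_sum_type]
    · have h1 : ∀ q' : Fin (p - 1), ∑ q'' : Fin p,
          ((((-1 : ℤ) ^ ((q' : ℕ) + 1 - q'') * (((q' : ℕ) + 1).choose q'' : ℤ) : ℤ)) : B) *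
            (((q'' : ℕ).choose ((q : ℕ) + 1) : ℤ) : B) = if q' = q then 1 else 0 := by
        intro q'
        rw [hbin q' (fun q'' => (((q'' : ℕ).choose ((q : ℕ) + 1) : ℤ) : B))]
        have h2 := congrArg (Int.cast : ℤ → B) (binom_inv ((q' : ℕ) + 1) ((q : ℕ) + 1))
        rw [Int.cast_sum] at h2
        simp only [Int.cast_mul] at h2 ⊢
        rw [h2]
        by_cases h3 : q' = q
        · subst h3
          simp
        · have h4 : ¬ ((q' : ℕ) + 1 = (q : ℕ) + 1) := fun h => h3 (Fin.ext (by omega))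
          rw [if_neg h4, if_neg h3, Int.cast_zero]
      constructor
      · simp only [A, w, Fintype.sum_option, Fintype.sum_sum_type, Fintype.sum_prod_type,
          zero_mul, Finset.sum_const_zero, zero_add, ite_mul, mul_ite, mul_zero]
        rw [Finset.sum_comm]
        simp only [Finset.sum_ite_eq, Finset.mem_univ, if_true]
        rw [h1 q, if_pos rfl, sub_self]
        exact zero_mem _
      · rintro (_ | s' | ⟨r', q'⟩) h
        · simp [A, w, Fintype.sum_option, Fintype.sum_sum_type]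
        · simp [A, w, Fintype.sum_option, Fintype.sum_sum_type]
        · simp only [A, w, Fintype.sum_option, Fintype.sum_sum_type, Fintype.sum_prod_type,
            zero_mul, Finset.sum_const_zero, zero_add, ite_mul, mul_ite, mul_zero]
          rw [Finset.sum_comm]
          simp only [Finset.sum_ite_eq, Finset.mem_univ, if_true]
          by_cases hr : r = r'
          · subst hr
            simp only [↓reduceIte]
            rw [h1 q', if_neg]
            · exact zero_mem _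
            · intro h'
              exact h (by rw [h'])
          · have hr' : ¬ r' = r := fun h => hr h.symm
            simp only [hr', hr, if_false, Finset.sum_const_zero]
            exact zero_mem _

end indq

end Pool.Agent.Zk15
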