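import Pool.Agent.Zk15.Loc2

/-!
# Regularity of the charts at the primes of the exceptional divisor
-/

set_option autoImplicit false
set_option linter.unusedSectionVars false
set_option linter.unusedSimpArgs false

namespace Pool.Agent.Zk15

open Pool.Agent.Y223.G IsLocalRing Pool.Agent.W418.LU2
open Pool.Agent.Y86.G5 (im mem_im im_sub im_mul im_prime im_one im_pow)
open Pool.Agent.R383.TM (WR WR_s WR_e WR_o WR_z FIX)

section ee

variable {K Λ : Type} [Field K] [AddCommGroup Λ] {X : Λ → K} {B : Subring K}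
  {L : AddSubgroup Λ} (hL : ∀ e ∈ L, X e ∈ B)

include hL in
/-- The elements `X e - 1`, for `e` in the image of a power of the difference. -/
theorem EE (hX0 : X 0 = 1) (hXa : ∀ a b, X (a + b) = X a * X b) {ι : Type} [Fintype ι]
    {x : ι → B} {a : ι → ℕ} {p l : ℕ} (hp : p.Prime) (hpl : (p : K) ∈ FK B x a ((p - 1) * l))
    {Sx : Type} [Fintype Sx] (f : Sx → L) (ω : Sx → ℕ)
    (hf : ∀ s, X (f s) - 1 ∈ FK B x a (ω s * l)) (δ : L →+ L)
    (hdec : ∀ i e, ∃ (n : Sx → ℤ) (e' : L), δ^[i] e = ∑ s, n s • f s + p • e' ∧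
      ∀ s, ω s ≤ i → n s = 0)
    (h0 : ∀ e : L, X e - 1 ∈ FK B x a l) {i : ℕ} (hi : i ≤ p - 1) (e : L) :
    X (δ^[i] e : L) - 1 ∈ FK B x a ((i + 1) * l) := by
  obtain ⟨n, e', he, hn⟩ := hdec i e
  have h1 : ((δ^[i] e : L) : Λ) ∈ ME hX0 hXa L hL x a ((i + 1) * l) := by
    rw [he]
    push_cast
    refine add_mem (sum_mem fun s _ => ?_) ?_
    · by_cases hs : ω s ≤ i
      · rw [hn s hs, zero_smul]
        exact zero_mem _
      · refine zsmul_mem (mem_ME.2 ⟨(f s).2, ?_⟩) _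
        exact FK_mono (Nat.mul_le_mul_right _ (by omega)) (hf s)
    · refine mem_ME.2 ⟨nsmul_mem e'.2 _, ?_⟩
      refine FK_mono (Nat.mul_le_mul_right _ ?_) (FK_pmul hX0 hXa hp hpl (h0 e'))
      have := hp.pos
      omega
  exact (mem_ME.1 h1).2

end ee

variable {k O K Λ : Type} [CommRing k] [CommRing O] [Field K] [Algebra k K] [Algebra O K]
  [AddCommGroup Λ] {n : ℕ} [Algebra k O] [IsScalarTower k O K] {S : Dat k O K Λ n} {m : ℕ}
  {z : Fin (m + 1) → K} {a : Fin (m + 1) → ℕ} {j : Fin (m + 1)}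

/-- A uniformizer. -/
lemma Dat.unif [IsDedekindDomain O] (S : Dat k O K Λ n) : ∃ π ∈ S.𝔓, π ∉ S.𝔓 ^ 2 ∧
    ∃ u : O, u ∉ S.𝔓 ∧ ∀ y ∈ S.𝔓, ∃ d, u * y = π * d := by
  obtain ⟨π, hπ, hπ2⟩ := S.pi
  have hT : ∀ y ∈ S.𝔓, S.T y ∈ S.𝔓 := by
    intro x hx
    have h1 : S.T x - x ∈ S.𝔓 := Ideal.pow_le_self (Nat.succ_ne_zero _) (S.dv x)
    have h2 := S.𝔓.add_mem h1 hx
    rwa [sub_add_cancel] at h2
  have hsq : π ∉ S.𝔓 ^ 2 := by
    intro h
    apply hπ2
    clear hπ2 hπ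
    rw [sq] at h
    induction h using Submodule.mul_induction_on' with
    | mem_mul_mem x hx y hy =>
      have e : S.T (x * y) - x * y = (S.T x - x) * S.T y + (S.T y - y) * x := by
        rw [map_mul]
        ring
      rw [e, pow_succ S.𝔓 (S.l + 1)]
      exact Ideal.add_mem _ (Ideal.mul_mem_mul (S.dv x) (hT y hy))
        (Ideal.mul_mem_mul (S.dv y) hx)
    | add x _ y _ hx hy =>
      have e : S.T (x + y) - (x + y) = (S.T x - x) + (S.T y - y) := by
        rw [map_add]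
        ring
      rw [e]
      exact Ideal.add_mem _ hx hy
  refine ⟨π, hπ, hsq, ?_⟩
  have h1 : S.𝔓 ∣ Ideal.span {π} := Ideal.dvd_iff_le.2 ((Ideal.span_singleton_le_iff_mem _).2 hπ)
  obtain ⟨I, hI⟩ := h1
  have h2 : ∃ u ∈ I, u ∉ S.𝔓 := by
    by_contra hcon
    push Not at hcon
    apply hsq
    have h3 : π ∈ S.𝔓 * I := by
      rw [← hI]
      exact Ideal.mem_span_singleton_self π
    rw [sq]
    exact Ideal.mul_mono_right hcon h3
  obtain ⟨u, hu, hu'⟩ := h2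
  refine ⟨u, hu', fun y hy => ?_⟩
  have h3 : u * y ∈ S.𝔓 * I := by
    rw [mul_comm u]
    exact Ideal.mul_mem_mul hy hu
  rw [← hI, Ideal.mem_span_singleton'] at h3
  obtain ⟨d, hd⟩ := h3
  exact ⟨d, by rw [← hd, mul_comm]⟩

end Pool.Agent.Zk15
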