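import Pool.Agent.Y223.G.WFinN
import Pool.Agent.Zk15.Asm

/-!
# Number fields: the rings of `N`-integers
-/

set_option autoImplicit false
set_option linter.unusedVariables false
set_option linter.unusedSectionVars false

open NumberField

namespace Pool.Agent.Zk15

open Pool.Agent.Y223.G

/-- The ring of the elements which are integral up to a power of `N`. -/
def SN (L : Type) [Field L] [NumberField L] (N : ℕ) : Subalgebra (𝓞 L) L where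
  carrier := {x | ∃ (n : ℕ) (a : 𝓞 L), (N : L) ^ n * x = (a : L)}
  mul_mem' := by
    rintro x y ⟨n, a, ha⟩ ⟨m, b, hb⟩
    refine ⟨n + m, a * b, ?_⟩
    have h1 : ((a * b : 𝓞 L) : L) = (a : L) * (b : L) := map_mul (algebraMap (𝓞 L) L) a b
    rw [h1, ← ha, ← hb]
    ring
  add_mem' := by
    rintro x y ⟨n, a, ha⟩ ⟨m, b, hb⟩
    refine ⟨n + m, (N : 𝓞 L) ^ m * a + (N : 𝓞 L) ^ n * b, ?_⟩
    have h1 : (((N : 𝓞 L) ^ m * a + (N : 𝓞 L) ^ n * b : 𝓞 L) : L) =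
        (N : L) ^ m * (a : L) + (N : L) ^ n * (b : L) := by
      push_cast
      ring
    rw [h1, ← ha, ← hb]
    ring
  algebraMap_mem' := fun a => ⟨0, a, by rw [pow_zero, one_mul]⟩

section

variable {L : Type} [Field L] [NumberField L] {N : ℕ}

lemma mem_SN {x : L} : x ∈ SN L N ↔ ∃ (n : ℕ) (a : 𝓞 L), (N : L) ^ n * x = (a : L) := Iff.rfl

theorem SN_loc (hN : N ≠ 0) : IsLocalization (Submonoid.powers (N : 𝓞 L)) (SN L N) := by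
  have hNL : (N : L) ≠ 0 := Nat.cast_ne_zero.2 hN
  constructor
  constructor
  · rintro ⟨_, n, rfl⟩
    refine IsUnit.of_mul_eq_one (⟨((N : L) ^ n)⁻¹, n, 1, ?_⟩ : SN L N) ?_
    · rw [mul_inv_cancel₀ (pow_ne_zero _ hNL)]
      exact (map_one (algebraMap (𝓞 L) L)).symm
    · apply Subtype.ext
      change (((N : 𝓞 L) ^ n : 𝓞 L) : L) * ((N : L) ^ n)⁻¹ = 1
      push_cast
      exact mul_inv_cancel₀ (pow_ne_zero _ hNL)
  · rintro ⟨x, n, a, h⟩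
    refine ⟨(a, ⟨(N : 𝓞 L) ^ n, n, rfl⟩), ?_⟩
    apply Subtype.ext
    change x * (((N : 𝓞 L) ^ n : 𝓞 L) : L) = (a : L)
    rw [← h]
    push_cast
    ring
  · intro x y h
    refine ⟨1, ?_⟩
    have h1 : ((algebraMap (𝓞 L) (SN L N) x : SN L N) : L) = (algebraMap (𝓞 L) (SN L N) y : SN L N) :=
      congrArg Subtype.val h
    rw [RingOfIntegers.coe_injective h1]

theorem powers_le (hN : N ≠ 0) : Submonoid.powers (N : 𝓞 L) ≤ nonZeroDivisors (𝓞 L) :=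
  powers_le_nonZeroDivisors_of_noZeroDivisors (Nat.cast_ne_zero.2 hN)

theorem SN_ded (hN : N ≠ 0) : IsDedekindDomain (SN L N) := by
  have := SN_loc (L := L) hN
  exact IsLocalization.isDedekindDomain (𝓞 L) (powers_le hN) (SN L N)

lemma SN_unit (hN : N ≠ 0) : IsUnit ((N : ℕ) : SN L N) := by
  have := SN_loc (L := L) hN
  have h1 := IsLocalization.map_units (SN L N) (⟨(N : 𝓞 L), 1, pow_one _⟩ :
    Submonoid.powers (N : 𝓞 L))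
  rwa [map_natCast] at h1

/-- The prime of `𝓞 L` below. -/
def dn (𝔓 : Ideal (SN L N)) : Ideal (𝓞 L) := 𝔓.comap (algebraMap (𝓞 L) (SN L N))

lemma dn_prime (𝔓 : Ideal (SN L N)) [𝔓.IsPrime] : (dn 𝔓).IsPrime := by
  unfold dn
  infer_instance

lemma dn_N (hN : N ≠ 0) (𝔓 : Ideal (SN L N)) [h : 𝔓.IsPrime] : (N : 𝓞 L) ∉ dn 𝔓 := by
  intro h1
  have h2 : ((N : ℕ) : SN L N) ∈ 𝔓 := by
    have h3 : algebraMap (𝓞 L) (SN L N) (N : 𝓞 L) ∈ 𝔓 := h1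
    rwa [map_natCast] at h3
  exact h.ne_top (Ideal.eq_top_of_isUnit_mem _ h2 (SN_unit hN))

lemma dn_ne (hN : N ≠ 0) {𝔓 : Ideal (SN L N)} (h0 : 𝔓 ≠ ⊥) : dn 𝔓 ≠ ⊥ := by
  obtain ⟨x, hx, hx0⟩ := Submodule.exists_mem_ne_zero_of_ne_bot h0
  obtain ⟨n, a, ha⟩ := x.2
  have hNL : (N : L) ≠ 0 := Nat.cast_ne_zero.2 hN
  intro h
  have h1 : a ∈ dn 𝔓 := by
    change algebraMap (𝓞 L) (SN L N) a ∈ 𝔓
    have h2 : algebraMap (𝓞 L) (SN L N) a = ((N : SN L N)) ^ n * x := by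
      apply Subtype.ext
      change (a : L) = _
      rw [← ha]
      push_cast
      rfl
    rw [h2]
    exact 𝔓.mul_mem_left _ hx
  rw [h, Ideal.mem_bot] at h1
  subst h1
  have h2 : (x : L) = 0 := by
    have h3 : (N : L) ^ n * (x : L) = 0 := by rw [ha]; exact map_zero (algebraMap (𝓞 L) L)
    exact (mul_eq_zero.1 h3).resolve_left (pow_ne_zero _ hNL)
  exact hx0 (Subtype.ext h2)

lemma dn_max (hN : N ≠ 0) {𝔓 : Ideal (SN L N)} (h𝔓 : 𝔓.IsMaximal) (h0 : 𝔓 ≠ ⊥) :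
    (dn 𝔓).IsMaximal := by
  have := h𝔓.isPrime
  have := dn_prime 𝔓
  exact this.isMaximal (dn_ne hN h0)

lemma dn_inv (hN : N ≠ 0) {𝔓 : Ideal (SN L N)} (h𝔓 : 𝔓.IsMaximal) (h0 : 𝔓 ≠ ⊥) (n : ℕ) :
    ∃ b : 𝓞 L, (N : 𝓞 L) ^ n * b - 1 ∈ dn 𝔓 := by
  have hm := dn_max hN h𝔓 h0
  have h1 := h𝔓.isPrime
  have h2 : (N : 𝓞 L) ^ n ∉ dn 𝔓 := fun h => dn_N hN 𝔓 (hm.isPrime.mem_of_pow_mem n h)
  obtain ⟨b, c, hc, h3⟩ := hm.exists_inv h2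
  refine ⟨b, ?_⟩
  have h4 : (N : 𝓞 L) ^ n * b - 1 = -c := by
    rw [← h3]
    ring
  rw [h4]
  exact (dn 𝔓).neg_mem hc

lemma dn_resf (hN : N ≠ 0) {𝔓 : Ideal (SN L N)} (h𝔓 : 𝔓.IsMaximal) (h0 : 𝔓 ≠ ⊥) :
    Finite (SN L N ⧸ 𝔓) := by
  have h1 : Finite (𝓞 L ⧸ dn 𝔓) := Ideal.finiteQuotientOfFreeOfNeBot _ (dn_ne hN h0)
  refine @Finite.of_surjective (𝓞 L ⧸ dn 𝔓) _ h1
    (Ideal.quotientMap (I := dn 𝔓) 𝔓 (algebraMap (𝓞 L) (SN L N)) le_rfl) ?_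
  intro y
  obtain ⟨x, rfl⟩ := Ideal.Quotient.mk_surjective y
  obtain ⟨n, a, ha⟩ := x.2
  obtain ⟨b, hb⟩ := dn_inv hN h𝔓 h0 n
  refine ⟨Ideal.Quotient.mk _ (b * a), ?_⟩
  rw [Ideal.quotientMap_mk, Ideal.Quotient.eq]
  have h2 : algebraMap (𝓞 L) (SN L N) (b * a) - x =
      algebraMap (𝓞 L) (SN L N) ((N : 𝓞 L) ^ n * b - 1) * x := by
    apply Subtype.ext
    change algebraMap (𝓞 L) L (b * a) - (x : L) =
      algebraMap (𝓞 L) L ((N : 𝓞 L) ^ n * b - 1) * (x : L)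
    have ha' : (N : L) ^ n * (x : L) = algebraMap (𝓞 L) L a := ha
    rw [map_mul, map_sub, map_mul, map_pow, map_natCast, map_one, ← ha']
    ring
  rw [h2]
  exact 𝔓.mul_mem_right _ hb

lemma dn_sq (hN : N ≠ 0) {𝔓 : Ideal (SN L N)} (h𝔓 : 𝔓.IsMaximal) (h0 : 𝔓 ≠ ⊥) {d : 𝓞 L}
    (hd : algebraMap (𝓞 L) (SN L N) d ∈ 𝔓 ^ 2) : d ∈ dn 𝔓 ^ 2 := by
  have hloc := SN_loc (L := L) hN
  have h1 : 𝔓 = (dn 𝔓).map (algebraMap (𝓞 L) (SN L N)) :=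
    (IsLocalization.map_under (Submonoid.powers (N : 𝓞 L)) (SN L N) 𝔓).symm
  have hd' : algebraMap (𝓞 L) (SN L N) d ∈ (dn 𝔓 ^ 2).map (algebraMap (𝓞 L) (SN L N)) := by
    rw [Ideal.map_pow, ← h1]
    exact hd
  rw [IsLocalization.mem_map_algebraMap_iff (Submonoid.powers (N : 𝓞 L))] at hd'
  clear hd
  obtain ⟨⟨⟨x, hx⟩, ⟨_, n, rfl⟩⟩, h⟩ := hd'
  have h2 : d * (N : 𝓞 L) ^ n = x := by
    have h3 : (((d * (N : 𝓞 L) ^ n : 𝓞 L)) : L) = (x : L) := by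
      have h4 := congrArg Subtype.val h
      push_cast
      have h5 : ((algebraMap (𝓞 L) (SN L N)) d : L) *
          ((algebraMap (𝓞 L) (SN L N)) ((N : 𝓞 L) ^ n) : L) = (x : L) := h4
      have h6 : ((algebraMap (𝓞 L) (SN L N)) ((N : 𝓞 L) ^ n) : L) = (N : L) ^ n := by
        change (((N : 𝓞 L) ^ n : 𝓞 L) : L) = _
        push_cast
        rfl
      rw [h6] at h5
      exact h5
    exact RingOfIntegers.coe_injective h3
  obtain ⟨b, hb⟩ := dn_inv hN h𝔓 h0 n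
  have h3 : ((N : 𝓞 L) ^ n * b - 1) ^ 2 ∈ dn 𝔓 ^ 2 := Ideal.pow_mem_pow hb 2
  have h4 : d = d * ((N : 𝓞 L) ^ n * b - 1) ^ 2 +
      (d * (N : 𝓞 L) ^ n) * (2 * b - (N : 𝓞 L) ^ n * b ^ 2) := by ring
  rw [h4, h2]
  exact Ideal.add_mem _ (Ideal.mul_mem_left _ _ h3) (Ideal.mul_mem_right _ _ hx)

end

end Pool.Agent.Zk15
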