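import Pool.Agent.Zk15.Lz1

/-!
# The Galois action on the rings of `N`-integers
-/

set_option autoImplicit false
set_option linter.unusedVariables false
set_option linter.unusedSectionVars false

open NumberField

namespace Pool.Agent.Zk15

open Pool.Agent.Y223.G

section

variable {E M K : Type} [Field E] [NumberField E] [Field M] [NumberField M] [Algebra E M]
  [Field K] [Algebra M K] [Algebra E K] [IsScalarTower E M K] {N : ℕ}

lemma SN_map {x : E} (hx : x ∈ SN E N) : algebraMap E M x ∈ SN M N := by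
  obtain ⟨n, a, ha⟩ := hx
  refine ⟨n, algebraMap (𝓞 E) (𝓞 M) a, ?_⟩
  have h1 := congrArg (algebraMap E M) ha
  rw [map_mul, map_pow, map_natCast] at h1
  rw [h1]
  rfl

/-- The extension of the rings of `N`-integers. -/
noncomputable def SNmap (E M : Type) [Field E] [NumberField E] [Field M] [NumberField M]
    [Algebra E M] (N : ℕ) : SN E N →+* SN M N :=
  ((algebraMap E M).comp (SN E N).subtype).codRestrict (SN M N).toSubring fun x => SN_map x.2

noncomputable instance : Algebra (SN E N) (SN M N) := (SNmap E M N).toAlgebra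

lemma SNmap_coe (c : SN E N) : ((algebraMap (SN E N) (SN M N) c : SN M N) : M) =
    algebraMap E M (c : E) := rfl

instance : IsScalarTower (SN E N) (SN M N) K := by
  refine IsScalarTower.of_algebraMap_eq fun c => ?_
  change algebraMap E K (c : E) = algebraMap M K (algebraMap E M (c : E))
  rw [← IsScalarTower.algebraMap_apply]

instance : IsScalarTower (SN E N) E K := IsScalarTower.of_algebraMap_eq fun c => rfl

lemma SN_act (g : M ≃ₐ[E] M) {x : M} (hx : x ∈ SN M N) : g x ∈ SN M N := by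
  obtain ⟨n, a, ha⟩ := hx
  refine ⟨n, TT E M g a, ?_⟩
  have h1 := congrArg g ha
  rw [map_mul, map_pow, map_natCast] at h1
  exact h1

/-- The action of the Galois group. -/
noncomputable def TN (E M : Type) [Field E] [NumberField E] [Field M] [NumberField M]
    [Algebra E M] (N : ℕ) : (M ≃ₐ[E] M) →* (SN M N ≃ₐ[SN E N] SN M N) where
  toFun g :=
    { toFun := fun x => ⟨g x, SN_act g x.2⟩
      invFun := fun x => ⟨g⁻¹ x, SN_act g⁻¹ x.2⟩
      left_inv := fun x => Subtype.ext (by
        change (g⁻¹ * g) (x : M) = x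
        rw [inv_mul_cancel]
        rfl)
      right_inv := fun x => Subtype.ext (by
        change (g * g⁻¹) (x : M) = x
        rw [mul_inv_cancel]
        rfl)
      map_mul' := fun x y => Subtype.ext (map_mul g _ _)
      map_add' := fun x y => Subtype.ext (map_add g _ _)
      commutes' := fun c => Subtype.ext (g.commutes _) }
  map_one' := by
    ext x
    rfl
  map_mul' g h := by
    ext x
    rfl

lemma TN_coe (g : M ≃ₐ[E] M) (x : SN M N) : ((TN E M N g x : SN M N) : M) = g x := rfl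

lemma TN_int (g : M ≃ₐ[E] M) (o : 𝓞 M) : TN E M N g (algebraMap (𝓞 M) (SN M N) o) =
    algebraMap (𝓞 M) (SN M N) (TT E M g o) := rfl

/-- Restriction of scalars for an action. -/
noncomputable def RN (E K : Type) [Field E] [NumberField E] [Field K] [Algebra E K] {G : Type}
    [Group G] (N : ℕ) (ρ : G →* (K ≃ₐ[E] K)) : G →* (K ≃ₐ[SN E N] K) where
  toFun g := (ρ g).restrictScalars (SN E N)
  map_one' := by
    rw [map_one]
    rfl
  map_mul' g h := by
    rw [map_mul]
    rfl

theorem SN_fin (hN : N ≠ 0) : Module.Finite (SN E N) (SN M N) := by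
  classical
  have h1 : Module.Finite ℤ (𝓞 M) := inferInstance
  have h2 : Module.Finite (𝓞 E) (𝓞 M) := Module.Finite.of_restrictScalars_finite ℤ (𝓞 E) (𝓞 M)
  obtain ⟨s, hs⟩ := h2.fg_top
  have hNL : (N : E) ≠ 0 := Nat.cast_ne_zero.2 hN
  have hNM : (N : M) ≠ 0 := Nat.cast_ne_zero.2 hN
  refine ⟨⟨s.image (algebraMap (𝓞 M) (SN M N)), ?_⟩⟩
  rw [eq_top_iff]
  have key : ∀ a : 𝓞 M, algebraMap (𝓞 M) (SN M N) a ∈
      Submodule.span (SN E N) ((s.image (algebraMap (𝓞 M) (SN M N)) : Finset (SN M N)) :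
        Set (SN M N)) := by
    intro a
    have ha : a ∈ Submodule.span (𝓞 E) (s : Set (𝓞 M)) := by rw [hs]; trivial
    induction ha using Submodule.span_induction with
    | mem x hx => exact Submodule.subset_span (by
        rw [Finset.coe_image]
        exact ⟨x, hx, rfl⟩)
    | zero => rw [map_zero]; exact Submodule.zero_mem _
    | add x y _ _ hx hy => rw [map_add]; exact Submodule.add_mem _ hx hy
    | smul c x _ hx =>
      have h3 : algebraMap (𝓞 M) (SN M N) (c • x) =
          (algebraMap (𝓞 E) (SN E N) c) • algebraMap (𝓞 M) (SN M N) x := by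
        rw [Algebra.smul_def, Algebra.smul_def, map_mul]
        rfl
      rw [h3]
      exact Submodule.smul_mem _ _ hx
  rintro ⟨x, n, a, h⟩ -
  have hinv : ((N : E) ^ n)⁻¹ ∈ SN E N := ⟨n, 1, by
    rw [mul_inv_cancel₀ (pow_ne_zero _ hNL)]
    exact (map_one (algebraMap (𝓞 E) E)).symm⟩
  have h3 : (⟨x, n, a, h⟩ : SN M N) = (⟨((N : E) ^ n)⁻¹, hinv⟩ : SN E N) •
      algebraMap (𝓞 M) (SN M N) a := by
    apply Subtype.ext
    rw [Algebra.smul_def]
    change x = algebraMap E M (((N : E) ^ n)⁻¹) * (a : M)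
    rw [← h, map_inv₀, map_pow, map_natCast, inv_mul_cancel_left₀ (pow_ne_zero _ hNM)]
  rw [h3]
  exact Submodule.smul_mem _ _ (key a)

/-- **The general hypotheses for rings of `N`-integers.** -/
theorem ge_N [IsGalois E M] (hT : S_TAMC) (hN : N ≠ 0) [IsDedekindDomain (SN M N)]
    (ρ : (M ≃ₐ[E] M) →* (K ≃ₐ[E] K))
    (hρ : ∀ g x, ρ g (algebraMap M K x) = algebraMap M K (g x))
    (hin : ∀ 𝔓 : Ideal (𝓞 M), 𝔓.IsMaximal → (N : 𝓞 M) ∉ 𝔓 → ∀ p : ℕ, p.Prime → (p : 𝓞 M) ∈ 𝔓 →
      ¬ p ^ 2 ∣ Nat.card (inert E 𝔓)) :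
    GE (SN E N) (SN M N) K (M ≃ₐ[E] M) (RN E K N ρ) (TN E M N) := by
  have hNM : (N : M) ≠ 0 := Nat.cast_ne_zero.2 hN
  have hNE : (N : E) ≠ 0 := Nat.cast_ne_zero.2 hN
  refine
  { fin := SN_fin hN
    inj := ?_
    injk := ?_
    com := fun g o => hρ g (o : M)
    fai := ?_
    fix := ?_
    cg := ?_
    resf := fun 𝔓 h𝔓 h0 => dn_resf hN h𝔓 h0
    inr := ?_ }
  · intro x y h
    exact Subtype.ext ((algebraMap M K).injective h)
  · intro x y h
    exact Subtype.ext ((algebraMap E K).injective h)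
  · intro g hg
    apply TT_faithful g
    intro o
    have h1 := congrArg Subtype.val (hg (algebraMap (𝓞 M) (SN M N) o))
    apply RingOfIntegers.coe_injective
    exact h1
  · intro o ho
    have h1 : (o : M) ∈ (⊥ : IntermediateField E M) := by
      rw [IsGalois.mem_bot_iff_fixed]
      intro g
      exact congrArg Subtype.val (ho g)
    obtain ⟨e, he⟩ := IntermediateField.mem_bot.1 h1
    obtain ⟨n, a, ha⟩ := o.2
    have hint : IsIntegral ℤ ((N : E) ^ n * e) := by
      have h2 : algebraMap E M ((N : E) ^ n * e) = (a : M) := by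
        rw [map_mul, map_pow, map_natCast, he, ha]
      have h1 : IsIntegral ℤ (algebraMap E M ((N : E) ^ n * e)) := by
        rw [h2]
        exact RingOfIntegers.isIntegral_coe a
      exact (isIntegral_algHom_iff ((algebraMap E M).toIntAlgHom) (algebraMap E M).injective).1 h1
    refine ⟨⟨e, n, ⟨_, hint⟩, rfl⟩, ?_⟩
    exact Subtype.ext he
  · have : CharZero K := charZero_of_injective_algebraMap (algebraMap E K).injective
    exact_mod_cast Nat.card_pos.ne'
  · intro 𝔓 h𝔓 h0
    have h𝔓p := h𝔓.isPrime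
    have hm := dn_max hN h𝔓 h0
    have hne := dn_ne hN h0
    have hmem : ∀ g : M ≃ₐ[E] M, (∀ o, TN E M N g o - o ∈ 𝔓) →
        (∀ o ∈ 𝔓, TN E M N g o - o ∈ 𝔓 ^ 2) → g ∈ winert E (dn 𝔓) := by
      intro g hg hg2
      refine ⟨fun o => ?_, fun o ho => ?_⟩
      · exact hg (algebraMap (𝓞 M) (SN M N) o)
      · exact dn_sq hN h𝔓 h0 (hg2 (algebraMap (𝓞 M) (SN M N) o) ho)
    obtain ⟨p, hp, hp𝔓⟩ := exists_resChar (dn 𝔓) hm hne
    rcases winert_card hT (dn 𝔓) hm hne hp hp𝔓 (hin _ hm (dn_N hN 𝔓) p hp hp𝔓) with h1 | h1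
    · refine ⟨p, 1, hp, one_pow _, ?_⟩
      intro g hg hg2
      have h2 : winert E (dn 𝔓) = ⊥ := Subgroup.card_eq_one.1 h1
      have h3 : g ∈ winert E (dn 𝔓) := hmem g hg hg2
      rw [h2, Subgroup.mem_bot] at h3
      rw [h3]
      exact Subgroup.one_mem _
    · have hnt : Nontrivial (winert E (dn 𝔓)) := by
        rw [← Finite.one_lt_card_iff_nontrivial, h1]
        exact hp.one_lt
      obtain ⟨τ, hτ⟩ := exists_ne (1 : winert E (dn 𝔓))
      refine ⟨p, τ, hp, ?_, ?_⟩
      · have h2 : τ ^ Nat.card (winert E (dn 𝔓)) = 1 := pow_card_eq_one'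
        rw [h1] at h2
        exact congrArg Subtype.val h2
      · intro g hg hg2
        have h2 : Nat.card (Subgroup.zpowers τ) = Nat.card (winert E (dn 𝔓)) := by
          rcases (Nat.dvd_prime hp).1 (h1 ▸ Subgroup.card_subgroup_dvd_card
            (Subgroup.zpowers τ)) with h2 | h2
          · exfalso
            apply hτ
            exact Subgroup.zpowers_eq_bot.1 (Subgroup.card_eq_one.1 h2)
          · rw [h2, h1]
        have h3 : Subgroup.zpowers τ = ⊤ := Subgroup.eq_top_of_card_eq _ h2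
        have h4 : (⟨g, hmem g hg hg2⟩ : winert E (dn 𝔓)) ∈ Subgroup.zpowers τ := by
          rw [h3]
          trivial
        obtain ⟨n, hn⟩ := h4
        exact ⟨n, congrArg Subtype.val hn⟩

end

end Pool.Agent.Zk15
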