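import Pool.Agent.Zk15.Lz2
import Pool.Agent.Zk15.Fin
import Pool.Agent.H918R2.Quad.Final

/-!
# Models which are regular away from `N`
-/

set_option autoImplicit false
set_option linter.unusedVariables false
set_option linter.unusedSectionVars false

open AlgebraicGeometry CategoryTheory CategoryTheory.Limits MvPolynomial NumberField

namespace Pool.Agent.Zk15

open Pool.Agent.Y223.G Pool.Agent.R383.TM

section aux

open HomogeneousLocalization Pool.Agent.H968R2.Quad

/-! The next lemmas are copied from the starting file `Pool.Agent.N98.RM.SchZ` (and the last one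
from `Pool.Agent.N808.PR.Cls`). -/

lemma regular_of_equiv' {R S : Type} [CommRing R] [CommRing S] (e : R ≃+* S) (N : ℕ)
    (h : ∀ (q : Ideal R) [q.IsPrime], ((N : ℕ) : R) ∉ q →
      IsRegularLocalRing (Localization.AtPrime q)) (p : Ideal S) [p.IsPrime]
    (hp : ((N : ℕ) : S) ∉ p) : IsRegularLocalRing (Localization.AtPrime p) := by
  have := h (p.comap e) (fun h3 => hp (by
    have h4 : e (N : ℕ) ∈ p := h3
    rwa [map_natCast] at h4))
  exact IsRegularLocalRing.of_ringEquiv <| IsLocalization.ringEquivOfRingEquiv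
    (Localization.AtPrime (p.comap e)) (Localization.AtPrime p) e (e.map_primeCompl_comap_eq p)

lemma notMem_of_isUnit (R : CommRingCat.{0}) (x : PrimeSpectrum R) (N : ℕ)
    (h : IsUnit ((N : ℕ) : (Spec R).presheaf.stalk x)) : ((N : ℕ) : R) ∉ x.asIdeal := by
  let k : Algebra R ((Spec R).presheaf.stalk x) := StructureSheaf.stalkAlgebra R x
  have h1 : IsLocalization.AtPrime ((Spec R).presheaf.stalk x) x.asIdeal :=
    StructureSheaf.IsLocalization.to_stalk R x
  have h4 : IsUnit (algebraMap R ((Spec R).presheaf.stalk x) ((N : ℕ) : R)) := by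
    rwa [map_natCast]
  exact (IsLocalization.AtPrime.isUnit_to_map_iff ((Spec R).presheaf.stalk x) x.asIdeal
      ((N : ℕ) : R)).1 h4

/-- Regularity of the stalks where `N` is invertible. -/
lemma stalk_regular' {O : Type} [CommRing O] {F : Type} [Field F] [Algebra O F]
    (M : Submodule O F) (N : ℕ)
    (hreg : ∀ f ∈ M, f ≠ 0 →
      ∀ (q : Ideal (Algebra.adjoin O {y : F | ∃ m ∈ M, y = m / f})) [q.IsPrime],
      ((N : ℕ) : Algebra.adjoin O {y : F | ∃ m ∈ M, y = m / f}) ∉ q →
      IsRegularLocalRing (Localization.AtPrime q)) (y : model M)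
    (hy : IsUnit ((N : ℕ) : (model M).presheaf.stalk y)) :
    IsRegularLocalRing ((model M).presheaf.stalk y) := by
  obtain ⟨a, ha, ha0, z, rfl⟩ := exists_chart M y
  let z' : PrimeSpectrum (Away (mPiece M) (tElt M a ha)) := z
  have e := (asIso ((modelChart M a ha).stalkMap z)).commRingCatIsoToRingEquiv
  have hN : ((N : ℕ) : Away (mPiece M) (tElt M a ha)) ∉ z'.asIdeal := by
    refine notMem_of_isUnit (CommRingCat.of (Away (mPiece M) (tElt M a ha))) z' N ?_
    have h3 := hy.map e
    rwa [map_natCast] at h3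
  have h1 : IsRegularLocalRing (Localization.AtPrime z'.asIdeal) :=
    regular_of_equiv' (chartEquiv M a ha ha0).symm N (fun q _ hq => hreg a ha ha0 q hq)
      z'.asIdeal hN
  have h2 := regular_stalk_spec (CommRingCat.of (Away (mPiece M) (tElt M a ha))) z' h1
  exact IsRegularLocalRing.of_ringEquiv e.symm

lemma isUnit_of_not_dvd (R : Type) [CommRing R] [IsLocalRing R] (n : ℕ)
    (h : ¬ ringChar (IsLocalRing.ResidueField R) ∣ n) : IsUnit ((n : ℕ) : R) := by
  by_contra hcon
  have h1 : ((n : ℕ) : R) ∈ IsLocalRing.maximalIdeal R := hcon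
  rw [← IsLocalRing.residue_eq_zero_iff, map_natCast, ringChar.spec] at h1
  exact h h1

end aux

/-- The quotients have good modules. -/
theorem module_gen (hLI : S_LINW) (hCH : S_CHW) (hRWB : S_RWB) (hREGL : S_REGL)
    {k O M F K G : Type} [CommRing k] [IsDomain k] [IsNoetherianRing k]
    [CommRing O] [IsDomain O] [IsDedekindDomain O] [Field M] [Field F] [Field K] [Group G]
    [Finite G] [Algebra k O] [Algebra O K] [Algebra k K] [IsScalarTower k O K] [Algebra M K]
    [Algebra k F] (ι : F →ₐ[k] K) (ρ : G →* (K ≃ₐ[k] K)) (T : G →* (O ≃ₐ[k] O)) {m : ℕ}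
    {z : Fin (m + 1) → K} (hG : GHL k O M F K G Unit ι ρ T m (fun _ => z)) {e : Ideal O → ℕ}
    {w : Ideal O → Fin (m + 1) → ℕ} (hE : WD k O K G ρ T z e w)
    (M₀ : Submodule k F) (hM₀ : M₀.FG) (P : Prop)
    (hseg : P → Submodule.span M (ι '' (M₀ : Set F)) = Submodule.span M (Set.range z)) :
    ∃ M' : Submodule k F, M'.FG ∧ (∃ f ∈ M', f ≠ 0) ∧
      (∀ f ∈ M', f ≠ 0 → ∀ y : F, ∃ b ∈ Pool.Agent.H918R2.Quad.chart k M' f,
        ∃ c ∈ Pool.Agent.H918R2.Quad.chart k M' f, c ≠ 0 ∧ y = b / c) ∧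
      (∀ f ∈ M', f ≠ 0 → ∀ (q : Ideal (Pool.Agent.H918R2.Quad.chart k M' f)) [q.IsPrime],
        IsRegularLocalRing (Localization.AtPrime q)) ∧
      (P → ∃ n : ℕ, 1 ≤ n ∧ (∀ y ∈ M', y ∈ sat (M₀ ^ n)) ∧
        ∀ y : F, y ∈ M₀ ^ n → ∃ s : k, s ≠ 0 ∧ s • y ∈ M') := by
  refine hLI k O M F K G Unit ι ρ T m (fun _ => z) hG ?_ M₀ hM₀ P ?_
  · intro Y₂ K₂ _ _ _ _ ι₂ εY ε ρ₂ hext s hs Tb N _ 𝔔 p l τ π hs0 hloc hw
    exact w_CH hCH hRWB hREGL k O M F Y₂ K K₂ G _ ι₂ εY ε _ ρ₂ hext _ m z hG
      e w hE s hs Tb N 𝔔 p l τ π hs0 hloc hw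
  · intro h
    rw [hseg h]
    congr 1
    ext y
    constructor
    · rintro ⟨j, h⟩
      refine ⟨fun _ => j, ?_⟩
      simpa using h
    · rintro ⟨J, h⟩
      refine ⟨J (), ?_⟩
      simpa using h

/-- Localization of a subring at an element and regularity. -/
theorem regular_away {F : Type} [Field F] {A B : Subring F} (hAB : A ≤ B) {N : ℕ}
    (hN0 : (N : F) ≠ 0) (hB : ∀ b ∈ B, ∃ n : ℕ, (N : F) ^ n * b ∈ A) (hinv : ((N : F))⁻¹ ∈ B)
    (hreg : ∀ (q : Ideal B) [q.IsPrime], IsRegularLocalRing (Localization.AtPrime q))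
    (q : Ideal A) [hq : q.IsPrime] (hNq : ((N : ℕ) : A) ∉ q) :
    IsRegularLocalRing (Localization.AtPrime q) := by
  let _ : Algebra A B := (Subring.inclusion hAB).toAlgebra
  have hco : ∀ a : A, ((algebraMap A B a : B) : F) = (a : F) := fun a => rfl
  have hloc : IsLocalization (Submonoid.powers ((N : ℕ) : A)) B := by
    constructor
    constructor
    · rintro ⟨_, n, rfl⟩
      refine IsUnit.of_mul_eq_one (⟨((N : F))⁻¹, hinv⟩ ^ n : B) ?_
      apply Subtype.ext
      rw [map_pow, ← mul_pow, Subring.coe_pow]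
      have h1 : ((algebraMap A B ((N : ℕ) : A) * (⟨((N : F))⁻¹, hinv⟩ : B) : B) : F) = 1 := by
        rw [Subring.coe_mul, hco]
        push_cast
        exact mul_inv_cancel₀ hN0
      rw [h1, one_pow]
      rfl
    · rintro ⟨b, hb⟩
      obtain ⟨n, hn⟩ := hB b hb
      refine ⟨(⟨_, hn⟩, ⟨((N : ℕ) : A) ^ n, n, rfl⟩), ?_⟩
      apply Subtype.ext
      rw [Subring.coe_mul, hco, hco]
      push_cast
      exact mul_comm _ _
    · intro x y h
      refine ⟨1, ?_⟩
      have h1 : ((algebraMap A B x : B) : F) = (algebraMap A B y : B) := congrArg Subtype.val h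
      rw [hco, hco] at h1
      rw [Subtype.ext h1]
  have hdisj : Disjoint (Submonoid.powers ((N : ℕ) : A) : Set A) q := by
    rw [Set.disjoint_left]
    rintro _ ⟨n, rfl⟩ h
    exact hNq (hq.mem_of_pow_mem n h)
  let q' : Ideal B := q.map (algebraMap A B)
  have hq' : q'.IsPrime := IsLocalization.isPrime_of_isPrime_disjoint
    (Submonoid.powers ((N : ℕ) : A)) B q hq hdisj
  have hc : q'.comap (algebraMap A B) = q :=
    IsLocalization.under_map_of_isPrime_disjoint (Submonoid.powers ((N : ℕ) : A)) B hq hdisj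
  have h1 := hreg q'
  have : IsScalarTower A B (Localization.AtPrime q') := inferInstance
  have h2 : IsLocalization.AtPrime (Localization.AtPrime q') (q'.comap (algebraMap A B)) :=
    IsLocalization.isLocalization_isLocalization_atPrime_isLocalization
      (Submonoid.powers ((N : ℕ) : A)) (Localization.AtPrime q') q'
  have h3 : IsLocalization.AtPrime (Localization.AtPrime q') q := by
    unfold IsLocalization.AtPrime at h2 ⊢
    have h4 : (q'.comap (algebraMap A B)).primeCompl = q.primeCompl := by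
      congr 1
    rw [← h4]
    exact h2
  exact IsRegularLocalRing.of_ringEquiv
    (IsLocalization.algEquiv q.primeCompl (Localization.AtPrime q')
      (Localization.AtPrime q)).toRingEquiv

/-- Proper models over the integers from modules over the rings of `N`-integers. -/
theorem model_N {E F : Type} [Field E] [NumberField E] [Field F] [Algebra E F] {N : ℕ}
    (hN : N ≠ 0) (M' : Submodule (SN E N) F) (hM' : M'.FG) (h0 : ∃ f ∈ M', f ≠ 0)
    (hgen : ∀ f ∈ M', f ≠ 0 → ∀ y : F, ∃ b ∈ Pool.Agent.H918R2.Quad.chart (SN E N) M' f,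
        ∃ c ∈ Pool.Agent.H918R2.Quad.chart (SN E N) M' f, c ≠ 0 ∧ y = b / c)
    (hreg : ∀ f ∈ M', f ≠ 0 → ∀ (q : Ideal (Pool.Agent.H918R2.Quad.chart (SN E N) M' f))
      [q.IsPrime], IsRegularLocalRing (Localization.AtPrime q)) :
    ∃ (X' : Scheme.{0}) (_ : IsIntegral X') (g : X' ⟶ Spec (CommRingCat.of ℤ)),
      IsProper g ∧
      (∀ x : X', ¬ ringChar (IsLocalRing.ResidueField (X'.presheaf.stalk x)) ∣ N →
        IsRegularLocalRing (X'.presheaf.stalk x)) ∧
      Nonempty (X'.functionField ≃+* F) := by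
  classical
  have hNE : (N : E) ≠ 0 := Nat.cast_ne_zero.2 hN
  have hNF : (N : F) ≠ 0 := by
    have := (map_ne_zero (algebraMap E F)).2 hNE
    rwa [map_natCast] at this
  let alg : Algebra (𝓞 E) F := ((algebraMap E F).comp (algebraMap (𝓞 E) E)).toAlgebra
  have hinj : Function.Injective (algebraMap (𝓞 E) F) :=
    (algebraMap E F).injective.comp RingOfIntegers.coe_injective
  have hOF : ∀ a : 𝓞 E, algebraMap (𝓞 E) F a = algebraMap E F (a : E) := fun a => rfl
  obtain ⟨S, hS⟩ := hM'
  let P : Submodule (𝓞 E) F := Submodule.span (𝓞 E) (S : Set F)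
  have hPM : ∀ y ∈ P, y ∈ M' := by
    intro y hy
    induction hy using Submodule.span_induction with
    | mem x hx => rw [← hS]; exact Submodule.subset_span hx
    | zero => exact Submodule.zero_mem _
    | add x y _ _ hx hy => exact Submodule.add_mem _ hx hy
    | smul c x _ hx =>
      have h1 : c • x = (algebraMap (𝓞 E) (SN E N) c) • x := by
        rw [Algebra.smul_def, Algebra.smul_def]
        rfl
      rw [h1]
      exact Submodule.smul_mem _ _ hx
  have hMP : ∀ y ∈ M', ∃ n : ℕ, (N : F) ^ n * y ∈ P := by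
    intro y hy
    rw [← hS] at hy
    induction hy using Submodule.span_induction with
    | mem x hx => exact ⟨0, by rw [pow_zero, one_mul]; exact Submodule.subset_span hx⟩
    | zero => exact ⟨0, by rw [mul_zero]; exact Submodule.zero_mem _⟩
    | add x y _ _ hx hy =>
      obtain ⟨n, hn⟩ := hx
      obtain ⟨m, hm⟩ := hy
      refine ⟨n + m, ?_⟩
      have h1 : (N : F) ^ (n + m) * (x + y) =
          ((N : 𝓞 E) ^ m) • ((N : F) ^ n * x) + ((N : 𝓞 E) ^ n) • ((N : F) ^ m * y) := by
        rw [Algebra.smul_def, Algebra.smul_def, map_pow, map_pow, map_natCast]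
        ring
      rw [h1]
      exact Submodule.add_mem _ (Submodule.smul_mem _ _ hn) (Submodule.smul_mem _ _ hm)
    | smul c x _ hx =>
      obtain ⟨n, hn⟩ := hx
      obtain ⟨m, a, ha⟩ := c.2
      refine ⟨n + m, ?_⟩
      have h1 : (N : F) ^ (n + m) * (c • x) = a • ((N : F) ^ n * x) := by
        rw [Algebra.smul_def, Algebra.smul_def, hOF]
        have h2 : algebraMap (SN E N) F c = algebraMap E F (c : E) := rfl
        have h3 : algebraMap E F (a : E) = (N : F) ^ m * algebraMap E F (c : E) := by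
          have h4 := congrArg (algebraMap E F) ha
          rw [map_mul, map_pow, map_natCast] at h4
          exact h4.symm
        rw [h2, h3]
        ring
      rw [h1]
      exact Submodule.smul_mem _ _ hn
  obtain ⟨f0, hf0, hf00⟩ := h0
  obtain ⟨n0, hn0⟩ := hMP f0 hf0
  have hg0 : (N : F) ^ n0 * f0 ≠ 0 := mul_ne_zero (pow_ne_zero _ hNF) hf00
  -- the charts
  have hAB : ∀ f, (Pool.Agent.H918R2.Quad.chart (𝓞 E) P f).toSubring ≤
      (Pool.Agent.H918R2.Quad.chart (SN E N) M' f).toSubring := by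
    intro f x hx
    have hx' : x ∈ Algebra.adjoin (𝓞 E) {y : F | ∃ m ∈ P, y = m / f} := hx
    change x ∈ Algebra.adjoin (SN E N) {y : F | ∃ m ∈ M', y = m / f}
    clear hx
    induction hx' using Algebra.adjoin_induction with
    | mem x hx =>
      obtain ⟨m, hm, rfl⟩ := hx
      exact Algebra.subset_adjoin ⟨m, hPM m hm, rfl⟩
    | algebraMap r => exact Subalgebra.algebraMap_mem _ (algebraMap (𝓞 E) (SN E N) r)
    | add x y _ _ h1 h2 => exact add_mem h1 h2
    | mul x y _ _ h1 h2 => exact mul_mem h1 h2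
  have hBA : ∀ f, ∀ b ∈ (Pool.Agent.H918R2.Quad.chart (SN E N) M' f).toSubring, ∃ n : ℕ,
      (N : F) ^ n * b ∈ (Pool.Agent.H918R2.Quad.chart (𝓞 E) P f).toSubring := by
    intro f b hb
    have hb' : b ∈ Algebra.adjoin (SN E N) {y : F | ∃ m ∈ M', y = m / f} := hb
    clear hb
    have hNC : ∀ n : ℕ, (N : F) ^ n ∈ (Pool.Agent.H918R2.Quad.chart (𝓞 E) P f).toSubring :=
      fun n => pow_mem (natCast_mem _ _) n
    induction hb' using Algebra.adjoin_induction with
    | mem x hx =>
      obtain ⟨m, hm, rfl⟩ := hx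
      obtain ⟨n, hn⟩ := hMP m hm
      exact ⟨n, Algebra.subset_adjoin ⟨_, hn, by rw [mul_div_assoc]⟩⟩
    | algebraMap r =>
      obtain ⟨m, a, ha⟩ := r.2
      refine ⟨m, ?_⟩
      have h4 := congrArg (algebraMap E F) ha
      rw [map_mul, map_pow, map_natCast] at h4
      have h5 : (N : F) ^ m * algebraMap (SN E N) F r = algebraMap (𝓞 E) F a := h4
      rw [h5]
      exact Subalgebra.algebraMap_mem _ a
    | add x y _ _ hx hy =>
      obtain ⟨n, hn⟩ := hx
      obtain ⟨m, hm⟩ := hy
      refine ⟨n + m, ?_⟩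
      have e : (N : F) ^ (n + m) * (x + y) =
          ((N : F) ^ n * x) * (N : F) ^ m + ((N : F) ^ m * y) * (N : F) ^ n := by ring
      rw [e]
      exact add_mem (mul_mem hn (hNC m)) (mul_mem hm (hNC n))
    | mul x y _ _ hx hy =>
      obtain ⟨n, hn⟩ := hx
      obtain ⟨m, hm⟩ := hy
      refine ⟨n + m, ?_⟩
      have e : (N : F) ^ (n + m) * (x * y) = ((N : F) ^ n * x) * ((N : F) ^ m * y) := by ring
      rw [e]
      exact mul_mem hn hm
  have hinv : ∀ f, ((N : F))⁻¹ ∈ (Pool.Agent.H918R2.Quad.chart (SN E N) M' f).toSubring := by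
    intro f
    have h1 : ((N : E))⁻¹ ∈ SN E N := ⟨1, 1, by
      rw [pow_one, mul_inv_cancel₀ hNE]
      exact (map_one (algebraMap (𝓞 E) E)).symm⟩
    have h2 : ((N : F))⁻¹ = algebraMap (SN E N) F ⟨_, h1⟩ := by
      change _ = algebraMap E F ((N : E))⁻¹
      rw [map_inv₀, map_natCast]
    rw [h2]
    exact Subalgebra.algebraMap_mem _ _
  have hint : IsIntegral (Pool.Agent.H968R2.Quad.model P) :=
    Pool.Agent.H968R2.Quad.model_integral P _ hn0 hg0
  refine ⟨Pool.Agent.H968R2.Quad.model P, hint,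
    Pool.Agent.H968R2.Quad.modelMap P ≫ Spec.map (CommRingCat.ofHom (algebraMap ℤ (𝓞 E))), ?_,
    ?_, Pool.Agent.H968R2.Quad.functionField_equiv P _ hn0 hg0 ?_⟩
  · have h1 : IsProper (Pool.Agent.H968R2.Quad.modelMap P) :=
      Pool.Agent.H968R2.Quad.modelMap_isProper P hinj
        (Submodule.fg_span (Finset.finite_toSet S))
    have h2 : IsFinite (Spec.map (CommRingCat.ofHom (algebraMap ℤ (𝓞 E)))) := by
      rw [IsFinite.SpecMap_iff]
      exact RingHom.finite_algebraMap.2 inferInstance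
    have h3 : IsProper (Spec.map (CommRingCat.ofHom (algebraMap ℤ (𝓞 E)))) := inferInstance
    exact MorphismProperty.comp_mem @IsProper _ _ h1 h3
  · intro x hx
    refine stalk_regular' P N ?_ x
      (isUnit_of_not_dvd _ N hx)
    intro f hf hf0 q hq hNq
    exact regular_away (hAB f) hNF (hBA f) (hinv f) (fun q' _ => hreg f (hPM f hf) hf0 q')
      (q : Ideal (Pool.Agent.H918R2.Quad.chart (𝓞 E) P f).toSubring) (hq := hq) hNq
  · intro y
    obtain ⟨b, hb, c, hc, hc0, rfl⟩ := hgen _ (hPM _ hn0) hg0 y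
    obtain ⟨n, hn⟩ := hBA _ b hb
    obtain ⟨m, hm⟩ := hBA _ c hc
    have hNC : ∀ n : ℕ, (N : F) ^ n ∈ (Pool.Agent.H918R2.Quad.chart (𝓞 E) P
      ((N : F) ^ n0 * f0)).toSubring := fun n => pow_mem (natCast_mem _ _) n
    refine ⟨((N : F) ^ n * b) * (N : F) ^ m, mul_mem hn (hNC m),
      ((N : F) ^ m * c) * (N : F) ^ n, mul_mem hm (hNC n),
      mul_ne_zero (mul_ne_zero (pow_ne_zero _ hNF) hc0) (pow_ne_zero _ hNF), ?_⟩
    have h1 := pow_ne_zero n hNF
    have h2 := pow_ne_zero m hNF
    field_simp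

end Pool.Agent.Zk15
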