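import Pool.Agent.Zk15.Lz3
import Pool.Agent.Zk15.Fa7

/-!
# All tori
-/

set_option autoImplicit false
set_option linter.unusedVariables false
set_option linter.unusedSectionVars false

open AlgebraicGeometry CategoryTheory CategoryTheory.Limits MvPolynomial NumberField

namespace Pool.Agent.Zk15

open Pool.Agent.Y223.G Pool.Agent.R383.TM

section

variable {E M F K : Type} [Field E] [NumberField E] [Field M] [NumberField M] [Algebra E M]
  [Field F] [Algebra E F] [Field K] [Algebra M K] [Algebra E K] [IsScalarTower E M K]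
  [Algebra F K] [IsScalarTower E F K]

instance (N : ℕ) : IsScalarTower (SN E N) F K := IsScalarTower.of_algebraMap_eq fun c => by
  change algebraMap E K (c : E) = algebraMap F K (algebraMap E F (c : E))
  rw [← IsScalarTower.algebraMap_apply]

/-- The field generated by the coordinates. -/
theorem adjoin_toric {n : ℕ} {P : Set (Fin n → ℤ)}
    {V : Set ((Fin n → ℤ) × Module.Basis (Fin n) ℤ (Fin n → ℤ))} (hSP : SP P V)
    (hPn : P.Nonempty) {x : Fin n → K} (hx0 : ∀ i, x i ≠ 0)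
    (hgen : IntermediateField.adjoin M (Set.range x) = ⊤) {N m : ℕ} {z : Fin (m + 1) → K}
    (hSPN : SP (MS N P) (MV N V)) (hz0 : ∀ j, z j ≠ 0) (hPz : ∀ μ ∈ MS N P, mono x μ ∈ Set.range z) :
    IntermediateField.adjoin M {y : K | ∃ (_ : Unit) (j : Fin (m + 1)), y = z j / z 0} = ⊤ := by
  rw [eq_top_iff, ← hgen, IntermediateField.adjoin_le_iff]
  set L := IntermediateField.adjoin M {y : K | ∃ (_ : Unit) (j : Fin (m + 1)), y = z j / z 0}
    with hL
  have hzz : ∀ j j', z j / z j' ∈ L := by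
    intro j j'
    have h1 : z j / z 0 ∈ L := IntermediateField.subset_adjoin _ _ ⟨(), j, rfl⟩
    have h2 : z j' / z 0 ∈ L := IntermediateField.subset_adjoin _ _ ⟨(), j', rfl⟩
    have h3 := L.div_mem h1 h2
    have e : z j / z 0 / (z j' / z 0) = z j / z j' := by
      have := hz0 0
      have := hz0 j'
      field_simp
    rwa [e] at h3
  have hXX : ∀ μ ∈ MS N P, ∀ μ' ∈ MS N P, mono x (μ - μ') ∈ L := by
    intro μ hμ μ' hμ'
    obtain ⟨j, hj⟩ := hPz μ hμ
    obtain ⟨j', hj'⟩ := hPz μ' hμ'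
    have h1 : mono x μ = mono x (μ - μ') * mono x μ' := by rw [← mono_add hx0, sub_add_cancel]
    have h2 := hzz j j'
    rw [hj, hj', h1, mul_div_cancel_right₀ _ (X_ne (mono_zero x) (mono_add hx0) _)] at h2
    exact h2
  -- a vertex
  obtain ⟨μ0, hμ0⟩ := hPn
  obtain ⟨s, hs0, hs, -⟩ := hSP.cvx μ0 hμ0
  obtain ⟨v, hv⟩ := Multiset.exists_mem_of_ne_zero hs0
  obtain ⟨b, hvb⟩ := hs v hv
  have hvN : ((N • v : Fin n → ℤ), b) ∈ MV N V := ⟨v, hvb, rfl⟩
  have hb : ∀ i, mono x (b i) ∈ L := by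
    intro i
    have h1 := hXX _ (hSPN.vb _ b hvN i) _ (hSPN.vm _ b hvN)
    rwa [add_sub_cancel_left] at h1
  have hall : ∀ μ : Fin n → ℤ, mono x μ ∈ L := by
    intro μ
    have h1 : μ ∈ GS b (Set.univ : Set (Fin n)) := fun i hi => absurd (Set.mem_univ i) hi
    refine GS_ind (fun μ => mono x μ ∈ L) ?_ ?_ hb ?_ h1
    · rw [mono_zero]; exact L.one_mem
    · intro a c ha hc
      rw [mono_add hx0]
      exact L.mul_mem ha hc
    · intro i _
      have h2 := L.inv_mem (hb i)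
      rwa [← eq_inv_of_mul_eq_one_right (X_neg (mono_zero x) (mono_add hx0) (b i))] at h2
  rintro _ ⟨i, rfl⟩
  rw [← mono_single x i]
  exact hall _

/-- The hypotheses for toric schemes over the ring of `N`-integers. -/
theorem ghl_toric {N' : ℕ} (hN' : N' ≠ 0) [IsDedekindDomain (SN M N')]
    {ρ : (M ≃ₐ[E] M) →* (K ≃ₐ[E] K)}
    (hGE : GE (SN E N') (SN M N') K (M ≃ₐ[E] M) (RN E K N' ρ) (TN E M N'))
    (hfix : ∀ x, (∀ g, ρ g x = x) ↔ ∃ y : F, algebraMap F K y = x)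
    {m : ℕ} {z : Fin (m + 1) → K} (hz0 : ∀ j, z j ≠ 0)
    (hadj : IntermediateField.adjoin M {y : K | ∃ (_ : Unit) (j : Fin (m + 1)), y = z j / z 0} = ⊤)
    (hst : ∀ g j, ∃ i, RN E K N' ρ g (z j) = z i)
    (hch : ∀ j, IsRegularRing (Algebra.adjoin (SN M N') (Set.range fun i => z i / z j))) :
    GHL (SN E N') (SN M N') M F K (M ≃ₐ[E] M) Unit
      (IsScalarTower.toAlgHom (SN E N') F K) (RN E K N' ρ) (TN E M N') m (fun _ => z) := by
  have hMN : ∀ o : SN M N', algebraMap (SN M N') K o = algebraMap M K (o : M) := fun _ => rfl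
  refine
  { toGE := hGE
    lo := fun o => ⟨(o : M), rfl⟩
    lf := ?_
    fixK := hfix
    z0 := fun _ => hz0
    lin := fun g _ j => ?_
    gen := hadj
    ld := ?_
    rg := ?_ }
  · intro x
    obtain ⟨a, b, hb, rfl⟩ := IsFractionRing.div_surjective (A := 𝓞 M) x
    have hb0 : b ≠ 0 := nonZeroDivisors.ne_zero hb
    have hb' : algebraMap (𝓞 M) M b ≠ 0 := RingOfIntegers.coe_ne_zero_iff.2 hb0
    refine ⟨algebraMap (𝓞 M) (SN M N') a, algebraMap (𝓞 M) (SN M N') b, ?_, ?_⟩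
    · intro h
      exact hb' (congrArg Subtype.val h)
    · rw [hMN, hMN]
      change algebraMap M K (algebraMap (𝓞 M) M a / algebraMap (𝓞 M) M b) *
        algebraMap M K (algebraMap (𝓞 M) M b) = algebraMap M K (algebraMap (𝓞 M) M a)
      rw [← map_mul, div_mul_cancel₀ _ hb']
  · obtain ⟨i, hi⟩ := hst g j
    rw [hi]
    exact Submodule.subset_span ⟨i, rfl⟩
  · intro S ω hω
    have hS : S = ∅ := by
      rw [Finset.eq_empty_iff_forall_notMem]
      intro ω' h
      exact hω (by cases ω; cases ω'; exact h)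
    subst hS
    have h1 : {y : K | ∃ ω' ∈ (∅ : Finset Unit), ∃ j, y = z j / z 0} = ∅ := by
      ext y
      constructor
      · rintro ⟨ω', h, -⟩
        exact absurd h (Finset.notMem_empty _)
      · intro h
        exact absurd h (Set.notMem_empty _)
    rw [h1, IntermediateField.adjoin_empty, IntermediateField.bot_toSubalgebra]
    exact Subalgebra.LinearDisjoint.bot_left _
  · intro J
    have h1 : {y : K | ∃ (ω : Unit) (i : Fin (m + 1)), y = z i / z (J ω)} =
        Set.range fun i => z i / z (J ()) := by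
      ext y
      constructor
      · rintro ⟨ω, i, h⟩
        exact ⟨i, h.symm⟩
      · rintro ⟨i, h⟩
        exact ⟨(), i, h.symm⟩
    rw [h1]
    exact hch (J ())

/-- **Tori.** -/
theorem tori_N [IsGalois E M] {N' : ℕ} (hN' : N' ≠ 0)
    (hin : ∀ 𝔓 : Ideal (𝓞 M), 𝔓.IsMaximal → (N' : 𝓞 M) ∉ 𝔓 → ∀ p : ℕ, p.Prime →
      (p : 𝓞 M) ∈ 𝔓 → ¬ p ^ 2 ∣ Nat.card (Pool.Agent.Y223.G.inert E 𝔓))
    {n : ℕ} (φ : (M ≃ₐ[E] M) →* ((Fin n → ℤ) ≃ₗ[ℤ] (Fin n → ℤ)))
    (ρ : (M ≃ₐ[E] M) →* (K ≃ₐ[E] K))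
    (hρ : ∀ g c, ρ g (algebraMap M K c) = algebraMap M K (g c))
    (hfix : ∀ x, (∀ g, ρ g x = x) ↔ ∃ y : F, algebraMap F K y = x)
    {x : Fin n → K} (hx : AlgebraicIndependent M x)
    (hgen : IntermediateField.adjoin M (Set.range x) = ⊤)
    (hρx : ∀ g m, ρ g (mono x m) = mono x (φ g m)) :
    ∃ (X' : Scheme.{0}) (_ : IsIntegral X') (g : X' ⟶ Spec (CommRingCat.of ℤ)),
      IsProper g ∧
      (∀ x : X', ¬ ringChar (IsLocalRing.ResidueField (X'.presheaf.stalk x)) ∣ N' →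
        IsRegularLocalRing (X'.presheaf.stalk x)) ∧
      Nonempty (X'.functionField ≃+* F) := by
  classical
  have hx0 : ∀ i, x i ≠ 0 := hx.ne_zero
  have hdE : IsDedekindDomain (SN E N') := SN_ded hN'
  have hdM : IsDedekindDomain (SN M N') := SN_ded hN'
  have hGE := ge_N (N := N') Pool.Agent.Y223.G.all_TAMC hN' ρ hρ hin
  have hli : LinearIndependent (SN M N') (mono x) :=
    (mono_li hx).restrict_scalars' (SN M N')
  obtain ⟨P, V, hPf, hPn, hVf, hSP, hφ⟩ := exists_SP (Pi.basisFun ℤ (Fin n)) φ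
  obtain ⟨N, m, z, W, hN, hSPN, hz0, hst, hzD, hPz, hch, hWD⟩ := wd_main (X := mono x) hGE φ
    (mono_zero x) (mono_add hx0) hli (fun g μ => hρx g μ) hSP hPf hPn hVf hφ
  have hG := ghl_toric hN' hGE hfix hz0 (adjoin_toric hSP hPn hx0 hgen hSPN hz0 hPz) hst hch
  obtain ⟨M', h1, h2, h3, h4, -⟩ := module_gen Pool.Agent.Y223.G.all_LINW
    Pool.Agent.Y223.G.all_CHW Pool.Agent.Y223.G.all_RWB Pool.Agent.Y614.H.RegL.t_REGL _ _ _ hG hWD
    ⊥ Submodule.fg_bot False (fun h => h.elim)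
  exact model_N hN' M' h1 h2 h3 h4

end

end Pool.Agent.Zk15
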