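import Pool.Agent.Zk15.Lz4
import Pool.Agent.Zk15.Flat2
import Pool.Agent.W418.GO.Fin

/-!
# Flat models of toric varieties which are regular away from `N`
-/

set_option autoImplicit false
set_option linter.unusedVariables false
set_option linter.unusedSectionVars false

open scoped Pointwise

open AlgebraicGeometry CategoryTheory CategoryTheory.Limits MvPolynomial NumberField

namespace Pool.Agent.Zk15

open Pool.Agent.Y223.G Pool.Agent.R383.TM Pool.Agent.H918R2.Quad Pool.Agent.W418

section lattice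

variable {E F : Type} [Field E] [NumberField E] [Field F] [Algebra E F] {N : ℕ}

/-- Lattices over the integers in modules over the rings of `N`-integers. -/
theorem exists_lattice [Algebra (𝓞 E) F] [IsScalarTower (𝓞 E) E F] (hN : N ≠ 0)
    (M' : Submodule (SN E N) F) (hM' : M'.FG)
    (hreg : ∀ f ∈ M', f ≠ 0 → ∀ (q : Ideal (Pool.Agent.H918R2.Quad.chart (SN E N) M' f))
      [q.IsPrime], IsRegularLocalRing (Localization.AtPrime q)) :
    ∃ P : Submodule (𝓞 E) F, P.FG ∧ (∀ y ∈ P, y ∈ M') ∧ (∀ y ∈ M', ∃ n : ℕ, (N : F) ^ n * y ∈ P) ∧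
      ∀ f ∈ P, f ≠ 0 → ∀ (q : Ideal (Pool.Agent.H918R2.Quad.chart (𝓞 E) P f)) [q.IsPrime],
        ((N : ℕ) : Pool.Agent.H918R2.Quad.chart (𝓞 E) P f) ∉ q →
        IsRegularLocalRing (Localization.AtPrime q) := by
  classical
  have hNE : (N : E) ≠ 0 := Nat.cast_ne_zero.2 hN
  have hNF : (N : F) ≠ 0 := by
    have := (map_ne_zero (algebraMap E F)).2 hNE
    rwa [map_natCast] at this
  have hOF : ∀ a : 𝓞 E, algebraMap (𝓞 E) F a = algebraMap E F (a : E) := fun a =>
    IsScalarTower.algebraMap_apply (𝓞 E) E F a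
  have hSO : ∀ a : 𝓞 E, algebraMap (SN E N) F (algebraMap (𝓞 E) (SN E N) a) =
      algebraMap (𝓞 E) F a := fun a => (hOF a).symm
  obtain ⟨S, hS⟩ := hM'
  let P : Submodule (𝓞 E) F := Submodule.span (𝓞 E) (S : Set F)
  have hPM : ∀ y ∈ P, y ∈ M' := by
    intro y hy
    induction hy using Submodule.span_induction with
    | mem x hx => rw [← hS]; exact Submodule.subset_span hx
    | zero => exact Submodule.zero_mem _
    | add x y _ _ hx hy => exact Submodule.add_mem _ hx hy
    | smul c x _ hx =>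
      have h1 : c • x = (algebraMap (𝓞 E) (SN E N) c) • x := by
        rw [Algebra.smul_def, Algebra.smul_def, hSO]
      rw [h1]
      exact Submodule.smul_mem _ _ hx
  have hMP : ∀ y ∈ M', ∃ n : ℕ, (N : F) ^ n * y ∈ P := by
    intro y hy
    rw [← hS] at hy
    induction hy using Submodule.span_induction with
    | mem x hx => exact ⟨0, by rw [pow_zero, one_mul]; exact Submodule.subset_span hx⟩
    | zero => exact ⟨0, by rw [mul_zero]; exact Submodule.zero_mem _⟩
    | add x y _ _ hx hy =>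
      obtain ⟨n, hn⟩ := hx
      obtain ⟨m, hm⟩ := hy
      refine ⟨n + m, ?_⟩
      have h1 : (N : F) ^ (n + m) * (x + y) =
          ((N : 𝓞 E) ^ m) • ((N : F) ^ n * x) + ((N : 𝓞 E) ^ n) • ((N : F) ^ m * y) := by
        rw [Algebra.smul_def, Algebra.smul_def, map_pow, map_pow, map_natCast]
        ring
      rw [h1]
      exact Submodule.add_mem _ (Submodule.smul_mem _ _ hn) (Submodule.smul_mem _ _ hm)
    | smul c x _ hx =>
      obtain ⟨n, hn⟩ := hx
      obtain ⟨m, a, ha⟩ := c.2
      refine ⟨n + m, ?_⟩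
      have h1 : (N : F) ^ (n + m) * (c • x) = a • ((N : F) ^ n * x) := by
        rw [Algebra.smul_def, Algebra.smul_def, hOF]
        have h2 : algebraMap (SN E N) F c = algebraMap E F (c : E) := rfl
        have h3 : algebraMap E F (a : E) = (N : F) ^ m * algebraMap E F (c : E) := by
          have h4 := congrArg (algebraMap E F) ha
          rw [map_mul, map_pow, map_natCast] at h4
          exact h4.symm
        rw [h2, h3]
        ring
      rw [h1]
      exact Submodule.smul_mem _ _ hn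
  -- the charts
  have hAB : ∀ f, (Pool.Agent.H918R2.Quad.chart (𝓞 E) P f).toSubring ≤
      (Pool.Agent.H918R2.Quad.chart (SN E N) M' f).toSubring := by
    intro f x hx
    have hx' : x ∈ Algebra.adjoin (𝓞 E) {y : F | ∃ m ∈ P, y = m / f} := hx
    change x ∈ Algebra.adjoin (SN E N) {y : F | ∃ m ∈ M', y = m / f}
    clear hx
    induction hx' using Algebra.adjoin_induction with
    | mem x hx =>
      obtain ⟨m, hm, rfl⟩ := hx
      exact Algebra.subset_adjoin ⟨m, hPM m hm, rfl⟩
    | algebraMap r =>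
      rw [← hSO]
      exact Subalgebra.algebraMap_mem _ (algebraMap (𝓞 E) (SN E N) r)
    | add x y _ _ h1 h2 => exact add_mem h1 h2
    | mul x y _ _ h1 h2 => exact mul_mem h1 h2
  have hBA : ∀ f, ∀ b ∈ (Pool.Agent.H918R2.Quad.chart (SN E N) M' f).toSubring, ∃ n : ℕ,
      (N : F) ^ n * b ∈ (Pool.Agent.H918R2.Quad.chart (𝓞 E) P f).toSubring := by
    intro f b hb
    have hb' : b ∈ Algebra.adjoin (SN E N) {y : F | ∃ m ∈ M', y = m / f} := hb
    clear hb
    have hNC : ∀ n : ℕ, (N : F) ^ n ∈ (Pool.Agent.H918R2.Quad.chart (𝓞 E) P f).toSubring :=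
      fun n => pow_mem (natCast_mem _ _) n
    induction hb' using Algebra.adjoin_induction with
    | mem x hx =>
      obtain ⟨m, hm, rfl⟩ := hx
      obtain ⟨n, hn⟩ := hMP m hm
      exact ⟨n, Algebra.subset_adjoin ⟨_, hn, by rw [mul_div_assoc]⟩⟩
    | algebraMap r =>
      obtain ⟨m, a, ha⟩ := r.2
      refine ⟨m, ?_⟩
      have h4 := congrArg (algebraMap E F) ha
      rw [map_mul, map_pow, map_natCast] at h4
      have h5 : (N : F) ^ m * algebraMap (SN E N) F r = algebraMap (𝓞 E) F a := by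
        rw [hOF]
        exact h4
      rw [h5]
      exact Subalgebra.algebraMap_mem _ a
    | add x y _ _ hx hy =>
      obtain ⟨n, hn⟩ := hx
      obtain ⟨m, hm⟩ := hy
      refine ⟨n + m, ?_⟩
      have e : (N : F) ^ (n + m) * (x + y) =
          ((N : F) ^ n * x) * (N : F) ^ m + ((N : F) ^ m * y) * (N : F) ^ n := by ring
      rw [e]
      exact add_mem (mul_mem hn (hNC m)) (mul_mem hm (hNC n))
    | mul x y _ _ hx hy =>
      obtain ⟨n, hn⟩ := hx
      obtain ⟨m, hm⟩ := hy
      refine ⟨n + m, ?_⟩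
      have e : (N : F) ^ (n + m) * (x * y) = ((N : F) ^ n * x) * ((N : F) ^ m * y) := by ring
      rw [e]
      exact mul_mem hn hm
  have hinv : ∀ f, ((N : F))⁻¹ ∈ (Pool.Agent.H918R2.Quad.chart (SN E N) M' f).toSubring := by
    intro f
    have h1 : ((N : E))⁻¹ ∈ SN E N := ⟨1, 1, by
      rw [pow_one, mul_inv_cancel₀ hNE]
      exact (map_one (algebraMap (𝓞 E) E)).symm⟩
    have h2 : ((N : F))⁻¹ = algebraMap (SN E N) F ⟨_, h1⟩ := by
      change _ = algebraMap E F ((N : E))⁻¹
      rw [map_inv₀, map_natCast]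
    rw [h2]
    exact Subalgebra.algebraMap_mem _ _
  refine ⟨P, Submodule.fg_span (Finset.finite_toSet S), hPM, hMP, ?_⟩
  intro f hf hf0 q hq hNq
  exact regular_away (hAB f) hNF (hBA f) (hinv f) (fun q' _ => hreg f (hPM f hf) hf0 q')
    (q : Ideal (Pool.Agent.H918R2.Quad.chart (𝓞 E) P f).toSubring) (hq := hq) hNq

end lattice

section

variable {E M F K : Type} [Field E] [NumberField E] [Field M] [NumberField M] [Algebra E M]
  [Field F] [Algebra E F] [Field K] [Algebra M K] [Algebra E K] [IsScalarTower E M K]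
  [Algebra F K] [IsScalarTower E F K]

/-- **Flat models of toric varieties.** -/
theorem toric_flat_N [IsGalois E M] {N' : ℕ} (hN' : N' ≠ 0)
    (hin : ∀ 𝔓 : Ideal (𝓞 M), 𝔓.IsMaximal → (N' : 𝓞 M) ∉ 𝔓 → ∀ p : ℕ, p.Prime →
      (p : 𝓞 M) ∈ 𝔓 → ¬ p ^ 2 ∣ Nat.card (Pool.Agent.Y223.G.inert E 𝔓))
    {n : ℕ} (φ : (M ≃ₐ[E] M) →* ((Fin n → ℤ) ≃ₗ[ℤ] (Fin n → ℤ))) {P : Set (Fin n → ℤ)}
    {V : Set ((Fin n → ℤ) × Module.Basis (Fin n) ℤ (Fin n → ℤ))} (hSP : SP P V)
    (hPf : P.Finite) (hPn : P.Nonempty) (hVf : V.Finite) (hφ : ∀ g, ∀ m ∈ P, φ g m ∈ P)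
    (ρ : (M ≃ₐ[E] M) →* (K ≃ₐ[E] K))
    (hρ : ∀ g c, ρ g (algebraMap M K c) = algebraMap M K (g c))
    (hfix : ∀ x, (∀ g, ρ g x = x) ↔ ∃ y : F, algebraMap F K y = x)
    {x : Fin n → K} (hx : AlgebraicIndependent M x)
    (hgen : IntermediateField.adjoin M (Set.range x) = ⊤)
    (hρx : ∀ g m, ρ g (mono x m) = mono x (φ g m))
    {r : ℕ} (u : Fin (r + 1) → F)
    (hseg : Submodule.span M (Set.range fun i => algebraMap F K (u i)) =
      Submodule.span M (mono x '' P))
    {A : Type} [CommRing A] [Algebra E A] (π : MvPolynomial (Fin (r + 1)) E →ₐ[E] A)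
    (hπ : Function.Surjective π) (𝒜 : ℕ → Submodule E A) [GradedAlgebra 𝒜]
    (h𝒜 : ∀ d, 𝒜 d = (homogeneousSubmodule (Fin (r + 1)) E d).map π.toLinearMap)
    (hu : ∀ d, ∀ P ∈ homogeneousSubmodule (Fin (r + 1)) E d, π P = 0 ↔ aeval u P = 0)
    {X : Scheme.{0}} (f : X ⟶ Spec (CommRingCat.of E)) (i : X ≅ Proj 𝒜)
    (hi : i.hom ≫ GO.projStr 𝒜 = f) :
    ∃ (Y : Scheme.{0}) (g : Y ⟶ Spec (CommRingCat.of (𝓞 E))),
      IsProper g ∧ Flat g ∧
      (∀ y : Y, ¬ ringChar (IsLocalRing.ResidueField (Y.presheaf.stalk y)) ∣ N' →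
        IsRegularLocalRing (Y.presheaf.stalk y)) ∧
      ∃ e : pullback g (Spec.map (CommRingCat.ofHom (algebraMap (𝓞 E) E))) ≅ X,
        e.hom ≫ f = pullback.snd g (Spec.map (CommRingCat.ofHom (algebraMap (𝓞 E) E))) := by
  classical
  have hx0 : ∀ i, x i ≠ 0 := hx.ne_zero
  have hdE : IsDedekindDomain (SN E N') := SN_ded hN'
  have hdM : IsDedekindDomain (SN M N') := SN_ded hN'
  have hGE := ge_N (N := N') Pool.Agent.Y223.G.all_TAMC hN' ρ hρ hin
  have hli : LinearIndependent (SN M N') (mono x) :=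
    (mono_li hx).restrict_scalars' (SN M N')
  obtain ⟨N, m, z, W, hN, hSPN, hz0, hst, hzD, hPz, hch, hWD⟩ := wd_main (X := mono x) hGE φ
    (mono_zero x) (mono_add hx0) hli (fun g μ => hρx g μ) hSP hPf hPn hVf hφ
  have hG := ghl_toric hN' hGE hfix hz0 (adjoin_toric hSP hPn hx0 hgen hSPN hz0 hPz) hst hch
  -- the module of the products of the coordinates
  let M₀ : Submodule (SN E N') F := Submodule.span (SN E N') (Set.range u ^ N)
  have hfin : ∀ N : ℕ, (Set.range u ^ N).Finite := by
    intro N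
    induction N with
    | zero => rw [pow_zero]; exact Set.finite_one
    | succ N ih => rw [pow_succ]; exact ih.mul (Set.finite_range u)
  have hM₀ : M₀.FG := Submodule.fg_span (hfin N)
  have hseg' : Submodule.span M ((IsScalarTower.toAlgHom (SN E N') F K) '' (M₀ : Set F)) =
      Submodule.span M (Set.range z) := by
    have h0 : Submodule.span M ((IsScalarTower.toAlgHom (SN E N') F K) '' (M₀ : Set F)) =
        Submodule.span M (algebraMap F K '' (Set.range u ^ N)) := by
      apply le_antisymm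
      · rw [Submodule.span_le]
        rintro _ ⟨y, hy, rfl⟩
        induction hy using Submodule.span_induction with
        | mem y hy => exact Submodule.subset_span ⟨y, hy, rfl⟩
        | zero => rw [map_zero]; exact Submodule.zero_mem _
        | add a b _ _ ha hb => rw [map_add]; exact Submodule.add_mem _ ha hb
        | smul c a _ ha =>
          rw [map_smul]
          have h2 : c • (IsScalarTower.toAlgHom (SN E N') F K) a =
              algebraMap E M (c : E) • (IsScalarTower.toAlgHom (SN E N') F K) a := by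
            rw [Algebra.smul_def, Algebra.smul_def, ← IsScalarTower.algebraMap_apply E M K]
            rfl
          rw [h2]
          exact Submodule.smul_mem _ _ ha
      · rw [Submodule.span_le]
        rintro _ ⟨y, hy, rfl⟩
        exact Submodule.subset_span ⟨y, Submodule.subset_span hy, rfl⟩
    rw [h0, Set.image_pow, ← Set.range_comp]
    change Submodule.span M ((Set.range fun i => algebraMap F K (u i)) ^ N) = _
    rw [← Submodule.span_pow, hseg, Submodule.span_pow, mono_pow hx0]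
    apply le_antisymm
    · rw [Submodule.span_le]
      rintro _ ⟨μ, hμ, rfl⟩
      exact Submodule.subset_span (hPz μ hμ)
    · rw [Submodule.span_le]
      rintro _ ⟨i, rfl⟩
      have h3 := hzD i
      have h4 : AddSubgroup.closure (mono x '' MS N P) ≤
          (Submodule.span M (mono x '' MS N P)).toAddSubgroup := by
        rw [AddSubgroup.closure_le]
        exact Submodule.subset_span
      exact h4 h3
  obtain ⟨M', hM'fg, hM'0, -, hreg, hmo⟩ := module_gen Pool.Agent.Y223.G.all_LINW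
    Pool.Agent.Y223.G.all_CHW Pool.Agent.Y223.G.all_RWB Pool.Agent.Y614.H.RegL.t_REGL _ _ _ hG hWD
    M₀ hM₀ True (fun _ => hseg')
  obtain ⟨D, hD, hle, hge⟩ := hmo trivial
  let _ : Algebra (𝓞 E) F := ((algebraMap E F).comp (algebraMap (𝓞 E) E)).toAlgebra
  have hst' : IsScalarTower (𝓞 E) E F := IsScalarTower.of_algebraMap_eq fun _ => rfl
  have hinj : Function.Injective (algebraMap (𝓞 E) F) :=
    (algebraMap E F).injective.comp RingOfIntegers.coe_injective
  obtain ⟨P', hP'fg, hP'M, hMP', hregP⟩ := exists_lattice hN' M' hM'fg hreg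
  obtain ⟨ε, hε, hεgen, hε1⟩ := Pool.Agent.Y223.INV.exists_eps2 u π hπ 𝒜 h𝒜 hu
  have hNE : (N' : E) ≠ 0 := Nat.cast_ne_zero.2 hN'
  have hNF : (N' : F) ≠ 0 := by
    have := (map_ne_zero (algebraMap E F)).2 hNE
    rwa [map_natCast] at this
  -- the linear forms
  have hL : ((𝒜 1).map ε.toLinearMap) ^ (N * D) = Submodule.span E (Set.range u ^ (N * D)) := by
    rw [hε1, Submodule.span_pow]
  have hpow : M₀ ^ D = Submodule.span (SN E N') (Set.range u ^ (N * D)) := by
    change (Submodule.span (SN E N') (Set.range u ^ N)) ^ D = _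
    rw [Submodule.span_pow, ← pow_mul]
  have hcE : ∀ (c : SN E N') (y : F), c • y = (c : E) • y := fun c y => by
    rw [Algebra.smul_def, Algebra.smul_def]
    rfl
  have hML : ∀ y ∈ P', y ∈ ((𝒜 1).map ε.toLinearMap) ^ (N * D) := by
    intro y hy
    obtain ⟨c, hc, hcy⟩ := hle y (hP'M y hy)
    rw [hpow] at hcy
    have h1 := Submodule.span_subset_span (SN E N') E _ hcy
    rw [hcE] at h1
    have hc0 : (c : E) ≠ 0 := fun h => hc (Subtype.ext h)
    have h3 := Submodule.smul_mem _ (c : E)⁻¹ h1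
    rw [smul_smul, inv_mul_cancel₀ hc0, one_smul] at h3
    rw [hL]
    exact h3
  have hLM : ∀ y ∈ ((𝒜 1).map ε.toLinearMap) ^ (N * D), ∃ s : 𝓞 E, s ≠ 0 ∧ s • y ∈ P' := by
    intro y hy
    rw [hL] at hy
    obtain ⟨c, hc, hcy⟩ := exists_smul_span (O := 𝓞 E) (K := E) (Set.range u ^ (N * D)) y hy
    have h1 : c • y ∈ M₀ ^ D := by
      rw [hpow]
      have h2 : ∀ w ∈ Submodule.span (𝓞 E) (Set.range u ^ (N * D)),
          w ∈ Submodule.span (SN E N') (Set.range u ^ (N * D)) := by
        intro w hw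
        induction hw using Submodule.span_induction with
        | mem x hx => exact Submodule.subset_span hx
        | zero => exact Submodule.zero_mem _
        | add x y _ _ hx hy => exact Submodule.add_mem _ hx hy
        | smul c x _ hx =>
          have h1 : c • x = (algebraMap (𝓞 E) (SN E N') c) • x := by
            rw [Algebra.smul_def, Algebra.smul_def]
            rfl
          rw [h1]
          exact Submodule.smul_mem _ _ hx
      exact h2 _ hcy
    obtain ⟨d, hd, hdy⟩ := hge _ h1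
    obtain ⟨m1, a, ha⟩ := d.2
    obtain ⟨m2, hm2⟩ := hMP' _ hdy
    have hd0 : (d : E) ≠ 0 := fun h => hd (Subtype.ext h)
    have ha0 : a ≠ 0 := by
      intro h
      have h5 : (N' : E) ^ m1 * (d : E) = 0 := by
        rw [ha, h]
        exact map_zero (algebraMap (𝓞 E) E)
      exact (mul_ne_zero (pow_ne_zero _ hNE) hd0) h5
    refine ⟨(N' : 𝓞 E) ^ m2 * a * c, mul_ne_zero (mul_ne_zero (pow_ne_zero _
      (Nat.cast_ne_zero.2 hN')) ha0) hc, ?_⟩
    have h6 : ((N' : 𝓞 E) ^ m2 * a * c) • y =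
        ((N' : 𝓞 E) ^ m1) • ((N' : F) ^ m2 * (d • c • y)) := by
      have h7 : algebraMap (𝓞 E) F a = (N' : F) ^ m1 * algebraMap E F (d : E) := by
        have h8 := congrArg (algebraMap E F) ha
        rw [map_mul, map_pow, map_natCast] at h8
        exact h8.symm
      rw [hcE d, Algebra.smul_def, Algebra.smul_def, Algebra.smul_def, Algebra.smul_def, map_mul,
        map_mul, map_pow, map_pow, map_natCast, h7]
      ring
    rw [h6]
    exact Submodule.smul_mem _ _ hm2
  obtain ⟨e, he⟩ := GO.gfib_model 𝒜 ε hε hεgen (N * D) (Nat.mul_pos hN hD) P' hML hLM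
  refine ⟨Pool.Agent.H968R2.Quad.model P', Pool.Agent.H968R2.Quad.modelMap P',
    Pool.Agent.H968R2.Quad.modelMap_isProper P' hinj hP'fg, GO.model_flat P' hinj, ?_,
    e ≪≫ i.symm, ?_⟩
  · intro y hy
    exact stalk_regular' P' N' (fun f hf hf0 q hq0 hq => @hregP f hf hf0 q hq0 hq) y
      (isUnit_of_not_dvd _ N' hy)
  · rw [← hi, Iso.trans_hom, Iso.symm_hom, Category.assoc, Iso.inv_hom_id_assoc]
    exact he

end

end Pool.Agent.Zk15
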