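import Mathlib
import Pool.Agent.H920R2.Sr1

/-!
# Regularity of the rings generated by a regular ring and a smooth ring
-/

set_option autoImplicit false

namespace Pool.Agent.Zk15.MX

open IsLocalRing
open scoped TensorProduct nonZeroDivisors

/-- Smooth algebras over a regular ring are regular. -/
theorem regular_smooth {k A : Type} [CommRing k] [IsRegularRing k] [CommRing A] [Algebra k A]
    [Algebra.Smooth k A] (q : Ideal A) [q.IsPrime] :
    IsRegularLocalRing (Localization.AtPrime q) := by
  have hsm : Algebra.IsSmoothAt k q := inferInstance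
  obtain ⟨f, hf, n, alg, tower, het⟩ :=
    Algebra.IsSmoothAt.exists_isStandardEtale_mvPolynomial (R := k) (S := A) (p := q)
  have het' : Algebra.Etale (MvPolynomial (Fin n) k) (Localization.Away f) := inferInstance
  have hQ : (Ideal.map (algebraMap A (Localization.Away f)) q).IsPrime :=
    IsLocalization.isPrime_of_isPrime_disjoint (.powers f) _ _ ‹_›
      ((Ideal.disjoint_powers_iff_notMem_of_isPrime _).mpr hf)
  have h1 := Pool.Agent.H920R2.regular_of_etale (P := MvPolynomial (Fin n) k)
    (Ideal.map (algebraMap A (Localization.Away f)) q)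
  have h2 : (Ideal.map (algebraMap A (Localization.Away f)) q).comap
      (algebraMap A (Localization.Away f)) = q :=
    IsLocalization.comap_map_of_isPrime_disjoint (.powers f) _ ‹_›
      ((Ideal.disjoint_powers_iff_notMem_of_isPrime _).mpr hf)
  have h3 := IsLocalization.isLocalization_isLocalization_atPrime_isLocalization (.powers f)
    (Localization.AtPrime (Ideal.map (algebraMap A (Localization.Away f)) q))
    (Ideal.map (algebraMap A (Localization.Away f)) q)
  simp only [h2] at h3
  exact IsRegularLocalRing.of_ringEquiv (IsLocalization.algEquiv q.primeCompl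
    (Localization.AtPrime (Ideal.map (algebraMap A (Localization.Away f)) q))
    (Localization.AtPrime q)).toRingEquiv

/-- The ring generated by a regular ring and a linearly disjoint smooth ring. -/
theorem reg_sup {O S : Type} [CommRing O] [CommRing S] [Algebra O S] (A B : Subalgebra O S)
    (hA : IsRegularRing A) (hB : Algebra.Smooth O B) (hd : A.LinearDisjoint B) :
    IsRegularRing (A ⊔ B : Subalgebra O S) := by
  have h1 : Algebra.Smooth A (A ⊗[O] B) := inferInstance
  have h0 : Algebra.FiniteType A (A ⊗[O] B) := inferInstance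
  have h2 : IsNoetherianRing (A ⊗[O] B) := Algebra.FiniteType.isNoetherianRing A _
  have h3 : IsRegularRing (A ⊗[O] B) := by
    rw [isRegularRing_iff]
    intro q hq
    exact regular_smooth (k := A) q
  exact IsRegularRing.of_ringEquiv hd.mulMap.toRingEquiv

/-- Linear disjointness over a Dedekind domain. -/
theorem ldg {O L K : Type} [CommRing O] [IsDomain O] [IsDedekindDomain O] [Field L]
    [CommRing K] [IsDomain K] [Algebra O K] [Algebra L K]
    (hinj : Function.Injective (algebraMap O K))
    (hO : ∀ o : O, ∃ x : L, algebraMap L K x = algebraMap O K o)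
    (hL : ∀ x : L, ∃ a b : O, b ≠ 0 ∧ algebraMap L K x * algebraMap O K b = algebraMap O K a)
    (A B : Subalgebra O K) (W W' : Subalgebra L K) (hA : ∀ a ∈ A, a ∈ W) (hB : ∀ b ∈ B, b ∈ W')
    (hd : W.LinearDisjoint W') : A.LinearDisjoint B := by
  choose g hg using hO
  have hLK : Function.Injective (algebraMap L K) := (algebraMap L K).injective
  let γ : O →+* L :=
    { toFun := g
      map_one' := hLK (by rw [hg, map_one, map_one])
      map_mul' := fun x y => hLK (by rw [hg, map_mul, map_mul, hg, hg])
      map_zero' := hLK (by rw [hg, map_zero, map_zero])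
      map_add' := fun x y => hLK (by rw [hg, map_add, map_add, hg, hg]) }
  let _ : Algebra O L := γ.toAlgebra
  have hγ : ∀ o, algebraMap L K (algebraMap O L o) = algebraMap O K o := hg
  have hst : IsScalarTower O L K := IsScalarTower.of_algebraMap_eq fun o => (hγ o).symm
  have hOL : Function.Injective (algebraMap O L) := by
    intro x y hxy
    apply hinj
    rw [← hγ, ← hγ, hxy]
  have hfr : IsLocalization O⁰ L := by
    rw [isLocalization_iff]
    refine ⟨fun y => ?_, fun z => ?_, fun {x y} hxy => ⟨1, by rw [hOL hxy]⟩⟩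
    · rw [isUnit_iff_ne_zero]
      intro h
      exact nonZeroDivisors.ne_zero y.2 (hOL (by rw [h, map_zero]))
    · obtain ⟨a, b, hb, hab⟩ := hL z
      refine ⟨⟨a, ⟨b, mem_nonZeroDivisors_of_ne_zero hb⟩⟩, hLK ?_⟩
      rw [map_mul, hγ, hγ]
      exact hab
  have htf : ∀ (S : Type) [CommRing S] [IsDomain S] [Algebra O S],
      Function.Injective (algebraMap O S) → Module.Flat O S := by
    intro S _ _ _ hS
    have : FaithfulSMul O S := (faithfulSMul_iff_algebraMap_injective O S).2 hS
    infer_instance
  have hAf : Module.Flat O A := htf A (by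
    intro x y hxy
    exact hinj (congrArg Subtype.val hxy))
  have hWf : Module.Flat O W' := htf W' (by
    intro x y hxy
    exact hinj (congrArg (fun z : W' => (z : K)) hxy))
  let f1 : A →ₗ[O] W :=
    { toFun := fun a => ⟨a.1, hA a.1 a.2⟩
      map_add' := fun _ _ => rfl
      map_smul' := fun _ _ => rfl }
  let f2 : B →ₗ[O] W' :=
    { toFun := fun a => ⟨a.1, hB a.1 a.2⟩
      map_add' := fun _ _ => rfl
      map_smul' := fun _ _ => rfl }
  have h1 : Function.Injective f1 := by
    intro x y hxy
    exact Subtype.ext (congrArg (fun z : W => (z : K)) hxy)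
  have h2 : Function.Injective f2 := by
    intro x y hxy
    exact Subtype.ext (congrArg (fun z : W' => (z : K)) hxy)
  have h3 : Function.Injective (TensorProduct.map f1 f2) := by
    rw [← LinearMap.rTensor_comp_lTensor, LinearMap.coe_comp]
    exact (Module.Flat.rTensor_preserves_injective_linearMap _ h1).comp
      (Module.Flat.lTensor_preserves_injective_linearMap _ h2)
  let e : W ⊗[L] W' ≃ₐ[L] W ⊗[O] W' := IsLocalization.algebraTensorEquiv O⁰ L W W'
  have he : ∀ (w : W) (w' : W'), e.symm (w ⊗ₜ[O] w') = w ⊗ₜ[L] w' := by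
    intro w w'
    rw [AlgEquiv.symm_apply_eq]
    rfl
  rw [Subalgebra.linearDisjoint_iff_injective] at hd ⊢
  have h4 : ∀ x, A.mulMap B x = W.mulMap W' (e.symm (TensorProduct.map f1 f2 x)) := by
    intro x
    induction x using TensorProduct.induction_on with
    | zero => simp only [map_zero]
    | tmul a b =>
      rw [TensorProduct.map_tmul, he]
      rfl
    | add x y hx hy => simp only [map_add, hx, hy]
  intro x y hxy
  rw [h4, h4] at hxy
  exact h3 (e.symm.injective (hd hxy))

/-- The products of `N` coordinates. -/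
def ver {K : Type} [Field K] {r : ℕ} (h : Fin (r + 1) → K) {N : ℕ} (a : Fin N → Fin (r + 1)) : K :=
  ∏ k, h (a k)

/-- The charts of the Veronese embedding are smooth. -/
theorem ver_smooth {O K : Type} [CommRing O] [Field K] [Algebra O K] {r : ℕ}
    {h : Fin (r + 1) → K} (h0 : ∀ b, h b ≠ 0)
    (hs : ∀ a, Algebra.Smooth O (Algebra.adjoin O (Set.range fun b => h b / h a)))
    {N : ℕ} (hN : 0 < N) (a : Fin N → Fin (r + 1)) :
    Algebra.Smooth O (Algebra.adjoin O (Set.range fun b : Fin N → Fin (r + 1) =>
      ver h b / ver h a)) := by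
  classical
  obtain ⟨n, rfl⟩ : ∃ n, N = n + 1 := ⟨N - 1, by omega⟩
  have hv0 : ∀ b : Fin (n + 1) → Fin (r + 1), ver h b ≠ 0 := fun b =>
    Finset.prod_ne_zero_iff.2 fun k _ => h0 _
  set C := Algebra.adjoin O (Set.range fun b => h b / h (a 0)) with hC
  set A := Algebra.adjoin O (Set.range fun b : Fin (n + 1) → Fin (r + 1) =>
      ver h b / ver h a) with hA
  have hCA : C ≤ A := by
    rw [hC, Algebra.adjoin_le_iff]
    rintro _ ⟨b, rfl⟩
    refine Algebra.subset_adjoin ⟨Function.update a 0 b, ?_⟩
    change ver h (Function.update a 0 b) / ver h a = h b / h (a 0)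
    unfold ver
    rw [Fin.prod_univ_succ, Fin.prod_univ_succ, Function.update_self]
    have e1 : ∀ i : Fin n, Function.update a 0 b i.succ = a i.succ := fun i =>
      Function.update_of_ne (Fin.succ_ne_zero i) _ _
    simp only [e1]
    rw [mul_div_mul_right]
    exact Finset.prod_ne_zero_iff.2 fun k _ => h0 _
  have hq : ∀ b : Fin (n + 1) → Fin (r + 1), ver h b / h (a 0) ^ (n + 1) ∈ C := by
    intro b
    have e1 : ver h b / h (a 0) ^ (n + 1) = ∏ k, (h (b k) / h (a 0)) := by
      rw [Finset.prod_div_distrib, Finset.prod_const, Finset.card_univ, Fintype.card_fin]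
      rfl
    rw [e1]
    exact Subalgebra.prod_mem _ fun k _ => Algebra.subset_adjoin ⟨b k, rfl⟩
  let f : C := ⟨ver h a / h (a 0) ^ (n + 1), hq a⟩
  have hf0 : (f : K) ≠ 0 := div_ne_zero (hv0 a) (pow_ne_zero _ (h0 _))
  have hfi : (f : K)⁻¹ ∈ A := by
    refine Algebra.subset_adjoin ⟨fun _ => a 0, ?_⟩
    change ver h (fun _ => a 0) / ver h a = (ver h a / h (a 0) ^ (n + 1))⁻¹
    rw [inv_div]
    congr 1
    unfold ver
    rw [Finset.prod_const, Finset.card_univ, Fintype.card_fin]
  let _ : Algebra C A := (Subalgebra.inclusion hCA).toRingHom.toAlgebra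
  have hmap : ∀ c : C, ((algebraMap C A c : A) : K) = c := fun c => rfl
  have htow : IsScalarTower O C A := IsScalarTower.of_algebraMap_eq fun o => rfl
  have hden : ∀ y ∈ A, ∃ m : ℕ, y * (f : K) ^ m ∈ C := by
    intro y hy
    induction hy using Algebra.adjoin_induction with
    | mem y hy =>
      obtain ⟨b, rfl⟩ := hy
      refine ⟨1, ?_⟩
      have e1 : ver h b / ver h a * (f : K) ^ 1 = ver h b / h (a 0) ^ (n + 1) := by
        change ver h b / ver h a * (ver h a / h (a 0) ^ (n + 1)) ^ 1 = _
        have := hv0 a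
        field_simp
      simp only [e1]
      exact hq b
    | algebraMap o => exact ⟨0, by rw [pow_zero, mul_one]; exact Subalgebra.algebraMap_mem _ _⟩
    | add x y _ _ hx hy =>
      obtain ⟨m, hm⟩ := hx
      obtain ⟨m', hm'⟩ := hy
      refine ⟨m + m', ?_⟩
      have e1 : (x + y) * (f : K) ^ (m + m') = x * (f : K) ^ m * (f : K) ^ m' +
          y * (f : K) ^ m' * (f : K) ^ m := by ring
      rw [e1]
      exact Subalgebra.add_mem _ (Subalgebra.mul_mem _ hm (Subalgebra.pow_mem _ f.2 _))
        (Subalgebra.mul_mem _ hm' (Subalgebra.pow_mem _ f.2 _))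
    | mul x y _ _ hx hy =>
      obtain ⟨m, hm⟩ := hx
      obtain ⟨m', hm'⟩ := hy
      refine ⟨m + m', ?_⟩
      have e1 : (x * y) * (f : K) ^ (m + m') = x * (f : K) ^ m * (y * (f : K) ^ m') := by ring
      rw [e1]
      exact Subalgebra.mul_mem _ hm hm'
  have hloc : IsLocalization.Away f A := by
    refine (isLocalization_iff _ _).2 ⟨?_, ?_, ?_⟩
    · rintro ⟨_, m, rfl⟩
      refine isUnit_iff_exists_inv.2 ⟨⟨(f : K)⁻¹, hfi⟩ ^ m, ?_⟩
      apply Subtype.ext
      change (f : K) ^ m * ((f : K)⁻¹) ^ m = 1
      rw [← mul_pow, mul_inv_cancel₀ hf0, one_pow]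
    · intro z
      obtain ⟨m, hm⟩ := hden z z.2
      refine ⟨⟨⟨_, hm⟩, ⟨f ^ m, m, rfl⟩⟩, ?_⟩
      apply Subtype.ext
      rfl
    · intro x y hxy
      refine ⟨1, ?_⟩
      have h1 := congrArg (fun z : A => (z : K)) hxy
      have h2 : x = y := Subtype.ext h1
      rw [h2]
  have h1 : Algebra.Smooth C A := Algebra.Smooth.of_isLocalization_Away f
  have h2 := hs (a 0)
  exact Algebra.Smooth.comp O C A

end Pool.Agent.Zk15.MX
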