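import Pool.Agent.Zk15.Mx9
import Pool.Agent.Zk15.Lz5

/-!
# Flat models from weights over the rings of `N`-integers
-/

set_option autoImplicit false
set_option linter.unusedVariables false
set_option linter.unusedSectionVars false

open scoped Pointwise

open AlgebraicGeometry CategoryTheory CategoryTheory.Limits MvPolynomial NumberField

namespace Pool.Agent.Zk15.MX

open Pool.Agent.Y223.G Pool.Agent.R383.TM Pool.Agent.H918R2.Quad Pool.Agent.W418 Pool.Agent.Zk15

section

variable {E M F K : Type} [Field E] [NumberField E] [Field M] [NumberField M] [Algebra E M]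
  [Field F] [Algebra E F] [Field K] [Algebra M K] [Algebra E K] [IsScalarTower E M K]
  [Algebra F K] [IsScalarTower E F K]

/-- The hypotheses over the ring of `N`-integers. -/
theorem ghl_gen {N' : ℕ} (hN' : N' ≠ 0) [IsDedekindDomain (SN M N')]
    {ρ : (M ≃ₐ[E] M) →* (K ≃ₐ[E] K)}
    (hGE : GE (SN E N') (SN M N') K (M ≃ₐ[E] M) (RN E K N' ρ) (TN E M N'))
    (hfix : ∀ x, (∀ g, ρ g x = x) ↔ ∃ y : F, algebraMap F K y = x)
    {m : ℕ} {z : Fin (m + 1) → K} (hz0 : ∀ j, z j ≠ 0)
    (hadj : IntermediateField.adjoin M {y : K | ∃ (_ : Unit) (j : Fin (m + 1)), y = z j / z 0} = ⊤)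
    (hlin : ∀ g j, RN E K N' ρ g (z j) ∈ Submodule.span (SN M N') (Set.range z))
    (hch : ∀ j, IsRegularRing (Algebra.adjoin (SN M N') (Set.range fun i => z i / z j))) :
    GHL (SN E N') (SN M N') M F K (M ≃ₐ[E] M) Unit
      (IsScalarTower.toAlgHom (SN E N') F K) (RN E K N' ρ) (TN E M N') m (fun _ => z) := by
  have hMN : ∀ o : SN M N', algebraMap (SN M N') K o = algebraMap M K (o : M) := fun _ => rfl
  refine
  { toGE := hGE
    lo := fun o => ⟨(o : M), rfl⟩
    lf := ?_
    fixK := hfix
    z0 := fun _ => hz0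
    lin := fun g _ j => hlin g j
    gen := hadj
    ld := ?_
    rg := ?_ }
  · intro x
    obtain ⟨a, b, hb, rfl⟩ := IsFractionRing.div_surjective (A := 𝓞 M) x
    have hb0 : b ≠ 0 := nonZeroDivisors.ne_zero hb
    have hb' : algebraMap (𝓞 M) M b ≠ 0 := RingOfIntegers.coe_ne_zero_iff.2 hb0
    refine ⟨algebraMap (𝓞 M) (SN M N') a, algebraMap (𝓞 M) (SN M N') b, ?_, ?_⟩
    · intro h
      exact hb' (congrArg Subtype.val h)
    · rw [hMN, hMN]
      change algebraMap M K (algebraMap (𝓞 M) M a / algebraMap (𝓞 M) M b) *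
        algebraMap M K (algebraMap (𝓞 M) M b) = algebraMap M K (algebraMap (𝓞 M) M a)
      rw [← map_mul, div_mul_cancel₀ _ hb']
  · intro S ω hω
    have hS : S = ∅ := by
      rw [Finset.eq_empty_iff_forall_notMem]
      intro ω' h
      exact hω (by cases ω; cases ω'; exact h)
    subst hS
    have h1 : {y : K | ∃ ω' ∈ (∅ : Finset Unit), ∃ j, y = z j / z 0} = ∅ := by
      ext y
      constructor
      · rintro ⟨ω', h, -⟩
        exact absurd h (Finset.notMem_empty _)
      · intro h
        exact absurd h (Set.notMem_empty _)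
    rw [h1, IntermediateField.adjoin_empty, IntermediateField.bot_toSubalgebra]
    exact Subalgebra.LinearDisjoint.bot_left _
  · intro J
    have h1 : {y : K | ∃ (ω : Unit) (i : Fin (m + 1)), y = z i / z (J ω)} =
        Set.range fun i => z i / z (J ()) := by
      ext y
      constructor
      · rintro ⟨ω, i, h⟩
        exact ⟨i, h.symm⟩
      · rintro ⟨i, h⟩
        exact ⟨(), i, h.symm⟩
    rw [h1]
    exact hch (J ())

/-- **Flat models from weights.** -/
theorem flat_gen {N' : ℕ} (hN' : N' ≠ 0) [IsDedekindDomain (SN M N')]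
    [IsDedekindDomain (SN E N')] {ρ : (M ≃ₐ[E] M) →* (K ≃ₐ[E] K)}
    {m : ℕ} {z : Fin (m + 1) → K} {e : Ideal (SN M N') → ℕ}
    {W : Ideal (SN M N') → Fin (m + 1) → ℕ}
    (hG : GHL (SN E N') (SN M N') M F K (M ≃ₐ[E] M) Unit
      (IsScalarTower.toAlgHom (SN E N') F K) (RN E K N' ρ) (TN E M N') m (fun _ => z))
    (hWD : WD (SN E N') (SN M N') K (M ≃ₐ[E] M) (RN E K N' ρ) (TN E M N') z e W)
    {N : ℕ} (hN : 0 < N) {r : ℕ} (u : Fin (r + 1) → F)
    (hsegN : Submodule.span M ((Set.range fun i => algebraMap F K (u i)) ^ N) =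
      Submodule.span M (Set.range z))
    {A : Type} [CommRing A] [Algebra E A] (π : MvPolynomial (Fin (r + 1)) E →ₐ[E] A)
    (hπ : Function.Surjective π) (𝒜 : ℕ → Submodule E A) [GradedAlgebra 𝒜]
    (h𝒜 : ∀ d, 𝒜 d = (homogeneousSubmodule (Fin (r + 1)) E d).map π.toLinearMap)
    (hu : ∀ d, ∀ P ∈ homogeneousSubmodule (Fin (r + 1)) E d, π P = 0 ↔ aeval u P = 0)
    {X : Scheme.{0}} (f : X ⟶ Spec (CommRingCat.of E)) (i : X ≅ Proj 𝒜)
    (hi : i.hom ≫ GO.projStr 𝒜 = f) :
    ∃ (Y : Scheme.{0}) (g : Y ⟶ Spec (CommRingCat.of (𝓞 E))),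
      IsProper g ∧ Flat g ∧
      (∀ y : Y, ¬ ringChar (IsLocalRing.ResidueField (Y.presheaf.stalk y)) ∣ N' →
        IsRegularLocalRing (Y.presheaf.stalk y)) ∧
      ∃ e : pullback g (Spec.map (CommRingCat.ofHom (algebraMap (𝓞 E) E))) ≅ X,
        e.hom ≫ f = pullback.snd g (Spec.map (CommRingCat.ofHom (algebraMap (𝓞 E) E))) := by
  classical
  -- the module of the products of the coordinates
  let M₀ : Submodule (SN E N') F := Submodule.span (SN E N') (Set.range u ^ N)
  have hfin : ∀ N : ℕ, (Set.range u ^ N).Finite := by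
    intro N
    induction N with
    | zero => rw [pow_zero]; exact Set.finite_one
    | succ N ih => rw [pow_succ]; exact ih.mul (Set.finite_range u)
  have hM₀ : M₀.FG := Submodule.fg_span (hfin N)
  have hseg' : Submodule.span M ((IsScalarTower.toAlgHom (SN E N') F K) '' (M₀ : Set F)) =
      Submodule.span M (Set.range z) := by
    have h0 : Submodule.span M ((IsScalarTower.toAlgHom (SN E N') F K) '' (M₀ : Set F)) =
        Submodule.span M (algebraMap F K '' (Set.range u ^ N)) := by
      apply le_antisymm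
      · rw [Submodule.span_le]
        rintro _ ⟨y, hy, rfl⟩
        induction hy using Submodule.span_induction with
        | mem y hy => exact Submodule.subset_span ⟨y, hy, rfl⟩
        | zero => rw [map_zero]; exact Submodule.zero_mem _
        | add a b _ _ ha hb => rw [map_add]; exact Submodule.add_mem _ ha hb
        | smul c a _ ha =>
          rw [map_smul]
          have h2 : c • (IsScalarTower.toAlgHom (SN E N') F K) a =
              algebraMap E M (c : E) • (IsScalarTower.toAlgHom (SN E N') F K) a := by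
            rw [Algebra.smul_def, Algebra.smul_def, ← IsScalarTower.algebraMap_apply E M K]
            rfl
          rw [h2]
          exact Submodule.smul_mem _ _ ha
      · rw [Submodule.span_le]
        rintro _ ⟨y, hy, rfl⟩
        exact Submodule.subset_span ⟨y, Submodule.subset_span hy, rfl⟩
    rw [h0, Set.image_pow, ← Set.range_comp]
    change Submodule.span M ((Set.range fun i => algebraMap F K (u i)) ^ N) = _
    exact hsegN
  obtain ⟨M', hM'fg, hM'0, -, hreg, hmo⟩ := module_gen Pool.Agent.Y223.G.all_LINW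
    Pool.Agent.Y223.G.all_CHW Pool.Agent.Y223.G.all_RWB Pool.Agent.Y614.H.RegL.t_REGL _ _ _ hG hWD
    M₀ hM₀ True (fun _ => hseg')
  obtain ⟨D, hD, hle, hge⟩ := hmo trivial
  let _ : Algebra (𝓞 E) F := ((algebraMap E F).comp (algebraMap (𝓞 E) E)).toAlgebra
  have hst' : IsScalarTower (𝓞 E) E F := IsScalarTower.of_algebraMap_eq fun _ => rfl
  have hinj : Function.Injective (algebraMap (𝓞 E) F) :=
    (algebraMap E F).injective.comp RingOfIntegers.coe_injective
  obtain ⟨P', hP'fg, hP'M, hMP', hregP⟩ := exists_lattice hN' M' hM'fg hreg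
  obtain ⟨ε, hε, hεgen, hε1⟩ := Pool.Agent.Y223.INV.exists_eps2 u π hπ 𝒜 h𝒜 hu
  have hNE : (N' : E) ≠ 0 := Nat.cast_ne_zero.2 hN'
  have hNF : (N' : F) ≠ 0 := by
    have := (map_ne_zero (algebraMap E F)).2 hNE
    rwa [map_natCast] at this
  -- the linear forms
  have hL : ((𝒜 1).map ε.toLinearMap) ^ (N * D) = Submodule.span E (Set.range u ^ (N * D)) := by
    rw [hε1, Submodule.span_pow]
  have hpow : M₀ ^ D = Submodule.span (SN E N') (Set.range u ^ (N * D)) := by
    change (Submodule.span (SN E N') (Set.range u ^ N)) ^ D = _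
    rw [Submodule.span_pow, ← pow_mul]
  have hcE : ∀ (c : SN E N') (y : F), c • y = (c : E) • y := fun c y => by
    rw [Algebra.smul_def, Algebra.smul_def]
    rfl
  have hML : ∀ y ∈ P', y ∈ ((𝒜 1).map ε.toLinearMap) ^ (N * D) := by
    intro y hy
    obtain ⟨c, hc, hcy⟩ := hle y (hP'M y hy)
    rw [hpow] at hcy
    have h1 := Submodule.span_subset_span (SN E N') E _ hcy
    rw [hcE] at h1
    have hc0 : (c : E) ≠ 0 := fun h => hc (Subtype.ext h)
    have h3 := Submodule.smul_mem _ (c : E)⁻¹ h1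
    rw [smul_smul, inv_mul_cancel₀ hc0, one_smul] at h3
    rw [hL]
    exact h3
  have hLM : ∀ y ∈ ((𝒜 1).map ε.toLinearMap) ^ (N * D), ∃ s : 𝓞 E, s ≠ 0 ∧ s • y ∈ P' := by
    intro y hy
    rw [hL] at hy
    obtain ⟨c, hc, hcy⟩ := exists_smul_span (O := 𝓞 E) (K := E) (Set.range u ^ (N * D)) y hy
    have h1 : c • y ∈ M₀ ^ D := by
      rw [hpow]
      have h2 : ∀ w ∈ Submodule.span (𝓞 E) (Set.range u ^ (N * D)),
          w ∈ Submodule.span (SN E N') (Set.range u ^ (N * D)) := by
        intro w hw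
        induction hw using Submodule.span_induction with
        | mem x hx => exact Submodule.subset_span hx
        | zero => exact Submodule.zero_mem _
        | add x y _ _ hx hy => exact Submodule.add_mem _ hx hy
        | smul c x _ hx =>
          have h1 : c • x = (algebraMap (𝓞 E) (SN E N') c) • x := by
            rw [Algebra.smul_def, Algebra.smul_def]
            rfl
          rw [h1]
          exact Submodule.smul_mem _ _ hx
      exact h2 _ hcy
    obtain ⟨d, hd, hdy⟩ := hge _ h1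
    obtain ⟨m1, a, ha⟩ := d.2
    obtain ⟨m2, hm2⟩ := hMP' _ hdy
    have hd0 : (d : E) ≠ 0 := fun h => hd (Subtype.ext h)
    have ha0 : a ≠ 0 := by
      intro h
      have h5 : (N' : E) ^ m1 * (d : E) = 0 := by
        rw [ha, h]
        exact map_zero (algebraMap (𝓞 E) E)
      exact (mul_ne_zero (pow_ne_zero _ hNE) hd0) h5
    refine ⟨(N' : 𝓞 E) ^ m2 * a * c, mul_ne_zero (mul_ne_zero (pow_ne_zero _
      (Nat.cast_ne_zero.2 hN')) ha0) hc, ?_⟩
    have h6 : ((N' : 𝓞 E) ^ m2 * a * c) • y =
        ((N' : 𝓞 E) ^ m1) • ((N' : F) ^ m2 * (d • c • y)) := by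
      have h7 : algebraMap (𝓞 E) F a = (N' : F) ^ m1 * algebraMap E F (d : E) := by
        have h8 := congrArg (algebraMap E F) ha
        rw [map_mul, map_pow, map_natCast] at h8
        exact h8.symm
      rw [hcE d, Algebra.smul_def, Algebra.smul_def, Algebra.smul_def, Algebra.smul_def, map_mul,
        map_mul, map_pow, map_pow, map_natCast, h7]
      ring
    rw [h6]
    exact Submodule.smul_mem _ _ hm2
  obtain ⟨e, he⟩ := GO.gfib_model 𝒜 ε hε hεgen (N * D) (Nat.mul_pos hN hD) P' hML hLM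
  refine ⟨Pool.Agent.H968R2.Quad.model P', Pool.Agent.H968R2.Quad.modelMap P',
    Pool.Agent.H968R2.Quad.modelMap_isProper P' hinj hP'fg, GO.model_flat P' hinj, ?_,
    e ≪≫ i.symm, ?_⟩
  · intro y hy
    exact stalk_regular' P' N' (fun f hf hf0 q hq0 hq => @hregP f hf hf0 q hq0 hq) y
      (isUnit_of_not_dvd _ N' hy)
  · rw [← hi, Iso.trans_hom, Iso.symm_hom, Category.assoc, Iso.inv_hom_id_assoc]
    exact he

end

end Pool.Agent.Zk15.MX
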