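import Pool.Agent.Zk15.Mx10

/-!
# Products over the rings of `N`-integers
-/

set_option autoImplicit false
set_option linter.unusedVariables false
set_option linter.unusedSectionVars false

open scoped Pointwise

open NumberField

namespace Pool.Agent.Zk15.MX

open Pool.Agent.Y223.G Pool.Agent.Zk15
open Pool.Agent.R383.TM (WR WR_s WR_e WR_o WR_z FIX WD Wild low_mem WWD tm_good IsW)

section

variable {E M K : Type} [Field E] [NumberField E] [Field M] [NumberField M] [Algebra E M]
  [Field K] [Algebra M K] [Algebra E K] [IsScalarTower E M K] {N : ℕ}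

instance : IsScalarTower (𝓞 M) (SN M N) K := IsScalarTower.of_algebraMap_eq fun c => by
  rw [IsScalarTower.algebraMap_apply (𝓞 M) M K]
  rfl

instance : IsScalarTower (SN M N) M K := IsScalarTower.of_algebraMap_eq fun c => rfl

/-- The charts over the ring of `N`-integers are smooth. -/
theorem smooth_SN (hN : N ≠ 0) {S : Set K}
    (hs : Algebra.Smooth (𝓞 M) (Algebra.adjoin (𝓞 M) S)) :
    Algebra.Smooth (SN M N) (Algebra.adjoin (SN M N) S) := by
  classical
  have hNM : (N : M) ≠ 0 := Nat.cast_ne_zero.2 hN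
  have hNK : (N : K) ≠ 0 := by
    have := (map_ne_zero (algebraMap M K)).2 hNM
    rwa [map_natCast] at this
  have hloc := SN_loc (L := M) hN
  set A := Algebra.adjoin (𝓞 M) S with hA
  set A' := Algebra.adjoin (SN M N) S with hA'
  have hAA : ∀ y ∈ A, y ∈ A' := by
    intro y hy
    induction hy using Algebra.adjoin_induction with
    | mem y hy => exact Algebra.subset_adjoin hy
    | algebraMap o =>
      rw [IsScalarTower.algebraMap_apply (𝓞 M) (SN M N) K]
      exact Subalgebra.algebraMap_mem _ _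
    | add x y _ _ hx hy => exact Subalgebra.add_mem _ hx hy
    | mul x y _ _ hx hy => exact Subalgebra.mul_mem _ hx hy
  have hNA : ∀ n : ℕ, (N : K) ^ n ∈ A := fun n => pow_mem (natCast_mem _ _) n
  have hden : ∀ y ∈ A', ∃ n : ℕ, (N : K) ^ n * y ∈ A := by
    intro y hy
    induction hy using Algebra.adjoin_induction with
    | mem y hy => exact ⟨0, by rw [pow_zero, one_mul]; exact Algebra.subset_adjoin hy⟩
    | algebraMap c =>
      obtain ⟨n, a, ha⟩ := c.2
      refine ⟨n, ?_⟩
      have h1 := congrArg (algebraMap M K) ha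
      rw [map_mul, map_pow, map_natCast] at h1
      have h2 : (N : K) ^ n * algebraMap (SN M N) K c = algebraMap (𝓞 M) K a := by
        rw [IsScalarTower.algebraMap_apply (𝓞 M) M K]
        exact h1
      rw [h2]
      exact Subalgebra.algebraMap_mem _ _
    | add x y _ _ hx hy =>
      obtain ⟨n, hn⟩ := hx
      obtain ⟨m, hm⟩ := hy
      refine ⟨n + m, ?_⟩
      have e : (N : K) ^ (n + m) * (x + y) =
          ((N : K) ^ n * x) * (N : K) ^ m + ((N : K) ^ m * y) * (N : K) ^ n := by ring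
      rw [e]
      exact add_mem (mul_mem hn (hNA m)) (mul_mem hm (hNA n))
    | mul x y _ _ hx hy =>
      obtain ⟨n, hn⟩ := hx
      obtain ⟨m, hm⟩ := hy
      refine ⟨n + m, ?_⟩
      have e : (N : K) ^ (n + m) * (x * y) = ((N : K) ^ n * x) * ((N : K) ^ m * y) := by ring
      rw [e]
      exact mul_mem hn hm
  let ι : A →+* A' :=
    { toFun := fun y => ⟨y.1, hAA _ y.2⟩
      map_one' := rfl
      map_mul' := fun _ _ => rfl
      map_zero' := rfl
      map_add' := fun _ _ => rfl }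
  let _ : Algebra A A' := ι.toAlgebra
  let _ : Algebra (𝓞 M) A' := ((algebraMap (SN M N) A').comp
    (algebraMap (𝓞 M) (SN M N))).toAlgebra
  have ht1 : IsScalarTower (𝓞 M) (SN M N) A' := IsScalarTower.of_algebraMap_eq fun _ => rfl
  have ht2 : IsScalarTower (𝓞 M) A A' := IsScalarTower.of_algebraMap_eq fun o => by
    apply Subtype.ext
    change algebraMap (SN M N) K (algebraMap (𝓞 M) (SN M N) o) = algebraMap (𝓞 M) K o
    rw [← IsScalarTower.algebraMap_apply]
  have hNinv : ((N : K))⁻¹ ∈ A' := by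
    have h1 : ((N : M))⁻¹ ∈ SN M N := ⟨1, 1, by
      rw [pow_one, mul_inv_cancel₀ hNM]
      exact (map_one (algebraMap (𝓞 M) M)).symm⟩
    have h2 : ((N : K))⁻¹ = algebraMap (SN M N) K ⟨_, h1⟩ := by
      change _ = algebraMap M K ((N : M))⁻¹
      rw [map_inv₀, map_natCast]
    rw [h2]
    exact Subalgebra.algebraMap_mem _ _
  let f : A := ⟨(N : K), natCast_mem _ _⟩
  have hAw : IsLocalization.Away f A' := by
    refine (isLocalization_iff _ _).2 ⟨?_, ?_, ?_⟩
    · rintro ⟨_, m, rfl⟩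
      refine isUnit_iff_exists_inv.2 ⟨⟨(N : K)⁻¹, hNinv⟩ ^ m, ?_⟩
      apply Subtype.ext
      change (N : K) ^ m * ((N : K)⁻¹) ^ m = 1
      rw [← mul_pow, mul_inv_cancel₀ hNK, one_pow]
    · intro z
      obtain ⟨m, hm⟩ := hden z z.2
      refine ⟨⟨⟨_, hm⟩, ⟨f ^ m, m, rfl⟩⟩, ?_⟩
      apply Subtype.ext
      change (z : K) * (N : K) ^ m = (N : K) ^ m * z
      ring
    · intro x y hxy
      refine ⟨1, ?_⟩
      have h1 := congrArg (fun z : A' => (z : K)) hxy
      have h2 : x = y := Subtype.ext h1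
      rw [h2]
  have h1 : Algebra.Smooth A A' := Algebra.Smooth.of_isLocalization_Away f
  have h2 : Algebra.Smooth (𝓞 M) A' := Algebra.Smooth.comp (𝓞 M) A A'
  have h3 : Algebra.FiniteType (𝓞 M) (SN M N) := by
    have : IsLocalization.Away (N : 𝓞 M) (SN M N) := hloc
    have := IsLocalization.Away.finitePresentation (S := SN M N) (N : 𝓞 M)
    infer_instance
  have h4 : Algebra.FinitePresentation (SN M N) A' :=
    Algebra.FinitePresentation.of_restrict_scalars_finitePresentation (𝓞 M) (SN M N) A'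
  have h5 : Algebra.FormallySmooth (SN M N) A' :=
    Algebra.FormallySmooth.localization_base (R := 𝓞 M) (Submonoid.powers (N : 𝓞 M))
  exact ⟨h5, h4⟩

/-- Wild automorphisms over the rings of `N`-integers. -/
lemma isW_dn (hN : N ≠ 0) {𝔓 : Ideal (SN M N)} (h𝔓 : 𝔓.IsMaximal) {g : M ≃ₐ[E] M} (hg1 : g ≠ 1)
    (hg : Wild (TN E M N) g 𝔓) : (dn 𝔓).IsMaximal ∧ (N : 𝓞 M) ∉ dn 𝔓 ∧ IsW E (dn 𝔓) g := by
  have h0 : 𝔓 ≠ ⊥ := by
    rintro rfl
    apply hg1
    apply TT_faithful g
    intro o
    have h1 := hg.1 (algebraMap (𝓞 M) (SN M N) o)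
    rw [Ideal.mem_bot, sub_eq_zero] at h1
    have h2 := congrArg Subtype.val h1
    apply RingOfIntegers.coe_injective
    exact h2
  have hp := h𝔓.isPrime
  refine ⟨dn_max hN h𝔓 h0, dn_N hN 𝔓, hg1, fun o => ?_, fun o ho => ?_⟩
  · exact ⟨TT E M g o - o, hg.1 (algebraMap (𝓞 M) (SN M N) o), rfl⟩
  · exact ⟨TT E M g o - o, dn_sq hN h𝔓 h0 (hg.2 (algebraMap (𝓞 M) (SN M N) o) ho), rfl⟩

end

end Pool.Agent.Zk15.MX
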