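import Pool.Agent.Zk15.Mx11

/-!
# Products over the rings of `N`-integers: the models
-/

set_option autoImplicit false
set_option linter.unusedVariables false
set_option linter.unusedSectionVars false
set_option linter.overlappingInstances false

open scoped Pointwise

open AlgebraicGeometry CategoryTheory CategoryTheory.Limits MvPolynomial NumberField
  Pool.Agent.W418

namespace Pool.Agent.Zk15.MX

open Pool.Agent.Y223.G Pool.Agent.Zk15
open Pool.Agent.R383.TM (WR WR_s WR_e WR_o WR_z FIX WD Wild low_mem WWD tm_good IsW)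

variable {E M F K : Type} [Field E] [NumberField E] [Field M] [NumberField M] [Algebra E M]
  [Field F] [Algebra E F] [Field K] [Algebra M K] [Algebra E K] [IsScalarTower E M K]
  [Algebra F K] [IsScalarTower E F K]

/-- The field of fractions of the ring of `N`-integers. -/
theorem SN_frac {N : ℕ} (hN : N ≠ 0) : IsFractionRing (SN M N) M := by
  have h1 := SN_loc (L := M) hN
  exact IsFractionRing.isFractionRing_of_isDomain_of_isLocalization
    (Submonoid.powers (N : 𝓞 M)) (SN M N) M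

/-- **Flat models of products.** -/
theorem mx_N [IsGalois E M] {N' : ℕ} (hN' : N' ≠ 0)
    (hin : ∀ 𝔓 : Ideal (𝓞 M), 𝔓.IsMaximal → (N' : 𝓞 M) ∉ 𝔓 → ∀ p : ℕ, p.Prime →
      (p : 𝓞 M) ∈ 𝔓 → ¬ p ^ 2 ∣ Nat.card (Pool.Agent.Y223.G.inert E 𝔓))
    {n : ℕ} (φ : (M ≃ₐ[E] M) →* ((Fin n → ℤ) ≃ₗ[ℤ] (Fin n → ℤ))) {P : Set (Fin n → ℤ)}
    {V : Set ((Fin n → ℤ) × Module.Basis (Fin n) ℤ (Fin n → ℤ))} (hSP : SP P V)
    (hPf : P.Finite) (hPn : P.Nonempty) (hVf : V.Finite) (hφ : ∀ g, ∀ m ∈ P, φ g m ∈ P)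
    (ρ : (M ≃ₐ[E] M) →* (K ≃ₐ[E] K))
    (hρ : ∀ g c, ρ g (algebraMap M K c) = algebraMap M K (g c))
    (hfix : ∀ x, (∀ g, ρ g x = x) ↔ ∃ y : F, algebraMap F K y = x)
    {x : Fin n → K} {r : ℕ} {h : Fin (r + 1) → K} (h0 : ∀ b, h b ≠ 0)
    (hx : AlgebraicIndependent (IntermediateField.adjoin M (Set.range fun b => h b / h 0)) x)
    (hgen : IntermediateField.adjoin M (Set.range x ∪ Set.range fun b => h b / h 0) = ⊤)
    (hρx : ∀ g m, ρ g (mono x m) = mono x (φ g m))
    (hsm : ∀ a, Algebra.Smooth (𝓞 M) (Algebra.adjoin (𝓞 M) (Set.range fun b => h b / h a)))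
    (hst : ∀ g a, ρ g (h a) ∈ Submodule.span (𝓞 M) (Set.range h))
    (hw : ∀ 𝔓 : Ideal (𝓞 M), 𝔓.IsMaximal → (N' : 𝓞 M) ∉ 𝔓 → ∀ g, IsW E 𝔓 g →
      ∀ b, ρ g (h b) = h b)
    {s : ℕ} {A : Type} [CommRing A] [Algebra E A] (u : Fin (s + 1) → F)
    (hseg : Submodule.span M (Set.range fun i => algebraMap F K (u i)) =
      Submodule.span M {y | ∃ μ ∈ P, ∃ b, y = mono x μ * h b})
    (π : MvPolynomial (Fin (s + 1)) E →ₐ[E] A)
    (hπ : Function.Surjective π) (𝒜 : ℕ → Submodule E A) [GradedAlgebra 𝒜]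
    (h𝒜 : ∀ d, 𝒜 d = (homogeneousSubmodule (Fin (s + 1)) E d).map π.toLinearMap)
    (hu : ∀ d, ∀ P ∈ homogeneousSubmodule (Fin (s + 1)) E d, π P = 0 ↔ aeval u P = 0)
    {Y : Scheme.{0}} (f : Y ⟶ Spec (CommRingCat.of E)) (i : Y ≅ Proj 𝒜)
    (hi : i.hom ≫ GO.projStr 𝒜 = f) :
    ∃ (X : Scheme.{0}) (g : X ⟶ Spec (CommRingCat.of (𝓞 E))),
      IsProper g ∧ Flat g ∧
      (∀ y : X, ¬ ringChar (IsLocalRing.ResidueField (X.presheaf.stalk y)) ∣ N' →
        IsRegularLocalRing (X.presheaf.stalk y)) ∧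
      ∃ e : pullback g (Spec.map (CommRingCat.ofHom (algebraMap (𝓞 E) E))) ≅ Y,
        e.hom ≫ f = pullback.snd g (Spec.map (CommRingCat.ofHom (algebraMap (𝓞 E) E))) := by
  classical
  set L := IntermediateField.adjoin M (Set.range fun b => h b / h 0) with hL
  have hxM : AlgebraicIndependent M x :=
    hx.restrictScalars (algebraMap M L).injective
  have hx0 : ∀ i, x i ≠ 0 := hxM.ne_zero
  have hdE : IsDedekindDomain (SN E N') := SN_ded hN'
  have hdM : IsDedekindDomain (SN M N') := SN_ded hN'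
  have hfrM : IsFractionRing (SN M N') M := SN_frac hN'
  have hGE := ge_N (N := N') Pool.Agent.Y223.G.all_TAMC hN' ρ hρ hin
  have hli : LinearIndependent (SN M N') (mono x) :=
    (mono_li hxM).restrict_scalars' (SN M N')
  obtain ⟨N, m, z, W, hN, hSPN, hz0, hstz, hzD, hPz, hch, hWD⟩ := wd_main (X := mono x) hGE φ
    (mono_zero x) (mono_add hx0) hli (fun g μ => hρx g μ) hSP hPf hPn hVf hφ
  let κ := Fin N → Fin (r + 1)
  have hne : 0 < Fintype.card (Fin (m + 1) × κ) := Fintype.card_pos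
  obtain ⟨q, hq⟩ : ∃ q, Fintype.card (Fin (m + 1) × κ) = q + 1 :=
    ⟨_, (Nat.succ_pred_eq_of_pos hne).symm⟩
  let ε : Fin (q + 1) ≃ Fin (m + 1) × κ := (Fintype.equivFinOfCardEq hq).symm
  have hv0 : ∀ a : κ, ver h a ≠ 0 := fun a => Finset.prod_ne_zero_iff.2 fun k _ => h0 _
  have hzK : ∀ i, z i ∈ IntermediateField.adjoin M (Set.range x) := by
    intro i
    have h1 : AddSubgroup.closure (mono x '' MS N P) ≤
        (IntermediateField.adjoin M (Set.range x)).toSubfield.toAddSubgroup := by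
      rw [AddSubgroup.closure_le]
      rintro _ ⟨μ, -, rfl⟩
      exact mono_mem x μ
    exact h1 (hzD i)
  have hhL : ∀ b a, h b / h a ∈ L := by
    intro b a
    have h1 : h b / h 0 ∈ L := IntermediateField.subset_adjoin _ _ ⟨b, rfl⟩
    have h2 : h a / h 0 ∈ L := IntermediateField.subset_adjoin _ _ ⟨a, rfl⟩
    have h3 := L.div_mem h1 h2
    rwa [div_div_div_cancel_right₀ (h0 0)] at h3
  have hvL : ∀ b a : κ, ver h b / ver h a ∈ L := by
    intro b a
    unfold ver
    rw [← Finset.prod_div_distrib]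
    exact prod_mem fun k _ => hhL _ _
  have hsmv : ∀ a : κ, Algebra.Smooth (SN M N') (Cc (SN M N') (fun b : κ => ver h b) a) :=
    fun a => smooth_SN hN' (ver_smooth h0 hsm hN a)
  have hspan : ∀ y ∈ Submodule.span (𝓞 M) (Set.range h),
      y ∈ Submodule.span (SN M N') (Set.range h) :=
    fun y hy => Submodule.span_subset_span (𝓞 M) (SN M N') _ hy
  have hstv : ∀ g (a : κ), ρ g (ver h a) ∈
      Submodule.span (SN M N') (Set.range (fun b : κ => ver h b)) := by
    intro g a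
    unfold ver
    rw [map_prod]
    exact prod_span fun k => hspan _ (hst g _)
  have hwv : ∀ 𝔓 : Ideal (SN M N'), 𝔓.IsMaximal → ∀ g, g ≠ 1 → Wild (TN E M N') g 𝔓 →
      ∀ b : κ, RN E K N' ρ g (ver h b) = ver h b := by
    intro 𝔓 h𝔓 g hg1 hg b
    obtain ⟨w1, w2, w3⟩ := isW_dn hN' h𝔓 hg1 hg
    change ρ g (ver h b) = ver h b
    unfold ver
    rw [map_prod]
    exact Finset.prod_congr rfl fun k _ => hw (dn 𝔓) w1 w2 g w3 _
  have hWD' : WD (SN E N') (SN M N') K (M ≃ₐ[E] M) (RN E K N' ρ) (TN E M N')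
      (zp ε z (fun b : κ => ver h b)) (fun _ => 1) (fun 𝔓 => wp ε (W 𝔓)) := by
    refine wd_prod ε hWD hz0 hv0 hsmv (fun g a => hstv g a) hwv ?_
    intro 𝔓 i a
    refine ldWR (M := M) hx hzK ?_ 𝔓 _ _ i
    rintro _ ⟨b, rfl⟩
    exact hvL b a
  have hzp0 : ∀ j, zp ε z (fun b : κ => ver h b) j ≠ 0 := fun j =>
    mul_ne_zero (hz0 _) (hv0 _)
  have hadj : IntermediateField.adjoin M {y : K | ∃ (_ : Unit) (j : Fin (q + 1)),
      y = zp ε z (fun b : κ => ver h b) j / zp ε z (fun b : κ => ver h b) 0} = ⊤ := by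
    rw [eq_top_iff, ← hgen, IntermediateField.adjoin_le_iff]
    set L' := IntermediateField.adjoin M {y : K | ∃ (_ : Unit) (j : Fin (q + 1)),
      y = zp ε z (fun b : κ => ver h b) j / zp ε z (fun b : κ => ver h b) 0} with hL'
    have hzz : ∀ j j', zp ε z (fun b : κ => ver h b) j /
        zp ε z (fun b : κ => ver h b) j' ∈ L' := by
      intro j j'
      have h1 : zp ε z (fun b : κ => ver h b) j / zp ε z (fun b : κ => ver h b) 0 ∈ L' :=
        IntermediateField.subset_adjoin _ _ ⟨(), j, rfl⟩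
      have h2 : zp ε z (fun b : κ => ver h b) j' / zp ε z (fun b : κ => ver h b) 0 ∈ L' :=
        IntermediateField.subset_adjoin _ _ ⟨(), j', rfl⟩
      have h3 := L'.div_mem h1 h2
      rwa [div_div_div_cancel_right₀ (hzp0 0)] at h3
    rintro y (⟨i, rfl⟩ | ⟨b, rfl⟩)
    · refine gen_torus hSP hPn hSPN hx0 hPz L' (fun j j' => ?_) i
      have h1 := hzz (ε.symm (j, fun _ => 0)) (ε.symm (j', fun _ => 0))
      rw [zp_div] at h1
      simp only [Equiv.apply_symm_apply] at h1
      rwa [div_self (hv0 _), mul_one] at h1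
    · obtain ⟨N', rfl⟩ : ∃ N', N = N' + 1 := ⟨N - 1, by omega⟩
      have h1 := hzz (ε.symm (0, (Fin.cons b fun _ => 0))) (ε.symm (0, fun _ => 0))
      rw [zp_div] at h1
      simp only [Equiv.apply_symm_apply] at h1
      rw [div_self (hz0 _), one_mul] at h1
      have h2 : ver h (Fin.cons b fun _ => 0 : Fin (N' + 1) → Fin (r + 1)) /
          ver h (fun _ => 0 : Fin (N' + 1) → Fin (r + 1)) = h b / h 0 := by
        unfold ver
        rw [Fin.prod_univ_succ, Fin.prod_univ_succ]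
        simp only [Fin.cons_zero, Fin.cons_succ]
        rw [mul_div_mul_right]
        exact Finset.prod_ne_zero_iff.2 fun k _ => h0 _
      rw [h2] at h1
      exact h1
  have hlin : ∀ g j, RN E K N' ρ g (zp ε z (fun b : κ => ver h b) j) ∈
      Submodule.span (SN M N') (Set.range (zp ε z (fun b : κ => ver h b))) := by
    intro g j
    obtain ⟨i, hi⟩ := hstz g (ε j).1
    have h1 : RN E K N' ρ g (zp ε z (fun b : κ => ver h b) j) =
        z i * ρ g (ver h (ε j).2) := by
      rw [← hi]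
      exact map_mul (ρ g) _ _
    rw [h1]
    have h2 := hstv g (ε j).2
    have h3 : ∀ y ∈ Submodule.span (SN M N') (Set.range (fun b : κ => ver h b)),
        z i * y ∈ Submodule.span (SN M N') (Set.range (zp ε z (fun b : κ => ver h b))) := by
      intro y hy
      induction hy using Submodule.span_induction with
      | mem y hy =>
        obtain ⟨b, rfl⟩ := hy
        refine Submodule.subset_span ⟨ε.symm (i, b), ?_⟩
        unfold zp
        simp only [Equiv.apply_symm_apply]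
      | zero => rw [mul_zero]; exact zero_mem _
      | add a b _ _ ha hb => rw [mul_add]; exact add_mem ha hb
      | smul c a _ ha => rw [mul_smul_comm]; exact Submodule.smul_mem _ _ ha
    exact h3 _ h2
  have hrg : ∀ j, IsRegularRing (Algebra.adjoin (SN M N') (Set.range fun l =>
      zp ε z (fun b : κ => ver h b) l / zp ε z (fun b : κ => ver h b) j)) := by
    intro j
    rw [adj_prod hz0 hv0]
    refine reg_sup _ _ (hch _) (hsmv _) (ldK (M := M) hx ?_ ?_)
    · rintro _ ⟨i, rfl⟩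
      exact div_mem (hzK _) (hzK _)
    · rintro _ ⟨b, rfl⟩
      exact hvL _ _
  have hspz : Submodule.span M (Set.range (zp ε z (fun b : κ => ver h b))) =
      Submodule.span M (mono x '' MS N P) * (Submodule.span M (Set.range h)) ^ N := by
    have h1 : Set.range (zp ε z (fun b : κ => ver h b)) =
        Set.range z * Set.range (fun b : κ => ver h b) := by
      ext y
      rw [Set.mem_mul]
      constructor
      · rintro ⟨j, rfl⟩
        exact ⟨_, ⟨(ε j).1, rfl⟩, _, ⟨(ε j).2, rfl⟩, rfl⟩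
      · rintro ⟨_, ⟨i, rfl⟩, _, ⟨b, rfl⟩, rfl⟩
        refine ⟨ε.symm (i, b), ?_⟩
        unfold zp
        simp only [Equiv.apply_symm_apply]
    have h2 : Submodule.span M (Set.range z) = Submodule.span M (mono x '' MS N P) := by
      apply le_antisymm
      · rw [Submodule.span_le]
        rintro _ ⟨i, rfl⟩
        have h4 : AddSubgroup.closure (mono x '' MS N P) ≤
            (Submodule.span M (mono x '' MS N P)).toAddSubgroup := by
          rw [AddSubgroup.closure_le]
          exact Submodule.subset_span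
        exact h4 (hzD i)
      · rw [Submodule.span_le]
        rintro _ ⟨μ, hμ, rfl⟩
        exact Submodule.subset_span (hPz μ hμ)
    rw [h1, ← Submodule.span_mul_span, h2, span_ver]
  have hS : {y | ∃ μ ∈ P, ∃ b, y = mono x μ * h b} = (mono x '' P) * Set.range h := by
    ext y
    rw [Set.mem_mul]
    constructor
    · rintro ⟨μ, hμ, b, rfl⟩
      exact ⟨_, ⟨μ, hμ, rfl⟩, _, ⟨b, rfl⟩, rfl⟩
    · rintro ⟨_, ⟨μ, hμ, rfl⟩, _, ⟨b, rfl⟩, rfl⟩
      exact ⟨μ, hμ, b, rfl⟩
  refine flat_gen hN' (ghl_gen hN' hGE hfix hzp0 hadj hlin hrg) hWD' hN u ?_ π hπ 𝒜 h𝒜 hu f i hi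
  rw [← Submodule.span_pow, hseg, hS, ← Submodule.span_mul_span, hspz, mul_pow,
    Submodule.span_pow, mono_pow hx0]

end Pool.Agent.Zk15.MX
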