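import Pool.Agent.Zk15.Mx1
import Pool.Agent.Zk15.Fin

/-!
# Linear disjointness
-/

set_option autoImplicit false

namespace Pool.Agent.Zk15.MX

open Pool.Agent.Y223.G Pool.Agent.Zk15
open scoped IntermediateField.algebraAdjoinAdjoin

section fields

variable {M K : Type} [Field M] [Field K] [Algebra M K]

/-- Families in `L` independent over `M` are independent over `M(x)`, if `x` is algebraically
independent over `L`. -/
theorem li_adjoin (L : IntermediateField M K) {n : ℕ} {x : Fin n → K}
    (hx : AlgebraicIndependent L x) {ι : Type} {b : ι → K} (hbL : ∀ i, b i ∈ L)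
    (hb : LinearIndependent M b) :
    LinearIndependent (IntermediateField.adjoin M (Set.range x)) b := by
  classical
  have h1 : LinearIndependent (Algebra.adjoin M (Set.range x)) b := by
    rw [linearIndependent_iff']
    intro s g hg i hi
    have h2 : ∀ i, ∃ p : MvPolynomial (Fin n) M, MvPolynomial.aeval x p = (g i : K) := by
      intro i
      have h3 : (g i : K) ∈ (MvPolynomial.aeval x : MvPolynomial (Fin n) M →ₐ[M] K).range := by
        rw [← Algebra.adjoin_range_eq_range_aeval]
        exact (g i).2
      exact h3
    choose p hp using h2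
    let b' : ι → L := fun i => ⟨b i, hbL i⟩
    let Q : MvPolynomial (Fin n) L := ∑ i ∈ s, MvPolynomial.C (b' i) *
      MvPolynomial.map (algebraMap M L) (p i)
    have hQ : MvPolynomial.aeval x Q = 0 := by
      simp only [Q]
      rw [map_sum, ← hg]
      refine Finset.sum_congr rfl fun i _ => ?_
      rw [map_mul, MvPolynomial.aeval_C, MvPolynomial.aeval_map_algebraMap, hp, mul_comm]
      rfl
    have hQ0 : Q = 0 := by
      rw [AlgebraicIndependent] at hx
      apply hx
      rw [hQ, map_zero]
    have h4 : p i = 0 := by
      ext m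
      have h5 := congrArg (MvPolynomial.coeff m) hQ0
      simp only [Q] at h5
      rw [MvPolynomial.coeff_sum, MvPolynomial.coeff_zero] at h5
      have h6 : ∑ i ∈ s, MvPolynomial.coeff m (p i) • b i = 0 := by
        have h7 := congrArg (fun y : L => (y : K)) h5
        simp only [MvPolynomial.coeff_C_mul, MvPolynomial.coeff_map] at h7
        rw [← map_zero (algebraMap L K)]
        have h8 : ((∑ i ∈ s, b' i * algebraMap M L (MvPolynomial.coeff m (p i)) : L) : K) =
            ∑ i ∈ s, MvPolynomial.coeff m (p i) • b i := by
          rw [AddSubmonoidClass.coe_finsetSum]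
          refine Finset.sum_congr rfl fun i _ => ?_
          rw [Algebra.smul_def, mul_comm]
          rfl
        rw [← h8]
        exact h7
      rw [MvPolynomial.coeff_zero]
      exact (linearIndependent_iff'.1 hb) s _ h6 i hi
    apply Subtype.ext
    rw [← hp, h4, map_zero]
    rfl
  exact (LinearIndependent.iff_fractionRing (Algebra.adjoin M (Set.range x))
    (IntermediateField.adjoin M (Set.range x))).1 h1

/-- The fields are linearly disjoint. -/
theorem ld_K (L : IntermediateField M K) {n : ℕ} {x : Fin n → K}
    (hx : AlgebraicIndependent L x) :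
    (IntermediateField.adjoin M (Set.range x)).toSubalgebra.LinearDisjoint L.toSubalgebra := by
  let b := Module.Basis.ofVectorSpace M L
  have h1 : LinearIndependent M (fun i => (b i : K)) :=
    b.linearIndependent.map' L.val.toLinearMap (LinearMap.ker_eq_bot.2 Subtype.val_injective)
  exact Subalgebra.LinearDisjoint.of_basis_right _ _ b
    (li_adjoin L hx (fun i => (b i).2) h1)

/-- The graded rings with coefficients in a subfield. -/
noncomputable def LPs (K₀ : IntermediateField M K) : Subalgebra M (LP K) where
  carrier := {f | ∀ d, f.coeff d ∈ K₀}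
  mul_mem' := by
    intro f g hf hg e
    have h1 : (f * g).coeff e = ∑ d ∈ f.coeff.support, f.coeff d * g.coeff (e - d) := by
      conv_lhs => rw [eq_sum_hm f]
      rw [Finset.sum_mul, AddMonoidAlgebra.coeff_sum, Finsupp.finsetSum_apply]
      exact Finset.sum_congr rfl fun d _ => coeff_hm_mul _ _ _ _
    rw [h1]
    exact sum_mem fun d _ => K₀.mul_mem (hf d) (hg _)
  add_mem' := by
    intro f g hf hg e
    rw [AddMonoidAlgebra.coeff_add, Finsupp.add_apply]
    exact K₀.add_mem (hf e) (hg e)
  algebraMap_mem' := by
    intro r e
    rw [algebraMap_LP, coeff_hm]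
    split_ifs
    · exact K₀.algebraMap_mem r
    · exact K₀.zero_mem

lemma hm_LPs {K₀ : IntermediateField M K} {d : ℤ} {y : K} (hy : y ∈ K₀) : hm d y ∈ LPs K₀ := by
  intro e
  rw [coeff_hm]
  split_ifs
  · exact hy
  · exact K₀.zero_mem

/-- The constants. -/
noncomputable def cst (O K : Type) [CommRing O] [Field K] [Algebra O K] : K →ₐ[O] LP K where
  toFun y := hm 0 y
  map_one' := rfl
  map_mul' a b := by rw [hm_mul, add_zero]
  map_zero' := hm_zero 0
  map_add' a b := hm_add 0 a b
  commutes' r := (algebraMap_LP r).symm

lemma cst_apply {O : Type} [CommRing O] [Algebra O K] (y : K) : cst O K y = hm 0 y := rfl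

/-- The graded version. -/
theorem ld_LP (L : IntermediateField M K) {n : ℕ} {x : Fin n → K}
    (hx : AlgebraicIndependent L x) :
    (LPs (IntermediateField.adjoin M (Set.range x))).LinearDisjoint
      (L.toSubalgebra.map (cst M K)) := by
  classical
  let b := Module.Basis.ofVectorSpace M L
  have h1 : LinearIndependent M (fun i => (b i : K)) :=
    b.linearIndependent.map' L.val.toLinearMap (LinearMap.ker_eq_bot.2 Subtype.val_injective)
  have h2 := li_adjoin L hx (fun i => (b i).2) h1
  have hcinj : Function.Injective (cst M K) := by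
    intro y y' h
    rw [cst_apply, cst_apply] at h
    have h3 := congrArg (fun f : LP K => f.coeff 0) h
    simpa only [coeff_hm_same] using h3
  let e : L.toSubalgebra ≃ₐ[M] L.toSubalgebra.map (cst M K) :=
    L.toSubalgebra.equivMapOfInjective (cst M K) hcinj
  let b' : Module.Basis _ M (L.toSubalgebra.map (cst M K)) := b.map e.toLinearEquiv
  refine Subalgebra.LinearDisjoint.of_basis_right _ _ b' ?_
  rw [linearIndependent_iff']
  intro s g hg i hi
  apply Subtype.ext
  ext d
  have h3 : ∑ j ∈ s, (g j : LP K) * hm 0 (b j : K) = 0 := hg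
  have h4 := congrArg (fun f : LP K => f.coeff d) h3
  rw [AddMonoidAlgebra.coeff_sum, Finsupp.finsetSum_apply] at h4
  have h5 : ∀ j, ((g j : LP K) * hm 0 (b j : K)).coeff d = (g j : LP K).coeff d * (b j : K) := by
    intro j
    rw [mul_comm, coeff_hm_mul, sub_zero, mul_comm]
  simp only [h5] at h4
  have h6 := (linearIndependent_iff'.1 h2) s (fun j => ⟨(g j : LP K).coeff d, (g j).2 d⟩) h4 i hi
  exact congrArg Subtype.val h6

end fields

end Pool.Agent.Zk15.MX
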