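import Pool.Agent.Zk15.Mx2
import Pool.Agent.Zk15.Del

/-!
# Weighted blowups of products with a smooth factor
-/

set_option autoImplicit false
set_option linter.unusedSectionVars false
set_option linter.overlappingInstances false

namespace Pool.Agent.Zk15.MX

open Pool.Agent.Y223.G Pool.Agent.Zk15
open Pool.Agent.Y86.G5 (im mem_im)
open Pool.Agent.R383.TM (WR WR_s WR_e WR_o WR_z FIX WD Wild low_mem)

variable {k O K G : Type} [CommRing k] [CommRing O] [Field K] [Group G] [Algebra k O]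
  [Algebra O K] [Algebra k K] [IsScalarTower k O K]

/-- The subalgebra over `O`. -/
def upO (R : Subalgebra k (LP K)) (h : ∀ a : O, hm 0 (algebraMap O K a) ∈ R) :
    Subalgebra O (LP K) where
  carrier := R
  mul_mem' := R.mul_mem
  add_mem' := R.add_mem
  algebraMap_mem' := h

lemma mem_upO {R : Subalgebra k (LP K)} {h : ∀ a : O, hm 0 (algebraMap O K a) ∈ R} {f : LP K} :
    f ∈ upO R h ↔ f ∈ R := Iff.rfl

lemma reg_upO {R : Subalgebra k (LP K)} {h : ∀ a : O, hm 0 (algebraMap O K a) ∈ R} :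
    IsRegularRing (upO R h) ↔ IsRegularRing R := by
  let e : upO R h ≃+* R :=
    { toFun := fun x => ⟨x.1, x.2⟩
      invFun := fun x => ⟨x.1, x.2⟩
      left_inv := fun _ => rfl
      right_inv := fun _ => rfl
      map_mul' := fun _ _ => rfl
      map_add' := fun _ _ => rfl }
  exact ⟨fun h => IsRegularRing.of_ringEquiv e, fun h => IsRegularRing.of_ringEquiv e.symm⟩

/-- The ring of the chart `h a ≠ 0`. -/
def Cc (O : Type) [CommRing O] [Algebra O K] {κ : Type} (h : κ → K) (a : κ) : Subalgebra O K :=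
  Algebra.adjoin O (Set.range fun b => h b / h a)

section prod

variable {m q : ℕ} {κ : Type} (ε : Fin (q + 1) ≃ Fin (m + 1) × κ) (z : Fin (m + 1) → K)
  (h : κ → K)

/-- The coordinates of the product. -/
def zp (j : Fin (q + 1)) : K := z (ε j).1 * h (ε j).2

/-- The weights. -/
def wp (W : Fin (m + 1) → ℕ) (j : Fin (q + 1)) : ℕ := W (ε j).1

variable {ε z h} {𝔓 : Ideal O} {e : ℕ} {W : Fin (m + 1) → ℕ}

lemma zp_div (j l : Fin (q + 1)) :
    zp ε z h l / zp ε z h j = z (ε l).1 / z (ε j).1 * (h (ε l).2 / h (ε j).2) := by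
  unfold zp
  rw [mul_div_mul_comm]

lemma WRz_le (h0 : ∀ b, h b ≠ 0) (j : Fin (q + 1)) {f : LP K}
    (hf : f ∈ WR k 𝔓 e W z (ε j).1) : f ∈ WR k 𝔓 e (wp ε W) (zp ε z h) j := by
  have h1 : WR k 𝔓 e W z (ε j).1 ≤ WR k 𝔓 e (wp ε W) (zp ε z h) j := by
    unfold WR
    rw [Algebra.adjoin_le_iff]
    rintro y (((rfl | ⟨a, ha, rfl⟩) | ⟨o, rfl⟩) | ⟨i, rfl⟩)
    · exact WR_s
    · exact WR_e ha
    · exact WR_o o
    · have h2 := WR_z (k := k) (𝔓 := 𝔓) (e := e) (W := wp ε W) (z := zp ε z h) (j := j)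
        (ε.symm (i, (ε j).2))
      rw [zp_div] at h2
      unfold wp at h2
      simp only [Equiv.apply_symm_apply] at h2
      rw [div_self (h0 _), mul_one] at h2
      exact h2
  exact h1 hf

lemma Cc_le (z0 : ∀ i, z i ≠ 0) (j : Fin (q + 1)) {y : K} (hy : y ∈ Cc O h (ε j).2) :
    hm 0 y ∈ WR k 𝔓 e (wp ε W) (zp ε z h) j := by
  unfold Cc at hy
  induction hy using Algebra.adjoin_induction with
  | mem y hy =>
    obtain ⟨b, rfl⟩ := hy
    have h2 := WR_z (k := k) (𝔓 := 𝔓) (e := e) (W := wp ε W) (z := zp ε z h) (j := j)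
      (ε.symm ((ε j).1, b))
    rw [zp_div] at h2
    simp only [Equiv.apply_symm_apply] at h2
    rw [div_self (z0 _), one_mul] at h2
    exact low_mem WR_s h2 (by positivity)
  | algebraMap o => exact WR_o o
  | add x y _ _ hx hy => rw [hm_add]; exact Subalgebra.add_mem _ hx hy
  | mul x y _ _ hx hy =>
    have := Subalgebra.mul_mem _ hx hy
    rwa [hm_mul, zero_add] at this

/-- The chart of the product. -/
lemma WR_prod (z0 : ∀ i, z i ≠ 0) (h0 : ∀ b, h b ≠ 0) (j : Fin (q + 1)) :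
    upO (WR k 𝔓 e (wp ε W) (zp ε z h) j) WR_o =
      upO (WR k 𝔓 e W z (ε j).1) WR_o ⊔ (Cc O h (ε j).2).map (cst O K) := by
  apply le_antisymm
  · intro f hf
    have hf' : f ∈ WR k 𝔓 e (wp ε W) (zp ε z h) j := mem_upO.1 hf
    unfold WR at hf'
    have hA : ∀ {g : LP K}, g ∈ WR k 𝔓 e W z (ε j).1 →
        g ∈ upO (WR k 𝔓 e W z (ε j).1) WR_o ⊔ (Cc O h (ε j).2).map (cst O K) := fun {g} hg =>
      (le_sup_left : upO (WR k 𝔓 e W z (ε j).1) WR_o ≤ _) (mem_upO.2 hg)
    induction hf' using Algebra.adjoin_induction with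
    | mem y hy =>
      rcases hy with ((rfl | ⟨a, ha, rfl⟩) | ⟨o, rfl⟩) | ⟨i, rfl⟩
      · exact hA WR_s
      · exact hA (WR_e ha)
      · exact hA (WR_o o)
      · rw [zp_div]
        have h1 : hm ((wp ε W i : ℕ) : ℤ) (z (ε i).1 / z (ε j).1 * (h (ε i).2 / h (ε j).2)) =
            hm (W (ε i).1) (z (ε i).1 / z (ε j).1) * cst O K (h (ε i).2 / h (ε j).2) := by
          rw [cst_apply, hm_mul, add_zero]
          rfl
        rw [h1]
        refine Subalgebra.mul_mem _ (hA (WR_z _)) ?_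
        exact (le_sup_right : (Cc O h (ε j).2).map (cst O K) ≤ _)
          ⟨_, Algebra.subset_adjoin ⟨_, rfl⟩, rfl⟩
    | algebraMap c =>
      rw [algebraMap_LP, IsScalarTower.algebraMap_apply k O K]
      exact hA (WR_o _)
    | add x y hx' hy' hx hy => exact Subalgebra.add_mem _ (hx hx') (hy hy')
    | mul x y hx' hy' hx hy => exact Subalgebra.mul_mem _ (hx hx') (hy hy')
  · apply sup_le
    · intro f hf
      exact mem_upO.2 (WRz_le h0 j (mem_upO.1 hf))
    · rintro _ ⟨y, hy, rfl⟩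
      exact mem_upO.2 (Cc_le z0 j hy)

lemma span_Cc {y : K} (hy : y ∈ Submodule.span O (Set.range h)) (b : κ) : y / h b ∈ Cc O h b := by
  induction hy using Submodule.span_induction with
  | mem y hy =>
    obtain ⟨a, rfl⟩ := hy
    exact Algebra.subset_adjoin ⟨a, rfl⟩
  | zero => rw [zero_div]; exact Subalgebra.zero_mem _
  | add x y _ _ hx hy => rw [add_div]; exact Subalgebra.add_mem _ hx hy
  | smul c x _ hx => rw [smul_div_assoc]; exact Subalgebra.smul_mem _ hx c

end prod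

end Pool.Agent.Zk15.MX
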