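import Pool.Agent.Zk15.Mx3

/-!
# Weighted blowups of products with a smooth factor: the fixed points
-/

set_option autoImplicit false
set_option linter.unusedSectionVars false
set_option linter.overlappingInstances false

namespace Pool.Agent.Zk15.MX

open Pool.Agent.Y223.G Pool.Agent.Zk15
open Pool.Agent.Y86.G5 (im mem_im mem_im' im_mul)
open Pool.Agent.R383.TM (WR WR_s WR_e WR_o WR_z FIX WD Wild low_mem)

variable {k O K G : Type} [CommRing k] [CommRing O] [Field K] [Group G] [Algebra k O]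
  [Algebra O K] [Algebra k K] [IsScalarTower k O K]

section fx

variable {m q : ℕ} {κ : Type} {ε : Fin (q + 1) ≃ Fin (m + 1) × κ} {z : Fin (m + 1) → K}
  {h : κ → K} {𝔓 : Ideal O} {e D : ℕ} {W : Fin (m + 1) → ℕ} {σ : K →+* K} {t : O → O}

lemma fix_le (z0 : ∀ i, z i ≠ 0) (h0 : ∀ b, h b ≠ 0) (hσ : ∀ b, σ (h b) = h b)
    (j : Fin (q + 1)) (Q : Ideal (WR k 𝔓 e (wp ε W) (zp ε z h) j))
    (hFQ : FIX k 𝔓 e D (wp ε W) (zp ε z h) σ t j ≤ Q)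
    (ι : WR k 𝔓 e W z (ε j).1 →+* WR k 𝔓 e (wp ε W) (zp ε z h) j)
    (hι : ∀ f, ((ι f : WR k 𝔓 e (wp ε W) (zp ε z h) j) : LP K) = (f : LP K)) :
    FIX k 𝔓 e D W z σ t (ε j).1 ≤ Ideal.comap ι Q := by
  unfold FIX
  rw [Ideal.span_le]
  rintro f (⟨a, ha, hf⟩ | ⟨a, ha, hf⟩ | ⟨i, i', hf⟩)
  · exact hFQ (Ideal.subset_span (Or.inl ⟨a, ha, (hι f).trans hf⟩))
  · exact hFQ (Ideal.subset_span (Or.inr (Or.inl ⟨a, ha, (hι f).trans hf⟩)))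
  · refine hFQ (Ideal.subset_span (Or.inr (Or.inr
      ⟨ε.symm (i, (ε j).2), ε.symm (i', (ε j).2), (hι f).trans (hf.trans ?_)⟩)))
    unfold wp zp
    simp only [Equiv.apply_symm_apply]
    congr 1
    rw [map_mul, map_mul, hσ]
    have := h0 (ε j).2
    have := z0 (ε j).1
    field_simp

lemma WRz_le' (h0 : ∀ b, h b ≠ 0) (j : Fin (q + 1)) :
    WR k 𝔓 e W z (ε j).1 ≤ WR k 𝔓 e (wp ε W) (zp ε z h) j := fun _ hf => WRz_le h0 j hf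

/-- The elements of positive degree. -/
def Pos (R : Subalgebra k (LP K)) (Q : Ideal R) (d : ℤ) (y : K) : Prop :=
  hm d y ∈ R ∧ (0 < d → hm d y ∈ im R Q)

lemma Pos.zero (R : Subalgebra k (LP K)) (Q : Ideal R) (d : ℤ) : Pos R Q d 0 := by
  unfold Pos
  rw [hm_zero]
  exact ⟨Subalgebra.zero_mem _, fun _ => AddSubmonoid.zero_mem _⟩

lemma Pos.add {R : Subalgebra k (LP K)} {Q : Ideal R} {d : ℤ} {x y : K} (hx : Pos R Q d x)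
    (hy : Pos R Q d y) : Pos R Q d (x + y) := by
  unfold Pos
  rw [hm_add]
  exact ⟨Subalgebra.add_mem _ hx.1 hy.1, fun hd => AddSubmonoid.add_mem _ (hx.2 hd) (hy.2 hd)⟩

lemma Pos.mul {R : Subalgebra k (LP K)} {Q : Ideal R} {d d' : ℤ} {x y : K} (hx : Pos R Q d x)
    (hy : Pos R Q d' y) : Pos R Q (d + d') (x * y) := by
  unfold Pos
  rw [← hm_mul]
  refine ⟨Subalgebra.mul_mem _ hx.1 hy.1, fun hd => ?_⟩
  rcases (show 0 < d ∨ 0 < d' by omega) with h1 | h1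
  · rw [mul_comm]
    exact im_mul hy.1 (hx.2 h1)
  · exact im_mul hx.1 (hy.2 h1)

lemma Pos.of0 {R : Subalgebra k (LP K)} {Q : Ideal R} {d : ℤ} {x : K} (hd : d ≤ 0)
    (hx : hm d x ∈ R) : Pos R Q d x := ⟨hx, fun h => absurd h (not_lt.2 hd)⟩

lemma hposA (h0 : ∀ b, h b ≠ 0) (j : Fin (q + 1)) (Q : Ideal (WR k 𝔓 e (wp ε W) (zp ε z h) j))
    (Q₀ : Ideal (WR k 𝔓 e W z (ε j).1)) (hQ : Q₀.IsPrime)
    (hQ₀ : ∀ f : WR k 𝔓 e W z (ε j).1, f ∈ Q₀ → (f : LP K) ∈ im _ Q)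
    (hle : FIX k 𝔓 e D W z σ t (ε j).1 ≤ Q₀)
    (hfix : ∀ j, ∀ x : WR k 𝔓 e W z j, (∃ n : ℕ, 0 < n ∧ ∃ a : K, (x : LP K) = hm n a) →
      x ∈ (FIX k 𝔓 e D W z σ t j).radical) (d : ℤ) (y : K)
    (hy : hm d y ∈ WR k 𝔓 e W z (ε j).1) :
    Pos (WR k 𝔓 e (wp ε W) (zp ε z h) j) Q d y := by
  refine ⟨WRz_le h0 j hy, fun hd => ?_⟩
  obtain ⟨n, rfl⟩ : ∃ n : ℕ, d = n := ⟨d.toNat, (Int.toNat_of_nonneg hd.le).symm⟩
  have h1 := hfix (ε j).1 ⟨hm n y, hy⟩ ⟨n, by exact_mod_cast hd, y, rfl⟩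
  exact hQ₀ _ ((hQ.radical_le_iff.2 hle) h1)

lemma posZ (z0 : ∀ i, z i ≠ 0) (j : Fin (q + 1)) (Q : Ideal (WR k 𝔓 e (wp ε W) (zp ε z h) j))
    (hp : ∀ d y, hm d y ∈ WR k 𝔓 e W z (ε j).1 →
      Pos (WR k 𝔓 e (wp ε W) (zp ε z h) j) Q d y) (i : Fin (q + 1)) :
    Pos (WR k 𝔓 e (wp ε W) (zp ε z h) j) Q (wp ε W i : ℕ) (zp ε z h i / zp ε z h j) := by
  rw [zp_div, ← add_zero (((wp ε W i : ℕ) : ℤ))]
  exact (hp _ _ (WR_z (ε i).1)).mul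
    (Pos.of0 le_rfl (Cc_le z0 j (Algebra.subset_adjoin ⟨_, rfl⟩)))

lemma keyB (z0 : ∀ i, z i ≠ 0) (j : Fin (q + 1)) (Q : Ideal (WR k 𝔓 e (wp ε W) (zp ε z h) j))
    (hp : ∀ d y, hm d y ∈ WR k 𝔓 e W z (ε j).1 →
      Pos (WR k 𝔓 e (wp ε W) (zp ε z h) j) Q d y)
    (x : LP K) (hx : x ∈ WR k 𝔓 e (wp ε W) (zp ε z h) j) (d : ℤ) :
    Pos (WR k 𝔓 e (wp ε W) (zp ε z h) j) Q d (x.coeff d) := by
  have hx' := hx
  unfold WR at hx'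
  refine graded_ind (k := k) (fun d y => Pos (WR k 𝔓 e (wp ε W) (zp ε z h) j) Q d y)
    (fun d => Pos.zero _ _ _) (fun d x y hx hy => hx.add hy) (fun d d' x y hx hy => hx.mul hy)
    (fun c => ?_) ?_ x hx' d
  · rw [IsScalarTower.algebraMap_apply k O K]
    exact Pos.of0 le_rfl (WR_o _)
  · rintro s (((rfl | ⟨a, ha, rfl⟩) | ⟨o, rfl⟩) | ⟨i, rfl⟩)
    · exact ⟨_, _, rfl, Pos.of0 (by norm_num) WR_s⟩
    · exact ⟨_, _, rfl, hp _ _ (WR_e ha)⟩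
    · exact ⟨_, _, rfl, Pos.of0 le_rfl (WR_o o)⟩
    · exact ⟨_, _, rfl, posZ z0 j Q hp i⟩

end fx

end Pool.Agent.Zk15.MX
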