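import Pool.Agent.Zk15.Mx4

/-!
# Weighted blowups of products with a smooth factor: the fixed points
-/

set_option autoImplicit false
set_option linter.unusedSectionVars false
set_option linter.overlappingInstances false

namespace Pool.Agent.Zk15.MX

open Pool.Agent.Y223.G Pool.Agent.Zk15
open Pool.Agent.Y86.G5 (im mem_im mem_im' im_mul)
open Pool.Agent.R383.TM (WR WR_s WR_e WR_o WR_z FIX WD Wild low_mem)

variable {k O K G : Type} [CommRing k] [CommRing O] [Field K] [Group G] [Algebra k O]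
  [Algebra O K] [Algebra k K] [IsScalarTower k O K]

section fx

variable {m q : ℕ} {κ : Type} {ε : Fin (q + 1) ≃ Fin (m + 1) × κ} {z : Fin (m + 1) → K}
  {h : κ → K} {𝔓 : Ideal O} {e D : ℕ} {W : Fin (m + 1) → ℕ} {σ : K →+* K} {t : O → O}

/-- The inclusion. -/
def inc {A : Type} [CommRing A] [Algebra k A] {R R' : Subalgebra k A} (h : R ≤ R') : R →+* R' :=
  (Subalgebra.inclusion h).toRingHom

lemma coe_inc {A : Type} [CommRing A] [Algebra k A] {R R' : Subalgebra k A} (h : R ≤ R') (f : R) :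
    ((inc h f : R') : A) = (f : A) := rfl

theorem tB (j : Fin (q + 1))
    (x : WR k 𝔓 e (wp ε W) (zp ε z h) j) (H : ∀ Q : Ideal (WR k 𝔓 e (wp ε W) (zp ε z h) j), FIX k 𝔓 e D (wp ε W) (zp ε z h) σ t j ≤ Q → Q.IsPrime → x ∈ Q) :
    x ∈ (FIX k 𝔓 e D (wp ε W) (zp ε z h) σ t j).radical := by
  rw [Ideal.radical_eq_sInf, Submodule.mem_sInf]
  intro Q hQQ
  exact H Q hQQ.1 hQQ.2

theorem tC (z0 : ∀ i, z i ≠ 0) (h0 : ∀ b, h b ≠ 0) (hσ : ∀ b, σ (h b) = h b)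
    (hfix : ∀ j, ∀ x : WR k 𝔓 e W z j, (∃ n : ℕ, 0 < n ∧ ∃ a : K, (x : LP K) = hm n a) →
      x ∈ (FIX k 𝔓 e D W z σ t j).radical) (j : Fin (q + 1))
    (Q : Ideal (WR k 𝔓 e (wp ε W) (zp ε z h) j)) (hFQ : FIX k 𝔓 e D (wp ε W) (zp ε z h) σ t j ≤ Q) (hQ : Q.IsPrime)
    (ι : WR k 𝔓 e W z (ε j).1 →+* WR k 𝔓 e (wp ε W) (zp ε z h) j)
    (hι : ∀ f, ((ι f : WR k 𝔓 e (wp ε W) (zp ε z h) j) : LP K) = (f : LP K)) : ∀ d y, hm d y ∈ WR k 𝔓 e W z (ε j).1 →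
      Pos (WR k 𝔓 e (wp ε W) (zp ε z h) j) Q d y := by
  have hle := fix_le z0 h0 hσ j Q hFQ _ hι
  exact hposA h0 j Q _ (Ideal.comap_isPrime ι Q) (fun f hf => by
      have h3 := mem_im'.2 (Ideal.mem_comap.1 hf)
      rwa [hι] at h3) hle hfix

theorem fix_C (j : Fin (q + 1)) (Q : Ideal (WR k 𝔓 e (wp ε W) (zp ε z h) j))
    (x : WR k 𝔓 e (wp ε W) (zp ε z h) j) (hx : ∃ n : ℕ, 0 < n ∧ ∃ a : K, (x : LP K) = hm n a)
    (key : ∀ d, Pos (WR k 𝔓 e (wp ε W) (zp ε z h) j) Q d ((x : LP K).coeff d)) : x ∈ Q := by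
  obtain ⟨n, hn, y, hxy⟩ := hx
  have h2 := (key n).2 (by exact_mod_cast hn)
  have h3 : (x : LP K).coeff n = y := by rw [hxy, coeff_hm_same]
  have h4 : hm n ((x : LP K).coeff n) = (x : LP K) := by rw [h3, hxy]
  rw [h4] at h2
  exact mem_im'.1 h2

set_option maxHeartbeats 40000 in
theorem fix_prod (z0 : ∀ i, z i ≠ 0) (h0 : ∀ b, h b ≠ 0) (hσ : ∀ b, σ (h b) = h b)
    (hfix : ∀ j, ∀ x : WR k 𝔓 e W z j, (∃ n : ℕ, 0 < n ∧ ∃ a : K, (x : LP K) = hm n a) →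
      x ∈ (FIX k 𝔓 e D W z σ t j).radical) (j : Fin (q + 1))
    (x : WR k 𝔓 e (wp ε W) (zp ε z h) j) (hx : ∃ n : ℕ, 0 < n ∧ ∃ a : K, (x : LP K) = hm n a) :
    x ∈ (FIX k 𝔓 e D (wp ε W) (zp ε z h) σ t j).radical := by
  refine tB j x fun Q hFQ hQ => ?_
  refine fix_C j Q x hx fun d => keyB z0 j Q ?_ x.1 x.2 d
  exact tC z0 h0 hσ hfix j Q hFQ hQ (inc (WRz_le' h0 j)) (coe_inc (WRz_le' h0 j))

end fx

end Pool.Agent.Zk15.MX
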