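import Pool.Agent.Zk15.Mx5

/-!
# Weighted blowups of products with a smooth factor: the weights
-/

set_option autoImplicit false
set_option linter.unusedSectionVars false
set_option linter.overlappingInstances false

namespace Pool.Agent.Zk15.MX

open Pool.Agent.Y223.G Pool.Agent.Zk15
open Pool.Agent.R383.TM (WR WR_s WR_e WR_o WR_z FIX WD Wild low_mem)

variable {k O K G : Type} [CommRing k] [CommRing O] [Field K] [Group G] [Algebra k O]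
  [Algebra O K] [Algebra k K] [IsScalarTower k O K]

lemma cst_inj : Function.Injective (cst O K) := by
  intro y y' h
  rw [cst_apply, cst_apply] at h
  have h3 := congrArg (fun f : LP K => f.coeff 0) h
  simpa only [coeff_hm_same] using h3

lemma smooth_map {C : Subalgebra O K} (hC : Algebra.Smooth O C) :
    Algebra.Smooth O (C.map (cst O K)) :=
  Algebra.Smooth.of_equiv (C.equivMapOfInjective (cst O K) cst_inj)

section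

variable {m q : ℕ} {κ : Type} {ε : Fin (q + 1) ≃ Fin (m + 1) × κ} {z : Fin (m + 1) → K}
  {h : κ → K} {𝔓 : Ideal O} {e D : ℕ} {W : Fin (m + 1) → ℕ}

lemma reg_prod (z0 : ∀ i, z i ≠ 0) (h0 : ∀ b, h b ≠ 0) (j : Fin (q + 1))
    (hsm : Algebra.Smooth O (Cc O h (ε j).2)) (hr : IsRegularRing (WR k 𝔓 e W z (ε j).1))
    (hd : (upO (WR k 𝔓 e W z (ε j).1) WR_o).LinearDisjoint ((Cc O h (ε j).2).map (cst O K))) :
    IsRegularRing (WR k 𝔓 e (wp ε W) (zp ε z h) j) := by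
  rw [← reg_upO (O := O) (h := WR_o), WR_prod z0 h0 j]
  exact reg_sup _ _ (reg_upO.2 hr) (smooth_map hsm) hd

lemma eq_prod (z0 : ∀ i, z i ≠ 0) (h0 : ∀ b, h b ≠ 0) {σ : K →+* K} {W₁ : Fin (m + 1) → ℕ}
    (hst : ∀ a, σ (h a) ∈ Submodule.span O (Set.range h))
    (hz : ∀ i j, hm (W₁ i) (σ (z i) / z j) ∈ WR k 𝔓 e W z j) (i j : Fin (q + 1)) :
    hm (wp ε W₁ i) (σ (zp ε z h i) / zp ε z h j) ∈ WR k 𝔓 e (wp ε W) (zp ε z h) j := by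
  have e1 : hm ((wp ε W₁ i : ℕ) : ℤ) (σ (zp ε z h i) / zp ε z h j) =
      hm (W₁ (ε i).1) (σ (z (ε i).1) / z (ε j).1) *
        hm 0 (σ (h (ε i).2) / h (ε j).2) := by
    rw [hm_mul, add_zero]
    unfold zp
    rw [map_mul, mul_div_mul_comm]
    rfl
  rw [e1]
  exact Subalgebra.mul_mem _ (WRz_le h0 j (hz _ _)) (Cc_le z0 j (span_Cc (hst _) _))

lemma dl_prod (z0 : ∀ i, z i ≠ 0) (h0 : ∀ b, h b ≠ 0) {σ : K →+* K} (hσ : ∀ b, σ (h b) = h b)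
    (hz : ∀ i j, hm ((W i : ℤ) + D) ((σ (z i) - z i) / z j) ∈ WR k 𝔓 e W z j)
    (i j : Fin (q + 1)) :
    hm ((wp ε W i : ℤ) + D) ((σ (zp ε z h i) - zp ε z h i) / zp ε z h j) ∈
      WR k 𝔓 e (wp ε W) (zp ε z h) j := by
  have e1 : hm (((wp ε W i : ℕ) : ℤ) + D) ((σ (zp ε z h i) - zp ε z h i) / zp ε z h j) =
      hm ((W (ε i).1 : ℤ) + D) ((σ (z (ε i).1) - z (ε i).1) / z (ε j).1) *
      hm 0 (h (ε i).2 / h (ε j).2) := by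
    rw [hm_mul, add_zero]
    unfold zp
    rw [map_mul, hσ, ← sub_mul, mul_div_mul_comm]
    rfl
  rw [e1]
  exact Subalgebra.mul_mem _ (WRz_le h0 j (hz _ _))
    (Cc_le z0 j (Algebra.subset_adjoin ⟨_, rfl⟩))

end

/-- **The weights for the product.** -/
theorem wd_prod {ρ : G →* (K ≃ₐ[k] K)} {T : G →* (O ≃ₐ[k] O)} {m q : ℕ} {κ : Type}
    (ε : Fin (q + 1) ≃ Fin (m + 1) × κ) {z : Fin (m + 1) → K} {h : κ → K}
    {e : Ideal O → ℕ} {W : Ideal O → Fin (m + 1) → ℕ} (hW : WD k O K G ρ T z e W)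
    (z0 : ∀ i, z i ≠ 0) (h0 : ∀ b, h b ≠ 0) (hsm : ∀ a, Algebra.Smooth O (Cc O h a))
    (hst : ∀ g a, ρ g (h a) ∈ Submodule.span O (Set.range h))
    (hw : ∀ 𝔓 : Ideal O, 𝔓.IsMaximal → ∀ g, g ≠ 1 → Wild T g 𝔓 → ∀ b, ρ g (h b) = h b)
    (hd : ∀ (𝔓 : Ideal O) i a, (upO (WR k 𝔓 (e 𝔓) (W 𝔓) z i) WR_o).LinearDisjoint
      ((Cc O h a).map (cst O K))) :
    WD k O K G ρ T (zp ε z h) e (fun 𝔓 => wp ε (W 𝔓)) := by
  refine ⟨hW.e0, ?_, ?_, ?_⟩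
  · intro 𝔓 h𝔓 hg j
    exact reg_prod z0 h0 j (hsm _) (hW.rg 𝔓 h𝔓 hg _) (hd 𝔓 _ _)
  · intro 𝔓 h𝔓 hg g 𝔓' hg𝔓
    obtain ⟨h1, h2⟩ := hW.eq 𝔓 h𝔓 hg g 𝔓' hg𝔓
    exact ⟨h1, fun i j => eq_prod (σ := (ρ g : K ≃ₐ[k] K).toRingEquiv.toRingHom) z0 h0
      (fun a => hst g a) h2 i j⟩
  · intro 𝔓 h𝔓 g hg1 hg
    obtain ⟨l, D, hD, hDl, hdv, hlin, hfix⟩ := hW.dl 𝔓 h𝔓 g hg1 hg
    have hgh := hw 𝔓 h𝔓 g hg1 hg
    exact ⟨l, D, hD, hDl, hdv, fun i j =>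
      dl_prod (σ := (ρ g : K ≃ₐ[k] K).toRingEquiv.toRingHom) z0 h0 hgh hlin i j, fun j x hx =>
      fix_prod (σ := (ρ g : K ≃ₐ[k] K).toRingEquiv.toRingHom) z0 h0 hgh hfix j x hx⟩

end Pool.Agent.Zk15.MX
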