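import Pool.Agent.Zk15.Mx6
import Pool.Agent.Zk15.Flat2

/-!
# Products of toric varieties with smooth varieties: spans, fields, disjointness
-/

set_option autoImplicit false
set_option linter.unusedSectionVars false
set_option linter.overlappingInstances false

open scoped Pointwise

namespace Pool.Agent.Zk15.MX

open Pool.Agent.Y223.G Pool.Agent.Zk15
open Pool.Agent.R383.TM (WR WR_s WR_e WR_o WR_z FIX WD Wild low_mem)

section span

variable {O K : Type} [CommRing O] [Field K] [Algebra O K] {r : ℕ} {h : Fin (r + 1) → K}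

/-- The products of `N` coordinates. -/
lemma range_ver (N : ℕ) : Set.range (fun a : Fin N → Fin (r + 1) => ver h a) =
    (Set.range h) ^ N := by
  induction N with
  | zero =>
    rw [pow_zero]
    ext y
    rw [Set.mem_one]
    constructor
    · rintro ⟨a, rfl⟩
      exact Finset.prod_of_isEmpty _
    · rintro rfl
      exact ⟨Fin.elim0, Finset.prod_of_isEmpty _⟩
  | succ N ih =>
    rw [pow_succ', ← ih]
    ext y
    rw [Set.mem_mul]
    constructor
    · rintro ⟨a, rfl⟩
      exact ⟨h (a 0), ⟨a 0, rfl⟩, ver h (fun i => a i.succ), ⟨fun i => a i.succ, rfl⟩,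
        (Fin.prod_univ_succ (fun k => h (a k))).symm⟩
    · rintro ⟨_, ⟨b, rfl⟩, _, ⟨a, rfl⟩, rfl⟩
      refine ⟨(Fin.cons b a : Fin (N + 1) → Fin (r + 1)), ?_⟩
      exact Fin.prod_univ_succ (fun k => h ((Fin.cons b a : Fin (N + 1) → Fin (r + 1)) k))

lemma span_ver (N : ℕ) : Submodule.span O (Set.range (fun a : Fin N → Fin (r + 1) => ver h a)) =
    (Submodule.span O (Set.range h)) ^ N := by
  rw [range_ver, Submodule.span_pow]

lemma prod_span {N : ℕ} {y : Fin N → K} (hy : ∀ k, y k ∈ Submodule.span O (Set.range h)) :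
    ∏ k, y k ∈ Submodule.span O (Set.range (fun a : Fin N → Fin (r + 1) => ver h a)) := by
  rw [span_ver]
  induction N with
  | zero =>
    rw [pow_zero, Finset.prod_of_isEmpty]
    exact Submodule.one_le.1 le_rfl
  | succ N ih =>
    rw [Fin.prod_univ_succ, pow_succ']
    exact Submodule.mul_mem_mul (hy 0) (ih fun k => hy k.succ)

end span

section fields

variable {k O M K : Type} [CommRing k] [CommRing O] [IsDomain O] [IsDedekindDomain O] [Field M]
  [Field K] [Algebra k K] [Algebra O K] [Algebra M K] [Algebra k O] [IsScalarTower k O K]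
  [Algebra O M] [IsScalarTower O M K] [IsFractionRing O M]

lemma mono_mem {n : ℕ} (x : Fin n → K) (μ : Fin n → ℤ) :
    mono x μ ∈ IntermediateField.adjoin M (Set.range x) :=
  prod_mem fun i _ => zpow_mem (IntermediateField.subset_adjoin M (Set.range x)
    (Set.mem_range_self i)) _

lemma WR_LPs (K₀ : IntermediateField M K) {m : ℕ} {z : Fin (m + 1) → K} (hz : ∀ i, z i ∈ K₀)
    {𝔓 : Ideal O} {e : ℕ} {W : Fin (m + 1) → ℕ} {j : Fin (m + 1)} {f : LP K}
    (hf : f ∈ WR k 𝔓 e W z j) : f ∈ LPs K₀ := by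
  have hO : ∀ o : O, algebraMap O K o ∈ K₀ := fun o => by
    rw [IsScalarTower.algebraMap_apply O M K]
    exact K₀.algebraMap_mem _
  unfold WR at hf
  refine graded_ind (k := k) (fun _ y => y ∈ K₀) (fun _ => K₀.zero_mem)
    (fun _ x y hx hy => K₀.add_mem hx hy) (fun _ _ x y hx hy => K₀.mul_mem hx hy)
    (fun c => ?_) ?_ f hf
  · rw [IsScalarTower.algebraMap_apply k O K]
    exact hO _
  · rintro s (((rfl | ⟨a, ha, rfl⟩) | ⟨o, rfl⟩) | ⟨i, rfl⟩)
    · exact ⟨_, _, rfl, K₀.one_mem⟩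
    · exact ⟨_, _, rfl, hO _⟩
    · exact ⟨_, _, rfl, hO _⟩
    · exact ⟨_, _, rfl, K₀.div_mem (hz _) (hz _)⟩

lemma adj_sub (K₀ : IntermediateField M K) {S : Set K} (hS : ∀ y ∈ S, y ∈ K₀) {y : K}
    (hy : y ∈ Algebra.adjoin O S) : y ∈ K₀ := by
  induction hy using Algebra.adjoin_induction with
  | mem y hy => exact hS y hy
  | algebraMap o =>
    rw [IsScalarTower.algebraMap_apply O M K]
    exact K₀.algebraMap_mem _
  | add x y _ _ hx hy => exact K₀.add_mem hx hy
  | mul x y _ _ hx hy => exact K₀.mul_mem hx hy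

lemma frac_K : (∀ o : O, ∃ x : M, algebraMap M K x = algebraMap O K o) ∧
    ∀ x : M, ∃ a b : O, b ≠ 0 ∧
      algebraMap M K x * algebraMap O K b = algebraMap O K a := by
  refine ⟨fun o => ⟨algebraMap O M o, (IsScalarTower.algebraMap_apply O M K o).symm⟩,
    fun x => ?_⟩
  obtain ⟨a, b, hb, rfl⟩ := IsFractionRing.div_surjective (A := O) x
  have hb0 : b ≠ 0 := nonZeroDivisors.ne_zero hb
  have hb' : algebraMap O M b ≠ 0 := (map_ne_zero_iff _ (IsFractionRing.injective O M)).2 hb0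
  refine ⟨a, b, hb0, ?_⟩
  rw [IsScalarTower.algebraMap_apply O M K, IsScalarTower.algebraMap_apply O M K,
    ← map_mul, div_mul_cancel₀ _ hb']

lemma inj_K (O M K : Type) [CommRing O] [IsDomain O] [Field M] [Field K] [Algebra O K]
    [Algebra M K] [Algebra O M] [IsScalarTower O M K] [IsFractionRing O M] :
    Function.Injective (algebraMap O K) := by
  rw [IsScalarTower.algebraMap_eq O M K]
  exact (algebraMap M K).injective.comp (IsFractionRing.injective O M)

/-- Disjointness of the charts. -/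
lemma ldK {L : IntermediateField M K} {n : ℕ} {x : Fin n → K} (hx : AlgebraicIndependent L x)
    {S S' : Set K} (hS : ∀ y ∈ S, y ∈ IntermediateField.adjoin M (Set.range x))
    (hS' : ∀ y ∈ S', y ∈ L) : (Algebra.adjoin O S).LinearDisjoint (Algebra.adjoin O S') :=
  ldg (L := M) (inj_K O M K) frac_K.1 frac_K.2 _ _ _ _ (fun _ hy => adj_sub _ hS hy)
    (fun _ hy => adj_sub _ hS' hy) (ld_K L hx)

/-- Disjointness of the graded rings. -/
lemma ldWR {L : IntermediateField M K} {n : ℕ} {x : Fin n → K} (hx : AlgebraicIndependent L x)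
    {m : ℕ} {z : Fin (m + 1) → K}
    (hz : ∀ i, z i ∈ IntermediateField.adjoin M (Set.range x)) {S' : Set K}
    (hS' : ∀ y ∈ S', y ∈ L) (𝔓 : Ideal O) (e : ℕ) (W : Fin (m + 1) → ℕ) (j : Fin (m + 1)) :
    (upO (WR k 𝔓 e W z j) WR_o).LinearDisjoint ((Algebra.adjoin O S').map (cst O K)) := by
  refine ldg (L := M) ?_ ?_ ?_ _ _ _ _ (fun y hy => WR_LPs (k := k) _ hz (mem_upO.1 hy))
    ?_ (ld_LP L hx)
  · intro a b hab
    rw [algebraMap_LP, algebraMap_LP] at hab
    exact inj_K O M K (cst_inj (O := O) hab)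
  · intro o
    obtain ⟨y, hy⟩ := (frac_K (O := O) (M := M) (K := K)).1 o
    exact ⟨y, by rw [algebraMap_LP, algebraMap_LP, hy]⟩
  · intro y
    obtain ⟨a, b, hb, hab⟩ := (frac_K (O := O) (M := M) (K := K)).2 y
    exact ⟨a, b, hb, by rw [algebraMap_LP, algebraMap_LP, algebraMap_LP, hm_mul, hab, add_zero]⟩
  · rintro _ ⟨y, hy, rfl⟩
    exact ⟨y, adj_sub _ hS' hy, rfl⟩

end fields

section adj

variable {O K : Type} [CommRing O] [Field K] [Algebra O K] {m q : ℕ} {κ : Type}
  {ε : Fin (q + 1) ≃ Fin (m + 1) × κ} {z : Fin (m + 1) → K} {h : κ → K}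

lemma adj_prod (z0 : ∀ i, z i ≠ 0) (h0 : ∀ b, h b ≠ 0) (j : Fin (q + 1)) :
    Algebra.adjoin O (Set.range fun l => zp ε z h l / zp ε z h j) =
      Algebra.adjoin O (Set.range fun i => z i / z (ε j).1) ⊔ Cc O h (ε j).2 := by
  apply le_antisymm
  · rw [Algebra.adjoin_le_iff]
    rintro _ ⟨l, rfl⟩
    change zp ε z h l / zp ε z h j ∈ _
    rw [zp_div]
    exact Subalgebra.mul_mem _
      ((le_sup_left : Algebra.adjoin O (Set.range fun i => z i / z (ε j).1) ≤ _)
        (Algebra.subset_adjoin ⟨_, rfl⟩))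
      ((le_sup_right : Cc O h (ε j).2 ≤ _) (Algebra.subset_adjoin ⟨_, rfl⟩))
  · apply sup_le
    · rw [Algebra.adjoin_le_iff]
      rintro _ ⟨i, rfl⟩
      refine Algebra.subset_adjoin ⟨ε.symm (i, (ε j).2), ?_⟩
      change zp ε z h _ / zp ε z h j = _
      rw [zp_div]
      simp only [Equiv.apply_symm_apply]
      rw [div_self (h0 _), mul_one]
    · unfold Cc
      rw [Algebra.adjoin_le_iff]
      rintro _ ⟨b, rfl⟩
      refine Algebra.subset_adjoin ⟨ε.symm ((ε j).1, b), ?_⟩
      change zp ε z h _ / zp ε z h j = _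
      rw [zp_div]
      simp only [Equiv.apply_symm_apply]
      rw [div_self (z0 _), one_mul]

end adj

end Pool.Agent.Zk15.MX
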