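import Pool.Agent.Zk15.Mx7

/-!
# Products of toric varieties with smooth varieties
-/

set_option autoImplicit false
set_option linter.unusedSectionVars false
set_option linter.overlappingInstances false

open scoped Pointwise

open NumberField Pool.Agent.W418

namespace Pool.Agent.Zk15.MX

open Pool.Agent.Y223.G Pool.Agent.Zk15
open Pool.Agent.R383.TM (WR WR_s WR_e WR_o WR_z FIX WD Wild low_mem WWD tm_good IsW)

variable {E M F K : Type} [Field E] [NumberField E] [Field M] [NumberField M] [Algebra E M]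
  [Field F] [Algebra E F] [Field K] [Algebra M K] [Algebra E K] [IsScalarTower E M K]
  [Algebra F K] [IsScalarTower E F K]

/-- The quotients of the coordinates generate the field of the torus. -/
lemma gen_torus {n : ℕ} {P : Set (Fin n → ℤ)}
    {V : Set ((Fin n → ℤ) × Module.Basis (Fin n) ℤ (Fin n → ℤ))} (hSP : SP P V)
    (hPn : P.Nonempty) {N : ℕ} (hSPN : SP (MS N P) (MV N V)) {x : Fin n → K}
    (hx0 : ∀ i, x i ≠ 0) {m : ℕ} {z : Fin (m + 1) → K}
    (hPz : ∀ μ ∈ MS N P, mono x μ ∈ Set.range z) (L : IntermediateField M K)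
    (hzz : ∀ j j', z j / z j' ∈ L) (i : Fin n) : x i ∈ L := by
  have hXX : ∀ μ ∈ MS N P, ∀ μ' ∈ MS N P, mono x (μ - μ') ∈ L := by
    intro μ hμ μ' hμ'
    obtain ⟨j, hj⟩ := hPz μ hμ
    obtain ⟨j', hj'⟩ := hPz μ' hμ'
    have h1 : mono x μ = mono x (μ - μ') * mono x μ' := by rw [← mono_add hx0, sub_add_cancel]
    have h2 := hzz j j'
    rw [hj, hj', h1, mul_div_cancel_right₀ _ (X_ne (mono_zero x) (mono_add hx0) _)] at h2
    exact h2
  obtain ⟨μ0, hμ0⟩ := hPn
  obtain ⟨s, hs0, hs, -⟩ := hSP.cvx μ0 hμ0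
  obtain ⟨v, hv⟩ := Multiset.exists_mem_of_ne_zero hs0
  obtain ⟨b, hvb⟩ := hs v hv
  have hvN : ((N • v : Fin n → ℤ), b) ∈ MV N V := ⟨v, hvb, rfl⟩
  have hb : ∀ i, mono x (b i) ∈ L := by
    intro i
    have h1 := hXX _ (hSPN.vb _ b hvN i) _ (hSPN.vm _ b hvN)
    rwa [add_sub_cancel_left] at h1
  have hall : ∀ μ : Fin n → ℤ, mono x μ ∈ L := by
    intro μ
    have h1 : μ ∈ GS b (Set.univ : Set (Fin n)) := fun i hi => absurd (Set.mem_univ i) hi
    refine GS_ind (fun μ => mono x μ ∈ L) ?_ ?_ hb ?_ h1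
    · rw [mono_zero]; exact L.one_mem
    · intro a c ha hc
      rw [mono_add hx0]
      exact L.mul_mem ha hc
    · intro i _
      have h2 := L.inv_mem (hb i)
      rwa [← eq_inv_of_mul_eq_one_right (X_neg (mono_zero x) (mono_add hx0) (b i))] at h2
  rw [← mono_single x i]
  exact hall _

/-- The weights for the products. -/
theorem wwd_mx [IsGalois E M]
    (hin : ∀ 𝔓 : Ideal (𝓞 M), 𝔓.IsMaximal → ∀ p : ℕ, p.Prime → (p : 𝓞 M) ∈ 𝔓 →
      ¬ p ^ 2 ∣ Nat.card (Pool.Agent.Y223.G.inert E 𝔓))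
    {n : ℕ} (φ : (M ≃ₐ[E] M) →* ((Fin n → ℤ) ≃ₗ[ℤ] (Fin n → ℤ))) {P : Set (Fin n → ℤ)}
    {V : Set ((Fin n → ℤ) × Module.Basis (Fin n) ℤ (Fin n → ℤ))} (hSP : SP P V)
    (hPf : P.Finite) (hPn : P.Nonempty) (hVf : V.Finite) (hφ : ∀ g, ∀ m ∈ P, φ g m ∈ P)
    (ρ : (M ≃ₐ[E] M) →* (K ≃ₐ[E] K))
    (hρ : ∀ g c, ρ g (algebraMap M K c) = algebraMap M K (g c))
    (hfix : ∀ x, (∀ g, ρ g x = x) ↔ ∃ y : F, algebraMap F K y = x)
    {x : Fin n → K} {r : ℕ} {h : Fin (r + 1) → K} (h0 : ∀ b, h b ≠ 0)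
    (hx : AlgebraicIndependent (IntermediateField.adjoin M (Set.range fun b => h b / h 0)) x)
    (hgen : IntermediateField.adjoin M (Set.range x ∪ Set.range fun b => h b / h 0) = ⊤)
    (hρx : ∀ g m, ρ g (mono x m) = mono x (φ g m))
    (hsm : ∀ a, Algebra.Smooth (𝓞 M) (Algebra.adjoin (𝓞 M) (Set.range fun b => h b / h a)))
    (hst : ∀ g a, ρ g (h a) ∈ Submodule.span (𝓞 M) (Set.range h))
    (hw : ∀ 𝔓 : Ideal (𝓞 M), 𝔓.IsMaximal → ∀ g, IsW E 𝔓 g → ∀ b, ρ g (h b) = h b) :
    ∃ (N q : ℕ) (z' : Fin (q + 1) → K), 0 < N ∧ WWD E M F K ρ z' ∧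
      Submodule.span M (Set.range z') = Submodule.span M (mono x '' MS N P) *
        (Submodule.span M (Set.range h)) ^ N := by
  classical
  set L := IntermediateField.adjoin M (Set.range fun b => h b / h 0) with hL
  have hxM : AlgebraicIndependent M x :=
    hx.restrictScalars (algebraMap M L).injective
  have hx0 : ∀ i, x i ≠ 0 := hxM.ne_zero
  have hGE := Pool.Agent.Y223.G.ge_of Pool.Agent.Y223.G.all_TAMC ρ hρ hin
  have hli : LinearIndependent (𝓞 M) (mono x) :=
    (mono_li hxM).restrict_scalars' (𝓞 M)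
  obtain ⟨N, m, z, W, hN, hSPN, hz0, hstz, hzD, hPz, hch, hWD⟩ := wd_main (X := mono x) hGE φ
    (mono_zero x) (mono_add hx0) hli (fun g μ => hρx g μ) hSP hPf hPn hVf hφ
  let κ := Fin N → Fin (r + 1)
  have hne : 0 < Fintype.card (Fin (m + 1) × κ) := Fintype.card_pos
  obtain ⟨q, hq⟩ : ∃ q, Fintype.card (Fin (m + 1) × κ) = q + 1 :=
    ⟨_, (Nat.succ_pred_eq_of_pos hne).symm⟩
  let ε : Fin (q + 1) ≃ Fin (m + 1) × κ := (Fintype.equivFinOfCardEq hq).symm
  have hv0 : ∀ a : κ, ver h a ≠ 0 := fun a => Finset.prod_ne_zero_iff.2 fun k _ => h0 _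
  have hzK : ∀ i, z i ∈ IntermediateField.adjoin M (Set.range x) := by
    intro i
    have h1 : AddSubgroup.closure (mono x '' MS N P) ≤
        (IntermediateField.adjoin M (Set.range x)).toSubfield.toAddSubgroup := by
      rw [AddSubgroup.closure_le]
      rintro _ ⟨μ, -, rfl⟩
      exact mono_mem x μ
    exact h1 (hzD i)
  have hhL : ∀ b a, h b / h a ∈ L := by
    intro b a
    have h1 : h b / h 0 ∈ L := IntermediateField.subset_adjoin _ _ ⟨b, rfl⟩
    have h2 : h a / h 0 ∈ L := IntermediateField.subset_adjoin _ _ ⟨a, rfl⟩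
    have h3 := L.div_mem h1 h2
    rwa [div_div_div_cancel_right₀ (h0 0)] at h3
  have hvL : ∀ b a : κ, ver h b / ver h a ∈ L := by
    intro b a
    unfold ver
    rw [← Finset.prod_div_distrib]
    exact prod_mem fun k _ => hhL _ _
  have hsmv : ∀ a : κ, Algebra.Smooth (𝓞 M) (Cc (𝓞 M) (fun b : κ => ver h b) a) := fun a =>
    ver_smooth h0 hsm hN a
  have hstv : ∀ g (a : κ), ρ g (ver h a) ∈
      Submodule.span (𝓞 M) (Set.range (fun b : κ => ver h b)) := by
    intro g a
    unfold ver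
    rw [map_prod]
    exact prod_span fun k => hst g _
  have hwv : ∀ 𝔓 : Ideal (𝓞 M), 𝔓.IsMaximal → ∀ g, g ≠ 1 → Wild (TT E M) g 𝔓 →
      ∀ b : κ, RS E K ρ g (ver h b) = ver h b := by
    intro 𝔓 h𝔓 g hg1 hg b
    change ρ g (ver h b) = ver h b
    unfold ver
    rw [map_prod]
    exact Finset.prod_congr rfl fun k _ => hw 𝔓 h𝔓 g
      ⟨hg1, fun o => ⟨_, hg.1 o, rfl⟩, fun o ho => ⟨_, hg.2 o ho, rfl⟩⟩ _
  have hWD' : WD (𝓞 E) (𝓞 M) K (M ≃ₐ[E] M) (RS E K ρ) (TT E M)
      (zp ε z (fun b : κ => ver h b)) (fun _ => 1) (fun 𝔓 => wp ε (W 𝔓)) := by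
    refine wd_prod ε hWD hz0 hv0 hsmv (fun g a => hstv g a) hwv ?_
    intro 𝔓 i a
    refine ldWR (M := M) hx hzK ?_ 𝔓 _ _ i
    rintro _ ⟨b, rfl⟩
    exact hvL b a
  have hzp0 : ∀ j, zp ε z (fun b : κ => ver h b) j ≠ 0 := fun j =>
    mul_ne_zero (hz0 _) (hv0 _)
  refine ⟨N, q, zp ε z (fun b : κ => ver h b), hN, ⟨fun _ => 1, _, ?_, hWD'⟩, ?_⟩
  · refine
    { toGE := hGE
      lo := fun o => ⟨algebraMap (𝓞 M) M o, rfl⟩
      lf := ?_
      fixK := hfix
      z0 := fun _ => hzp0
      lin := fun g _ j => ?_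
      gen := ?_
      ld := ?_
      rg := ?_ }
    · intro y
      exact (frac_K (O := 𝓞 M) (M := M) (K := K)).2 y
    · obtain ⟨i, hi⟩ := hstz g (ε j).1
      have h1 : RS E K ρ g (zp ε z (fun b : κ => ver h b) j) =
          z i * ρ g (ver h (ε j).2) := by
        rw [← hi]
        exact map_mul (ρ g) _ _
      rw [h1]
      have h2 := hstv g (ε j).2
      have h3 : ∀ y ∈ Submodule.span (𝓞 M) (Set.range (fun b : κ => ver h b)),
          z i * y ∈ Submodule.span (𝓞 M) (Set.range (zp ε z (fun b : κ => ver h b))) := by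
        intro y hy
        induction hy using Submodule.span_induction with
        | mem y hy =>
          obtain ⟨b, rfl⟩ := hy
          refine Submodule.subset_span ⟨ε.symm (i, b), ?_⟩
          unfold zp
          simp only [Equiv.apply_symm_apply]
        | zero => rw [mul_zero]; exact zero_mem _
        | add a b _ _ ha hb => rw [mul_add]; exact add_mem ha hb
        | smul c a _ ha => rw [mul_smul_comm]; exact Submodule.smul_mem _ _ ha
      exact h3 _ h2
    · rw [eq_top_iff, ← hgen, IntermediateField.adjoin_le_iff]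
      set L' := IntermediateField.adjoin M {y : K | ∃ (_ : Unit) (j : Fin (q + 1)),
        y = zp ε z (fun b : κ => ver h b) j / zp ε z (fun b : κ => ver h b) 0} with hL'
      have hzz : ∀ j j', zp ε z (fun b : κ => ver h b) j /
          zp ε z (fun b : κ => ver h b) j' ∈ L' := by
        intro j j'
        have h1 : zp ε z (fun b : κ => ver h b) j / zp ε z (fun b : κ => ver h b) 0 ∈ L' :=
          IntermediateField.subset_adjoin _ _ ⟨(), j, rfl⟩
        have h2 : zp ε z (fun b : κ => ver h b) j' / zp ε z (fun b : κ => ver h b) 0 ∈ L' :=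
          IntermediateField.subset_adjoin _ _ ⟨(), j', rfl⟩
        have h3 := L'.div_mem h1 h2
        rwa [div_div_div_cancel_right₀ (hzp0 0)] at h3
      rintro y (⟨i, rfl⟩ | ⟨b, rfl⟩)
      · refine gen_torus hSP hPn hSPN hx0 hPz L' (fun j j' => ?_) i
        have h1 := hzz (ε.symm (j, fun _ => 0)) (ε.symm (j', fun _ => 0))
        rw [zp_div] at h1
        simp only [Equiv.apply_symm_apply] at h1
        rwa [div_self (hv0 _), mul_one] at h1
      · obtain ⟨N', rfl⟩ : ∃ N', N = N' + 1 := ⟨N - 1, by omega⟩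
        have h1 := hzz (ε.symm (0, (Fin.cons b fun _ => 0))) (ε.symm (0, fun _ => 0))
        rw [zp_div] at h1
        simp only [Equiv.apply_symm_apply] at h1
        rw [div_self (hz0 _), one_mul] at h1
        have h2 : ver h (Fin.cons b fun _ => 0 : Fin (N' + 1) → Fin (r + 1)) /
            ver h (fun _ => 0 : Fin (N' + 1) → Fin (r + 1)) = h b / h 0 := by
          unfold ver
          rw [Fin.prod_univ_succ, Fin.prod_univ_succ]
          simp only [Fin.cons_zero, Fin.cons_succ]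
          rw [mul_div_mul_right]
          exact Finset.prod_ne_zero_iff.2 fun k _ => h0 _
        rw [h2] at h1
        exact h1
    · intro S ω hω
      have hS : S = ∅ := by
        rw [Finset.eq_empty_iff_forall_notMem]
        intro ω' h
        exact hω (by cases ω; cases ω'; exact h)
      subst hS
      have h1 : {y : K | ∃ ω' ∈ (∅ : Finset Unit), ∃ j, y =
          zp ε z (fun b : κ => ver h b) j / zp ε z (fun b : κ => ver h b) 0} = ∅ := by
        ext y
        constructor
        · rintro ⟨ω', h, -⟩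
          exact absurd h (Finset.notMem_empty _)
        · intro h
          exact absurd h (Set.notMem_empty _)
      rw [h1, IntermediateField.adjoin_empty, IntermediateField.bot_toSubalgebra]
      exact Subalgebra.LinearDisjoint.bot_left _
    · intro J
      have h1 : {y : K | ∃ (ω : Unit) (i : Fin (q + 1)), y =
          zp ε z (fun b : κ => ver h b) i / zp ε z (fun b : κ => ver h b) (J ω)} =
          Set.range fun i => zp ε z (fun b : κ => ver h b) i /
            zp ε z (fun b : κ => ver h b) (J ()) := by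
        ext y
        constructor
        · rintro ⟨ω, i, h⟩
          exact ⟨i, h.symm⟩
        · rintro ⟨i, h⟩
          exact ⟨(), i, h.symm⟩
      rw [h1, adj_prod hz0 hv0]
      refine reg_sup _ _ (hch _) (hsmv _) (ldK (M := M) hx ?_ ?_)
      · rintro _ ⟨i, rfl⟩
        exact div_mem (hzK _) (hzK _)
      · rintro _ ⟨b, rfl⟩
        exact hvL _ _
  · have h1 : Set.range (zp ε z (fun b : κ => ver h b)) =
        Set.range z * Set.range (fun b : κ => ver h b) := by
      ext y
      rw [Set.mem_mul]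
      constructor
      · rintro ⟨j, rfl⟩
        exact ⟨_, ⟨(ε j).1, rfl⟩, _, ⟨(ε j).2, rfl⟩, rfl⟩
      · rintro ⟨_, ⟨i, rfl⟩, _, ⟨b, rfl⟩, rfl⟩
        refine ⟨ε.symm (i, b), ?_⟩
        unfold zp
        simp only [Equiv.apply_symm_apply]
    have h2 : Submodule.span M (Set.range z) = Submodule.span M (mono x '' MS N P) := by
      apply le_antisymm
      · rw [Submodule.span_le]
        rintro _ ⟨i, rfl⟩
        have h4 : AddSubgroup.closure (mono x '' MS N P) ≤
            (Submodule.span M (mono x '' MS N P)).toAddSubgroup := by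
          rw [AddSubgroup.closure_le]
          exact Submodule.subset_span
        exact h4 (hzD i)
      · rw [Submodule.span_le]
        rintro _ ⟨μ, hμ, rfl⟩
        exact Submodule.subset_span (hPz μ hμ)
    rw [h1, ← Submodule.span_mul_span, h2, span_ver]

end Pool.Agent.Zk15.MX
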