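import Pool.Agent.Zk15.Mx8

/-!
# Products of toric varieties with smooth varieties: flat models
-/

set_option autoImplicit false
set_option linter.unusedSectionVars false
set_option linter.overlappingInstances false

open scoped Pointwise

open AlgebraicGeometry CategoryTheory CategoryTheory.Limits MvPolynomial NumberField
  Pool.Agent.W418

namespace Pool.Agent.Zk15.MX

open Pool.Agent.Y223.G Pool.Agent.Zk15
open Pool.Agent.R383.TM (WR WR_s WR_e WR_o WR_z FIX WD Wild low_mem WWD tm_good IsW)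

variable {E M F K : Type} [Field E] [NumberField E] [Field M] [NumberField M] [Algebra E M]
  [Field F] [Algebra E F] [Field K] [Algebra M K] [Algebra E K] [IsScalarTower E M K]
  [Algebra F K] [IsScalarTower E F K]

/-- The products have good modules. -/
theorem mx_good [IsGalois E M]
    (hin : ∀ 𝔓 : Ideal (𝓞 M), 𝔓.IsMaximal → ∀ p : ℕ, p.Prime → (p : 𝓞 M) ∈ 𝔓 →
      ¬ p ^ 2 ∣ Nat.card (Pool.Agent.Y223.G.inert E 𝔓))
    {n : ℕ} (φ : (M ≃ₐ[E] M) →* ((Fin n → ℤ) ≃ₗ[ℤ] (Fin n → ℤ))) {P : Set (Fin n → ℤ)}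
    {V : Set ((Fin n → ℤ) × Module.Basis (Fin n) ℤ (Fin n → ℤ))} (hSP : SP P V)
    (hPf : P.Finite) (hPn : P.Nonempty) (hVf : V.Finite) (hφ : ∀ g, ∀ m ∈ P, φ g m ∈ P)
    (ρ : (M ≃ₐ[E] M) →* (K ≃ₐ[E] K))
    (hρ : ∀ g c, ρ g (algebraMap M K c) = algebraMap M K (g c))
    (hfix : ∀ x, (∀ g, ρ g x = x) ↔ ∃ y : F, algebraMap F K y = x)
    {x : Fin n → K} {r : ℕ} {h : Fin (r + 1) → K} (h0 : ∀ b, h b ≠ 0)
    (hx : AlgebraicIndependent (IntermediateField.adjoin M (Set.range fun b => h b / h 0)) x)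
    (hgen : IntermediateField.adjoin M (Set.range x ∪ Set.range fun b => h b / h 0) = ⊤)
    (hρx : ∀ g m, ρ g (mono x m) = mono x (φ g m))
    (hsm : ∀ a, Algebra.Smooth (𝓞 M) (Algebra.adjoin (𝓞 M) (Set.range fun b => h b / h a)))
    (hst : ∀ g a, ρ g (h a) ∈ Submodule.span (𝓞 M) (Set.range h))
    (hw : ∀ 𝔓 : Ideal (𝓞 M), 𝔓.IsMaximal → ∀ g, IsW E 𝔓 g → ∀ b, ρ g (h b) = h b)
    {ι : Type} [Finite ι] (u : ι → F)
    (hseg : Submodule.span M (Set.range fun i => algebraMap F K (u i)) =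
      Submodule.span M (mono x '' P) * Submodule.span M (Set.range h)) :
    GoodModule (𝓞 E) u := by
  classical
  have hxM : AlgebraicIndependent M x :=
    hx.restrictScalars (algebraMap M
      (IntermediateField.adjoin M (Set.range fun b => h b / h 0))).injective
  have hx0 : ∀ i, x i ≠ 0 := hxM.ne_zero
  obtain ⟨N, q, z, hN, hD, hz⟩ := wwd_mx (F := F) (K := K) hin φ hSP hPf hPn hVf hφ
    ρ hρ hfix h0 hx hgen hρx hsm hst hw
  have hfin : ∀ N : ℕ, (Set.range u ^ N).Finite := by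
    intro N
    induction N with
    | zero => rw [pow_zero]; exact Set.finite_one
    | succ N ih => rw [pow_succ]; exact ih.mul (Set.finite_range u)
  have hfin' : Finite ↥(Set.range u ^ N) := hfin N
  refine good_pow (v := fun y : ↥(Set.range u ^ N) => (y : F)) hN Subtype.range_coe ?_
  refine tm_good all_LINW all_CHW all_RWB Pool.Agent.Y614.H.RegL.t_REGL hD _ ?_
  have h1 : (Set.range fun y : ↥(Set.range u ^ N) => algebraMap F K (y : F)) =
      (Set.range fun i => algebraMap F K (u i)) ^ N := by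
    have h2 : (Set.range fun y : ↥(Set.range u ^ N) => algebraMap F K (y : F)) =
        algebraMap F K '' (Set.range u ^ N) := by
      ext y
      constructor
      · rintro ⟨a, rfl⟩
        exact ⟨a, a.2, rfl⟩
      · rintro ⟨a, ha, rfl⟩
        exact ⟨⟨a, ha⟩, rfl⟩
    rw [h2, Set.image_pow, ← Set.range_comp]
    rfl
  rw [h1, ← Submodule.span_pow, hseg, hz, mul_pow, Submodule.span_pow, mono_pow hx0]

/-- Flat models. -/
theorem mx_model [IsGalois E M]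
    (hin : ∀ 𝔓 : Ideal (𝓞 M), 𝔓.IsMaximal → ∀ p : ℕ, p.Prime → (p : 𝓞 M) ∈ 𝔓 →
      ¬ p ^ 2 ∣ Nat.card (Pool.Agent.Y223.G.inert E 𝔓))
    {n : ℕ} (φ : (M ≃ₐ[E] M) →* ((Fin n → ℤ) ≃ₗ[ℤ] (Fin n → ℤ))) {P : Set (Fin n → ℤ)}
    {V : Set ((Fin n → ℤ) × Module.Basis (Fin n) ℤ (Fin n → ℤ))} (hSP : SP P V)
    (hPf : P.Finite) (hPn : P.Nonempty) (hVf : V.Finite) (hφ : ∀ g, ∀ m ∈ P, φ g m ∈ P)
    (ρ : (M ≃ₐ[E] M) →* (K ≃ₐ[E] K))
    (hρ : ∀ g c, ρ g (algebraMap M K c) = algebraMap M K (g c))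
    (hfix : ∀ x, (∀ g, ρ g x = x) ↔ ∃ y : F, algebraMap F K y = x)
    {x : Fin n → K} {r : ℕ} {h : Fin (r + 1) → K} (h0 : ∀ b, h b ≠ 0)
    (hx : AlgebraicIndependent (IntermediateField.adjoin M (Set.range fun b => h b / h 0)) x)
    (hgen : IntermediateField.adjoin M (Set.range x ∪ Set.range fun b => h b / h 0) = ⊤)
    (hρx : ∀ g m, ρ g (mono x m) = mono x (φ g m))
    (hsm : ∀ a, Algebra.Smooth (𝓞 M) (Algebra.adjoin (𝓞 M) (Set.range fun b => h b / h a)))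
    (hst : ∀ g a, ρ g (h a) ∈ Submodule.span (𝓞 M) (Set.range h))
    (hw : ∀ 𝔓 : Ideal (𝓞 M), 𝔓.IsMaximal → ∀ g, IsW E 𝔓 g → ∀ b, ρ g (h b) = h b)
    {s : ℕ} {A : Type} [CommRing A] [Algebra E A] (u : Fin (s + 1) → F)
    (hseg : Submodule.span M (Set.range fun i => algebraMap F K (u i)) =
      Submodule.span M {y | ∃ μ ∈ P, ∃ b, y = mono x μ * h b})
    (π : MvPolynomial (Fin (s + 1)) E →ₐ[E] A)
    (hπ : Function.Surjective π) (𝒜 : ℕ → Submodule E A) [GradedAlgebra 𝒜]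
    (h𝒜 : ∀ d, 𝒜 d = (homogeneousSubmodule (Fin (s + 1)) E d).map π.toLinearMap)
    (hu : ∀ d, ∀ P ∈ homogeneousSubmodule (Fin (s + 1)) E d, π P = 0 ↔ aeval u P = 0)
    {Y : Scheme.{0}} (f : Y ⟶ Spec (CommRingCat.of E)) (i : Y ≅ Proj 𝒜)
    (hi : i.hom ≫ GO.projStr 𝒜 = f) : GO.HasModel (𝓞 E) E f := by
  have hS : {y | ∃ μ ∈ P, ∃ b, y = mono x μ * h b} = (mono x '' P) * Set.range h := by
    ext y
    rw [Set.mem_mul]
    constructor
    · rintro ⟨μ, hμ, b, rfl⟩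
      exact ⟨_, ⟨μ, hμ, rfl⟩, _, ⟨b, rfl⟩, rfl⟩
    · rintro ⟨_, ⟨μ, hμ, rfl⟩, _, ⟨b, rfl⟩, rfl⟩
      exact ⟨μ, hμ, b, rfl⟩
  have hM := mx_good (F := F) (K := K) hin φ hSP hPf hPn hVf hφ ρ hρ hfix h0 hx hgen hρx hsm hst
    hw u (by rw [hseg, hS, Submodule.span_mul_span])
  obtain ⟨ε, hε, hεgen, hε1⟩ := Pool.Agent.Y223.INV.exists_eps2 u π hπ 𝒜 h𝒜 hu
  exact Pool.Agent.TH214.RM.hasModel_of_goodModule (O := 𝓞 E) 𝒜 ε hε hεgen u hε1 hM f i hi

end Pool.Agent.Zk15.MX
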