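import Pool.Agent.Zk15.Ver
import Pool.Agent.R383.TM.Chart

/-!
# The leading form has no zeros
-/

set_option autoImplicit false
set_option linter.unusedSectionVars false

namespace Pool.Agent.Zk15

open Pool.Agent.Y223.G IsLocalRing
open Pool.Agent.Y86.G5 (im mem_im im_sub im_mul im_prime im_one im_pow)
open Pool.Agent.R383.TM (WR WR_s WR_e WR_o WR_z FIX)

variable {k O K Λ : Type} [CommRing k] [CommRing O] [Field K] [Algebra k K] [Algebra O K]
  [AddCommGroup Λ] {n : ℕ}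

/-- The homogeneous coordinates. -/
structure CH (S : Dat k O K Λ n) {m : ℕ} (z : Fin (m + 1) → K) (a : Fin (m + 1) → ℕ) : Prop where
  z0 : ∀ j, z j ≠ 0
  zD : ∀ i, z i ∈ S.D (a i)
  ap : ∀ i, a i ≤ S.p
  gen : ∀ i ≤ S.p, ∀ x ∈ S.D i, x ∈ AddSubgroup.closure {y | ∃ j, i ≤ a j ∧ y = z j}

/-- The graded ring of the chart. -/
noncomputable abbrev RZ (S : Dat k O K Λ n) {m : ℕ} (z : Fin (m + 1) → K) (a : Fin (m + 1) → ℕ)
    (j : Fin (m + 1)) : Subalgebra k (LP K) := WR k S.𝔓 1 (fun i => a i * S.l) z j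

section

variable {S : Dat k O K Λ n} {m : ℕ} {z : Fin (m + 1) → K} {a : Fin (m + 1) → ℕ}
  (hC : CH S z a) {j : Fin (m + 1)}

lemma RH.epow {R : Subalgebra k (LP K)} {c : K} (hR : RH S R c) (n : ℕ) {x : O}
    (hx : x ∈ S.𝔓 ^ n) : hm (n : ℤ) (algebraMap O K x) ∈ R := by
  induction n generalizing x with
  | zero => exact hR.o x
  | succ n ih =>
    rw [pow_succ] at hx
    induction hx using Submodule.mul_induction_on' with
    | mem_mul_mem x hx y hy =>
      have h1 := R.mul_mem (ih hx) (hR.e y hy)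
      rw [hm_mul, ← map_mul] at h1
      exact_mod_cast h1
    | add x _ y _ hx hy =>
      rw [map_add, hm_add]
      exact R.add_mem hx hy

include hC

lemma CH.RH : RH S (RZ S z a j) (z j) where
  s := WR_s
  o := WR_o
  e x hx := by exact_mod_cast (WR_e (k := k) (e := 1) (W := fun i => a i * S.l) (z := z) (j := j) hx)
  d i hi x hx := by
    have h1 := hC.gen i hi x hx
    clear hx
    induction h1 using AddSubgroup.closure_induction with
    | mem y hy =>
      obtain ⟨j', hj', rfl⟩ := hy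
      refine hm_low WR_s (WR_z j') ?_
      exact_mod_cast Nat.mul_le_mul_right _ hj'
    | zero => rw [zero_div, hm_zero]; exact Subalgebra.zero_mem _
    | add x y _ _ hx hy => rw [add_div, hm_add]; exact Subalgebra.add_mem _ hx hy
    | neg x _ hx => rw [neg_div, hm_neg]; exact Subalgebra.neg_mem _ hx
  c0 := hC.z0 j
  cD := S.Dle (Nat.zero_le _) (hC.zD j)

lemma CH.gens : ∀ f ∈ ({hm (-1) 1} ∪ {f | ∃ a ∈ S.𝔓, f = hm ((1 : ℕ) : ℤ) (algebraMap O K a)} ∪
    {f | ∃ o : O, f = hm 0 (algebraMap O K o)} ∪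
    {f | ∃ i, f = hm ((a i * S.l : ℕ) : ℤ) (z i / z j)} : Set (LP K)),
    f = hm (-1) 1 ∨ (∃ x ∈ S.𝔓, f = hm (1 : ℤ) (algebraMap O K x)) ∨
      (∃ o : O, f = hm 0 (algebraMap O K o)) ∨
      ∃ i, f = hm ((a i * S.l : ℕ) : ℤ) (z i / z j) := by
  rintro f (((hf | ⟨x, hx, rfl⟩) | ⟨o, rfl⟩) | ⟨i, rfl⟩)
  · exact Or.inl hf
  · exact Or.inr (Or.inl ⟨x, hx, by rw [Nat.cast_one]⟩)
  · exact Or.inr (Or.inr (Or.inl ⟨o, rfl⟩))
  · exact Or.inr (Or.inr (Or.inr ⟨i, rfl⟩))

/-- **The leading form has no zeros.** -/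
theorem CH.nozero [IsDedekindDomain O] {Q : Ideal (RZ S z a j)} [hQ : Q.IsPrime]
    (q1 : ∀ x ∈ S.𝔓, hm 0 (algebraMap O K x) ∈ im (RZ S z a j) Q)
    (q2 : ∀ x ∈ S.𝔓, hm (1 + (S.l : ℤ)) (algebraMap O K (S.T x - x)) ∈ im (RZ S z a j) Q)
    (q3 : ∀ i i', hm (((a i * S.l : ℕ) : ℤ) + ((a i' * S.l : ℕ) : ℤ) + S.l)
      ((z i * S.τ (z i') - z i' * S.τ (z i)) / z j ^ 2) ∈ im (RZ S z a j) Q)
    {f : LP K} (hf : f ∈ RZ S z a j) {d : ℤ} (hd : 0 < d) :
    hm d (f.coeff d) ∈ im (RZ S z a j) Q := by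
  classical
  obtain ⟨R, hRe⟩ : ∃ R, R = RZ S z a j := ⟨_, rfl⟩
  have hR : Zk15.RH S R (z j) := by rw [hRe]; exact hC.RH
  have hRA : R = Algebra.adjoin k ({hm (-1) 1} ∪
    {f | ∃ a ∈ S.𝔓, f = hm ((1 : ℕ) : ℤ) (algebraMap O K a)} ∪
    {f | ∃ o : O, f = hm 0 (algebraMap O K o)} ∪
    {f | ∃ i, f = hm ((a i * S.l : ℕ) : ℤ) (z i / z j)}) := hRe
  have hgens := hC.gens (j := j)
  subst hRe
  set c := z j with hc
  have hc0 : c ≠ 0 := hC.z0 j
  have hprime := S.mx.isPrime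
  -- the ideal is not zero
  obtain ⟨π, hπ, hπ2⟩ := S.pi
  have hbot : S.𝔓 ≠ ⊥ := by
    intro h
    rw [h, Ideal.mem_bot] at hπ
    apply hπ2
    rw [hπ, map_zero, sub_zero]
    exact zero_mem _
  -- the elements of `𝔓 ^ (n + 1)` in degree `n`
  have hlow : ∀ (n : ℕ) (x : O), x ∈ S.𝔓 ^ (n + 1) →
      hm (n : ℤ) (algebraMap O K x) ∈ im (RZ S z a j) Q := by
    intro n x hx
    rw [pow_succ] at hx
    induction hx using Submodule.mul_induction_on' with
    | mem_mul_mem x hx y hy =>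
      have h1 := im_mul (hR.epow n hx) (q1 y hy)
      rwa [hm_mul, ← map_mul, add_zero] at h1
    | add x _ y _ hx hy =>
      rw [map_add, hm_add]
      exact (im _ Q).add_mem hx hy
  -- the elements of `𝔓` in degree one
  have hone : ∀ x ∈ S.𝔓, hm 1 (algebraMap O K x) ∈ im (RZ S z a j) Q := by
    intro x hx
    have h1 : x ^ (S.l + 1) ∈ S.𝔓 ^ (S.l + 1) := Ideal.pow_mem_pow hx _
    obtain ⟨d, e, he, hde⟩ := Ideal.exists_mul_add_mem_pow_succ hbot _ _ (S.dv π) hπ2 h1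
    have h2 := hlow (S.l + 1) e he
    have h3 := im_mul (hR.o d) (q2 π hπ)
    rw [hm_mul, ← map_mul, zero_add] at h3
    have h4 : hm 1 (algebraMap O K x) ^ (S.l + 1) ∈ im (RZ S z a j) Q := by
      rw [hm_pow, ← map_pow, ← hde, map_add]
      have e1 : ((S.l + 1 : ℕ) : ℤ) * 1 = 1 + S.l := by push_cast; ring
      rw [e1, hm_add]
      refine (im _ Q).add_mem ?_ ?_
      · rw [mul_comm (S.T π - π)]
        exact h3
      · have e2 : ((S.l + 1 : ℕ) : ℤ) = 1 + S.l := by push_cast; ring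
        rwa [e2] at h2
    by_contra h5
    exact im_pow hQ (hR.e x hx) h5 (S.l + 1) h4
  have hpw : ∀ (n : ℕ), 0 < n → ∀ x ∈ S.𝔓 ^ n,
      hm (n : ℤ) (algebraMap O K x) ∈ im (RZ S z a j) Q := by
    intro n hn x hx
    obtain ⟨n', rfl⟩ : ∃ n', n = n' + 1 := ⟨n - 1, by omega⟩
    rw [pow_succ] at hx
    induction hx using Submodule.mul_induction_on' with
    | mem_mul_mem x hx y hy =>
      have h1 := im_mul (hR.epow n' hx) (hone y hy)
      rw [hm_mul, ← map_mul] at h1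
      exact_mod_cast h1
    | add x _ y _ hx hy =>
      rw [map_add, hm_add]
      exact (im _ Q).add_mem hx hy
  -- the minors
  have hmin : ∀ i ≤ S.p, ∀ i' ≤ S.p, ∀ x ∈ S.D i, ∀ y ∈ S.D i',
      Pg (RZ S z a j) Q (((i * S.l : ℕ) : ℤ) + ((i' * S.l : ℕ) : ℤ) + S.l)
        ((x * S.τ y - y * S.τ x) / c ^ 2) := by
    intro i hi i' hi' x hx y hy
    have h1 := hC.gen i hi x hx
    clear hx
    induction h1 using AddSubgroup.closure_induction with
    | mem x hx =>
      obtain ⟨j1, hj1, rfl⟩ := hx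
      have h2 := hC.gen i' hi' y hy
      clear hy
      induction h2 using AddSubgroup.closure_induction with
      | mem y hy =>
        obtain ⟨j2, hj2, rfl⟩ := hy
        refine (Pg.of (q3 j1 j2)).low hR.s ?_
        have e1 : i * S.l ≤ a j1 * S.l := Nat.mul_le_mul_right _ hj1
        have e2 : i' * S.l ≤ a j2 * S.l := Nat.mul_le_mul_right _ hj2
        omega
      | zero => rw [map_zero, mul_zero, zero_mul, sub_zero, zero_div]; exact Pg.zero _
      | add y y' _ _ hy hy' =>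
        have e : (z j1 * S.τ (y + y') - (y + y') * S.τ (z j1)) / c ^ 2 =
            (z j1 * S.τ y - y * S.τ (z j1)) / c ^ 2 +
              (z j1 * S.τ y' - y' * S.τ (z j1)) / c ^ 2 := by
          rw [map_add]
          ring
        rw [e]
        exact hy.add hy'
      | neg y _ hy =>
        have e : (z j1 * S.τ (-y) - (-y) * S.τ (z j1)) / c ^ 2 =
            -((z j1 * S.τ y - y * S.τ (z j1)) / c ^ 2) := by
          rw [map_neg]
          ring
        rw [e]
        exact hy.neg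
    | zero => rw [map_zero, mul_zero, zero_mul, sub_zero, zero_div]; exact Pg.zero _
    | add x x' _ _ hx hx' =>
      have e : ((x + x') * S.τ y - y * S.τ (x + x')) / c ^ 2 =
          (x * S.τ y - y * S.τ x) / c ^ 2 + (x' * S.τ y - y * S.τ x') / c ^ 2 := by
        rw [map_add]
        ring
      rw [e]
      exact hx.add hx'
    | neg x _ hx =>
      have e : ((-x) * S.τ y - y * S.τ (-x)) / c ^ 2 =
          -((x * S.τ y - y * S.τ x) / c ^ 2) := by
        rw [map_neg]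
        ring
      rw [e]
      exact hx.neg
  have hmin0 : ∀ m1 ∈ S.P, ∀ m2 ∈ S.P, Pg (RZ S z a j) Q 0
      (S.X m1 / c * (S.X (S.t m2) / c) - S.X m2 / c * (S.X (S.t m1) / c)) := by
    intro m1 h1 m2 h2
    have h3 := hmin 0 (Nat.zero_le _) 0 (Nat.zero_le _) _ (S.XD h1) _ (S.XD h2)
    rw [S.τX, S.τX] at h3
    have e : S.X m1 / c * (S.X (S.t m2) / c) - S.X m2 / c * (S.X (S.t m1) / c) =
        (S.X m1 * S.X (S.t m2) - S.X m2 * S.X (S.t m1)) / c ^ 2 := by
      field_simp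
    rw [e]
    exact h3.low hR.s (by positivity)
  -- stability
  have hst : ∀ m ∈ S.P, ¬ Pg (RZ S z a j) Q 0 (S.X m / c) →
      ¬ Pg (RZ S z a j) Q 0 (S.X (S.t m) / c) := by
    obtain ⟨v, b, hvb, hv⟩ := hR.exists_vertex (Q := Q)
    have hvP := (S.hV v b hvb).vm
    have htP : ∀ i : ℕ, ∀ m ∈ S.P, S.t^[i] m ∈ S.P := by
      intro i
      induction i with
      | zero => exact fun m hm => hm
      | succ i ih =>
        intro m hm
        rw [Function.iterate_succ_apply']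
        exact S.tP _ (ih m hm)
    have h1 : ¬ Pg (RZ S z a j) Q 0 (S.X (S.t v) / c) := by
      intro h
      have h2 : ∀ m ∈ S.P, Pg (RZ S z a j) Q 0 (S.X (S.t m) / c) := by
        intro m hm
        have h3 := hmin0 m hm v hvP
        have h4 : Pg (RZ S z a j) Q 0 (S.X m / c * (S.X (S.t v) / c)) := (hR.LX hm).mulP0 h
        have h5 := h4.sub h3
        rw [sub_sub_cancel] at h5
        rcases Pg.prime (d := 0) (e := 0) (hR.LX hvP) (hR.LX (S.tP m hm)) (by rwa [add_zero])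
          with h6 | h6
        · exact absurd h6 hv
        · exact h6
      have h3 := h2 (S.t^[S.p - 1] v) (htP _ v hvP)
      rw [← Function.iterate_succ_apply' S.t, Nat.succ_eq_add_one,
        Nat.sub_add_cancel S.pp.one_le, S.tp] at h3
      exact hv h3
    intro m hm hm1 h
    have h3 := hmin0 m hm v hvP
    have h4 : Pg (RZ S z a j) Q 0 (S.X v / c * (S.X (S.t m) / c)) := (hR.LX hvP).mulP0 h
    have h5 := h3.add h4
    rw [sub_add_cancel] at h5
    rcases Pg.prime (d := 0) (e := 0) (hR.LX hm) (hR.LX (S.tP v hvP)) (by rwa [add_zero])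
      with h6 | h6
    · exact hm1 h6
    · exact h1 h6
  obtain ⟨b, J, w, hL⟩ := hR.exists_LV hst
  have hw0 := S.Xne w
  -- the differences
  have hN2 : ∀ i ≤ S.p, ∀ x ∈ S.D i, Pg (RZ S z a j) Q (((i * S.l : ℕ) : ℤ) + S.l)
      ((S.τ x - x) / S.X w) := by
    intro i hi x hx
    have h1 := hmin i hi 0 (Nat.zero_le _) x hx _ (S.XD hL.wP)
    rw [S.τX, hL.tw, Nat.zero_mul, Nat.cast_zero, add_zero] at h1
    have h2 := ((hL.cw.mul0 hL.cw).mulP0 h1).neg
    have e : -(c / S.X w * (c / S.X w) * ((x * S.X w - S.X w * S.τ x) / c ^ 2)) =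
        (S.τ x - x) / S.X w := by
      field_simp
      ring
    rwa [e] at h2
  have hdel : ∀ {d : ℤ} {x : K}, Lg (RZ S z a j) Q d x →
      GG (RZ S z a j) Q S.τ S.l (Pg (RZ S z a j) Q) d x := by
    intro d x hx
    refine hL.del (NT_Pg hR.s) hC.zD hC.ap hRA hgens hR.cD hR ?_ ?_ hN2 hx
    · intro o
      exact Pg.of (hlow _ _ (S.dv o))
    · intro x hx
      exact Pg.of (q2 x hx)
  -- the units
  set L := LF b J ⊓ KN S.t S.p with hLdef
  have hstep : ∀ {d : ℤ} {e : Λ}, e ∈ L → Lg (RZ S z a j) Q d (S.X e - 1) →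
      Pg (RZ S z a j) Q (d + S.l) (S.X (dl S.t e) - 1) := by
    intro d e he h
    have h1 := (hdel h).2.2
    have h2 := hL.LS (-e) (LF_le (neg_mem (AddSubgroup.mem_inf.1 he).1))
    have h3 := h2.mulP0 h1
    have e1 : S.X (-e) * (S.τ (S.X e - 1) - (S.X e - 1)) = S.X (dl S.t e) - 1 := by
      rw [map_sub, map_one, S.τX, dl_apply, S.Xsub, S.Xneg]
      have := S.Xne e
      field_simp
      ring
    rwa [e1] at h3
  have hdmem : ∀ (i : ℕ) {e : Λ}, e ∈ L → (dl S.t)^[i] e ∈ L := fun i e he =>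
    dl_iter_mem (fun e he => hL.tL he) he i
  have hya : ∀ (i : ℕ) {e : Λ}, e ∈ L →
      Pg (RZ S z a j) Q (((i + 1 + 1) * S.l : ℕ) : ℤ) (S.X ((dl S.t)^[i + 1] e) - 1) := by
    intro i
    induction i with
    | zero =>
      intro e he
      have h1 := hstep he (hL.Le e (AddSubgroup.mem_inf.1 he).1 (AddSubgroup.mem_inf.1 he).2)
      have e1 : ((S.l : ℤ)) + S.l = (((0 + 1 + 1) * S.l : ℕ) : ℤ) := by push_cast; ring
      rw [e1] at h1
      exact h1
    | succ i ih =>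
      intro e he
      have h1 := hstep (hdmem (i + 1) he) (ih he).lg
      have e1 : (((i + 1 + 1) * S.l : ℕ) : ℤ) + S.l = (((i + 1 + 1 + 1) * S.l : ℕ) : ℤ) := by
        push_cast; ring
      rw [e1, ← Function.iterate_succ_apply' (dl S.t)] at h1
      exact h1
  have hp1 : 1 ≤ S.p - 1 := by have := S.pp.two_le; omega
  have hpP : Pg (RZ S z a j) Q (((S.p - 1) * S.l : ℕ) : ℤ) (algebraMap O K (S.p : O)) :=
    Pg.of (hpw _ (Nat.mul_pos hp1 S.l0) _ S.hp)
  rw [map_natCast] at hpP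
  have hf : ∀ f ∈ L, Pg (RZ S z a j) Q ((S.p * S.l : ℕ) : ℤ) (S.X (-(S.p • f)) - 1) →
      Pg (RZ S z a j) Q S.l (S.X f - 1) := by
    intro f hf h
    have h1 := hL.LS (S.p • f) (LF_le (nsmul_mem (AddSubgroup.mem_inf.1 hf).1 _))
    have h2 := (h1.mulP0 h).neg
    have e1 : -(S.X (S.p • f) * (S.X (-(S.p • f)) - 1)) = S.X (S.p • f) - 1 := by
      rw [mul_sub, X_neg S.X0 S.Xa]
      ring
    rw [e1, X_nsmul S.X0 S.Xa] at h2
    have hfl : Lg (RZ S z a j) Q S.l (S.X f - 1) :=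
      hL.Le f (AddSubgroup.mem_inf.1 hf).1 (AddSubgroup.mem_inf.1 hf).2
    have hf0 : Lg (RZ S z a j) Q 0 (S.X f - 1) := hfl.low hR.s (by positivity)
    obtain ⟨r, hr⟩ := exists_add_pow_prime_eq S.pp (1 : LgR (RZ S z a j) Q) ⟨S.X f - 1, hf0⟩
    have h3 := congrArg Subtype.val hr
    push_cast at h3
    have e2 : (1 : K) + (S.X f - 1) = S.X f := by ring
    rw [e2] at h3
    have e3 : (S.X f - 1) ^ S.p = (S.X f ^ S.p - 1) - (r : K) * ((S.p : K) * (S.X f - 1)) := by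
      rw [h3]
      ring
    refine Pg.of_pow hfl S.p ?_
    rw [e3]
    refine Pg.sub ?_ ?_
    · have e4 : ((S.p : ℕ) : ℤ) * S.l = ((S.p * S.l : ℕ) : ℤ) := by push_cast; ring
      rw [e4]
      exact h2
    · have h4 := (mem_LgR.1 r.2).mulP0 (hpP.mulL hfl)
      have e4 : (((S.p - 1) * S.l : ℕ) : ℤ) + S.l = ((S.p : ℕ) : ℤ) * S.l := by
        obtain ⟨q, hq⟩ : ∃ q, S.p = q + 1 := ⟨S.p - 1, by omega⟩
        rw [hq, Nat.add_sub_cancel]
        push_cast
        ring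
      rwa [e4] at h4
  have hyL : ∀ e ∈ L, Pg (RZ S z a j) Q S.l (S.X e - 1) := by
    intro e he
    obtain ⟨g, hg, hg2⟩ := dl_pred S.pp (AddSubgroup.mem_inf.1 he).2
    have hgL : g ∈ L := by
      refine (AddSubgroup.closure_le _).2 ?_ hg
      rintro _ ⟨i, rfl⟩
      exact hdmem i he
    have hdg : dl S.t g ∈ L := hL.dL hgL
    have h1 := hya (S.p - 1 - 1) he
    rw [Nat.sub_add_cancel hp1, Nat.sub_add_cancel S.pp.one_le, hg2] at h1
    have h2 := hf _ (add_mem he hdg) h1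
    have h3 := hya 0 hgL
    rw [zero_add, Function.iterate_one] at h3
    have h4 : Pg (RZ S z a j) Q S.l (S.X (dl S.t g) - 1) := by
      refine h3.low hR.s ?_
      push_cast
      linarith [S.l0]
    have h5 := hL.LS (-(dl S.t g)) (LF_le (neg_mem (AddSubgroup.mem_inf.1 hdg).1))
    have h6 := h5.mulP0 (h2.sub h4)
    have e1 : S.X (-(dl S.t g)) * (S.X (e + dl S.t g) - 1 - (S.X (dl S.t g) - 1)) =
        S.X e - 1 := by
      rw [S.Xa, S.Xneg]
      have := S.Xne (dl S.t g)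
      field_simp
      ring
    rwa [e1] at h6
  -- the moves
  have hmv : ∀ s ∈ SF b J, ∀ s' ∈ SF b J, s - s' ∈ KN S.t S.p →
      Pg (RZ S z a j) Q S.l (S.X s - S.X s') := by
    intro s hs s' hs' hN
    refine moves (t := S.t) (p := S.p) S.X0 S.Xa hL.hS S.pp.pos S.tp (PgA (RZ S z a j) Q S.l)
      ?_ ?_ ?_ hs hs' hN
    · intro s hs x hx
      exact (hL.LS s hs).mulP0 hx
    · intro s hs
      have h1 := (hdel (hL.LS s hs)).2.2
      rwa [zero_add, S.τX] at h1
    · intro e he heN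
      exact hyL e (AddSubgroup.mem_inf.2 ⟨he, heN⟩)
  have hD : ∀ i, 1 ≤ i → i ≤ S.p → ∀ x ∈ S.D i,
      Pg (RZ S z a j) Q ((i * S.l : ℕ) : ℤ) (x / S.X w) := by
    intro i hi hip x hx
    rcases Nat.eq_or_lt_of_le hi with h | h
    · subst h
      rw [S.D1] at hx
      rw [one_mul]
      induction hx using AddSubgroup.closure_induction with
      | mem x hx =>
        obtain ⟨m1, hm1, m2, hm2, hN, rfl⟩ := hx
        have h1 := hmv _ (hL.cone m1 hm1) _ (hL.cone m2 hm2) (by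
          rw [sub_sub_sub_cancel_right]; exact hN)
        rwa [S.Xsub, S.Xsub, ← sub_div] at h1
      | zero => rw [zero_div]; exact Pg.zero _
      | add x y _ _ hx hy => rw [add_div]; exact hx.add hy
      | neg x _ hx => rw [neg_div]; exact hx.neg
    · obtain ⟨i', rfl⟩ : ∃ i', i = i' + 1 := ⟨i - 1, by omega⟩
      rw [S.Ds i' (by omega)] at hx
      induction hx using AddSubgroup.closure_induction with
      | mem x hx =>
        obtain ⟨y, hy, rfl⟩ := hx
        have h1 := hN2 i' (by omega) y hy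
        have e1 : ((i' * S.l : ℕ) : ℤ) + S.l = (((i' + 1) * S.l : ℕ) : ℤ) := by push_cast; ring
        rwa [e1] at h1
      | zero => rw [zero_div]; exact Pg.zero _
      | add x y _ _ hx hy => rw [add_div]; exact hx.add hy
      | neg x _ hx => rw [neg_div]; exact hx.neg
  -- the generators
  refine (Pool.Agent.Y872.H.pos_gen (k := k) _ (RZ S z a j) hRA Q (fun x hx => ?_) f ‹_› d hd)
  rcases hgens x hx with h' | ⟨x', hx', rfl⟩ | ⟨o, rfl⟩ | ⟨i, rfl⟩
  · exact ⟨-1, 1, h', fun h => absurd h (by norm_num)⟩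
  · exact ⟨1, _, rfl, fun _ => hone x' hx'⟩
  · exact ⟨0, _, rfl, fun h => absurd h (lt_irrefl _)⟩
  · refine ⟨_, _, rfl, fun h => ?_⟩
    have hi : 1 ≤ a i := by
      by_contra hcon
      have : a i = 0 := by omega
      rw [this, Nat.zero_mul, Nat.cast_zero] at h
      exact lt_irrefl _ h
    have h1 := hD _ hi (hC.ap i) _ (hC.zD i)
    obtain ⟨-, h2⟩ := Lg.unit hL.cw hL.cn
    have h3 := h2.mulP0 h1
    have e1 : (c / S.X w)⁻¹ * (z i / S.X w) = z i / c := by field_simp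
    rw [e1] at h3
    exact h3.mem (WR_z i)

end

end Pool.Agent.Zk15
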