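import Pool.Agent.Zk10.W2

/-!
# The filtration of the coordinate ring of an affine curve over a perfect field

The proofs are those of `Pool.Agent.Zk10.Cf` and `Pool.Agent.Zk10.Cf2` (algebraically closed
fields), with `pf_res` for the points which are not rational.
-/

set_option autoImplicit false
set_option linter.all false

namespace Pool.Agent.Zk15.PG

open Pool.Agent.Zk10.PG

/-- an ideal containing all `τ x - x` contains all `s x - x` -/
theorem cf_mul {k B : Type} [Field k] [CommRing B] [Algebra k B] (I : Ideal B)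
    (s t : B ≃ₐ[k] B) (hs : ∀ x, s x - x ∈ I) (ht : ∀ x, t x - x ∈ I) (x : B) :
    (t * s) x - x ∈ I := by
  have : (t * s) x - x = (t (s x) - s x) + (s x - x) := by
    rw [AlgEquiv.mul_apply]; ring
  rw [this]
  exact I.add_mem (ht _) (hs _)

theorem cf_pow {k B : Type} [Field k] [CommRing B] [Algebra k B] (I : Ideal B)
    (s : B ≃ₐ[k] B) (hs : ∀ x, s x - x ∈ I) (n : ℕ) : ∀ x, (s ^ n) x - x ∈ I := by
  induction n with
  | zero => intro x; simp
  | succ n ih => intro x; rw [pow_succ]; exact cf_mul I s (s ^ n) hs ih x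

theorem cf_powers {G : Type} [Group G] (p : ℕ) [Fact p.Prime] (τ : G) (hτ : τ ^ p = 1)
    {s : G} (hs : s ∈ Subgroup.zpowers τ) : ∃ n : ℕ, τ ^ n = s := by
  have hf : IsOfFinOrder τ := isOfFinOrder_iff_pow_eq_one.2 ⟨p, (Fact.out : p.Prime).pos, hτ⟩
  exact (hf.mem_powers_iff_mem_zpowers.2 hs)

theorem cf_gen {G : Type} [Group G] (p : ℕ) [Fact p.Prime] (τ : G) (hτ : τ ^ p = 1)
    {s : G} (hs : s ∈ Subgroup.zpowers τ) (hs1 : s ≠ 1) :
    ∃ n : ℕ, s ^ n = τ := by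
  obtain ⟨n, rfl⟩ := cf_powers p τ hτ hs
  have hp : p.Prime := Fact.out
  have ho : orderOf τ = p := by
    refine orderOf_eq_prime hτ ?_
    rintro rfl
    exact hs1 (one_pow n)
  apply exists_pow_eq_self_of_coprime
  rw [ho]
  refine ((Nat.Prime.coprime_iff_not_dvd hp).2 ?_).symm
  rintro ⟨m, rfl⟩
  apply hs1
  rw [pow_mul, hτ, one_pow]

/-- stability of the powers -/
theorem cf_stab {k B : Type} [Field k] [CommRing B] [Algebra k B] (P : Ideal B)
    (s : B ≃ₐ[k] B) (hs : ∀ x, s x - x ∈ P) (n : ℕ) (x : B) (hx : x ∈ P ^ n) : s x ∈ P ^ n := by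
  have h1 : P ≤ P.comap (s : B →+* B) := by
    intro y hy
    show s y ∈ P
    have : s y = (s y - y) + y := by ring
    rw [this]
    exact P.add_mem (hs y) hy
  have h2 : P ^ n ≤ (P ^ n).comap (s : B →+* B) :=
    (Ideal.pow_right_mono h1 n).trans (Ideal.le_comap_pow _ n)
  exact h2 hx

/-- Leibniz on powers -/
theorem cf_leib {k B : Type} [Field k] [CommRing B] [Algebra k B] (P : Ideal B) (l : ℕ)
    (s : B ≃ₐ[k] B) (hs : ∀ x, s x - x ∈ P ^ (l + 1)) (n : ℕ) :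
    ∀ x, x ∈ P ^ n → s x - x ∈ P ^ (n + l) := by
  have hs0 : ∀ x, s x - x ∈ P := fun x => by
    have := hs x
    exact Ideal.pow_le_self (Nat.succ_ne_zero l) this
  induction n with
  | zero =>
    intro x _
    exact Ideal.pow_le_pow_right (by omega) (hs x)
  | succ n ih =>
    intro x hx
    rw [pow_succ] at hx
    refine Submodule.mul_induction_on hx ?_ ?_
    · intro a ha b hb
      have hb' : s b ∈ P := by
        have : s b = (s b - b) + b := by ring
        rw [this]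
        exact P.add_mem (hs0 b) hb
      have h1 : s (a * b) - a * b = (s a - a) * s b + a * (s b - b) := by
        rw [map_mul]; ring
      rw [h1]
      refine Ideal.add_mem _ ?_ ?_
      · have h2 := Ideal.mul_mem_mul (ih a ha) hb'
        rw [← pow_succ] at h2
        convert h2 using 2
        omega
      · have h2 := Ideal.mul_mem_mul ha (hs b)
        rw [← pow_add] at h2
        convert h2 using 2
        omega
    · intro a b ha hb
      have : s (a + b) - (a + b) = (s a - a) + (s b - b) := by rw [map_add]; ring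
      rw [this]
      exact Ideal.add_mem _ ha hb

/-- It is enough to know the action on the maximal ideal. -/
theorem pf_res {k B : Type} [Field k] [PerfectField k] [CommRing B] [IsDomain B]
    [IsDedekindDomain B] [Algebra k B] [Algebra.FiniteType k B] {P : Ideal B} (hP : P.IsMaximal)
    (s : B ≃ₐ[k] B) (hs : ∀ x, s x - x ∈ P) (m : ℕ) (hm : ∀ w ∈ P, s w - w ∈ P ^ m) (x : B) :
    s x - x ∈ P ^ m := by
  haveI := hP.isPrime
  letI : Field (B ⧸ P) := Ideal.Quotient.field P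
  haveI : Algebra.FiniteType k (B ⧸ P) :=
    Algebra.FiniteType.of_surjective (Ideal.Quotient.mkₐ k P) (Ideal.Quotient.mkₐ_surjective k P)
  haveI : Module.Finite k (B ⧸ P) := finite_of_finite_type_of_isJacobsonRing k (B ⧸ P)
  have hsep : (minpoly k (Ideal.Quotient.mk P x)).Separable :=
    Algebra.IsSeparable.isSeparable k (Ideal.Quotient.mk P x)
  set f := minpoly k (Ideal.Quotient.mk P x) with hf
  have h0 : Polynomial.aeval (Ideal.Quotient.mk P x) f = 0 := minpoly.aeval _ _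
  have h1 : Polynomial.aeval (Ideal.Quotient.mk P x) (Polynomial.derivative f) ≠ 0 :=
    hsep.aeval_derivative_ne_zero h0
  have hmk : ∀ g : Polynomial k, Ideal.Quotient.mk P (Polynomial.aeval x g) =
      Polynomial.aeval (Ideal.Quotient.mk P x) g := fun g =>
    (Polynomial.aeval_algHom_apply (Ideal.Quotient.mkₐ k P) x g).symm
  have h2 : Polynomial.aeval x f ∈ P := by
    rw [← Ideal.Quotient.eq_zero_iff_mem, hmk, h0]
  have h3 : Polynomial.aeval x (Polynomial.derivative f) ∉ P := by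
    rw [← Ideal.Quotient.eq_zero_iff_mem, hmk]
    exact h1
  have h4 : s (Polynomial.aeval x f) = Polynomial.aeval (s x) f :=
    (Polynomial.aeval_algHom_apply (s : B →ₐ[k] B) x f).symm
  obtain ⟨q, hq⟩ := Polynomial.binomExpansion (f.map (algebraMap k B)) x (s x - x)
  rw [add_sub_cancel, Polynomial.eval_map_algebraMap, Polynomial.eval_map_algebraMap,
    Polynomial.derivative_map, Polynomial.eval_map_algebraMap] at hq
  have h5 := hm _ h2
  rw [h4, hq] at h5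
  have h6 : (Polynomial.aeval x (Polynomial.derivative f) + q * (s x - x)) * (s x - x) ∈
      P ^ m := by
    have e : (Polynomial.aeval x (Polynomial.derivative f) + q * (s x - x)) * (s x - x) =
        Polynomial.aeval x f + Polynomial.aeval x (Polynomial.derivative f) * (s x - x) +
          q * (s x - x) ^ 2 - Polynomial.aeval x f := by ring
    rw [e]
    exact h5
  rcases Ideal.IsPrime.mul_mem_pow P h6 with h7 | h7
  · exfalso
    apply h3
    have := P.sub_mem h7 (P.mul_mem_left q (hs x))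
    rwa [add_sub_cancel_right] at this
  · exact h7

section cyc

variable {k B : Type} [Field k] [PerfectField k] (p : ℕ) [Fact p.Prime] [CharP k p] [CommRing B]
  [IsDomain B] [IsDedekindDomain B] [Algebra k B] [Algebra.FiniteType k B] (τ : B ≃ₐ[k] B)
  (hτ : τ ^ p = 1)

omit [PerfectField k] [IsDedekindDomain B] [Algebra.FiniteType k B] in
theorem cf_ne (h1 : τ ≠ 1) : ∃ x, τ x ≠ x := by
  by_contra h
  push Not at h
  exact h1 (AlgEquiv.ext h)

theorem cf_bot (h1 : τ ≠ 1) {P : Ideal B} (hP : P ∈ Fx (Subgroup.zpowers τ : Set (B ≃ₐ[k] B))) :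
    P ≠ ⊥ := by
  rintro rfl
  obtain ⟨x, hx⟩ := cf_ne τ h1
  have := hP.2 τ (Subgroup.mem_zpowers τ) x
  rw [Ideal.mem_bot, sub_eq_zero] at this
  exact hx this

/-- the elements of `P` modulo `P ^ 2` -/
theorem cf_expand {P : Ideal B} (hP : P.IsMaximal) (hb : P ≠ ⊥) {y : B} (hy : y ∈ P)
    (hy2 : y ∉ P ^ 2) (x : B) (hx : x ∈ P) : ∃ d e : B, e ∈ P ^ 2 ∧ x = d * y + e := by
  haveI := hP.isPrime
  obtain ⟨d, e, he, hde⟩ := Ideal.exists_mul_add_mem_pow_succ (P := P) (i := 1) hb y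
    x (by simpa using hy) (by simpa using hy2) (by simpa using hx)
  exact ⟨d, e, he, by rw [← hde]; ring⟩

theorem cf_unif {P : Ideal B} (hP : P.IsMaximal) (hb : P ≠ ⊥) : ∃ y, y ∈ P ∧ y ∉ P ^ 2 := by
  have h : P ^ 2 < P := by
    have h2 : P ^ 2 < P ^ 1 := Ideal.pow_right_strictAnti P hb hP.ne_top (by norm_num)
    simpa using h2
  obtain ⟨y, hy, hy2⟩ := Set.exists_of_ssubset (SetLike.coe_ssubset_coe.2 h)
  exact ⟨y, hy, hy2⟩

include hτ

/-- trivial action modulo `P ^ 2` -/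
theorem cf_two (h1 : τ ≠ 1) {P : Ideal B} (hP : P ∈ Fx (Subgroup.zpowers τ : Set (B ≃ₐ[k] B)))
    (x : B) : τ x - x ∈ P ^ 2 := by
  have hb : P ≠ ⊥ := cf_bot τ h1 hP
  have hτP : ∀ x, τ x - x ∈ P := hP.2 τ (Subgroup.mem_zpowers τ)
  obtain ⟨y, hy, hy2⟩ := cf_unif hP.1 hb
  haveI := hP.1.isPrime
  -- the scalar
  have hτy : τ y ∈ P := by simpa using cf_stab P τ hτP 1 y (by simpa using hy)
  obtain ⟨c, w, hw, hc⟩ := cf_expand hP.1 hb hy hy2 (τ y) hτy
  -- iterate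
  have hit : ∀ n : ℕ, ∃ z ∈ P ^ 2, (τ ^ n) y = c ^ n * y + z := by
    intro n
    induction n with
    | zero => exact ⟨0, Ideal.zero_mem _, by simp⟩
    | succ n ih =>
      obtain ⟨z, hz, hn⟩ := ih
      refine ⟨(τ (c ^ n) - c ^ n) * τ y + c ^ n * w + τ z, ?_, ?_⟩
      · refine Ideal.add_mem _ (Ideal.add_mem _ ?_ (Ideal.mul_mem_left _ _ hw))
          (cf_stab P τ hτP 2 z hz)
        rw [pow_two]
        exact Ideal.mul_mem_mul (hτP _) hτy
      · rw [pow_succ', AlgEquiv.mul_apply, hn, map_add, map_mul, pow_succ]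
        have h3 : (τ (c ^ n) - c ^ n) * τ y + c ^ n * w = τ (c ^ n) * τ y - c ^ n * c * y := by
          rw [show w = τ y - c * y by rw [hc]; ring]
          ring
        rw [h3]
        ring
  obtain ⟨z, hz, hn⟩ := hit p
  rw [hτ] at hn
  have hcp : 1 - c ^ p ∈ P := by
    by_contra h
    apply hy2
    have h2 : (1 - c ^ p) * y = z := by
      rw [AlgEquiv.one_apply] at hn
      linear_combination hn
    have h3 : (1 - c ^ p) * y ∈ P ^ 2 := by rw [h2]; exact hz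
    rcases Ideal.IsPrime.mul_mem_pow P h3 with h4 | h4
    · exact absurd h4 h
    · exact h4
  have hc1 : c - 1 ∈ P := by
    haveI : CharP B p := charP_of_injective_algebraMap (algebraMap k B).injective p
    have h2 : (c - 1) ^ p ∈ P := by
      rw [sub_pow_char, one_pow]
      have := P.neg_mem hcp
      rwa [neg_sub] at this
    exact hP.1.isPrime.mem_of_pow_mem _ h2
  have hyy : τ y - y ∈ P ^ 2 := by
    have h2 : τ y - y = (c - 1) * y + w := by rw [hc]; ring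
    rw [h2]
    refine Ideal.add_mem _ ?_ hw
    rw [pow_two]
    exact Ideal.mul_mem_mul hc1 hy
  refine pf_res hP.1 τ hτP 2 (fun x hx => ?_) x
  obtain ⟨d, e, he, hx⟩ := cf_expand hP.1 hb hy hy2 x hx
  have h2 : τ x - x = (τ d - d) * τ y + d * (τ y - y) + (τ e - e) := by
    rw [hx, map_add, map_mul]; ring
  rw [h2]
  refine Ideal.add_mem _ (Ideal.add_mem _ ?_ (Ideal.mul_mem_left _ _ hyy))
    (Ideal.sub_mem _ (cf_stab P τ hτP 2 e he) he)
  rw [pow_two]
  exact Ideal.mul_mem_mul (hτP _) hτy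

theorem fx_finite (h1 : τ ≠ 1) : (Fx (Subgroup.zpowers τ : Set (B ≃ₐ[k] B))).Finite := by
  obtain ⟨x, hx⟩ := cf_ne τ h1
  have hI : Ideal.span {τ x - x} ≠ (0 : Ideal B) := by
    rw [Ideal.zero_eq_bot, Ne, Ideal.span_singleton_eq_bot, sub_eq_zero]
    exact hx
  have hf := Ideal.finite_factors hI
  refine (hf.image (fun v => v.asIdeal)).subset ?_
  intro P hP
  refine ⟨⟨P, hP.1.isPrime, cf_bot τ h1 hP⟩, ?_, rfl⟩
  show P ∣ Ideal.span {τ x - x}
  rw [Ideal.dvd_iff_le, Ideal.span_singleton_le_iff_mem]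
  exact hP.2 τ (Subgroup.mem_zpowers τ) x

omit [PerfectField k] [Fact p.Prime] [CharP k p] [Algebra.FiniteType k B] hτ in
theorem cf_bdd (h1 : τ ≠ 1) {P : Ideal B} (hP : P ≠ ⊤) :
    BddAbove {l | ∀ s ∈ (Subgroup.zpowers τ : Set (B ≃ₐ[k] B)), ∀ x, s x - x ∈ P ^ (l + 1)} := by
  obtain ⟨x, hx⟩ := cf_ne τ h1
  have hk := Ideal.iInf_pow_eq_bot_of_isDomain P hP
  have : τ x - x ∉ (⨅ i : ℕ, P ^ i : Ideal B) := by
    rw [hk, Ideal.mem_bot, sub_eq_zero]; exact hx
  rw [Ideal.mem_iInf] at this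
  push Not at this
  obtain ⟨N, hN⟩ := this
  refine ⟨N, ?_⟩
  intro l hl
  by_contra h
  push Not at h
  exact hN (Ideal.pow_le_pow_right (by omega) (hl τ (Subgroup.mem_zpowers τ) x))

/-- a bound for all `τ x - x` is a bound for the break -/
theorem cf_le_br (h1 : τ ≠ 1) {P : Ideal B} (hP : P ≠ ⊤) {l : ℕ}
    (hl : ∀ x, τ x - x ∈ P ^ (l + 1)) : l ≤ br (Subgroup.zpowers τ : Set (B ≃ₐ[k] B)) P := by
  refine le_csSup (cf_bdd τ h1 hP) ?_
  intro s hs x
  obtain ⟨n, rfl⟩ := cf_powers p τ hτ hs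
  exact cf_pow _ τ hl n x

theorem br_pos (h1 : τ ≠ 1) {P : Ideal B} (hP : P ∈ Fx (Subgroup.zpowers τ : Set (B ≃ₐ[k] B))) :
    0 < br (Subgroup.zpowers τ : Set (B ≃ₐ[k] B)) P :=
  cf_le_br p τ hτ h1 hP.1.ne_top (l := 1) (cf_two p τ hτ h1 hP)

omit hτ in
theorem cf_mem (h1 : τ ≠ 1) {P : Ideal B} (hP : P ∈ Fx (Subgroup.zpowers τ : Set (B ≃ₐ[k] B)))
    (s : B ≃ₐ[k] B) (hs : s ∈ Subgroup.zpowers τ) (x : B) :
    s x - x ∈ P ^ (br (Subgroup.zpowers τ : Set (B ≃ₐ[k] B)) P + 1) := by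
  have := Nat.sSup_mem (s := {l | ∀ s ∈ (Subgroup.zpowers τ : Set (B ≃ₐ[k] B)), ∀ x,
    s x - x ∈ P ^ (l + 1)}) ⟨0, fun s hs x => by simpa using hP.2 s hs x⟩
    (cf_bdd τ h1 hP.1.ne_top)
  exact this s hs x

/-- Powers of the maximal ideal. -/
theorem br_pow (h1 : τ ≠ 1) {P : Ideal B} (hP : P ∈ Fx (Subgroup.zpowers τ : Set (B ≃ₐ[k] B)))
    (n : ℕ) (x : B) (hx : x ∈ P ^ n) (s : B ≃ₐ[k] B) (hs : s ∈ Subgroup.zpowers τ) :
    s x - x ∈ P ^ (n + br (Subgroup.zpowers τ : Set (B ≃ₐ[k] B)) P) :=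
  cf_leib P _ s (cf_mem τ h1 hP s hs) n x hx

/-- Uniformizers. -/
theorem br_unif (h1 : τ ≠ 1) {P : Ideal B} (hP : P ∈ Fx (Subgroup.zpowers τ : Set (B ≃ₐ[k] B)))
    (y : B) (hy : y ∈ P) (hy2 : y ∉ P ^ 2) (s : B ≃ₐ[k] B) (hs : s ∈ Subgroup.zpowers τ)
    (hs1 : s ≠ 1) : s y - y ∉ P ^ (br (Subgroup.zpowers τ : Set (B ≃ₐ[k] B)) P + 2) := by
  intro hsy
  have hb : P ≠ ⊥ := cf_bot τ h1 hP
  have hsP : ∀ x, s x - x ∈ P := hP.2 s hs
  have hsy' : s y ∈ P := by simpa using cf_stab P s hsP 1 y (by simpa using hy)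
  have hall : ∀ x, s x - x ∈ P ^ (br (Subgroup.zpowers τ : Set (B ≃ₐ[k] B)) P + 1 + 1) := by
    intro x
    refine pf_res hP.1 s hsP _ (fun x hx => ?_) x
    obtain ⟨d, e, he, hx⟩ := cf_expand hP.1 hb hy hy2 x hx
    have h2 : s x - x = (s d - d) * s y + d * (s y - y) + (s e - e) := by
      rw [hx, map_add, map_mul]; ring
    rw [h2]
    refine Ideal.add_mem _ (Ideal.add_mem _ ?_ (Ideal.mul_mem_left _ _ hsy)) ?_
    · rw [pow_succ]
      exact Ideal.mul_mem_mul (cf_mem τ h1 hP s hs d) hsy'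
    · have h := br_pow p τ hτ h1 hP 2 e he s hs
      convert h using 2
      omega
  obtain ⟨n, hn⟩ := cf_gen p τ hτ hs hs1
  have hτ' : ∀ x, τ x - x ∈ P ^ (br (Subgroup.zpowers τ : Set (B ≃ₐ[k] B)) P + 1 + 1) := by
    intro x
    have := cf_pow _ s hall n x
    rwa [hn] at this
  have := cf_le_br p τ hτ h1 hP.1.ne_top hτ'
  omega


variable {D : ℕ} (hD : 0 < D)
  (hbr : ∀ P ∈ Fx (Subgroup.zpowers τ : Set (B ≃ₐ[k] B)),
    br (Subgroup.zpowers τ : Set (B ≃ₐ[k] B)) P ∣ D)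


omit [PerfectField k] [Fact p.Prime] [CharP k p] [IsDomain B] [IsDedekindDomain B]
  [Algebra.FiniteType k B] hτ in
theorem cf_nontriv (h1 : τ ≠ 1) : ¬ ∀ s ∈ (Subgroup.zpowers τ : Set (B ≃ₐ[k] B)), s = 1 :=
  fun h => h1 (h τ (Subgroup.mem_zpowers τ))

omit [PerfectField k] [Fact p.Prime] [CharP k p] [IsDomain B] [IsDedekindDomain B]
  [Algebra.FiniteType k B] hτ in
theorem cf_triv (h1 : τ = 1) : ∀ s ∈ (Subgroup.zpowers τ : Set (B ≃ₐ[k] B)), s = 1 := by
  subst h1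
  intro s hs
  simpa using hs

omit [PerfectField k] [Fact p.Prime] [CharP k p] [IsDomain B] [IsDedekindDomain B]
  [Algebra.FiniteType k B] hτ in
theorem cf_fil_triv (h1 : τ = 1) (n : ℕ) : (Fil (Subgroup.zpowers τ : Set (B ≃ₐ[k] B)) D) n = if n = 0 then ⊤ else ⊥ := by
  unfold Fil
  rw [if_pos (cf_triv τ h1)]

omit [PerfectField k] [Fact p.Prime] [CharP k p] [IsDomain B] [IsDedekindDomain B]
  [Algebra.FiniteType k B] hτ in
theorem cf_fil_mem (h1 : τ ≠ 1) (n : ℕ) (x : B) :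
    x ∈ (Fil (Subgroup.zpowers τ : Set (B ≃ₐ[k] B)) D) n ↔ ∀ P ∈ Fx (Subgroup.zpowers τ : Set (B ≃ₐ[k] B)), x ∈ P ^ ((n * br (Subgroup.zpowers τ : Set (B ≃ₐ[k] B)) P + (D - 1)) / D) := by
  unfold Fil
  rw [if_neg (cf_nontriv τ h1)]
  simp only [Ideal.mem_iInf]

theorem cf_fil_prod (h1 : τ ≠ 1) (n : ℕ) :
    (Fil (Subgroup.zpowers τ : Set (B ≃ₐ[k] B)) D) n = ∏ P ∈ (fx_finite p τ hτ h1).toFinset, P ^ ((n * br (Subgroup.zpowers τ : Set (B ≃ₐ[k] B)) P + (D - 1)) / D) := by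
  have h2 : ∀ P ∈ (fx_finite p τ hτ h1).toFinset, Prime P := by
    intro P hP
    rw [Set.Finite.mem_toFinset] at hP
    exact Ideal.prime_of_isPrime (cf_bot τ h1 hP) hP.1.isPrime
  have h3 := IsDedekindDomain.inf_pow_eq_prod_of_prime (fx_finite p τ hτ h1).toFinset
    (fun P : Ideal B => P) (fun P => (n * br (Subgroup.zpowers τ : Set (B ≃ₐ[k] B)) P + (D - 1)) / D) h2 (fun i _ j _ h => h)
  rw [← h3]
  ext x
  rw [cf_fil_mem τ h1, Finset.inf_eq_iInf]
  simp only [Ideal.mem_iInf, Set.Finite.mem_toFinset]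

include hD hbr

theorem fil_zero : (Fil (Subgroup.zpowers τ : Set (B ≃ₐ[k] B)) D) 0 = ⊤ := by
  by_cases h1 : τ = 1
  · rw [cf_fil_triv τ h1]; simp
  · rw [Ideal.eq_top_iff_one, cf_fil_mem τ h1]
    intro P hP
    have : (0 * br (Subgroup.zpowers τ : Set (B ≃ₐ[k] B)) P + (D - 1)) / D = 0 := by
      apply Nat.div_eq_of_lt
      omega
    rw [this, pow_zero, Ideal.one_eq_top]
    trivial

theorem fil_anti {m n : ℕ} (h : m ≤ n) : (Fil (Subgroup.zpowers τ : Set (B ≃ₐ[k] B)) D) n ≤ (Fil (Subgroup.zpowers τ : Set (B ≃ₐ[k] B)) D) m := by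
  by_cases h1 : τ = 1
  · rw [cf_fil_triv τ h1, cf_fil_triv τ h1]
    by_cases hn : n = 0
    · have hm : m = 0 := by omega
      simp [hm]
    · simp [hn]
  · intro x hx
    rw [cf_fil_mem τ h1] at hx ⊢
    intro P hP
    refine Ideal.pow_le_pow_right ?_ (hx P hP)
    exact Nat.div_le_div_right (Nat.add_le_add_right (Nat.mul_le_mul_right _ h) _)

theorem fil_mul (m n : ℕ) : (Fil (Subgroup.zpowers τ : Set (B ≃ₐ[k] B)) D) m * (Fil (Subgroup.zpowers τ : Set (B ≃ₐ[k] B)) D) n ≤ (Fil (Subgroup.zpowers τ : Set (B ≃ₐ[k] B)) D) (m + n) := by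
  by_cases h1 : τ = 1
  · rw [cf_fil_triv τ h1, cf_fil_triv τ h1, cf_fil_triv τ h1]
    by_cases hn : n = 0
    · by_cases hm : m = 0
      · simp [hm, hn]
      · simp [hm, hn]
    · simp [hn]
  · rw [Ideal.mul_le]
    intro x hx y hy
    rw [cf_fil_mem τ h1] at hx hy ⊢
    intro P hP
    have h := Ideal.mul_mem_mul (hx P hP) (hy P hP)
    rw [← pow_add] at h
    refine Ideal.pow_le_pow_right ?_ h
    have a1 : m * br (Subgroup.zpowers τ : Set (B ≃ₐ[k] B)) P ≤ D * ((m * br (Subgroup.zpowers τ : Set (B ≃ₐ[k] B)) P + (D - 1)) / D) := by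
      have := Nat.lt_div_mul_add (a := m * br (Subgroup.zpowers τ : Set (B ≃ₐ[k] B)) P + (D - 1)) hD
      rw [Nat.mul_comm D]
      omega
    have a2 : n * br (Subgroup.zpowers τ : Set (B ≃ₐ[k] B)) P ≤ D * ((n * br (Subgroup.zpowers τ : Set (B ≃ₐ[k] B)) P + (D - 1)) / D) := by
      have := Nat.lt_div_mul_add (a := n * br (Subgroup.zpowers τ : Set (B ≃ₐ[k] B)) P + (D - 1)) hD
      rw [Nat.mul_comm D]
      omega
    rw [add_mul]
    apply Nat.le_of_lt_succ
    rw [Nat.div_lt_iff_lt_mul hD, Nat.succ_mul, Nat.add_mul, Nat.mul_comm _ D, Nat.mul_comm _ D]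
    omega

theorem cf_exp (n : ℕ) (P : Ideal B) :
    ((n + D) * br (Subgroup.zpowers τ : Set (B ≃ₐ[k] B)) P + (D - 1)) / D = (n * br (Subgroup.zpowers τ : Set (B ≃ₐ[k] B)) P + (D - 1)) / D + br (Subgroup.zpowers τ : Set (B ≃ₐ[k] B)) P := by
  have : (n + D) * br (Subgroup.zpowers τ : Set (B ≃ₐ[k] B)) P + (D - 1) = (n * br (Subgroup.zpowers τ : Set (B ≃ₐ[k] B)) P + (D - 1)) + D * br (Subgroup.zpowers τ : Set (B ≃ₐ[k] B)) P := by ring
  rw [this, Nat.add_mul_div_left _ _ hD]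

theorem fil_period (n : ℕ) : (Fil (Subgroup.zpowers τ : Set (B ≃ₐ[k] B)) D) (n + D) = (Fil (Subgroup.zpowers τ : Set (B ≃ₐ[k] B)) D) D * (Fil (Subgroup.zpowers τ : Set (B ≃ₐ[k] B)) D) n := by
  by_cases h1 : τ = 1
  · rw [cf_fil_triv τ h1, cf_fil_triv τ h1, cf_fil_triv τ h1]
    have h2 : n + D ≠ 0 := by omega
    have h3 : D ≠ 0 := by omega
    simp [h2, h3]
  · rw [cf_fil_prod p τ hτ h1, cf_fil_prod p τ hτ h1, cf_fil_prod p τ hτ h1,
      ← Finset.prod_mul_distrib]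
    refine Finset.prod_congr rfl ?_
    intro P _
    rw [← pow_add]
    congr 1
    have h2 := cf_exp p τ hτ hD hbr n P
    have h3 := cf_exp p τ hτ hD hbr 0 P
    have h4 : (0 * br (Subgroup.zpowers τ : Set (B ≃ₐ[k] B)) P + (D - 1)) / D = 0 := by
      apply Nat.div_eq_of_lt
      omega
    rw [h4, zero_add, zero_add] at h3
    rw [h2, h3, add_comm]

theorem fil_delta (s : B ≃ₐ[k] B) (hs : s ∈ Subgroup.zpowers τ) (n : ℕ) (x : B) (hx : x ∈ (Fil (Subgroup.zpowers τ : Set (B ≃ₐ[k] B)) D) n) :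
    s x - x ∈ (Fil (Subgroup.zpowers τ : Set (B ≃ₐ[k] B)) D) (n + D) := by
  by_cases h1 : τ = 1
  · have : s = 1 := cf_triv τ h1 s hs
    rw [this]
    simp
  · rw [cf_fil_mem τ h1] at hx ⊢
    intro P hP
    rw [cf_exp p τ hτ hD hbr n P]
    exact br_pow p τ hτ h1 hP _ x (hx P hP) s hs

/-- exponents at the point itself -/
theorem cf_exp_self {P : Ideal B} (h1 : τ ≠ 1) (hP : P ∈ Fx (Subgroup.zpowers τ : Set (B ≃ₐ[k] B))) :
    ((D / br (Subgroup.zpowers τ : Set (B ≃ₐ[k] B)) P) * br (Subgroup.zpowers τ : Set (B ≃ₐ[k] B)) P + (D - 1)) / D = 1 := by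
  rw [Nat.div_mul_cancel (hbr P hP)]
  have : D + (D - 1) = (D - 1) + D * 1 := by ring
  rw [this, Nat.add_mul_div_left _ _ hD, Nat.div_eq_of_lt (by omega)]

theorem cf_exp_co {P : Ideal B} (h1 : τ ≠ 1) (hP : P ∈ Fx (Subgroup.zpowers τ : Set (B ≃ₐ[k] B))) :
    ((D - D / br (Subgroup.zpowers τ : Set (B ≃ₐ[k] B)) P) * br (Subgroup.zpowers τ : Set (B ≃ₐ[k] B)) P + (D - 1)) / D = br (Subgroup.zpowers τ : Set (B ≃ₐ[k] B)) P - 1 := by
  have hb := br_pos p τ hτ h1 hP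
  have hd := Nat.div_mul_cancel (hbr P hP)
  have : (D - D / br (Subgroup.zpowers τ : Set (B ≃ₐ[k] B)) P) * br (Subgroup.zpowers τ : Set (B ≃ₐ[k] B)) P = D * (br (Subgroup.zpowers τ : Set (B ≃ₐ[k] B)) P - 1) := by
    rw [Nat.sub_mul, hd, Nat.mul_sub, Nat.mul_one]
  rw [this, add_comm, Nat.add_mul_div_left _ _ hD, Nat.div_eq_of_lt (by omega), zero_add]


omit hD hbr in
/-- the other points -/
theorem cf_erase [DecidableEq (Ideal B)] {P : Ideal B} (h1 : τ ≠ 1) (hP : P ∈ Fx (Subgroup.zpowers τ : Set (B ≃ₐ[k] B)))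
    (e : Ideal B → ℕ) : ¬ (∏ Q ∈ (fx_finite p τ hτ h1).toFinset.erase P, Q ^ e Q) ≤ P := by
  intro hle
  haveI := hP.1.isPrime
  rw [Ideal.IsPrime.prod_le hP.1.isPrime] at hle
  obtain ⟨Q, hQ, hle⟩ := hle
  have h2 : Q ≤ P := Ideal.IsPrime.le_of_pow_le hle
  rw [Finset.mem_erase, Set.Finite.mem_toFinset] at hQ
  exact hQ.1 (hQ.2.1.eq_of_le hP.1.ne_top h2)

theorem fil_loc (h1 : τ ≠ 1) {P : Ideal B}
    (hP : P ∈ Fx (Subgroup.zpowers τ : Set (B ≃ₐ[k] B))) :
    ∃ y s, y ∈ P ∧ y ∉ P ^ 2 ∧ s ∉ P ∧ s * y ∈ (Fil (Subgroup.zpowers τ : Set (B ≃ₐ[k] B)) D) (D / br (Subgroup.zpowers τ : Set (B ≃ₐ[k] B)) P) := by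
  classical
  obtain ⟨y, hy, hy2⟩ := cf_unif hP.1 (cf_bot τ h1 hP)
  set S := (fx_finite p τ hτ h1).toFinset.erase P with hS
  set e : Ideal B → ℕ := fun Q => ((D / br (Subgroup.zpowers τ : Set (B ≃ₐ[k] B)) P) * br (Subgroup.zpowers τ : Set (B ≃ₐ[k] B)) Q + (D - 1)) / D with he
  have hn : ¬ (∏ Q ∈ S, Q ^ e Q) ≤ P := cf_erase p τ hτ h1 hP e
  obtain ⟨s, hs, hsP⟩ := Set.not_subset.1 hn
  refine ⟨y, s, hy, hy2, hsP, ?_⟩
  rw [cf_fil_mem τ h1]
  intro Q hQ
  by_cases hQP : Q = P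
  · subst hQP
    rw [cf_exp_self p τ hτ hD hbr h1 hQ, pow_one]
    exact Q.mul_mem_left _ hy
  · refine Ideal.mul_mem_right _ _ ?_
    have h3 : (∏ Q ∈ S, Q ^ e Q) ≤ Q ^ e Q := by
      refine Ideal.le_of_dvd (Finset.dvd_prod_of_mem (fun Q => Q ^ e Q) ?_)
      rw [hS, Finset.mem_erase, Set.Finite.mem_toFinset]
      exact ⟨hQP, hQ⟩
    exact h3 hs

/-- No zeros of the leading form. -/
theorem fil_nd (s : B ≃ₐ[k] B) (hs : s ∈ Subgroup.zpowers τ) (hs1 : s ≠ 1) :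
    (Fil (Subgroup.zpowers τ : Set (B ≃ₐ[k] B)) D) (2 * D) ≤ ⨆ n ∈ Finset.range (D + 1),
      Ideal.span {y | ∃ x ∈ (Fil (Subgroup.zpowers τ : Set (B ≃ₐ[k] B)) D) n, y = s x - x} * (Fil (Subgroup.zpowers τ : Set (B ≃ₐ[k] B)) D) (D - n) := by
  classical
  have h1 : τ ≠ 1 := fun h => hs1 (cf_triv τ h s hs)
  set J : Ideal B := ⨆ n ∈ Finset.range (D + 1),
      Ideal.span {y | ∃ x ∈ (Fil (Subgroup.zpowers τ : Set (B ≃ₐ[k] B)) D) n, y = s x - x} * (Fil (Subgroup.zpowers τ : Set (B ≃ₐ[k] B)) D) (D - n) with hJ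
  have hJn : ∀ n, n ≤ D → Ideal.span {y | ∃ x ∈ (Fil (Subgroup.zpowers τ : Set (B ≃ₐ[k] B)) D) n, y = s x - x} * (Fil (Subgroup.zpowers τ : Set (B ≃ₐ[k] B)) D) (D - n) ≤ J := by
    intro n hn
    exact le_iSup₂_of_le (f := fun n (_ : n ∈ Finset.range (D + 1)) =>
      Ideal.span {y | ∃ x ∈ (Fil (Subgroup.zpowers τ : Set (B ≃ₐ[k] B)) D) n, y = s x - x} * (Fil (Subgroup.zpowers τ : Set (B ≃ₐ[k] B)) D) (D - n)) n
      (Finset.mem_range.2 (by omega)) le_rfl
  -- the ideal of the `u` with `u (Fil (Subgroup.zpowers τ : Set (B ≃ₐ[k] B)) D)(2D) ≤ J`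
  let K : Ideal B :=
    { carrier := {u | ∀ z ∈ (Fil (Subgroup.zpowers τ : Set (B ≃ₐ[k] B)) D) (2 * D), u * z ∈ J}
      zero_mem' := fun z _ => by rw [zero_mul]; exact J.zero_mem
      add_mem' := fun {a b} ha hb z hz => by rw [add_mul]; exact J.add_mem (ha z hz) (hb z hz)
      smul_mem' := fun c a ha z hz => by
        rw [smul_eq_mul, mul_assoc]; exact J.mul_mem_left c (ha z hz) }
  have hK : K = ⊤ := by
    by_contra hK
    obtain ⟨P, hPm, hKP⟩ := Ideal.exists_le_maximal K hK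
    haveI := hPm.isPrime
    by_cases hP : P ∈ Fx (Subgroup.zpowers τ : Set (B ≃ₐ[k] B))
    · -- a fixed point
      set b := br (Subgroup.zpowers τ : Set (B ≃ₐ[k] B)) P with hb
      have hbp : 0 < b := br_pos p τ hτ h1 hP
      set n := D / b with hn
      have hnD : n ≤ D := Nat.div_le_self _ _
      obtain ⟨y, t, hy, hy2, ht, hty⟩ := fil_loc p τ hτ hD hbr h1 hP
      have hy' : t * y ∈ P := P.mul_mem_left _ hy
      have hy2' : t * y ∉ P ^ 2 := by
        intro h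
        rcases Ideal.IsPrime.mul_mem_pow P h with h | h
        · exact ht h
        · exact hy2 h
      set w := s (t * y) - t * y with hw
      have hw1 : w ∈ P ^ (b + 1) := cf_mem τ h1 hP s hs _
      have hw2 : w ∉ P ^ (b + 2) := br_unif p τ hτ h1 hP _ hy' hy2' s hs hs1
      obtain ⟨A, hA⟩ : P ^ (b + 1) ∣ Ideal.span {w} := by
        rw [Ideal.dvd_iff_le, Ideal.span_singleton_le_iff_mem]
        exact hw1
      have hAP : ¬ A ≤ P := by
        intro h
        apply hw2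
        have h2 : Ideal.span {w} ≤ P ^ (b + 2) := by
          rw [hA, pow_succ P (b + 1)]
          exact Ideal.mul_mono_right h
        exact h2 (Ideal.mem_span_singleton_self w)
      obtain ⟨C, hC, hCP⟩ : ∃ C : Ideal B, (Fil (Subgroup.zpowers τ : Set (B ≃ₐ[k] B)) D) (D - n) = P ^ (b - 1) * C ∧ ¬ C ≤ P := by
        refine ⟨_, ?_, cf_erase p τ hτ h1 hP
          (fun Q => ((D - n) * br (Subgroup.zpowers τ : Set (B ≃ₐ[k] B)) Q + (D - 1)) / D)⟩
        rw [cf_fil_prod p τ hτ h1, ← Finset.mul_prod_erase _ _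
          ((Set.Finite.mem_toFinset (fx_finite p τ hτ h1)).2 hP),
          cf_exp_co p τ hτ hD hbr h1 hP]
      obtain ⟨a, ha, haP⟩ := Set.not_subset.1 hAP
      obtain ⟨c, hc, hcP⟩ := Set.not_subset.1 hCP
      have hacK : a * c ∈ K := by
        intro z hz
        rw [cf_fil_mem τ h1] at hz
        have hz' := hz P hP
        have he : (2 * D * br (Subgroup.zpowers τ : Set (B ≃ₐ[k] B)) P + (D - 1)) / D = (b + 1) + (b - 1) := by
          have : 2 * D * br (Subgroup.zpowers τ : Set (B ≃ₐ[k] B)) P + (D - 1) = (D - 1) + D * (2 * b) := by rw [hb]; ring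
          rw [this, Nat.add_mul_div_left _ _ hD, Nat.div_eq_of_lt (by omega)]
          omega
        rw [he, pow_add] at hz'
        have h3 : z * (a * c) ∈ (P ^ (b + 1) * P ^ (b - 1)) * (A * C) :=
          Ideal.mul_mem_mul hz' (Ideal.mul_mem_mul ha hc)
        have h4 : (P ^ (b + 1) * P ^ (b - 1)) * (A * C) = Ideal.span {w} * (Fil (Subgroup.zpowers τ : Set (B ≃ₐ[k] B)) D) (D - n) := by
          rw [hA, hC]; ring
        rw [h4] at h3
        have h5 : Ideal.span {w} * (Fil (Subgroup.zpowers τ : Set (B ≃ₐ[k] B)) D) (D - n) ≤ J := by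
          refine le_trans (Ideal.mul_mono_left ?_) (hJn n hnD)
          rw [Ideal.span_singleton_le_iff_mem]
          exact Ideal.subset_span ⟨t * y, hty, rfl⟩
        rw [mul_comm]
        exact h5 h3
      rcases (Ideal.IsPrime.mem_or_mem hPm.isPrime (hKP hacK)) with h | h
      · exact haP h
      · exact hcP h
    · -- another point
      have : ∃ x, s x - x ∉ P := by
        by_contra h
        push Not at h
        apply hP
        refine ⟨hPm, ?_⟩
        obtain ⟨m, hm⟩ := cf_gen p τ hτ hs hs1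
        intro s' hs' x
        obtain ⟨l, rfl⟩ := cf_powers p τ hτ hs'
        rw [← hm, ← pow_mul]
        exact cf_pow P s h _ x
      obtain ⟨x, hx⟩ := this
      apply hx
      apply hKP
      intro z hz
      refine hJn 0 (Nat.zero_le _) (Ideal.mul_mem_mul ?_ ?_)
      · refine Ideal.subset_span ⟨x, ?_, rfl⟩
        rw [fil_zero p τ hτ hD hbr]
        trivial
      · exact fil_anti p τ hτ hD hbr (by omega) hz
  intro z hz
  have h1K : (1 : B) ∈ K := by rw [hK]; trivial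
  simpa using h1K z hz

end cyc

/-- Conjugation. -/
theorem fil_conj {k B : Type} [Field k] [CommRing B] [Algebra k B] (H H' : Set (B ≃ₐ[k] B))
    (g : B ≃ₐ[k] B) (h : ∀ s, s ∈ H ↔ g * s * g⁻¹ ∈ H') (D n : ℕ) (x : B) :
    x ∈ Fil H D n ↔ g x ∈ Fil H' D n := by
  classical
  let e : B ≃+* B := g.toRingEquiv
  -- the ideal `g I`
  let M : Ideal B → Ideal B := fun I => I.comap (e.symm : B →+* B)
  have hMmap : ∀ I : Ideal B, M I = I.map (e : B →+* B) := fun I => (Ideal.map_comap_of_equiv e).symm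
  have hM : ∀ (I : Ideal B) (z : B), z ∈ M I ↔ g.symm z ∈ I := fun I z => Iff.rfl
  have hMpow : ∀ (I : Ideal B) (m : ℕ), M (I ^ m) = M I ^ m := by
    intro I m
    rw [hMmap, hMmap, Ideal.map_pow]
  have hgx : ∀ (I : Ideal B) (z : B), g z ∈ M I ↔ z ∈ I := by
    intro I z
    rw [hM, AlgEquiv.symm_apply_apply]
  have hH : ∀ s' : B ≃ₐ[k] B, s' ∈ H' ↔ g⁻¹ * s' * g ∈ H := by
    intro s'
    rw [h]
    have : g * (g⁻¹ * s' * g) * g⁻¹ = s' := by group
    rw [this]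
  have hact : ∀ I : Ideal B, (∀ s ∈ H, ∀ x, s x - x ∈ I) ↔ (∀ s ∈ H', ∀ x, s x - x ∈ M I) := by
    intro I
    constructor
    · intro hs s' hs' z
      have h2 := hs _ ((hH s').1 hs') (g.symm z)
      rw [hM, map_sub]
      simpa [AlgEquiv.mul_apply] using h2
    · intro hs s hs' z
      have h2 := hs _ ((h s).1 hs') (g z)
      rw [← hgx, map_sub]
      simpa [AlgEquiv.mul_apply] using h2
  have hmax : ∀ I : Ideal B, I.IsMaximal ↔ (M I).IsMaximal := by
    intro I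
    constructor
    · intro hI
      exact Ideal.comap_isMaximal_of_equiv e.symm
    · intro hI
      have h2 : I = (M I).comap (e : B →+* B) := by
        ext z
        rw [Ideal.mem_comap]
        exact (hgx I z).symm
      rw [h2]
      exact Ideal.comap_isMaximal_of_equiv e
  have hFx : ∀ I : Ideal B, I ∈ Fx H ↔ M I ∈ Fx H' := fun I => and_congr (hmax I) (hact I)
  have hbr : ∀ I : Ideal B, br H I = br H' (M I) := by
    intro I
    unfold br
    congr 1
    ext l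
    show (∀ s ∈ H, ∀ x, s x - x ∈ I ^ (l + 1)) ↔ (∀ s ∈ H', ∀ x, s x - x ∈ M I ^ (l + 1))
    rw [hact, hMpow]
  have hsurj : ∀ I : Ideal B, ∃ I', M I' = I := by
    intro I
    refine ⟨I.comap (e : B →+* B), ?_⟩
    ext z
    rw [hM]
    show e (g.symm z) ∈ I ↔ z ∈ I
    have : e (g.symm z) = z := g.apply_symm_apply z
    rw [this]
  have htriv : (∀ s ∈ H, s = 1) ↔ (∀ s ∈ H', s = 1) := by
    constructor
    · intro hs s' hs'
      have h2 := hs _ ((hH s').1 hs')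
      have h3 : s' = g * (g⁻¹ * s' * g) * g⁻¹ := by group
      rw [h3, h2]; group
    · intro hs s hs'
      have h2 := hs _ ((h s).1 hs')
      have h3 : s = g⁻¹ * (g * s * g⁻¹) * g := by group
      rw [h3, h2]; group
  unfold Fil
  by_cases ht : ∀ s ∈ H, s = 1
  · rw [if_pos ht, if_pos (htriv.1 ht)]
    by_cases hn : n = 0
    · simp [hn]
    · simp [hn]
  · rw [if_neg ht, if_neg (fun h => ht (htriv.2 h))]
    simp only [Ideal.mem_iInf]
    constructor
    · intro hx P' hP'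
      obtain ⟨P, rfl⟩ := hsurj P'
      rw [← hMpow, hgx, ← hbr]
      exact hx P ((hFx P).2 hP')
    · intro hx P hP
      have h2 := hx (M P) ((hFx P).1 hP)
      rw [← hMpow, hgx, ← hbr] at h2
      exact h2

/-- local divisibility by powers of an element of valuation one -/
theorem cf_divpow {B : Type} [CommRing B] [IsDomain B] [IsDedekindDomain B] {P : Ideal B}
    (hP : P.IsPrime) {y : B} (hy : y ∈ P) (hy2 : y ∉ P ^ 2) :
    ∃ u, u ∉ P ∧ ∀ c : ℕ, ∀ x ∈ P ^ c, ∃ b, u ^ c * x = y ^ c * b := by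
  obtain ⟨A, hA⟩ : P ∣ Ideal.span {y} := by
    rw [Ideal.dvd_iff_le, Ideal.span_singleton_le_iff_mem]
    exact hy
  have hAP : ¬ A ≤ P := by
    intro h
    apply hy2
    have h2 : Ideal.span {y} ≤ P ^ 2 := by
      rw [hA, pow_two]
      exact Ideal.mul_mono_right h
    exact h2 (Ideal.mem_span_singleton_self y)
  obtain ⟨u, hu, huP⟩ := Set.not_subset.1 hAP
  refine ⟨u, huP, ?_⟩
  intro c x hx
  have h1 : x * u ^ c ∈ P ^ c * A ^ c := Ideal.mul_mem_mul hx (Ideal.pow_mem_pow hu c)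
  rw [← mul_pow, ← hA, Ideal.span_singleton_pow, Ideal.mem_span_singleton] at h1
  obtain ⟨b, hb⟩ := h1
  exact ⟨b, by rw [mul_comm, hb]⟩

section cyc

variable {k B : Type} [Field k] [PerfectField k] (p : ℕ) [Fact p.Prime] [CharP k p] [CommRing B]
  [IsDomain B] [IsDedekindDomain B] [Algebra k B] [Algebra.FiniteType k B] (τ : B ≃ₐ[k] B)
  (hτ : τ ^ p = 1)

variable {D : ℕ} (hD : 0 < D)
  (hbr : ∀ P ∈ Fx (Subgroup.zpowers τ : Set (B ≃ₐ[k] B)),
    br (Subgroup.zpowers τ : Set (B ≃ₐ[k] B)) P ∣ D)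

include hτ hD hbr

theorem fil_Flt : Flt (Fil (Subgroup.zpowers τ : Set (B ≃ₐ[k] B)) D) D where
  zero := fil_zero p τ hτ hD hbr
  anti := fun _ _ h => fil_anti p τ hτ hD hbr h
  mul := fil_mul p τ hτ hD hbr
  per := fil_period p τ hτ hD hbr

theorem fil_LocF : LocF (Fil (Subgroup.zpowers τ : Set (B ≃ₐ[k] B)) D) := by
  intro P hPp hPF
  by_cases h1 : τ = 1
  · left
    intro m hm
    rw [cf_fil_triv τ h1, if_neg (by omega)]
  right
  -- `P` is a fixed point
  have hP : P ∈ Fx (Subgroup.zpowers τ : Set (B ≃ₐ[k] B)) := by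
    have h2 := hPF D hD
    rw [cf_fil_prod p τ hτ h1, Ideal.IsPrime.prod_le hPp] at h2
    obtain ⟨Q, hQ, hle⟩ := h2
    rw [Set.Finite.mem_toFinset] at hQ
    have h3 : Q ≤ P := Ideal.IsPrime.le_of_pow_le hle
    rw [← hQ.1.eq_of_le hPp.ne_top h3]
    exact hQ
  obtain ⟨y, t, hy, hy2, ht, hty⟩ := fil_loc p τ hτ hD hbr h1 hP
  have hb := br_pos p τ hτ h1 hP
  have hdvd := hbr P hP
  set b := br (Subgroup.zpowers τ : Set (B ≃ₐ[k] B)) P with hbdef
  have hab : D / b * b = D := Nat.div_mul_cancel hdvd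
  have ha : 0 < D / b := Nat.div_pos (Nat.le_of_dvd hD hdvd) hb
  have hy' : t * y ∈ P := P.mul_mem_left _ hy
  have hy2' : t * y ∉ P ^ 2 := by
    intro h
    rcases Ideal.IsPrime.mul_mem_pow P h with h | h
    · exact ht h
    · exact hy2 h
  obtain ⟨u, hu, hdiv⟩ := cf_divpow hPp hy' hy2'
  refine ⟨t * y, D / b, hP.1, ha, hy', hy2', hty, ?_⟩
  intro m x hx
  rw [cf_fil_mem τ h1] at hx
  have hx' := hx P hP
  obtain ⟨z, hz⟩ := hdiv _ x hx'
  refine ⟨u ^ ((m * b + (D - 1)) / D), fun h => hu (hPp.mem_of_pow_mem _ h),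
    (m * b + (D - 1)) / D, z, ?_, hz⟩
  have h5 : m * b ≤ D * ((m * b + (D - 1)) / D) := by
    have := Nat.lt_div_mul_add (a := m * b + (D - 1)) hD
    rw [Nat.mul_comm D]
    omega
  have h6 : m * b ≤ (D / b * ((m * b + (D - 1)) / D)) * b := by
    calc m * b ≤ D * ((m * b + (D - 1)) / D) := h5
      _ = (D / b * b) * ((m * b + (D - 1)) / D) := by rw [hab]
      _ = (D / b * ((m * b + (D - 1)) / D)) * b := by ring
  exact Nat.le_of_mul_le_mul_right h6 hb

end cyc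

end Pool.Agent.Zk15.PG
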