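import Pool.Agent.Zk15.PfTens

/-!
The charts of a product.
-/

set_option autoImplicit false
set_option linter.overlappingInstances false

namespace Pool.Agent.Zk15.PG

open Pool.Agent.Zk10.PG

section w10

variable {k : Type} [Field k] [PerfectField k] {n : ℕ} {F : Fin (n + 1) → Type}
  [∀ l, Field (F l)] [∀ l, Algebra k (F l)] {TT : Type} [CommRing TT] [IsDomain TT] [Algebra k TT]
  {j : ∀ l, F l →ₐ[k] TT} (hj : IsTens j) {K : Type} [Field K] [Algebra TT K]
  [IsFractionRing TT K] [Algebra k K] [IsScalarTower k TT K]

include hj in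
/-- (W10a) The ring of a chart. -/
theorem exists_chart (S : ∀ l, Subalgebra k (F l)) (hft : ∀ l, Algebra.FiniteType k (S l))
    (hd : ∀ l, IsDedekindDomain (S l))
    (hfr : ∀ l, ∀ x : F l, ∃ a b, a ∈ S l ∧ b ∈ S l ∧ b ≠ 0 ∧ x = a / b) :
    ∃ (C : Type) (_ : CommRing C) (_ : Algebra k C) (_ : Algebra C K) (_ : IsScalarTower k C K)
      (jC : ∀ l, S l →ₐ[k] C), IsTens jC ∧ IsDomain C ∧ IsRegularRing C ∧
      Algebra.FiniteType k C ∧ IsFractionRing C K ∧
      ∀ l a, algebraMap C K (jC l a) = algebraMap TT K (j l (a : F l)) := by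
  obtain ⟨C, iC, iA, jC, u, hC, hdom, hu, huj, -⟩ := tensF_sub hj S
  have hju : ∀ i (a : S i), u (jC i a) = j i (a : F i) := fun i a =>
    DFunLike.congr_fun (huj i) a
  let iCK : Algebra C K := ((algebraMap TT K).comp (u : C →+* TT)).toAlgebra
  have hCK : ∀ c : C, algebraMap C K c = algebraMap TT K (u c) := fun c => rfl
  have htow : IsScalarTower k C K := by
    refine IsScalarTower.of_algebraMap_eq fun c => ?_
    rw [hCK, AlgHom.commutes, ← IsScalarTower.algebraMap_apply]
  have hfrac : IsFractionRing C K := tens_frac hj S hfr jC u hu hju hCK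
  refine ⟨C, iC, iA, iCK, htow, jC, hC, hdom, tens_regular hC, tens_ft hC, hfrac, fun l a => ?_⟩
  rw [hCK, hju]

/-- (W10b) The coordinates generate the ring of the chart. -/
theorem adj_chart {S : ∀ l, Subalgebra k (F l)} {C : Type} [CommRing C] [Algebra k C]
    [Algebra C K] [IsScalarTower k C K] {jC : ∀ l, S l →ₐ[k] C} (hjC : IsTens jC)
    (hC : ∀ l a, algebraMap C K (jC l a) = algebraMap TT K (j l (a : F l)))
    [Algebra (S 0) K] (hS0 : ∀ o : S 0, algebraMap (S 0) K o = algebraMap TT K (j 0 (o : F 0)))
    (Z : Fin n → Type) (v : ∀ l : Fin n, Z l → S l.succ) (h1 : ∀ l, ∃ a, v l a = 1)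
    (hZ : ∀ l, Algebra.adjoin k (Set.range (v l)) = ⊤) {m : ℕ} (E : (∀ l, Z l) ≃ Fin (m + 1))
    (z : Fin (m + 1) → K) (j0 : Fin (m + 1))
    (hz : ∀ i, z i / z j0 =
      ∏ l : Fin n, algebraMap TT K (j l.succ (v l (E.symm i l) : F l.succ))) (y : K) :
    y ∈ Algebra.adjoin (S 0) (Set.range fun i => z i / z j0) ↔ ∃ c, algebraMap C K c = y := by
  classical
  have h0 : ∀ o : S 0, algebraMap (S 0) K o = algebraMap C K (jC 0 o) := fun o => by
    rw [hS0, hC]
  constructor
  · intro hy
    induction hy using Algebra.adjoin_induction with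
    | mem x hx =>
      obtain ⟨i, rfl⟩ := hx
      refine ⟨∏ l : Fin n, jC l.succ (v l (E.symm i l)), ?_⟩
      simp only []
      rw [hz, map_prod]
      exact Finset.prod_congr rfl fun l _ => hC _ _
    | algebraMap r => exact ⟨jC 0 r, (h0 r).symm⟩
    | add x y _ _ hx hy =>
      obtain ⟨a, rfl⟩ := hx
      obtain ⟨b, rfl⟩ := hy
      exact ⟨a + b, map_add _ _ _⟩
    | mul x y _ _ hx hy =>
      obtain ⟨a, rfl⟩ := hx
      obtain ⟨b, rfl⟩ := hy
      exact ⟨a * b, map_mul _ _ _⟩
  · rintro ⟨c, rfl⟩
    have hk : ∀ r : k, algebraMap C K (algebraMap k C r) ∈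
        Algebra.adjoin (S 0) (Set.range fun i => z i / z j0) := by
      intro r
      have e : algebraMap C K (algebraMap k C r) = algebraMap (S 0) K (algebraMap k (S 0) r) := by
        rw [h0, AlgHom.commutes]
      rw [e]
      exact Subalgebra.algebraMap_mem _ _
    have hgen : ∀ (l : Fin (n + 1)) (x : S l), algebraMap C K (jC l x) ∈
        Algebra.adjoin (S 0) (Set.range fun i => z i / z j0) := by
      intro l
      refine Fin.cases (motive := fun l => ∀ x : S l, algebraMap C K (jC l x) ∈
        Algebra.adjoin (S 0) (Set.range fun i => z i / z j0)) ?_ (fun l => ?_) l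
      · intro x
        have h2 := Subalgebra.algebraMap_mem
          (Algebra.adjoin (S 0) (Set.range fun i => z i / z j0)) x
        rw [h0] at h2
        exact h2
      · intro x
        have hx : x ∈ Algebra.adjoin k (Set.range (v l)) := by
          rw [hZ l]
          exact Algebra.mem_top
        induction hx using Algebra.adjoin_induction with
        | mem x hx =>
          obtain ⟨a, rfl⟩ := hx
          choose a1 ha1 using h1
          have e : algebraMap C K (jC l.succ (v l a)) =
              z (E (Function.update a1 l a)) / z j0 := by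
            rw [hz, Equiv.symm_apply_apply, Finset.prod_eq_single l]
            · rw [Function.update_self, hC]
            · intro b _ hb
              rw [Function.update_of_ne hb, ha1]
              simp
            · intro h
              exact absurd (Finset.mem_univ _) h
          rw [e]
          exact Algebra.subset_adjoin ⟨_, rfl⟩
        | algebraMap r =>
          rw [AlgHom.commutes]
          exact hk r
        | add x y _ _ hx hy =>
          rw [map_add, map_add]
          exact add_mem hx hy
        | mul x y _ _ hx hy =>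
          rw [map_mul, map_mul]
          exact mul_mem hx hy
    have hc : c ∈ Algebra.adjoin k (⋃ l, Set.range (jC l)) := by
      rw [tens_adjoin hjC]
      exact Algebra.mem_top
    induction hc using Algebra.adjoin_induction with
    | mem x hx =>
      obtain ⟨l, x, rfl⟩ := Set.mem_iUnion.1 hx
      exact hgen l x
    | algebraMap r => exact hk r
    | add x y _ _ hx hy =>
      rw [map_add]
      exact add_mem hx hy
    | mul x y _ _ hx hy =>
      rw [map_mul]
      exact mul_mem hx hy

end w10

end Pool.Agent.Zk15.PG
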