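import Pool.Agent.Zk15.Pf1

/-!
Filtrations by the powers of a maximal ideal, conjugation, a common multiple of the breaks (module
for `helper10`).
-/

set_option autoImplicit false
set_option linter.overlappingInstances false

namespace Pool.Agent.Zk15.PG

open Pool.Agent.Zk10.PG

theorem powD_exp (e : ℕ) (he : 0 < e) (m b : ℕ) :
    (m + e * b + (e - 1)) / e = (m + (e - 1)) / e + b := by
  have : m + e * b + (e - 1) = (m + (e - 1)) + e * b := by ring
  rw [this, Nat.add_mul_div_left _ _ he]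

theorem powD_exp0 (e : ℕ) (he : 0 < e) (b : ℕ) : (e * b + (e - 1)) / e = b := by
  have h := powD_exp e he 0 b
  rw [zero_add, zero_add, Nat.div_eq_of_lt (by omega : e - 1 < e), zero_add] at h
  exact h

theorem powD_le (e : ℕ) (he : 0 < e) (m : ℕ) : m ≤ e * ((m + (e - 1)) / e) := by
  have := Nat.lt_div_mul_add (a := m + (e - 1)) he
  rw [Nat.mul_comm e]
  omega

theorem pow_Flt {B : Type} [CommRing B] (𝔓 : Ideal B) (e b : ℕ) (he : 0 < e) :
    Flt (PF 𝔓 e) (e * b) where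
  zero := by
    have h := powD_exp0 e he 0
    rw [Nat.mul_zero] at h
    rw [PF, h, pow_zero, Ideal.one_eq_top]
  anti := fun m n h => Ideal.pow_le_pow_right
    (Nat.div_le_div_right (Nat.add_le_add_right h _))
  mul := fun m n => by
    rw [PF, PF, PF, ← pow_add]
    refine Ideal.pow_le_pow_right ?_
    have a1 := powD_le e he m
    have a2 := powD_le e he n
    apply Nat.le_of_lt_succ
    rw [Nat.div_lt_iff_lt_mul he, Nat.succ_mul, Nat.add_mul, Nat.mul_comm _ e, Nat.mul_comm _ e]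
    omega
  per := fun m => by
    rw [PF, PF, PF, powD_exp e he m b, powD_exp0 e he b, pow_add, mul_comm]

theorem pow_LocF {B : Type} [CommRing B] [IsDomain B] [IsDedekindDomain B] (𝔓 : Ideal B)
    (hm : 𝔓.IsMaximal) (h0 : 𝔓 ≠ ⊥) (e : ℕ) (he : 0 < e) : LocF (PF 𝔓 e) := by
  intro P hP hPF
  right
  have h1 : (e + (e - 1)) / e = 1 := by
    have h := powD_exp0 e he 1
    rwa [Nat.mul_one] at h
  have hle : 𝔓 ≤ P := by
    have h := hPF e he
    rwa [PF, h1, pow_one] at h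
  have hEq : 𝔓 = P := hm.eq_of_le hP.ne_top hle
  subst hEq
  obtain ⟨y, hy, hy2⟩ := cf_unif hm h0
  obtain ⟨u, hu, hdiv⟩ := cf_divpow hP hy hy2
  refine ⟨y, e, hm, he, hy, hy2, ?_, ?_⟩
  · rw [PF, h1, pow_one]
    exact hy
  · intro m x hx
    obtain ⟨z, hz⟩ := hdiv _ x hx
    exact ⟨u ^ ((m + (e - 1)) / e), fun h => hu (hP.mem_of_pow_mem _ h), (m + (e - 1)) / e, z,
      powD_le e he m, hz⟩

theorem powD_conj {k B : Type} [Field k] [CommRing B] [Algebra k B] (g : B ≃ₐ[k] B)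
    (P P' : Ideal B) (hP : ∀ x, x ∈ P ↔ g x ∈ P') (m : ℕ) (x : B) :
    x ∈ P ^ m ↔ g x ∈ P' ^ m := by
  let e : B ≃+* B := g.toRingEquiv
  have h1 : P' = P.map (e : B →+* B) := by
    have h2 : P.map (e : B →+* B) = P.comap (e.symm : B →+* B) := Ideal.map_comap_of_equiv e
    rw [h2]
    ext z
    rw [Ideal.mem_comap]
    show z ∈ P' ↔ g.symm z ∈ P
    rw [hP, AlgEquiv.apply_symm_apply]
  rw [h1, ← Ideal.map_pow]
  have h2 : (P ^ m).map (e : B →+* B) = (P ^ m).comap (e.symm : B →+* B) :=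
    Ideal.map_comap_of_equiv e
  rw [h2, Ideal.mem_comap]
  show x ∈ P ^ m ↔ g.symm (g x) ∈ P ^ m
  rw [AlgEquiv.symm_apply_apply]

/-- Conjugation of the breaks and of the filtrations. -/
theorem br_conj {k B : Type} [Field k] [CommRing B] [Algebra k B] (H H' : Set (B ≃ₐ[k] B))
    (g : B ≃ₐ[k] B) (h : ∀ s, s ∈ H ↔ g * s * g⁻¹ ∈ H') (P P' : Ideal B)
    (hP : ∀ x, x ∈ P ↔ g x ∈ P') : br H' P' = br H P := by
  unfold br
  congr 1
  ext l
  show (∀ s ∈ H', ∀ x, s x - x ∈ P' ^ (l + 1)) ↔ (∀ s ∈ H, ∀ x, s x - x ∈ P ^ (l + 1))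
  constructor
  · intro hs s hs' x
    have h2 := hs _ ((h s).1 hs') (g x)
    rw [powD_conj g P P' hP, map_sub]
    have h3 : (g * s * g⁻¹) (g x) = g (s x) := by
      show g (s (g.symm (g x))) = g (s x)
      rw [AlgEquiv.symm_apply_apply]
    rw [h3] at h2
    exact h2
  · intro hs s hs' x
    have h1 : g⁻¹ * s * g ∈ H := by
      rw [h]
      have : g * (g⁻¹ * s * g) * g⁻¹ = s := by group
      rwa [this]
    have h2 := hs _ h1 (g.symm x)
    rw [powD_conj g P P' hP, map_sub] at h2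
    have h3 : g ((g⁻¹ * s * g) (g.symm x)) = s x := by
      show g (g.symm (s (g (g.symm x)))) = s x
      rw [AlgEquiv.apply_symm_apply, AlgEquiv.apply_symm_apply]
    rw [h3, AlgEquiv.apply_symm_apply] at h2
    exact h2

theorem PF_conj {k B : Type} [Field k] [CommRing B] [Algebra k B] (g : B ≃ₐ[k] B)
    (P P' : Ideal B) (hP : ∀ x, x ∈ P ↔ g x ∈ P') (e m : ℕ) (x : B) :
    x ∈ PF P e m ↔ g x ∈ PF P' e m := by
  rw [PF, PF]
  exact powD_conj g P P' hP _ x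

/-- A common multiple of all breaks (the two hypotheses are `fx_finite` and `br_pos` of module
M2). -/
theorem exists_D {k G : Type} [Field k] [Group G] [Finite G] {n : ℕ} {B : Fin n → Type}
    [∀ l, CommRing (B l)] [∀ l, Algebra k (B l)] (θ : ∀ l, G →* (B l ≃ₐ[k] B l)) (p : ℕ)
    (hfin : ∀ l g, θ l g ^ p = 1 → θ l g ≠ 1 →
      (Fx (Subgroup.zpowers (θ l g) : Set (B l ≃ₐ[k] B l))).Finite)
    (hpos : ∀ l g, θ l g ^ p = 1 → θ l g ≠ 1 →
      ∀ P ∈ Fx (Subgroup.zpowers (θ l g) : Set (B l ≃ₐ[k] B l)),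
        0 < br (Subgroup.zpowers (θ l g) : Set (B l ≃ₐ[k] B l)) P) :
    ∃ D : ℕ, 0 < D ∧ ∀ l g, θ l g ^ p = 1 → θ l g ≠ 1 →
      ∀ P ∈ Fx (Subgroup.zpowers (θ l g) : Set (B l ≃ₐ[k] B l)),
        br (Subgroup.zpowers (θ l g) : Set (B l ≃ₐ[k] B l)) P ∣ D := by
  classical
  haveI : Fintype G := Fintype.ofFinite G
  let S : ∀ l : Fin n, G → Finset (Ideal (B l)) := fun l g =>
    if h : θ l g ^ p = 1 ∧ θ l g ≠ 1 then (hfin l g h.1 h.2).toFinset else ∅
  have hS : ∀ l g, θ l g ^ p = 1 → θ l g ≠ 1 → ∀ P,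
      P ∈ S l g ↔ P ∈ Fx (Subgroup.zpowers (θ l g) : Set (B l ≃ₐ[k] B l)) := by
    intro l g h1 h2 P
    simp only [S]
    rw [dif_pos ⟨h1, h2⟩, Set.Finite.mem_toFinset]
  refine ⟨∏ l : Fin n, ∏ g : G, ∏ P ∈ S l g,
    br (Subgroup.zpowers (θ l g) : Set (B l ≃ₐ[k] B l)) P, ?_, ?_⟩
  · refine Finset.prod_pos fun l _ => Finset.prod_pos fun g _ => Finset.prod_pos fun P hP => ?_
    by_cases h : θ l g ^ p = 1 ∧ θ l g ≠ 1
    · exact hpos l g h.1 h.2 P ((hS l g h.1 h.2 P).1 hP)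
    · simp only [S] at hP
      rw [dif_neg h] at hP
      simp at hP
  · intro l g h1 h2 P hP
    refine dvd_trans ?_ (Finset.dvd_prod_of_mem (fun l : Fin n => ∏ g : G, ∏ P ∈ S l g,
      br (Subgroup.zpowers (θ l g) : Set (B l ≃ₐ[k] B l)) P) (Finset.mem_univ l))
    refine dvd_trans ?_ (Finset.dvd_prod_of_mem (fun g : G => ∏ P ∈ S l g,
      br (Subgroup.zpowers (θ l g) : Set (B l ≃ₐ[k] B l)) P) (Finset.mem_univ g))
    exact Finset.dvd_prod_of_mem (fun P : Ideal (B l) =>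
      br (Subgroup.zpowers (θ l g) : Set (B l ≃ₐ[k] B l)) P) ((hS l g h1 h2 P).2 hP)

end Pool.Agent.Zk15.PG
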