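import Pool.Agent.Zk10.W2
import Pool.Agent.Zk15.Pf2

/-!
Regularity of the graded algebra of a product with filtrations of the factors.
-/

set_option autoImplicit false
set_option linter.overlappingInstances false
set_option linter.unusedSectionVars false

namespace Pool.Agent.Zk15.PG

open Pool.Agent.Zk10.PG

open Pool.Agent.Y223.G Pool.Agent.W418.LU2 IsLocalRing

/-- Independence by derivations. -/
theorem ind_der {C : Type} [CommRing C] (Q : Ideal C) [Q.IsPrime] {ι : Type} [Fintype ι]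
    (x : ι → C) (hx : ∀ i, x i ∈ Q) (hd : ∀ i, ∃ d : C → C ⧸ Q, (∀ a b, d (a + b) = d a + d b) ∧
      (∀ a b, d (a * b) = Ideal.Quotient.mk Q a * d b + Ideal.Quotient.mk Q b * d a) ∧
      d (x i) = 1 ∧ ∀ i', i' ≠ i → d (x i') = 0) :
    Ind (fun i => algebraMap C (Localization.AtPrime Q) (x i)) := by
  classical
  refine ⟨fun i => (IsLocalization.AtPrime.to_map_mem_maximal_iff _ Q (x i)).2 (hx i), ?_⟩
  intro c hc i
  obtain ⟨s, hs⟩ := IsLocalization.exist_integer_multiples_of_finite Q.primeCompl c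
  choose c' hc' using hs
  have h1 : algebraMap C (Localization.AtPrime Q) (∑ l, c' l * x l) ∈
      (Q ^ 2).map (algebraMap C (Localization.AtPrime Q)) := by
    rw [Ideal.map_pow, Localization.AtPrime.map_eq_maximalIdeal]
    have h2 : algebraMap C (Localization.AtPrime Q) (∑ l, c' l * x l) =
        algebraMap C (Localization.AtPrime Q) (s : C) *
          ∑ l, c l * algebraMap C (Localization.AtPrime Q) (x l) := by
      rw [map_sum, Finset.mul_sum]
      refine Finset.sum_congr rfl fun l _ => ?_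
      rw [map_mul, hc' l, Algebra.smul_def, mul_assoc]
    rw [h2]
    exact Ideal.mul_mem_left _ _ hc
  rw [IsLocalization.algebraMap_mem_map_algebraMap_iff Q.primeCompl] at h1
  obtain ⟨t, ht, hmem⟩ := h1
  obtain ⟨d, hda, hdm, hd1, hd0⟩ := hd i
  let D : C →+ C ⧸ Q := AddMonoidHom.mk' d hda
  have hD : ∀ a, D a = d a := fun _ => rfl
  have hkill : ∀ a ∈ Q ^ 2, D a = 0 := by
    intro a ha
    rw [pow_two] at ha
    induction ha using Submodule.mul_induction_on' with
    | mem_mul_mem p hp q hq =>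
      change d (p * q) = 0
      rw [hdm, Ideal.Quotient.eq_zero_iff_mem.2 hp, Ideal.Quotient.eq_zero_iff_mem.2 hq]
      ring
    | add p _ q _ h1 h2 => rw [map_add, h1, h2, add_zero]
  have h3 := hkill _ hmem
  rw [Finset.mul_sum, map_sum, Finset.sum_eq_single i] at h3
  · rw [hD, ← mul_assoc, hdm, hd1, Ideal.Quotient.eq_zero_iff_mem.2 (hx i), zero_mul, add_zero,
      mul_one, Ideal.Quotient.eq_zero_iff_mem] at h3
    have h4 : c' i ∈ Q := by
      rcases (‹Q.IsPrime›).mem_or_mem h3 with h | h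
      · exact absurd h ht
      · exact h
    have h5 : algebraMap C (Localization.AtPrime Q) (c' i) ∈
        maximalIdeal (Localization.AtPrime Q) :=
      (IsLocalization.AtPrime.to_map_mem_maximal_iff _ Q (c' i)).2 h4
    rw [hc' i, Algebra.smul_def] at h5
    rcases (maximalIdeal.isMaximal (Localization.AtPrime Q)).isPrime.mem_or_mem h5 with h | h
    · exact absurd ((IsLocalization.AtPrime.to_map_mem_maximal_iff _ Q (s : C)).1 h) s.2
    · exact h
  · intro l _ hl
    rw [hD, ← mul_assoc, hdm, hd0 l hl, Ideal.Quotient.eq_zero_iff_mem.2 (hx l)]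
    ring
  · intro h
    exact absurd (Finset.mem_univ i) h

section adj

variable {k K : Type} [CommRing k] [Field K] [Algebra k K]

/-- induction over the homogeneous components of the elements of a generated algebra -/
theorem adj_ind (S : Set (LP K)) (P : ℤ → K → Prop) (h0 : ∀ d, P d 0)
    (hadd : ∀ d x y, P d x → P d y → P d (x + y))
    (hmul : ∀ d e x y, P d x → P e y → P (d + e) (x * y))
    (halg : ∀ r : k, P 0 (algebraMap k K r)) (hS : ∀ s ∈ S, ∃ d a, s = hm d a ∧ P d a)
    (f : LP K) (hf : f ∈ Algebra.adjoin k S) (d : ℤ) : P d (f.coeff d) := by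
  classical
  have hsing : ∀ (e : ℤ) (a : K), P e a → ∀ d, P d ((hm e a).coeff d) := by
    intro e a ha d
    rw [coeff_hm]
    split_ifs with h
    · rw [← h]; exact ha
    · exact h0 d
  induction hf using Algebra.adjoin_induction generalizing d with
  | mem x hx =>
    obtain ⟨e, a, rfl, ha⟩ := hS x hx
    exact hsing e a ha d
  | algebraMap r =>
    rw [algebraMap_LP]
    exact hsing 0 _ (halg r) d
  | add x y _ _ hx hy =>
    rw [AddMonoidAlgebra.coeff_add, Finsupp.add_apply]
    exact hadd d _ _ (hx d) (hy d)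
  | mul x y _ _ hx hy =>
    have h1 : x * y = ∑ e ∈ x.coeff.support, hm e (x.coeff e) * y := by
      conv_lhs => rw [eq_sum_hm x]
      rw [Finset.sum_mul]
    rw [h1, AddMonoidAlgebra.coeff_sum, Finsupp.finsetSum_apply]
    have h2 : ∀ e ∈ x.coeff.support, P d ((hm e (x.coeff e) * y).coeff d) := by
      intro e _
      rw [coeff_hm_mul]
      have h3 := hmul e (d - e) _ _ (hx e) (hy (d - e))
      rwa [add_sub_cancel] at h3
    exact Finset.sum_induction _ (P d) (hadd d) (h0 d) h2

end adj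

section fi

variable {B ι : Type} [CommRing B] [Fintype ι] (x : ι → B) (a : ι → ℕ)

theorem FI_zero : FI x a 0 = ⊤ := by
  rw [Ideal.eq_top_iff_one]
  exact Ideal.subset_span ⟨0, Nat.zero_le _, by simp⟩

theorem FI_anti {m n : ℕ} (h : m ≤ n) : FI x a n ≤ FI x a m := by
  apply Ideal.span_mono
  rintro y ⟨e, he, rfl⟩
  exact ⟨e, h.trans he, rfl⟩

theorem FI_mul (m n : ℕ) : FI x a m * FI x a n ≤ FI x a (m + n) := by
  unfold FI
  rw [Ideal.span_mul_span', Ideal.span_le]
  rintro _ ⟨_, ⟨e, he, rfl⟩, _, ⟨e', he', rfl⟩, rfl⟩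
  refine Ideal.subset_span ⟨e + e', ?_, ?_⟩
  · simp only [Pi.add_apply, mul_add, Finset.sum_add_distrib]
    omega
  · simp only [Pi.add_apply, pow_add, Finset.prod_mul_distrib]

theorem FI_single (i : ι) (c m : ℕ) (h : m ≤ a i * c) : x i ^ c ∈ FI x a m := by
  classical
  refine Ideal.subset_span ⟨Pi.single i c, ?_, ?_⟩
  · rw [Finset.sum_eq_single i]
    · rw [Pi.single_eq_same]; exact h
    · intro b _ hb
      rw [Pi.single_eq_of_ne hb, mul_zero]
    · intro h; exact absurd (Finset.mem_univ i) h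
  · rw [Finset.prod_eq_single i]
    · rw [Pi.single_eq_same]
    · intro b _ hb
      rw [Pi.single_eq_of_ne hb, pow_zero]
    · intro h; exact absurd (Finset.mem_univ i) h

end fi

section reg

variable {k K C : Type} [Field k] [PerfectField k] [Field K] [Algebra k K] {n : ℕ}
  {B : Fin n → Type} [∀ l, CommRing (B l)] [∀ l, IsDomain (B l)] [∀ l, IsDedekindDomain (B l)]
  [∀ l, Algebra k (B l)] [∀ l, Algebra.FiniteType k (B l)] [CommRing C] [IsRegularRing C]
  [Algebra k C] [Algebra C K] [IsScalarTower k C K] (hCK : Function.Injective (algebraMap C K))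
  (j : ∀ l, B l →ₐ[k] C) (hj : IsTens j) (Φ : ∀ l, ℕ → Ideal (B l)) (h0 : ∀ l, Φ l 0 = ⊤)

omit [PerfectField k] [∀ l, IsDomain (B l)] [∀ l, IsDedekindDomain (B l)]
  [∀ l, Algebra.FiniteType k (B l)] [IsRegularRing C] in
theorem RC_gr : Gr (RC k K j Φ) := by
  apply gr_adjoin
  rintro s (h | ⟨l, m, x, _, rfl⟩)
  · exact ⟨-1, 1, h⟩
  · exact ⟨_, _, rfl⟩

omit [PerfectField k] [∀ l, IsDomain (B l)] [∀ l, IsDedekindDomain (B l)]
  [∀ l, Algebra.FiniteType k (B l)] [IsRegularRing C] in
theorem RC_mem (l : Fin n) (m : ℕ) (x : B l) (hx : x ∈ Φ l m) :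
    hm (m : ℤ) (algebraMap C K (j l x)) ∈ RC k K j Φ :=
  Algebra.subset_adjoin (Or.inr ⟨l, m, x, hx, rfl⟩)

omit [PerfectField k] [∀ l, IsDomain (B l)] [∀ l, IsDedekindDomain (B l)]
  [∀ l, Algebra.FiniteType k (B l)] [IsRegularRing C] in
include hj h0 in
theorem RC_c (c : C) : hm 0 (algebraMap C K c) ∈ RC k K j Φ := by
  have hc : c ∈ Algebra.adjoin k (⋃ i, Set.range (j i)) := by
    rw [tens_adjoin hj]
    trivial
  induction hc using Algebra.adjoin_induction with
  | mem x hx =>
    obtain ⟨l, b, rfl⟩ := Set.mem_iUnion.1 hx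
    have := RC_mem (K := K) j Φ l 0 b (by rw [h0]; trivial)
    simpa using this
  | algebraMap r =>
    rw [← IsScalarTower.algebraMap_apply k C K, ← algebraMap_LP]
    exact Subalgebra.algebraMap_mem _ r
  | add x y _ _ hx hy =>
    rw [map_add, hm_add]
    exact Subalgebra.add_mem _ hx hy
  | mul x y _ _ hx hy =>
    have := Subalgebra.mul_mem _ hx hy
    rwa [hm_mul, add_zero, ← map_mul] at this

omit [PerfectField k] [∀ l, IsDomain (B l)] [∀ l, IsDedekindDomain (B l)]
  [∀ l, Algebra.FiniteType k (B l)] [IsRegularRing C] in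
theorem RC_d0 (d : ℤ) (x : K) (h : hm d x ∈ RC k K j Φ) : ∃ c, algebraMap C K c = x := by
  have h1 := adj_ind _ (fun _ y => ∃ c, algebraMap C K c = y) (fun _ => ⟨0, map_zero _⟩)
    (by rintro d _ _ ⟨c, rfl⟩ ⟨c', rfl⟩; exact ⟨c + c', map_add _ _ _⟩)
    (by rintro d e _ _ ⟨c, rfl⟩ ⟨c', rfl⟩; exact ⟨c * c', map_mul _ _ _⟩)
    (fun r => ⟨algebraMap k C r, (IsScalarTower.algebraMap_apply k C K r).symm⟩)
    (by
      rintro s (hs | ⟨l, m, x, _, rfl⟩)
      · exact ⟨-1, 1, hs, 1, map_one _⟩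
      · exact ⟨_, _, rfl, j l x, rfl⟩) _ h d
  rwa [coeff_hm_same] at h1

include hCK hj h0 in
/-- **Regularity.** -/
theorem RC_reg (hreg : S_WREG) (hloc : ∀ l, LocF (Φ l))
    (hN : IsNoetherianRing (RC k K j Φ)) : IsRegularRing (RC k K j Φ) := by
  classical
  refine Pool.Agent.Y563.GW.t_WCH hreg k K (RC k K j Φ) hN (RC_gr j Φ)
    (Algebra.subset_adjoin (Or.inl rfl)) ?_ C (algebraMap C K) hCK ?_ inferInstance ?_
  · intro d x hx
    obtain ⟨c, rfl⟩ := RC_d0 j Φ d x hx
    exact RC_c j hj Φ h0 c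
  · intro y
    constructor
    · exact RC_d0 j Φ 0 y
    · rintro ⟨c, rfl⟩
      exact RC_c j hj Φ h0 c
  · intro Q _ hQ
    have hle : ∀ l, ∀ m, 0 < m → Φ l m ≤ Q.comap (j l : B l →+* C) := by
      intro l m hm' x hx
      exact hQ m (j l x) hm' (RC_mem j Φ l m x hx)
    have hcase : ∀ l : {l : Fin n // ¬ ∀ m, 0 < m → Φ l m = ⊥},
        ∃ (y : B l) (a : ℕ), (Q.comap (j l : B l →+* C)).IsMaximal ∧ 0 < a ∧
          y ∈ Q.comap (j l : B l →+* C) ∧ y ∉ (Q.comap (j l : B l →+* C)) ^ 2 ∧ y ∈ Φ l a ∧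
          ∀ m, ∀ x ∈ Φ l m, ∃ s, s ∉ Q.comap (j l : B l →+* C) ∧ ∃ (c : ℕ) (b : B l),
            m ≤ a * c ∧ s * x = y ^ c * b := by
      rintro ⟨l, hl⟩
      rcases hloc l (Q.comap (j l : B l →+* C)) inferInstance (hle l) with h | h
      · exact absurd h hl
      · exact h
    choose y a hmax hpos hyQ hy2 hyΦ hgen using hcase
    refine ⟨{l : Fin n // ¬ ∀ m, 0 < m → Φ l m = ⊥}, inferInstance, fun l => j l (y l), a,
      fun l => ⟨hpos l, RC_mem j Φ l (a l) (y l) (hyΦ l)⟩, ?_, ?_⟩
    · refine ind_der Q _ (fun l => hyQ l) fun i => ?_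
      obtain ⟨d, h1, h2, h3, h4⟩ := tens_der hj i.1 (Q.comap (j i : B i →+* C)) (hmax i) (y i)
        (hyQ i) (hy2 i) Q inferInstance (fun b hb => hb)
      exact ⟨d, h1, h2, h4, fun i' hi' => h3 i'.1 (fun h => hi' (Subtype.ext h)) _⟩
    · intro m c hc
      have h1 := adj_ind _ (fun d z => ∃ c, algebraMap C K c = z ∧
        algebraMap C (Localization.AtPrime Q) c ∈ FI (fun l : {l : Fin n // ¬ ∀ m, 0 < m → Φ l m = ⊥}
          => algebraMap C (Localization.AtPrime Q) (j l (y l))) a d.toNat)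
        (fun _ => ⟨0, map_zero _, by rw [map_zero]; exact Ideal.zero_mem _⟩)
        (by
          rintro d _ _ ⟨c, rfl, h⟩ ⟨c', rfl, h'⟩
          exact ⟨c + c', map_add _ _ _, by rw [map_add]; exact Ideal.add_mem _ h h'⟩)
        (by
          rintro d e _ _ ⟨c, rfl, h⟩ ⟨c', rfl, h'⟩
          refine ⟨c * c', map_mul _ _ _, ?_⟩
          rw [map_mul]
          exact FI_anti _ _ (show (d + e).toNat ≤ d.toNat + e.toNat by omega) (FI_mul _ _ _ _ (Ideal.mul_mem_mul h h')))
        (fun r => ⟨algebraMap k C r, (IsScalarTower.algebraMap_apply k C K r).symm, by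
          rw [Int.toNat_zero, FI_zero]; trivial⟩)
        (by
          rintro s (hs | ⟨l, m, x, hx, rfl⟩)
          · exact ⟨-1, 1, hs, 1, map_one _, by
              rw [show (-1 : ℤ).toNat = 0 from rfl, FI_zero]; trivial⟩
          · refine ⟨_, _, rfl, j l x, rfl, ?_⟩
            rw [Int.toNat_natCast]
            rcases Nat.eq_zero_or_pos m with rfl | hm'
            · rw [FI_zero]; trivial
            · by_cases hl : ∀ m, 0 < m → Φ l m = ⊥
              · rw [hl m hm'] at hx
                rw [Ideal.mem_bot.1 hx, map_zero, map_zero]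
                exact Ideal.zero_mem _
              · obtain ⟨s, hs, e, b, he, hsx⟩ := hgen ⟨l, hl⟩ m x hx
                have hu : IsUnit (algebraMap C (Localization.AtPrime Q) (j l s)) :=
                  IsLocalization.map_units (Localization.AtPrime Q)
                    (⟨j l s, hs⟩ : Q.primeCompl)
                rw [← Ideal.unit_mul_mem_iff_mem _ hu, ← map_mul, ← map_mul, hsx, map_mul, map_pow,
                  map_mul, map_pow]
                exact Ideal.mul_mem_right _ _ (FI_single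
                  (fun l : {l : Fin n // ¬ ∀ m, 0 < m → Φ l m = ⊥}
                    => algebraMap C (Localization.AtPrime Q) (j l (y l))) a ⟨l, hl⟩ e m he)) _ hc m
      obtain ⟨c', hc', h2⟩ := h1
      rw [coeff_hm_same] at hc'
      rw [hCK hc', Int.toNat_natCast] at h2
      exact h2

end reg

end Pool.Agent.Zk15.PG
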