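import Pool.Agent.Zk15.PfTrB
import Pool.Agent.Zk15.PfPw
import Pool.Agent.Zk15.Fp12

/-!
A common multiple of all breaks of all stable Dedekind rings in a function field (module for
`helper10`).
-/

set_option autoImplicit false
set_option linter.overlappingInstances false
set_option linter.unusedSectionVars false
set_option linter.unusedVariables false

namespace Pool.Agent.Zk15.PG

open Pool.Agent.Zk10.PG

open Pool.Agent.Zk15 (IC TS TS_coe IC_ok IC_map)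

section tc

variable {k M : Type} [Field k] [Field M] [Algebra k M]

/-- The local ring is integrally closed. -/
theorem vs_int {O : Subalgebra k M} [IsDedekindDomain O] {P : Ideal O} (hP : P.IsPrime)
    (hP0 : P ≠ ⊥) (hfr : ∀ x : M, ∃ a b, a ∈ O ∧ b ∈ O ∧ b ≠ 0 ∧ x = a / b) {t : M}
    (ht : t ∈ Vs O P 0) {x : M} (hx : x ∈ IC k t) : x ∈ Vs O P 0 := by
  have hadj : ∀ y ∈ Algebra.adjoin k {t}, y ∈ Vs O P 0 := by
    intro y hy
    induction hy using Algebra.adjoin_induction with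
    | mem x hx => rwa [Set.mem_singleton_iff.1 hx]
    | algebraMap r => exact vs_of0 hP (O.algebraMap_mem r)
    | add x y _ _ hx hy => exact vs_add hP hx hy
    | mul x y _ _ hx hy => exact vs_mul hP hx hy
  obtain ⟨b, a, hb, ha, ha0, hxab⟩ := hfr x
  by_cases hx0 : x = 0
  · rw [hx0]
    exact vs_zero_mem hP 0
  have hav : (⟨a, ha⟩ : O) ≠ 0 := fun h => ha0 (congrArg Subtype.val h)
  rcases vs_val hP hP0 ⟨a, ha⟩ ⟨b, hb⟩ hav with h | h
  · rw [hxab]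
    exact h
  · exfalso
    have hinv : x⁻¹ ∈ Vs O P 1 := by
      rw [hxab, inv_div]
      exact h
    have hinv0 : x⁻¹ ∈ Vs O P 0 := vs_anti (Nat.zero_le 1) hinv
    obtain ⟨f, hf, hf0⟩ : IsIntegral (Algebra.adjoin k {t}) x := hx
    rw [Polynomial.eval₂_eq_sum_range, Finset.sum_range_succ, hf.coeff_natDegree, map_one,
      one_mul] at hf0
    apply vs_one hP
    have h1 : (1 : M) = -∑ i ∈ Finset.range f.natDegree,
        algebraMap (Algebra.adjoin k {t}) M (f.coeff i) * (x⁻¹ ^ (f.natDegree - i - 1) * x⁻¹) := by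
      have h2 : (x⁻¹) ^ f.natDegree * (∑ i ∈ Finset.range f.natDegree,
          algebraMap (Algebra.adjoin k {t}) M (f.coeff i) * x ^ i + x ^ f.natDegree) = 0 := by
        rw [hf0, mul_zero]
      rw [mul_add, ← mul_pow, inv_mul_cancel₀ hx0, one_pow, Finset.mul_sum] at h2
      rw [eq_neg_iff_add_eq_zero, add_comm, ← h2]
      congr 1
      refine Finset.sum_congr rfl fun i hi => ?_
      have hi' := Finset.mem_range.1 hi
      obtain ⟨j, hj⟩ := Nat.exists_eq_add_of_lt hi'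
      have h3 : x⁻¹ ^ (f.natDegree - i - 1) * x⁻¹ = x⁻¹ ^ (j + 1) := by
        rw [← pow_succ]
        congr 1
        omega
      have h4 : x⁻¹ ^ f.natDegree = x⁻¹ ^ (j + 1) * x⁻¹ ^ i := by
        rw [← pow_add]
        congr 1
        omega
      rw [h3, h4]
      have h5 : x⁻¹ ^ i * x ^ i = 1 := by
        rw [← mul_pow, inv_mul_cancel₀ hx0, one_pow]
      linear_combination
        (-(algebraMap (Algebra.adjoin k {t}) M (f.coeff i) * x⁻¹ ^ (j + 1))) * h5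
    rw [h1]
    refine vs_neg (vs_sum hP _ _ fun i hi => ?_)
    have h2 := vs_mul hP (hadj _ (f.coeff i).2) (vs_mul hP (vs_pow hP hinv0
      (f.natDegree - i - 1)) hinv)
    rw [zero_add, zero_add] at h2
    exact h2

theorem ts_ne {G : Type} [Group G] (ρ : G →* (M ≃ₐ[k] M)) (O : Subalgebra k M)
    (hO : ∀ g, ∀ x ∈ O, ρ g x ∈ O)
    (hfr : ∀ x : M, ∃ a b, a ∈ O ∧ b ∈ O ∧ b ≠ 0 ∧ x = a / b) (g : G) (hg : ρ g ≠ 1) :
    TS ρ O hO g ≠ 1 := by
  intro h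
  apply hg
  refine AlgEquiv.ext fun x => ?_
  obtain ⟨a, b, ha, hb, hb0, rfl⟩ := hfr x
  have h1 : ∀ y (hy : y ∈ O), ρ g y = y := by
    intro y hy
    have h2 := congrArg (fun f : O ≃ₐ[k] O => ((f ⟨y, hy⟩ : O) : M)) h
    exact h2
  rw [map_div₀, h1 a ha, h1 b hb]
  rfl

variable [PerfectField k] (p : ℕ) [Fact p.Prime] [CharP k p]

theorem ed_one {G : Type} [Group G] [Finite G] (ρ : G →* (M ≃ₐ[k] M)) {t : M}
    (ht : Transcendental k t) (htρ : ∀ g, ρ g t = t) (F' : IntermediateField k M)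
    (hF : F' = IntermediateField.adjoin k {t}) [FiniteDimensional F' M]
    [Algebra.IsSeparable F' M] :
    ∃ D : ℕ, 0 < D ∧ ∀ (O : Subalgebra k M) (hO : ∀ g, ∀ x ∈ O, ρ g x ∈ O),
      IsDedekindDomain O → Algebra.FiniteType k O →
      (∀ x : M, ∃ a b, a ∈ O ∧ b ∈ O ∧ b ≠ 0 ∧ x = a / b) →
      ∀ g, ρ g ^ p = 1 → ρ g ≠ 1 →
        ∀ P ∈ Fx (Subgroup.zpowers (TS ρ O hO g) : Set (O ≃ₐ[k] O)), t ∈ Vs O P 0 →
          br (Subgroup.zpowers (TS ρ O hO g) : Set (O ≃ₐ[k] O)) P ∣ D := by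
  obtain ⟨hd, hft, hfr'⟩ := IC_ok ht F' hF
  have hO' : ∀ g, ∀ x ∈ IC k t, ρ g x ∈ IC k t := fun g x hx => IC_map (ρ g) (htρ g) hx
  have hpos : ∀ g, TS ρ (IC k t) hO' g ^ p = 1 → TS ρ (IC k t) hO' g ≠ 1 →
      ∀ P ∈ Fx (Subgroup.zpowers (TS ρ (IC k t) hO' g) : Set (IC k t ≃ₐ[k] IC k t)),
        0 < br (Subgroup.zpowers (TS ρ (IC k t) hO' g) : Set (IC k t ≃ₐ[k] IC k t)) P :=
    fun g h1 h2 P hP => br_pos p _ h1 h2 hP
  have hfin : ∀ g, TS ρ (IC k t) hO' g ^ p = 1 → TS ρ (IC k t) hO' g ≠ 1 →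
      (Fx (Subgroup.zpowers (TS ρ (IC k t) hO' g) : Set (IC k t ≃ₐ[k] IC k t))).Finite :=
    fun g h1 h2 => fx_finite p _ h1 h2
  obtain ⟨D, hD, hdiv⟩ := exists_D (n := 1) (B := fun _ => IC k t)
    (fun _ => TS ρ (IC k t) hO') p (fun _ => hfin) (fun _ => hpos)
  refine ⟨D, hD, ?_⟩
  intro O hO hded hft1 hfr g hgp hg1 P hP htP
  have hp1 : TS ρ O hO g ^ p = 1 := res_pow_one (ρ g) _ (TS_coe ρ O hO g) hgp
  have hp2 : TS ρ (IC k t) hO' g ^ p = 1 := res_pow_one (ρ g) _ (TS_coe ρ _ hO' g) hgp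
  have hn1 := ts_ne ρ O hO hfr g hg1
  have hn2 := ts_ne ρ (IC k t) hO' hfr' g hg1
  have hPp : P.IsPrime := hP.1.isPrime
  have hP0 : P ≠ ⊥ := cf_bot _ hn1 hP
  obtain ⟨P', hP', hP'0, heq⟩ := vs_cmp (O := O) (O' := IC k t) hPp hP0
    (fun y hy => vs_int hPp hP0 hfr htP hy) (fun x _ => hfr' x)
  have hfx := vs_fx p hP.1 hP' heq (ρ g) _ (TS_coe ρ O hO g) _ (TS_coe ρ _ hO' g) hp1 hp2 hP
  have h3 := hdiv 0 g hp2 hn2 P' hfx
  rw [vs_br p hP.1 hP' heq (ρ g) _ (TS_coe ρ O hO g) _ (TS_coe ρ _ hO' g) hp1 hp2] at h3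
  exact h3

theorem exists_D2 {G : Type} [Group G] [Finite G] (ρ : G →* (M ≃ₐ[k] M)) {t : M}
    (ht : Transcendental k t) (htρ : ∀ g, ρ g t = t) (F' : IntermediateField k M)
    (hF : F' = IntermediateField.adjoin k {t}) [FiniteDimensional F' M]
    [Algebra.IsSeparable F' M] :
    ∃ D : ℕ, 0 < D ∧ ∀ (O : Subalgebra k M) (hO : ∀ g, ∀ x ∈ O, ρ g x ∈ O),
      IsDedekindDomain O → Algebra.FiniteType k O →
      (∀ x : M, ∃ a b, a ∈ O ∧ b ∈ O ∧ b ≠ 0 ∧ x = a / b) →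
      ∀ g, ρ g ^ p = 1 → ρ g ≠ 1 →
        ∀ P ∈ Fx (Subgroup.zpowers (TS ρ O hO g) : Set (O ≃ₐ[k] O)),
          br (Subgroup.zpowers (TS ρ O hO g) : Set (O ≃ₐ[k] O)) P ∣ D := by
  have ht' : Transcendental k t⁻¹ := fun h => ht (IsAlgebraic.inv_iff.1 h)
  have htρ' : ∀ g, ρ g t⁻¹ = t⁻¹ := fun g => by rw [map_inv₀, htρ]
  have hF' : F' = IntermediateField.adjoin k {t⁻¹} := by
    rw [hF]
    apply le_antisymm
    · rw [IntermediateField.adjoin_le_iff, Set.singleton_subset_iff]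
      have h1 := IntermediateField.mem_adjoin_simple_self k t⁻¹
      have h2 := inv_mem h1
      rwa [inv_inv] at h2
    · rw [IntermediateField.adjoin_le_iff, Set.singleton_subset_iff]
      exact inv_mem (IntermediateField.mem_adjoin_simple_self k t)
  obtain ⟨D₁, hD₁, h1⟩ := ed_one p ρ ht htρ F' hF
  obtain ⟨D₂, hD₂, h2⟩ := ed_one p ρ ht' htρ' F' hF'
  refine ⟨D₁ * D₂, Nat.mul_pos hD₁ hD₂, ?_⟩
  intro O hO hded hft hfr g hgp hg1 P hP
  have hn1 := ts_ne ρ O hO hfr g hg1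
  have hPp : P.IsPrime := hP.1.isPrime
  have hP0 : P ≠ ⊥ := cf_bot _ hn1 hP
  obtain ⟨b, a, hb, ha, ha0, hxab⟩ := hfr t
  have hav : (⟨a, ha⟩ : O) ≠ 0 := fun h => ha0 (congrArg Subtype.val h)
  rcases vs_val hPp hP0 ⟨a, ha⟩ ⟨b, hb⟩ hav with h | h
  · refine dvd_mul_of_dvd_left (h1 O hO hded hft hfr g hgp hg1 P hP ?_) _
    rw [hxab]
    exact h
  · refine dvd_mul_of_dvd_right (h2 O hO hded hft hfr g hgp hg1 P hP ?_) _
    rw [hxab, inv_div]
    exact vs_anti (Nat.zero_le 1) h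

end tc

end Pool.Agent.Zk15.PG
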