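import Pool.Agent.Zk15.Pf1

/-!
Powers of a maximal ideal in the local ring, as subsets of the field; comparison of two Dedekind
rings in a field with the same local ring (module for `helper10`).
-/

set_option autoImplicit false
set_option linter.overlappingInstances false
set_option linter.unusedSectionVars false
set_option linter.unusedVariables false

namespace Pool.Agent.Zk15.PG

open Pool.Agent.Zk10.PG

section vs

variable {k M : Type} [Field k] [Field M] [Algebra k M]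

/-- The `n`-th power of the maximal ideal of the localization of `O` at `P`. -/
def Vs (O : Subalgebra k M) (P : Ideal O) (n : ℕ) : Set M :=
  {x | ∃ s : O, s ∉ P ∧ ∃ a : O, a ∈ P ^ n ∧ (s : M) * x = a}

variable {O : Subalgebra k M} {P : Ideal O}

theorem vs_of (hP : P.IsPrime) {n : ℕ} {a : O} (ha : a ∈ P ^ n) : (a : M) ∈ Vs O P n :=
  ⟨1, fun h => hP.ne_top ((Ideal.eq_top_iff_one P).2 h), a, ha, by
    rw [OneMemClass.coe_one, one_mul]⟩

theorem vs_of0 (hP : P.IsPrime) {x : M} (hx : x ∈ O) : x ∈ Vs O P 0 :=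
  vs_of hP (a := ⟨x, hx⟩) (by rw [pow_zero, Ideal.one_eq_top]; trivial)

theorem vs_add (hP : P.IsPrime) {n : ℕ} {x y : M} (hx : x ∈ Vs O P n) (hy : y ∈ Vs O P n) :
    x + y ∈ Vs O P n := by
  obtain ⟨s, hs, a, ha, h1⟩ := hx
  obtain ⟨s', hs', a', ha', h2⟩ := hy
  refine ⟨s * s', fun h => (hP.mem_or_mem h).elim hs hs', s' * a + s * a',
    Ideal.add_mem _ (Ideal.mul_mem_left _ _ ha) (Ideal.mul_mem_left _ _ ha'), ?_⟩
  push_cast
  rw [← h1, ← h2]
  ring

theorem vs_mul (hP : P.IsPrime) {m n : ℕ} {x y : M} (hx : x ∈ Vs O P m) (hy : y ∈ Vs O P n) :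
    x * y ∈ Vs O P (m + n) := by
  obtain ⟨s, hs, a, ha, h1⟩ := hx
  obtain ⟨s', hs', a', ha', h2⟩ := hy
  refine ⟨s * s', fun h => (hP.mem_or_mem h).elim hs hs', a * a',
    by rw [pow_add]; exact Ideal.mul_mem_mul ha ha', ?_⟩
  push_cast
  rw [← h1, ← h2]
  ring

theorem vs_anti {m n : ℕ} (h : m ≤ n) {x : M} (hx : x ∈ Vs O P n) : x ∈ Vs O P m := by
  obtain ⟨s, hs, a, ha, h1⟩ := hx
  exact ⟨s, hs, a, Ideal.pow_le_pow_right h ha, h1⟩

theorem vs_neg {n : ℕ} {x : M} (hx : x ∈ Vs O P n) : -x ∈ Vs O P n := by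
  obtain ⟨s, hs, a, ha, h1⟩ := hx
  refine ⟨s, hs, -a, neg_mem ha, ?_⟩
  push_cast
  rw [← h1]
  ring

theorem vs_sub (hP : P.IsPrime) {n : ℕ} {x y : M} (hx : x ∈ Vs O P n) (hy : y ∈ Vs O P n) :
    x - y ∈ Vs O P n := by
  rw [sub_eq_add_neg]
  exact vs_add hP hx (vs_neg hy)

theorem vs_ne {s : O} (hs : s ∉ P) : (s : M) ≠ 0 := by
  intro h
  have : s = 0 := Subtype.ext h
  exact hs (this ▸ P.zero_mem)

theorem vs_inv {s : O} (hs : s ∉ P) : (s : M)⁻¹ ∈ Vs O P 0 :=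
  ⟨s, hs, 1, by rw [pow_zero, Ideal.one_eq_top]; trivial, by
    rw [mul_inv_cancel₀ (vs_ne hs), OneMemClass.coe_one]⟩

theorem vs_zero_mem (hP : P.IsPrime) (n : ℕ) : (0 : M) ∈ Vs O P n := by
  have := vs_of hP (n := n) (a := 0) (Ideal.zero_mem _)
  simpa using this

theorem vs_one (hP : P.IsPrime) : (1 : M) ∉ Vs O P 1 := by
  rintro ⟨s, hs, a, ha, h1⟩
  rw [mul_one] at h1
  rw [pow_one] at ha
  have : s = a := Subtype.ext h1
  exact hs (this ▸ ha)

theorem vs_iff [IsDedekindDomain O] (hP : P.IsPrime) {n : ℕ} {x : O} :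
    (x : M) ∈ Vs O P n ↔ x ∈ P ^ n := by
  constructor
  · rintro ⟨s, hs, a, ha, h1⟩
    have h2 : s * x = a := Subtype.ext h1
    haveI := hP
    rw [← h2] at ha
    exact (Ideal.IsPrime.mul_mem_pow P ha).resolve_left hs
  · exact vs_of hP

theorem vs_inv_of {x : M} (hx : x ∈ Vs O P 0) (hx1 : x ∉ Vs O P 1) : x⁻¹ ∈ Vs O P 0 := by
  obtain ⟨s, hs, a, ha, h1⟩ := hx
  have ha' : a ∉ P := fun h => hx1 ⟨s, hs, a, by rwa [pow_one], h1⟩
  refine ⟨a, ha', s, by rw [pow_zero, Ideal.one_eq_top]; trivial, ?_⟩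
  have hx0 : x ≠ 0 := by
    rintro rfl
    rw [mul_zero] at h1
    exact vs_ne ha' h1.symm
  rw [← h1, mul_assoc, mul_inv_cancel₀ hx0, mul_one]

/-- Orders. -/
theorem vs_ord [IsDedekindDomain O] (hP : P.IsPrime) {a : O} (ha : a ≠ 0) :
    ∃ m : ℕ, a ∈ P ^ m ∧ a ∉ P ^ (m + 1) := by
  classical
  have hk := Ideal.iInf_pow_eq_bot_of_isDomain P hP.ne_top
  have : a ∉ (⨅ i : ℕ, P ^ i : Ideal O) := by
    rw [hk, Ideal.mem_bot]; exact ha
  rw [Ideal.mem_iInf] at this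
  push Not at this
  have h0 : Nat.find this ≠ 0 := by
    intro h
    have h1 := Nat.find_spec this
    rw [h, pow_zero, Ideal.one_eq_top] at h1
    exact h1 trivial
  obtain ⟨m, hm⟩ := Nat.exists_eq_succ_of_ne_zero h0
  refine ⟨m, ?_, ?_⟩
  · by_contra h
    exact Nat.find_min this (by omega) h
  · have h1 := Nat.find_spec this
    rwa [hm] at h1

theorem vs_div [IsDedekindDomain O] (hP : P.IsPrime) (hP0 : P ≠ ⊥) {m j : ℕ} {a b : O}
    (ha : a ∈ P ^ m)
    (ha' : a ∉ P ^ (m + 1)) (hb : b ∈ P ^ (m + j)) : (b : M) / a ∈ Vs O P j := by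
  have ha0 : (a : M) ≠ 0 := by
    intro h
    have : a = 0 := Subtype.ext h
    exact ha' (this ▸ Ideal.zero_mem _)
  have h1 : P ^ m ∣ Ideal.span {a} := by
    rw [Ideal.dvd_span_singleton]
    exact ha
  obtain ⟨J, hJ⟩ := h1
  have hJP : ¬ J ≤ P := by
    intro h
    apply ha'
    have h2 : a ∈ P ^ m * J := by
      rw [← hJ]
      exact Ideal.mem_span_singleton_self a
    rw [pow_succ]
    exact Ideal.mul_mono_right h h2
  obtain ⟨s, hs, hsP⟩ := SetLike.not_le_iff_exists.1 hJP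
  have h3 : s * b ∈ P ^ j * Ideal.span {a} := by
    rw [hJ, ← mul_assoc, ← pow_add, mul_comm, add_comm j m]
    exact Ideal.mul_mem_mul hs hb
  obtain ⟨c, hc, h4⟩ := Ideal.mem_mul_span_singleton.1 h3
  refine ⟨s, hsP, c, hc, ?_⟩
  have h5 : (c : M) * a = s * b := by
    have := congrArg (fun z : O => (z : M)) h4
    push_cast at this
    exact this
  field_simp
  rw [← h5, mul_comm]

/-- The valuation property. -/
theorem vs_val [IsDedekindDomain O] (hP : P.IsPrime) (hP0 : P ≠ ⊥) (a b : O) (ha : a ≠ 0) :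
    (b : M) / a ∈ Vs O P 0 ∨ (a : M) / b ∈ Vs O P 1 := by
  obtain ⟨m, h1, h2⟩ := vs_ord hP ha
  by_cases hb : b ∈ P ^ m
  · left
    exact vs_div hP hP0 h1 h2 hb
  · right
    have hb0 : b ≠ 0 := by
      rintro rfl
      exact hb (Ideal.zero_mem _)
    obtain ⟨l, h3, h4⟩ := vs_ord hP hb0
    have hl : l + 1 ≤ m := by
      by_contra h
      exact hb (Ideal.pow_le_pow_right (by omega) h3)
    exact vs_div hP hP0 h3 h4 (Ideal.pow_le_pow_right hl h1)

theorem vs_sum (hP : P.IsPrime) {n : ℕ} {ι : Type} (s : Finset ι) (f : ι → M)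
    (h : ∀ i ∈ s, f i ∈ Vs O P n) : ∑ i ∈ s, f i ∈ Vs O P n := by
  classical
  induction s using Finset.induction_on with
  | empty => rw [Finset.sum_empty]; exact vs_zero_mem hP n
  | insert i s hi ih =>
    rw [Finset.sum_insert hi]
    exact vs_add hP (h i (Finset.mem_insert_self i s))
      (ih fun j hj => h j (Finset.mem_insert_of_mem hj))

theorem vs_pow (hP : P.IsPrime) {x : M} (hx : x ∈ Vs O P 0) (n : ℕ) : x ^ n ∈ Vs O P 0 := by
  induction n with
  | zero => rw [pow_zero]; exact vs_of0 hP (one_mem _)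
  | succ n ih => rw [pow_succ]; exact vs_mul hP ih hx

/-- An inclusion in the degrees `0` and `1` is an inclusion in all degrees. -/
theorem vs_le {O' : Subalgebra k M} {P' : Ideal O'} (hP : P.IsPrime) (hP' : P'.IsPrime)
    (h0 : ∀ x ∈ Vs O P 0, x ∈ Vs O' P' 0) (h1 : ∀ x ∈ Vs O P 1, x ∈ Vs O' P' 1) (n : ℕ) :
    ∀ x ∈ Vs O P n, x ∈ Vs O' P' n := by
  have key : ∀ n : ℕ, ∀ a : O, a ∈ P ^ n → (a : M) ∈ Vs O' P' n := by
    intro n
    induction n with
    | zero => exact fun a ha => h0 _ (vs_of0 hP a.2)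
    | succ n ih =>
      intro a ha
      rw [pow_succ] at ha
      induction ha using Submodule.mul_induction_on' with
      | mem_mul_mem b hb c hc =>
        rw [MulMemClass.coe_mul]
        exact vs_mul hP' (ih b hb) (h1 _ (vs_of hP (by rwa [pow_one])))
      | add x hx y hy hx' hy' =>
        rw [AddMemClass.coe_add]
        exact vs_add hP' hx' hy'
  rintro x ⟨s, hs, a, ha, h⟩
  have h2 : x = (s : M)⁻¹ * a := by
    rw [← h, ← mul_assoc, inv_mul_cancel₀ (vs_ne hs), one_mul]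
  rw [h2, ← Nat.zero_add n]
  exact vs_mul hP' (h0 _ (vs_inv hs)) (key n a ha)

/-- The comparison lemma. -/
theorem vs_cmp {O' : Subalgebra k M} [IsDedekindDomain O] [IsDedekindDomain O']
    (hP : P.IsPrime) (hP0 : P ≠ ⊥) (hsub : ∀ y ∈ O', y ∈ Vs O P 0)
    (hf : ∀ x ∈ O, ∃ a b, a ∈ O' ∧ b ∈ O' ∧ b ≠ 0 ∧ x = a / b) :
    ∃ P' : Ideal O', P'.IsMaximal ∧ P' ≠ ⊥ ∧ ∀ n x, x ∈ Vs O' P' n ↔ x ∈ Vs O P n := by
  have hunit : ∀ x ∈ Vs O P 0, x ∉ Vs O P 1 → ∀ y, x * y ∈ Vs O P 1 → y ∈ Vs O P 1 := by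
    intro x hx hx1 y hxy
    have hx0 : x ≠ 0 := by
      rintro rfl
      exact hx1 (vs_zero_mem hP 1)
    have h1 := vs_mul hP (vs_inv_of hx hx1) hxy
    rw [← mul_assoc, inv_mul_cancel₀ hx0, one_mul, zero_add] at h1
    exact h1
  let P' : Ideal O' :=
    { carrier := {y | (y : M) ∈ Vs O P 1}
      add_mem' := fun {a b} ha hb => by
        have := vs_add hP ha hb
        exact this
      zero_mem' := vs_zero_mem hP 1
      smul_mem' := fun c x hx => by
        have := vs_mul hP (hsub c c.2) hx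
        rw [zero_add] at this
        exact this }
  have hP'm : ∀ y : O', y ∈ P' ↔ (y : M) ∈ Vs O P 1 := fun y => Iff.rfl
  have hP' : P'.IsPrime := by
    constructor
    · intro h
      have h1 : (1 : O') ∈ P' := by rw [h]; trivial
      rw [hP'm] at h1
      exact vs_one hP h1
    · intro x y hxy
      by_cases hx : x ∈ P'
      · exact Or.inl hx
      · right
        rw [hP'm] at hx hxy ⊢
        exact hunit x (hsub x x.2) hx y hxy
  have hP'0 : P' ≠ ⊥ := by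
    intro h
    obtain ⟨π, hπ, hπ0⟩ := Submodule.exists_mem_ne_zero_of_ne_bot hP0
    obtain ⟨a, b, ha, hb, hb0, hab⟩ := hf π π.2
    have hπ1 : (π : M) ∈ Vs O P 1 := vs_of hP (by rwa [pow_one])
    have ha1 : a ∈ Vs O P 1 := by
      have h1 : a = b * π := by
        rw [hab, mul_div_cancel₀ _ hb0]
      rw [h1]
      have := vs_mul hP (hsub b hb) hπ1
      rwa [zero_add] at this
    have ha2 : (⟨a, ha⟩ : O') ∈ P' := ha1
    rw [h, Ideal.mem_bot] at ha2
    have ha3 : a = 0 := congrArg Subtype.val ha2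
    rw [ha3, zero_div] at hab
    exact hπ0 (Subtype.ext hab)
  have hin0 : ∀ x ∈ Vs O' P' 0, x ∈ Vs O P 0 := by
    rintro x ⟨s, hs, a, -, h⟩
    have h2 : x = (s : M)⁻¹ * a := by
      rw [← h, ← mul_assoc, inv_mul_cancel₀ (vs_ne hs), one_mul]
    rw [h2]
    rw [hP'm] at hs
    exact vs_mul hP (vs_inv_of (hsub s s.2) hs) (hsub a a.2)
  have hin1 : ∀ x ∈ Vs O' P' 1, x ∈ Vs O P 1 := by
    rintro x ⟨s, hs, a, ha, h⟩
    rw [pow_one, hP'm] at ha
    have h2 : x = (s : M)⁻¹ * a := by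
      rw [← h, ← mul_assoc, inv_mul_cancel₀ (vs_ne hs), one_mul]
    rw [h2, ← Nat.zero_add 1]
    rw [hP'm] at hs
    exact vs_mul hP (vs_inv_of (hsub s s.2) hs) ha
  have hfr : ∀ x ∈ Vs O P 0, ∃ a b : O', b ≠ 0 ∧ x = a / b := by
    rintro x ⟨s, hs, c, -, h⟩
    obtain ⟨a, b, ha, hb, hb0, hab⟩ := hf s s.2
    obtain ⟨a', b', ha', hb', hb0', hab'⟩ := hf c c.2
    have hs0 := vs_ne hs
    have ha0 : a ≠ 0 := by
      rintro rfl
      rw [zero_div] at hab
      exact hs0 hab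
    refine ⟨⟨a' * b, mul_mem ha' hb⟩, ⟨b' * a, mul_mem hb' ha⟩, ?_, ?_⟩
    · intro h0
      have := congrArg Subtype.val h0
      exact mul_ne_zero hb0' ha0 this
    · have h2 : x = (c : M) / s := by
        rw [← h, mul_div_cancel_left₀ _ hs0]
      rw [h2, hab, hab']
      change a' / b' / (a / b) = a' * b / (b' * a)
      field_simp
  have hout0 : ∀ x ∈ Vs O P 0, x ∈ Vs O' P' 0 := by
    intro x hx
    obtain ⟨b, a, ha, hab⟩ := hfr x hx
    by_cases hb0 : (b : M) = 0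
    · rw [hab, hb0, zero_div]
      exact vs_zero_mem hP' 0
    rcases vs_val hP' hP'0 a b ha with h | h
    · rwa [hab]
    · exfalso
      have h1 := vs_mul hP hx (hin1 _ h)
      have ha0 : (a : M) ≠ 0 := fun h0 => ha (Subtype.ext h0)
      have h2 : x * ((a : M) / b) = 1 := by
        rw [hab]
        field_simp
      rw [h2, zero_add] at h1
      exact vs_one hP h1
  have hout1 : ∀ x ∈ Vs O P 1, x ∈ Vs O' P' 1 := by
    intro x hx
    by_contra h
    have h0 := hout0 x (vs_anti (Nat.zero_le 1) hx)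
    have h1 := hin0 _ (vs_inv_of h0 h)
    have hx0 : x ≠ 0 := by
      rintro rfl
      exact h (vs_zero_mem hP' 1)
    have h2 := vs_mul hP h1 hx
    rw [inv_mul_cancel₀ hx0, zero_add] at h2
    exact vs_one hP h2
  refine ⟨P', hP'.isMaximal hP'0, hP'0, fun n x => ⟨?_, ?_⟩⟩
  · exact vs_le hP' hP hin0 hin1 n x
  · exact vs_le hP hP' hout0 hout1 n x

end vs

end Pool.Agent.Zk15.PG
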