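import Pool.Agent.Zk15.PfTrA
import Pool.Agent.Zk15.Pf1

/-!
Comparison of the breaks and of the filtrations of two Dedekind rings in a field (module for
`helper10`).
-/

set_option autoImplicit false
set_option linter.overlappingInstances false
set_option linter.unusedSectionVars false
set_option linter.unusedVariables false

namespace Pool.Agent.Zk15.PG

open Pool.Agent.Zk10.PG

section tb

variable {k M : Type} [Field k] [Field M] [Algebra k M]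

/-- The action on the local ring. -/
theorem vs_act {O : Subalgebra k M} {P : Ideal O} (hP : P.IsPrime) (σ : M ≃ₐ[k] M)
    (τ : O ≃ₐ[k] O) (hτ : ∀ x : O, (τ x : M) = σ x) {l : ℕ} (h : ∀ x, τ x - x ∈ P ^ (l + 1))
    {x : M} (hx : x ∈ Vs O P 0) : σ x - x ∈ Vs O P (l + 1) := by
  obtain ⟨s, hs, a, -, h1⟩ := hx
  have hτs : τ s ∉ P := by
    intro h2
    apply hs
    have h3 := P.sub_mem h2 (Ideal.pow_le_self (Nat.succ_ne_zero l) (h s))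
    simpa using h3
  have h2 : (τ s : M) * σ x = τ a := by
    rw [hτ, hτ, ← map_mul, h1]
  refine ⟨τ s * s, fun h3 => (hP.mem_or_mem h3).elim hτs hs, s * τ a - τ s * a, ?_, ?_⟩
  · have h3 : s * τ a - τ s * a = s * (τ a - a) - (τ s - s) * a := by ring
    rw [h3]
    exact Ideal.sub_mem _ (Ideal.mul_mem_left _ _ (h a)) (Ideal.mul_mem_right _ _ (h s))
  · push_cast
    rw [← h2, ← h1]
    ring

theorem br_set (p : ℕ) [Fact p.Prime] {B : Type} [CommRing B] [Algebra k B] (τ : B ≃ₐ[k] B)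
    (hτ : τ ^ p = 1) (I : Ideal B) :
    (∀ s ∈ (Subgroup.zpowers τ : Set (B ≃ₐ[k] B)), ∀ x, s x - x ∈ I) ↔ ∀ x, τ x - x ∈ I := by
  constructor
  · exact fun h => h τ (Subgroup.mem_zpowers τ)
  · intro h s hs x
    obtain ⟨n, rfl⟩ := cf_powers p τ hτ hs
    exact cf_pow I τ h n x

theorem vs_fix {O O' : Subalgebra k M} [IsDedekindDomain O'] {P : Ideal O} {P' : Ideal O'}
    (hP : P.IsPrime) (hP' : P'.IsPrime) (heq : ∀ n x, x ∈ Vs O' P' n ↔ x ∈ Vs O P n)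
    (σ : M ≃ₐ[k] M) (τ : O ≃ₐ[k] O) (hτ : ∀ x : O, (τ x : M) = σ x) (τ' : O' ≃ₐ[k] O')
    (hτ' : ∀ x : O', (τ' x : M) = σ x) (l : ℕ) (h : ∀ x, τ x - x ∈ P ^ (l + 1)) :
    ∀ x, τ' x - x ∈ P' ^ (l + 1) := by
  intro x
  rw [← vs_iff hP', heq]
  have h1 := vs_act hP σ τ hτ h ((heq 0 x).1 (vs_of0 hP' x.2))
  have h2 : ((τ' x - x : O') : M) = σ x - x := by
    rw [AddSubgroupClass.coe_sub, hτ']
  rwa [h2]

theorem vs_fx (p : ℕ) [Fact p.Prime] {O O' : Subalgebra k M} [IsDedekindDomain O']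
    {P : Ideal O} {P' : Ideal O'} (hP : P.IsMaximal) (hP' : P'.IsMaximal)
    (heq : ∀ n x, x ∈ Vs O' P' n ↔ x ∈ Vs O P n)
    (σ : M ≃ₐ[k] M) (τ : O ≃ₐ[k] O) (hτ : ∀ x : O, (τ x : M) = σ x) (τ' : O' ≃ₐ[k] O')
    (hτ' : ∀ x : O', (τ' x : M) = σ x) (hp : τ ^ p = 1) (hp' : τ' ^ p = 1)
    (h : P ∈ Fx (Subgroup.zpowers τ : Set (O ≃ₐ[k] O))) :
    P' ∈ Fx (Subgroup.zpowers τ' : Set (O' ≃ₐ[k] O')) := by
  refine ⟨hP', (br_set p τ' hp' P').2 ?_⟩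
  have h1 := vs_fix hP.isPrime hP'.isPrime heq σ τ hτ τ' hτ' 0 (by
    rw [zero_add, pow_one]
    exact (br_set p τ hp P).1 h.2)
  rwa [zero_add, pow_one] at h1

theorem vs_br (p : ℕ) [Fact p.Prime] {O O' : Subalgebra k M} [IsDedekindDomain O]
    [IsDedekindDomain O']
    {P : Ideal O} {P' : Ideal O'} (hP : P.IsMaximal) (hP' : P'.IsMaximal)
    (heq : ∀ n x, x ∈ Vs O' P' n ↔ x ∈ Vs O P n)
    (σ : M ≃ₐ[k] M) (τ : O ≃ₐ[k] O) (hτ : ∀ x : O, (τ x : M) = σ x) (τ' : O' ≃ₐ[k] O')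
    (hτ' : ∀ x : O', (τ' x : M) = σ x) (hp : τ ^ p = 1) (hp' : τ' ^ p = 1) :
    br (Subgroup.zpowers τ' : Set (O' ≃ₐ[k] O')) P'
      = br (Subgroup.zpowers τ : Set (O ≃ₐ[k] O)) P := by
  unfold br
  congr 1
  ext l
  rw [Set.mem_setOf_eq, Set.mem_setOf_eq, br_set p τ' hp', br_set p τ hp]
  exact ⟨vs_fix hP'.isPrime hP.isPrime (fun n x => (heq n x).symm) σ τ' hτ' τ hτ l,
    vs_fix hP.isPrime hP'.isPrime heq σ τ hτ τ' hτ' l⟩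

theorem res_pow {O : Subalgebra k M} (σ : M ≃ₐ[k] M) (τ : O ≃ₐ[k] O)
    (hτ : ∀ x : O, (τ x : M) = σ x) (n : ℕ) : ∀ x : O, ((τ ^ n) x : M) = (σ ^ n) x := by
  induction n with
  | zero => intro x; rfl
  | succ n ih =>
    intro x
    rw [pow_succ, pow_succ, AlgEquiv.mul_apply, AlgEquiv.mul_apply, ih, hτ]

theorem res_pow_one {O : Subalgebra k M} (σ : M ≃ₐ[k] M) (τ : O ≃ₐ[k] O)
    (hτ : ∀ x : O, (τ x : M) = σ x) {p : ℕ} (hp : σ ^ p = 1) : τ ^ p = 1 := by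
  refine AlgEquiv.ext fun x => Subtype.ext ?_
  rw [res_pow σ τ hτ, hp]
  rfl

variable [PerfectField k] (p : ℕ) [Fact p.Prime] [CharP k p]

theorem ft_one {t : M} (ht0 : t ≠ 0) (A₁ A₂ : Subalgebra k M)
    (h12 : ∀ x ∈ A₁, ∃ n : ℕ, t⁻¹ ^ n * x ∈ A₂)
    (σ : M ≃ₐ[k] M) (hσt : σ t = t)
    (τ₁ : A₁ ≃ₐ[k] A₁) (τ₂ : A₂ ≃ₐ[k] A₂) (h1 : ∀ x : A₁, (τ₁ x : M) = σ x)
    (h2 : ∀ x : A₂, (τ₂ x : M) = σ x) (h : τ₂ = 1) : τ₁ = 1 := by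
  refine AlgEquiv.ext fun x => Subtype.ext ?_
  rw [h1, AlgEquiv.one_apply]
  obtain ⟨n, hn⟩ := h12 x x.2
  have h3 := h2 ⟨_, hn⟩
  rw [h, AlgEquiv.one_apply] at h3
  change t⁻¹ ^ n * (x : M) = σ (t⁻¹ ^ n * (x : M)) at h3
  rw [map_mul, map_pow, map_inv₀, hσt] at h3
  exact (mul_left_cancel₀ (pow_ne_zero n (inv_ne_zero ht0)) h3).symm

/-- Comparison of the filtrations on two charts (applied also with `t⁻¹` instead of `t`). -/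
theorem fil_transfer {t : M} (ht0 : t ≠ 0) (A₁ A₂ : Subalgebra k M) [IsDedekindDomain A₁]
    [IsDedekindDomain A₂] [Algebra.FiniteType k A₁] [Algebra.FiniteType k A₂] (ht : t ∈ A₁)
    (ht' : t⁻¹ ∈ A₂) (h12 : ∀ x ∈ A₁, ∃ n : ℕ, t⁻¹ ^ n * x ∈ A₂)
    (h21 : ∀ x ∈ A₂, ∃ n : ℕ, t ^ n * x ∈ A₁) (σ : M ≃ₐ[k] M) (hσt : σ t = t)
    (τ₁ : A₁ ≃ₐ[k] A₁) (τ₂ : A₂ ≃ₐ[k] A₂) (h1 : ∀ x : A₁, (τ₁ x : M) = σ x)
    (h2 : ∀ x : A₂, (τ₂ x : M) = σ x) (hσp : σ ^ p = 1) (D : ℕ) (hD : 0 < D) (m : ℕ) (x : A₁)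
    (hx : x ∈ Fil (Subgroup.zpowers τ₁ : Set (A₁ ≃ₐ[k] A₁)) D m) :
    ∃ N₀, ∀ N, N₀ ≤ N → ∃ h : t⁻¹ ^ N * (x : M) ∈ A₂,
      (⟨_, h⟩ : A₂) ∈ Fil (Subgroup.zpowers τ₂ : Set (A₂ ≃ₐ[k] A₂)) D m := by
  classical
  obtain ⟨n, hn⟩ := h12 x x.2
  have hmem : ∀ N, n ≤ N → t⁻¹ ^ N * (x : M) ∈ A₂ := by
    intro N hN
    obtain ⟨j, rfl⟩ := Nat.exists_eq_add_of_le hN
    have h3 : t⁻¹ ^ (n + j) * (x : M) = t⁻¹ ^ j * (t⁻¹ ^ n * x) := by ring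
    rw [h3]
    exact mul_mem (pow_mem ht' j) hn
  by_cases hτ : τ₂ = 1
  · have hτ1 := ft_one ht0 A₁ A₂ h12 σ hσt τ₁ τ₂ h1 h2 hτ
    rw [cf_fil_triv τ₁ hτ1] at hx
    refine ⟨n, fun N hN => ⟨hmem N hN, ?_⟩⟩
    rw [cf_fil_triv τ₂ hτ]
    split_ifs at hx ⊢ with hm
    · trivial
    · rw [Ideal.mem_bot] at hx ⊢
      apply Subtype.ext
      change t⁻¹ ^ N * (x : M) = 0
      rw [hx, ZeroMemClass.coe_zero, mul_zero]
  · have hτ1 : τ₁ ≠ 1 := by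
      intro h
      have h' := ft_one (t := t⁻¹) (inv_ne_zero ht0) A₂ A₁ (by rwa [inv_inv]) σ
        (by rw [map_inv₀, hσt]) τ₂ τ₁ h2 h1 h
      exact hτ h'
    have hp1 : τ₁ ^ p = 1 := res_pow_one σ τ₁ h1 hσp
    have hp2 : τ₂ ^ p = 1 := res_pow_one σ τ₂ h2 hσp
    rw [cf_fil_mem τ₁ hτ1] at hx
    let S : Finset (Ideal A₂) := (fx_finite p τ₂ hp2 hτ).toFinset
    let e : Ideal A₂ → ℕ := fun P =>
      (m * br (Subgroup.zpowers τ₂ : Set (A₂ ≃ₐ[k] A₂)) P + (D - 1)) / D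
    refine ⟨n + ∑ P ∈ S, e P, fun N hN => ⟨hmem N (by omega), ?_⟩⟩
    rw [cf_fil_mem τ₂ hτ]
    intro P hP
    have hPS : P ∈ S := (Set.Finite.mem_toFinset _).2 hP
    have heP : e P ≤ ∑ P ∈ S, e P := Finset.single_le_sum (fun _ _ => Nat.zero_le _) hPS
    have hPp : P.IsPrime := hP.1.isPrime
    have hP0 : P ≠ ⊥ := cf_bot τ₂ hτ hP
    by_cases hu : (⟨t⁻¹, ht'⟩ : A₂) ∈ P
    · have h3 : (⟨t⁻¹ ^ N * (x : M), hmem N (by omega)⟩ : A₂)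
          = (⟨t⁻¹, ht'⟩ : A₂) ^ (N - n) * ⟨t⁻¹ ^ n * (x : M), hn⟩ := by
        apply Subtype.ext
        change t⁻¹ ^ N * (x : M) = t⁻¹ ^ (N - n) * (t⁻¹ ^ n * x)
        rw [← mul_assoc, ← pow_add, Nat.sub_add_cancel (by omega)]
      rw [h3]
      refine Ideal.mul_mem_right _ _ ?_
      exact Ideal.pow_le_pow_right (by change e P ≤ N - n; omega) (Ideal.pow_mem_pow hu _)
    · obtain ⟨P', hP', hP'0, heq⟩ := vs_cmp (O := A₂) (O' := A₁) hPp hP0 (by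
        intro y hy
        obtain ⟨j, hj⟩ := h12 y hy
        refine ⟨⟨t⁻¹, ht'⟩ ^ j, fun h => hu (hPp.mem_of_pow_mem j h), ⟨_, hj⟩, ?_, ?_⟩
        · rw [pow_zero, Ideal.one_eq_top]
          trivial
        · rfl) (by
        intro y hy
        obtain ⟨j, hj⟩ := h21 y hy
        refine ⟨t ^ j * y, t ^ j, hj, pow_mem ht j, pow_ne_zero j ht0, ?_⟩
        rw [mul_div_cancel_left₀ _ (pow_ne_zero j ht0)])
      have hfx := vs_fx p hP.1 hP' heq σ τ₂ h2 τ₁ h1 hp2 hp1 hP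
      have h3 := hx P' hfx
      rw [vs_br p hP.1 hP' heq σ τ₂ h2 τ₁ h1 hp2 hp1] at h3
      rw [← vs_iff hPp]
      have h4 : (x : M) ∈ Vs A₂ P (e P) := (heq _ _).1 (vs_of hP'.isPrime h3)
      have h5 : t⁻¹ ^ N ∈ Vs A₂ P 0 := vs_of0 hPp (pow_mem ht' N)
      have h6 := vs_mul hPp h5 h4
      rw [zero_add] at h6
      exact h6

end tb

end Pool.Agent.Zk15.PG
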