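import Pool.Agent.Zk15.PfW5
import Pool.Agent.Zk50.Gen2
import Pool.Agent.Zk15.Fp12
import Pool.Agent.Zk15.Fp15
import Pool.Agent.Zk15.PfTr

/-!
Coordinates of a projective curve, with the weights of the filtrations.
-/

set_option autoImplicit false
set_option linter.unusedVariables false
set_option linter.unusedSectionVars false
set_option linter.overlappingInstances false

namespace Pool.Agent.Zk15.PG

open Pool.Agent.Zk10.PG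

open Pool.Agent.Zk15 (IC TS TS_inj IC_ok IC_map IC_t IC_h1 IC_h2 adj_inv)

/-- The cyclic groups of order `p`, or `1`. -/
def Cy {G : Type} [Group G] (p : ℕ) (ξ : Set G) : Prop :=
  ∃ τ : G, τ ^ p = 1 ∧ ξ = (Subgroup.zpowers τ : Set G)

/-- The automorphisms in `ξ`. -/
def Im {k B G : Type} [Field k] [CommRing B] [Algebra k B] [Group G] (θ : G →* (B ≃ₐ[k] B))
    (ξ : Set G) : Set (B ≃ₐ[k] B) := {s | ∃ g ∈ ξ, s = θ g}

lemma Im_z {k B G : Type} [Field k] [CommRing B] [Algebra k B] [Group G] (θ : G →* (B ≃ₐ[k] B))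
    (τ : G) : Im θ (Subgroup.zpowers τ : Set G) =
      (Subgroup.zpowers (θ τ) : Set (B ≃ₐ[k] B)) := by
  ext s
  constructor
  · rintro ⟨_, ⟨i, rfl⟩, rfl⟩
    exact ⟨i, (map_zpow θ τ i).symm⟩
  · rintro ⟨i, rfl⟩
    exact ⟨τ ^ i, ⟨i, rfl⟩, (map_zpow θ τ i).symm⟩

/-- The coordinates `Z` of a projective curve with the function field `F`, with the weights `w`,
in the chart `S`, where the coordinate `s` is invertible. -/
structure GenD {k F G : Type} [Field k] [Field F] [Algebra k F] [Group G]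
    (ρ : G →* (F ≃ₐ[k] F)) (p D : ℕ) (Z : Set F) (w : Set G → F → ℕ) (S : Subalgebra k F)
    (s : F) : Prop where
  st : ∀ g, ∀ x ∈ S, ρ g x ∈ S
  dd : IsDedekindDomain S
  ft : Algebra.FiniteType k S
  fr : ∀ x : F, ∃ a b, a ∈ S ∧ b ∈ S ∧ b ≠ 0 ∧ x = a / b
  s0 : s ≠ 0
  sZ : s ∈ Z
  sρ : ∀ g, ρ g s = s
  zS : ∀ z ∈ Z, z / s ∈ S
  ad : Algebra.adjoin k ((fun z => z / s) '' Z) = S
  wm : ∀ ξ, Cy p ξ → ∀ z (hz : z ∈ Z), (⟨z / s, zS z hz⟩ : S) ∈ Fil (Im (TS ρ S st) ξ) D (w ξ z)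
  sp : ∀ ξ, Cy p ξ → ∀ m, m ≤ D → Fil (Im (TS ρ S st) ξ) D m =
    Ideal.span {x : S | ∃ z ∈ Z, (x : F) = z / s ∧ m ≤ w ξ z}

section two

variable {k F G : Type} [Field k] [PerfectField k] {p : ℕ} [Fact p.Prime] [CharP k p] [Field F]
  [Algebra k F] [Group G] [Finite G] (ρ : G →* (F ≃ₐ[k] F)) {t : F}

/-- The condition on the common multiple of the breaks. -/
def BrD {k F G : Type} [Field k] [Field F] [Algebra k F] [Group G]
    (ρ : G →* (F ≃ₐ[k] F)) (p D : ℕ) : Prop :=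
  ∀ (O : Subalgebra k F) (hO : ∀ g, ∀ x ∈ O, ρ g x ∈ O),
      IsDedekindDomain O → Algebra.FiniteType k O →
      (∀ x : F, ∃ a b, a ∈ O ∧ b ∈ O ∧ b ≠ 0 ∧ x = a / b) →
      ∀ g, ρ g ^ p = 1 → ρ g ≠ 1 →
        ∀ P ∈ Fx (Subgroup.zpowers (TS ρ O hO g) : Set (O ≃ₐ[k] O)),
          br (Subgroup.zpowers (TS ρ O hO g) : Set (O ≃ₐ[k] O)) P ∣ D

lemma TS_one {O : Subalgebra k F} (hO : ∀ g, ∀ x ∈ O, ρ g x ∈ O)
    (hfr : ∀ x : F, ∃ a b, a ∈ O ∧ b ∈ O ∧ b ≠ 0 ∧ x = a / b) (g : G) :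
    TS ρ O hO g = 1 ↔ ρ g = 1 := by
  constructor
  · intro h
    refine AlgEquiv.ext fun x => ?_
    obtain ⟨a, b, ha, hb, -, rfl⟩ := hfr x
    have h1 : ∀ y (hy : y ∈ O), ρ g y = y := fun y hy =>
      congrArg (fun f : O ≃ₐ[k] O => ((f ⟨y, hy⟩ : O) : F)) h
    rw [map_div₀, h1 a ha, h1 b hb]
    rfl
  · intro h
    refine AlgEquiv.ext fun x => Subtype.ext ?_
    change ρ g x = x
    rw [h]
    rfl

lemma BrD.ts {D : ℕ} {ρ : G →* (F ≃ₐ[k] F)} (h : BrD ρ p D) {O : Subalgebra k F}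
    (hO : ∀ g, ∀ x ∈ O, ρ g x ∈ O) (hd : IsDedekindDomain O) (hft : Algebra.FiniteType k O)
    (hfr : ∀ x : F, ∃ a b, a ∈ O ∧ b ∈ O ∧ b ≠ 0 ∧ x = a / b) (g : G)
    (h1 : TS ρ O hO g ^ p = 1) (h2 : TS ρ O hO g ≠ 1) :
    ∀ P ∈ Fx (Subgroup.zpowers (TS ρ O hO g) : Set (O ≃ₐ[k] O)),
      br (Subgroup.zpowers (TS ρ O hO g) : Set (O ≃ₐ[k] O)) P ∣ D := by
  refine h O hO hd hft hfr g ?_ fun h3 => h2 ((TS_one ρ hO hfr g).2 h3)
  rw [← map_pow] at h1 ⊢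
  exact (TS_one ρ hO hfr _).1 h1

lemma flt_of {D : ℕ} (hD : 0 < D) {ρ : G →* (F ≃ₐ[k] F)} (h : BrD ρ p D) {O : Subalgebra k F}
    (hO : ∀ g, ∀ x ∈ O, ρ g x ∈ O) (hd : IsDedekindDomain O) (hft : Algebra.FiniteType k O)
    (hfr : ∀ x : F, ∃ a b, a ∈ O ∧ b ∈ O ∧ b ≠ 0 ∧ x = a / b) {ξ : Set G} (hξ : Cy p ξ) :
    Flt (Fil (Im (TS ρ O hO) ξ) D) D := by
  obtain ⟨τ, hτ, rfl⟩ := hξ
  rw [Im_z]
  have h0 : TS ρ O hO τ ^ p = 1 := by rw [← map_pow, hτ, map_one]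
  by_cases h1 : TS ρ O hO τ = 1
  · refine triv_Flt ?_ hD
    intro s hs
    rw [h1, Subgroup.zpowers_one_eq_bot] at hs
    exact Subgroup.mem_bot.1 hs
  · exact fil_Flt p (TS ρ O hO τ) h0 hD (h.ts hO hd hft hfr τ h0 h1)

/-- Coordinates of a projective curve. -/
theorem two_charts {D : ℕ} (hD : 0 < D) (hB : BrD ρ p D) (ht : Transcendental k t)
    (htρ : ∀ g, ρ g t = t) (F' : IntermediateField k F)
    (hF : F' = IntermediateField.adjoin k {t}) [FiniteDimensional F' F]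
    [Algebra.IsSeparable F' F] :
    ∃ (N : ℕ) (Z : Set F) (w : Set G → F → ℕ), Z.Finite ∧ 0 ∉ Z ∧
      (∀ g, ∀ z ∈ Z, ρ g z ∈ Z) ∧ GenD ρ p D Z w (IC k t) 1 ∧
      GenD ρ p D Z w (IC k t⁻¹) (t ^ N) := by
  classical
  have ht0 : t ≠ 0 := fun h => ht (by rw [h]; exact isAlgebraic_zero)
  have htr : Transcendental k t⁻¹ := fun h => ht (by
    have h1 := h.inv
    rwa [inv_inv] at h1)
  obtain ⟨hd1, hft1, hfr1⟩ := IC_ok ht F' hF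
  obtain ⟨hd2, hft2, hfr2⟩ := IC_ok htr F' (hF.trans (adj_inv t))
  have hG1 : ∀ g, ∀ x ∈ IC k t, ρ g x ∈ IC k t := fun g x hx => IC_map (ρ g) (htρ g) hx
  have hG2 : ∀ g, ∀ x ∈ IC k t⁻¹, ρ g x ∈ IC k t⁻¹ := fun g x hx =>
    IC_map (ρ g) (by rw [map_inv₀, htρ]) hx
  have h21 : ∀ x ∈ IC k t⁻¹, ∃ n : ℕ, t ^ n * x ∈ IC k t := fun x hx => IC_h1 ht0 hx
  have h12 : ∀ x ∈ IC k t, ∃ n : ℕ, t⁻¹ ^ n * x ∈ IC k t⁻¹ := fun x hx => IC_h2 ht0 hx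
  let Ξ := {ξ : Set G // Cy p ξ}
  have hF1 : ∀ ξ : Ξ, Flt (Fil (Im (TS ρ (IC k t) hG1) ξ.1) D) D := fun ξ =>
    flt_of hD hB hG1 hd1 hft1 hfr1 ξ.2
  have hF2 : ∀ ξ : Ξ, Flt (Fil (Im (TS ρ (IC k t⁻¹) hG2) ξ.1) D) D := fun ξ =>
    flt_of hD hB hG2 hd2 hft2 hfr2 ξ.2
  obtain ⟨N, Z, w, hZf, h1, htN, h0, hst, hZ1, hZ2, had1, had2, hw⟩ := exists_gens2 ρ ht0 htρ
    (IC k t) (IC k t⁻¹) hG1 hG2 hft1 hft2 (IC_t t) (IC_t t⁻¹) h12 h21 Ξ D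
    (fun ξ => Fil (Im (TS ρ (IC k t) hG1) ξ.1) D) (fun ξ => Fil (Im (TS ρ (IC k t⁻¹) hG2) ξ.1) D)
    (fun ξ => (hF1 ξ).zero) (fun ξ => (hF2 ξ).zero) (fun ξ => (hF1 ξ).anti)
    (fun ξ => (hF2 ξ).anti) (by
      rintro ⟨_, τ, hτ, rfl⟩ m x hx
      have h3 := fil_transfer p ht0 (IC k t) (IC k t⁻¹) (IC_t t) (IC_t t⁻¹) h12 h21 (ρ τ)
        (htρ τ) (TS ρ (IC k t) hG1 τ) (TS ρ (IC k t⁻¹) hG2 τ) (fun x => rfl) (fun x => rfl)
        (by rw [← map_pow, hτ, map_one]) D hD m x (by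
          have h4 : x ∈ Fil (Im (TS ρ (IC k t) hG1) (Subgroup.zpowers τ : Set G)) D m := hx
          rwa [Im_z] at h4)
      simp only [Im_z]
      exact h3) (by
      rintro ⟨_, τ, hτ, rfl⟩ m x hx
      have h3 := fil_transfer p (inv_ne_zero ht0) (IC k t⁻¹) (IC k t) (IC_t t⁻¹)
        (by rw [inv_inv]; exact IC_t t) (fun x hx => by rw [inv_inv]; exact h21 x hx) h12 (ρ τ)
        (by rw [map_inv₀, htρ τ]) (TS ρ (IC k t⁻¹) hG2 τ) (TS ρ (IC k t) hG1 τ) (fun x => rfl)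
        (fun x => rfl) (by rw [← map_pow, hτ, map_one]) D hD m x (by
          have h4 : x ∈ Fil (Im (TS ρ (IC k t⁻¹) hG2) (Subgroup.zpowers τ : Set G)) D m := hx
          rwa [Im_z] at h4)
      rw [inv_inv] at h3
      simp only [Im_z]
      exact h3)
  let w' : Set G → F → ℕ := fun ξ z => if h : Cy p ξ then w ⟨ξ, h⟩ z else 0
  have hw' : ∀ ξ (h : Cy p ξ), w' ξ = w ⟨ξ, h⟩ := by
    intro ξ h
    funext z
    exact dif_pos h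
  have hdiv : ∀ z, z / t ^ N = t⁻¹ ^ N * z := by
    intro z
    rw [div_eq_mul_inv, inv_pow, mul_comm]
  refine ⟨N, Z, w', hZf, h0, hst, ?_, ?_⟩
  · have hzS : ∀ z ∈ Z, z / 1 ∈ IC k t := fun z hz => by rw [div_one]; exact hZ1 z hz
    refine ⟨hG1, hd1, hft1, hfr1, one_ne_zero, h1, fun g => map_one _, hzS, ?_, ?_, ?_⟩
    · have e1 : (fun z : F => z / 1) '' Z = Z := by
        simp only [div_one, Set.image_id']
      rw [e1]
      exact had1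
    · intro ξ hξ z hz
      rw [hw' ξ hξ]
      have h3 := (hw ⟨ξ, hξ⟩).1 z hz (hZ1 z hz)
      have e1 : (⟨z / 1, hzS z hz⟩ : IC k t) = ⟨z, hZ1 z hz⟩ := Subtype.ext (div_one z)
      rw [e1]
      exact h3
    · intro ξ hξ m hm
      rw [hw' ξ hξ]
      have h3 := ((hw ⟨ξ, hξ⟩).2.2 m hm).1
      refine h3.trans ?_
      congr 1
      ext x
      constructor
      · rintro ⟨hx1, hx2⟩
        exact ⟨x, hx1, (div_one _).symm, hx2⟩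
      · rintro ⟨z, hz, hxz, hm'⟩
        rw [div_one] at hxz
        rw [← hxz] at hz hm'
        exact ⟨hz, hm'⟩
  · have hzS : ∀ z ∈ Z, z / t ^ N ∈ IC k t⁻¹ := fun z hz => by rw [hdiv]; exact hZ2 z hz
    refine ⟨hG2, hd2, hft2, hfr2, pow_ne_zero _ ht0, htN, fun g => by rw [map_pow, htρ], hzS, ?_,
      ?_, ?_⟩
    · have e1 : (fun z : F => z / t ^ N) = fun z => t⁻¹ ^ N * z := funext hdiv
      rw [e1]
      exact had2
    · intro ξ hξ z hz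
      rw [hw' ξ hξ]
      have h3 := (hw ⟨ξ, hξ⟩).2.1 z hz (hZ2 z hz)
      have e1 : (⟨z / t ^ N, hzS z hz⟩ : IC k t⁻¹) = ⟨t⁻¹ ^ N * z, hZ2 z hz⟩ :=
        Subtype.ext (hdiv z)
      rw [e1]
      exact h3
    · intro ξ hξ m hm
      rw [hw' ξ hξ]
      have h3 := ((hw ⟨ξ, hξ⟩).2.2 m hm).2
      refine h3.trans ?_
      congr 1
      ext x
      constructor
      · rintro ⟨z, hz, hx1, hx2⟩
        exact ⟨z, hz, hx1.trans (hdiv z).symm, hx2⟩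
      · rintro ⟨z, hz, hx1, hx2⟩
        exact ⟨z, hz, hx1.trans (hdiv z), hx2⟩

end two

end Pool.Agent.Zk15.PG
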