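import Pool.Agent.Zk15.PfW8
import Pool.Agent.Zk15.PfW9
import Pool.Agent.Zk50.Wr2
import Pool.Agent.Zk15.PfCh
import Pool.Agent.Zk15.Aff6

/-!
The charts of the product of a base curve and of projective curves.
-/

set_option autoImplicit false
set_option linter.unusedVariables false
set_option linter.unusedSectionVars false
set_option linter.overlappingInstances false

namespace Pool.Agent.Zk15.PG

open Pool.Agent.Zk10.PG

open Pool.Agent.Y223.G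
open Pool.Agent.R383.TM (Wild WR)
open Pool.Agent.Zk15 (TS TS_inj IC)
open Pool.Agent.Zk15.F (inG invS TA)

/-- The weight of a prime of the base. -/
noncomputable def e0 {k B G : Type} [Field k] [CommRing B] [Algebra k B] [Group G]
    (T : G →* (B ≃ₐ[k] B)) (D : ℕ) (𝔓 : Ideal B) : ℕ :=
  max 1 (D / br (Im T {g | Wild T g 𝔓}) 𝔓)

section ch

variable {k G : Type} [Field k] [PerfectField k] {p : ℕ} [Fact p.Prime] [CharP k p] [Group G]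
  [Finite G] {n : ℕ} {F : Fin (n + 1) → Type} [∀ l, Field (F l)] [∀ l, Algebra k (F l)]
  {ρ : ∀ l, G →* (F l ≃ₐ[k] F l)} (hρ : Function.Injective (ρ 0)) {D : ℕ} (hD : 0 < D)
  (hB : ∀ l, BrD (ρ l) p D)
  {TT : Type} [CommRing TT] [IsDomain TT] [Algebra k TT] {j : ∀ l, F l →ₐ[k] TT} (hj : IsTens j)
  {K : Type} [Field K] [Algebra TT K] [IsFractionRing TT K] [Algebra k K] [IsScalarTower k TT K]
  {ρK : G →* (K ≃ₐ[k] K)}
  (hρK : ∀ g l x, ρK g (algebraMap TT K (j l x)) = algebraMap TT K (j l (ρ l g x)))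
  {Z : ∀ l : Fin n, Set (F l.succ)} {w : ∀ l : Fin n, Set G → F l.succ → ℕ}
  {m : ℕ} (E : (∀ l, Z l) ≃ Fin (m + 1)) {z : Fin (m + 1) → K}
  (hz : ∀ i, z i = ∏ l : Fin n, algebraMap TT K (j l.succ (E.symm i l : F l.succ)))
  (S : ∀ l, Subalgebra k (F l)) (hS : ∀ l g, ∀ x ∈ S l, ρ l g x ∈ S l)
  (hd : ∀ l, IsDedekindDomain (S l)) (hft : ∀ l, Algebra.FiniteType k (S l))
  (hfr : ∀ l, ∀ x : F l, ∃ a b, a ∈ S l ∧ b ∈ S l ∧ b ≠ 0 ∧ x = a / b)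
  {s : ∀ l : Fin n, F l.succ}
  (hg : ∀ l : Fin n, GenD (ρ l.succ) p D (Z l) (w l) (S l.succ) (s l))
  (hin : ∀ 𝔓 : Ideal (S 0), 𝔓.IsMaximal → 𝔓 ≠ ⊥ →
    ¬ p ^ 2 ∣ Nat.card (inG (TS (ρ 0) (S 0) (hS 0)) 𝔓))
  [Algebra (S 0) K] (hS0 : ∀ o : S 0, algebraMap (S 0) K o = algebraMap TT K (j 0 (o : F 0)))

include hρ hD hB hj hρK hz hd hft hfr hg hin hS0 in
/-- The chart. -/
theorem chart_all (j0 : Fin (m + 1)) (hj0 : ∀ l, (E.symm j0 l : F l.succ) = s l) :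
    IsRegularRing (Algebra.adjoin (S 0) (Set.range fun i => z i / z j0)) ∧
    (∀ l, ∀ x : S l, algebraMap TT K (j l (x : F l)) ∈
      Algebra.adjoin (S 0) (Set.range fun i => z i / z j0)) ∧
    (∀ x : K, ∃ a b, a ∈ Algebra.adjoin (S 0) (Set.range fun i => z i / z j0) ∧
      b ∈ Algebra.adjoin (S 0) (Set.range fun i => z i / z j0) ∧ b ≠ 0 ∧ x = a / b) ∧
    ∀ ρ' : G →* (K ≃ₐ[invS (TS (ρ 0) (S 0) (hS 0))] K), (∀ g x, ρ' g x = ρK g x) →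
    (∀ 𝔓 : Ideal (S 0), 𝔓.IsMaximal →
      (∃ g, g ≠ 1 ∧ Wild (TA (TS (ρ 0) (S 0) (hS 0))) g 𝔓) →
      IsRegularRing (WR (invS (TS (ρ 0) (S 0) (hS 0))) 𝔓 (e0 (TS (ρ 0) (S 0) (hS 0)) D 𝔓)
        (fun i => ∑ l, w l {g | Wild (TS (ρ 0) (S 0) (hS 0)) g 𝔓} (E.symm i l)) z j0)) ∧
    (∀ 𝔓 : Ideal (S 0), 𝔓.IsMaximal →
      (∃ g, g ≠ 1 ∧ Wild (TA (TS (ρ 0) (S 0) (hS 0))) g 𝔓) →
      ∀ (g : G) (𝔓' : Ideal (S 0)), (∀ o, o ∈ 𝔓 ↔ TA (TS (ρ 0) (S 0) (hS 0)) g o ∈ 𝔓') →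
      ∀ f ∈ WR (invS (TS (ρ 0) (S 0) (hS 0))) 𝔓 (e0 (TS (ρ 0) (S 0) (hS 0)) D 𝔓)
        (fun i => ∑ l, w l {g | Wild (TS (ρ 0) (S 0) (hS 0)) g 𝔓} (E.symm i l)) z j0,
      tl (ρ' g) f ∈ WR (invS (TS (ρ 0) (S 0) (hS 0))) 𝔓' (e0 (TS (ρ 0) (S 0) (hS 0)) D 𝔓')
        (fun i => ∑ l, w l {g | Wild (TS (ρ 0) (S 0) (hS 0)) g 𝔓'} (E.symm i l)) z j0) ∧
    ∀ 𝔓 : Ideal (S 0), 𝔓.IsMaximal → ∀ g, g ≠ 1 →
      Wild (TA (TS (ρ 0) (S 0) (hS 0))) g 𝔓 → ∃ l D' : ℕ, 0 < D' ∧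
      D' ≤ e0 (TS (ρ 0) (S 0) (hS 0)) D 𝔓 * l ∧
      (∀ o, TA (TS (ρ 0) (S 0) (hS 0)) g o - o ∈ 𝔓 ^ (l + 1)) ∧
      (∀ f ∈ WR (invS (TS (ρ 0) (S 0) (hS 0))) 𝔓 (e0 (TS (ρ 0) (S 0) (hS 0)) D 𝔓)
        (fun i => ∑ l, w l {g | Wild (TS (ρ 0) (S 0) (hS 0)) g 𝔓} (E.symm i l)) z j0,
        hm D' 1 * (tl (ρ' g) f - f) ∈ WR (invS (TS (ρ 0) (S 0) (hS 0))) 𝔓
          (e0 (TS (ρ 0) (S 0) (hS 0)) D 𝔓)
          (fun i => ∑ l, w l {g | Wild (TS (ρ 0) (S 0) (hS 0)) g 𝔓} (E.symm i l)) z j0) ∧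
      ∀ Q : Ideal (WR (invS (TS (ρ 0) (S 0) (hS 0))) 𝔓 (e0 (TS (ρ 0) (S 0) (hS 0)) D 𝔓)
        (fun i => ∑ l, w l {g | Wild (TS (ρ 0) (S 0) (hS 0)) g 𝔓} (E.symm i l)) z j0),
        Q.IsPrime →
        (∀ a ∈ 𝔓, ∃ h : hm 0 (algebraMap (S 0) K a) ∈
          WR (invS (TS (ρ 0) (S 0) (hS 0))) 𝔓 (e0 (TS (ρ 0) (S 0) (hS 0)) D 𝔓)
          (fun i => ∑ l, w l {g | Wild (TS (ρ 0) (S 0) (hS 0)) g 𝔓} (E.symm i l)) z j0,
          (⟨_, h⟩ : WR (invS (TS (ρ 0) (S 0) (hS 0))) 𝔓 (e0 (TS (ρ 0) (S 0) (hS 0)) D 𝔓)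
          (fun i => ∑ l, w l {g | Wild (TS (ρ 0) (S 0) (hS 0)) g 𝔓} (E.symm i l)) z j0) ∈ Q) →
        (∃ (n : ℕ) (η : K) (he : hm n η ∈
          WR (invS (TS (ρ 0) (S 0) (hS 0))) 𝔓 (e0 (TS (ρ 0) (S 0) (hS 0)) D 𝔓)
          (fun i => ∑ l, w l {g | Wild (TS (ρ 0) (S 0) (hS 0)) g 𝔓} (E.symm i l)) z j0),
          0 < n ∧ (⟨hm n η, he⟩ :
          WR (invS (TS (ρ 0) (S 0) (hS 0))) 𝔓 (e0 (TS (ρ 0) (S 0) (hS 0)) D 𝔓)
          (fun i => ∑ l, w l {g | Wild (TS (ρ 0) (S 0) (hS 0)) g 𝔓} (E.symm i l)) z j0) ∉ Q) →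
        ∃ b ∈ WR (invS (TS (ρ 0) (S 0) (hS 0))) 𝔓 (e0 (TS (ρ 0) (S 0) (hS 0)) D 𝔓)
          (fun i => ∑ l, w l {g | Wild (TS (ρ 0) (S 0) (hS 0)) g 𝔓} (E.symm i l)) z j0,
          ∃ h : hm D' 1 * (tl (ρ' g) b - b) ∈
            WR (invS (TS (ρ 0) (S 0) (hS 0))) 𝔓 (e0 (TS (ρ 0) (S 0) (hS 0)) D 𝔓)
            (fun i => ∑ l, w l {g | Wild (TS (ρ 0) (S 0) (hS 0)) g 𝔓} (E.symm i l)) z j0,
            (⟨_, h⟩ : WR (invS (TS (ρ 0) (S 0) (hS 0))) 𝔓 (e0 (TS (ρ 0) (S 0) (hS 0)) D 𝔓)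
            (fun i => ∑ l, w l {g | Wild (TS (ρ 0) (S 0) (hS 0)) g 𝔓} (E.symm i l)) z j0) ∉
              Q := by
  classical
  obtain ⟨C, _, _, _, _, jC, hjC, hdom, hreg, hftC, hfrC, hC⟩ := exists_chart (K := K) hj S hft
    hd hfr
  -- the coordinates of the factors
  let v : ∀ l : Fin n, Z l → S l.succ := fun l a => ⟨(a : F l.succ) / s l, (hg l).zS _ a.2⟩
  have hv1 : ∀ l, ∃ a, v l a = 1 := fun l =>
    ⟨⟨s l, (hg l).sZ⟩, Subtype.ext (div_self (hg l).s0)⟩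
  have hvad : ∀ l, Algebra.adjoin k (Set.range (v l)) = ⊤ := by
    intro l
    have h1 : (Algebra.adjoin k (Set.range (v l))).map (S l.succ).val = S l.succ := by
      rw [AlgHom.map_adjoin]
      have h2 : (S l.succ).val '' Set.range (v l) = (fun z => z / s l) '' Z l := by
        ext x
        constructor
        · rintro ⟨_, ⟨a, rfl⟩, rfl⟩
          exact ⟨a, a.2, rfl⟩
        · rintro ⟨a, ha, rfl⟩
          exact ⟨v l ⟨a, ha⟩, ⟨⟨a, ha⟩, rfl⟩, rfl⟩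
      rw [h2]
      exact (hg l).ad
    rw [eq_top_iff]
    rintro x -
    have h2 : (x : F l.succ) ∈ (Algebra.adjoin k (Set.range (v l))).map (S l.succ).val := by
      rw [h1]
      exact x.2
    obtain ⟨y, hy, hyx⟩ := h2
    have h3 : y = x := Subtype.ext hyx
    rw [← h3]
    exact hy
  have hzj : ∀ i, z i / z j0 =
      ∏ l : Fin n, algebraMap TT K (j l.succ (v l (E.symm i l) : F l.succ)) := by
    intro i
    rw [hz, hz, ← Finset.prod_div_distrib]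
    refine Finset.prod_congr rfl fun l _ => ?_
    rw [hj0]
    change ((algebraMap TT K).comp (j l.succ : F l.succ →+* TT)) _ /
      ((algebraMap TT K).comp (j l.succ : F l.succ →+* TT)) _ =
      ((algebraMap TT K).comp (j l.succ : F l.succ →+* TT)) ((E.symm i l : F l.succ) / s l)
    rw [map_div₀]
  have hadj := adj_chart hjC hC hS0 (fun l => ↥(Z l)) v hv1 hvad E z j0 hzj
  have hCK : Function.Injective (algebraMap C K) := IsFractionRing.injective C K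
  refine ⟨?_, ?_, ?_, ?_⟩
  · -- regularity
    let ev : C →+* Algebra.adjoin (S 0) (Set.range fun i => z i / z j0) :=
      (algebraMap C K).codRestrict _ fun b => (hadj _).2 ⟨b, rfl⟩
    have hev : Function.Bijective ev := by
      constructor
      · intro a b hab
        exact hCK (congrArg Subtype.val hab)
      · rintro ⟨y, hy⟩
        obtain ⟨b, rfl⟩ := (hadj y).1 hy
        exact ⟨b, rfl⟩
    exact IsRegularRing.of_ringEquiv (RingEquiv.ofBijective ev hev)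
  · intro l x
    exact (hadj _).2 ⟨jC l x, hC l x⟩
  · intro x
    obtain ⟨a, b, hb, rfl⟩ := IsFractionRing.div_surjective (A := C) x
    refine ⟨_, _, (hadj _).2 ⟨a, rfl⟩, (hadj _).2 ⟨b, rfl⟩, ?_, rfl⟩
    intro h
    exact nonZeroDivisors.ne_zero hb (hCK (by rw [h, map_zero]))
  · intro ρ' hρ'
    let θ : ∀ l, G →* (S l ≃ₐ[k] S l) := fun l => TS (ρ l) (S l) (hS l)
    have hT : Function.Injective (θ 0) := TS_inj hρ (hS 0) (hfr 0)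
    have hin' : ∀ 𝔓 : Ideal (S 0), 𝔓.IsMaximal → ¬ p ^ 2 ∣ Nat.card (inG (θ 0) 𝔓) := by
      intro 𝔓 h𝔓
      by_cases h0 : 𝔓 = ⊥
      · have h1 : inG (θ 0) 𝔓 = ⊥ := by
          rw [eq_bot_iff]
          intro g hg'
          rw [Subgroup.mem_bot]
          apply hT
          rw [map_one]
          refine AlgEquiv.ext fun x => ?_
          have h2 := hg' x
          rw [h0, Ideal.mem_bot, sub_eq_zero] at h2
          exact h2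
        rw [h1, Subgroup.card_bot, Nat.dvd_one]
        have hp : p.Prime := Fact.out
        exact fun h => hp.one_lt.ne' ((Nat.pow_eq_one.1 h).resolve_right (by norm_num))
      · exact hin 𝔓 h𝔓 h0
    have hDb : ∀ l g, θ l g ^ p = 1 → θ l g ≠ 1 →
        ∀ P ∈ Fx (Subgroup.zpowers (θ l g) : Set (S l ≃ₐ[k] S l)),
          br (Subgroup.zpowers (θ l g) : Set (S l ≃ₐ[k] S l)) P ∣ D := fun l g h1 h2 =>
      (hB l).ts (hS l) (hd l) (hft l) (hfr l) g h1 h2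
    have hB0 : ∀ o, algebraMap (S 0) K o = algebraMap C K (jC 0 o) := fun o => by
      rw [hC, hS0]
    have hσ : ∀ g l (x : S l), ρ' g (ff K jC l x) = ff K jC l (θ l g x) := by
      intro g l x
      change ρ' g (algebraMap C K (jC l x)) = algebraMap C K (jC l (θ l g x))
      rw [hC, hC, hρ', hρK]
      rfl
    have hAt : ∀ 𝔓 ∈ Wp θ, ∃ τ, At (θ := θ) p D 𝔓 τ := fun 𝔓 h𝔓 =>
      exists_At hT D h𝔓.1 (hin' 𝔓 h𝔓.1) h𝔓.2
    have hCy : ∀ 𝔓 ∈ Wp θ, Cy p {g | Wild (θ 0) g 𝔓} := by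
      intro 𝔓 h𝔓
      obtain ⟨τ, hτ⟩ := hAt 𝔓 h𝔓
      refine ⟨τ, hτ.pw, ?_⟩
      ext g
      exact hτ.wi g
    have hPP : ∀ 𝔓 (l : Fin n), PP θ D 𝔓 l.succ =
        Fil (Im (TS (ρ l.succ) (S l.succ) (hg l).st) {g | Wild (θ 0) g 𝔓}) D := fun 𝔓 l => rfl
    have hN : ∀ 𝔓 ∈ Wp θ, IsNoetherianRing (RC k K jC (PP θ D 𝔓)) := by
      intro 𝔓 h𝔓
      obtain ⟨τ, hτ⟩ := hAt 𝔓 h𝔓
      have h1 : Algebra.FiniteType k (RC k K jC (PP θ D 𝔓)) := RR_ft (ff K jC) 𝔓 (ee θ D 𝔓)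
        (At.e_pos hT hD hDb hτ).1 (PP θ D 𝔓) (PP_zero θ D 𝔓) D hD (At.flt hT hD hDb hτ)
      exact Algebra.FiniteType.isNoetherianRing k (RC k K jC (PP θ D 𝔓))
    have hk : ∀ c : k, ∃ c' : invS (θ 0), algebraMap (invS (θ 0)) K c' = algebraMap k K c := by
      intro c
      refine ⟨algebraMap k (invS (θ 0)) c, ?_⟩
      change algebraMap (S 0) K (algebraMap k (S 0) c) = algebraMap k K c
      rw [hB0, AlgHom.commutes, ← IsScalarTower.algebraMap_apply]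
    have hk' : ∀ c : invS (θ 0), ∃ o : S 0, ff K jC 0 o = algebraMap (invS (θ 0)) K c :=
      fun c => ⟨c, (hB0 c).symm⟩
    have hWR : ∀ 𝔓 ∈ Wp θ, WR (invS (θ 0)) 𝔓 (ee θ D 𝔓)
        (fun i => ∑ l, w l {g | Wild (θ 0) g 𝔓} (E.symm i l)) z j0 =
        RR (invS (θ 0)) (fun l => (ff K jC l : S l →+* K)) (PP θ D 𝔓) := by
      intro 𝔓 h𝔓
      obtain ⟨τ, hτ⟩ := hAt 𝔓 h𝔓
      refine WR_eq2 (ff K jC) hB0 hk hk' 𝔓 _ (At.e_pos hT hD hDb hτ).1 (PP θ D 𝔓)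
        (PP_zero θ D 𝔓) D hD (At.flt hT hD hDb hτ) (fun l => ↥(Z l)) v
        (fun l a => w l {g | Wild (θ 0) g 𝔓} a) hv1 hvad ?_ ?_ E z j0 ?_
      · intro l a
        exact (hg l).wm _ (hCy 𝔓 h𝔓) a a.2
      · intro l m hm
        rw [hPP]
        refine ((hg l).sp _ (hCy 𝔓 h𝔓) m hm).trans ?_
        congr 1
        ext x
        constructor
        · rintro ⟨y, hy, hxy, hmy⟩
          exact ⟨⟨y, hy⟩, Subtype.ext hxy, hmy⟩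
        · rintro ⟨y, rfl, hmy⟩
          exact ⟨y, y.2, rfl, hmy⟩
      · intro i
        rw [hzj]
        refine Finset.prod_congr rfl fun l _ => ?_
        exact (hC _ _).symm
    exact chart_wd hT hin' hD hDb hjC hB0 ρ' hσ hN _ hWR

end ch

end Pool.Agent.Zk15.PG
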