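import Pool.Agent.Zk10.W4
import Pool.Agent.Zk15.Pf1
import Pool.Agent.Zk15.PfPw
import Pool.Agent.Zk15.Aff0

/-!
The filtrations at the wild primes of the base curve.
-/

set_option autoImplicit false
set_option linter.unusedVariables false
set_option linter.unusedSectionVars false
set_option linter.overlappingInstances false

namespace Pool.Agent.Zk15.PG

open Pool.Agent.Zk10.PG

open Pool.Agent.Y223.G
open Pool.Agent.R383.TM (Wild wildSub zpowers_prime WR)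
open Pool.Agent.Zk15.F (inG invS TA wil_card)
open Pool.Agent.Y71.H (Wil mem_Wil)

section triv

variable {k B : Type} [Field k] [CommRing B] [Algebra k B] {H : Set (B ≃ₐ[k] B)} {D : ℕ}

lemma fil_triv (h : ∀ s ∈ H, s = 1) (m : ℕ) : Fil H D m = if m = 0 then ⊤ else ⊥ := by
  unfold Fil
  rw [if_pos h]

lemma triv_Flt (h : ∀ s ∈ H, s = 1) (hD : 0 < D) : Flt (Fil H D) D where
  zero := by rw [fil_triv h, if_pos rfl]
  anti := fun m n hmn => by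
    rw [fil_triv h, fil_triv h]
    by_cases h1 : n = 0
    · rw [if_pos (by omega : m = 0)]
      exact le_top
    · rw [if_neg h1]
      exact bot_le
  mul := fun m n => by
    rw [fil_triv h, fil_triv h, fil_triv h]
    by_cases h1 : m = 0
    · by_cases h2 : n = 0
      · rw [if_pos (by omega : m + n = 0)]
        exact le_top
      · rw [if_neg h2, Ideal.mul_bot]
        exact bot_le
    · rw [if_neg h1, Ideal.bot_mul]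
      exact bot_le
  per := fun m => by
    rw [fil_triv h, fil_triv h, fil_triv h, if_neg (by omega), if_neg (by omega), Ideal.bot_mul]

lemma triv_LocF (h : ∀ s ∈ H, s = 1) : LocF (Fil H D) := by
  intro P _ _
  left
  intro m hm
  rw [fil_triv h, if_neg (by omega)]

end triv

section data

variable {k : Type} [Field k] {p : ℕ} {G : Type} [Group G] {n : ℕ} {B : Fin (n + 1) → Type}
  [∀ l, CommRing (B l)] [∀ l, Algebra k (B l)] (θ : ∀ l, G →* (B l ≃ₐ[k] B l))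

/-- The image of the wild inertia group of `𝔓`. -/
def Hs (𝔓 : Ideal (B 0)) (l : Fin (n + 1)) : Set (B l ≃ₐ[k] B l) :=
  {s | ∃ g, Wild (θ 0) g 𝔓 ∧ s = θ l g}

/-- The weight of `𝔓`. -/
noncomputable def ee (D : ℕ) (𝔓 : Ideal (B 0)) : ℕ := max 1 (D / br (Hs θ 𝔓 0) 𝔓)

/-- The filtrations. -/
noncomputable def PP (D : ℕ) (𝔓 : Ideal (B 0)) : ∀ l, ℕ → Ideal (B l) :=
  Fin.cases (motive := fun l => ℕ → Ideal (B l)) (PF 𝔓 (ee θ D 𝔓))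
    (fun l => Fil (Hs θ 𝔓 l.succ) D)

lemma PP_zero (D : ℕ) (𝔓 : Ideal (B 0)) : PP θ D 𝔓 0 = PF 𝔓 (ee θ D 𝔓) := rfl

lemma PP_succ (D : ℕ) (𝔓 : Ideal (B 0)) (l : Fin n) :
    PP θ D 𝔓 l.succ = Fil (Hs θ 𝔓 l.succ) D := rfl

/-- The wild primes. -/
def Wp : Set (Ideal (B 0)) := {𝔓 | 𝔓.IsMaximal ∧ ∃ g, g ≠ 1 ∧ Wild (θ 0) g 𝔓}

variable {θ}

/-- The data at a wild prime. -/
structure At (p D : ℕ) (𝔓 : Ideal (B 0)) (τ : G) : Prop where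
  mx : 𝔓.IsMaximal
  ne : τ ≠ 1
  pw : τ ^ p = 1
  wi : ∀ g, Wild (θ 0) g 𝔓 ↔ g ∈ Subgroup.zpowers τ

lemma At.Hs {D : ℕ} {𝔓 : Ideal (B 0)} {τ : G} (h : At (θ := θ) p D 𝔓 τ) (l : Fin (n + 1)) :
    Hs θ 𝔓 l = (Subgroup.zpowers (θ l τ) : Set (B l ≃ₐ[k] B l)) := by
  ext s
  constructor
  · rintro ⟨g, hg, rfl⟩
    rw [h.wi] at hg
    obtain ⟨i, rfl⟩ := hg
    exact ⟨i, (map_zpow (θ l) τ i).symm⟩
  · rintro ⟨i, rfl⟩
    exact ⟨τ ^ i, (h.wi _).2 ⟨i, rfl⟩, (map_zpow (θ l) τ i).symm⟩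

lemma At.pow {D : ℕ} {𝔓 : Ideal (B 0)} {τ : G} (h : At (θ := θ) p D 𝔓 τ) (l : Fin (n + 1)) :
    θ l τ ^ p = 1 := by
  rw [← map_pow, h.pw, map_one]

lemma At.mem {D : ℕ} {𝔓 : Ideal (B 0)} {τ g : G} (h : At (θ := θ) p D 𝔓 τ)
    (hg : Wild (θ 0) g 𝔓) (l : Fin (n + 1)) : θ l g ∈ Subgroup.zpowers (θ l τ) := by
  rw [h.wi] at hg
  obtain ⟨i, rfl⟩ := hg
  exact ⟨i, (map_zpow (θ l) τ i).symm⟩

lemma At.nt [hp : Fact p.Prime] {D : ℕ} {𝔓 : Ideal (B 0)} {τ g : G}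
    (h : At (θ := θ) p D 𝔓 τ) (hg : Wild (θ 0) g 𝔓) (hg1 : g ≠ 1) (l : Fin (n + 1))
    (hl : θ l τ ≠ 1) : θ l g ≠ 1 := by
  intro h1
  apply hl
  obtain ⟨i, hi⟩ := zpowers_prime hp.out h.pw ((h.wi g).1 hg) hg1
  have hi' : g ^ i = τ := hi
  rw [← hi', map_zpow, h1, one_zpow]

lemma At.fx {D : ℕ} {𝔓 : Ideal (B 0)} {τ : G} (h : At (θ := θ) p D 𝔓 τ) :
    𝔓 ∈ Fx (Subgroup.zpowers (θ 0 τ) : Set (B 0 ≃ₐ[k] B 0)) := by
  refine ⟨h.mx, ?_⟩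
  rintro _ ⟨i, rfl⟩ x
  change ((θ 0 τ) ^ i) x - x ∈ 𝔓
  rw [← map_zpow]
  exact ((h.wi (τ ^ i)).2 ⟨i, rfl⟩).1 x

end data

section at_

variable {k : Type} [Field k] [PerfectField k] {p : ℕ} [Fact p.Prime] [CharP k p] {G : Type}
  [Group G] {n : ℕ} {B : Fin (n + 1) → Type} [∀ l, CommRing (B l)] [∀ l, IsDomain (B l)]
  [∀ l, IsDedekindDomain (B l)] [∀ l, Algebra k (B l)] [∀ l, Algebra.FiniteType k (B l)]
  {θ : ∀ l, G →* (B l ≃ₐ[k] B l)} (hT : Function.Injective (θ 0)) {D : ℕ} (hD : 0 < D)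
  (hDb : ∀ l g, θ l g ^ p = 1 → θ l g ≠ 1 →
    ∀ P ∈ Fx (Subgroup.zpowers (θ l g) : Set (B l ≃ₐ[k] B l)),
      br (Subgroup.zpowers (θ l g) : Set (B l ≃ₐ[k] B l)) P ∣ D)
  {𝔓 : Ideal (B 0)} {τ : G} (h : At (θ := θ) p D 𝔓 τ)

include hT h

lemma At.ne0 : θ 0 τ ≠ 1 := fun h1 => h.ne (hT (by rw [h1, map_one]))

lemma At.bot : 𝔓 ≠ ⊥ := by
  intro h1
  apply At.ne0 hT h
  ext x
  have h2 := (((h.wi τ).2 (Subgroup.mem_zpowers τ)).1 x)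
  rw [h1, Ideal.mem_bot, sub_eq_zero] at h2
  exact h2

lemma At.b_pos : 0 < br (Subgroup.zpowers (θ 0 τ) : Set (B 0 ≃ₐ[k] B 0)) 𝔓 :=
  br_pos p (θ 0 τ) (h.pow 0) (At.ne0 hT h) h.fx

include hD hDb

lemma At.e_pos : 0 < ee θ D 𝔓 ∧
    ee θ D 𝔓 * br (Subgroup.zpowers (θ 0 τ) : Set (B 0 ≃ₐ[k] B 0)) 𝔓 = D := by
  have h1 := hDb 0 τ (h.pow 0) (At.ne0 hT h) 𝔓 h.fx
  have h2 := At.b_pos hT h
  have h3 : 0 < D / br (Subgroup.zpowers (θ 0 τ) : Set (B 0 ≃ₐ[k] B 0)) 𝔓 :=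
    Nat.div_pos (Nat.le_of_dvd hD h1) h2
  have h4 : ee θ D 𝔓 = D / br (Subgroup.zpowers (θ 0 τ) : Set (B 0 ≃ₐ[k] B 0)) 𝔓 := by
    unfold ee
    rw [h.Hs 0]
    omega
  rw [h4]
  exact ⟨h3, Nat.div_mul_cancel h1⟩

theorem At.flt (l : Fin (n + 1)) : Flt (PP θ D 𝔓 l) D := by
  refine Fin.cases ?_ (fun l => ?_) l
  · obtain ⟨h1, h2⟩ := At.e_pos hT hD hDb h
    have h3 := pow_Flt 𝔓 (ee θ D 𝔓) (br (Subgroup.zpowers (θ 0 τ) : Set (B 0 ≃ₐ[k] B 0)) 𝔓) h1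
    rw [h2] at h3
    exact h3
  · rw [PP_succ, h.Hs]
    by_cases h1 : θ l.succ τ = 1
    · refine triv_Flt ?_ hD
      intro s hs
      rw [h1, Subgroup.zpowers_one_eq_bot] at hs
      exact Subgroup.mem_bot.1 hs
    · exact fil_Flt p (θ l.succ τ) (h.pow _) hD (hDb _ _ (h.pow _) h1)

theorem At.locF (l : Fin (n + 1)) : LocF (PP θ D 𝔓 l) := by
  refine Fin.cases ?_ (fun l => ?_) l
  · obtain ⟨h1, h2⟩ := At.e_pos hT hD hDb h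
    exact pow_LocF 𝔓 h.mx (At.bot hT h) _ h1
  · rw [PP_succ, h.Hs]
    by_cases h1 : θ l.succ τ = 1
    · refine triv_LocF ?_
      intro s hs
      rw [h1, Subgroup.zpowers_one_eq_bot] at hs
      exact Subgroup.mem_bot.1 hs
    · exact fil_LocF p (θ l.succ τ) (h.pow _) hD (hDb _ _ (h.pow _) h1)

theorem At.delta {g : G} (hg : Wild (θ 0) g 𝔓) (l : Fin (n + 1)) (m : ℕ) (x : B l)
    (hx : x ∈ PP θ D 𝔓 l m) : θ l g x - x ∈ PP θ D 𝔓 l (m + D) := by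
  revert x
  refine Fin.cases (motive := fun l => ∀ x : B l, x ∈ PP θ D 𝔓 l m →
    θ l g x - x ∈ PP θ D 𝔓 l (m + D)) ?_ (fun l => ?_) l
  · intro x hx
    obtain ⟨h1, h2⟩ := At.e_pos hT hD hDb h
    rw [PP_zero] at hx ⊢
    unfold PF at hx ⊢
    have h3 := br_pow p (θ 0 τ) (h.pow 0) (At.ne0 hT h) h.fx _ x hx (θ 0 g) (h.mem hg 0)
    have e1 : (m + D + (ee θ D 𝔓 - 1)) / ee θ D 𝔓 = (m + (ee θ D 𝔓 - 1)) / ee θ D 𝔓 +
        br (Subgroup.zpowers (θ 0 τ) : Set (B 0 ≃ₐ[k] B 0)) 𝔓 := by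
      have e2 : m + D + (ee θ D 𝔓 - 1) = (m + (ee θ D 𝔓 - 1)) + ee θ D 𝔓 *
          br (Subgroup.zpowers (θ 0 τ) : Set (B 0 ≃ₐ[k] B 0)) 𝔓 := by
        rw [h2]
        omega
      rw [e2, Nat.add_mul_div_left _ _ h1]
    rw [e1]
    exact h3
  · intro x hx
    rw [PP_succ, h.Hs] at hx ⊢
    by_cases h1 : θ l.succ τ = 1
    · have h2 := h.mem hg l.succ
      rw [h1, Subgroup.zpowers_one_eq_bot, Subgroup.mem_bot] at h2
      rw [h2, AlgEquiv.one_apply, sub_self]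
      exact Ideal.zero_mem _
    · exact fil_delta p (θ l.succ τ) (h.pow _) hD (hDb _ _ (h.pow _) h1) (θ l.succ g)
        (h.mem hg _) m x hx

theorem At.stab {g : G} (hg : Wild (θ 0) g 𝔓) (l : Fin (n + 1)) (m : ℕ) (x : B l)
    (hx : x ∈ PP θ D 𝔓 l m) : θ l g x ∈ PP θ D 𝔓 l m := by
  have h1 := At.delta hT hD hDb h hg l m x hx
  have h2 := (At.flt hT hD hDb h l).anti m (m + D) (by omega) h1
  have h3 := Ideal.add_mem _ h2 hx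
  rwa [sub_add_cancel] at h3

end at_

end Pool.Agent.Zk15.PG
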