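import Pool.Agent.Zk15.PfW5
import Pool.Agent.Zk15.PfRegA

/-!
The weighted blowups at the wild primes of the base curve.
-/

set_option autoImplicit false
set_option linter.unusedVariables false
set_option linter.unusedSectionVars false
set_option linter.overlappingInstances false

namespace Pool.Agent.Zk15.PG

open Pool.Agent.Zk10.PG

open Pool.Agent.Y223.G
open Pool.Agent.R383.TM (Wild wildSub zpowers_prime WR)
open Pool.Agent.Zk15 (WD0)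
open Pool.Agent.Zk15.F (inG invS TA wil_card)
open Pool.Agent.Y71.H (Wil mem_Wil)
open Pool.Agent.Y86.G5 (im mem_im im_sub im_mul im_prime im_one im_pow)

section ex

variable {k : Type} [Field k] {p : ℕ} {G : Type} [Group G] {n : ℕ} {B : Fin (n + 1) → Type}
  [∀ l, CommRing (B l)] [∀ l, Algebra k (B l)] {θ : ∀ l, G →* (B l ≃ₐ[k] B l)}

theorem exists_At [Fact p.Prime] [CharP k p] [Finite G] [IsDomain (B 0)]
    [IsDedekindDomain (B 0)] (hT : Function.Injective (θ 0)) (D : ℕ) {𝔓 : Ideal (B 0)}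
    (hmax : 𝔓.IsMaximal) (hin : ¬ p ^ 2 ∣ Nat.card (inG (θ 0) 𝔓))
    (hw : ∃ g, g ≠ 1 ∧ Wild (θ 0) g 𝔓) : ∃ τ, At (θ := θ) p D 𝔓 τ := by
  have hp : p.Prime := Fact.out
  obtain ⟨g, hg1, hg⟩ := hw
  have hgW : g ∈ Wil (θ 0) 𝔓 := hg
  rcases wil_card hT hp (CharP.cast_eq_zero k p) hmax hin with h1 | h1
  · have h2 : Wil (θ 0) 𝔓 = ⊥ := Subgroup.card_eq_one.1 h1
    rw [h2, Subgroup.mem_bot] at hgW
    exact (hg1 hgW).elim
  · have hpw : (⟨g, hgW⟩ : Wil (θ 0) 𝔓) ^ Nat.card (Wil (θ 0) 𝔓) = 1 := pow_card_eq_one'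
    rw [h1] at hpw
    have hne : (⟨g, hgW⟩ : Wil (θ 0) 𝔓) ≠ 1 := fun h => hg1 (congrArg Subtype.val h)
    have h2 : Nat.card (Subgroup.zpowers (⟨g, hgW⟩ : Wil (θ 0) 𝔓)) = Nat.card (Wil (θ 0) 𝔓) := by
      rcases (Nat.dvd_prime hp).1 (h1 ▸ Subgroup.card_subgroup_dvd_card
        (Subgroup.zpowers (⟨g, hgW⟩ : Wil (θ 0) 𝔓))) with h2 | h2
      · exfalso
        apply hne
        exact Subgroup.zpowers_eq_bot.1 (Subgroup.card_eq_one.1 h2)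
      · rw [h2, h1]
    have h3 : Subgroup.zpowers (⟨g, hgW⟩ : Wil (θ 0) 𝔓) = ⊤ := Subgroup.eq_top_of_card_eq _ h2
    refine ⟨g, hmax, hg1, congrArg Subtype.val hpw, fun h => ⟨fun hh => ?_, ?_⟩⟩
    · have h4 : (⟨h, hh⟩ : Wil (θ 0) 𝔓) ∈ Subgroup.zpowers (⟨g, hgW⟩ : Wil (θ 0) 𝔓) := by
        rw [h3]
        trivial
      obtain ⟨i, hi⟩ := h4
      exact ⟨i, congrArg Subtype.val hi⟩
    · rintro ⟨i, rfl⟩
      exact (Wil (θ 0) 𝔓).zpow_mem hgW i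

lemma map_pow_mem {O : Type} [CommRing O] (φ : O →+* O) {𝔓 𝔓' : Ideal O}
    (h : ∀ o ∈ 𝔓, φ o ∈ 𝔓') (m : ℕ) : ∀ o ∈ 𝔓 ^ m, φ o ∈ 𝔓' ^ m := by
  intro o ho
  have h1 : 𝔓.map φ ≤ 𝔓' := Ideal.map_le_iff_le_comap.2 h
  have h2 : (𝔓 ^ m).map φ ≤ 𝔓' ^ m := by
    rw [Ideal.map_pow]
    exact Ideal.pow_right_mono h1 m
  exact h2 (Ideal.mem_map_of_mem φ ho)

lemma wild_conj1 {g h : G} {𝔓 𝔓' : Ideal (B 0)} (hP : ∀ o, o ∈ 𝔓 ↔ θ 0 g o ∈ 𝔓')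
    (hh : Wild (θ 0) h 𝔓) : Wild (θ 0) (g * h * g⁻¹) 𝔓' := by
  have h1 : ∀ x, θ 0 (g * h * g⁻¹) x - x = θ 0 g (θ 0 h (θ 0 g⁻¹ x) - θ 0 g⁻¹ x) := by
    intro x
    have h2 : θ 0 g (θ 0 g⁻¹ x) = x := by
      rw [← AlgEquiv.mul_apply, ← map_mul, mul_inv_cancel, map_one, AlgEquiv.one_apply]
    rw [map_sub, h2, map_mul, map_mul, AlgEquiv.mul_apply, AlgEquiv.mul_apply]
  refine ⟨fun x => ?_, fun x hx => ?_⟩
  · rw [h1]
    exact (hP _).1 (hh.1 _)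
  · rw [h1]
    refine map_pow_mem (θ 0 g : B 0 →+* B 0) (fun o ho => (hP o).1 ho) 2 _ (hh.2 _ ?_)
    rw [hP]
    have h2 : θ 0 g (θ 0 g⁻¹ x) = x := by
      rw [← AlgEquiv.mul_apply, ← map_mul, mul_inv_cancel, map_one, AlgEquiv.one_apply]
    rw [h2]
    exact hx

lemma conj_symm {g : G} {𝔓 𝔓' : Ideal (B 0)} (hP : ∀ o, o ∈ 𝔓 ↔ θ 0 g o ∈ 𝔓') (o : B 0) :
    o ∈ 𝔓' ↔ θ 0 g⁻¹ o ∈ 𝔓 := by
  have h2 : θ 0 g (θ 0 g⁻¹ o) = o := by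
    rw [← AlgEquiv.mul_apply, ← map_mul, mul_inv_cancel, map_one, AlgEquiv.one_apply]
  rw [hP, h2]

lemma wild_conj {g h : G} {𝔓 𝔓' : Ideal (B 0)} (hP : ∀ o, o ∈ 𝔓 ↔ θ 0 g o ∈ 𝔓') :
    Wild (θ 0) h 𝔓 ↔ Wild (θ 0) (g * h * g⁻¹) 𝔓' := by
  refine ⟨wild_conj1 hP, fun h1 => ?_⟩
  have h2 := wild_conj1 (conj_symm hP) h1
  have e1 : g⁻¹ * (g * h * g⁻¹) * g⁻¹⁻¹ = h := by group
  rwa [e1] at h2

lemma Hs_conj {g : G} {𝔓 𝔓' : Ideal (B 0)} (hP : ∀ o, o ∈ 𝔓 ↔ θ 0 g o ∈ 𝔓')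
    (l : Fin (n + 1)) (s : B l ≃ₐ[k] B l) :
    s ∈ Hs θ 𝔓 l ↔ θ l g * s * (θ l g)⁻¹ ∈ Hs θ 𝔓' l := by
  constructor
  · rintro ⟨h, hh, rfl⟩
    exact ⟨g * h * g⁻¹, (wild_conj hP).1 hh, by rw [map_mul, map_mul, map_inv]⟩
  · rintro ⟨h, hh, hs⟩
    refine ⟨g⁻¹ * h * g, ?_, ?_⟩
    · rw [wild_conj hP]
      have e1 : g * (g⁻¹ * h * g) * g⁻¹ = h := by group
      rwa [e1]
    · have e1 : s = (θ l g)⁻¹ * (θ l g * s * (θ l g)⁻¹) * θ l g := by group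
      rw [e1, hs, map_mul, map_mul, map_inv]

lemma ee_conj {g : G} {𝔓 𝔓' : Ideal (B 0)} (hP : ∀ o, o ∈ 𝔓 ↔ θ 0 g o ∈ 𝔓') (D : ℕ) :
    ee θ D 𝔓' = ee θ D 𝔓 := by
  unfold ee
  rw [br_conj (Hs θ 𝔓 0) (Hs θ 𝔓' 0) (θ 0 g) (Hs_conj hP 0) 𝔓 𝔓' hP]

lemma PP_conj {g : G} {𝔓 𝔓' : Ideal (B 0)} (hP : ∀ o, o ∈ 𝔓 ↔ θ 0 g o ∈ 𝔓') (D : ℕ)
    (l : Fin (n + 1)) (m : ℕ) (x : B l) :
    x ∈ PP θ D 𝔓 l m ↔ θ l g x ∈ PP θ D 𝔓' l m := by
  revert x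
  refine Fin.cases (motive := fun l => ∀ x : B l, x ∈ PP θ D 𝔓 l m ↔
    θ l g x ∈ PP θ D 𝔓' l m) ?_ (fun l => ?_) l
  · intro x
    rw [PP_zero, PP_zero, ee_conj hP]
    exact PF_conj (θ 0 g) 𝔓 𝔓' hP _ m x
  · intro x
    rw [PP_succ, PP_succ]
    exact fil_conj _ _ (θ l.succ g) (Hs_conj hP _) D m x

lemma max_conj {g : G} {𝔓 𝔓' : Ideal (B 0)} (hP : ∀ o, o ∈ 𝔓 ↔ θ 0 g o ∈ 𝔓')
    (hm : 𝔓.IsMaximal) : 𝔓'.IsMaximal := by
  have h1 : 𝔓' = 𝔓.comap ((θ 0 g⁻¹ : B 0 ≃ₐ[k] B 0) : B 0 →+* B 0) := by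
    ext o
    rw [Ideal.mem_comap]
    exact conj_symm hP o
  rw [h1]
  exact Ideal.comap_isMaximal_of_surjective _ (θ 0 g⁻¹).surjective

end ex

section main

variable {k : Type} [Field k] [PerfectField k] {p : ℕ} [Fact p.Prime] [CharP k p] {G : Type}
  [Group G] [Finite G] {n : ℕ} {B : Fin (n + 1) → Type} [∀ l, CommRing (B l)]
  [∀ l, IsDomain (B l)] [∀ l, IsDedekindDomain (B l)] [∀ l, Algebra k (B l)]
  [∀ l, Algebra.FiniteType k (B l)] {θ : ∀ l, G →* (B l ≃ₐ[k] B l)}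
  (hT : Function.Injective (θ 0))
  (hin : ∀ 𝔓 : Ideal (B 0), 𝔓.IsMaximal → ¬ p ^ 2 ∣ Nat.card (inG (θ 0) 𝔓))
  {D : ℕ} (hD : 0 < D)
  (hDb : ∀ l g, θ l g ^ p = 1 → θ l g ≠ 1 →
    ∀ P ∈ Fx (Subgroup.zpowers (θ l g) : Set (B l ≃ₐ[k] B l)),
      br (Subgroup.zpowers (θ l g) : Set (B l ≃ₐ[k] B l)) P ∣ D)
  {C : Type} [CommRing C] [IsDomain C] [IsRegularRing C] [Algebra k C] {j : ∀ l, B l →ₐ[k] C}
  (hj : IsTens j) {Θ : G →* (C ≃ₐ[k] C)} (hΘ : ∀ g l b, Θ g (j l b) = j l (θ l g b))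
  {K : Type} [Field K] [Algebra C K] [IsFractionRing C K] [Algebra k K] [IsScalarTower k C K]
  [Algebra (B 0) K] (hB0 : ∀ o, algebraMap (B 0) K o = algebraMap C K (j 0 o))
  (Z : ∀ l, Set (B l)) (hZf : ∀ l, (Z l).Finite) (h1 : ∀ l, (1 : B l) ∈ Z l)
  (hZ : ∀ l, Algebra.adjoin k (Z l) = ⊤)
  (hZ2 : ∀ 𝔓 ∈ Wp θ, ∀ l, ∀ m, m ≤ D →
    PP θ D 𝔓 l m = Ideal.span (Z l ∩ (PP θ D 𝔓 l m : Set (B l))))
  {m : ℕ} (E : (∀ l, Z l) ≃ Fin (m + 1)) (hE : E (fun l => ⟨1, h1 l⟩) = 0)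

/-- The maps to the function field. -/
noncomputable abbrev ff (K : Type) {k C : Type} [Field k] [CommRing C] [Algebra k C] [Field K]
    [Algebra C K] [Algebra k K] [IsScalarTower k C K] {n : ℕ} {B : Fin (n + 1) → Type}
    [∀ l, CommRing (B l)] [∀ l, Algebra k (B l)] (j : ∀ l, B l →ₐ[k] C) (l : Fin (n + 1)) :
    B l →ₐ[k] K := (IsScalarTower.toAlgHom k C K).comp (j l)

include hT hin hD hDb hj hB0 hZf hZ hZ2 hE hΘ in
theorem wd0 (ρ : G →* (K ≃ₐ[invS (θ 0)] K))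
    (hρ : ∀ g b, ρ g (algebraMap C K b) = algebraMap C K (Θ g b)) :
    WD0 (invS (θ 0)) (B 0) K G ρ (TA (θ 0)) (fun i => ∏ l, ff K j l (E.symm i l : B l))
      (ee θ D) (fun 𝔓 i => ∑ l, wgt (PP θ D 𝔓 l) D (E.symm i l : B l)) := by
  have hCK : Function.Injective (algebraMap C K) := IsFractionRing.injective C K
  -- the data at a wild prime
  have hAt : ∀ 𝔓 ∈ Wp θ, ∃ τ, At (θ := θ) p D 𝔓 τ := fun 𝔓 h𝔓 =>
    exists_At hT D h𝔓.1 (hin 𝔓 h𝔓.1) h𝔓.2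
  have hk : ∀ c : k, ∃ c' : invS (θ 0), algebraMap (invS (θ 0)) K c' = algebraMap k K c := by
    intro c
    refine ⟨algebraMap k (invS (θ 0)) c, ?_⟩
    change algebraMap (B 0) K (algebraMap k (B 0) c) = algebraMap k K c
    rw [hB0, AlgHom.commutes, ← IsScalarTower.algebraMap_apply]
  have hk' : ∀ c : invS (θ 0), ∃ o : B 0, ff K j 0 o = algebraMap (invS (θ 0)) K c :=
    fun c => ⟨c, (hB0 c).symm⟩
  have hWR : ∀ 𝔓 ∈ Wp θ, WR (invS (θ 0)) 𝔓 (ee θ D 𝔓)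
      (fun i => ∑ l, wgt (PP θ D 𝔓 l) D (E.symm i l : B l))
      (fun i => ∏ l, ff K j l (E.symm i l : B l)) 0 =
      RR (invS (θ 0)) (fun l => (ff K j l : B l →+* K)) (PP θ D 𝔓) := by
    intro 𝔓 h𝔓
    obtain ⟨τ, hτ⟩ := hAt 𝔓 h𝔓
    exact WR_eq (ff K j) hB0 hk hk' 𝔓 _ (At.e_pos hT hD hDb hτ).1 (PP θ D 𝔓) (PP_zero θ D 𝔓) D hD
      (At.flt hT hD hDb hτ) Z h1 hZ (hZ2 𝔓 h𝔓) m E hE
  have hσ : ∀ g l x, ρ g (ff K j l x) = ff K j l (θ l g x) := by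
    intro g l x
    change ρ g (algebraMap C K (j l x)) = algebraMap C K (j l (θ l g x))
    rw [hρ, hΘ]
  refine ⟨fun 𝔓 => lt_of_lt_of_le zero_lt_one (le_max_left _ _), ?_, ?_, ?_⟩
  · -- regularity
    intro 𝔓 hmax hw
    have h𝔓 : 𝔓 ∈ Wp θ := ⟨hmax, hw⟩
    obtain ⟨τ, hτ⟩ := hAt 𝔓 h𝔓
    have hflt := At.flt hT hD hDb hτ
    rw [hWR 𝔓 h𝔓]
    have hN : IsNoetherianRing (RC k K j (PP θ D 𝔓)) := by
      have h2 := RZ_eq (ff K j) (PP θ D 𝔓) D hD hflt Z h1 hZ (hZ2 𝔓 h𝔓)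
      have h3 : RC k K j (PP θ D 𝔓) = RR k (fun l => (ff K j l : B l →+* K)) (PP θ D 𝔓) := rfl
      rw [h3, ← h2]
      have hfin : ∀ l, Finite (Z l) := fun l => hZf l
      have h4 : Algebra.FiniteType k (Algebra.adjoin k ({hm (-1) 1} ∪
          Set.range fun a : (∀ l, Z l) => hm ((∑ l, wgt (PP θ D 𝔓 l) D (a l : B l) : ℕ) : ℤ)
            (∏ l, ff K j l (a l : B l)))) := by
        rw [← Subalgebra.fg_iff_finiteType]
        exact Subalgebra.fg_def.2 ⟨_, (Set.finite_singleton _).union (Set.finite_range _), rfl⟩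
      exact Algebra.FiniteType.isNoetherianRing k _
    have hreg := RC_reg hCK j hj (PP θ D 𝔓) (fun l => (hflt l).zero)
      Pool.Agent.Y901.G.t_WREG (At.locF hT hD hDb hτ) hN
    have h3 : (RR (invS (θ 0)) (fun l => (ff K j l : B l →+* K)) (PP θ D 𝔓)).toSubring =
        (RC k K j (PP θ D 𝔓)).toSubring := by
      ext g
      exact RR_base (ff K j) hk hk' (PP θ D 𝔓) (hflt 0).zero g
    have h4 : IsRegularRing (RC k K j (PP θ D 𝔓)).toSubring := hreg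
    rw [← h3] at h4
    exact h4
  · -- the group
    intro 𝔓 hmax hw g 𝔓' hP f hf
    have h𝔓 : 𝔓 ∈ Wp θ := ⟨hmax, hw⟩
    have hP' : ∀ o, o ∈ 𝔓 ↔ θ 0 g o ∈ 𝔓' := hP
    have h𝔓' : 𝔓' ∈ Wp θ := by
      obtain ⟨g', hg1, hg'⟩ := hw
      refine ⟨max_conj hP' hmax, g * g' * g⁻¹, ?_, (wild_conj hP').1 hg'⟩
      intro h
      apply hg1
      have h2 : g' = g⁻¹ * (g * g' * g⁻¹) * g := by group
      rw [h2, h]
      group
    rw [hWR 𝔓 h𝔓] at hf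
    rw [hWR 𝔓' h𝔓']
    exact RR_tl (ρ g) (fun l => θ l g) (hσ g) (fun l m x hx => (PP_conj hP' D l m x).1 hx) f hf
  · -- the wild inertia group
    intro 𝔓 hmax g hg1 hg
    have hg' : Wild (θ 0) g 𝔓 := hg
    have h𝔓 : 𝔓 ∈ Wp θ := ⟨hmax, g, hg1, hg'⟩
    obtain ⟨τ, hτ⟩ := hAt 𝔓 h𝔓
    have hflt := At.flt hT hD hDb hτ
    have he := At.e_pos hT hD hDb hτ
    have hb := At.b_pos hT hτ
    have h𝔓0 := At.bot hT hτ
    have hstab := At.stab hT hD hDb hτ hg'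
    have hdel := At.delta hT hD hDb hτ hg'
    rw [hWR 𝔓 h𝔓]
    refine ⟨br (Subgroup.zpowers (θ 0 τ) : Set (B 0 ≃ₐ[k] B 0)) 𝔓, D, hD, le_of_eq he.2.symm, ?_,
      RR_delta (ρ g) (fun l => θ l g) (hσ g) hstab D hdel, ?_⟩
    · intro o
      have h2 := cf_mem (θ 0 τ) (At.ne0 hT hτ) hτ.fx (θ 0 g) (hτ.mem hg' 0) o
      exact h2
    · intro Q hQ h𝔓Q hpos
      by_contra hcon
      obtain ⟨n', η, hη, hn', hηQ⟩ := hpos
      have hδQ : ∀ b ∈ RR (invS (θ 0)) (fun l => (ff K j l : B l →+* K)) (PP θ D 𝔓),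
          hm D 1 * (tl (ρ g) b - b) ∈
            im (RR (invS (θ 0)) (fun l => (ff K j l : B l →+* K)) (PP θ D 𝔓)) Q := by
        intro b hb
        by_contra h2
        apply hcon
        refine ⟨b, hb, RR_delta (ρ g) (fun l => θ l g) (hσ g) hstab D hdel b hb, fun h3 => h2 ?_⟩
        exact ⟨_, h3⟩
      -- the generators
      have hδg : ∀ l m, ∀ x ∈ PP θ D 𝔓 l m, hm ((m + D : ℕ) : ℤ) (ff K j l (θ l g x - x)) ∈
          im (RR (invS (θ 0)) (fun l => (ff K j l : B l →+* K)) (PP θ D 𝔓)) Q := by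
        intro l m x hx
        have h2 := hδQ _ (RR_g (k := invS (θ 0)) (f := fun l => (ff K j l : B l →+* K)) hx)
        have e1 : (hm D 1 * (tl (ρ g) (hm (m : ℤ) ((ff K j l : B l →+* K) x)) -
            hm (m : ℤ) ((ff K j l : B l →+* K) x)) : LP K) =
            hm ((m + D : ℕ) : ℤ) (ff K j l (θ l g x - x)) := by
          rw [tl_hm]
          change hm D 1 * (hm (m : ℤ) (ρ g (ff K j l x)) - hm (m : ℤ) (ff K j l x)) = _
          rw [hσ, ← hm_sub, ← map_sub, hm_mul, one_mul]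
          congr 1
          push_cast
          ring
        rwa [e1] at h2
      have hR : ∀ l m, ∀ x ∈ PP θ D 𝔓 l m, hm (m : ℤ) (ff K j l x) ∈
          RR (invS (θ 0)) (fun l => (ff K j l : B l →+* K)) (PP θ D 𝔓) := fun l m x hx =>
        RR_g (k := invS (θ 0)) (f := fun l => (ff K j l : B l →+* K)) hx
      have hgen : ∀ l m, 0 < m → ∀ x ∈ PP θ D 𝔓 l m, hm (m : ℤ) (ff K j l x) ∈
          im (RR (invS (θ 0)) (fun l => (ff K j l : B l →+* K)) (PP θ D 𝔓)) Q := by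
        intro l
        refine Fin.cases ?_ (fun l => ?_) l
        · obtain ⟨π, hπ, hπ2⟩ := cf_unif hmax h𝔓0
          refine nd_pow (R := RR (invS (θ 0)) (fun l => (ff K j l : B l →+* K)) (PP θ D 𝔓))
            (ff K j 0 : B 0 →+* K) 𝔓 h𝔓0 (ee θ D 𝔓)
            (br (Subgroup.zpowers (θ 0 τ) : Set (B 0 ≃ₐ[k] B 0)) 𝔓) he.1 RR_T (hR 0) ?_ π
            (θ 0 g π - π) ?_ ?_ ?_
          · intro x hx
            obtain ⟨h2, h3⟩ := h𝔓Q x hx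
            have h4 : hm 0 (algebraMap (B 0) K x) ∈ im (RR (invS (θ 0))
              (fun l => (ff K j l : B l →+* K)) (PP θ D 𝔓)) Q := ⟨h2, h3⟩
            rw [hB0] at h4
            exact h4
          · exact cf_mem (θ 0 τ) (At.ne0 hT hτ) hτ.fx (θ 0 g) (hτ.mem hg' 0) π
          · exact br_unif p (θ 0 τ) (hτ.pow 0) (At.ne0 hT hτ) hτ.fx π hπ hπ2 (θ 0 g)
              (hτ.mem hg' 0) (hτ.nt hg' hg1 0 (At.ne0 hT hτ))
          · have h2 := hδg 0 (ee θ D 𝔓) π (by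
              rw [PP_zero, PF_self 𝔓 he.1]
              exact hπ)
            have e1 : (ee θ D 𝔓 + D : ℕ) = ee θ D 𝔓 *
                (br (Subgroup.zpowers (θ 0 τ) : Set (B 0 ≃ₐ[k] B 0)) 𝔓 + 1) := by
              rw [mul_add, mul_one, he.2]
              ring
            rw [e1] at h2
            exact h2
        · by_cases h2 : θ l.succ τ = 1
          · intro m hm0 x hx
            rw [PP_succ, hτ.Hs, h2, fil_triv (by
              intro s hs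
              rw [Subgroup.zpowers_one_eq_bot] at hs
              exact Subgroup.mem_bot.1 hs), if_neg (by omega), Ideal.mem_bot] at hx
            rw [hx, map_zero, hm_zero]
            exact (im _ Q).zero_mem
          · refine nd_fil (ff K j l.succ : B l.succ →+* K) (hflt l.succ) hD (hR l.succ)
              (fun x => θ l.succ g x) ?_ (fun m x hx => hδg l.succ m x hx)
            rw [PP_succ, hτ.Hs]
            exact fil_nd p (θ l.succ τ) (hτ.pow _) hD (hDb _ _ (hτ.pow _) h2) (θ l.succ g)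
              (hτ.mem hg' _) (hτ.nt hg' hg1 _ h2)
      have h2 := RR_pos Q hgen _ hη n' (by exact_mod_cast hn')
      rw [coeff_hm_same] at h2
      exact hηQ h2.2

end main

end Pool.Agent.Zk15.PG
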