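import Pool.Agent.Zk15.PfW6

/-!
The graded algebras at the wild primes of the base curve, in a chart of the product of projective
curves.
-/

set_option autoImplicit false
set_option linter.unusedVariables false
set_option linter.unusedSectionVars false
set_option linter.overlappingInstances false

namespace Pool.Agent.Zk15.PG

open Pool.Agent.Zk10.PG

open Pool.Agent.Y223.G
open Pool.Agent.R383.TM (Wild wildSub zpowers_prime WR)
open Pool.Agent.Zk15 (WD0)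
open Pool.Agent.Zk15.F (inG invS TA wil_card)
open Pool.Agent.Y71.H (Wil mem_Wil)
open Pool.Agent.Y86.G5 (im mem_im im_sub im_mul im_prime im_one im_pow)

section main

variable {k : Type} [Field k] [PerfectField k] {p : ℕ} [Fact p.Prime] [CharP k p] {G : Type}
  [Group G] [Finite G] {n : ℕ} {B : Fin (n + 1) → Type} [∀ l, CommRing (B l)]
  [∀ l, IsDomain (B l)] [∀ l, IsDedekindDomain (B l)] [∀ l, Algebra k (B l)]
  [∀ l, Algebra.FiniteType k (B l)] {θ : ∀ l, G →* (B l ≃ₐ[k] B l)}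
  (hT : Function.Injective (θ 0))
  (hin : ∀ 𝔓 : Ideal (B 0), 𝔓.IsMaximal → ¬ p ^ 2 ∣ Nat.card (inG (θ 0) 𝔓))
  {D : ℕ} (hD : 0 < D)
  (hDb : ∀ l g, θ l g ^ p = 1 → θ l g ≠ 1 →
    ∀ P ∈ Fx (Subgroup.zpowers (θ l g) : Set (B l ≃ₐ[k] B l)),
      br (Subgroup.zpowers (θ l g) : Set (B l ≃ₐ[k] B l)) P ∣ D)
  {C : Type} [CommRing C] [IsDomain C] [IsRegularRing C] [Algebra k C] {j : ∀ l, B l →ₐ[k] C}
  (hj : IsTens j)
  {K : Type} [Field K] [Algebra C K] [IsFractionRing C K] [Algebra k K] [IsScalarTower k C K]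
  [Algebra (B 0) K] (hB0 : ∀ o, algebraMap (B 0) K o = algebraMap C K (j 0 o))

include hT hin hD hDb hj hB0 in
/-- The graded algebras at the wild primes. -/
theorem chart_wd (ρ : G →* (K ≃ₐ[invS (θ 0)] K))
    (hσ : ∀ g l x, ρ g (ff K j l x) = ff K j l (θ l g x))
    (hN0 : ∀ 𝔓 ∈ Wp θ, IsNoetherianRing (RC k K j (PP θ D 𝔓)))
    (Rr : Ideal (B 0) → Subalgebra (invS (θ 0)) (LP K))
    (hWR : ∀ 𝔓 ∈ Wp θ, Rr 𝔓 =
      RR (invS (θ 0)) (fun l => (ff K j l : B l →+* K)) (PP θ D 𝔓)) :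
    (∀ 𝔓 : Ideal (B 0), 𝔓.IsMaximal → (∃ g, g ≠ 1 ∧ Wild (TA (θ 0)) g 𝔓) →
      IsRegularRing (Rr 𝔓)) ∧
    (∀ 𝔓 : Ideal (B 0), 𝔓.IsMaximal → (∃ g, g ≠ 1 ∧ Wild (TA (θ 0)) g 𝔓) →
      ∀ (g : G) (𝔓' : Ideal (B 0)), (∀ o, o ∈ 𝔓 ↔ TA (θ 0) g o ∈ 𝔓') →
      ∀ f ∈ Rr 𝔓, tl (ρ g) f ∈ Rr 𝔓') ∧
    ∀ 𝔓 : Ideal (B 0), 𝔓.IsMaximal → ∀ g, g ≠ 1 → Wild (TA (θ 0)) g 𝔓 → ∃ l D' : ℕ, 0 < D' ∧
      D' ≤ ee θ D 𝔓 * l ∧ (∀ o, TA (θ 0) g o - o ∈ 𝔓 ^ (l + 1)) ∧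
      (∀ f ∈ Rr 𝔓, hm D' 1 * (tl (ρ g) f - f) ∈ Rr 𝔓) ∧
      ∀ Q : Ideal (Rr 𝔓), Q.IsPrime →
        (∀ a ∈ 𝔓, ∃ h : hm 0 (algebraMap (B 0) K a) ∈ Rr 𝔓, (⟨_, h⟩ : Rr 𝔓) ∈ Q) →
        (∃ (n : ℕ) (η : K) (he : hm n η ∈ Rr 𝔓), 0 < n ∧ (⟨hm n η, he⟩ : Rr 𝔓) ∉ Q) →
        ∃ b ∈ Rr 𝔓, ∃ h : hm D' 1 * (tl (ρ g) b - b) ∈ Rr 𝔓, (⟨_, h⟩ : Rr 𝔓) ∉ Q := by
  have hCK : Function.Injective (algebraMap C K) := IsFractionRing.injective C K
  -- the data at a wild prime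
  have hAt : ∀ 𝔓 ∈ Wp θ, ∃ τ, At (θ := θ) p D 𝔓 τ := fun 𝔓 h𝔓 =>
    exists_At hT D h𝔓.1 (hin 𝔓 h𝔓.1) h𝔓.2
  have hk : ∀ c : k, ∃ c' : invS (θ 0), algebraMap (invS (θ 0)) K c' = algebraMap k K c := by
    intro c
    refine ⟨algebraMap k (invS (θ 0)) c, ?_⟩
    change algebraMap (B 0) K (algebraMap k (B 0) c) = algebraMap k K c
    rw [hB0, AlgHom.commutes, ← IsScalarTower.algebraMap_apply]
  have hk' : ∀ c : invS (θ 0), ∃ o : B 0, ff K j 0 o = algebraMap (invS (θ 0)) K c :=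
    fun c => ⟨c, (hB0 c).symm⟩
  refine ⟨?_, ?_, ?_⟩
  · -- regularity
    intro 𝔓 hmax hw
    have h𝔓 : 𝔓 ∈ Wp θ := ⟨hmax, hw⟩
    obtain ⟨τ, hτ⟩ := hAt 𝔓 h𝔓
    have hflt := At.flt hT hD hDb hτ
    rw [hWR 𝔓 h𝔓]
    have hN : IsNoetherianRing (RC k K j (PP θ D 𝔓)) := hN0 𝔓 h𝔓
    have hreg := RC_reg hCK j hj (PP θ D 𝔓) (fun l => (hflt l).zero)
      Pool.Agent.Y901.G.t_WREG (At.locF hT hD hDb hτ) hN
    have h3 : (RR (invS (θ 0)) (fun l => (ff K j l : B l →+* K)) (PP θ D 𝔓)).toSubring =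
        (RC k K j (PP θ D 𝔓)).toSubring := by
      ext g
      exact RR_base (ff K j) hk hk' (PP θ D 𝔓) (hflt 0).zero g
    have h4 : IsRegularRing (RC k K j (PP θ D 𝔓)).toSubring := hreg
    rw [← h3] at h4
    exact h4
  · -- the group
    intro 𝔓 hmax hw g 𝔓' hP f hf
    have h𝔓 : 𝔓 ∈ Wp θ := ⟨hmax, hw⟩
    have hP' : ∀ o, o ∈ 𝔓 ↔ θ 0 g o ∈ 𝔓' := hP
    have h𝔓' : 𝔓' ∈ Wp θ := by
      obtain ⟨g', hg1, hg'⟩ := hw
      refine ⟨max_conj hP' hmax, g * g' * g⁻¹, ?_, (wild_conj hP').1 hg'⟩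
      intro h
      apply hg1
      have h2 : g' = g⁻¹ * (g * g' * g⁻¹) * g := by group
      rw [h2, h]
      group
    rw [hWR 𝔓 h𝔓] at hf
    rw [hWR 𝔓' h𝔓']
    exact RR_tl (ρ g) (fun l => θ l g) (hσ g) (fun l m x hx => (PP_conj hP' D l m x).1 hx) f hf
  · -- the wild inertia group
    intro 𝔓 hmax g hg1 hg
    have hg' : Wild (θ 0) g 𝔓 := hg
    have h𝔓 : 𝔓 ∈ Wp θ := ⟨hmax, g, hg1, hg'⟩
    obtain ⟨τ, hτ⟩ := hAt 𝔓 h𝔓
    have hflt := At.flt hT hD hDb hτ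
    have he := At.e_pos hT hD hDb hτ
    have hb := At.b_pos hT hτ
    have h𝔓0 := At.bot hT hτ
    have hstab := At.stab hT hD hDb hτ hg'
    have hdel := At.delta hT hD hDb hτ hg'
    rw [hWR 𝔓 h𝔓]
    refine ⟨br (Subgroup.zpowers (θ 0 τ) : Set (B 0 ≃ₐ[k] B 0)) 𝔓, D, hD, le_of_eq he.2.symm, ?_,
      RR_delta (ρ g) (fun l => θ l g) (hσ g) hstab D hdel, ?_⟩
    · intro o
      have h2 := cf_mem (θ 0 τ) (At.ne0 hT hτ) hτ.fx (θ 0 g) (hτ.mem hg' 0) o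
      exact h2
    · intro Q hQ h𝔓Q hpos
      by_contra hcon
      obtain ⟨n', η, hη, hn', hηQ⟩ := hpos
      have hδQ : ∀ b ∈ RR (invS (θ 0)) (fun l => (ff K j l : B l →+* K)) (PP θ D 𝔓),
          hm D 1 * (tl (ρ g) b - b) ∈
            im (RR (invS (θ 0)) (fun l => (ff K j l : B l →+* K)) (PP θ D 𝔓)) Q := by
        intro b hb
        by_contra h2
        apply hcon
        refine ⟨b, hb, RR_delta (ρ g) (fun l => θ l g) (hσ g) hstab D hdel b hb, fun h3 => h2 ?_⟩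
        exact ⟨_, h3⟩
      -- the generators
      have hδg : ∀ l m, ∀ x ∈ PP θ D 𝔓 l m, hm ((m + D : ℕ) : ℤ) (ff K j l (θ l g x - x)) ∈
          im (RR (invS (θ 0)) (fun l => (ff K j l : B l →+* K)) (PP θ D 𝔓)) Q := by
        intro l m x hx
        have h2 := hδQ _ (RR_g (k := invS (θ 0)) (f := fun l => (ff K j l : B l →+* K)) hx)
        have e1 : (hm D 1 * (tl (ρ g) (hm (m : ℤ) ((ff K j l : B l →+* K) x)) -
            hm (m : ℤ) ((ff K j l : B l →+* K) x)) : LP K) =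
            hm ((m + D : ℕ) : ℤ) (ff K j l (θ l g x - x)) := by
          rw [tl_hm]
          change hm D 1 * (hm (m : ℤ) (ρ g (ff K j l x)) - hm (m : ℤ) (ff K j l x)) = _
          rw [hσ, ← hm_sub, ← map_sub, hm_mul, one_mul]
          congr 1
          push_cast
          ring
        rwa [e1] at h2
      have hR : ∀ l m, ∀ x ∈ PP θ D 𝔓 l m, hm (m : ℤ) (ff K j l x) ∈
          RR (invS (θ 0)) (fun l => (ff K j l : B l →+* K)) (PP θ D 𝔓) := fun l m x hx =>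
        RR_g (k := invS (θ 0)) (f := fun l => (ff K j l : B l →+* K)) hx
      have hgen : ∀ l m, 0 < m → ∀ x ∈ PP θ D 𝔓 l m, hm (m : ℤ) (ff K j l x) ∈
          im (RR (invS (θ 0)) (fun l => (ff K j l : B l →+* K)) (PP θ D 𝔓)) Q := by
        intro l
        refine Fin.cases ?_ (fun l => ?_) l
        · obtain ⟨π, hπ, hπ2⟩ := cf_unif hmax h𝔓0
          refine nd_pow (R := RR (invS (θ 0)) (fun l => (ff K j l : B l →+* K)) (PP θ D 𝔓))
            (ff K j 0 : B 0 →+* K) 𝔓 h𝔓0 (ee θ D 𝔓)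
            (br (Subgroup.zpowers (θ 0 τ) : Set (B 0 ≃ₐ[k] B 0)) 𝔓) he.1 RR_T (hR 0) ?_ π
            (θ 0 g π - π) ?_ ?_ ?_
          · intro x hx
            obtain ⟨h2, h3⟩ := h𝔓Q x hx
            have h4 : hm 0 (algebraMap (B 0) K x) ∈ im (RR (invS (θ 0))
              (fun l => (ff K j l : B l →+* K)) (PP θ D 𝔓)) Q := ⟨h2, h3⟩
            rw [hB0] at h4
            exact h4
          · exact cf_mem (θ 0 τ) (At.ne0 hT hτ) hτ.fx (θ 0 g) (hτ.mem hg' 0) π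
          · exact br_unif p (θ 0 τ) (hτ.pow 0) (At.ne0 hT hτ) hτ.fx π hπ hπ2 (θ 0 g)
              (hτ.mem hg' 0) (hτ.nt hg' hg1 0 (At.ne0 hT hτ))
          · have h2 := hδg 0 (ee θ D 𝔓) π (by
              rw [PP_zero, PF_self 𝔓 he.1]
              exact hπ)
            have e1 : (ee θ D 𝔓 + D : ℕ) = ee θ D 𝔓 *
                (br (Subgroup.zpowers (θ 0 τ) : Set (B 0 ≃ₐ[k] B 0)) 𝔓 + 1) := by
              rw [mul_add, mul_one, he.2]
              ring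
            rw [e1] at h2
            exact h2
        · by_cases h2 : θ l.succ τ = 1
          · intro m hm0 x hx
            rw [PP_succ, hτ.Hs, h2, fil_triv (by
              intro s hs
              rw [Subgroup.zpowers_one_eq_bot] at hs
              exact Subgroup.mem_bot.1 hs), if_neg (by omega), Ideal.mem_bot] at hx
            rw [hx, map_zero, hm_zero]
            exact (im _ Q).zero_mem
          · refine nd_fil (ff K j l.succ : B l.succ →+* K) (hflt l.succ) hD (hR l.succ)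
              (fun x => θ l.succ g x) ?_ (fun m x hx => hδg l.succ m x hx)
            rw [PP_succ, hτ.Hs]
            exact fil_nd p (θ l.succ τ) (hτ.pow _) hD (hDb _ _ (hτ.pow _) h2) (θ l.succ g)
              (hτ.mem hg' _) (hτ.nt hg' hg1 _ h2)
      have h2 := RR_pos Q hgen _ hη n' (by exact_mod_cast hn')
      rw [coeff_hm_same] at h2
      exact hηQ h2.2

end main

end Pool.Agent.Zk15.PG
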