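import Pool.Agent.Zk15.Dat

/-!
# Multiples of smooth polytopes
-/

set_option autoImplicit false
set_option linter.unusedSectionVars false

namespace Pool.Agent.Zk15

variable {Λ : Type} [AddCommGroup Λ] {n : ℕ}

/-- The sums of `N` elements of `P`. -/
def MS (N : ℕ) (P : Set Λ) : Set Λ :=
  {m | ∃ s : Multiset Λ, Multiset.card s = N ∧ (∀ x ∈ s, x ∈ P) ∧ s.sum = m}

lemma MS_finite {P : Set Λ} (hP : P.Finite) (N : ℕ) : (MS N P).Finite := by
  induction N with
  | zero =>
    refine (Set.finite_singleton (0 : Λ)).subset ?_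
    rintro m ⟨s, hs, -, rfl⟩
    rw [Multiset.card_eq_zero.1 hs, Multiset.sum_zero]
    rfl
  | succ N ih =>
    refine (Set.Finite.image2 (fun a b => a + b) hP ih).subset ?_
    rintro m ⟨s, hs, hsP, rfl⟩
    obtain ⟨a, s', rfl, hs'⟩ := Multiset.card_eq_succ_iff.1 hs
    rw [Multiset.sum_cons]
    exact ⟨a, hsP a (Multiset.mem_cons_self _ _), s'.sum,
      ⟨s', hs', fun x hx => hsP x (Multiset.mem_cons_of_mem hx), rfl⟩, rfl⟩

lemma MS_map {P : Set Λ} {N : ℕ} (f : Λ →+ Λ) (hf : ∀ m ∈ P, f m ∈ P) {m : Λ}
    (hm : m ∈ MS N P) : f m ∈ MS N P := by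
  obtain ⟨s, hs, hsP, rfl⟩ := hm
  refine ⟨s.map f, by rw [Multiset.card_map, hs], fun x hx => ?_, (map_multiset_sum f s).symm⟩
  obtain ⟨y, hy, rfl⟩ := Multiset.mem_map.1 hx
  exact hf y (hsP y hy)

/-- The data of a smooth polytope. -/
structure SP (P : Set Λ) (V : Set (Λ × Module.Basis (Fin n) ℤ Λ)) : Prop where
  vm : ∀ v b, (v, b) ∈ V → v ∈ P
  vb : ∀ v b, (v, b) ∈ V → ∀ i, v + b i ∈ P
  cone : ∀ v b, (v, b) ∈ V → ∀ m ∈ P, ∀ i, 0 ≤ b.repr (m - v) i
  cvx : ∀ m ∈ P, ∃ s : Multiset Λ, s ≠ 0 ∧ (∀ v ∈ s, ∃ b, (v, b) ∈ V) ∧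
    Multiset.card s • m = s.sum

/-- The multiples of the vertices. -/
def MV (N : ℕ) (V : Set (Λ × Module.Basis (Fin n) ℤ Λ)) :
    Set (Λ × Module.Basis (Fin n) ℤ Λ) := {x | ∃ v, (v, x.2) ∈ V ∧ x.1 = N • v}

/-- The sum of `N` elements: a vertex and elements of the cone. -/
lemma MS_add {P : Set Λ} {v : Λ} {b : Module.Basis (Fin n) ℤ Λ} (hv : v ∈ P)
    (hb : ∀ i, v + b i ∈ P) {N : ℕ} (c : Fin n → ℕ) (hc : ∑ i, c i ≤ N) :
    N • v + ∑ i, c i • b i ∈ MS N P := by
  classical
  refine ⟨Multiset.replicate (N - ∑ i, c i) v + ∑ i, Multiset.replicate (c i) (v + b i),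
    ?_, ?_, ?_⟩
  · rw [Multiset.card_add, Multiset.card_replicate, Multiset.card_sum]
    simp only [Multiset.card_replicate]
    omega
  · intro x hx
    rw [Multiset.mem_add] at hx
    rcases hx with hx | hx
    · rw [Multiset.eq_of_mem_replicate hx]
      exact hv
    · rw [Multiset.mem_sum] at hx
      obtain ⟨i, -, hx⟩ := hx
      rw [Multiset.eq_of_mem_replicate hx]
      exact hb i
  · rw [Multiset.sum_add, Multiset.sum_replicate]
    have h1 : (∑ i, Multiset.replicate (c i) (v + b i)).sum = ∑ i, c i • (v + b i) := by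
      rw [Multiset.sum_sum]
      exact Finset.sum_congr rfl fun i _ => Multiset.sum_replicate _ _
    rw [h1]
    simp only [smul_add, Finset.sum_add_distrib, ← Finset.sum_smul]
    rw [← add_assoc, ← add_smul, Nat.sub_add_cancel hc]

/-- The size of an element. -/
noncomputable def sz (b : Module.Basis (Fin n) ℤ Λ) (e : Λ) : ℕ := ∑ i, (b.repr e i).natAbs

/-- The subgroups are generated by elements of bounded size. -/
lemma exists_bound (b : Module.Basis (Fin n) ℤ Λ) (L : AddSubgroup Λ) :
    ∃ N, ∀ e ∈ L, e ∈ AddSubgroup.closure {e | e ∈ L ∧ sz b e ≤ N} := by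
  classical
  have hfin : Module.Finite ℤ Λ := Module.Finite.of_basis b
  obtain ⟨F, hF⟩ : (AddSubgroup.toIntSubmodule L).FG := IsNoetherian.noetherian _
  refine ⟨∑ e ∈ F, sz b e, fun e he => ?_⟩
  have h1 : e ∈ Submodule.span ℤ (F : Set Λ) := by
    rw [hF]
    exact he
  induction h1 using Submodule.span_induction with
  | mem x hx =>
    refine AddSubgroup.subset_closure ⟨?_, Finset.single_le_sum (f := fun e => sz b e)
      (fun _ _ => Nat.zero_le _) hx⟩
    have h2 : x ∈ Submodule.span ℤ (F : Set Λ) := Submodule.subset_span hx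
    rw [hF] at h2
    exact h2
  | zero => exact zero_mem _
  | add x y hx hy hx' hy' =>
    rw [hF] at hx hy
    exact add_mem (hx' hx) (hy' hy)
  | smul c x hx hx' =>
    rw [hF] at hx
    exact zsmul_mem (hx' hx) c

/-- The underlying additive map. -/
def ah (f : Λ ≃ₗ[ℤ] Λ) : Λ →+ Λ := (f : Λ →ₗ[ℤ] Λ).toAddMonoidHom

lemma ah_apply (f : Λ ≃ₗ[ℤ] Λ) (x : Λ) : ah f x = f x := rfl

theorem SP.mul {G : Type} [Group G] [Finite G] (φ : G →* (Λ ≃ₗ[ℤ] Λ)) {P : Set Λ}
    {V : Set (Λ × Module.Basis (Fin n) ℤ Λ)} (h : SP P V) (hV : V.Finite)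
    (hφ : ∀ g, ∀ m ∈ P, φ g m ∈ P) :
    ∃ N, 0 < N ∧ SP (MS N P) (MV N V) ∧ ∀ v b, (v, b) ∈ MV N V → ∀ (g : G) (p : ℕ), p.Prime →
      orderOf g = p → PV (MS N P) v b (ah (φ g)) p := by
  classical
  have := Fintype.ofFinite G
  -- the bounds
  choose bd hbd using fun (x : Module.Basis (Fin n) ℤ Λ × Set (Fin n) × G × ℕ) =>
    exists_bound x.1 (LF x.1 x.2.1 ⊓ KN (ah (φ x.2.2.1)) x.2.2.2)
  set N0 : ℕ := ∑ x ∈ hV.toFinset, ∑ J : Set (Fin n), ∑ g : G,
    bd (x.2, J, g, orderOf g) with hN0
  have hbdle : ∀ v b, (v, b) ∈ V → ∀ J g, bd (b, J, g, orderOf g) ≤ N0 := by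
    intro v b hvb J g
    have h1 : ∑ J : Set (Fin n), ∑ g : G, bd (b, J, g, orderOf g) ≤ N0 :=
      Finset.single_le_sum (f := fun x : Λ × Module.Basis (Fin n) ℤ Λ =>
        ∑ J : Set (Fin n), ∑ g : G, bd (x.2, J, g, orderOf g)) (fun _ _ => Nat.zero_le _)
        (hV.mem_toFinset.2 hvb)
    have h2 : ∑ g : G, bd (b, J, g, orderOf g) ≤
        ∑ J : Set (Fin n), ∑ g : G, bd (b, J, g, orderOf g) :=
      Finset.single_le_sum (f := fun J : Set (Fin n) => ∑ g : G, bd (b, J, g, orderOf g))
        (fun _ _ => Nat.zero_le _) (Finset.mem_univ J)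
    have h3 : bd (b, J, g, orderOf g) ≤ ∑ g : G, bd (b, J, g, orderOf g) :=
      Finset.single_le_sum (f := fun g : G => bd (b, J, g, orderOf g))
        (fun _ _ => Nat.zero_le _) (Finset.mem_univ g)
    exact h3.trans (h2.trans h1)
  set N := Nat.card G * (N0 + 1) with hN
  have hG0 : 0 < Nat.card G := Nat.card_pos
  have hNpos : 0 < N := Nat.mul_pos hG0 (Nat.succ_pos _)
  have hN0N : N0 ≤ N := by
    calc N0 ≤ N0 + 1 := Nat.le_succ _
      _ ≤ N := Nat.le_mul_of_pos_left _ hG0
  have hNv : ∀ v b, (v, b) ∈ V → N • v ∈ MS N P := by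
    intro v b hvb
    have h1 := MS_add (N := N) (h.vm v b hvb) (h.vb v b hvb) (fun _ => 0) (by simp)
    simpa using h1
  refine ⟨N, hNpos, ⟨?_, ?_, ?_, ?_⟩, ?_⟩
  · rintro v' b ⟨v, hvb, hv'⟩
    dsimp only at hvb hv'
    subst hv'
    exact hNv v b hvb
  · rintro v' b ⟨v, hvb, hv'⟩ i
    dsimp only at hvb hv'
    subst hv'
    have h1 := MS_add (N := N) (h.vm v b hvb) (h.vb v b hvb) (fun j => if j = i then 1 else 0)
      (by rw [Finset.sum_ite_eq' Finset.univ i, if_pos (Finset.mem_univ i)]; exact hNpos)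
    simpa using h1
  · rintro v' b ⟨v, hvb, hv'⟩ m ⟨s, hs, hsP, rfl⟩ i
    dsimp only at hvb hv'
    subst hv'
    have h1 : s.sum - N • v = (s.map fun x => x - v).sum := by
      rw [← hs]
      clear hs hsP
      induction s using Multiset.induction_on with
      | empty => simp
      | cons a s ih =>
        rw [Multiset.sum_cons, Multiset.card_cons, Multiset.map_cons, Multiset.sum_cons, ← ih,
          succ_nsmul]
        abel
    rw [h1]
    clear h1 hs
    induction s using Multiset.induction_on with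
    | empty => simp
    | cons a s ih =>
      rw [Multiset.map_cons, Multiset.sum_cons, map_add, Finsupp.add_apply]
      exact add_nonneg (h.cone v b hvb a (hsP a (Multiset.mem_cons_self _ _)) i)
        (ih fun x hx => hsP x (Multiset.mem_cons_of_mem hx))
  · rintro m ⟨s, hs, hsP, rfl⟩
    have h1 : ∃ q, 0 < q ∧ ∃ T : Multiset Λ, (∀ v ∈ T, ∃ b, (v, b) ∈ V) ∧
        Multiset.card T = q * Multiset.card s ∧ q • s.sum = T.sum := by
      clear hs
      induction s using Multiset.induction_on with
      | empty => exact ⟨1, Nat.one_pos, 0, by simp, by simp, by simp⟩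
      | cons a s ih =>
        obtain ⟨q, hq, T, hT, hTc, hTs⟩ := ih fun x hx => hsP x (Multiset.mem_cons_of_mem hx)
        obtain ⟨s1, hs1, hs1V, hs1s⟩ := h.cvx a (hsP a (Multiset.mem_cons_self _ _))
        have hc1 : 0 < Multiset.card s1 := Multiset.card_pos.2 hs1
        refine ⟨q * Multiset.card s1, Nat.mul_pos hq hc1, q • s1 + Multiset.card s1 • T,
          ?_, ?_, ?_⟩
        · intro v hv
          rw [Multiset.mem_add] at hv
          rcases hv with hv | hv
          · exact hs1V v (Multiset.mem_of_mem_nsmul hv)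
          · exact hT v (Multiset.mem_of_mem_nsmul hv)
        · rw [Multiset.card_add, Multiset.card_nsmul, Multiset.card_nsmul, hTc,
            Multiset.card_cons]
          ring
        · rw [Multiset.sum_add, Multiset.sum_nsmul, Multiset.sum_nsmul, ← hTs, ← hs1s,
            Multiset.sum_cons, smul_add, smul_smul, smul_smul, mul_comm (Multiset.card s1) q]
    obtain ⟨q, hq, T, hT, hTc, hTs⟩ := h1
    refine ⟨T.map fun v => N • v, ?_, ?_, ?_⟩
    · intro h0
      have h2 := congrArg Multiset.card h0
      rw [Multiset.card_map, hTc, hs, Multiset.card_zero] at h2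
      have := Nat.mul_pos hq hNpos
      omega
    · intro v hv
      obtain ⟨v', hv', rfl⟩ := Multiset.mem_map.1 hv
      obtain ⟨b, hb⟩ := hT v' hv'
      exact ⟨b, v', hb, rfl⟩
    · rw [Multiset.card_map, hTc, hs, Multiset.sum_map_nsmul, Multiset.map_id', ← hTs, smul_smul,
        mul_comm]
  · rintro v' b ⟨v, hvb, hv'⟩ g p hp hgp
    dsimp only at hvb hv'
    subst hv'
    subst hgp
    set t : Λ →+ Λ := (ah (φ g)) with ht
    have htit : ∀ (i : ℕ), t^[i] v ∈ P := by
      intro i
      induction i with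
      | zero => exact h.vm v b hvb
      | succ i ih =>
        rw [Function.iterate_succ_apply']
        exact hφ g _ ih
    refine ⟨hNv v b hvb, ?_, ?_, ?_, ?_⟩
    · intro i
      have h1 := MS_add (N := N) (h.vm v b hvb) (h.vb v b hvb) (fun j => if j = i then 1 else 0)
        (by rw [Finset.sum_ite_eq' Finset.univ i, if_pos (Finset.mem_univ i)]; exact hNpos)
      simpa using h1
    · rintro m ⟨s, hs, hsP, rfl⟩ i
      have h1 : s.sum - N • v = (s.map fun x => x - v).sum := by
        rw [← hs]
        clear hs hsP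
        induction s using Multiset.induction_on with
        | empty => simp
        | cons a s ih =>
          rw [Multiset.sum_cons, Multiset.card_cons, Multiset.map_cons, Multiset.sum_cons, ← ih,
            succ_nsmul]
          abel
      rw [h1]
      clear h1 hs
      induction s using Multiset.induction_on with
      | empty => simp
      | cons a s ih =>
        rw [Multiset.map_cons, Multiset.sum_cons, map_add, Finsupp.add_apply]
        exact add_nonneg (h.cone v b hvb a (hsP a (Multiset.mem_cons_self _ _)) i)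
          (ih fun x hx => hsP x (Multiset.mem_cons_of_mem hx))
    · intro J _ e heL heN
      have h1 := hbd (b, J, g, orderOf g) e (AddSubgroup.mem_inf.2 ⟨heL, heN⟩)
      refine (AddSubgroup.closure_le _).2 ?_ h1
      rintro e ⟨he, hsz⟩
      obtain ⟨heL, heN⟩ := AddSubgroup.mem_inf.1 he
      have hsz' : sz b e ≤ N := hsz.trans ((hbdle v b hvb J g).trans hN0N)
      have hpos : ∑ i, (b.repr e i).toNat ≤ N := by
        refine (Finset.sum_le_sum fun i _ => ?_).trans hsz'
        omega
      have hneg : ∑ i, (-(b.repr e i)).toNat ≤ N := by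
        refine (Finset.sum_le_sum fun i _ => ?_).trans hsz'
        omega
      have hJ : ∀ c : Fin n → ℕ, (∀ i, i ∉ J → c i = 0) → ∑ i, c i • b i ∈ LF b J := by
        intro c hc
        refine sum_mem fun i _ => ?_
        by_cases hi : i ∈ J
        · exact nsmul_mem (b_J hi) _
        · rw [hc i hi, zero_smul]
          exact zero_mem _
      have hdiff : (N • v + ∑ i, (b.repr e i).toNat • b i) -
          (N • v + ∑ i, (-(b.repr e i)).toNat • b i) = e := by
        rw [add_sub_add_left_eq_sub, ← Finset.sum_sub_distrib]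
        conv_rhs => rw [← b.sum_repr e]
        refine Finset.sum_congr rfl fun i _ => ?_
        rw [← natCast_zsmul, ← natCast_zsmul, ← sub_smul]
        congr 1
        omega
      refine AddSubgroup.subset_closure ⟨_, MS_add (h.vm v b hvb) (h.vb v b hvb) _ hpos, _,
        MS_add (h.vm v b hvb) (h.vb v b hvb) _ hneg, ?_, ?_, ?_, hdiff.symm⟩
      · rw [add_sub_cancel_left]
        refine hJ _ fun i hi => ?_
        rw [heL i hi]
        rfl
      · rw [add_sub_cancel_left]
        refine hJ _ fun i hi => ?_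
        rw [heL i hi]
        rfl
      · rw [hdiff]
        exact heN
    · obtain ⟨q, hq⟩ : orderOf g ∣ N := (orderOf_dvd_natCard g).trans (Dvd.intro _ rfl)
      have htp : ∀ x, t^[orderOf g] x = x := by
        have h1 : ∀ (i : ℕ) x, t^[i] x = φ (g ^ i) x := by
          intro i
          induction i with
          | zero => intro x; rw [pow_zero, map_one]; rfl
          | succ i ih =>
            intro x
            rw [Function.iterate_succ_apply', ih, pow_succ', map_mul]
            rfl
        intro x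
        rw [h1, pow_orderOf_eq_one, map_one]
        rfl
      refine ⟨q • ∑ i ∈ Finset.range (orderOf g), t^[i] v, ?_, ?_, ?_⟩
      · refine ⟨q • (Multiset.map (fun i => t^[i] v) (Multiset.range (orderOf g))), ?_, ?_, ?_⟩
        · rw [Multiset.card_nsmul, Multiset.card_map, Multiset.card_range, hq, mul_comm]
        · intro x hx
          obtain ⟨i, -, rfl⟩ := Multiset.mem_map.1 (Multiset.mem_of_mem_nsmul hx)
          exact htit i
        · rw [Multiset.sum_nsmul]
          rfl
      · rw [map_nsmul, map_sum]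
        congr 1
        have h1 : ∀ i, t (t^[i] v) = t^[i + 1] v := fun i =>
          (Function.iterate_succ_apply' _ _ _).symm
        simp only [h1]
        have h2 := Finset.sum_range_succ (fun i => t^[i] v) (orderOf g)
        rw [Finset.sum_range_succ', htp, Function.iterate_zero_apply] at h2
        exact add_right_cancel h2
      · intro J hJ htv
        have h1 : t v - v ∈ LF b J := by
          intro i hi
          have h2 := htv i hi
          rw [map_nsmul, ← smul_sub, map_nsmul, Finsupp.smul_apply] at h2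
          exact (smul_eq_zero.1 h2).resolve_left hNpos.ne'
        have h2 : ∀ i, t^[i] v - v ∈ LF b J := by
          intro i
          induction i with
          | zero => rw [Function.iterate_zero_apply, sub_self]; exact zero_mem _
          | succ i ih =>
            have e : t^[i + 1] v - v = t^[i] (t v - v) + (t^[i] v - v) := by
              rw [iterate_map_sub, Function.iterate_succ_apply]
              abel
            rw [e]
            exact add_mem (LF_iter hJ i h1) ih
        have e : q • ∑ i ∈ Finset.range (orderOf g), t^[i] v - N • v =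
            q • ∑ i ∈ Finset.range (orderOf g), (t^[i] v - v) := by
          rw [Finset.sum_sub_distrib, Finset.sum_const, Finset.card_range, smul_sub, smul_smul,
            mul_comm q, ← hq]
        rw [e]
        exact nsmul_mem (sum_mem fun i _ => h2 i) _

end Pool.Agent.Zk15
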