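import Pool.Agent.Zk15.Loc3

/-!
# Regularity of the charts at the primes of the exceptional divisor: the theorem
-/

set_option autoImplicit false
set_option linter.unusedSectionVars false
set_option linter.unusedSimpArgs false

namespace Pool.Agent.Zk15

open Pool.Agent.Y223.G IsLocalRing Pool.Agent.W418.LU2
open Pool.Agent.Y86.G5 (im mem_im im_sub im_mul im_prime im_one im_pow)
open Pool.Agent.R383.TM (WR WR_s WR_e WR_o WR_z FIX)

variable {k O K Λ : Type} [CommRing k] [CommRing O] [Field K] [Algebra k K] [Algebra O K]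
  [AddCommGroup Λ] {n : ℕ} [Algebra k O] [IsScalarTower k O K] {S : Dat k O K Λ n} {m : ℕ}
  {z : Fin (m + 1) → K} {a : Fin (m + 1) → ℕ} {j : Fin (m + 1)}

theorem CH.regT [IsDedekindDomain O] (hWREG : S_WREG) (hC : CH S z a)
    {Q : Ideal (RZ S z a j)} [hQ : Q.IsPrime] (hTQ : hm (-1) 1 ∈ im (RZ S z a j) Q) :
    IsRegularLocalRing (Localization.AtPrime Q) := by
  classical
  have hR : Zk15.RH S (RZ S z a j) (z j) := hC.RH
  set c := z j with hc
  have hc0 : c ≠ 0 := hC.z0 j
  have hNT : NT (RZ S z a j) Q S.l (Lg (RZ S z a j) Q) := NT_Lg hR.s hTQ S.l0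
  have hst : ∀ m ∈ S.P, ¬ Pg (RZ S z a j) Q 0 (S.X m / c) →
      ¬ Pg (RZ S z a j) Q 0 (S.X (S.t m) / c) := by
    intro m hm h h'
    apply h
    have h1 : S.X (S.t m) - S.X m ∈ S.D 1 := by
      rw [← S.τX]
      exact S.Dδ 0 (S.XD hm)
    have h2 := hR.Ld (Q := Q) S.pp.one_le h1
    rw [one_mul] at h2
    have h3 := h'.sub (hNT.l0 _ h2)
    rw [sub_div, sub_sub_cancel] at h3
    exact h3
  obtain ⟨b, J, w, hL⟩ := hR.exists_LV hst
  have hw0 := S.Xne w
  have hdel : ∀ {d : ℤ} {x : K}, Lg (RZ S z a j) Q d x →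
      GG (RZ S z a j) Q S.τ S.l (Lg (RZ S z a j) Q) d x := by
    intro d x hx
    refine hL.del hNT hC.zD hC.ap rfl hC.gens hR.cD hR ?_ ?_ ?_ hx
    · intro o
      exact Lg.of (hm_low hR.s (hR.epow _ (S.dv o)) (by push_cast; linarith))
    · intro x _
      have h1 := hR.epow _ (S.dv x)
      have e : ((S.l + 1 : ℕ) : ℤ) = 1 + S.l := by push_cast; ring
      rw [e] at h1
      exact Lg.of h1
    · intro i hi x hx
      have h1 := hL.cw.mul0 (Lg.of (Q := Q) (hR.dd hi hx))
      have e : c / S.X w * ((S.τ x - x) / c) = (S.τ x - x) / S.X w := by field_simp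
      rwa [e] at h1
  -- the local ring
  set B := LgR (RZ S z a j) Q with hB
  obtain ⟨T, hT⟩ : ∃ T, T = TC O S.X (SF b J : Set Λ) := ⟨_, rfl⟩
  have hTB : ∀ y ∈ T, y ∈ B := fun y hy => hL.TB (by rwa [hT] at hy)
  have hfr : ∀ y ∈ B, ∃ u, ∃ hu : u ∈ T, (⟨u, hTB u hu⟩ : B) ∉ maximalIdeal B ∧ u * y ∈ T := by
    intro y hy
    obtain ⟨u, hu, hu1, hu2⟩ := hL.frac hC hy
    refine ⟨u, by rwa [hT], ?_, by rwa [hT]⟩
    rw [mem_maxLgR]
    exact hu1
  obtain ⟨ι1, ι2, κ0, κ1, _, _, _, _, g, f0, f1, hg⟩ := nice b J S.t S.pp hL.hS S.tp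
  let _ : Fintype ι1 := Fintype.ofFinite _
  let _ : Fintype ι2 := Fintype.ofFinite _
  let _ : Fintype κ0 := Fintype.ofFinite _
  let _ : Fintype κ1 := Fintype.ofFinite _
  let U : Set (NI ι1 ι2 κ0 κ1 S.p) := Set.range Sum.inl
  have hUn : ∀ i : NI ι1 ι2 κ0 κ1 S.p, i ∉ U ↔ ∃ j, i = Sum.inr j := by
    rintro (i | i)
    · refine ⟨fun h => (h ⟨i, rfl⟩).elim, ?_⟩
      rintro ⟨j, hj⟩
      cases hj
    · refine ⟨fun _ => ⟨i, rfl⟩, ?_⟩
      rintro - ⟨j, hj⟩
      cases hj
  have hSF : (SF b J : Set Λ) = GS g U := by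
    ext s
    rw [SetLike.mem_coe, hg.sf]
    constructor
    · intro h i hi
      obtain ⟨j, rfl⟩ := (hUn i).1 hi
      exact h j
    · intro h j
      exact h _ ((hUn _).2 ⟨j, rfl⟩)
  have hTg : T = TC O S.X (GS g U) := by rw [hT, hSF]
  have hTreg : IsRegularRing T := by
    rw [hTg]
    exact v_reg S.X0 S.Xa S.li g U
  have hBreg : IsRegularLocalRing B := locS_reg hTB hfr
  have hBn : IsNoetherianRing B := inferInstance
  -- the ideal `𝔓`
  have hPP : ∀ x ∈ S.𝔓, Pg (RZ S z a j) Q 0 (algebraMap O K x) := by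
    intro x hx
    have h1 := im_mul (hR.e x hx) hTQ
    rw [hm_mul, mul_one, add_neg_cancel] at h1
    exact Pg.of h1
  have hPiff : ∀ x : O, Pg (RZ S z a j) Q 0 (algebraMap O K x) → x ∈ S.𝔓 := by
    intro x hx
    by_contra hcon
    obtain ⟨y, p', hp', hy⟩ := S.mx.exists_inv hcon
    have h1 := (hR.Lo (Q := Q) y).mulP0 hx
    have h2 := h1.add (hPP p' hp')
    rw [← map_mul, ← map_add, hy, map_one] at h2
    exact Pg.not_one h2
  -- the lattice
  set L := LF b J ⊓ KN S.t S.p with hLd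
  have hLF : ∀ e ∈ L, e ∈ LF b J := fun e he => (AddSubgroup.mem_inf.1 he).1
  have hLN : ∀ e ∈ L, e ∈ KN S.t S.p := fun e he => (AddSubgroup.mem_inf.1 he).2
  have hLX : ∀ e ∈ L, S.X e ∈ B := fun e he => hL.LS e (LF_le (hLF e he))
  have hmx : ∀ e : L, yB hLX e ∈ maximalIdeal B := by
    intro e
    rw [mem_maxLgR]
    exact hNT.l0 _ (hL.Le e (hLF e e.2) (hLN e e.2))
  have hp1 : 1 ≤ S.p - 1 := by have := S.pp.two_le; omega
  have hpm : (S.p : B) ∈ maximalIdeal B := by
    rw [mem_maxLgR]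
    have h1 : (S.p : O) ∈ S.𝔓 :=
      Ideal.pow_le_self (Nat.mul_pos hp1 S.l0).ne' S.hp
    have h2 := hPP _ h1
    rw [map_natCast] at h2
    exact h2
  let δ : L →+ L :=
    { toFun := fun e => ⟨dl S.t e, hL.dL e.2⟩
      map_zero' := Subtype.ext (map_zero _)
      map_add' := fun e e' => Subtype.ext (map_add _ _ _) }
  have hδit : ∀ (i : ℕ) (e : L), ((δ^[i] e : L) : Λ) = (dl S.t)^[i] e := by
    intro i
    induction i with
    | zero => intro e; rfl
    | succ i ih =>
      intro e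
      rw [Function.iterate_succ_apply', Function.iterate_succ_apply', ← ih]
      rfl
  have hFact : Fact S.p.Prime := ⟨S.pp⟩
  have hfree : Module.Free ℤ Λ := Module.Free.of_basis b
  have hfin : Module.Finite ℤ Λ := Module.Finite.of_basis b
  have hLfree : Module.Free ℤ L := by
    have h1 : Module.Free ℤ (AddSubgroup.toIntSubmodule L) := inferInstance
    exact h1
  have hLfin : Module.Finite ℤ L := by
    have h1 : Module.Finite ℤ (AddSubgroup.toIntSubmodule L) := inferInstance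
    exact h1
  obtain ⟨Sx, hSx, f, ω, hω, hdec, hψ⟩ := adapted_lattice (L := L) S.p δ (by
    intro e
    obtain ⟨g', hg', hg2⟩ := dl_pred S.pp (hLN e e.2)
    have hgL : g' ∈ L := by
      refine (AddSubgroup.closure_le _).2 ?_ hg'
      rintro _ ⟨i, rfl⟩
      exact dl_iter_mem (fun e he => hL.tL he) e.2 i
    refine ⟨-(e + δ ⟨g', hgL⟩), Subtype.ext ?_⟩
    rw [hδit, hg2]
    push_cast
    rw [smul_neg]
    rfl)
  -- the uniformizer
  obtain ⟨π, hπ, hπsq, u, hu, hud⟩ := S.unif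
  let πB : B := ⟨algebraMap O K π, hR.Lo π⟩
  -- the orbits
  have hit : ∀ (i : ℕ) {y : K}, Lg (RZ S z a j) Q 0 y → Lg (RZ S z a j) Q 0 (S.τ^[i] y) := by
    intro i
    induction i with
    | zero => intro y hy; exact hy
    | succ i ih =>
      intro y hy
      rw [Function.iterate_succ_apply']
      exact (hdel (ih hy)).2.1
  have hdit : ∀ (i : ℕ) {y : K}, Lg (RZ S z a j) Q 0 y →
      Lg (RZ S z a j) Q ((i * S.l : ℕ) : ℤ) ((df S.τ)^[i] y) := by
    intro i
    induction i with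
    | zero =>
      intro y hy
      rw [Nat.zero_mul]
      exact hy
    | succ i ih =>
      intro y hy
      rw [Function.iterate_succ_apply']
      have h1 := (hdel (ih hy)).2.2
      have e : ((i * S.l : ℕ) : ℤ) + S.l = (((i + 1) * S.l : ℕ) : ℤ) := by push_cast; ring
      rw [e] at h1
      exact h1
  have hbL : ∀ r, Lg (RZ S z a j) Q 0 (S.X (b (f1 r))) := fun r => hL.LS _ (b_mem _)
  have hdB : ∀ (r : κ1) (i : ℕ), (df S.τ)^[i] (S.X (b (f1 r))) ∈ B := fun r i =>
    (hdit i (hbL r)).low hR.s (by positivity)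
  let t1 : κ1 → ℕ → B := fun r i => ⟨S.τ^[i] (S.X (b (f1 r))), hit i (hbL r)⟩
  let d1 : κ1 → ℕ → B := fun r i => ⟨(df S.τ)^[i] (S.X (b (f1 r))), hdB r i⟩
  have hd : ∀ r i, d1 r i = ∑ q ∈ Finset.range (i + 1),
      ((((-1 : ℤ) ^ (i - q) * (i.choose q : ℤ) : ℤ)) : B) * t1 r q := by
    intro r i
    apply Subtype.ext
    have h1 := df_shift S.τ i (S.X (b (f1 r)))
    simp only [AddSubmonoidClass.coe_finsetSum, MulMemClass.coe_mul, SubringClass.coe_intCast]
    exact h1
  -- membership in the ideal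
  have hinr : ∀ q : κ0 ⊕ κ1 × Fin S.p, Pg (RZ S z a j) Q 0 (S.X (g (Sum.inr q))) := by
    intro q
    have h1 : g (Sum.inr q) ∈ SF b J := by
      rw [hg.sf]
      intro j'
      rw [g.repr_self, Finsupp.single_apply]
      split_ifs <;> norm_num
    refine hL.yP _ h1 fun h2 => ?_
    have h3 := (hg.sf _).1 (mem_LF_iff.1 h2).2 q
    rw [map_neg, Finsupp.neg_apply, g.repr_self, Finsupp.single_eq_same] at h3
    norm_num at h3
  have hInd : Ind (fun i : Option (ι1 ⊕ (κ0 ⊕ κ1 × Fin S.p)) => i.elim πB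
      (Sum.elim (fun i => yB hLX ⟨g (Sum.inl (Sum.inl i)), hg.g1 i⟩)
        (Sum.elim (fun q => ⟨S.X (g (Sum.inr (Sum.inl q))), (hinr _).lg⟩)
          fun rk => t1 rk.1 rk.2))) := by
    obtain ⟨e, he⟩ := locS_equiv hTB hfr
    have he' : ∀ (y : B) (t : T), (y : K) = t → e y = algebraMap T _ t := by
      rintro ⟨y, hy⟩ ⟨t, ht⟩ h
      have h' : y = t := h
      subst h'
      exact he _ _
    have hXT : ∀ i, S.X (g i) ∈ T := by
      intro i
      rw [hTg]
      refine Algebra.subset_adjoin ⟨_, fun j' _ => ?_, rfl⟩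
      rw [g.repr_self, Finsupp.single_apply]
      split_ifs <;> norm_num
    let v : NI ι1 ι2 κ0 κ1 S.p → T := fun i => if i ∈ U then ⟨S.X (g i), hXT i⟩ - 1
      else ⟨S.X (g i), hXT i⟩
    have hv1 : ∀ i, i ∈ U → (v i : K) = S.X (g i) - 1 := by
      intro i hi
      simp only [v, if_pos hi]
      rfl
    have hv2 : ∀ i, i ∉ U → (v i : K) = S.X (g i) := by
      intro i hi
      simp only [v, if_neg hi]
    have hE := v_etale (g := g) (U := U) (v := v) S.X0 S.Xa S.li hTg hv1 hv2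
    have hQc : (QT T B hTB).comap (algebraMap O T) = S.𝔓 := by
      ext x
      rw [Ideal.mem_comap, mem_QT, mem_maxLgR]
      exact ⟨fun h => hPiff x h, fun h => hPP x h⟩
    have hcore := Pool.Agent.Y215.G.ind_core (O := O) (T := T) v hE (QT T B hTB) S.𝔓 S.mx π hπ
      hπsq hQc (Sum.map Sum.inl id : ι1 ⊕ (κ0 ⊕ κ1 × Fin S.p) → NI ι1 ι2 κ0 κ1 S.p)
      (Function.Injective.sumMap Sum.inl_injective Function.injective_id) (by
        rintro (i | q)
        · rw [mem_QT, mem_maxLgR]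
          change Pg _ _ _ ((v (Sum.inl (Sum.inl i)) : T) : K)
          rw [hv1 _ ⟨_, rfl⟩]
          have h1 := hmx ⟨g (Sum.inl (Sum.inl i)), hg.g1 i⟩
          rw [mem_maxLgR] at h1
          exact h1
        · rw [mem_QT, mem_maxLgR]
          change Pg _ _ _ ((v (Sum.inr q) : T) : K)
          rw [hv2 _ ((hUn _).2 ⟨q, rfl⟩)]
          exact hinr q)
    refine Pool.Agent.Y215.G.ind_of_equiv e _ ?_
    convert hcore using 1
    funext i
    rcases i with _ | (i | (q | ⟨r, q⟩))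
    · exact he' _ _ rfl
    · exact he' _ _ (hv1 _ ⟨_, rfl⟩).symm
    · exact he' _ _ (hv2 _ ((hUn _).2 ⟨_, rfl⟩)).symm
    · refine he' _ _ ?_
      refine Eq.trans ?_ (hv2 _ ((hUn _).2 ⟨_, rfl⟩)).symm
      change S.τ^[(q : ℕ)] (S.X (b (f1 r))) = S.X (g (Sum.inr (Sum.inr (r, q))))
      rw [hg.h1]
      exact S.tauX _ _
  have hI : Ind (prm (p := S.p) hLX πB f d1) := by
    refine indQ hLX S.X0 S.Xa hmx S.pp hpm πB f (fun i => ⟨g (Sum.inl (Sum.inl i)), hg.g1 i⟩)
      (fun q => ⟨S.X (g (Sum.inr (Sum.inl q))), (hinr _).lg⟩) t1 d1 hd hInd ?_ hψ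
    intro s
    have h1 := hg.g1s _ (hLF _ (f s).2) (hLN _ (f s).2)
    rw [Submodule.mem_span_range_iff_exists_fun] at h1
    obtain ⟨nn, hnn⟩ := h1
    refine ⟨nn, Subtype.ext ?_⟩
    rw [← hnn]
    push_cast
    rfl
  -- the weights
  obtain ⟨x, hx⟩ : ∃ x, x = prm (p := S.p) hLX πB f d1 := ⟨_, rfl⟩
  let wt : Option (Sx ⊕ κ1 × Fin (S.p - 1)) → ℕ := fun i =>
    i.elim 1 (Sum.elim (fun s => ω s * S.l) fun rq => ((rq.2 : ℕ) + 1) * S.l)
  have hxn : (x none : K) = algebraMap O K π := by rw [hx]; rfl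
  have hxs : ∀ s, (x (some (Sum.inl s)) : K) = S.X (f s) - 1 := fun s => by rw [hx]; rfl
  have hxr : ∀ r q, (x (some (Sum.inr (r, q))) : K) = (df S.τ)^[(q : ℕ) + 1] (S.X (b (f1 r))) :=
    fun r q => by rw [hx]; rfl
  -- the filtration: the ideal `𝔓`
  have hu1 : ¬ Pg (RZ S z a j) Q 0 (algebraMap O K u) := fun h => hu (hPiff u h)
  obtain ⟨hu0, hui⟩ := Lg.unit (hR.Lo (Q := Q) u) hu1
  have hFπ : algebraMap O K π ∈ FK B x wt 1 := by
    rw [← hxn]
    exact FK_gen (x := x) (a := wt) none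
  have hFP : ∀ (q : ℕ) (y : O), y ∈ S.𝔓 ^ q → algebraMap O K y ∈ FK B x wt q := by
    intro q
    induction q with
    | zero => exact fun y _ => FK_zero (hR.Lo y)
    | succ q ih =>
      intro y hy
      rw [pow_succ] at hy
      induction hy using Submodule.mul_induction_on' with
      | mem_mul_mem x' hx' y hy =>
        rw [map_mul]
        refine FK_mul (ih x' hx') ?_
        obtain ⟨d, hd'⟩ := hud y hy
        have h1 : algebraMap O K y = ((algebraMap O K u)⁻¹ * algebraMap O K d) *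
            algebraMap O K π := by
          have h2 := congrArg (algebraMap O K) hd'
          rw [map_mul, map_mul] at h2
          field_simp
          rw [mul_comm (algebraMap O K y), h2]
          ring
        rw [h1]
        exact FK_smul (B.mul_mem hui (hR.Lo d)) hFπ
      | add x' _ y _ hx' hy =>
        rw [map_add]
        exact add_mem hx' hy
  have hFp : (S.p : K) ∈ FK B x wt ((S.p - 1) * S.l) := by
    have h1 := hFP _ _ S.hp
    rwa [map_natCast] at h1
  -- the units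
  have hfs : ∀ s, S.X (f s) - 1 ∈ FK B x wt (ω s * S.l) := by
    intro s
    rw [← hxs]
    exact FK_gen (x := x) (a := wt) (some (Sum.inl s))
  have hE0 : ∀ e : L, S.X e - 1 ∈ FK B x wt S.l := by
    intro e
    have h1 := nak hLX S.X0 S.Xa hmx S.pp hpm f (fun e => by
      obtain ⟨nn, e', he, -⟩ := hdec 0 e
      exact ⟨nn, e', he⟩) e
    have h2 : Ideal.span (Set.range fun s => yB hLX (f s)) ≤ FI x wt S.l := by
      rw [Ideal.span_le]
      rintro _ ⟨s, rfl⟩
      have h3 := (hfs s)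
      have h4 : S.l ≤ ω s * S.l := Nat.le_mul_of_pos_left _ (hω s).1
      exact (FK_mono h4 h3).2
    exact mem_FK'.2 (h2 h1)
  have hEE : ∀ {i : ℕ}, i ≤ S.p - 1 → ∀ e : L,
      S.X ((dl S.t)^[i] e) - 1 ∈ FK B x wt ((i + 1) * S.l) := by
    intro i hi e
    have h1 := EE hLX S.X0 S.Xa S.pp hFp f ω hfs δ hdec hE0 hi e
    rwa [hδit] at h1
  -- the differences of the elements `X s`
  have hXd : ∀ e, dl S.t e ∈ L → S.X e ∈ B → S.X (S.t e) - S.X e ∈ FK B x wt S.l := by
    intro e he heB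
    have h1 := FK_smul heB (hE0 ⟨_, he⟩)
    have e1 : S.X e * (S.X (dl S.t e) - 1) = S.X (S.t e) - S.X e := by
      rw [dl_apply, S.Xsub]
      have := S.Xne e
      field_simp
    change S.X e * (S.X (dl S.t e) - 1) ∈ _ at h1
    rwa [e1] at h1
  have hfr1 : ∀ (r : κ1) (i : ℕ), 1 ≤ i → i ≤ S.p - 1 →
      (df S.τ)^[i] (S.X (b (f1 r))) ∈ FK B x wt (i * S.l) := by
    intro r i hi hi'
    obtain ⟨q, rfl⟩ : ∃ q, i = q + 1 := ⟨i - 1, by omega⟩
    have h1 := FK_gen (x := x) (a := wt) (some (Sum.inr (r, ⟨q, by omega⟩)))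
    rw [hxr] at h1
    exact h1
  have horb : ∀ (r : κ1) (i : ℕ), i ≤ S.p →
      S.X (S.t^[i] (b (f1 r))) - S.X (b (f1 r)) ∈ FK B x wt S.l := by
    intro r i hi
    rcases Nat.lt_or_eq_of_le hi with h | h
    · rw [← S.tauX]
      have h1 := Pool.Agent.Y438.G.df_iter (σ := ((S.τ : K ≃ₐ[k] K) : K →+* K)) i
        (S.X (b (f1 r)))
      have h2 : (((S.τ : K ≃ₐ[k] K) : K →+* K) : K → K) = S.τ := rfl
      rw [h2, Finset.sum_range_succ', Nat.choose_zero_right, Nat.cast_one, one_mul,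
        Function.iterate_zero_apply] at h1
      rw [h1, add_sub_cancel_right]
      refine sum_mem fun q hq => ?_
      rw [Finset.mem_range] at hq
      refine FK_smul (natCast_mem B _) ?_
      refine FK_mono ?_ (hfr1 r (q + 1) (by omega) (by omega))
      exact Nat.le_mul_of_pos_left _ (Nat.succ_pos _)
    · rw [h, S.tp, sub_self]
      exact zero_mem _
  have hG : ∀ i, S.X (g i) ∈ B ∧ S.X (S.t (g i)) - S.X (g i) ∈ FK B x wt S.l := by
    rintro ((i | i) | (q | ⟨r, q⟩))
    · have h1 := hg.g1 i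
      have h2 : S.X (g (Sum.inl (Sum.inl i))) ∈ B := hL.LS _ (LF_le (hLF _ h1))
      exact ⟨h2, hXd _ (hL.dL h1) h2⟩
    · have h1 := hg.g2 i
      have h2 : S.X (g (Sum.inl (Sum.inr i))) ∈ B := hL.LS _ (LF_le h1)
      exact ⟨h2, hXd _ (hL.dF h1) h2⟩
    · obtain ⟨h1, h2, h3⟩ := hg.h0 q
      have h4 : S.X (g (Sum.inr (Sum.inl q))) ∈ B := (hinr _).lg
      refine ⟨h4, hXd _ ?_ h4⟩
      rw [h1]
      exact AddSubgroup.mem_inf.2 ⟨h3, KN_step S.tp _⟩
    · refine ⟨(hinr _).lg, ?_⟩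
      rw [hg.h1, ← Function.iterate_succ_apply' S.t]
      have h1 := sub_mem (horb r (q + 1) q.2) (horb r q q.2.le)
      rwa [sub_sub_sub_cancel_right] at h1
  have hSd : ∀ s ∈ SF b J, S.X s ∈ B ∧ S.X (S.t s) - S.X s ∈ FK B x wt S.l := by
    intro s hs
    have hs' : s ∈ GS g U := by rw [← hSF]; exact hs
    refine GS_ind (fun s => S.X s ∈ B ∧ S.X (S.t s) - S.X s ∈ FK B x wt S.l) ?_ ?_ ?_ ?_ hs'
    · rw [map_zero, S.X0, sub_self]
      exact ⟨B.one_mem, zero_mem _⟩
    · rintro s s' ⟨h1, h2⟩ ⟨h3, h4⟩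
      have h5 : S.X (S.t s') ∈ B := by
        have := B.add_mem (FK_le h4) h3
        rwa [sub_add_cancel] at this
      refine ⟨by rw [S.Xa]; exact B.mul_mem h1 h3, ?_⟩
      have e : S.X (S.t (s + s')) - S.X (s + s') =
          S.X (S.t s') * (S.X (S.t s) - S.X s) + S.X s * (S.X (S.t s') - S.X s') := by
        rw [map_add, S.Xa, S.Xa]
        ring
      rw [e]
      exact add_mem (FK_smul h5 h2) (FK_smul h1 h4)
    · exact hG
    · rintro i ⟨i', rfl⟩
      have h1 : g (Sum.inl i') ∈ LF b J := by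
        rcases i' with i' | i'
        · exact hLF _ (hg.g1 i')
        · exact hg.g2 i'
      have h2 : S.X (-g (Sum.inl i')) ∈ B := hL.LS _ (LF_le (neg_mem h1))
      refine ⟨h2, hXd _ ?_ h2⟩
      rw [map_neg]
      exact neg_mem (hL.dF h1)
  -- the differences of the elements of the local ring
  have hTd : ∀ y ∈ T, S.τ y - y ∈ FK B x wt S.l := by
    intro y hy
    have hy' : y ∈ Algebra.adjoin O (S.X '' (SF b J : Set Λ)) := by
      rw [hT] at hy
      exact hy
    have hmB : ∀ y, y ∈ Algebra.adjoin O (S.X '' (SF b J : Set Λ)) → y ∈ B := fun y hy =>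
      hTB y (by rw [hT]; exact hy)
    clear hy
    induction hy' using Algebra.adjoin_induction with
    | mem y hy =>
      obtain ⟨s, hs, rfl⟩ := hy
      rw [S.τX]
      exact (hSd s hs).2
    | algebraMap r =>
      rw [S.com, ← map_sub]
      exact FK_mono (Nat.le_succ _) (hFP _ _ (S.dv r))
    | add y y' _ _ hy hy' =>
      have e : S.τ (y + y') - (y + y') = (S.τ y - y) + (S.τ y' - y') := by rw [map_add]; ring
      rw [e]
      exact add_mem hy hy'
    | mul y y' h1 h2 hy hy' =>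
      have h3 : S.τ y' ∈ B := by
        have := B.add_mem (FK_le hy') (hmB _ h2)
        rwa [sub_add_cancel] at this
      have e : S.τ (y * y') - y * y' = S.τ y' * (S.τ y - y) + y * (S.τ y' - y') := by
        rw [map_mul]
        ring
      rw [e]
      exact add_mem (FK_smul h3 hy) (FK_smul (hmB _ h1) hy')
  have hd1 : ∀ y ∈ B, S.τ y - y ∈ FK B x wt S.l := by
    intro y hy
    obtain ⟨v, hv, hv1, hv2⟩ := hfr y hy
    rw [mem_maxLgR] at hv1
    obtain ⟨h1, h2⟩ := GG.unit hNT (hdel (d := 0) (hTB v hv)) hv1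
    have h3 := hTd _ hv
    have h4 := hTd _ hv2
    have e3 : S.τ y - y = (S.τ v)⁻¹ * ((S.τ (v * y) - v * y) - y * (S.τ v - v)) := by
      rw [map_mul]
      field_simp
      ring
    rw [e3]
    exact FK_smul h2 (sub_mem h4 (FK_smul hy h3))
  -- the differences of the parameters
  have hτx : ∀ i, S.τ (x i) - (x i : K) ∈ FK B x wt (wt i + S.l) := by
    rintro (_ | s | ⟨r, q⟩)
    · rw [hxn, S.com, ← map_sub]
      have h1 := hFP _ _ (S.dv π)
      rw [add_comm S.l 1] at h1
      exact h1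
    · rw [hxs, map_sub, map_one, S.τX, sub_sub_sub_cancel_right]
      obtain ⟨hω1, hω2, e, he⟩ := hω s
      have h1 := hEE hω2 e
      have e1 : (dl S.t)^[ω s] (e : Λ) = dl S.t (f s : Λ) := by
        obtain ⟨q, hq⟩ : ∃ q, ω s = q + 1 := ⟨ω s - 1, by omega⟩
        rw [he, hδit, ← Function.iterate_succ_apply' (dl S.t), hq, Nat.add_sub_cancel]
      rw [e1] at h1
      have h2 := FK_smul (hLX _ (f s).2) h1
      have e2 : S.X (f s) * (S.X (dl S.t (f s : Λ)) - 1) = S.X (S.t (f s)) - S.X (f s) := by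
        rw [dl_apply, S.Xsub]
        have := S.Xne (f s)
        field_simp
      rw [e2] at h2
      have e3 : (ω s + 1) * S.l = wt (some (Sum.inl s)) + S.l := by
        change (ω s + 1) * S.l = ω s * S.l + S.l
        ring
      rwa [e3] at h2
    · rw [hxr]
      have e1 : S.τ ((df S.τ)^[(q : ℕ) + 1] (S.X (b (f1 r)))) -
          (df S.τ)^[(q : ℕ) + 1] (S.X (b (f1 r))) =
          (df S.τ)^[(q : ℕ) + 1 + 1] (S.X (b (f1 r))) := by
        rw [Function.iterate_succ_apply' _ ((q : ℕ) + 1)]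
        rfl
      have e3 : wt (some (Sum.inr (r, q))) + S.l = ((q : ℕ) + 1 + 1) * S.l := by
        change ((q : ℕ) + 1) * S.l + S.l = ((q : ℕ) + 1 + 1) * S.l
        ring
      rw [e1, e3]
      by_cases hq : (q : ℕ) + 1 + 1 ≤ S.p - 1
      · exact hfr1 r _ (by omega) hq
      · have hq' : (q : ℕ) + 1 + 1 = S.p := by have := q.2; omega
        rw [hq', dfp S.pp (by rw [S.tauX, S.tp])]
        refine neg_mem ?_
        have e4 : S.p * S.l = (S.p - 1) * S.l + S.l := by
          obtain ⟨q', hq'⟩ : ∃ q', S.p = q' + 1 := ⟨S.p - 1, by omega⟩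
          rw [hq', Nat.add_sub_cancel]
          ring
        rw [e4]
        refine FK_mul hFp (sum_mem fun i hi => FK_smul (natCast_mem B _) ?_)
        rw [Finset.mem_range] at hi
        exact FK_mono (Nat.le_mul_of_pos_left _ (Nat.succ_pos _)) (hfr1 r _ (by omega) (by omega))
  -- the elements of `D i`
  have hDF0 : ∀ y ∈ S.D 0, y / S.X w ∈ B := fun y hy => hTB _ (by rw [hT]; exact hL.DT hy)
  have hDF : ∀ i, i ≤ S.p → ∀ y ∈ S.D i, y / S.X w ∈ FK B x wt (i * S.l) := by
    intro i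
    induction i with
    | zero =>
      intro _ y hy
      rw [Nat.zero_mul]
      exact FK_zero (hDF0 y hy)
    | succ i ih =>
      intro hi y hy
      rcases Nat.eq_zero_or_pos i with h | h
      · subst h
        rw [zero_add, one_mul]
        rw [zero_add, S.D1] at hy
        induction hy using AddSubgroup.closure_induction with
        | mem y hy =>
          obtain ⟨m1, hm1, m2, hm2, hN, rfl⟩ := hy
          have h1 : S.X (m1 - w) - S.X (m2 - w) ∈ FK B x wt S.l := by
            refine moves (t := S.t) (p := S.p) S.X0 S.Xa hL.hS S.pp.pos S.tp (FK B x wt S.l)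
              ?_ ?_ ?_ (hL.cone m1 hm1) (hL.cone m2 hm2)
              (by rw [sub_sub_sub_cancel_right]; exact hN)
            · intro s hs y hy
              exact FK_smul (hSd s hs).1 hy
            · intro s hs
              exact (hSd s hs).2
            · intro e he heN
              exact hE0 ⟨e, AddSubgroup.mem_inf.2 ⟨he, heN⟩⟩
          rwa [S.Xsub, S.Xsub, ← sub_div] at h1
        | zero => rw [zero_div]; exact zero_mem _
        | add x y _ _ hx hy => rw [add_div]; exact add_mem hx hy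
        | neg x _ hx => rw [neg_div]; exact neg_mem hx
      · rw [S.Ds i h] at hy
        induction hy using AddSubgroup.closure_induction with
        | mem y hy =>
          obtain ⟨y', hy', rfl⟩ := hy
          have h1 := FK_delta (τ := ((S.τ : K ≃ₐ[k] K) : K →+* K)) hd1 hτx
            (ih (by omega) y' hy')
          have e : ((S.τ : K ≃ₐ[k] K) : K →+* K) (y' / S.X w) - y' / S.X w =
              (S.τ y' - y') / S.X w := by
            change S.τ (y' / S.X w) - y' / S.X w = _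
            rw [map_div₀, S.τX, hL.tw, sub_div]
          rw [e] at h1
          have e4 : i * S.l + S.l = (i + 1) * S.l := by ring
          rwa [e4] at h1
        | zero => rw [zero_div]; exact zero_mem _
        | add x y _ _ hx hy => rw [add_div]; exact add_mem hx hy
        | neg x _ hx => rw [neg_div]; exact neg_mem hx
  -- the elements of the graded ring
  have hFI : ∀ (q : ℕ) (y : B), hm q (y : K) ∈ RZ S z a j → y ∈ FI x wt q := by
    have h1 : ∀ f' ∈ RZ S z a j, ∀ d : ℤ, f'.coeff d ∈ FK B x wt d.toNat := by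
      intro f' hf'
      refine graded_ind (k := k) (fun d y => y ∈ FK B x wt d.toNat) (fun d => zero_mem _)
        (fun d x y hx hy => add_mem hx hy) (fun d e x y hx hy => ?_) (fun c' => ?_)
        (fun s hs => ?_) f' hf'
      · refine FK_mono ?_ (FK_mul hx hy)
        omega
      · rw [IsScalarTower.algebraMap_apply k O K]
        exact FK_zero (hR.Lo _)
      · rcases hC.gens (j := j) s hs with rfl | ⟨y, hy, rfl⟩ | ⟨o, rfl⟩ | ⟨i, rfl⟩
        · exact ⟨_, _, rfl, FK_zero B.one_mem⟩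
        · refine ⟨_, _, rfl, ?_⟩
          exact hFP 1 y (by rwa [pow_one])
        · exact ⟨_, _, rfl, FK_zero (hR.Lo o)⟩
        · refine ⟨_, _, rfl, ?_⟩
          have h2 := hDF _ (hC.ap i) _ (hC.zD i)
          obtain ⟨-, h3⟩ := Lg.unit hL.cw hL.cn
          have h4 := FK_smul h3 h2
          have e1 : (c / S.X w)⁻¹ * (z i / S.X w) = z i / c := by field_simp
          rw [e1] at h4
          rw [Int.toNat_natCast]
          exact h4
    intro q y hy
    have h2 := h1 _ hy q
    rw [coeff_hm_same, Int.toNat_natCast] at h2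
    exact h2.2
  -- the degrees of the parameters
  have hLe : ∀ (i : ℕ) (e : L), Lg (RZ S z a j) Q (((i + 1) * S.l : ℕ) : ℤ)
      (S.X ((dl S.t)^[i] e) - 1) := by
    intro i
    induction i with
    | zero =>
      intro e
      rw [zero_add, one_mul]
      exact hL.Le e (hLF _ e.2) (hLN _ e.2)
    | succ i ih =>
      intro e
      have h1 := (hdel (ih e)).2.2
      set e' := (dl S.t)^[i] (e : Λ) with he'
      have he'L : e' ∈ L := by rw [he', ← hδit]; exact (δ^[i] e).2
      have h2 := (hLX _ (neg_mem he'L) : Lg (RZ S z a j) Q 0 _).mul0 h1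
      have e1 : S.X (-e') * (S.τ (S.X e' - 1) - (S.X e' - 1)) =
          S.X ((dl S.t)^[i + 1] (e : Λ)) - 1 := by
        rw [Function.iterate_succ_apply', ← he', map_sub, map_one, S.τX, dl_apply, S.Xsub, S.Xneg]
        have := S.Xne e'
        field_simp
        ring
      rw [e1] at h2
      have e4 : (((i + 1) * S.l : ℕ) : ℤ) + S.l = (((i + 1 + 1) * S.l : ℕ) : ℤ) := by
        push_cast; ring
      rwa [e4] at h2
  have hxL : ∀ i, Lg (RZ S z a j) Q ((wt i : ℕ) : ℤ) (x i : K) := by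
    rintro (_ | s | ⟨r, q⟩)
    · rw [hxn]
      exact Lg.of (hR.e π hπ)
    · rw [hxs]
      obtain ⟨hω1, hω2, e, he⟩ := hω s
      have h1 := hLe (ω s - 1) e
      rw [← hδit, ← he, Nat.sub_add_cancel hω1] at h1
      exact h1
    · rw [hxr]
      exact hdit _ (hbL r)
  refine wch2 hWREG Gr_RZ hR.s RZ_zero Q hTQ hBreg x wt ?_ hxL (by rw [hx]; exact hI) hFI
  rintro (_ | s | ⟨r, q⟩)
  · exact Nat.one_pos
  · exact Nat.mul_pos (hω s).1 S.l0
  · exact Nat.mul_pos (Nat.succ_pos _) S.l0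

end Pool.Agent.Zk15
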