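import Pool.Agent.Zk15.RegT
import Pool.Agent.Zk15.Chart
import Pool.Agent.Y901.G.Wreg

/-!
# The graded rings of the charts
-/

set_option autoImplicit false
set_option linter.unusedSectionVars false

namespace Pool.Agent.Zk15

open Pool.Agent.Y223.G IsLocalRing
open Pool.Agent.Y86.G5 (im mem_im im_sub im_mul im_prime im_one im_pow)
open Pool.Agent.R383.TM (WR WR_s WR_e WR_o WR_z FIX)

variable {k O K Λ : Type} [CommRing k] [CommRing O] [Field K] [Algebra k K] [Algebra O K]
  [AddCommGroup Λ] {n : ℕ} [Algebra k O] [IsScalarTower k O K] {S : Dat k O K Λ n} {m : ℕ}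
  {z : Fin (m + 1) → K} {a : Fin (m + 1) → ℕ} {j : Fin (m + 1)}

/-- **The graded rings are regular.** -/
theorem CH.reg [IsDedekindDomain O] (hWREG : S_WREG) (hC : CH S z a)
    (hch : IsRegularRing (Algebra.adjoin O (Set.range fun i => z i / z j))) :
    IsRegularRing (RZ S z a j) := by
  have hn : IsNoetherianRing (RZ S z a j) := WR_noeth
  have hR : Zk15.RH S (RZ S z a j) (z j) := hC.RH
  rw [isRegularRing_iff]
  intro PP hPP
  by_cases hPT : (⟨hm (-1) 1, hR.s⟩ : RZ S z a j) ∈ PP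
  · exact hC.regT hWREG ⟨hR.s, hPT⟩
  · let _ := locAlg (RZ S z a j) hR.s
    have h1 : IsLocalization.Away (⟨hm (-1) 1, hR.s⟩ : RZ S z a j)
        (loc (RZ S z a j) (hm (-1) 1) hR.s) := isLocalization_loc _ hR.s (isUnit_hm one_ne_zero)
    have h2 : IsRegularRing (loc (RZ S z a j) (hm (-1) 1) hR.s) := by
      refine Pool.Agent.Y563.GW.regular_case1
        (j := (Algebra.adjoin O (Set.range fun i => z i / z j)).val.toRingHom) Gr_RZ hR.s RZ_zero
        Subtype.val_injective ?_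
      intro y
      constructor
      · intro hy
        have h3 : ∀ f ∈ RZ S z a j, ∀ d : ℤ,
            f.coeff d ∈ Algebra.adjoin O (Set.range fun i => z i / z j) := by
          intro f hf
          refine graded_ind (k := k)
            (fun _ y => y ∈ Algebra.adjoin O (Set.range fun i => z i / z j))
            (fun _ => Subalgebra.zero_mem _) (fun _ x y hx hy => Subalgebra.add_mem _ hx hy)
            (fun _ _ x y hx hy => Subalgebra.mul_mem _ hx hy) (fun c => ?_) (fun s hs => ?_) f hf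
          · rw [IsScalarTower.algebraMap_apply k O K]
            exact Subalgebra.algebraMap_mem _ _
          · rcases hC.gens (j := j) s hs with rfl | ⟨x, hx, rfl⟩ | ⟨o, rfl⟩ | ⟨i, rfl⟩
            · exact ⟨_, _, rfl, Subalgebra.one_mem _⟩
            · exact ⟨_, _, rfl, Subalgebra.algebraMap_mem _ _⟩
            · exact ⟨_, _, rfl, Subalgebra.algebraMap_mem _ _⟩
            · exact ⟨_, _, rfl, Algebra.subset_adjoin ⟨i, rfl⟩⟩
        have h4 := h3 _ hy 0
        rw [coeff_hm_same] at h4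
        exact ⟨⟨y, h4⟩, rfl⟩
      · rintro ⟨⟨y, hy⟩, rfl⟩
        change hm 0 y ∈ RZ S z a j
        induction hy using Algebra.adjoin_induction with
        | mem y hy =>
          obtain ⟨i, rfl⟩ := hy
          exact hm_low hR.s (WR_z i) (by positivity)
        | algebraMap r => exact hR.o r
        | add x y _ _ hx hy => rw [hm_add]; exact Subalgebra.add_mem _ hx hy
        | mul x y _ _ hx hy =>
          have := Subalgebra.mul_mem _ hx hy
          rwa [hm_mul, zero_add] at this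
    refine Pool.Agent.Y563.GW.reg_of_loc (B := loc (RZ S z a j) (hm (-1) 1) hR.s)
      (Submonoid.powers (⟨hm (-1) 1, hR.s⟩ : RZ S z a j)) PP ?_ ?_
    · rw [Set.disjoint_left]
      rintro _ ⟨n, rfl⟩ h3
      exact hPT (hPP.mem_of_pow_mem n h3)
    · intro p _ _
      infer_instance

/-- **No zeros.** -/
theorem CH.fix [IsDedekindDomain O] (hC : CH S z a) (x : RZ S z a j)
    (hx : ∃ n : ℕ, 0 < n ∧ ∃ a : K, (x : LP K) = hm n a) :
    x ∈ (FIX k S.𝔓 1 S.l (fun i => a i * S.l) z S.τ S.T j).radical := by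
  have hR : Zk15.RH S (RZ S z a j) (z j) := hC.RH
  rw [Ideal.radical_eq_sInf, Submodule.mem_sInf]
  rintro Q ⟨hFQ, hQ⟩
  have hspan : ∀ f (hf : f ∈ RZ S z a j), ((∃ a ∈ S.𝔓, f = hm 0 (algebraMap O K a)) ∨
      (∃ a ∈ S.𝔓, f = hm (((1 : ℕ) : ℤ) + S.l) (algebraMap O K (S.T a - a))) ∨
      ∃ i l, f = hm (((a i * S.l : ℕ) : ℤ) + ((a l * S.l : ℕ) : ℤ) + S.l)
        ((z i * S.τ (z l) - z l * S.τ (z i)) / z j ^ 2)) → f ∈ im (RZ S z a j) Q := by
    intro f hf h
    exact ⟨hf, hFQ (Ideal.subset_span h)⟩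
  obtain ⟨n, hn, y, hxy⟩ := hx
  have h1 := hC.nozero (Q := Q) ?_ ?_ ?_ x.2 (d := n) (by exact_mod_cast hn)
  · rw [hxy, coeff_hm_same, ← hxy] at h1
    exact h1.2
  · intro x hx
    exact hspan _ (hR.o x) (Or.inl ⟨x, hx, rfl⟩)
  · intro x hx
    have h2 := hR.epow _ (S.dv x)
    have e : ((S.l + 1 : ℕ) : ℤ) = 1 + S.l := by push_cast; ring
    rw [e] at h2
    exact hspan _ h2 (Or.inr (Or.inl ⟨x, hx, by rw [Nat.cast_one]⟩))
  · intro i i'
    refine hspan _ ?_ (Or.inr (Or.inr ⟨i, i', rfl⟩))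
    have hz := hC.z0 j
    have h1 := Subalgebra.mul_mem _ (hR.d _ (hC.ap i) _ (hC.zD i)) (hR.dd (hC.ap i') (hC.zD i'))
    have h2 := Subalgebra.mul_mem _ (hR.d _ (hC.ap i') _ (hC.zD i')) (hR.dd (hC.ap i) (hC.zD i))
    rw [hm_mul] at h1 h2
    have e1 : ((a i' * S.l : ℕ) : ℤ) + (((a i * S.l : ℕ) : ℤ) + S.l) =
        ((a i * S.l : ℕ) : ℤ) + ((a i' * S.l : ℕ) : ℤ) + S.l := by ring
    rw [e1] at h2
    rw [← add_assoc] at h1
    have h3 := Subalgebra.sub_mem _ h1 h2
    rw [← hm_sub] at h3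
    have e2 : z i / z j * ((S.τ (z i') - z i') / z j) - z i' / z j * ((S.τ (z i) - z i) / z j) =
        (z i * S.τ (z i') - z i' * S.τ (z i)) / z j ^ 2 := by
      field_simp
      ring
    rwa [e2] at h3

end Pool.Agent.Zk15
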