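import Pool.Agent.Zk15.Dat

/-!
# The local data at a prime of a chart
-/

set_option autoImplicit false
set_option linter.unusedSectionVars false

namespace Pool.Agent.Zk15

open Pool.Agent.Y223.G IsLocalRing
open Pool.Agent.Y86.G5 (im mem_im im_sub im_mul im_prime im_one im_pow)

variable {k O K Λ : Type} [CommRing k] [CommRing O] [Field K] [Algebra k K] [Algebra O K]
  [AddCommGroup Λ] {n : ℕ}

/-- The data at a prime of a chart. -/
structure LV (S : Dat k O K Λ n) (R : Subalgebra k (LP K)) (c : K) (Q : Ideal R)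
    (b : Module.Basis (Fin n) ℤ Λ) (J : Set (Fin n)) (w : Λ) : Prop where
  hS : ∀ s ∈ SF b J, S.t s ∈ SF b J
  LS : ∀ s ∈ SF b J, Lg R Q 0 (S.X s)
  nP : ∀ s ∈ LF b J, ¬ Pg R Q 0 (S.X s)
  yP : ∀ s ∈ SF b J, s ∉ LF b J → Pg R Q 0 (S.X s)
  wP : w ∈ S.P
  tw : S.t w = w
  cone : ∀ m ∈ S.P, m - w ∈ SF b J
  cw : Lg R Q 0 (c / S.X w)
  cn : ¬ Pg R Q 0 (c / S.X w)
  Le : ∀ e ∈ LF b J, e ∈ KN S.t S.p → Lg R Q S.l (S.X e - 1)
  Ld : ∀ i ≤ S.p, ∀ x ∈ S.D i, Lg R Q ((i * S.l : ℕ) : ℤ) (x / S.X w)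

theorem RH.exists_LV {S : Dat k O K Λ n} {R : Subalgebra k (LP K)} {c : K} (hR : RH S R c)
    {Q : Ideal R} [hQ : Q.IsPrime]
    (hst : ∀ m ∈ S.P, ¬ Pg R Q 0 (S.X m / c) → ¬ Pg R Q 0 (S.X (S.t m) / c)) :
    ∃ b J w, LV S R c Q b J w := by
  obtain ⟨v, b, hvb, hv⟩ := hR.exists_vertex (Q := Q)
  obtain ⟨hS, htv⟩ := hR.stab hvb hv hst
  have hPV := S.hV v b hvb
  set J := JJ S R Q b with hJ
  obtain ⟨w, hwP, htw, hw⟩ := hPV.inv
  have hwv : w - v ∈ LF b J := hw J hS htv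
  have hc0 := hR.c0
  have hwu : ¬ Pg R Q 0 (S.X w / c) := (hR.unit_iff hvb hv hwP).2 hwv
  have hwL : Lg R Q 0 (S.X w / c) := hR.LX hwP
  obtain ⟨-, hwi⟩ := Lg.unit hwL hwu
  rw [inv_div] at hwi
  have hcone : ∀ m ∈ S.P, m - w ∈ SF b J := by
    intro m hm
    have e : m - w = (m - v) + -(w - v) := by abel
    rw [e]
    exact add_mem (hR.cone hvb hv hm) (LF_le (neg_mem hwv))
  refine ⟨b, J, w, ?_⟩
  refine
  { hS := hS
    LS := fun s hs => hR.LS hvb hv hs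
    nP := fun s hs => hR.nP hvb hv hs
    yP := fun s hs h => hR.yP hvb hv hs h
    wP := hwP
    tw := htw
    cone := hcone
    cw := hwi
    cn := fun h => ?_
    Le := fun e he heN => ?_
    Ld := fun i hi x hx => ?_ }
  · have h1 := hwL.mulP0 h
    have e : S.X w / c * (c / S.X w) = 1 := by
      have := S.Xne w
      field_simp
    rw [e] at h1
    exact Pg.not_one h1
  · have h1 := hPV.gens J hS e he heN
    have h2 : Lg R Q 0 (S.X e) ∧ Lg R Q 0 (S.X (-e)) ∧ Lg R Q S.l (S.X e - 1) := by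
      clear he heN
      induction h1 using AddSubgroup.closure_induction with
      | mem e he =>
        obtain ⟨m, hm, m', hm', hmv, hmv', hN, rfl⟩ := he
        have hL : m - m' ∈ LF b J := by
          have e : m - m' = (m - v) - (m' - v) := by abel
          rw [e]
          exact sub_mem hmv hmv'
        refine ⟨hR.LS hvb hv (LF_le hL), hR.LS hvb hv (LF_le (neg_mem hL)), ?_⟩
        have h3 : S.X m - S.X m' ∈ S.D 1 := by
          rw [S.D1]
          exact AddSubgroup.subset_closure ⟨m, hm, m', hm', hN, rfl⟩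
        have h4 := hR.Ld (Q := Q) S.pp.one_le h3
        obtain ⟨-, h5⟩ := Lg.unit (hR.LX hm') ((hR.unit_iff hvb hv hm').2 hmv')
        have h6 := h5.mul0 h4
        have e : (S.X m' / c)⁻¹ * ((S.X m - S.X m') / c) = S.X (m - m') - 1 := by
          rw [S.Xsub]
          have := S.Xne m'
          field_simp
        rw [e, one_mul] at h6
        exact h6
      | zero =>
        rw [neg_zero, S.X0, sub_self]
        exact ⟨Lg.one, Lg.one, Lg.zero _⟩
      | add x y _ _ hx hy =>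
        refine ⟨by rw [S.Xa]; exact hx.1.mul0 hy.1, by
          rw [neg_add, S.Xa]; exact hx.2.1.mul0 hy.2.1, ?_⟩
        have e : S.X (x + y) - 1 = S.X x * (S.X y - 1) + (S.X x - 1) := by
          rw [S.Xa]
          ring
        rw [e]
        exact (hx.1.mul0 hy.2.2).add hx.2.2
      | neg x _ hx =>
        refine ⟨hx.2.1, by rw [neg_neg]; exact hx.1, ?_⟩
        have e : S.X (-x) - 1 = -(S.X (-x) * (S.X x - 1)) := by
          rw [mul_sub, mul_comm (S.X (-x)) (S.X x), X_neg S.X0 S.Xa]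
          ring
        rw [e]
        exact (hx.2.1.mul0 hx.2.2).neg
    exact h2.2.2
  · have h1 := hwi.mul0 (hR.Ld (Q := Q) hi hx)
    have e : c / S.X w * (x / c) = x / S.X w := by field_simp
    rwa [e] at h1

section

variable {S : Dat k O K Λ n} {R : Subalgebra k (LP K)} {c : K} {Q : Ideal R} [hQ : Q.IsPrime]
  {b : Module.Basis (Fin n) ℤ Λ} {J : Set (Fin n)} {w : Λ} (h : LV S R c Q b J w)

include h

/-- The lattice `L` is stable. -/
lemma LV.tL {e : Λ} (he : e ∈ LF b J ⊓ KN S.t S.p) : S.t e ∈ LF b J ⊓ KN S.t S.p :=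
  AddSubgroup.mem_inf.2 ⟨LF_iter h.hS 1 he.1, KN_stab he.2⟩

lemma LV.dL {e : Λ} (he : e ∈ LF b J ⊓ KN S.t S.p) : dl S.t e ∈ LF b J ⊓ KN S.t S.p :=
  sub_mem (h.tL he) he

/-- The differences of the units are in the lattice `L`. -/
lemma LV.dF {e : Λ} (he : e ∈ LF b J) : dl S.t e ∈ LF b J ⊓ KN S.t S.p :=
  AddSubgroup.mem_inf.2 ⟨(LF b J).sub_mem (LF_iter h.hS 1 he) he, KN_step S.tp e⟩

/-- The differences act on the graded ring. -/
theorem LV.del {N : ℤ → K → Prop} (hN : NT R Q S.l N) {m : ℕ} {z : Fin (m + 1) → K}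
    {a : Fin (m + 1) → ℕ} (hz : ∀ i, z i ∈ S.D (a i)) (ha : ∀ i, a i ≤ S.p) {A : Set (LP K)}
    (hRA : R = Algebra.adjoin k A)
    (hA : ∀ f ∈ A, f = hm (-1) 1 ∨ (∃ x ∈ S.𝔓, f = hm (1 : ℤ) (algebraMap O K x)) ∨
      (∃ o : O, f = hm 0 (algebraMap O K o)) ∨ ∃ i, f = hm ((a i * S.l : ℕ) : ℤ) (z i / c))
    (hc : c ∈ S.D 0)
    (hR : RH S R c)
    (hN0 : ∀ o : O, N S.l (algebraMap O K (S.T o - o)))
    (hN1 : ∀ x ∈ S.𝔓, N (1 + S.l) (algebraMap O K (S.T x - x)))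
    (hN2 : ∀ i ≤ S.p, ∀ x ∈ S.D i, N (((i * S.l : ℕ) : ℤ) + S.l) ((S.τ x - x) / S.X w))
    {d : ℤ} {x : K} (hx : Lg R Q d x) : GG R Q S.τ S.l N d x := by
  have hGD : ∀ i ≤ S.p, ∀ x ∈ S.D i, GG R Q S.τ S.l N ((i * S.l : ℕ) : ℤ) (x / S.X w) := by
    intro i hi x hx
    have e1 : S.τ (x / S.X w) = S.τ x / S.X w := by
      rw [map_div₀, S.τX, h.tw]
    refine ⟨h.Ld i hi x hx, ?_, ?_⟩
    · rw [e1]
      exact h.Ld i hi _ (S.Dτ i x hx)
    · rw [e1, ← sub_div]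
      exact hN2 i hi x hx
  have hGc : GG R Q S.τ S.l N 0 (c / S.X w) := by
    have h1 := hGD 0 (Nat.zero_le _) c hc
    rwa [Nat.zero_mul, Nat.cast_zero] at h1
  have hTx : ∀ x ∈ S.𝔓, S.T x ∈ S.𝔓 := by
    intro x hx
    have h1 : S.T x - x ∈ S.𝔓 := Ideal.pow_le_self (Nat.succ_ne_zero _) (S.dv x)
    have h2 := S.𝔓.add_mem h1 hx
    rwa [sub_add_cancel] at h2
  refine Zk15.del hN hRA (fun f hf => ?_) hx
  rcases hA f hf with rfl | ⟨x, hx, rfl⟩ | ⟨o, rfl⟩ | ⟨i, rfl⟩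
  · refine ⟨-1, 1, rfl, Lg.of hR.s, ?_, ?_⟩
    · rw [map_one]
      exact Lg.of hR.s
    · rw [map_one, sub_self]
      exact hN.z _
  · refine ⟨1, _, rfl, Lg.of (hR.e x hx), ?_, ?_⟩
    · rw [S.com]
      exact Lg.of (hR.e _ (hTx x hx))
    · rw [S.com, ← map_sub]
      exact hN1 x hx
  · refine ⟨0, _, rfl, Lg.of (hR.o o), ?_, ?_⟩
    · rw [S.com]
      exact Lg.of (hR.o _)
    · rw [S.com, ← map_sub, zero_add]
      exact hN0 o
  · refine ⟨_, _, rfl, ?_⟩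
    refine GG.div hN hGc h.cn ?_
    have e : c / S.X w * (z i / c) = z i / S.X w := by
      have := hR.c0
      field_simp
    rw [e]
    exact hGD _ (ha i) _ (hz i)

end

end Pool.Agent.Zk15
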